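import Mathlib

/-!
# Independent Bernoulli variables
-/

namespace Pool.Agent.Lib.MP_49901c_pr

variable {ι κ V : Type*} [Fintype ι] [Fintype κ]

/-- The weight of a configuration of independent Bernoulli variables. -/
noncomputable def wt (q : ℝ) (ω : ι → Bool) : ℝ := ∏ e, if ω e then q else 1 - q

/-- Expectation with respect to independent Bernoulli variables. -/
noncomputable def Ex [DecidableEq ι] {F : Type*} [AddCommMonoid F] [Module ℝ F] (q : ℝ)
    (f : (ι → Bool) → F) : F := ∑ ω, wt q ω • f ω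

theorem wt_nonneg {q : ℝ} (h0 : 0 ≤ q) (h1 : q ≤ 1) (ω : ι → Bool) : 0 ≤ wt q ω := by
  unfold wt
  apply Finset.prod_nonneg
  intro e _
  split_ifs
  · exact h0
  · linarith

section

variable [DecidableEq ι]

theorem Ex_prod {A : Type*} [CommRing A] [Algebra ℝ A] (q : ℝ) (g : ι → Bool → A) :
    Ex q (fun ω => ∏ e, g e (ω e)) = ∏ e, (algebraMap ℝ A q * g e true +
      algebraMap ℝ A (1 - q) * g e false) := by
  unfold Ex
  have h1 : ∀ e, algebraMap ℝ A q * g e true + algebraMap ℝ A (1 - q) * g e false =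
      ∑ b : Bool, (algebraMap ℝ A (if b then q else 1 - q)) * g e b := by
    intro e
    rw [Fintype.sum_bool]
    simp
  simp_rw [h1]
  rw [Finset.prod_univ_sum, Fintype.piFinset_univ]
  apply Finset.sum_congr rfl
  intro ω _
  rw [Algebra.smul_def, Finset.prod_mul_distrib]
  congr 1
  unfold wt
  rw [map_prod]

theorem sum_wt (q : ℝ) : ∑ ω : ι → Bool, wt q ω = 1 := by
  have h := Ex_prod (A := ℝ) (ι := ι) q (fun _ _ => 1)
  unfold Ex at h
  simpa using h

theorem Ex_const (q : ℝ) (c : ℝ) : Ex (ι := ι) q (fun _ => c) = c := by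
  unfold Ex
  simp_rw [smul_eq_mul]
  rw [← Finset.sum_mul, sum_wt, one_mul]

theorem Ex_mono {q : ℝ} (h0 : 0 ≤ q) (h1 : q ≤ 1) {f g : (ι → Bool) → ℝ} (h : ∀ ω, f ω ≤ g ω) :
    Ex q f ≤ Ex q g := by
  unfold Ex
  apply Finset.sum_le_sum
  intro ω _
  exact mul_le_mul_of_nonneg_left (h ω) (wt_nonneg h0 h1 ω)

theorem Ex_nonneg {q : ℝ} (h0 : 0 ≤ q) (h1 : q ≤ 1) {f : (ι → Bool) → ℝ} (h : ∀ ω, 0 ≤ f ω) :
    0 ≤ Ex q f := by
  unfold Ex
  apply Finset.sum_nonneg
  intro ω _
  exact mul_nonneg (wt_nonneg h0 h1 ω) (h ω)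

theorem Ex_sum {F : Type*} [AddCommMonoid F] [Module ℝ F] {S : Type*} (s : Finset S) (q : ℝ)
    (f : S → (ι → Bool) → F) : Ex q (fun ω => ∑ i ∈ s, f i ω) = ∑ i ∈ s, Ex q (f i) := by
  unfold Ex
  simp_rw [Finset.smul_sum]
  rw [Finset.sum_comm]

theorem Ex_mul_left {A : Type*} [Ring A] [Algebra ℝ A] (q : ℝ) (c : A) (f : (ι → Bool) → A) :
    Ex q (fun ω => c * f ω) = c * Ex q f := by
  unfold Ex
  rw [Finset.mul_sum]
  apply Finset.sum_congr rfl
  intro ω _
  rw [mul_smul_comm]

theorem norm_Ex_le {q : ℝ} (h0 : 0 ≤ q) (h1 : q ≤ 1) (f : (ι → Bool) → ℂ) :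
    ‖Ex q f‖ ≤ Ex q (fun ω => ‖f ω‖) := by
  unfold Ex
  refine (norm_sum_le _ _).trans (le_of_eq ?_)
  apply Finset.sum_congr rfl
  intro ω _
  rw [norm_smul, Real.norm_of_nonneg (wt_nonneg h0 h1 ω), smul_eq_mul]

end

/-- The weight factors over a decomposition of the index set. -/
theorem wt_piEquiv (q : ℝ) (P : ι → Prop) [DecidablePred P] (ω : ι → Bool) :
    wt q ω = wt q (fun e : {e // P e} => ω e) * wt q (fun e : {e // ¬ P e} => ω e) := by
  unfold wt
  exact (Fintype.prod_subtype_mul_prod_subtype P (fun e => if ω e then q else 1 - q)).symm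

variable [DecidableEq ι]

/-- Independence of functions of disjoint sets of coordinates. -/
theorem Ex_mul_of_dependsOn {A : Type*} [CommRing A] [Algebra ℝ A] (q : ℝ) (s : Set ι)
    {f g : (ι → Bool) → A} (hf : DependsOn f s) (hg : DependsOn g sᶜ) :
    Ex q (fun ω => f ω * g ω) = Ex q f * Ex q g := by
  classical
  -- the factorised sum
  have key : ∀ F : (ι → Bool) → A, Ex q F = ∑ x : {e // e ∈ s} → Bool,
      ∑ y : {e // ¬ e ∈ s} → Bool, (wt q x * wt q y) •
        F ((Equiv.piEquivPiSubtypeProd (fun e => e ∈ s) (fun _ => Bool)).symm (x, y)) := by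
    intro F
    unfold Ex
    rw [← Fintype.sum_prod_type', ← Equiv.sum_comp
      (Equiv.piEquivPiSubtypeProd (fun e => e ∈ s) (fun _ => Bool)).symm]
    apply Finset.sum_congr rfl
    rintro ⟨x, y⟩ _
    rw [wt_piEquiv q (fun e => e ∈ s)]
    congr 1
    congr 1
    · congr 1
      funext e
      simp [Equiv.piEquivPiSubtypeProd]
    · congr 1
      funext e
      simp [Equiv.piEquivPiSubtypeProd, e.2]
  have hf' : ∀ x y, f ((Equiv.piEquivPiSubtypeProd (fun e => e ∈ s) (fun _ => Bool)).symm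
      (x, y)) = f ((Equiv.piEquivPiSubtypeProd (fun e => e ∈ s) (fun _ => Bool)).symm
      (x, fun _ => false)) := by
    intro x y
    apply hf
    intro i hi
    simp [Equiv.piEquivPiSubtypeProd, hi]
  have hg' : ∀ x y, g ((Equiv.piEquivPiSubtypeProd (fun e => e ∈ s) (fun _ => Bool)).symm
      (x, y)) = g ((Equiv.piEquivPiSubtypeProd (fun e => e ∈ s) (fun _ => Bool)).symm
      (fun _ => false, y)) := by
    intro x y
    apply hg
    intro i hi
    have hi' : i ∉ s := hi
    simp [Equiv.piEquivPiSubtypeProd, hi']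
  rw [key, key f, key g]
  simp_rw [hf', hg']
  have e1 : ∑ x : {e // e ∈ s} → Bool, ∑ y : {e // ¬ e ∈ s} → Bool, (wt q x * wt q y) •
      f ((Equiv.piEquivPiSubtypeProd (fun e => e ∈ s) (fun _ => Bool)).symm
      (x, fun _ => false)) = ∑ x : {e // e ∈ s} → Bool, wt q x •
      f ((Equiv.piEquivPiSubtypeProd (fun e => e ∈ s) (fun _ => Bool)).symm
      (x, fun _ => false)) := by
    apply Finset.sum_congr rfl
    intro x _
    rw [← Finset.sum_smul, ← Finset.mul_sum, sum_wt, mul_one]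
  have e2 : ∑ x : {e // e ∈ s} → Bool, ∑ y : {e // ¬ e ∈ s} → Bool, (wt q x * wt q y) •
      g ((Equiv.piEquivPiSubtypeProd (fun e => e ∈ s) (fun _ => Bool)).symm
      (fun _ => false, y)) = ∑ y : {e // ¬ e ∈ s} → Bool, wt q y •
      g ((Equiv.piEquivPiSubtypeProd (fun e => e ∈ s) (fun _ => Bool)).symm
      (fun _ => false, y)) := by
    rw [Finset.sum_comm]
    apply Finset.sum_congr rfl
    intro y _
    rw [← Finset.sum_smul, ← Finset.sum_mul, sum_wt, one_mul]
  rw [e1, e2, Finset.sum_mul_sum]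
  apply Finset.sum_congr rfl
  intro x _
  apply Finset.sum_congr rfl
  intro y _
  rw [smul_mul_smul_comm]

/-- Independence for a family of functions of disjoint blocks of coordinates. -/
theorem Ex_prod_of_dependsOn {A : Type*} [CommRing A] [Algebra ℝ A] [DecidableEq V] (q : ℝ)
    (B : V → Set ι) (hB : ∀ v w, v ≠ w → Disjoint (B v) (B w)) (f : V → (ι → Bool) → A)
    (hf : ∀ v, DependsOn (f v) (B v)) (s : Finset V) :
    Ex q (fun ω => ∏ v ∈ s, f v ω) = ∏ v ∈ s, Ex q (f v) := by
  induction s using Finset.induction_on with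
  | empty =>
    simp only [Finset.prod_empty]
    unfold Ex
    rw [← Finset.sum_smul, sum_wt, one_smul]
  | insert v s hv ih =>
    simp_rw [Finset.prod_insert hv]
    rw [Ex_mul_of_dependsOn q (B v) (hf v), ih]
    intro x y hxy
    apply Finset.prod_congr rfl
    intro w hw
    apply hf w
    intro i hi
    apply hxy
    intro hiv
    have hne : v ≠ w := by rintro rfl; exact hv hw
    exact (Set.disjoint_left.mp (hB v w hne) hiv) hi

/-- Marginals. -/
theorem Ex_comp_injective {F : Type*} [AddCommMonoid F] [Module ℝ F] [DecidableEq κ] (q : ℝ)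
    (emb : κ → ι) (hemb : Function.Injective emb) (f : (κ → Bool) → F) :
    Ex q (fun ω : ι → Bool => f (fun k => ω (emb k))) = Ex q f := by
  classical
  have key : ∀ G : (ι → Bool) → F, Ex q G = ∑ x : {e // e ∈ Set.range emb} → Bool,
      ∑ y : {e // ¬ e ∈ Set.range emb} → Bool, (wt q x * wt q y) •
        G ((Equiv.piEquivPiSubtypeProd (fun e => e ∈ Set.range emb) (fun _ => Bool)).symm
          (x, y)) := by
    intro G
    unfold Ex
    rw [← Fintype.sum_prod_type', ← Equiv.sum_comp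
      (Equiv.piEquivPiSubtypeProd (fun e => e ∈ Set.range emb) (fun _ => Bool)).symm]
    apply Finset.sum_congr rfl
    rintro ⟨x, y⟩ _
    rw [wt_piEquiv q (fun e => e ∈ Set.range emb)]
    congr 1
    congr 1
    · congr 1
      · exact Subsingleton.elim _ _
      funext e
      have he : (∃ k, emb k = e.1) := e.2
      simp only [Equiv.piEquivPiSubtypeProd, Equiv.coe_fn_symm_mk]
      rw [dif_pos e.2]
    · congr 1
      funext e
      simp only [Equiv.piEquivPiSubtypeProd, Equiv.coe_fn_symm_mk]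
      rw [dif_neg e.2]
  rw [key]
  have h1 : ∀ (x : {e // e ∈ Set.range emb} → Bool) (y : {e // ¬ e ∈ Set.range emb} → Bool),
      (fun k => (Equiv.piEquivPiSubtypeProd (fun e => e ∈ Set.range emb) (fun _ => Bool)).symm
          (x, y) (emb k)) = fun k => x ⟨emb k, k, rfl⟩ := by
    intro x y
    funext k
    simp only [Equiv.piEquivPiSubtypeProd, Equiv.coe_fn_symm_mk]
    rw [dif_pos ⟨k, rfl⟩]
  simp_rw [h1]
  have e1 : ∑ x : {e // e ∈ Set.range emb} → Bool,
      ∑ y : {e // ¬ e ∈ Set.range emb} → Bool, (wt q x * wt q y) •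
        f (fun k => x ⟨emb k, k, rfl⟩) = ∑ x : {e // e ∈ Set.range emb} → Bool,
        wt q x • f (fun k => x ⟨emb k, k, rfl⟩) := by
    apply Finset.sum_congr rfl
    intro x _
    rw [← Finset.sum_smul, ← Finset.mul_sum, sum_wt, mul_one]
  rw [e1]
  unfold Ex
  let e : κ ≃ {e // e ∈ Set.range emb} := Equiv.ofInjective emb hemb
  rw [← Equiv.sum_comp (Equiv.arrowCongr e (Equiv.refl Bool))]
  apply Finset.sum_congr rfl
  intro x _
  congr 1
  · unfold wt
    rw [← Equiv.prod_comp e]
    apply Finset.prod_congr rfl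
    intro k _
    simp [Equiv.arrowCongr]
  · congr 1
    funext k
    have : (⟨emb k, k, rfl⟩ : {e // e ∈ Set.range emb}) = e k := rfl
    rw [this]
    simp [Equiv.arrowCongr]

end Pool.Agent.Lib.MP_49901c_pr
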