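import Mathlib

/-!
# Quadratic functions on finite abelian groups, isotropic subgroups
-/

namespace Pool.Agent.Lib.MP_49901c_pr

/-- A nondegenerate unimodular quadratic function. -/
structure QForm (W : Type*) [AddCommGroup W] where
  /-- the quadratic function -/
  κ : W → ℂ
  /-- the associated bicharacter -/
  b : W → AddChar W ℂ
  norm_κ : ∀ w, ‖κ w‖ = 1
  κ_add : ∀ w w', κ (w + w') = κ w * κ w' * b w w'
  κ_neg : ∀ w, κ (-w) = κ w
  nondeg : ∀ w, (∀ w', b w w' = 1) → w = 0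

namespace QForm

variable {W : Type*} [AddCommGroup W] (Q : QForm W)

theorem κ_ne_zero (w : W) : Q.κ w ≠ 0 := by
  intro h
  have := Q.norm_κ w
  rw [h, norm_zero] at this
  exact zero_ne_one this

theorem b_ne_zero (w w' : W) : Q.b w w' ≠ 0 := by
  intro h
  have := Q.κ_add w w'
  rw [h, mul_zero] at this
  exact Q.κ_ne_zero _ this

theorem κ_zero : Q.κ 0 = 1 := by
  have h := Q.κ_add 0 0
  rw [add_zero, AddChar.map_zero_eq_one, mul_one] at h
  have h0 := Q.κ_ne_zero 0
  field_simp at h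
  exact h.symm

theorem b_comm (w w' : W) : Q.b w w' = Q.b w' w := by
  have h1 := Q.κ_add w w'
  have h2 := Q.κ_add w' w
  rw [add_comm w' w, h1, mul_comm (Q.κ w') (Q.κ w)] at h2
  exact mul_left_cancel₀ (mul_ne_zero (Q.κ_ne_zero w) (Q.κ_ne_zero w')) h2

theorem b_add_left (w w' v : W) : Q.b (w + w') v = Q.b w v * Q.b w' v := by
  rw [Q.b_comm, AddChar.map_add_eq_mul, Q.b_comm v w, Q.b_comm v w']

theorem b_zero_left (v : W) : Q.b 0 v = 1 := by
  rw [Q.b_comm, AddChar.map_zero_eq_one]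

theorem b_neg_left (w v : W) : Q.b (-w) v = (Q.b w v)⁻¹ := by
  have h := Q.b_add_left w (-w) v
  rw [add_neg_cancel, Q.b_zero_left] at h
  exact eq_inv_of_mul_eq_one_right h.symm

theorem b_neg_right (w v : W) : Q.b w (-v) = (Q.b w v)⁻¹ := by
  rw [Q.b_comm, Q.b_neg_left, Q.b_comm]

theorem b_sub_left (w w' v : W) : Q.b (w - w') v = Q.b w v * (Q.b w' v)⁻¹ := by
  rw [sub_eq_add_neg, Q.b_add_left, Q.b_neg_left]

theorem b_sub_right (w v v' : W) : Q.b w (v - v') = Q.b w v * (Q.b w v')⁻¹ := by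
  rw [Q.b_comm, Q.b_sub_left, Q.b_comm v, Q.b_comm v']

theorem b_sum_left {ι : Type*} (s : Finset ι) (f : ι → W) (v : W) :
    Q.b (∑ i ∈ s, f i) v = ∏ i ∈ s, Q.b (f i) v := by
  classical
  induction s using Finset.induction_on with
  | empty => simp [Q.b_zero_left]
  | insert a s ha ih => rw [Finset.sum_insert ha, Finset.prod_insert ha, Q.b_add_left, ih]

/-- A subgroup is isotropic when the quadratic function is trivial on it. -/
def Isotropic (U : AddSubgroup W) : Prop := ∀ u ∈ U, Q.κ u = 1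

theorem Isotropic.b_eq_one {Q : QForm W} {U : AddSubgroup W} (hU : Q.Isotropic U) {u v : W}
    (hu : u ∈ U) (hv : v ∈ U) : Q.b u v = 1 := by
  have h := Q.κ_add u v
  rw [hU _ (U.add_mem hu hv), hU _ hu, hU _ hv] at h
  simpa using h.symm

/-- Lagrangian subgroups. -/
def IsLag (U : AddSubgroup W) : Prop := Q.Isotropic U ∧ Nat.card U ^ 2 = Nat.card W

open scoped Classical in
theorem sum_b_subgroup (U : AddSubgroup W) [Fintype U] (w : W) :
    ∑ u : U, Q.b w (u : W) = if ∀ u ∈ U, Q.b w u = 1 then (Nat.card U : ℂ) else 0 := by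
  set ψ : AddChar U ℂ :=
    { toFun := fun u => Q.b w (u : W)
      map_zero_eq_one' := by simp
      map_add_eq_mul' := fun x y => by simp [AddChar.map_add_eq_mul] } with hψ
  have h := AddChar.sum_eq_ite ψ
  have h1 : ∑ u : U, ψ u = ∑ u : U, Q.b w (u : W) := rfl
  rw [← h1, h]
  have h2 : ψ = 0 ↔ ∀ u ∈ U, Q.b w u = 1 := by
    constructor
    · intro h u hu
      exact DFunLike.congr_fun h (⟨u, hu⟩ : U)
    · intro h
      ext u
      exact h u u.2
  simp only [h2, Nat.card_eq_fintype_card]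

variable [Finite W]

theorem card_mul_card_perp (U : AddSubgroup W) :
    Nat.card U * Nat.card {w : W // ∀ u ∈ U, Q.b w u = 1} = Nat.card W := by
  classical
  have : Fintype W := Fintype.ofFinite W
  have : Fintype U := Fintype.ofFinite U
  have h1 : ∑ w : W, ∑ u : U, Q.b w (u : W) =
      (Nat.card U : ℂ) * Nat.card {w : W // ∀ u ∈ U, Q.b w u = 1} := by
    have h0 : ∀ w : W, ∑ u : U, Q.b w (u : W) = (Nat.card U : ℂ) *
        (if ∀ u ∈ U, Q.b w u = 1 then 1 else 0) := by
      intro w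
      rw [Q.sum_b_subgroup U w]
      split_ifs <;> simp
    rw [Finset.sum_congr rfl fun w _ => h0 w, ← Finset.mul_sum]
    congr 1
    rw [Nat.card_eq_fintype_card, Fintype.card_subtype, Finset.sum_boole]
  have h2 : ∑ w : W, ∑ u : U, Q.b w (u : W) = (Nat.card W : ℂ) := by
    rw [Finset.sum_comm]
    have h3 : ∀ u : U, ∑ w : W, Q.b w (u : W) = if u = 0 then (Nat.card W : ℂ) else 0 := by
      intro u
      have h4 : ∑ w : W, Q.b w (u : W) = ∑ w : W, Q.b (u : W) w :=
        Finset.sum_congr rfl fun w _ => Q.b_comm _ _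
      rw [h4, AddChar.sum_eq_ite]
      have h5 : Q.b (u : W) = 0 ↔ u = 0 := by
        constructor
        · intro h
          have h6 : (u : W) = 0 := Q.nondeg _ fun w => by rw [h]; rfl
          exact Subtype.ext h6
        · rintro rfl
          ext w
          simp [Q.b_zero_left]
      simp only [h5, Nat.card_eq_fintype_card]
    simp_rw [h3]
    simp
  rw [h1] at h2
  exact_mod_cast h2

theorem Isotropic.card_sq_le {Q : QForm W} {U : AddSubgroup W} (hU : Q.Isotropic U) :
    Nat.card U ^ 2 ≤ Nat.card W := by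
  rw [← Q.card_mul_card_perp U, sq]
  apply Nat.mul_le_mul_left
  exact Nat.card_le_card_of_injective
    (fun u : U => (⟨u, fun v hv => hU.b_eq_one u.2 hv⟩ : {w : W // ∀ u ∈ U, Q.b w u = 1}))
    (fun u v h => Subtype.ext (by simpa using h))

theorem IsLag.mem_of_perp {Q : QForm W} {U : AddSubgroup W} (hU : Q.IsLag U) {w : W}
    (hw : ∀ u ∈ U, Q.b w u = 1) : w ∈ U := by
  have h1 := Q.card_mul_card_perp U
  have hpos : 0 < Nat.card U := Nat.card_pos
  have h2 : Nat.card {w : W // ∀ u ∈ U, Q.b w u = 1} = Nat.card U := by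
    rw [← hU.2, sq] at h1
    exact Nat.eq_of_mul_eq_mul_left hpos h1
  have h3 : Function.Injective
      (fun u : U => (⟨u, fun v hv => hU.1.b_eq_one u.2 hv⟩ : {w : W // ∀ u ∈ U, Q.b w u = 1})) :=
    fun u v h => Subtype.ext (by simpa using h)
  have h4 : Function.Bijective
      (fun u : U => (⟨u, fun v hv => hU.1.b_eq_one u.2 hv⟩ :
        {w : W // ∀ u ∈ U, Q.b w u = 1})) := by
    have : Fintype W := Fintype.ofFinite W
    have : Fintype U := Fintype.ofFinite U
    have : Fintype {w : W // ∀ u ∈ U, Q.b w u = 1} := Fintype.ofFinite _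
    rw [Fintype.bijective_iff_injective_and_card]
    refine ⟨h3, ?_⟩
    rw [← Nat.card_eq_fintype_card, ← Nat.card_eq_fintype_card, h2]
  obtain ⟨u, hu⟩ := h4.2 ⟨w, hw⟩
  have : (u : W) = w := congrArg Subtype.val hu
  rw [← this]
  exact u.2

open scoped Classical in
theorem IsLag.sum_b {Q : QForm W} {U : AddSubgroup W} (hU : Q.IsLag U) [Fintype U] (w : W) :
    ∑ u : U, Q.b w (u : W) = if w ∈ U then (Nat.card U : ℂ) else 0 := by
  rw [Q.sum_b_subgroup U w]
  have : (∀ u ∈ U, Q.b w u = 1) ↔ w ∈ U :=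
    ⟨fun h => hU.mem_of_perp h, fun h u hu => hU.1.b_eq_one h hu⟩
  simp only [this]

omit [Finite W] in
/-- A set whose differences are isotropic is contained in a coset of an isotropic subgroup. -/
theorem exists_isotropic {T : Set W} {t₀ : W} (ht₀ : t₀ ∈ T)
    (hT : ∀ t ∈ T, ∀ t' ∈ T, Q.κ (t - t') = 1) :
    ∃ U : AddSubgroup W, Q.Isotropic U ∧ ∀ t ∈ T, t - t₀ ∈ U := by
  refine ⟨AddSubgroup.closure {w | ∃ t ∈ T, w = t - t₀}, ?_, fun t ht =>
    AddSubgroup.subset_closure ⟨t, ht, rfl⟩⟩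
  have h1 : ∀ w ∈ {w | ∃ t ∈ T, w = t - t₀}, ∀ w' ∈ {w | ∃ t ∈ T, w = t - t₀},
      Q.b w w' = 1 := by
    rintro w ⟨t, ht, rfl⟩ w' ⟨t', ht', rfl⟩
    have h := Q.κ_add (t - t₀) (-(t' - t₀))
    have e : t - t₀ + -(t' - t₀) = t - t' := by abel
    rw [e, hT t ht t' ht', Q.κ_neg, hT t ht t₀ ht₀, hT t' ht' t₀ ht₀, Q.b_neg_right] at h
    simp only [mul_one, one_mul] at h
    rw [eq_comm, inv_eq_one] at h
    exact h
  have h2 : ∀ w ∈ AddSubgroup.closure {w | ∃ t ∈ T, w = t - t₀},
      ∀ w' ∈ {w | ∃ t ∈ T, w = t - t₀}, Q.b w w' = 1 := by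
    intro w hw w' hw'
    induction hw using AddSubgroup.closure_induction with
    | mem x hx => exact h1 x hx w' hw'
    | zero => exact Q.b_zero_left _
    | add x y _ _ hx hy => rw [Q.b_add_left, hx, hy, one_mul]
    | neg x _ hx => rw [Q.b_neg_left, hx, inv_one]
  have h3 : ∀ w ∈ AddSubgroup.closure {w | ∃ t ∈ T, w = t - t₀},
      ∀ w' ∈ AddSubgroup.closure {w | ∃ t ∈ T, w = t - t₀}, Q.b w w' = 1 := by
    intro w hw w' hw'
    induction hw' using AddSubgroup.closure_induction with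
    | mem x hx => exact h2 w hw x hx
    | zero => exact AddChar.map_zero_eq_one _
    | add x y _ _ hx hy => rw [AddChar.map_add_eq_mul, hx, hy, one_mul]
    | neg x _ hx => rw [Q.b_neg_right, hx, inv_one]
  intro w hw
  induction hw using AddSubgroup.closure_induction with
  | mem x hx =>
    obtain ⟨t, ht, rfl⟩ := hx
    exact hT t ht t₀ ht₀
  | zero => exact Q.κ_zero
  | add x y hx hy ihx ihy => rw [Q.κ_add, ihx, ihy, h3 x hx y hy, one_mul, one_mul]
  | neg x _ hx => rw [Q.κ_neg, hx]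

end QForm

end Pool.Agent.Lib.MP_49901c_pr
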