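import Mathlib
import Pool.Agent.Lib.MP_49901c_pr.QForm
import Pool.Agent.Lib.MP_49901c_pr.Prob

/-!
# Graphs as Boolean functions on pairs, the Laplacian
-/

namespace Pool.Agent.Lib.MP_49901c_pr

/-- The pairs `i < j`. -/
abbrev Pr (n : ℕ) : Type := {e : Fin n × Fin n // e.1 < e.2}

/-- Adjacency in the graph encoded by `ω`. -/
def adjB {n : ℕ} (ω : Pr n → Bool) (i j : Fin n) : Bool :=
  if h : i < j then ω ⟨(i, j), h⟩ else if h : j < i then ω ⟨(j, i), h⟩ else false

theorem adjB_comm {n : ℕ} (ω : Pr n → Bool) (i j : Fin n) : adjB ω i j = adjB ω j i := by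
  unfold adjB
  rcases lt_trichotomy i j with h | h | h
  · rw [dif_pos h, dif_neg (not_lt.mpr h.le), dif_pos h]
  · subst h; rfl
  · rw [dif_neg (not_lt.mpr h.le), dif_pos h, dif_pos h]

theorem adjB_self {n : ℕ} (ω : Pr n → Bool) (i : Fin n) : adjB ω i i = false := by
  unfold adjB
  rw [dif_neg (lt_irrefl i), dif_neg (lt_irrefl i)]

theorem adjB_pair {n : ℕ} (ω : Pr n → Bool) (e : Pr n) : adjB ω e.1.1 e.1.2 = ω e := by
  unfold adjB
  rw [dif_pos e.2]

/-- A double product over ordered pairs is a product over unordered pairs. -/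
theorem prod_pairs {n : ℕ} {A : Type*} [CommMonoid A] (h : Fin n → Fin n → A)
    (hd : ∀ i, h i i = 1) :
    ∏ i, ∏ j, h i j = ∏ e : Pr n, h e.1.1 e.1.2 * h e.1.2 e.1.1 := by
  classical
  rw [Finset.prod_mul_distrib]
  rw [← Fintype.prod_prod_type']
  have h1 : ∏ x : Fin n × Fin n, h x.1 x.2 =
      (∏ x : Fin n × Fin n, if x.1 < x.2 then h x.1 x.2 else 1) *
      ∏ x : Fin n × Fin n, if x.2 < x.1 then h x.1 x.2 else 1 := by
    rw [← Finset.prod_mul_distrib]
    apply Finset.prod_congr rfl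
    rintro ⟨i, j⟩ _
    rcases lt_trichotomy i j with hij | hij | hij
    · simp [hij, not_lt.mpr hij.le]
    · subst hij
      simp [hd]
    · simp [hij, not_lt.mpr hij.le]
  rw [h1]
  congr 1
  · rw [← Finset.prod_filter, Finset.prod_subtype (p := fun x : Fin n × Fin n => x.1 < x.2)
      (F := inferInstance)]
    intro x
    simp
  · rw [← Finset.prod_filter]
    rw [Finset.prod_bij' (t := Finset.univ.filter fun x : Fin n × Fin n => x.1 < x.2)
      (g := fun x => h x.2 x.1) (i := fun x _ => x.swap) (j := fun x _ => x.swap)]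
    · rw [Finset.prod_subtype (p := fun x : Fin n × Fin n => x.1 < x.2) (F := inferInstance)]
      intro x
      simp
    · intro a ha
      simpa using ha
    · intro a ha
      simpa using ha
    · intro a _
      simp
    · intro a _
      simp
    · intro a _
      simp

/-- The Laplacian of the graph encoded by `ω`. -/
def lap {n : ℕ} {A : Type*} [AddCommGroup A] (ω : Pr n → Bool) (f : Fin n → A) (i : Fin n) : A :=
  ∑ j, if adjB ω i j then f i - f j else 0

theorem lap_map {n : ℕ} {A B : Type*} [AddCommGroup A] [AddCommGroup B] (φ : A →+ B)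
    (ω : Pr n → Bool) (f : Fin n → A) (i : Fin n) :
    lap ω (fun j => φ (f j)) i = φ (lap ω f i) := by
  unfold lap
  rw [map_sum]
  apply Finset.sum_congr rfl
  intro j _
  split_ifs <;> simp

theorem lap_add {n : ℕ} {A : Type*} [AddCommGroup A] (ω : Pr n → Bool) (f g : Fin n → A)
    (i : Fin n) : lap ω (f + g) i = lap ω f i + lap ω g i := by
  unfold lap
  rw [← Finset.sum_add_distrib]
  apply Finset.sum_congr rfl
  intro j _
  split_ifs
  · simp only [Pi.add_apply]; abel
  · simp

namespace QForm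

variable {W : Type*} [AddCommGroup W] (Q : QForm W) {n : ℕ}

/-- The character of a colouring. -/
noncomputable def chi (ω : Pr n → Bool) (c : Fin n → W) : ℂ :=
  ∏ e : Pr n, if ω e then Q.κ (c e.1.1 - c e.1.2) else 1

/-- The expected character. -/
noncomputable def Fc (q : ℝ) (c : Fin n → W) : ℂ :=
  ∏ e : Pr n, ((q : ℂ) * Q.κ (c e.1.1 - c e.1.2) + ((1 - q : ℝ) : ℂ))

theorem Ex_chi (q : ℝ) (c : Fin n → W) : Ex q (fun ω => Q.chi ω c) = Q.Fc q c := by
  unfold chi Fc
  rw [Ex_prod (A := ℂ) q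
    (fun (e : Pr n) (b : Bool) => if b then Q.κ (c e.1.1 - c e.1.2) else 1)]
  apply Finset.prod_congr rfl
  intro e _
  simp

theorem prod_b_lap (ω : Pr n → Bool) (s u : Fin n → W) :
    ∏ i, Q.b (lap ω s i) (u i) =
      ∏ e : Pr n, if ω e then Q.b (s e.1.1 - s e.1.2) (u e.1.1 - u e.1.2) else 1 := by
  have h1 : ∀ i, Q.b (lap ω s i) (u i) = ∏ j, if adjB ω i j then Q.b (s i - s j) (u i) else 1 := by
    intro i
    unfold lap
    rw [Q.b_sum_left]
    apply Finset.prod_congr rfl
    intro j _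
    split_ifs
    · rfl
    · exact Q.b_zero_left _
  simp_rw [h1]
  rw [prod_pairs (fun i j => if adjB ω i j then Q.b (s i - s j) (u i) else 1)
    (fun i => by simp [adjB_self])]
  apply Finset.prod_congr rfl
  intro e _
  rw [adjB_comm ω e.1.2 e.1.1, adjB_pair]
  split_ifs
  · have h2 : s e.1.2 - s e.1.1 = -(s e.1.1 - s e.1.2) := by abel
    rw [h2, Q.b_neg_left, Q.b_sub_right (s e.1.1 - s e.1.2) (u e.1.1) (u e.1.2)]
  · simp

theorem chi_add_isotropic {U : AddSubgroup W} (hU : Q.Isotropic U) (ω : Pr n → Bool)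
    (s : Fin n → W) (u : Fin n → U) :
    Q.chi ω (fun i => s i + (u i : W)) = Q.chi ω s * ∏ i, Q.b (lap ω s i) (u i : W) := by
  rw [Q.prod_b_lap ω s (fun i => (u i : W))]
  unfold chi
  rw [← Finset.prod_mul_distrib]
  apply Finset.prod_congr rfl
  intro e _
  split_ifs
  · have h1 : s e.1.1 + (u e.1.1 : W) - (s e.1.2 + (u e.1.2 : W)) =
        (s e.1.1 - s e.1.2) + ((u e.1.1 : W) - (u e.1.2 : W)) := by abel
    rw [h1, Q.κ_add, hU _ (U.sub_mem (u e.1.1).2 (u e.1.2).2), mul_one]
  · simp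

theorem norm_chi (ω : Pr n → Bool) (c : Fin n → W) : ‖Q.chi ω c‖ = 1 := by
  unfold chi
  rw [norm_prod]
  apply Finset.prod_eq_one
  intro e _
  split_ifs
  · exact Q.norm_κ _
  · exact norm_one

open scoped Classical in
/-- The sum of the characters over the lifts of a colouring modulo a Lagrangian. -/
theorem sum_chi_lifts [Fintype W] {U : AddSubgroup W} (hU : Q.IsLag U) (ω : Pr n → Bool)
    (s : Fin n → W) :
    ∑ u : Fin n → U, Q.chi ω (fun i => s i + (u i : W)) =
      if ∀ i, lap ω s i ∈ U then Q.chi ω s * (Nat.card U : ℂ) ^ n else 0 := by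
  have h1 : ∑ u : Fin n → U, Q.chi ω (fun i => s i + (u i : W)) =
      Q.chi ω s * ∏ i, ∑ u : U, Q.b (lap ω s i) (u : W) := by
    rw [Finset.prod_univ_sum, Fintype.piFinset_univ, Finset.mul_sum]
    exact Finset.sum_congr rfl fun u _ => Q.chi_add_isotropic hU.1 ω s u
  rw [h1]
  have h2 : ∀ i, ∑ u : U, Q.b (lap ω s i) (u : W) =
      if lap ω s i ∈ U then (Nat.card U : ℂ) else 0 := fun i => hU.sum_b _
  rw [Finset.prod_congr rfl fun i _ => h2 i]
  split_ifs with h
  · rw [Finset.prod_congr rfl fun i _ => if_pos (h i), Finset.prod_const, Finset.card_univ,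
      Fintype.card_fin]
  · push Not at h
    obtain ⟨i, hi⟩ := h
    rw [Finset.prod_eq_zero (Finset.mem_univ i) (if_neg hi), mul_zero]

end QForm

end Pool.Agent.Lib.MP_49901c_pr
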