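import Mathlib
import Pool.Agent.Lib.MP_49901c_pr.Pairs

/-!
# Colourings close to a Lagrangian subgroup
-/

namespace Pool.Agent.Lib.MP_49901c_pr

open scoped Classical in
/-- The expected number of nonzero harmonic functions with small support. -/
noncomputable def smallSum (q : ℝ) (n : ℕ) (A : Type*) [AddCommGroup A] [Fintype A] (K : ℕ) : ℝ :=
  ∑ γ : Fin n → A, if γ ≠ 0 ∧ (Finset.univ.filter fun i => γ i ≠ 0).card ≤ K then
    Ex q (fun ω : Pr n → Bool => if ∀ i, lap ω γ i = 0 then (1 : ℝ) else 0) else 0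

/-- Lifting colourings modulo a subgroup. -/
noncomputable def liftEquiv {W : Type*} [AddCommGroup W] (U : AddSubgroup W) (n : ℕ) :
    (Fin n → W ⧸ U) × (Fin n → U) ≃ (Fin n → W) where
  toFun x i := (x.1 i).out + (x.2 i : W)
  invFun c := (fun i => (c i : W ⧸ U), fun i => ⟨-((c i : W ⧸ U)).out + c i, by
    rw [← QuotientAddGroup.eq, QuotientAddGroup.out_eq']⟩)
  left_inv := by
    rintro ⟨γ, u⟩
    have h1 : ∀ i, (((γ i).out + (u i : W) : W) : W ⧸ U) = γ i := by
      intro i
      have h : (((γ i).out + (u i : W) : W) : W ⧸ U) = ((γ i).out : W ⧸ U) := by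
        rw [QuotientAddGroup.eq]
        have : -((γ i).out + (u i : W)) + (γ i).out = -(u i : W) := by abel
        rw [this]
        exact U.neg_mem (u i).2
      rw [h, QuotientAddGroup.out_eq']
    apply Prod.ext
    · funext i
      exact h1 i
    · funext i
      apply Subtype.ext
      simp only
      rw [h1 i]
      abel
  right_inv := by
    intro c
    funext i
    simp

namespace QForm

variable {W : Type*} [AddCommGroup W] (Q : QForm W) {n : ℕ}

theorem Fc_eq_one {U : AddSubgroup W} (hU : Q.Isotropic U) (q : ℝ) (c : Fin n → W)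
    (hc : ∀ i, c i ∈ U) : Q.Fc q c = 1 := by
  unfold Fc
  apply Finset.prod_eq_one
  intro e _
  rw [hU _ (U.sub_mem (hc _) (hc _))]
  push_cast
  ring

open scoped Classical in
theorem near_bound [Fintype W] {U : AddSubgroup W} (hU : Q.IsLag U) {q : ℝ} (h0 : 0 ≤ q)
    (h1 : q ≤ 1) (K : ℕ) :
    ‖∑ c : Fin n → W, (if (Finset.univ.filter fun i => c i ∉ U).card ≤ K then Q.Fc q c else 0) -
      (Nat.card U : ℂ) ^ n‖ ≤ (Nat.card U : ℝ) ^ n * smallSum q n (W ⧸ U) K := by
  have hcond : ∀ (γ : Fin n → W ⧸ U) (u : Fin n → U) (i : Fin n),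
      (liftEquiv U n (γ, u)) i ∉ U ↔ γ i ≠ 0 := by
    intro γ u i
    have h : (((liftEquiv U n (γ, u)) i : W) : W ⧸ U) = γ i :=
      congrFun (congrArg Prod.fst ((liftEquiv U n).left_inv (γ, u))) i
    rw [not_iff_not, ← QuotientAddGroup.eq_zero_iff, h]
  have hsum : ∀ γ : Fin n → W ⧸ U, ∑ u : Fin n → U, Q.Fc q (liftEquiv U n (γ, u)) =
      Ex q (fun ω : Pr n → Bool => if ∀ i, lap ω γ i = 0 then
        Q.chi ω (fun i => (γ i).out) * (Nat.card U : ℂ) ^ n else 0) := by
    intro γ
    simp_rw [← Q.Ex_chi q]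
    rw [← Ex_sum]
    congr 1
    funext ω
    have h := Q.sum_chi_lifts hU ω (fun i => (γ i).out)
    rw [show (∑ u : Fin n → U, Q.chi ω (liftEquiv U n (γ, u))) =
      ∑ u : Fin n → U, Q.chi ω (fun i => (γ i).out + (u i : W)) from rfl, h]
    have h2 : (∀ i, lap ω (fun i => (γ i).out) i ∈ U) ↔ ∀ i, lap ω γ i = 0 := by
      apply forall_congr'
      intro i
      rw [← QuotientAddGroup.eq_zero_iff]
      have h3 := lap_map (QuotientAddGroup.mk' U) ω (fun i => (γ i).out) i
      simp only [QuotientAddGroup.mk'_apply, QuotientAddGroup.out_eq'] at h3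
      rw [← h3]
    simp only [h2]
  have hsplit : ∑ c : Fin n → W, (if (Finset.univ.filter fun i => c i ∉ U).card ≤ K then
      Q.Fc q c else 0) = ∑ γ : Fin n → W ⧸ U,
        if (Finset.univ.filter fun i => γ i ≠ 0).card ≤ K then
          Ex q (fun ω : Pr n → Bool => if ∀ i, lap ω γ i = 0 then
            Q.chi ω (fun i => (γ i).out) * (Nat.card U : ℂ) ^ n else 0) else 0 := by
    rw [← Equiv.sum_comp (liftEquiv U n), Fintype.sum_prod_type]
    apply Finset.sum_congr rfl
    intro γ _
    rw [← hsum γ]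
    have h4 : ∀ u : Fin n → U, (Finset.univ.filter fun i => (liftEquiv U n (γ, u)) i ∉ U) =
        Finset.univ.filter fun i => γ i ≠ 0 := by
      intro u
      apply Finset.filter_congr
      intro i _
      exact hcond γ u i
    simp_rw [h4]
    split_ifs
    · rfl
    · simp
  have hzero : Ex q (fun ω : Pr n → Bool => if ∀ i, lap ω (0 : Fin n → W ⧸ U) i = 0 then
      Q.chi ω (fun i => ((0 : Fin n → W ⧸ U) i).out) * (Nat.card U : ℂ) ^ n else 0) =
      (Nat.card U : ℂ) ^ n := by
    rw [← hsum 0]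
    have h5 : ∀ u : Fin n → U, Q.Fc q (liftEquiv U n (0, u)) = 1 := by
      intro u
      apply Q.Fc_eq_one hU.1
      intro i
      by_contra h
      exact (hcond 0 u i).mp h rfl
    rw [Finset.sum_congr rfl fun u _ => h5 u, Finset.sum_const, Finset.card_univ,
      Fintype.card_fun, Fintype.card_fin, nsmul_eq_mul, mul_one, Nat.card_eq_fintype_card]
    push_cast
    rfl
  rw [hsplit, ← Finset.add_sum_erase _ _ (Finset.mem_univ (0 : Fin n → W ⧸ U)), hzero]
  have h6 : (Finset.univ.filter fun i => (0 : Fin n → W ⧸ U) i ≠ 0).card ≤ K := by simp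
  rw [if_pos h6, add_sub_cancel_left]
  refine (norm_sum_le _ _).trans ?_
  unfold smallSum
  rw [← Finset.add_sum_erase _ _ (Finset.mem_univ (0 : Fin n → W ⧸ U))]
  rw [if_neg (by simp), zero_add, Finset.mul_sum]
  apply Finset.sum_le_sum
  intro γ hγ
  rw [Finset.mem_erase] at hγ
  by_cases hK : (Finset.univ.filter fun i => γ i ≠ 0).card ≤ K
  · rw [if_pos hK, if_pos ⟨hγ.1, by convert hK⟩]
    refine (norm_Ex_le h0 h1 _).trans (le_of_eq ?_)
    rw [← Ex_mul_left]
    congr 1
    funext ω
    split_ifs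
    · rw [norm_mul, Q.norm_chi, one_mul, norm_pow, Complex.norm_natCast, mul_one]
    · simp
  · rw [if_neg hK, if_neg (fun h => hK (by convert h.2)), norm_zero, mul_zero]

end QForm

end Pool.Agent.Lib.MP_49901c_pr
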