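import Mathlib
import Pool.Agent.Lib.MP_49901c_pr.Near

/-!
# Colourings far from all Lagrangian cosets, and the overlaps
-/

namespace Pool.Agent.Lib.MP_49901c_pr

open Finset

open scoped Classical in
/-- Counting the colourings almost all of whose values lie in a given set. -/
theorem card_almost_le {W : Type*} [Fintype W] {n : ℕ} (T : Finset W) (K : ℕ) {s : ℝ}
    (hs : 1 ≤ s) :
    (((univ : Finset (Fin n → W)).filter fun c =>
      ((univ : Finset (Fin n)).filter fun i => c i ∉ T).card ≤ K).card : ℝ) ≤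
      s ^ K * ((T.card : ℝ) + Fintype.card W / s) ^ n := by
  have hs0 : 0 < s := by linarith
  have h1 : (((univ : Finset (Fin n → W)).filter fun c =>
      ((univ : Finset (Fin n)).filter fun i => c i ∉ T).card ≤ K).card : ℝ) ≤
      ∑ c : Fin n → W, s ^ K * ∏ i, (if c i ∈ T then (1 : ℝ) else 1 / s) := by
    rw [card_filter, Nat.cast_sum]
    apply sum_le_sum
    intro c _
    have hprod : ∏ i, (if c i ∈ T then (1 : ℝ) else 1 / s) =
        (1 / s) ^ ((univ : Finset (Fin n)).filter fun i => c i ∉ T).card := by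
      rw [prod_ite, prod_const_one, one_mul, prod_const]
    rw [hprod]
    split_ifs with h
    · rw [Nat.cast_one, one_div, inv_pow, ← div_eq_mul_inv, le_div_iff₀ (pow_pos hs0 _), one_mul]
      exact pow_le_pow_right₀ hs h
    · rw [Nat.cast_zero]
      positivity
  refine h1.trans ?_
  rw [← mul_sum]
  apply mul_le_mul_of_nonneg_left _ (by positivity)
  have h2 : ∑ c : Fin n → W, ∏ i, (if c i ∈ T then (1 : ℝ) else 1 / s) =
      ∏ _i : Fin n, ∑ w : W, (if w ∈ T then (1 : ℝ) else 1 / s) := by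
    rw [prod_univ_sum, Fintype.piFinset_univ]
  rw [h2, prod_const, card_univ, Fintype.card_fin]
  apply pow_le_pow_left₀
  · apply sum_nonneg
    intro w _
    split_ifs <;> positivity
  · rw [sum_ite, sum_const, sum_const, nsmul_eq_mul, nsmul_eq_mul, mul_one]
    have e1 : ((univ : Finset W).filter fun w => w ∈ T).card = T.card := by
      congr 1
      ext w
      simp
    rw [e1]
    have e2 : (((univ : Finset W).filter fun w => w ∉ T).card : ℝ) ≤ Fintype.card W := by
      exact_mod_cast card_le_univ _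
    rw [mul_one_div]
    gcongr

namespace QForm

variable {W : Type*} [AddCommGroup W] (Q : QForm W) {n : ℕ}

theorem norm_factor_le_one {q : ℝ} (h0 : 0 ≤ q) (h1 : q ≤ 1) (w : W) :
    ‖(q : ℂ) * Q.κ w + ((1 - q : ℝ) : ℂ)‖ ≤ 1 := by
  refine (norm_add_le _ _).trans ?_
  rw [norm_mul, Q.norm_κ, mul_one, Complex.norm_real, Complex.norm_real,
    Real.norm_of_nonneg h0, Real.norm_of_nonneg (by linarith)]
  linarith

theorem norm_Fc_le_one {q : ℝ} (h0 : 0 ≤ q) (h1 : q ≤ 1) (c : Fin n → W) : ‖Q.Fc q c‖ ≤ 1 := by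
  unfold Fc
  rw [norm_prod]
  exact prod_le_one (fun _ _ => norm_nonneg _) (fun _ _ => Q.norm_factor_le_one h0 h1 _)

/-- Uniform gap. -/
theorem exists_gap [Finite W] : ∃ c₁ : ℝ, 0 < c₁ ∧ ∀ w : W, Q.κ w ≠ 1 → ∀ q : ℝ, 0 ≤ q → q ≤ 1 →
    ‖(q : ℂ) * Q.κ w + ((1 - q : ℝ) : ℂ)‖ ≤ Real.exp (-(c₁ * (q * (1 - q)))) := by
  classical
  have : Fintype W := Fintype.ofFinite W
  have hre : ∀ w : W, Q.κ w ≠ 1 → (Q.κ w).re < 1 := by
    intro w hw
    have h1 : (Q.κ w).re ≤ 1 := (Complex.re_le_norm _).trans (Q.norm_κ w).le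
    refine lt_of_le_of_ne h1 fun h => hw ?_
    have h2 : ‖Q.κ w‖ ^ 2 = (Q.κ w).re ^ 2 + (Q.κ w).im ^ 2 := by
      rw [Complex.sq_norm, Complex.normSq_apply]; ring
    rw [Q.norm_κ, h] at h2
    have h3 : (Q.κ w).im = 0 := by nlinarith
    exact Complex.ext (by simpa using h) (by simpa using h3)
  obtain ⟨c₁, hc₁, hmin⟩ : ∃ c₁ : ℝ, 0 < c₁ ∧ ∀ w : W, Q.κ w ≠ 1 → c₁ ≤ 1 - (Q.κ w).re := by
    rcases ((univ : Finset W).filter fun w => Q.κ w ≠ 1).eq_empty_or_nonempty with h | h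
    · refine ⟨1, one_pos, fun w hw => ?_⟩
      have : w ∈ (univ : Finset W).filter fun w => Q.κ w ≠ 1 := by simp [hw]
      rw [h] at this
      simp at this
    · refine ⟨((univ : Finset W).filter fun w => Q.κ w ≠ 1).inf' h fun w => 1 - (Q.κ w).re,
        ?_, fun w hw => inf'_le _ (by simp [hw])⟩
      rw [lt_inf'_iff]
      intro w hw
      simp only [mem_filter, mem_univ, true_and] at hw
      linarith [hre w hw]
  refine ⟨c₁, hc₁, fun w hw q h0 h1 => ?_⟩
  have hsq : ‖(q : ℂ) * Q.κ w + ((1 - q : ℝ) : ℂ)‖ ^ 2 =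
      1 - 2 * (q * (1 - q)) * (1 - (Q.κ w).re) := by
    have h2 : (Q.κ w).re ^ 2 + (Q.κ w).im ^ 2 = 1 := by
      have : ‖Q.κ w‖ ^ 2 = (Q.κ w).re ^ 2 + (Q.κ w).im ^ 2 := by
        rw [Complex.sq_norm, Complex.normSq_apply]; ring
      rw [← this, Q.norm_κ, one_pow]
    rw [Complex.sq_norm, Complex.normSq_apply]
    simp only [Complex.add_re, Complex.mul_re, Complex.ofReal_re, Complex.ofReal_im, zero_mul,
      sub_zero, Complex.add_im, Complex.mul_im, add_zero]
    linear_combination q ^ 2 * h2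
  have hq : 0 ≤ q * (1 - q) := mul_nonneg h0 (by linarith)
  apply le_of_sq_le_sq _ (Real.exp_pos _).le
  rw [hsq, ← Real.exp_nat_mul]
  have h3 := Real.add_one_le_exp (((2 : ℕ) : ℝ) * -(c₁ * (q * (1 - q))))
  have h4 : c₁ * (q * (1 - q)) ≤ (1 - (Q.κ w).re) * (q * (1 - q)) :=
    mul_le_mul_of_nonneg_right (hmin w hw) hq
  push_cast at h3 ⊢
  linarith

open scoped Classical in
/-- Two large colour classes whose difference is not isotropic. -/
theorem norm_Fc_le_pow {q : ℝ} (h0 : 0 ≤ q) (h1 : q ≤ 1) (c : Fin n → W) {w w' : W}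
    (hw : Q.κ (w - w') ≠ 1) {θ : ℝ} (hθ : ‖(q : ℂ) * Q.κ (w - w') + ((1 - q : ℝ) : ℂ)‖ ≤ θ)
    (hθ1 : θ ≤ 1) {m : ℕ} (hm : m ≤ (univ.filter fun i => c i = w).card)
    (hm' : m ≤ (univ.filter fun i => c i = w').card) : ‖Q.Fc q c‖ ≤ θ ^ (m * m) := by
  have hθ0 : 0 ≤ θ := (norm_nonneg _).trans hθ
  have hne : w ≠ w' := by
    rintro rfl
    rw [sub_self] at hw
    exact hw Q.κ_zero
  set g : Fin n → Fin n → ℝ := fun i j => ‖(q : ℂ) * Q.κ (c i - c j) + ((1 - q : ℝ) : ℂ)‖ with hg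
  have hg0 : ∀ i j, 0 ≤ g i j := fun i j => norm_nonneg _
  have hg1 : ∀ i j, g i j ≤ 1 := fun i j => Q.norm_factor_le_one h0 h1 _
  have hgs : ∀ i j, g i j = g j i := by
    intro i j
    simp only [hg]
    rw [← Q.κ_neg, neg_sub]
  set h : Fin n → Fin n → ℝ := fun i j => if c i = w ∧ c j = w' then g i j else 1 with hh
  have hh0 : ∀ i j, 0 ≤ h i j := by
    intro i j
    simp only [hh]
    split_ifs
    · exact hg0 _ _
    · exact zero_le_one
  have hdiag : ∀ i, h i i = 1 := by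
    intro i
    simp only [hh]
    rw [if_neg]
    rintro ⟨h2, h3⟩
    exact hne (h2.symm.trans h3)
  have e1 : ‖Q.Fc q c‖ ≤ ∏ e : Pr n, h e.1.1 e.1.2 * h e.1.2 e.1.1 := by
    unfold Fc
    rw [norm_prod]
    apply prod_le_prod (fun _ _ => norm_nonneg _)
    intro e _
    have e2 : ‖(q : ℂ) * Q.κ (c e.1.1 - c e.1.2) + ((1 - q : ℝ) : ℂ)‖ = g e.1.1 e.1.2 := rfl
    rw [e2]
    simp only [hh]
    by_cases h2 : c e.1.1 = w ∧ c e.1.2 = w'
    · rw [if_pos h2, if_neg (fun h3 => hne (h3.2.symm.trans h2.1).symm), mul_one]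
    · rw [if_neg h2, one_mul]
      split_ifs
      · rw [hgs]
      · exact hg1 _ _
  refine e1.trans ?_
  rw [← prod_pairs h hdiag]
  have e3 : ∀ i, ∏ j, h i j ≤ if c i = w then θ ^ m else 1 := by
    intro i
    split_ifs with hi
    · have e4 : ∏ j, h i j = ∏ j ∈ univ.filter (fun j => c j = w'), g i j := by
        rw [prod_filter]
        apply prod_congr rfl
        intro j _
        simp only [hh, hi, true_and]
      rw [e4]
      calc ∏ j ∈ univ.filter (fun j => c j = w'), g i j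
          ≤ ∏ _j ∈ univ.filter (fun j => c j = w'), θ := by
            apply prod_le_prod (fun _ _ => hg0 _ _)
            intro j hj
            rw [mem_filter] at hj
            simp only [hg, hi, hj.2]
            exact hθ
        _ = θ ^ (univ.filter (fun j => c j = w')).card := by rw [prod_const]
        _ ≤ θ ^ m := pow_le_pow_of_le_one hθ0 hθ1 hm'
    · apply le_of_eq
      apply prod_eq_one
      intro j _
      simp only [hh, hi, false_and, if_false]
  calc ∏ i, ∏ j, h i j ≤ ∏ i, (if c i = w then θ ^ m else 1) :=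
        prod_le_prod (fun i _ => prod_nonneg fun j _ => hh0 i j) fun i _ => e3 i
    _ = (θ ^ m) ^ (univ.filter fun i => c i = w).card := by
        rw [prod_ite, prod_const_one, mul_one, prod_const]
    _ ≤ (θ ^ m) ^ m := pow_le_pow_of_le_one (pow_nonneg hθ0 _) (pow_le_one₀ hθ0 hθ1) hm
    _ = θ ^ (m * m) := by rw [pow_mul]

end QForm

end Pool.Agent.Lib.MP_49901c_pr
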