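import Mathlib
import Pool.Agent.Lib.MP_49901c_pr.Far

/-!
# The partition function: a finite inequality
-/

namespace Pool.Agent.Lib.MP_49901c_pr

open Finset

namespace QForm

variable {W : Type*} [AddCommGroup W] (Q : QForm W) {n : ℕ}

/-- Cosets of Lagrangian subgroups. -/
abbrev LagCoset : Type _ := Σ U : {U : AddSubgroup W // Q.IsLag U}, W ⧸ U.1

/-- All but at most `K` values of `c` lie in the coset `t`. -/
def Near (K : ℕ) (t : Q.LagCoset) (c : Fin n → W) : Prop :=
  Nat.card {i : Fin n // ((c i : W) : W ⧸ t.1.1) ≠ t.2} ≤ K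

open scoped Classical in
theorem near_iff (K : ℕ) (t : Q.LagCoset) (c : Fin n → W) :
    Q.Near K t c ↔ (univ.filter fun i => ((c i : W) : W ⧸ t.1.1) ≠ t.2).card ≤ K := by
  unfold Near
  rw [Nat.card_eq_fintype_card, Fintype.card_subtype]

theorem Fc_add_const (q : ℝ) (c : Fin n → W) (w : W) : Q.Fc q (fun i => c i + w) = Q.Fc q c := by
  unfold Fc
  apply prod_congr rfl
  intro e _
  simp

open scoped Classical in
theorem sum_near [Fintype W] (q : ℝ) (K : ℕ) (t : Q.LagCoset) :
    ∑ c : Fin n → W, (if Q.Near K t c then Q.Fc q c else 0) =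
      ∑ c : Fin n → W, (if (univ.filter fun i => c i ∉ t.1.1).card ≤ K then Q.Fc q c else 0) := by
  obtain ⟨U, x⟩ := t
  obtain ⟨w, rfl⟩ := QuotientAddGroup.mk_surjective x
  rw [← Equiv.sum_comp (Equiv.addRight (fun _ : Fin n => w))]
  apply sum_congr rfl
  intro c _
  have h1 : Q.Fc q ((Equiv.addRight (fun _ : Fin n => w)) c) = Q.Fc q c := Q.Fc_add_const q c w
  rw [h1]
  have h2 : Q.Near K ⟨U, (w : W ⧸ U.1)⟩ ((Equiv.addRight (fun _ : Fin n => w)) c) ↔
      (univ.filter fun i => c i ∉ U.1).card ≤ K := by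
    rw [near_iff]
    have h3 : (univ.filter fun i => (((Equiv.addRight (fun _ : Fin n => w)) c i : W) :
        W ⧸ U.1) ≠ (w : W ⧸ U.1)) = univ.filter fun i => c i ∉ U.1 := by
      apply filter_congr
      intro i _
      rw [Ne, not_iff_not, QuotientAddGroup.eq]
      have h4 : -((Equiv.addRight (fun _ : Fin n => w)) c i) + w = -(c i) := by
        simp
      rw [h4, neg_mem_iff]
    simp only [h3]
  simp only [h2]

open scoped Classical in
/-- The coset `w + U` as a finite set. -/
noncomputable def cosetFin [Fintype W] (U : AddSubgroup W) (t : W) : Finset W :=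
  univ.filter fun w => w - t ∈ U

omit Q in
theorem card_cosetFin [Fintype W] (U : AddSubgroup W) (t : W) :
    (cosetFin U t).card = Nat.card U := by
  classical
  have e : {w : W // w - t ∈ U} ≃ U :=
    { toFun := fun w => ⟨w.1 - t, w.2⟩
      invFun := fun u => ⟨(u : W) + t, by simp⟩
      left_inv := fun w => by simp
      right_inv := fun u => by simp }
  rw [← Nat.card_congr e, Nat.card_eq_fintype_card, Fintype.card_subtype]
  unfold cosetFin
  congr 1

theorem isLag_card [Fintype W] {D : ℕ} (hD : D ^ 2 = Nat.card W) {U : AddSubgroup W}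
    (hU : Q.IsLag U) : Nat.card U = D := by
  have := hU.2
  rw [← hD] at this
  exact Nat.pow_left_injective (n := 2) (by norm_num) this

open scoped Classical in
/-- Far colourings. -/
theorem far_cases [Fintype W] {D : ℕ} (hD : D ^ 2 = Nat.card W) {q : ℝ} (h0 : 0 ≤ q) (h1 : q ≤ 1)
    {K m : ℕ} (hKm : Nat.card W * m ≤ K) (hKn : K < n) {θ : ℝ}
    (hθ : ∀ w, Q.κ w ≠ 1 → ‖(q : ℂ) * Q.κ w + ((1 - q : ℝ) : ℂ)‖ ≤ θ) (hθ1 : θ ≤ 1)
    (c : Fin n → W) (hc : ∀ t, ¬ Q.Near K t c) :
    ‖Q.Fc q c‖ ≤ θ ^ (m * m) ∨ ∃ (U : AddSubgroup W) (t : W), Nat.card U ≤ D - 1 ∧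
      (univ.filter fun i => c i ∉ cosetFin U t).card ≤ K := by
  set T : Set W := {w | m ≤ (univ.filter fun i => c i = w).card} with hT
  have hout : (univ.filter fun i => c i ∉ T).card ≤ K := by
    refine le_trans ?_ hKm
    rw [card_eq_sum_card_fiberwise (f := c) (t := univ) (fun i _ => mem_univ _),
      Nat.card_eq_fintype_card, ← card_univ, ← smul_eq_mul, ← sum_const]
    apply sum_le_sum
    intro w _
    by_cases hw : w ∈ T
    · have : (filter (fun i => c i = w) (univ.filter fun i => c i ∉ T)) = ∅ := by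
        rw [filter_eq_empty_iff]
        intro i hi h
        rw [mem_filter] at hi
        rw [h] at hi
        exact hi.2 hw
      rw [this]
      simp
    · have hw' : (univ.filter fun i => c i = w).card < m := by
        rw [hT, Set.mem_ofPred_eq, not_le] at hw
        exact hw
      refine le_trans (card_le_card ?_) hw'.le
      intro i hi
      rw [mem_filter] at hi
      rw [mem_filter]
      exact ⟨mem_univ _, hi.2⟩
  by_cases hiso : ∀ t ∈ T, ∀ t' ∈ T, Q.κ (t - t') = 1
  · right
    have hne : T.Nonempty := by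
      by_contra hcon
      have h2 : (univ.filter fun i => c i ∉ T) = univ :=
        filter_true_of_mem fun i _ h => hcon ⟨_, h⟩
      rw [h2, card_univ, Fintype.card_fin] at hout
      omega
    obtain ⟨t₀, ht₀⟩ := hne
    obtain ⟨U, hU, hTU⟩ := Q.exists_isotropic ht₀ hiso
    refine ⟨U, t₀, ?_, ?_⟩
    · by_contra hcon
      have h2 := hU.card_sq_le
      rw [← hD] at h2
      have h3 : Nat.card U ≤ D := by
        by_contra h
        push Not at h
        exact absurd h2 (not_le.mpr (Nat.pow_lt_pow_left h (by norm_num)))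
      have h4 : Nat.card U = D := by omega
      have hLag : Q.IsLag U := ⟨hU, by rw [h4, hD]⟩
      apply hc ⟨⟨U, hLag⟩, (t₀ : W ⧸ U)⟩
      rw [near_iff]
      refine le_trans (card_le_card ?_) hout
      intro i hi
      rw [mem_filter] at hi ⊢
      refine ⟨mem_univ _, fun hi2 => hi.2 ?_⟩
      have h5 := hTU _ hi2
      simp only
      rw [QuotientAddGroup.eq, ← neg_mem_iff]
      have : -(-c i + t₀) = c i - t₀ := by abel
      rw [this]
      exact h5
    · refine le_trans (card_le_card ?_) hout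
      intro i hi
      rw [mem_filter] at hi ⊢
      refine ⟨mem_univ _, fun hi2 => hi.2 ?_⟩
      simp only [cosetFin, mem_filter, mem_univ, true_and]
      exact hTU _ hi2
  · left
    push Not at hiso
    obtain ⟨w, hw, w', hw', hne⟩ := hiso
    exact Q.norm_Fc_le_pow h0 h1 c hne (hθ _ hne) hθ1 hw hw'

open scoped Classical in
theorem overlap_card_le [Fintype W] {D : ℕ} (hD : D ^ 2 = Nat.card W) (K : ℕ) {t t' : Q.LagCoset}
    (htt : t ≠ t') {s : ℝ} (hs : 1 ≤ s) :
    ((univ.filter fun c : Fin n → W => Q.Near K t c ∧ Q.Near K t' c).card : ℝ) ≤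
      s ^ (2 * K) * (((D - 1 : ℕ) : ℝ) + Fintype.card W / s) ^ n := by
  obtain ⟨U, x⟩ := t
  obtain ⟨U', x'⟩ := t'
  obtain ⟨w, rfl⟩ := QuotientAddGroup.mk_surjective x
  obtain ⟨w', rfl⟩ := QuotientAddGroup.mk_surjective x'
  set T := cosetFin U.1 w ∩ cosetFin U'.1 w' with hT
  have hcard : T.card ≤ D - 1 := by
    have hpos : 0 < D := by
      rcases Nat.eq_zero_or_pos D with h | h
      · have h2 : Nat.card W = 0 := by rw [← hD, h]; rfl
        have : 0 < Nat.card W := Nat.card_pos
        omega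
      · exact h
    have h1 : (cosetFin U.1 w).card = D := by rw [card_cosetFin, Q.isLag_card hD U.2]
    have h2 : (cosetFin U'.1 w').card = D := by rw [card_cosetFin, Q.isLag_card hD U'.2]
    by_contra hcon
    have h3 : D ≤ T.card := by omega
    have h4 : T = cosetFin U.1 w := eq_of_subset_of_card_le inter_subset_left (by rw [h1]; exact h3)
    have h5 : T = cosetFin U'.1 w' :=
      eq_of_subset_of_card_le inter_subset_right (by rw [h2]; exact h3)
    have h6 : cosetFin U.1 w = cosetFin U'.1 w' := h4.symm.trans h5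
    have h7 : ∀ v, v - w ∈ U.1 ↔ v - w' ∈ U'.1 := by
      intro v
      have : v ∈ cosetFin U.1 w ↔ v ∈ cosetFin U'.1 w' := by rw [h6]
      simpa [cosetFin] using this
    have h8 : w - w' ∈ U'.1 := by
      rw [← h7 w, sub_self]
      exact U.1.zero_mem
    have h9 : U.1 = U'.1 := by
      ext v
      have := h7 (v + w)
      rw [add_sub_cancel_right] at this
      rw [this]
      have e : v + w - w' = v + (w - w') := by abel
      rw [e, AddSubgroup.add_mem_cancel_right _ h8]
    have h10 : U = U' := Subtype.ext h9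
    subst h10
    apply htt
    congr 1
    rw [QuotientAddGroup.eq]
    have : -w + w' = -(w - w') := by abel
    rw [this]
    exact U.1.neg_mem h8
  calc ((univ.filter fun c : Fin n → W => Q.Near K ⟨U, (w : W ⧸ U.1)⟩ c ∧
        Q.Near K ⟨U', (w' : W ⧸ U'.1)⟩ c).card : ℝ)
      ≤ ((univ.filter fun c : Fin n → W =>
          (univ.filter fun i => c i ∉ T).card ≤ 2 * K).card : ℝ) := by
        norm_cast
        apply card_le_card
        intro c hc
        rw [mem_filter] at hc ⊢
        refine ⟨mem_univ _, ?_⟩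
        obtain ⟨-, hc1, hc2⟩ := hc
        rw [near_iff] at hc1 hc2
        have hc1' : (univ.filter fun i => ((c i : W) : W ⧸ U.1) ≠ (w : W ⧸ U.1)).card ≤ K := hc1
        have hc2' : (univ.filter fun i => ((c i : W) : W ⧸ U'.1) ≠ (w' : W ⧸ U'.1)).card ≤ K :=
          hc2
        have hsub : (univ.filter fun i => c i ∉ T) ⊆
            (univ.filter fun i => ((c i : W) : W ⧸ U.1) ≠ (w : W ⧸ U.1)) ∪
            (univ.filter fun i => ((c i : W) : W ⧸ U'.1) ≠ (w' : W ⧸ U'.1)) := by
          intro i hi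
          rw [mem_filter] at hi
          rw [mem_union, mem_filter, mem_filter]
          by_contra hcon
          push Not at hcon
          apply hi.2
          rw [hT, mem_inter]
          have h3 := hcon.1 (mem_univ _)
          have h4 := hcon.2 (mem_univ _)
          rw [QuotientAddGroup.eq] at h3 h4
          simp only [cosetFin, mem_filter, mem_univ, true_and]
          constructor
          · rw [← neg_mem_iff]
            have : -(c i - w) = -c i + w := by abel
            rw [this]; exact h3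
          · rw [← neg_mem_iff]
            have : -(c i - w') = -c i + w' := by abel
            rw [this]; exact h4
        calc _ ≤ _ := card_le_card hsub
          _ ≤ _ := card_union_le _ _
          _ ≤ 2 * K := by rw [two_mul]; exact add_le_add hc1' hc2'
    _ ≤ s ^ (2 * K) * ((T.card : ℝ) + Fintype.card W / s) ^ n := card_almost_le T (2 * K) hs
    _ ≤ _ := by
        have : (T.card : ℝ) ≤ ((D - 1 : ℕ) : ℝ) := by exact_mod_cast hcard
        gcongr

open scoped Classical in
/-- The finite inequality for the partition function. -/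
theorem partition_bound [Fintype W] {D : ℕ} (hD : D ^ 2 = Nat.card W) {q : ℝ} (h0 : 0 ≤ q)
    (h1 : q ≤ 1) {K m : ℕ} (hKm : Nat.card W * m ≤ K) (hKn : K < n) {θ : ℝ}
    (hθ : ∀ w, Q.κ w ≠ 1 → ‖(q : ℂ) * Q.κ w + ((1 - q : ℝ) : ℂ)‖ ≤ θ) (hθ0 : 0 ≤ θ) (hθ1 : θ ≤ 1)
    {s : ℝ} (hs : 1 ≤ s) {ε : ℝ}
    (hsmall : ∀ U : AddSubgroup W, Q.IsLag U → smallSum q n (W ⧸ U) K ≤ ε) :
    ‖∑ c : Fin n → W, Q.Fc q c - (Fintype.card Q.LagCoset : ℂ) * (D : ℂ) ^ n‖ ≤
      (Fintype.card Q.LagCoset : ℝ) * ((D : ℝ) ^ n * ε) +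
      (Fintype.card Q.LagCoset : ℝ) ^ 2 *
        (s ^ (2 * K) * (((D - 1 : ℕ) : ℝ) + Fintype.card W / s) ^ n) +
      (Fintype.card (AddSubgroup W × W) : ℝ) *
        (s ^ K * (((D - 1 : ℕ) : ℝ) + Fintype.card W / s) ^ n) +
      (Fintype.card W : ℝ) ^ n * θ ^ (m * m) := by
  set N : (Fin n → W) → ℕ := fun c => (univ.filter fun t : Q.LagCoset => Q.Near K t c).card
    with hN
  -- first comparison
  have e1 : ∑ t : Q.LagCoset, ∑ c : Fin n → W, (if Q.Near K t c then Q.Fc q c else 0) =
      ∑ c : Fin n → W, (N c : ℂ) * Q.Fc q c := by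
    rw [sum_comm]
    apply sum_congr rfl
    intro c _
    rw [← sum_filter, sum_const, nsmul_eq_mul]
  have hb : ∀ t : Q.LagCoset, ‖∑ c : Fin n → W, (if Q.Near K t c then Q.Fc q c else 0) -
      (D : ℂ) ^ n‖ ≤ (D : ℝ) ^ n * ε := by
    intro t
    rw [Q.sum_near q K t]
    have h2 := Q.near_bound (n := n) t.1.2 h0 h1 K
    rw [Q.isLag_card hD t.1.2] at h2
    refine h2.trans ?_
    exact mul_le_mul_of_nonneg_left (hsmall _ t.1.2) (by positivity)
  have e2 : ‖∑ c : Fin n → W, (N c : ℂ) * Q.Fc q c -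
      (Fintype.card Q.LagCoset : ℂ) * (D : ℂ) ^ n‖ ≤
      (Fintype.card Q.LagCoset : ℝ) * ((D : ℝ) ^ n * ε) := by
    rw [← e1]
    have h3 : (Fintype.card Q.LagCoset : ℂ) * (D : ℂ) ^ n =
        ∑ _t : Q.LagCoset, (D : ℂ) ^ n := by
      rw [sum_const, card_univ, nsmul_eq_mul]
    rw [h3, ← sum_sub_distrib]
    refine (norm_sum_le _ _).trans ?_
    calc _ ≤ ∑ _t : Q.LagCoset, (D : ℝ) ^ n * ε := sum_le_sum fun t _ => hb t
      _ = _ := by rw [sum_const, card_univ, nsmul_eq_mul]
  -- second comparison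
  have e3 : ‖∑ c : Fin n → W, Q.Fc q c - ∑ c : Fin n → W, (N c : ℂ) * Q.Fc q c‖ ≤
      ∑ c : Fin n → W, ((if N c = 0 then ‖Q.Fc q c‖ else 0) + (N c : ℝ) * ((N c : ℝ) - 1)) := by
    rw [← sum_sub_distrib]
    refine (norm_sum_le _ _).trans (sum_le_sum fun c _ => ?_)
    have h4 : Q.Fc q c - (N c : ℂ) * Q.Fc q c = (((1 - (N c : ℝ)) : ℝ) : ℂ) * Q.Fc q c := by
      push_cast; ring
    rw [h4, norm_mul, Complex.norm_real, Real.norm_eq_abs]
    have h5 := Q.norm_Fc_le_one h0 h1 c
    have h6 := norm_nonneg (Q.Fc q c)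
    rcases Nat.eq_zero_or_pos (N c) with h | h
    · rw [h]
      simp
    · rw [if_neg h.ne', zero_add]
      have h7 : (1 : ℝ) ≤ N c := by exact_mod_cast h
      rw [abs_of_nonpos (by linarith)]
      nlinarith
  -- the overlaps
  have e4 : ∑ c : Fin n → W, (N c : ℝ) * ((N c : ℝ) - 1) ≤
      (Fintype.card Q.LagCoset : ℝ) ^ 2 *
        (s ^ (2 * K) * (((D - 1 : ℕ) : ℝ) + Fintype.card W / s) ^ n) := by
    have h8 : ∀ c : Fin n → W, (N c : ℝ) * ((N c : ℝ) - 1) =
        ∑ p ∈ (univ : Finset Q.LagCoset).offDiag,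
          if Q.Near K p.1 c ∧ Q.Near K p.2 c then (1 : ℝ) else 0 := by
      intro c
      rw [← sum_filter, sum_const, nsmul_eq_mul, mul_one]
      have h9 : filter (fun p : Q.LagCoset × Q.LagCoset => Q.Near K p.1 c ∧ Q.Near K p.2 c)
          (univ : Finset Q.LagCoset).offDiag =
          (univ.filter fun t : Q.LagCoset => Q.Near K t c).offDiag := by
        ext p
        simp only [mem_filter, mem_offDiag, mem_univ, true_and]
        tauto
      rw [h9, offDiag_card]
      have h10 : N c ≤ N c * N c := Nat.le_mul_self _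
      rw [show (univ.filter fun t : Q.LagCoset => Q.Near K t c).card = N c from rfl]
      rw [Nat.cast_sub h10]
      push_cast
      ring
    simp_rw [h8]
    rw [sum_comm]
    calc ∑ p ∈ (univ : Finset Q.LagCoset).offDiag, ∑ c : Fin n → W,
          (if Q.Near K p.1 c ∧ Q.Near K p.2 c then (1 : ℝ) else 0)
        ≤ ∑ _p ∈ (univ : Finset Q.LagCoset).offDiag,
          (s ^ (2 * K) * (((D - 1 : ℕ) : ℝ) + Fintype.card W / s) ^ n) := by
          apply sum_le_sum
          intro p hp
          rw [mem_offDiag] at hp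
          rw [← sum_filter, sum_const, nsmul_eq_mul, mul_one]
          exact Q.overlap_card_le hD K hp.2.2 hs
      _ = ((univ : Finset Q.LagCoset).offDiag.card : ℝ) *
          (s ^ (2 * K) * (((D - 1 : ℕ) : ℝ) + Fintype.card W / s) ^ n) := by
          rw [sum_const, nsmul_eq_mul]
      _ ≤ _ := by
          apply mul_le_mul_of_nonneg_right
          · rw [offDiag_card, card_univ, sq]
            exact_mod_cast Nat.sub_le _ _
          · positivity
  -- the far part
  have e5 : ∑ c : Fin n → W, (if N c = 0 then ‖Q.Fc q c‖ else 0) ≤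
      (Fintype.card (AddSubgroup W × W) : ℝ) *
        (s ^ K * (((D - 1 : ℕ) : ℝ) + Fintype.card W / s) ^ n) +
      (Fintype.card W : ℝ) ^ n * θ ^ (m * m) := by
    set S : Finset (AddSubgroup W × W) :=
      (univ : Finset (AddSubgroup W × W)).filter (fun p => Nat.card p.1 ≤ D - 1) with hS
    set g : AddSubgroup W × W → (Fin n → W) → ℝ := fun p c =>
      if (univ.filter fun i => c i ∉ cosetFin p.1 p.2).card ≤ K then (1 : ℝ) else 0 with hg
    have hg0 : ∀ p c, 0 ≤ g p c := by
      intro p c
      simp only [hg]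
      split_ifs <;> norm_num
    have h11 : ∀ c : Fin n → W, (if N c = 0 then ‖Q.Fc q c‖ else 0) ≤
        (∑ p ∈ S, g p c) + θ ^ (m * m) := by
      intro c
      have h12 : 0 ≤ ∑ p ∈ S, g p c := sum_nonneg fun p _ => hg0 p c
      have h13 : 0 ≤ θ ^ (m * m) := pow_nonneg hθ0 _
      split_ifs with hNc
      · have hfar : ∀ t, ¬ Q.Near K t c := by
          intro t ht
          have : t ∈ univ.filter fun t : Q.LagCoset => Q.Near K t c := by simp [ht]
          rw [show N c = (univ.filter fun t : Q.LagCoset => Q.Near K t c).card from rfl,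
            card_eq_zero] at hNc
          rw [hNc] at this
          simp at this
        rcases Q.far_cases hD h0 h1 hKm hKn hθ hθ1 c hfar with h | ⟨U, t, hU, ht⟩
        · linarith
        · have h14 : g (U, t) c = 1 := if_pos ht
          have h15 : (U, t) ∈ S := by
            rw [hS, mem_filter]
            exact ⟨mem_univ _, hU⟩
          have h16 : g (U, t) c ≤ ∑ p ∈ S, g p c :=
            single_le_sum (f := fun p => g p c) (fun p _ => hg0 p c) h15
          have := Q.norm_Fc_le_one h0 h1 c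
          linarith
      · linarith
    refine (sum_le_sum fun c _ => h11 c).trans ?_
    rw [sum_add_distrib, sum_comm]
    apply add_le_add
    · calc ∑ p ∈ S, ∑ c : Fin n → W, g p c
          ≤ ∑ _p ∈ S, (s ^ K * (((D - 1 : ℕ) : ℝ) + Fintype.card W / s) ^ n) := by
            apply sum_le_sum
            intro p hp
            rw [hS, mem_filter] at hp
            simp only [hg]
            rw [← sum_filter, sum_const, nsmul_eq_mul, mul_one]
            refine (card_almost_le (cosetFin p.1 p.2) K hs).trans ?_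
            rw [card_cosetFin]
            have : (Nat.card p.1 : ℝ) ≤ ((D - 1 : ℕ) : ℝ) := by exact_mod_cast hp.2
            gcongr
        _ = (S.card : ℝ) * (s ^ K * (((D - 1 : ℕ) : ℝ) + Fintype.card W / s) ^ n) := by
            rw [sum_const, nsmul_eq_mul]
        _ ≤ _ := by
            apply mul_le_mul_of_nonneg_right _ (by positivity)
            exact_mod_cast card_le_univ _
    · rw [sum_const, card_univ, nsmul_eq_mul]
      apply le_of_eq
      congr 1
      rw [Fintype.card_fun, Fintype.card_fin]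
      push_cast
      rfl
  calc ‖∑ c : Fin n → W, Q.Fc q c - (Fintype.card Q.LagCoset : ℂ) * (D : ℂ) ^ n‖
      = ‖(∑ c : Fin n → W, Q.Fc q c - ∑ c : Fin n → W, (N c : ℂ) * Q.Fc q c) +
          (∑ c : Fin n → W, (N c : ℂ) * Q.Fc q c -
          (Fintype.card Q.LagCoset : ℂ) * (D : ℂ) ^ n)‖ := by congr 1; ring
    _ ≤ _ := norm_add_le _ _
    _ ≤ _ := add_le_add e3 e2
    _ ≤ _ := by
        rw [sum_add_distrib]
        linarith

end QForm

end Pool.Agent.Lib.MP_49901c_pr
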