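import Mathlib
import Pool.Agent.Lib.MP_49901c_pr.Partition

/-!
# The partition function: asymptotics
-/

namespace Pool.Agent.Lib.MP_49901c_pr

open Finset Filter Topology

theorem smallSum_nonneg {q : ℝ} (h0 : 0 ≤ q) (h1 : q ≤ 1) (n : ℕ) (A : Type*) [AddCommGroup A]
    [Fintype A] (K : ℕ) : 0 ≤ smallSum q n A K := by
  classical
  unfold smallSum
  apply sum_nonneg
  intro γ _
  split_ifs
  · apply Ex_nonneg h0 h1
    intro ω
    split_ifs <;> norm_num
  · exact le_rfl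

/-- Choice of the constants. -/
theorem exists_eta {s b η₀ : ℝ} (hs : 1 ≤ s) (hb0 : 0 < b) (hb : b < 1) (hη₀ : 0 < η₀) :
    ∃ η : ℝ, 0 < η ∧ η ≤ η₀ ∧ η ≤ 1 / 2 ∧ s ^ (2 * η) * b < 1 := by
  have hs0 : 0 < s := by linarith
  have hc : Tendsto (fun η : ℝ => s ^ (2 * η) * b) (𝓝[>] 0) (𝓝 b) := by
    have h1 : Tendsto (fun η : ℝ => s ^ (2 * η) * b) (𝓝 0) (𝓝 (s ^ (2 * (0 : ℝ)) * b)) := by
      apply Continuous.tendsto
      apply Continuous.mul _ continuous_const
      exact Continuous.rpow continuous_const (by fun_prop) (fun _ => Or.inl hs0.ne')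
    rw [mul_zero, Real.rpow_zero, one_mul] at h1
    exact h1.mono_left nhdsWithin_le_nhds
  have h2 : ∀ᶠ η in 𝓝[>] (0 : ℝ), s ^ (2 * η) * b < 1 := hc.eventually_lt_const hb
  have h3 : ∀ᶠ η in 𝓝[>] (0 : ℝ), η ∈ Set.Ioc 0 (min η₀ (1 / 2)) :=
    Ioc_mem_nhdsGT (by positivity)
  obtain ⟨η, hη1, hη2⟩ := (h2.and h3).exists
  exact ⟨η, hη2.1, hη2.2.trans (min_le_left _ _), hη2.2.trans (min_le_right _ _), hη1⟩

namespace QForm

variable {W : Type*} [AddCommGroup W] (Q : QForm W)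

open scoped Classical in
theorem tendsto_partition [Fintype W] {D : ℕ} (hD : D ^ 2 = Nat.card W) (q : ℕ → ℝ)
    (h0 : ∀ n, 0 ≤ q n) (h1 : ∀ n, q n ≤ 1)
    (hq : Tendsto (fun n : ℕ => n * (q n * (1 - q n))) atTop atTop) {η₀ : ℝ} (hη₀ : 0 < η₀)
    (hsmall : ∀ U : AddSubgroup W, Q.IsLag U → ∀ η : ℝ, 0 < η → η ≤ η₀ →
      Tendsto (fun n : ℕ => smallSum (q n) n (W ⧸ U) ⌊η * n⌋₊) atTop (𝓝 0)) :
    Tendsto (fun n : ℕ => (∑ c : Fin n → W, Q.Fc (q n) c) / (D : ℂ) ^ n) atTop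
      (𝓝 (Fintype.card Q.LagCoset : ℂ)) := by
  have hw : 0 < Nat.card W := Nat.card_pos
  have hDpos : 0 < D := by
    rcases Nat.eq_zero_or_pos D with h | h
    · have h2 : Nat.card W = 0 := by rw [← hD, h]; rfl
      omega
    · exact h
  set w : ℕ := Nat.card W with hwdef
  have hwF : Fintype.card W = w := by rw [hwdef, Nat.card_eq_fintype_card]
  have hw1 : (1 : ℝ) ≤ w := by exact_mod_cast hw
  have hD1 : (1 : ℝ) ≤ D := by exact_mod_cast hDpos
  set s : ℝ := 2 * w with hsdef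
  have hs : 1 ≤ s := by rw [hsdef]; linarith
  have hs0 : 0 < s := by linarith
  set b : ℝ := (D - 1 / 2) / D with hbdef
  have hb0 : 0 < b := by rw [hbdef]; apply div_pos <;> linarith
  have hb1 : b < 1 := by rw [hbdef, div_lt_one (by linarith)]; linarith
  obtain ⟨η, hη0, hηη₀, hη2, hβ⟩ := exists_eta hs hb0 hb1 hη₀
  obtain ⟨c₁, hc₁, hgap⟩ := Q.exists_gap
  set β : ℝ := s ^ (2 * η) * b with hβdef
  have hβ0 : 0 < β := mul_pos (Real.rpow_pos_of_pos hs0 _) hb0
  -- the error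
  set L : ℝ := (Fintype.card Q.LagCoset : ℝ) with hL
  set S : ℝ := (Fintype.card (AddSubgroup W × W) : ℝ) with hS
  set ε : ℕ → ℝ := fun n => ∑ U ∈ (univ : Finset (AddSubgroup W)).filter (fun U => Q.IsLag U),
    smallSum (q n) n (W ⧸ U) ⌊η * n⌋₊ with hε
  set K : ℕ → ℕ := fun n => ⌊η * n⌋₊ with hK
  set m : ℕ → ℕ := fun n => K n / w with hm
  set E : ℕ → ℝ := fun n => L * ε n + L ^ 2 * β ^ n + S * β ^ n +
    (D : ℝ) ^ n * Real.exp (-(c₁ * (q n * (1 - q n)))) ^ (m n * m n) with hE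
  have hεlim : Tendsto ε atTop (𝓝 0) := by
    have : Tendsto ε atTop (𝓝 (∑ U ∈ (univ : Finset (AddSubgroup W)).filter
        (fun U => Q.IsLag U), (0 : ℝ))) := by
      apply tendsto_finsetSum
      intro U hU
      rw [mem_filter] at hU
      exact hsmall U hU.2 η hη0 hηη₀
    rwa [sum_const_zero] at this
  have hβlim : Tendsto (fun n : ℕ => β ^ n) atTop (𝓝 0) :=
    tendsto_pow_atTop_nhds_zero_of_lt_one hβ0.le hβ
  -- the Gaussian term
  have hlast : Tendsto (fun n : ℕ => (D : ℝ) ^ n *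
      Real.exp (-(c₁ * (q n * (1 - q n)))) ^ (m n * m n)) atTop (𝓝 0) := by
    have hexp : ∀ n : ℕ, (D : ℝ) ^ n * Real.exp (-(c₁ * (q n * (1 - q n)))) ^ (m n * m n) =
        Real.exp (n * Real.log D - c₁ * (q n * (1 - q n)) * ((m n : ℝ) * m n)) := by
      intro n
      rw [← Real.exp_nat_mul, ← Real.exp_log (show (0 : ℝ) < D by linarith), ← Real.exp_nat_mul,
        ← Real.exp_add]
      congr 1
      rw [Real.exp_log (show (0 : ℝ) < D by linarith)]
      push_cast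
      ring
    simp_rw [hexp]
    apply Real.tendsto_exp_atBot.comp
    -- lower bound on m
    have hmlow : ∀ᶠ n : ℕ in atTop, η * n / (2 * w) ≤ m n := by
      have hlarge : ∀ᶠ n : ℕ in atTop, 2 * ((w : ℝ) + 1) / η ≤ n :=
        tendsto_natCast_atTop_atTop.eventually_ge_atTop _
      filter_upwards [hlarge] with n hn
      have h2 : η * n < K n + 1 := Nat.lt_floor_add_one _
      have h3 : (K n : ℝ) < w * (m n) + w := by
        have h4 := Nat.lt_mul_div_succ (K n) hw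
        have h5 : K n < w * (m n + 1) := h4
        have h6 : (K n : ℝ) < w * ((m n : ℝ) + 1) := by exact_mod_cast h5
        linarith
      rw [div_le_iff₀ hη0] at hn
      rw [div_le_iff₀ (by linarith)]
      nlinarith
    have hbig : ∀ᶠ n : ℕ in atTop, n * Real.log D - c₁ * (q n * (1 - q n)) * ((m n : ℝ) * m n) ≤
        -(n : ℝ) := by
      have hqbig := hq.eventually_ge_atTop ((Real.log D + 1) / (c₁ * (η / (2 * w)) ^ 2))
      filter_upwards [hmlow, hqbig] with n h2 h3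
      have h4 : 0 < c₁ * (η / (2 * w)) ^ 2 := by positivity
      rw [div_le_iff₀ h4] at h3
      have h5 : 0 ≤ q n * (1 - q n) := mul_nonneg (h0 n) (by linarith [h1 n])
      have h6 : 0 ≤ η * n / (2 * w) := by positivity
      have h7 : (η * n / (2 * w)) * (η * n / (2 * w)) ≤ (m n : ℝ) * m n :=
        mul_le_mul h2 h2 h6 (h6.trans h2)
      have h8 : c₁ * (q n * (1 - q n)) * ((η * n / (2 * w)) * (η * n / (2 * w))) ≤
          c₁ * (q n * (1 - q n)) * ((m n : ℝ) * m n) :=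
        mul_le_mul_of_nonneg_left h7 (mul_nonneg hc₁.le h5)
      have h9 : c₁ * (q n * (1 - q n)) * ((η * n / (2 * w)) * (η * n / (2 * w))) =
          n * (n * (q n * (1 - q n)) * (c₁ * (η / (2 * w)) ^ 2)) := by ring
      have h10 : (n : ℝ) * (Real.log D + 1) ≤
          n * (n * (q n * (1 - q n)) * (c₁ * (η / (2 * w)) ^ 2)) :=
        mul_le_mul_of_nonneg_left h3 (Nat.cast_nonneg n)
      linarith
    exact tendsto_atBot_mono' _ hbig (tendsto_neg_atTop_atBot.comp tendsto_natCast_atTop_atTop)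
  have hElim : Tendsto E atTop (𝓝 0) := by
    have := (((hεlim.const_mul L).add (hβlim.const_mul (L ^ 2))).add
      (hβlim.const_mul S)).add hlast
    simpa [hE] using this
  rw [tendsto_iff_norm_sub_tendsto_zero]
  refine squeeze_zero' (Eventually.of_forall fun n => norm_nonneg _) ?_ hElim
  filter_upwards [eventually_ge_atTop 1] with n hn
  have hn1 : (1 : ℝ) ≤ n := by exact_mod_cast hn
  have hKle : (K n : ℝ) ≤ η * n := Nat.floor_le (by positivity)
  have hKn : K n < n := by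
    have : (K n : ℝ) < n := by nlinarith
    exact_mod_cast this
  have hKm : Nat.card W * m n ≤ K n := by
    rw [← hwdef, hm]
    exact Nat.mul_div_le _ _
  have hq0 : 0 ≤ q n * (1 - q n) := mul_nonneg (h0 n) (by linarith [h1 n])
  have hθ1 : Real.exp (-(c₁ * (q n * (1 - q n)))) ≤ 1 := by
    rw [Real.exp_le_one_iff]
    have := mul_nonneg hc₁.le hq0
    linarith
  have hεn : ∀ U : AddSubgroup W, Q.IsLag U → smallSum (q n) n (W ⧸ U) (K n) ≤ ε n := by
    intro U hU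
    exact single_le_sum (f := fun U : AddSubgroup W => smallSum (q n) n (W ⧸ U) ⌊η * n⌋₊)
      (fun U _ => smallSum_nonneg (h0 n) (h1 n) n _ _) (by rw [mem_filter]; exact ⟨mem_univ _, hU⟩)
  have hmain := Q.partition_bound (n := n) hD (h0 n) (h1 n) hKm hKn
    (fun w hw => hgap w hw (q n) (h0 n) (h1 n)) (Real.exp_pos _).le hθ1 hs hεn
  have hDn : (0 : ℝ) < (D : ℝ) ^ n := by positivity
  have hDc : ((D : ℂ) ^ n) ≠ 0 := by
    apply pow_ne_zero
    exact_mod_cast hDpos.ne'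
  have h12 : (∑ c : Fin n → W, Q.Fc (q n) c) / (D : ℂ) ^ n - (Fintype.card Q.LagCoset : ℂ) =
      (∑ c : Fin n → W, Q.Fc (q n) c - (Fintype.card Q.LagCoset : ℂ) * (D : ℂ) ^ n) /
        (D : ℂ) ^ n := by
    field_simp
  rw [h12, norm_div, norm_pow, Complex.norm_natCast, div_le_iff₀ hDn]
  refine hmain.trans ?_
  rw [hwF]
  have hDm1 : ((D - 1 : ℕ) : ℝ) = D - 1 := by
    rw [Nat.cast_sub hDpos]; simp
  have hbase : ((D - 1 : ℕ) : ℝ) + w / s = b * D := by
    rw [hDm1, hsdef, hbdef]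
    field_simp
    ring
  rw [hbase, mul_pow b (D : ℝ) n]
  have hs2K : s ^ (2 * K n) ≤ (s ^ (2 * η)) ^ n := by
    rw [← Real.rpow_natCast, ← Real.rpow_natCast, ← Real.rpow_mul hs0.le]
    apply Real.rpow_le_rpow_of_exponent_le hs
    push_cast
    linarith
  have hsK : s ^ K n ≤ (s ^ (2 * η)) ^ n := by
    refine le_trans ?_ hs2K
    exact pow_le_pow_right₀ hs (by omega)
  have hb2 : s ^ (2 * K n) * (b ^ n * (D : ℝ) ^ n) ≤ β ^ n * (D : ℝ) ^ n := by
    rw [hβdef, mul_pow (s ^ (2 * η)) b n, ← mul_assoc]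
    apply mul_le_mul_of_nonneg_right _ hDn.le
    exact mul_le_mul_of_nonneg_right hs2K (pow_nonneg hb0.le n)
  have hb3 : s ^ K n * (b ^ n * (D : ℝ) ^ n) ≤ β ^ n * (D : ℝ) ^ n := by
    rw [hβdef, mul_pow (s ^ (2 * η)) b n, ← mul_assoc]
    apply mul_le_mul_of_nonneg_right _ hDn.le
    exact mul_le_mul_of_nonneg_right hsK (pow_nonneg hb0.le n)
  have hwn : (w : ℝ) ^ n = (D : ℝ) ^ n * (D : ℝ) ^ n := by
    have h13 : (w : ℝ) = (D : ℝ) ^ 2 := by exact_mod_cast hD.symm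
    rw [h13, ← pow_mul, ← pow_add]
    congr 1
    ring
  rw [hwn]
  have hL0 : 0 ≤ L ^ 2 := by positivity
  have hS0 : 0 ≤ S := by positivity
  have t1 := mul_le_mul_of_nonneg_left hb2 hL0
  have t2 := mul_le_mul_of_nonneg_left hb3 hS0
  calc _ ≤ L * ((D : ℝ) ^ n * ε n) + L ^ 2 * (β ^ n * (D : ℝ) ^ n) + S * (β ^ n * (D : ℝ) ^ n) +
        (D : ℝ) ^ n * (D : ℝ) ^ n * Real.exp (-(c₁ * (q n * (1 - q n)))) ^ (m n * m n) := by
        linarith
    _ = E n * (D : ℝ) ^ n := by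
        simp only [hE]
        ring

end QForm

end Pool.Agent.Lib.MP_49901c_pr
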