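import Mathlib

/-!
# Sandpile groups of random graphs: definitions
-/

namespace Pool.Agent.Lib.MP_49901c_pr

open Filter Topology

open scoped Classical in
/-- The reduced Laplacian of a graph on `n + 1` vertices: the last row and the last column of the
Laplacian are removed. -/
noncomputable def redLap {n : ℕ} (G : SimpleGraph (Fin (n + 1))) : Matrix (Fin n) (Fin n) ℤ :=
  (G.lapMatrix ℤ).submatrix Fin.castSucc Fin.castSucc

/-- The critical group (sandpile group): the cokernel of the reduced Laplacian. -/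
abbrev CriticalGroup {n : ℕ} (G : SimpleGraph (Fin (n + 1))) : Type :=
  (Fin n → ℤ) ⧸ LinearMap.range (redLap G).mulVecLin

/-- The subgroup of the elements killed by a power of `p`, that is (for `p` prime) of the elements
whose order is a power of `p`. -/
def primaryPart (p : ℕ) (X : Type*) [AddCommGroup X] : AddSubgroup X where
  carrier := {x | ∃ m : ℕ, p ^ m • x = 0}
  zero_mem' := ⟨0, smul_zero _⟩
  add_mem' := by
    rintro x y ⟨a, ha⟩ ⟨b, hb⟩
    refine ⟨a + b, ?_⟩
    rw [smul_add]
    have h1 : p ^ (a + b) • x = 0 := by rw [pow_add, mul_comm, mul_smul, ha, smul_zero]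
    have h2 : p ^ (a + b) • y = 0 := by rw [pow_add, mul_smul, hb, smul_zero]
    rw [h1, h2, add_zero]
  neg_mem' := by
    rintro x ⟨a, ha⟩
    exact ⟨a, by rw [smul_neg, ha, neg_zero]⟩

/-- The number of symmetric, bilinear, perfect pairings `H × H → ℂˣ`. -/
noncomputable def numPairings (H : Type*) [AddCommGroup H] : ℕ :=
  Nat.card {φ : H →+ H →+ Additive ℂˣ // (∀ x y, φ x y = φ y x) ∧ Function.Bijective φ}

/-- The measure `μ_p` on finite abelian `p`-groups. -/
noncomputable def mu (p : ℕ) (H : Type*) [AddCommGroup H] : ℝ :=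
  (numPairings H : ℝ) / ((Nat.card H : ℝ) * (Nat.card (H ≃+ H) : ℝ)) *
    ∏' j : ℕ, (1 - ((p : ℝ) ^ (2 * j + 1))⁻¹)

/-- The probability that the Erdos Renyi random graph `G(n, q)` belongs to a set of graphs. -/
noncomputable def gnpProb (n : ℕ) (q : ℝ) (S : Set (SimpleGraph (Fin n))) : ℝ :=
  ∑ᶠ G ∈ S, q ^ G.edgeSet.ncard * (1 - q) ^ (n.choose 2 - G.edgeSet.ncard)

/-- The sequence `q` is `p`-universal: for every finite abelian `p`-group `H` the probability that
`G(n, q n)` is connected and the Sylow `p`-subgroup of its critical group is isomorphic to `H`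
tends to `μ_p(H)`. -/
def IsUniversal (p : ℕ) (q : ℕ → ℝ) : Prop :=
  ∀ (H : Type) [AddCommGroup H] [Finite H], (∃ m, Nat.card H = p ^ m) →
    Tendsto (fun n : ℕ => gnpProb (n + 1) (q (n + 1))
      {G | G.Connected ∧ Nonempty (primaryPart p (CriticalGroup G) ≃+ H)}) atTop (𝓝 (mu p H))

end Pool.Agent.Lib.MP_49901c_pr
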