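import Mathlib
import Pool.Agent.Lib.MP_49901c_pr.Defs

/-!
# Definitions used in the proof: uniform symmetric matrices over `ZMod (p ^ k)`, extensions
-/

namespace Pool.Agent.Lib.MP_49901c_pr

open Filter Topology

/-- Symmetric matrices of size `n` over `R`. -/
abbrev SymMat (n : ℕ) (R : Type*) : Type _ := {M : Matrix (Fin n) (Fin n) R // M.IsSymm}

/-- The kernel of a square matrix. -/
def kerM {n : ℕ} {R : Type*} [CommRing R] (M : Matrix (Fin n) (Fin n) R) :
    AddSubgroup (Fin n → R) := (LinearMap.ker M.mulVecLin).toAddSubgroup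

/-- The dual of a group killed by `p ^ k`. -/
abbrev Dual (p k : ℕ) (G : Type*) [AddCommGroup G] : Type _ := G →+ ZMod (p ^ k)

/-- The injective homomorphisms. -/
abbrev Inj (G Y : Type*) [AddCommGroup G] [AddCommGroup Y] : Type _ :=
  {Φ : G →+ Y // Function.Injective Φ}

/-- The extension of `(ℤ / p) ^ i` by `N` with `p e_j = ν_j`. -/
abbrev Ext (p k i : ℕ) (N : Type*) [AddCommGroup N] (ν : Fin i → N) : Type _ :=
  (N × (Fin i → ZMod (p ^ k))) ⧸ AddSubgroup.closure
    (Set.range fun j : Fin i => ((-(ν j), Pi.single j (p : ZMod (p ^ k))) :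
      N × (Fin i → ZMod (p ^ k))))

/-- The number of ordered linearly independent `i`-tuples in `(ℤ / p) ^ d`. -/
def fall (p d i : ℕ) : ℝ := ∏ l ∈ Finset.range i, ((p : ℝ) ^ d - (p : ℝ) ^ l)

/-- Alternating forms on the dual of `G`. -/
abbrev AltDual (p k : ℕ) (G : Type*) [AddCommGroup G] : Type _ :=
  {h : Dual p k G →+ G // ∀ φ : Dual p k G, φ (h φ) = 0}

/-- Truncated inclusion exclusion sum. -/
noncomputable def bonf (p k m : ℕ) (N Y : Type*) [AddCommGroup N] [AddCommGroup Y] [Finite N] :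
    ℝ :=
  ∑ i ∈ Finset.range (m + 1), (-1 : ℝ) ^ i * (p : ℝ) ^ (i.choose 2) /
    (fall p i i * (Nat.card N : ℝ) ^ i) *
    ∑ᶠ ν : Fin i → N, (Nat.card (Inj (Ext p k i N ν) Y) : ℝ)

/-- The probability that a uniform symmetric `m × m` matrix over `ℤ / p` is invertible. -/
noncomputable def symInvProb (p m : ℕ) : ℝ :=
  (Nat.card {M : SymMat m (ZMod p) // IsUnit M.1.det} : ℝ) / Nat.card (SymMat m (ZMod p))

/-- The function bounding the probability that a random subset sum vanishes. -/
noncomputable def bfun (j : ℕ) (r : ℝ) : ℝ :=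
  if 2 * j * r < 1 then 1 - j * r * (1 - r) ^ (j - 1) else 7 / 8

end Pool.Agent.Lib.MP_49901c_pr
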