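import Mathlib
import Pool.Agent.Lib.MP_49901c_pr.Uniform

/-!
# From homomorphisms to injections
-/

namespace Pool.Agent.Lib.MP_49901c_pr

open Finset Filter Topology

/-- Homomorphisms are injections of quotients. -/
noncomputable def homSigmaEquiv (G Y : Type) [AddCommGroup G] [AddCommGroup Y] :
    (G →+ Y) ≃ Σ K : AddSubgroup G, Inj (G ⧸ K) Y where
  toFun f := ⟨f.ker, ⟨QuotientAddGroup.kerLift f, QuotientAddGroup.kerLift_injective f⟩⟩
  invFun x := x.2.1.comp (QuotientAddGroup.mk' x.1)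
  left_inv f := by
    ext g
    rfl
  right_inv x := by
    obtain ⟨K, φ, hφ⟩ := x
    have hK : (φ.comp (QuotientAddGroup.mk' K)).ker = K := by
      ext g
      rw [AddMonoidHom.mem_ker, AddMonoidHom.comp_apply, QuotientAddGroup.mk'_apply,
        ← QuotientAddGroup.eq_zero_iff]
      constructor
      · intro h
        exact hφ (h.trans (map_zero φ).symm)
      · intro h
        rw [h, map_zero]
    have key : ∀ (K' : AddSubgroup G) (hK' : K' = K) (ψ : (G ⧸ K') →+ Y)
        (hψ : Function.Injective ψ) (_ : ∀ g : G, ψ (g : G ⧸ K') = φ (g : G ⧸ K)),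
        (⟨K', ⟨ψ, hψ⟩⟩ : Σ K : AddSubgroup G, Inj (G ⧸ K) Y) = ⟨K, ⟨φ, hφ⟩⟩ := by
      intro K' hK' ψ hψ h
      subst hK'
      congr 1
      apply Subtype.ext
      ext g
      exact h g
    exact key _ hK _ _ fun g => rfl

theorem finite_addHom' (G Y : Type) [AddCommGroup G] [AddCommGroup Y] [Finite G] [Finite Y] :
    Finite (G →+ Y) := Finite.of_injective (fun f : G →+ Y => (f : G → Y)) DFunLike.coe_injective

open scoped Classical in
theorem card_hom_eq_sum (G Y : Type) [AddCommGroup G] [AddCommGroup Y] [Finite G] [Finite Y]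
    [Fintype (AddSubgroup G)] :
    (Nat.card (G →+ Y) : ℝ) = ∑ K : AddSubgroup G, (Nat.card (Inj (G ⧸ K) Y) : ℝ) := by
  have h1 : ∀ K : AddSubgroup G, Finite (Inj (G ⧸ K) Y) := by
    intro K
    have := finite_addHom' (G ⧸ K) Y
    infer_instance
  rw [Nat.card_congr (homSigmaEquiv G Y), Nat.card_sigma]
  push_cast
  rfl

theorem card_inj_congr {G G' Y : Type} [AddCommGroup G] [AddCommGroup G'] [AddCommGroup Y]
    (e : G ≃+ G') : Nat.card (Inj G Y) = Nat.card (Inj G' Y) := by
  apply Nat.card_congr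
  exact
    { toFun := fun f => ⟨f.1.comp e.symm.toAddMonoidHom, f.2.comp e.symm.injective⟩
      invFun := fun f => ⟨f.1.comp e.toAddMonoidHom, f.2.comp e.injective⟩
      left_inv := fun f => by
        apply Subtype.ext
        ext g
        simp
      right_inv := fun f => by
        apply Subtype.ext
        ext g
        simp }

open scoped Classical in
theorem card_inj_eq (G Y : Type) [AddCommGroup G] [AddCommGroup Y] [Finite G] [Finite Y]
    [Fintype (AddSubgroup G)] :
    (Nat.card (Inj G Y) : ℝ) = (Nat.card (G →+ Y) : ℝ) -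
      ∑ K ∈ (univ : Finset (AddSubgroup G)).erase ⊥, (Nat.card (Inj (G ⧸ K) Y) : ℝ) := by
  rw [card_hom_eq_sum, ← add_sum_erase _ _ (mem_univ (⊥ : AddSubgroup G)), add_sub_cancel_right]
  rw [card_inj_congr (QuotientAddGroup.quotientBot (G := G))]

/-- If the Hom moments of two families of random groups are asymptotically equal then so are the
moments counting injections. -/
theorem tendsto_inj_of_hom {p k : ℕ} {Ω Ω' : ℕ → Type} [∀ n, Fintype (Ω n)]
    [∀ n, Fintype (Ω' n)] (w : ∀ n, Ω n → ℝ) (w' : ∀ n, Ω' n → ℝ)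
    (Y : ∀ n, Ω n → AddSubgroup (Fin n → ZMod (p ^ k)))
    (Y' : ∀ n, Ω' n → AddSubgroup (Fin n → ZMod (p ^ k))) (hp : p.Prime)
    (hHom : ∀ (G : Type) [AddCommGroup G] [Finite G], (∀ g : G, p ^ k • g = 0) →
      Tendsto (fun n => ∑ ω, w n ω * (Nat.card (G →+ Y n ω) : ℝ) -
        ∑ ω, w' n ω * (Nat.card (G →+ Y' n ω) : ℝ)) atTop (𝓝 0)) :
    ∀ (G : Type) [AddCommGroup G] [Finite G], (∀ g : G, p ^ k • g = 0) →
      Tendsto (fun n => ∑ ω, w n ω * (Nat.card (Inj G (Y n ω)) : ℝ) -
        ∑ ω, w' n ω * (Nat.card (Inj G (Y' n ω)) : ℝ)) atTop (𝓝 0) := by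
  classical
  have : NeZero (p ^ k) := ⟨pow_ne_zero k hp.ne_zero⟩
  have main : ∀ m : ℕ, ∀ (G : Type) [AddCommGroup G] [Finite G], Nat.card G = m →
      (∀ g : G, p ^ k • g = 0) →
      Tendsto (fun n => ∑ ω, w n ω * (Nat.card (Inj G (Y n ω)) : ℝ) -
        ∑ ω, w' n ω * (Nat.card (Inj G (Y' n ω)) : ℝ)) atTop (𝓝 0) := by
    intro m
    induction m using Nat.strong_induction_on with
    | _ m ih =>
      intro G _ _ hm hG
      have : Fintype (AddSubgroup G) := Fintype.ofFinite _
      have h1 : ∀ n, ∑ ω, w n ω * (Nat.card (Inj G (Y n ω)) : ℝ) =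
          ∑ ω, w n ω * (Nat.card (G →+ Y n ω) : ℝ) -
          ∑ K ∈ (univ : Finset (AddSubgroup G)).erase ⊥,
            ∑ ω, w n ω * (Nat.card (Inj (G ⧸ K) (Y n ω)) : ℝ) := by
        intro n
        rw [sum_comm, ← sum_sub_distrib]
        apply sum_congr rfl
        intro ω _
        rw [card_inj_eq, mul_sub, mul_sum]
      have h1' : ∀ n, ∑ ω, w' n ω * (Nat.card (Inj G (Y' n ω)) : ℝ) =
          ∑ ω, w' n ω * (Nat.card (G →+ Y' n ω) : ℝ) -
          ∑ K ∈ (univ : Finset (AddSubgroup G)).erase ⊥,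
            ∑ ω, w' n ω * (Nat.card (Inj (G ⧸ K) (Y' n ω)) : ℝ) := by
        intro n
        rw [sum_comm, ← sum_sub_distrib]
        apply sum_congr rfl
        intro ω _
        rw [card_inj_eq, mul_sub, mul_sum]
      have h2 : Tendsto (fun n => ∑ K ∈ (univ : Finset (AddSubgroup G)).erase ⊥,
          (∑ ω, w n ω * (Nat.card (Inj (G ⧸ K) (Y n ω)) : ℝ) -
            ∑ ω, w' n ω * (Nat.card (Inj (G ⧸ K) (Y' n ω)) : ℝ))) atTop (𝓝 0) := by
        have : Tendsto (fun n => ∑ K ∈ (univ : Finset (AddSubgroup G)).erase ⊥,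
          (∑ ω, w n ω * (Nat.card (Inj (G ⧸ K) (Y n ω)) : ℝ) -
            ∑ ω, w' n ω * (Nat.card (Inj (G ⧸ K) (Y' n ω)) : ℝ))) atTop
            (𝓝 (∑ K ∈ (univ : Finset (AddSubgroup G)).erase ⊥, (0 : ℝ))) := by
          apply tendsto_finsetSum
          intro K hK
          rw [mem_erase] at hK
          refine ih (Nat.card (G ⧸ K)) ?_ (G ⧸ K) rfl ?_
          · rw [← hm, K.card_eq_card_quotient_mul_card_addSubgroup]
            have h3 : 1 < Nat.card K := by
              by_contra h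
              apply hK.1
              rw [← AddSubgroup.card_le_one_iff_eq_bot]
              omega
            have h4 : 0 < Nat.card (G ⧸ K) := Nat.card_pos
            nlinarith
          · intro x
            obtain ⟨g, rfl⟩ := QuotientAddGroup.mk_surjective x
            rw [← QuotientAddGroup.mk_nsmul, hG, QuotientAddGroup.mk_zero]
        rwa [sum_const_zero] at this
      have h3 := (hHom G hG).sub h2
      rw [sub_zero] at h3
      refine h3.congr fun n => ?_
      rw [h1 n, h1' n, sum_sub_distrib]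
      ring
  intro G _ _ hG
  exact main (Nat.card G) G rfl hG

end Pool.Agent.Lib.MP_49901c_pr
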