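import Mathlib
import Pool.Agent.Lib.MP_49901c_pr.Defs
import Pool.Agent.Lib.MP_49901c_pr.Uniform

/-!
# Job 1: Euler's q-series identity
-/

set_option autoImplicit false

namespace Pool.Agent.Lib.MP_49901c_pr

open Filter Topology

namespace Job1

/-- `1 / (x; x)_i` -/
noncomputable def c (x : ℝ) (i : ℕ) : ℝ := (∏ j ∈ Finset.range i, (1 - x ^ (j + 1)))⁻¹

/-- the q-exponential -/
noncomputable def F (x z : ℝ) : ℝ := ∑' i, c x i * z ^ i

variable {x : ℝ}

lemma fac_pos (hx0 : 0 < x) (hx1 : x < 1) (j : ℕ) : 0 < 1 - x ^ (j + 1) := by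
  have : x ^ (j + 1) < 1 := pow_lt_one₀ hx0.le hx1 (by omega)
  linarith

lemma c_pos (hx0 : 0 < x) (hx1 : x < 1) (i : ℕ) : 0 < c x i :=
  inv_pos.mpr (Finset.prod_pos fun j _ => fac_pos hx0 hx1 j)

lemma c_zero : c x 0 = 1 := by simp [c]

lemma c_succ (hx0 : 0 < x) (hx1 : x < 1) (i : ℕ) : c x (i + 1) * (1 - x ^ (i + 1)) = c x i := by
  unfold c
  rw [Finset.prod_range_succ, mul_inv, mul_assoc, inv_mul_cancel₀ (fac_pos hx0 hx1 i).ne', mul_one]

lemma summable_F (hx0 : 0 < x) (hx1 : x < 1) {z : ℝ} (hz : |z| < 1) :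
    Summable (fun i => c x i * z ^ i) := by
  by_cases h0 : z = 0
  · subst h0
    apply summable_of_ne_finset_zero (s := {0})
    intro i hi
    rw [Finset.mem_singleton] at hi
    rw [zero_pow hi, mul_zero]
  · apply summable_of_ratio_test_tendsto_lt_one hz
    · filter_upwards with i
      exact mul_ne_zero (c_pos hx0 hx1 i).ne' (pow_ne_zero i h0)
    · have h1 : ∀ n, ‖c x (n + 1) * z ^ (n + 1)‖ / ‖c x n * z ^ n‖ = |z| / (1 - x ^ (n + 1)) := by
        intro n
        have hc : c x (n + 1) = c x n / (1 - x ^ (n + 1)) := by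
          rw [eq_div_iff (fac_pos hx0 hx1 n).ne', c_succ hx0 hx1]
        rw [norm_mul, norm_mul, norm_pow, norm_pow, Real.norm_eq_abs, Real.norm_eq_abs,
          Real.norm_eq_abs, hc, abs_div, abs_of_pos (c_pos hx0 hx1 n),
          abs_of_pos (fac_pos hx0 hx1 n)]
        have h2 : |z| ≠ 0 := abs_ne_zero.mpr h0
        have h3 := (c_pos hx0 hx1 n).ne'
        have h4 := (fac_pos hx0 hx1 n).ne'
        field_simp
        rw [pow_succ]
      simp_rw [h1]
      have h5 : Tendsto (fun n : ℕ => 1 - x ^ (n + 1)) atTop (𝓝 (1 - 0)) :=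
        tendsto_const_nhds.sub
          ((tendsto_pow_atTop_nhds_zero_of_lt_one hx0.le hx1).comp (tendsto_add_atTop_nat 1))
      have h6 : Tendsto (fun n : ℕ => |z| / (1 - x ^ (n + 1))) atTop (𝓝 (|z| / (1 - 0))) :=
        tendsto_const_nhds.div h5 (by norm_num)
      simpa using h6

lemma F_func (hx0 : 0 < x) (hx1 : x < 1) {z : ℝ} (hz : |z| < 1) :
    F x (x * z) = (1 - z) * F x z := by
  have hxz : |x * z| < 1 := by
    rw [abs_mul, abs_of_pos hx0]
    calc x * |z| ≤ 1 * |z| := by gcongr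
      _ < 1 := by rwa [one_mul]
  have s1 := summable_F hx0 hx1 hz
  have s2 := summable_F hx0 hx1 hxz
  have h1 : F x z - F x (x * z) = z * F x z := by
    unfold F
    rw [← Summable.tsum_sub s1 s2, Summable.tsum_eq_zero_add (s1.sub s2), ← tsum_mul_left]
    simp only [pow_zero, sub_self, zero_add]
    apply tsum_congr
    intro i
    rw [mul_pow, ← c_succ hx0 hx1 i]
    ring
  linarith

lemma F_prod (hx0 : 0 < x) (hx1 : x < 1) {z : ℝ} (hz : |z| < 1) (L : ℕ) :
    F x (x ^ L * z) = (∏ l ∈ Finset.range L, (1 - x ^ l * z)) * F x z := by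
  induction L with
  | zero => simp
  | succ L ih =>
    have h1 : |x ^ L * z| < 1 := by
      rw [abs_mul, abs_pow, abs_of_pos hx0]
      calc x ^ L * |z| ≤ 1 * |z| := by
            apply mul_le_mul_of_nonneg_right (pow_le_one₀ hx0.le hx1.le) (abs_nonneg z)
        _ < 1 := by rwa [one_mul]
    rw [Finset.prod_range_succ, pow_succ', mul_assoc, F_func hx0 hx1 h1, ih]
    ring

lemma tendsto_F_one (hx0 : 0 < x) (hx1 : x < 1) (z : ℝ) :
    Tendsto (fun L : ℕ => F x (x ^ L * z)) atTop (𝓝 1) := by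
  -- |F(w) - 1| ≤ K |w| for |w| ≤ |z'|
  set r : ℝ := 1 / 2 with hr
  have hr1 : |r| < 1 := by rw [hr]; norm_num
  have sr := summable_F hx0 hx1 hr1
  have sr' : Summable (fun i => c x (i + 1) * r ^ i) := by
    have h1 := ((summable_nat_add_iff 1).mpr sr).mul_left 2
    refine h1.congr ?_
    intro i
    rw [hr, pow_succ]
    ring
  set K := ∑' i, c x (i + 1) * r ^ i with hK
  have hbound : ∀ w : ℝ, |w| ≤ r → |F x w - 1| ≤ K * |w| := by
    intro w hw
    have hw1 : |w| < 1 := by rw [hr] at hw; linarith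
    have sw := summable_F hx0 hx1 hw1
    have h1 : F x w - 1 = ∑' i, c x (i + 1) * w ^ (i + 1) := by
      unfold F
      rw [Summable.tsum_eq_zero_add sw, c_zero]
      simp
    rw [h1, hK, mul_comm, ← tsum_mul_left, ← Real.norm_eq_abs]
    have s3 : Summable (fun i => |w| * (c x (i + 1) * r ^ i)) := sr'.mul_left _
    apply tsum_of_norm_bounded s3.hasSum
    intro i
    rw [norm_mul, norm_pow, Real.norm_eq_abs, Real.norm_eq_abs, abs_of_pos (c_pos hx0 hx1 _),
      pow_succ]
    have h2 : |w| ^ i ≤ r ^ i := pow_le_pow_left₀ (abs_nonneg w) hw i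
    have h3 := (c_pos hx0 hx1 (i + 1)).le
    calc c x (i + 1) * (|w| ^ i * |w|) ≤ c x (i + 1) * (r ^ i * |w|) := by gcongr
      _ = |w| * (c x (i + 1) * r ^ i) := by ring
  have hw0 : Tendsto (fun L : ℕ => x ^ L * z) atTop (𝓝 0) := by
    have := (tendsto_pow_atTop_nhds_zero_of_lt_one hx0.le hx1).mul_const z
    rwa [zero_mul] at this
  have hw0' : Tendsto (fun L : ℕ => |x ^ L * z|) atTop (𝓝 0) := by
    have := hw0.abs
    rwa [abs_zero] at this
  rw [tendsto_iff_norm_sub_tendsto_zero]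
  apply squeeze_zero' (g := fun L : ℕ => K * |x ^ L * z|)
  · filter_upwards with L using norm_nonneg _
  · have h1 : ∀ᶠ L : ℕ in atTop, |x ^ L * z| ≤ r :=
      hw0'.eventually_le_const (by rw [hr]; norm_num)
    filter_upwards [h1] with L hL
    rw [Real.norm_eq_abs]
    exact hbound _ hL
  · have := hw0'.const_mul K
    rwa [mul_zero] at this

/-- `∏ (1 - x^(2j+1)) → F(-x)`. -/
lemma tendsto_odd (hx0 : 0 < x) (hx1 : x < 1) :
    Tendsto (fun L : ℕ => ∏ j ∈ Finset.range L, (1 - x ^ (2 * j + 1))) atTop (𝓝 (F x (-x))) := by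
  set a : ℕ → ℝ := fun L => ∏ l ∈ Finset.range L, (1 - x ^ (l + 1)) with ha
  set b : ℕ → ℝ := fun L => ∏ l ∈ Finset.range L, (1 - x ^ (2 * l + 2)) with hb
  set o : ℕ → ℝ := fun L => ∏ l ∈ Finset.range L, (1 - x ^ (2 * l + 1)) with ho
  set g : ℕ → ℝ := fun L => ∏ l ∈ Finset.range L, (1 + x ^ (l + 1)) with hg
  have hapos : ∀ L, 0 < a L := fun L => Finset.prod_pos fun j _ => fac_pos hx0 hx1 j
  have h1 : ∀ L, g L * a L = b L := by
    intro L
    simp only [hg, ha, hb]
    rw [← Finset.prod_mul_distrib]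
    apply Finset.prod_congr rfl
    intro l _
    ring
  have h2 : ∀ L, a (2 * L) = o L * b L := by
    intro L
    induction L with
    | zero => simp [ha, ho, hb]
    | succ L ih =>
      have e1 : a (2 * (L + 1)) = a (2 * L) * (1 - x ^ (2 * L + 1)) * (1 - x ^ (2 * L + 2)) := by
        simp only [ha]
        rw [show 2 * (L + 1) = 2 * L + 1 + 1 by ring, Finset.prod_range_succ,
          Finset.prod_range_succ]
      have e2 : o (L + 1) = o L * (1 - x ^ (2 * L + 1)) := by
        simp only [ho]; rw [Finset.prod_range_succ]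
      have e3 : b (L + 1) = b L * (1 - x ^ (2 * L + 2)) := by
        simp only [hb]; rw [Finset.prod_range_succ]
      rw [e1, e2, e3, ih]
      ring
  have h3 : ∀ L, o L * g L = ∏ l ∈ Finset.range L, (1 - x ^ (L + l + 1)) := by
    intro L
    have e1 : a (2 * L) = a L * ∏ l ∈ Finset.range L, (1 - x ^ (L + l + 1)) := by
      simp only [ha]
      rw [two_mul, Finset.prod_range_add]
    have e2 : a L * (o L * g L) = a L * ∏ l ∈ Finset.range L, (1 - x ^ (L + l + 1)) := by
      rw [← e1, h2, ← h1]; ring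
    exact mul_left_cancel₀ (hapos L).ne' e2
  -- the tail product tends to one
  have h4 : Tendsto (fun L => o L * g L) atTop (𝓝 1) := by
    have hlow : ∀ L, 1 - x ^ (L + 1) / (1 - x) ≤ o L * g L := by
      intro L
      rw [h3]
      have hgen : ∀ n, 1 - ∑ l ∈ Finset.range n, x ^ (L + l + 1) ≤
          ∏ l ∈ Finset.range n, (1 - x ^ (L + l + 1)) := by
        intro n
        induction n with
        | zero => simp
        | succ n ih =>
          rw [Finset.sum_range_succ, Finset.prod_range_succ]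
          have hp0 : 0 ≤ x ^ (L + n + 1) := by positivity
          have hp1 : x ^ (L + n + 1) ≤ 1 := pow_le_one₀ hx0.le hx1.le
          have hs0 : 0 ≤ ∑ l ∈ Finset.range n, x ^ (L + l + 1) :=
            Finset.sum_nonneg fun l _ => by positivity
          have h5 := mul_le_mul_of_nonneg_right ih (by linarith : 0 ≤ 1 - x ^ (L + n + 1))
          nlinarith [mul_nonneg hs0 hp0]
      refine le_trans ?_ (hgen L)
      have h6 : ∑ l ∈ Finset.range L, x ^ (L + l + 1) = x ^ (L + 1) * ∑ l ∈ Finset.range L, x ^ l := by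
        rw [Finset.mul_sum]
        apply Finset.sum_congr rfl
        intro l _
        rw [← pow_add]; congr 1; ring
      have h7 : ∑ l ∈ Finset.range L, x ^ l ≤ (1 - x)⁻¹ := by
        rw [← tsum_geometric_of_lt_one hx0.le hx1]
        exact (summable_geometric_of_lt_one hx0.le hx1).sum_le_tsum _ (fun i _ => by positivity)
      rw [h6, div_eq_mul_inv]
      have h8 : x ^ (L + 1) * ∑ l ∈ Finset.range L, x ^ l ≤ x ^ (L + 1) * (1 - x)⁻¹ := by
        gcongr
      linarith
    have hup : ∀ L, o L * g L ≤ 1 := by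
      intro L
      rw [h3]
      apply Finset.prod_le_one
      · intro l _
        exact (fac_pos hx0 hx1 _).le
      · intro l _
        have : 0 ≤ x ^ (L + l + 1) := by positivity
        linarith
    have hlim : Tendsto (fun L : ℕ => 1 - x ^ (L + 1) / (1 - x)) atTop (𝓝 1) := by
      have h9 := ((tendsto_pow_atTop_nhds_zero_of_lt_one hx0.le hx1).comp
        (tendsto_add_atTop_nat 1)).div_const (1 - x)
      have h10 := h9.const_sub 1
      rw [zero_div, sub_zero] at h10
      exact h10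
    exact tendsto_of_tendsto_of_tendsto_of_le_of_le hlim tendsto_const_nhds hlow hup
  have hx1' : |(-x)| < 1 := by rw [abs_neg, abs_of_pos hx0]; exact hx1
  have h5 : ∀ L, F x (x ^ L * (-x)) = g L * F x (-x) := by
    intro L
    rw [F_prod hx0 hx1 hx1' L]
    congr 1
    simp only [hg]
    apply Finset.prod_congr rfl
    intro l _
    rw [pow_succ]; ring
  have h6 := tendsto_F_one hx0 hx1 (-x)
  -- o L * F(x^L(-x)) = (o L g L) F(-x)
  have h7 : Tendsto (fun L => o L * F x (x ^ L * (-x))) atTop (𝓝 (F x (-x))) := by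
    have h8 : Tendsto (fun L => (o L * g L) * F x (-x)) atTop (𝓝 (1 * F x (-x))) :=
      h4.mul_const _
    rw [one_mul] at h8
    refine h8.congr ?_
    intro L
    rw [h5]; ring
  have h9 : Tendsto (fun L => (o L * F x (x ^ L * (-x))) / F x (x ^ L * (-x))) atTop
      (𝓝 (F x (-x) / 1)) := h7.div h6 (by norm_num)
  rw [div_one] at h9
  refine h9.congr' ?_
  have h10 : ∀ᶠ L in atTop, F x (x ^ L * (-x)) ≠ 0 := h6.eventually_ne (by norm_num)
  filter_upwards [h10] with L hL
  rw [mul_div_cancel_right₀ _ hL]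

lemma fall_eq (p : ℕ) (hp : 2 ≤ p) (i : ℕ) :
    fall p i i = (p : ℝ) ^ (i.choose 2) * (p : ℝ) ^ (i.choose 2) * (p : ℝ) ^ i *
      ∏ j ∈ Finset.range i, (1 - ((p : ℝ)⁻¹) ^ (j + 1)) := by
  have hp0 : (p : ℝ) ≠ 0 := by
    have : 0 < p := by omega
    positivity
  unfold fall
  -- reflect the product
  have h1 : ∏ l ∈ Finset.range i, ((p : ℝ) ^ i - (p : ℝ) ^ l) =
      ∏ l ∈ Finset.range i, ((p : ℝ) ^ i * (1 - ((p : ℝ)⁻¹) ^ (i - l))) := by
    apply Finset.prod_congr rfl
    intro l hl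
    rw [Finset.mem_range] at hl
    rw [mul_sub, mul_one, inv_pow]
    congr 1
    have : (p : ℝ) ^ i = (p : ℝ) ^ l * (p : ℝ) ^ (i - l) := by
      rw [← pow_add]; congr 1; omega
    rw [this, mul_assoc, mul_inv_cancel₀ (pow_ne_zero _ hp0), mul_one]
  rw [h1, Finset.prod_mul_distrib, Finset.prod_const, Finset.card_range]
  have h2 : ∏ l ∈ Finset.range i, (1 - ((p : ℝ)⁻¹) ^ (i - l)) =
      ∏ j ∈ Finset.range i, (1 - ((p : ℝ)⁻¹) ^ (j + 1)) := by
    rw [← Finset.prod_range_reflect (fun j => (1 - ((p : ℝ)⁻¹) ^ (j + 1))) i]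
    apply Finset.prod_congr rfl
    intro l hl
    rw [Finset.mem_range] at hl
    congr 2
    omega
  rw [h2]
  congr 1
  rw [← pow_mul, ← pow_add, ← pow_add]
  congr 1
  rw [Nat.choose_two_right]
  have h3 : 2 ∣ i * (i - 1) := by
    have := Nat.even_mul_pred_self i
    exact this.two_dvd
  have h4 : i * (i - 1) / 2 + i * (i - 1) / 2 = i * (i - 1) := by omega
  rw [h4]
  rcases Nat.eq_zero_or_pos i with h0 | h0
  · subst h0; rfl
  · obtain ⟨n, rfl⟩ := Nat.exists_eq_succ_of_ne_zero h0.ne'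
    simp only [Nat.succ_eq_add_one, Nat.add_sub_cancel]
    ring

end Job1

open Job1 in
theorem tendsto_euler (p : ℕ) (hp : 2 ≤ p) :
    Tendsto (fun m : ℕ => ∑ i ∈ Finset.range m,
      (-1 : ℝ) ^ i * (p : ℝ) ^ (i.choose 2) / fall p i i * (p : ℝ) ^ (i.choose 2)) atTop
      (𝓝 (∏' j : ℕ, (1 - ((p : ℝ) ^ (2 * j + 1))⁻¹))) := by
  set x : ℝ := (p : ℝ)⁻¹ with hx
  have hpR : (1 : ℝ) < p := by exact_mod_cast (by omega : 1 < p)
  have hx0 : 0 < x := by rw [hx]; positivity
  have hx1 : x < 1 := by rw [hx]; exact inv_lt_one_of_one_lt₀ hpR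
  have hx1' : |(-x)| < 1 := by rw [abs_neg, abs_of_pos hx0]; exact hx1
  -- the terms
  have hterm : ∀ i : ℕ, (-1 : ℝ) ^ i * (p : ℝ) ^ (i.choose 2) / fall p i i *
      (p : ℝ) ^ (i.choose 2) = c x i * (-x) ^ i := by
    intro i
    rw [fall_eq p hp i, c, ← hx]
    have hp0 : (p : ℝ) ≠ 0 := by positivity
    have h1 : (-x) ^ i = (-1) ^ i * ((p : ℝ) ^ i)⁻¹ := by
      rw [hx, neg_pow, inv_pow]
    have h2 : ∏ j ∈ Finset.range i, (1 - x ^ (j + 1)) ≠ 0 :=
      (Finset.prod_pos fun j _ => fac_pos hx0 hx1 j).ne'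
    rw [h1]
    field_simp
  have hlim : Tendsto (fun m : ℕ => ∑ i ∈ Finset.range m, c x i * (-x) ^ i) atTop
      (𝓝 (F x (-x))) := (summable_F hx0 hx1 hx1').hasSum.tendsto_sum_nat
  simp_rw [hterm]
  -- the product
  have hsumm : Summable (fun j : ℕ => x ^ (2 * j + 1)) := by
    have h1 : Summable (fun j : ℕ => (x ^ 2) ^ j * x) :=
      (summable_geometric_of_lt_one (by positivity) (by nlinarith)).mul_right x
    refine h1.congr ?_
    intro j
    rw [← pow_mul, ← pow_succ]
  have hmul : Multipliable (fun j : ℕ => (1 - ((p : ℝ) ^ (2 * j + 1))⁻¹)) := by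
    have h1 : Multipliable (fun j : ℕ => (1 + (-(x ^ (2 * j + 1))))) := by
      apply Real.multipliable_one_add_of_summable
      exact hsumm.neg
    refine h1.congr ?_
    intro j
    rw [hx, inv_pow]; ring
  have hprod := hmul.hasProd.tendsto_prod_nat
  have hodd := tendsto_odd hx0 hx1
  have heq : ∏' j : ℕ, (1 - ((p : ℝ) ^ (2 * j + 1))⁻¹) = F x (-x) := by
    apply tendsto_nhds_unique hprod
    refine hodd.congr ?_
    intro L
    apply Finset.prod_congr rfl
    intro j _
    rw [hx, inv_pow]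
  rw [heq]
  exact hlim

end Pool.Agent.Lib.MP_49901c_pr
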