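import Mathlib
import Pool.Agent.Lib.MP_49901c_pr.Defs
import Pool.Agent.Lib.MP_49901c_pr.Uniform

/-!
# Counting isomorphisms by inclusion-exclusion over injections of extensions
-/

namespace Pool.Agent.Lib.MP_49901c_pr

open Filter Topology

namespace Job4

lemma fall_zero (p d : ℕ) : fall p d 0 = 1 := by simp [fall]

lemma fall_succ (p d i : ℕ) : fall p d (i + 1) = fall p d i * ((p : ℝ) ^ d - (p : ℝ) ^ i) := by
  simp [fall, Finset.prod_range_succ]

lemma fall_succ_succ (p e m : ℕ) :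
    fall p (e + 1) (m + 1) = ((p : ℝ) ^ (e + 1) - 1) * (p : ℝ) ^ m * fall p e m := by
  have h : ∀ l ∈ Finset.range m, ((p : ℝ) ^ (e + 1) - (p : ℝ) ^ (l + 1)) =
      (p : ℝ) * ((p : ℝ) ^ e - (p : ℝ) ^ l) := fun l _ => by ring
  rw [fall, Finset.prod_range_succ', Finset.prod_congr rfl h, Finset.prod_mul_distrib]
  simp [fall]
  ring

lemma fall_pos {p : ℕ} (hp : 2 ≤ p) (i : ℕ) : 0 < fall p i i := by
  refine Finset.prod_pos fun l hl => ?_
  rw [Finset.mem_range] at hl
  have h2 : (1 : ℝ) < p := by exact_mod_cast hp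
  have := pow_lt_pow_right₀ h2 hl
  linarith

lemma fall_nonneg {p : ℕ} (hp : 1 ≤ p) (d i : ℕ) : 0 ≤ fall p d i := by
  rcases le_or_gt i d with h | h
  · refine Finset.prod_nonneg fun l hl => ?_
    rw [Finset.mem_range] at hl
    have h2 : (1 : ℝ) ≤ p := by exact_mod_cast hp
    have := pow_le_pow_right₀ h2 (hl.le.trans h)
    linarith
  · refine le_of_eq (Finset.prod_eq_zero (Finset.mem_range.2 h) ?_).symm
    simp

/-- The truncated sum for dimension `d`. -/
noncomputable def bsum (p m d : ℕ) : ℝ :=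
  ∑ i ∈ Finset.range (m + 1), (-1 : ℝ) ^ i * (p : ℝ) ^ (i.choose 2) / fall p i i * fall p d i

lemma bsum_zero {p : ℕ} (m : ℕ) : bsum p m 0 = 1 := by
  rw [bsum, Finset.sum_range_succ']
  have h : ∀ i ∈ Finset.range m, (-1 : ℝ) ^ (i + 1) * (p : ℝ) ^ ((i + 1).choose 2) /
      fall p (i + 1) (i + 1) * fall p 0 (i + 1) = 0 := by
    intro i _
    have : fall p 0 (i + 1) = 0 :=
      Finset.prod_eq_zero (Finset.mem_range.2 (Nat.succ_pos i)) (by simp)
    rw [this, mul_zero]
  rw [Finset.sum_eq_zero h]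
  simp [fall]

lemma bsum_succ {p : ℕ} (hp : 2 ≤ p) (m e : ℕ) :
    bsum p m (e + 1) = (-1 : ℝ) ^ m * (p : ℝ) ^ ((m + 1).choose 2) / fall p m m * fall p e m := by
  induction m with
  | zero => simp [bsum, fall]
  | succ m ih =>
    rw [bsum, Finset.sum_range_succ, ← bsum, ih, fall_succ_succ, fall_succ_succ, fall_succ]
    have h1 : (fall p m m) ≠ 0 := (fall_pos hp m).ne'
    have hp1 : (1 : ℝ) < p := by exact_mod_cast hp
    have h2 : ((p : ℝ) ^ (m + 1) - 1) ≠ 0 := by
      have := one_lt_pow₀ hp1 (Nat.succ_ne_zero m)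
      simp only [Nat.succ_eq_add_one] at this
      linarith
    have h3 : ((p : ℝ) ^ m) ≠ 0 := by positivity
    have h4 : (m + 1 + 1).choose 2 = (m + 1).choose 2 + (m + 1) := by
      rw [Nat.choose_succ_succ' (m + 1) 1]
      simp [add_comm]
    rw [h4, pow_add (p : ℝ) ((m + 1).choose 2) (m + 1)]
    field_simp
    ring

lemma ind_le_bsum {p : ℕ} (hp : 2 ≤ p) {m : ℕ} (hm : Even m) (d : ℕ) :
    (if d = 0 then (1 : ℝ) else 0) ≤ bsum p m d := by
  rcases d with _ | e
  · rw [bsum_zero]; simp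
  · rw [bsum_succ hp, hm.neg_one_pow]
    have := (fall_pos hp m).le
    have := fall_nonneg (le_trans (by norm_num) hp) e m
    simp only [Nat.succ_ne_zero, if_false, one_mul]
    positivity

lemma bsum_le_ind {p : ℕ} (hp : 2 ≤ p) {m : ℕ} (hm : Odd m) (d : ℕ) :
    bsum p m d ≤ (if d = 0 then (1 : ℝ) else 0) := by
  rcases d with _ | e
  · rw [bsum_zero]; simp
  · rw [bsum_succ hp, hm.neg_one_pow]
    have := (fall_pos hp m).le
    have := fall_nonneg (le_trans (by norm_num) hp) e m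
    simp only [Nat.succ_ne_zero, if_false]
    have : 0 ≤ (p : ℝ) ^ ((m + 1).choose 2) / fall p m m * fall p e m := by positivity
    have h : -1 * (p : ℝ) ^ ((m + 1).choose 2) / fall p m m * fall p e m =
      - ((p : ℝ) ^ ((m + 1).choose 2) / fall p m m * fall p e m) := by ring
    rw [h]
    linarith


/-- The tuple `y` consists of elements that are `p`-torsion and independent modulo the image of
`f`. -/
def LIC (p : ℕ) {N Y : Type*} [AddCommGroup N] [AddCommGroup Y] {i : ℕ} (f : N →+ Y)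
    (y : Fin i → Y) : Prop :=
  (∀ j, ∃ n, p • y j = f n) ∧
    ∀ z : Fin i → ℤ, (∃ n, ∑ j, z j • y j = f n) → ∀ j, (p : ℤ) ∣ z j

lemma mem_rel_iff {p k i : ℕ} {N : Type*} [AddCommGroup N] (ν : Fin i → N)
    (x : N × (Fin i → ZMod (p ^ k))) :
    x ∈ AddSubgroup.closure (Set.range fun j : Fin i => ((-(ν j), Pi.single j
      (p : ZMod (p ^ k))) : N × (Fin i → ZMod (p ^ k)))) ↔
      ∃ z : Fin i → ℤ, x.1 = -∑ j, z j • ν j ∧ ∀ j, x.2 j = z j * p := by
  rw [AddSubgroup.mem_closure_range_iff_of_fintype]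
  refine exists_congr fun z => ?_
  have h1 : (∑ j, z j • ((-(ν j), Pi.single j (p : ZMod (p ^ k))) :
      N × (Fin i → ZMod (p ^ k)))).1 = -∑ j, z j • ν j := by
    rw [Prod.fst_sum]
    simp
  have h2 : ∀ l, (∑ j, z j • ((-(ν j), Pi.single j (p : ZMod (p ^ k))) :
      N × (Fin i → ZMod (p ^ k)))).2 l = z l * p := by
    intro l
    rw [Prod.snd_sum, Finset.sum_apply, Finset.sum_eq_single l]
    · simp
    · intro b _ hb
      simp [hb.symm]
    · simp
  constructor
  · rintro rfl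
    exact ⟨h1, h2⟩
  · rintro ⟨h3, h4⟩
    ext l
    · rw [h3, h1]
    · rw [h4, h2]

section

variable {p k i : ℕ} {N Y : Type*} [AddCommGroup N] [AddCommGroup Y]

/-- The class of `x` in the extension. -/
abbrev cl (p k i : ℕ) {N : Type*} [AddCommGroup N] (ν : Fin i → N) :
    N × (Fin i → ZMod (p ^ k)) →+ Ext p k i N ν := QuotientAddGroup.mk' _

/-- The data of a homomorphism from an extension. -/
noncomputable def data (x : Σ ν : Fin i → N, Inj (Ext p k i N ν) Y) :
    (N →+ Y) × (Fin i → Y) :=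
  (x.2.1.comp ((cl p k i x.1).comp (AddMonoidHom.inl N _)), fun j =>
    x.2.1 (cl p k i x.1 (0, Pi.single j 1)))

lemma cl_eq_zero {ν : Fin i → N} {x : N × (Fin i → ZMod (p ^ k))} :
    cl p k i ν x = 0 ↔ ∃ z : Fin i → ℤ, x.1 = -∑ j, z j • ν j ∧ ∀ j, x.2 j = z j * p := by
  rw [← mem_rel_iff]
  exact QuotientAddGroup.eq_zero_iff _

lemma cl_single {ν : Fin i → N} (j : Fin i) :
    p • cl p k i ν (0, Pi.single j 1) = cl p k i ν (ν j, 0) := by
  rw [← map_nsmul, ← sub_eq_zero, ← map_sub, cl_eq_zero]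
  refine ⟨Pi.single j 1, ?_, ?_⟩
  · simp only [Prod.fst_sub, Prod.smul_fst, smul_zero, zero_sub]
    rw [Finset.sum_eq_single j]
    · simp
    · intro b _ hb
      simp [hb]
    · simp
  · intro l
    by_cases h : l = j
    · subst h
      simp
    · simp [h]

lemma hom_apply {ν : Fin i → N} (Φ : Ext p k i N ν →+ Y)
    (n : N) (z : Fin i → ℤ) :
    Φ (cl p k i ν (n, fun j => (z j : ZMod (p ^ k)))) =
      Φ (cl p k i ν (n, 0)) + ∑ j, z j • Φ (cl p k i ν (0, Pi.single j 1)) := by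
  have h : ((n, fun j => (z j : ZMod (p ^ k))) : N × (Fin i → ZMod (p ^ k))) =
      (n, 0) + ∑ j, z j • ((0, Pi.single j 1) : N × (Fin i → ZMod (p ^ k))) := by
    ext l
    · simp [Prod.fst_sum]
    · rw [Prod.snd_add, Prod.snd_sum]
      simp only [Pi.add_apply, Finset.sum_apply, Pi.zero_apply, zero_add]
      rw [Finset.sum_eq_single l]
      · simp
      · intro b _ hb
        simp [hb.symm]
      · simp
  rw [h, map_add, map_add, map_sum, map_sum]
  simp only [map_zsmul]

lemma injective_cl_inl (hp : p.Prime) (hk : 1 ≤ k) (hN : ∀ x : N, p ^ (k - 1) • x = 0)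
    {ν : Fin i → N} : Function.Injective ((cl p k i ν).comp (AddMonoidHom.inl N _)) := by
  rw [injective_iff_map_eq_zero]
  intro n hn
  rw [AddMonoidHom.comp_apply, cl_eq_zero] at hn
  obtain ⟨z, h1, h2⟩ := hn
  simp only [AddMonoidHom.inl_apply] at h1 h2
  rw [h1, neg_eq_zero]
  refine Finset.sum_eq_zero fun j _ => ?_
  have h3 := h2 j
  simp only [Pi.zero_apply] at h3
  have h4 : (((z j * p : ℤ)) : ZMod (p ^ k)) = 0 := by
    push_cast
    exact h3.symm
  rw [ZMod.intCast_zmod_eq_zero_iff_dvd] at h4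
  have h5 : ((p ^ (k - 1) : ℕ) : ℤ) ∣ z j := by
    have h6 : ((p ^ k : ℕ) : ℤ) = ((p ^ (k - 1) : ℕ) : ℤ) * p := by
      push_cast
      rw [← pow_succ, Nat.sub_add_cancel hk]
    rw [h6] at h4
    exact Int.dvd_of_mul_dvd_mul_right (by exact_mod_cast hp.ne_zero) h4
  obtain ⟨w, hw⟩ := h5
  rw [hw, mul_comm, mul_smul, natCast_zsmul, hN, smul_zero]

lemma exists_lift (c : Fin i → ZMod (p ^ k)) :
    ∃ z : Fin i → ℤ, c = fun j => (z j : ZMod (p ^ k)) := by
  choose z hz using fun j => ZMod.intCast_surjective (c j)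
  exact ⟨z, funext fun j => (hz j).symm⟩

lemma data_injective (hp : p.Prime) (hk : 1 ≤ k) (hN : ∀ x : N, p ^ (k - 1) • x = 0) :
    Function.Injective (data : (Σ ν : Fin i → N, Inj (Ext p k i N ν) Y) → _) := by
  rintro ⟨ν, Φ, hΦ⟩ ⟨ν', Φ', hΦ'⟩ h
  simp only [data, Prod.mk.injEq] at h
  obtain ⟨h1, h2⟩ := h
  have h3 : ∀ n, Φ (cl p k i ν (n, 0)) = Φ' (cl p k i ν' (n, 0)) := fun n =>
    DFunLike.congr_fun h1 n
  have h4 : ∀ j, Φ (cl p k i ν (0, Pi.single j 1)) = Φ' (cl p k i ν' (0, Pi.single j 1)) :=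
    fun j => congr_fun h2 j
  have hν : ν = ν' := by
    funext j
    have h5 : Φ (p • cl p k i ν (0, Pi.single j 1)) = Φ' (p • cl p k i ν' (0, Pi.single j 1)) := by
      rw [map_nsmul, map_nsmul, h4 j]
    rw [cl_single, cl_single, h3] at h5
    exact injective_cl_inl hp hk hN (hΦ' h5)
  subst hν
  have : Φ = Φ' := by
    refine AddMonoidHom.ext fun x => ?_
    obtain ⟨⟨n, c⟩, rfl⟩ := QuotientAddGroup.mk'_surjective _ x
    obtain ⟨z, rfl⟩ := exists_lift c
    have e1 := hom_apply Φ n z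
    have e2 := hom_apply Φ' n z
    rw [h3] at e1
    simp only [h4] at e1
    exact e1.trans e2.symm
  subst this
  rfl

lemma data_mem (hp : p.Prime) (hk : 1 ≤ k) (hN : ∀ x : N, p ^ (k - 1) • x = 0)
    (x : Σ ν : Fin i → N, Inj (Ext p k i N ν) Y) :
    Function.Injective (data x).1 ∧ LIC p (data x).1 (data x).2 := by
  obtain ⟨ν, Φ, hΦ⟩ := x
  refine ⟨hΦ.comp (injective_cl_inl hp hk hN), ?_, ?_⟩
  · intro j
    refine ⟨ν j, ?_⟩
    simp only [data, AddMonoidHom.comp_apply, AddMonoidHom.inl_apply]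
    rw [← map_nsmul, cl_single]
  · rintro z ⟨n, hn⟩ j
    simp only [data, AddMonoidHom.comp_apply, AddMonoidHom.inl_apply] at hn
    have h1 := hom_apply Φ (-n) z
    rw [hn, ← map_add, ← map_add] at h1
    have h2 : ((-n, 0) + (n, 0) : N × (Fin i → ZMod (p ^ k))) = 0 := by
      ext <;> simp
    rw [h2, map_zero, map_zero] at h1
    have h3 := (injective_iff_map_eq_zero Φ).1 hΦ _ h1
    rw [cl_eq_zero] at h3
    obtain ⟨w, _, hw⟩ := h3
    have h4 := hw j
    simp only at h4
    have h5 : ((z j - w j * p : ℤ) : ZMod (p ^ k)) = 0 := by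
      push_cast
      rw [h4, sub_self]
    rw [ZMod.intCast_zmod_eq_zero_iff_dvd] at h5
    have h6 : (p : ℤ) ∣ z j - w j * p := by
      refine dvd_trans ?_ h5
      push_cast
      exact dvd_pow_self _ (by omega)
    have h7 := dvd_add h6 (dvd_mul_left (p : ℤ) (w j))
    simpa using h7

lemma exists_data (hp : p.Prime)
    (hY : ∀ y : Y, p ^ k • y = 0) (f : N →+ Y) (y : Fin i → Y) (hf : Function.Injective f)
    (hy : LIC p f y) : ∃ x : Σ ν : Fin i → N, Inj (Ext p k i N ν) Y, data x = (f, y) := by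
  have : NeZero (p ^ k) := ⟨pow_ne_zero _ hp.ne_zero⟩
  let _ : Module (ZMod (p ^ k)) Y := AddCommGroup.zmodModule hY
  choose ν hν using hy.1
  let Ψ : N × (Fin i → ZMod (p ^ k)) →+ Y :=
    { toFun := fun x => f x.1 + ∑ j, x.2 j • y j
      map_zero' := by simp
      map_add' := by
        intro a b
        simp only [Prod.fst_add, Prod.snd_add, map_add, Pi.add_apply, add_smul,
          Finset.sum_add_distrib]
        abel }
  have hΨ : ∀ x, Ψ x = f x.1 + ∑ j, x.2 j • y j := fun x => rfl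
  have hle : AddSubgroup.closure (Set.range fun j : Fin i => ((-(ν j), Pi.single j
      (p : ZMod (p ^ k))) : N × (Fin i → ZMod (p ^ k)))) ≤ Ψ.ker := by
    rw [AddSubgroup.closure_le]
    rintro _ ⟨j, rfl⟩
    simp only [SetLike.mem_coe, AddMonoidHom.mem_ker, hΨ]
    rw [Finset.sum_eq_single j]
    · simp only [Pi.single_eq_same, map_neg]
      rw [Nat.cast_smul_eq_nsmul, hν j]
      simp
    · intro b _ hb
      simp [hb]
    · simp
  let Φ : Ext p k i N ν →+ Y := QuotientAddGroup.lift _ Ψ hle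
  have hΦ : ∀ x, Φ (cl p k i ν x) = f x.1 + ∑ j, x.2 j • y j := fun x => rfl
  have hinj : Function.Injective Φ := by
    rw [injective_iff_map_eq_zero]
    intro x hx
    obtain ⟨⟨n, c⟩, rfl⟩ := QuotientAddGroup.mk'_surjective _ x
    obtain ⟨z, rfl⟩ := exists_lift c
    have h1 : f n + ∑ j, z j • y j = 0 := by
      have := (hΦ (n, fun j => (z j : ZMod (p ^ k)))).symm.trans hx
      simp only [Int.cast_smul_eq_zsmul] at this
      exact this
    have h2 := hy.2 z ⟨-n, by rw [map_neg]; exact eq_neg_of_add_eq_zero_right h1⟩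
    choose w hw using h2
    refine cl_eq_zero.2 ⟨w, ?_, ?_⟩
    · apply hf
      rw [eq_neg_of_add_eq_zero_left h1, map_neg, map_sum]
      congr 1
      refine Finset.sum_congr rfl fun j _ => ?_
      rw [hw j, map_zsmul, ← hν j, mul_comm, mul_smul, natCast_zsmul]
    · intro j
      simp only [hw j]
      push_cast
      ring
  refine ⟨⟨ν, Φ, hinj⟩, ?_⟩
  simp only [data, Prod.mk.injEq]
  constructor
  · ext n
    simp only [AddMonoidHom.comp_apply, AddMonoidHom.inl_apply]
    rw [hΦ]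
    simp
  · funext j
    rw [hΦ, Finset.sum_eq_single j]
    · simp
    · intro b _ hb
      simp [hb]
    · simp

end


lemma linearIndependent_iff_int {p : ℕ} [Fact p.Prime] {V : Type*} [AddCommGroup V]
    [Module (ZMod p) V] {i : ℕ} (s : Fin i → V) :
    LinearIndependent (ZMod p) s ↔
      ∀ z : Fin i → ℤ, ∑ j, z j • s j = 0 → ∀ j, (p : ℤ) ∣ z j := by
  rw [Fintype.linearIndependent_iff]
  constructor
  · intro h z hz j
    have := h (fun j => (z j : ZMod p)) (by simpa only [Int.cast_smul_eq_zsmul] using hz) j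
    exact (ZMod.intCast_zmod_eq_zero_iff_dvd _ _).1 this
  · intro h g hg j
    choose z hz using fun j => ZMod.intCast_surjective (g j)
    have h1 : ∑ j, z j • s j = 0 := by
      rw [← hg]
      refine Finset.sum_congr rfl fun j _ => ?_
      rw [← hz j, Int.cast_smul_eq_zsmul]
    have := h z h1 j
    rw [← hz j]
    exact (ZMod.intCast_zmod_eq_zero_iff_dvd _ _).2 this

lemma card_li {p : ℕ} [Fact p.Prime] {V : Type*} [AddCommGroup V]
    [Module (ZMod p) V] [Finite V] (i : ℕ) :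
    (Nat.card {s : Fin i → V // LinearIndependent (ZMod p) s} : ℝ) =
      fall p (Module.finrank (ZMod p) V) i := by
  have hp := (Fact.out : p.Prime)
  rcases le_or_gt i (Module.finrank (ZMod p) V) with h | h
  · rw [card_linearIndependent h, ZMod.card, fall, Finset.prod_range, Nat.cast_prod]
    refine Finset.prod_congr rfl fun l _ => ?_
    rw [Nat.cast_sub (Nat.pow_le_pow_right hp.pos (l.2.le.trans h))]
    push_cast
    rfl
  · have : IsEmpty {s : Fin i → V // LinearIndependent (ZMod p) s} := by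
      refine ⟨fun s => ?_⟩
      have := s.2.fintype_card_le_finrank
      rw [Fintype.card_fin] at this
      omega
    rw [Nat.card_of_isEmpty, fall, Finset.prod_eq_zero (Finset.mem_range.2 h) (by simp)]
    simp

lemma exists_dim {p k : ℕ} (hp : p.Prime) {N Y : Type*} [AddCommGroup N] [Finite N]
    [AddCommGroup Y] [Finite Y] (hY : ∀ y : Y, p ^ k • y = 0) (f : N →+ Y)
    (hf : Function.Injective f) :
    ∃ d : ℕ, (d = 0 ↔ Function.Surjective f) ∧
      ∀ i, (Nat.card {y : Fin i → Y // LIC p f y} : ℝ) = (Nat.card N : ℝ) ^ i * fall p d i := by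
  have : Fact p.Prime := ⟨hp⟩
  let Q := Y ⧸ f.range
  let π : Y →+ Q := QuotientAddGroup.mk' f.range
  have hπ : Function.Surjective π := QuotientAddGroup.mk'_surjective _
  have hπ0 : ∀ y, π y = 0 ↔ ∃ n, y = f n := by
    intro y
    rw [QuotientAddGroup.mk'_apply, QuotientAddGroup.eq_zero_iff]
    exact ⟨fun ⟨n, hn⟩ => ⟨n, hn.symm⟩, fun ⟨n, hn⟩ => ⟨n, hn.symm⟩⟩
  let V := AddSubgroup.torsionBy Q (p : ℤ)
  have hV : ∀ q : Q, q ∈ V ↔ p • q = 0 := fun q => AddSubgroup.torsionBy.nsmul_iff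
  let _ : Module (ZMod p) V := AddSubgroup.torsionBy.zmodModule
  have : Finite Q := Quotient.finite _
  refine ⟨Module.finrank (ZMod p) V, ?_, fun i => ?_⟩
  · rw [Module.finrank_zero_iff]
    constructor
    · intro h y
      have h1 : ∀ q : Q, p • q = 0 → q = 0 := fun q hq => by
        have := Subsingleton.elim (⟨q, (hV q).2 hq⟩ : V) 0
        exact congr_arg Subtype.val this
      have h2 : ∀ (m : ℕ) (q : Q), p ^ m • q = 0 → q = 0 := by
        intro m
        induction m with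
        | zero => intro q hq; simpa using hq
        | succ m ih =>
          intro q hq
          rw [pow_succ', mul_smul] at hq
          exact ih q (h1 _ hq)
      have h3 : π y = 0 := h2 k _ (by rw [← map_nsmul, hY, map_zero])
      obtain ⟨n, hn⟩ := (hπ0 y).1 h3
      exact ⟨n, hn.symm⟩
    · intro h
      refine ⟨fun a b => ?_⟩
      have h1 : ∀ q : Q, q = 0 := by
        intro q
        obtain ⟨y, rfl⟩ := hπ q
        obtain ⟨n, rfl⟩ := h y
        exact (hπ0 _).2 ⟨n, rfl⟩
      exact Subtype.ext ((h1 _).trans (h1 _).symm)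
  · choose σ hσ using hπ
    have hval : ∀ (s : Fin i → V) (z : Fin i → ℤ),
        ((∑ j, z j • s j : V) : Q) = ∑ j, z j • (s j : Q) := by
      intro s z
      rw [AddSubgroup.val_finsetSum]
      rfl
    have hLIC : ∀ (s : Fin i → V) (y : Fin i → Y), (∀ j, π (y j) = s j) →
        (LIC p f y ↔ LinearIndependent (ZMod p) s) := by
      intro s y hsy
      rw [linearIndependent_iff_int]
      have h1 : ∀ z : Fin i → ℤ, (∃ n, ∑ j, z j • y j = f n) ↔ ∑ j, z j • s j = 0 := by
        intro z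
        rw [← hπ0, map_sum, ← Subtype.coe_inj, hval]
        simp only [map_zsmul, hsy]
        rfl
      constructor
      · intro h z hz
        exact h.2 z ((h1 z).2 hz)
      · intro h
        refine ⟨fun j => ?_, fun z hz => h z ((h1 z).1 hz)⟩
        rw [← hπ0, map_nsmul, hsy]
        exact (hV _).1 (s j).2
    let G : {s : Fin i → V // LinearIndependent (ZMod p) s} × (Fin i → N) →
        {y : Fin i → Y // LIC p f y} := fun x =>
      ⟨fun j => σ (x.1.1 j) + f (x.2 j), (hLIC x.1.1 _ fun j => by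
        rw [map_add, hσ, (hπ0 (f (x.2 j))).2 ⟨_, rfl⟩, add_zero]).2 x.1.2⟩
    have hG : Function.Bijective G := by
      constructor
      · rintro ⟨⟨s, hs⟩, n⟩ ⟨⟨s', hs'⟩, n'⟩ h
        have h1 : ∀ j, σ (s j) + f (n j) = σ (s' j) + f (n' j) := fun j =>
          congr_fun (congr_arg Subtype.val h) j
        have h2 : s = s' := by
          funext j
          have := congr_arg π (h1 j)
          rw [map_add, map_add, hσ, hσ, (hπ0 (f (n j))).2 ⟨_, rfl⟩,
            (hπ0 (f (n' j))).2 ⟨_, rfl⟩, add_zero, add_zero] at this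
          exact Subtype.ext this
        subst h2
        have h3 : n = n' := by
          funext j
          exact hf (add_left_cancel (h1 j))
        subst h3
        rfl
      · rintro ⟨y, hy⟩
        have h1 : ∀ j, π (y j) ∈ V := fun j => by
          rw [hV, ← map_nsmul, hπ0]
          exact hy.1 j
        have h2 : ∀ j, ∃ n, y j - σ (π (y j)) = f n := fun j => by
          rw [← hπ0, map_sub, hσ, sub_self]
        choose n hn using h2
        refine ⟨⟨⟨fun j => ⟨π (y j), h1 j⟩, (hLIC _ y fun j => rfl).1 hy⟩, n⟩, ?_⟩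
        apply Subtype.ext
        funext j
        change σ (π (y j)) + f (n j) = y j
        rw [← hn j]
        abel
    rw [← Nat.card_congr (Equiv.ofBijective G hG), Nat.card_prod, Nat.cast_mul, card_li,
      mul_comm]
    simp [Nat.card_fun]

lemma sum_card_inj {p k : ℕ} (hp : p.Prime) (hk : 1 ≤ k) {N Y : Type*} [AddCommGroup N]
    [Finite N] [AddCommGroup Y] [Finite Y] (hN : ∀ x : N, p ^ (k - 1) • x = 0)
    (hY : ∀ y : Y, p ^ k • y = 0) (i : ℕ) [Fintype (Inj N Y)] :
    ∑ᶠ ν : Fin i → N, (Nat.card (Inj (Ext p k i N ν) Y) : ℝ) =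
      ∑ f : Inj N Y, (Nat.card {y : Fin i → Y // LIC p f.1 y} : ℝ) := by
  classical
  have : NeZero (p ^ k) := ⟨pow_ne_zero _ hp.ne_zero⟩
  have : Fintype N := Fintype.ofFinite N
  have hfin : ∀ ν : Fin i → N, Finite (Ext p k i N ν) := fun ν => Quotient.finite _
  have hfin2 : ∀ ν : Fin i → N, Finite (Ext p k i N ν →+ Y) := fun ν =>
    Finite.of_injective (fun f => (f : Ext p k i N ν → Y)) DFunLike.coe_injective
  rw [finsum_eq_sum_of_fintype, ← Nat.cast_sum, ← Nat.cast_sum, ← Nat.card_sigma,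
    ← Nat.card_sigma]
  congr 1
  let F : (Σ ν : Fin i → N, Inj (Ext p k i N ν) Y) →
      Σ f : Inj N Y, {y : Fin i → Y // LIC p f.1 y} := fun x =>
    ⟨⟨(data x).1, (data_mem hp hk hN x).1⟩, ⟨(data x).2, (data_mem hp hk hN x).2⟩⟩
  refine Nat.card_congr (Equiv.ofBijective F ⟨?_, ?_⟩)
  · intro x x' h
    apply data_injective hp hk hN
    have h1 := congr_arg (fun w : Σ f : Inj N Y, {y : Fin i → Y // LIC p f.1 y} =>
      (w.1.1, w.2.1)) h
    exact h1
  · rintro ⟨⟨f, hf⟩, ⟨y, hy⟩⟩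
    obtain ⟨x, hx⟩ := exists_data hp hY f y hf hy
    refine ⟨x, ?_⟩
    have h1 : (data x).1 = f := congr_arg Prod.fst hx
    have h2 : (data x).2 = y := congr_arg Prod.snd hx
    subst h1
    subst h2
    rfl

lemma exists_main {p k : ℕ} (hp : p.Prime) (hk : 1 ≤ k) {N Y : Type*} [AddCommGroup N]
    [Finite N] [AddCommGroup Y] [Finite Y] (hN : ∀ x : N, p ^ (k - 1) • x = 0)
    (hY : ∀ y : Y, p ^ k • y = 0) [Fintype (Inj N Y)] :
    ∃ d : Inj N Y → ℕ, (Nat.card (N ≃+ Y) : ℝ) = ∑ f, (if d f = 0 then (1 : ℝ) else 0) ∧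
      ∀ m, bonf p k m N Y = ∑ f, bsum p m (d f) := by
  classical
  choose d hd0 hd using fun f : Inj N Y => exists_dim hp hY f.1 f.2
  refine ⟨d, ?_, fun m => ?_⟩
  · rw [Finset.sum_boole]
    congr 1
    rw [← Fintype.card_subtype, ← Nat.card_eq_fintype_card]
    refine Nat.card_congr
      { toFun := fun e => ⟨⟨e.toAddMonoidHom, e.injective⟩, (hd0 _).2 e.surjective⟩
        invFun := fun f => AddEquiv.ofBijective f.1.1 ⟨f.1.2, (hd0 _).1 f.2⟩
        left_inv := fun e => by ext; rfl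
        right_inv := fun f => by
          apply Subtype.ext
          apply Subtype.ext
          ext
          rfl }
  · rw [bonf]
    simp only [bsum]
    rw [Finset.sum_comm]
    refine Finset.sum_congr rfl fun i _ => ?_
    rw [sum_card_inj hp hk hN hY, Finset.mul_sum]
    refine Finset.sum_congr rfl fun f _ => ?_
    rw [hd]
    have h1 : (Nat.card N : ℝ) ^ i ≠ 0 := by
      have : (Nat.card N : ℝ) ≠ 0 := by exact_mod_cast Nat.card_pos.ne'
      positivity
    have h2 := (fall_pos hp.two_le i).ne'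
    field_simp

end Job4

theorem card_equiv_le_bonf {p k : ℕ} (hp : p.Prime) (hk : 1 ≤ k) (N Y : Type) [AddCommGroup N]
    [Finite N] [AddCommGroup Y] [Finite Y] (hN : ∀ x : N, p ^ (k - 1) • x = 0)
    (hY : ∀ y : Y, p ^ k • y = 0) (m : ℕ) (hm : Even m) :
    (Nat.card (N ≃+ Y) : ℝ) ≤ bonf p k m N Y := by
  have : Finite (N →+ Y) :=
    Finite.of_injective (fun f => (f : N → Y)) DFunLike.coe_injective
  have : Fintype (Inj N Y) := Fintype.ofFinite _
  obtain ⟨d, h1, h2⟩ := Job4.exists_main hp hk hN hY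
  rw [h1, h2]
  exact Finset.sum_le_sum fun f _ => Job4.ind_le_bsum hp.two_le hm _

theorem bonf_le_card_equiv {p k : ℕ} (hp : p.Prime) (hk : 1 ≤ k) (N Y : Type) [AddCommGroup N]
    [Finite N] [AddCommGroup Y] [Finite Y] (hN : ∀ x : N, p ^ (k - 1) • x = 0)
    (hY : ∀ y : Y, p ^ k • y = 0) (m : ℕ) (hm : Odd m) :
    bonf p k m N Y ≤ (Nat.card (N ≃+ Y) : ℝ) := by
  have : Finite (N →+ Y) :=
    Finite.of_injective (fun f => (f : N → Y)) DFunLike.coe_injective
  have : Fintype (Inj N Y) := Fintype.ofFinite _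
  obtain ⟨d, h1, h2⟩ := Job4.exists_main hp hk hN hY
  rw [h1, h2]
  exact Finset.sum_le_sum fun f _ => Job4.bsum_le_ind hp.two_le hm _

end Pool.Agent.Lib.MP_49901c_pr
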