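import Mathlib
import Pool.Agent.Lib.MP_49901c_pr.Uniform

set_option autoImplicit false

/-!
# Duality for finite abelian groups killed by `p ^ k`
-/

namespace Pool.Agent.Lib.MP_49901c_pr

theorem hasEnough_zmod (N : ℕ) [NeZero N] :
    HasEnoughRootsOfUnity (Multiplicative (ZMod N)) N where
  prim := by
    refine ⟨Multiplicative.ofAdd 1, ?_, ?_⟩
    · rw [← ofAdd_nsmul]
      simp
    · intro l hl
      rw [← ofAdd_nsmul] at hl
      have : (l : ZMod N) = 0 := by
        have h2 : Multiplicative.toAdd (Multiplicative.ofAdd (l • (1 : ZMod N))) = 0 := by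
          rw [hl]; rfl
        simpa using h2
      exact (ZMod.natCast_eq_zero_iff l N).1 this
  cyc := by
    have : IsCyclic (Multiplicative (ZMod N))ˣ :=
      isCyclic_of_surjective (toUnits (G := Multiplicative (ZMod N))).toMonoidHom
        (toUnits (G := Multiplicative (ZMod N))).surjective
    infer_instance

theorem exponent_dvd_of_forall {G : Type*} [AddCommGroup G] (N : ℕ) (hG : ∀ g : G, N • g = 0) :
    Monoid.exponent (Multiplicative G) ∣ N := by
  apply Monoid.exponent_dvd_of_forall_pow_eq_one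
  intro g
  have := hG g.toAdd
  rw [← toAdd_pow] at this
  exact this

theorem hasEnough_of_forall {G : Type*} [AddCommGroup G] (N : ℕ) [NeZero N]
    (hG : ∀ g : G, N • g = 0) :
    HasEnoughRootsOfUnity (Multiplicative (ZMod N)) (Monoid.exponent (Multiplicative G)) := by
  have := hasEnough_zmod N
  exact HasEnoughRootsOfUnity.of_dvd _ (exponent_dvd_of_forall N hG)

/-- Additive homomorphisms to `ZMod N` as multiplicative characters. -/
noncomputable def addHomEquiv (G : Type*) [AddCommGroup G] (N : ℕ) :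
    Multiplicative (G →+ ZMod N) ≃* (Multiplicative G →* (Multiplicative (ZMod N))ˣ) where
  toFun f := (toUnits (G := Multiplicative (ZMod N))).toMonoidHom.comp
    (AddMonoidHom.toMultiplicative f.toAdd)
  invFun g := Multiplicative.ofAdd (AddMonoidHom.toMultiplicative.symm
    ((toUnits (G := Multiplicative (ZMod N))).symm.toMonoidHom.comp g))
  left_inv f := rfl
  right_inv g := by
    ext x
    rfl
  map_mul' f g := by
    ext x
    rfl

theorem nonempty_dual_equiv' (N : ℕ) [NeZero N] (G : Type*) [AddCommGroup G] [Finite G]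
    (hG : ∀ g : G, N • g = 0) : Nonempty ((G →+ ZMod N) ≃+ G) := by
  have := hasEnough_of_forall N hG
  obtain ⟨e⟩ := CommGroup.monoidHom_mulEquiv_of_hasEnoughRootsOfUnity (Multiplicative G)
    (Multiplicative (ZMod N))
  exact ⟨AddEquiv.toMultiplicative.symm ((addHomEquiv G N).trans e)⟩

theorem exists_dual_ne_zero' (N : ℕ) [NeZero N] (G : Type*) [AddCommGroup G] [Finite G]
    (hG : ∀ g : G, N • g = 0) (g : G) (hg : g ≠ 0) : ∃ φ : G →+ ZMod N, φ g ≠ 0 := by
  have := hasEnough_of_forall N hG
  obtain ⟨φ, hφ⟩ := CommGroup.exists_apply_ne_one_of_hasEnoughRootsOfUnity (Multiplicative G)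
    (Multiplicative (ZMod N)) (a := Multiplicative.ofAdd g) (by simpa using hg)
  refine ⟨((addHomEquiv G N).symm φ).toAdd, ?_⟩
  intro h
  apply hφ
  have h2 : (addHomEquiv G N) ((addHomEquiv G N).symm φ) (Multiplicative.ofAdd g) = 1 := by
    change toUnits (Multiplicative.ofAdd (((addHomEquiv G N).symm φ).toAdd g)) = 1
    rw [h]
    simp
  rwa [MulEquiv.apply_symm_apply] at h2

theorem nonempty_dual_equiv {p k : ℕ} (hp : p.Prime) (G : Type*) [AddCommGroup G] [Finite G]
    (hG : ∀ g : G, p ^ k • g = 0) : Nonempty (Dual p k G ≃+ G) := by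
  have : NeZero (p ^ k) := ⟨pow_ne_zero k hp.ne_zero⟩
  exact nonempty_dual_equiv' (p ^ k) G hG

theorem exists_dual_ne_zero {p k : ℕ} (hp : p.Prime) (G : Type*) [AddCommGroup G] [Finite G]
    (hG : ∀ g : G, p ^ k • g = 0) (g : G) (hg : g ≠ 0) : ∃ φ : Dual p k G, φ g ≠ 0 := by
  have : NeZero (p ^ k) := ⟨pow_ne_zero k hp.ne_zero⟩
  exact exists_dual_ne_zero' (p ^ k) G hG g hg

end Pool.Agent.Lib.MP_49901c_pr
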