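import Mathlib
import Pool.Agent.Lib.MP_49901c_pr.Uniform
import Pool.Agent.Lib.MP_49901c_pr.Duality

set_option autoImplicit false

/-!
# Moments of uniform symmetric matrices over `ZMod (p ^ k)`
-/

namespace Pool.Agent.Lib.MP_49901c_pr

namespace Job5

section Gen

variable {N : ℕ} [NeZero N]

omit [NeZero N] in
theorem finite_addHom (G H : Type*) [AddCommGroup G] [Finite G] [AddCommGroup H] [Finite H] :
    Finite (G →+ H) := DFunLike.finite _

theorem card_dual (G : Type*) [AddCommGroup G] [Finite G]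
    (hG : ∀ g : G, N • g = 0) : Nat.card (G →+ ZMod N) = Nat.card G :=
  Nat.card_congr (nonempty_dual_equiv' N G hG).some.toEquiv

omit [NeZero N] in
theorem dual_killed (G : Type*) [AddCommGroup G] (φ : G →+ ZMod N) : N • φ = 0 := by
  ext g
  simp

/-- Evaluation. -/
def ev (N : ℕ) (G : Type*) [AddCommGroup G] : G →+ ((G →+ ZMod N) →+ ZMod N) :=
  AddMonoidHom.mk' (fun g => AddMonoidHom.mk' (fun φ => φ g) (fun _ _ => rfl))
    (fun a b => by ext φ; exact map_add φ a b)

omit [NeZero N] in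
theorem ev_apply (G : Type*) [AddCommGroup G] (g : G) (φ : G →+ ZMod N) : ev N G g φ = φ g := rfl

theorem ev_bijective (G : Type*) [AddCommGroup G] [Finite G] (hG : ∀ g : G, N • g = 0) :
    Function.Bijective (ev N G) := by
  have := finite_addHom G (ZMod N)
  have := finite_addHom (G →+ ZMod N) (ZMod N)
  refine (Nat.bijective_iff_injective_and_card _).2 ⟨?_, ?_⟩
  · rw [injective_iff_map_eq_zero]
    intro g hg
    by_contra h
    obtain ⟨φ, hφ⟩ := exists_dual_ne_zero' N G hG g h
    exact hφ (by rw [← ev_apply, hg]; rfl)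
  · rw [card_dual _ (dual_killed G), card_dual _ hG]

theorem exists_of_dual_dual (G : Type*) [AddCommGroup G] [Finite G] (hG : ∀ g : G, N • g = 0)
    (ψ : (G →+ ZMod N) →+ ZMod N) : ∃ g : G, ∀ φ : G →+ ZMod N, ψ φ = φ g := by
  obtain ⟨g, hg⟩ := (ev_bijective G hG).2 ψ
  exact ⟨g, fun φ => by rw [← hg]; rfl⟩

theorem eq_zero_of_forall (G : Type*) [AddCommGroup G] [Finite G] (hG : ∀ g : G, N • g = 0)
    (g : G) (h : ∀ φ : G →+ ZMod N, φ g = 0) : g = 0 := by
  by_contra h'
  obtain ⟨φ, hφ⟩ := exists_dual_ne_zero' N G hG g h'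
  exact hφ (h φ)

/-- A subgroup of the dual with trivial annihilator is everything. -/
theorem eq_top_of_annihilator (G : Type*) [AddCommGroup G] [Finite G] (hG : ∀ g : G, N • g = 0)
    (K : AddSubgroup (G →+ ZMod N)) (hK : ∀ g : G, (∀ φ ∈ K, φ g = 0) → g = 0) : K = ⊤ := by
  have := finite_addHom G (ZMod N)
  rw [AddSubgroup.eq_top_iff']
  intro φ
  by_contra hφ
  have hne : (QuotientAddGroup.mk φ : (G →+ ZMod N) ⧸ K) ≠ 0 := by
    rwa [Ne, QuotientAddGroup.eq_zero_iff]
  have hkill : ∀ x : (G →+ ZMod N) ⧸ K, N • x = 0 := by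
    intro x
    induction x using QuotientAddGroup.induction_on with
    | H z =>
      rw [← QuotientAddGroup.mk_nsmul, dual_killed]
      rfl
  obtain ⟨χ, hχ⟩ := exists_dual_ne_zero' N _ hkill _ hne
  obtain ⟨g, hg⟩ := exists_of_dual_dual G hG (χ.comp (QuotientAddGroup.mk' K))
  have h0 : g = 0 := by
    apply hK
    intro φ hφ
    rw [← hg φ]
    simp only [AddMonoidHom.coe_comp, Function.comp_apply, QuotientAddGroup.mk'_apply]
    rw [(QuotientAddGroup.eq_zero_iff φ).2 hφ, map_zero]
  apply hχ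
  have := hg φ
  rw [h0, map_zero] at this
  exact this

omit [NeZero N] in
/-- Alternating sums vanish. -/
theorem sum_symm_alt {ι R : Type*} [Fintype ι] [DecidableEq ι] [CommRing R] (M a : ι → ι → R)
    (hM : ∀ i j, M i j = M j i)
    (ha : ∀ i, a i i = 0) (ha' : ∀ i j, a i j = - a j i) : ∑ i, ∑ j, M i j * a i j = 0 := by
  rw [← Finset.sum_product']
  refine Finset.sum_involution (fun x _ => (x.2, x.1)) ?_ ?_ ?_ ?_
  · rintro ⟨i, j⟩ _
    simp only
    rw [hM i j, ha' i j]
    ring
  · rintro ⟨i, j⟩ _ h h'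
    simp only [Prod.mk.injEq] at h'
    apply h
    simp only
    rw [h'.1, ha, mul_zero]
  · intro x _
    exact Finset.mem_univ _
  · intro x _
    rfl

variable {n : ℕ}

/-- The additive group of symmetric matrices. -/
def symSub (n : ℕ) (R : Type*) [CommRing R] : AddSubgroup (Matrix (Fin n) (Fin n) R) where
  carrier := {M | M.IsSymm}
  zero_mem' := Matrix.isSymm_zero
  add_mem' := fun h h' => Matrix.IsSymm.add h h'
  neg_mem' := fun h => Matrix.IsSymm.neg h

variable (G : Type*) [AddCommGroup G]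

/-- Coordinates of a homomorphism. -/
def coord (Φ : G →+ (Fin n → ZMod N)) (i : Fin n) : G →+ ZMod N :=
  (Pi.evalAddMonoidHom (fun _ : Fin n => ZMod N) i).comp Φ

omit [NeZero N] in
theorem coord_apply (Φ : G →+ (Fin n → ZMod N)) (i : Fin n) (g : G) : coord G Φ i g = Φ g i := rfl

/-- The map `M ↦ M Φ`. -/
def T (Φ : G →+ (Fin n → ZMod N)) : symSub n (ZMod N) →+ (Fin n → (G →+ ZMod N)) :=
  AddMonoidHom.mk' (fun M i => ∑ j, M.1 i j • coord G Φ j) (by
    intro M M'
    ext i g
    simp [add_mul, Finset.sum_add_distrib])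

omit [NeZero N] in
theorem T_apply (Φ : G →+ (Fin n → ZMod N)) (M : symSub n (ZMod N)) (i : Fin n) (g : G) :
    T G Φ M i g = ∑ j, M.1 i j * Φ g j := by
  simp [T, coord_apply]

/-- Alternating maps on the dual. -/
abbrev Alt (N : ℕ) (G : Type*) [AddCommGroup G] : Type _ :=
  {h : (G →+ ZMod N) →+ G // ∀ φ : G →+ ZMod N, φ (h φ) = 0}

omit [NeZero N] in
theorem alt_neg (h : Alt N G) (φ ψ : G →+ ZMod N) : φ (h.1 ψ) = - ψ (h.1 φ) := by
  have := h.2 (ψ + φ)
  rw [map_add] at this
  simp only [AddMonoidHom.add_apply, map_add, h.2, zero_add, add_zero] at this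
  exact eq_neg_of_add_eq_zero_left this

/-- The pairing with the images of a tuple. -/
def psiH (f : Fin n → G →+ ZMod N) (h : (G →+ ZMod N) →+ G) :
    (Fin n → (G →+ ZMod N)) →+ ZMod N :=
  AddMonoidHom.mk' (fun x => ∑ i, x i (h (f i))) (by
    intro x y
    simp [Finset.sum_add_distrib])

omit [NeZero N] in
theorem psiH_apply (f : Fin n → G →+ ZMod N) (h : (G →+ ZMod N) →+ G)
    (x : Fin n → (G →+ ZMod N)) : psiH G f h x = ∑ i, x i (h (f i)) := rfl

omit [NeZero N] in
theorem psiH_T (Φ : G →+ (Fin n → ZMod N)) (h : Alt N G) (M : symSub n (ZMod N)) :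
    psiH G (coord G Φ) h.1 (T G Φ M) = 0 := by
  rw [psiH_apply]
  simp only [T_apply]
  refine sum_symm_alt (fun i j => M.1 i j) (fun i j => Φ (h.1 (coord G Φ i)) j) ?_ ?_ ?_
  · intro i j
    exact (M.2.apply j i)
  · intro i
    exact h.2 (coord G Φ i)
  · intro i j
    exact alt_neg G h (coord G Φ j) (coord G Φ i)

theorem closure_coord [Finite G] (hG : ∀ g : G, N • g = 0) (Φ : G →+ (Fin n → ZMod N))
    (hΦ : Function.Injective Φ) : AddSubgroup.closure (Set.range (coord G Φ)) = ⊤ := by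
  apply eq_top_of_annihilator G hG
  intro g hg
  apply hΦ
  rw [map_zero]
  ext i
  exact hg _ (AddSubgroup.subset_closure ⟨i, rfl⟩)

/-- Integral combinations. -/
def comb {A : Type*} [AddCommGroup A] (f : Fin n → A) : (Fin n → ℤ) →+ A :=
  AddMonoidHom.mk' (fun c => ∑ i, c i • f i) (by
    intro c d
    simp [add_smul, Finset.sum_add_distrib])

omit [NeZero N] in
theorem comb_apply {A : Type*} [AddCommGroup A] (f : Fin n → A) (c : Fin n → ℤ) :
    comb f c = ∑ i, c i • f i := rfl

omit [NeZero N] in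
theorem comb_single {A : Type*} [AddCommGroup A] (f : Fin n → A) (i : Fin n) :
    comb f (Pi.single i 1) = f i := by
  rw [comb_apply, Finset.sum_eq_single i]
  · simp
  · intro j _ hj
    simp [hj]
  · simp

omit [NeZero N] in
theorem comb_surjective {A : Type*} [AddCommGroup A] (f : Fin n → A)
    (hf : AddSubgroup.closure (Set.range f) = ⊤) : Function.Surjective (comb f) := by
  rw [← AddMonoidHom.range_eq_top, eq_top_iff, ← hf, AddSubgroup.closure_le]
  rintro _ ⟨i, rfl⟩
  exact ⟨Pi.single i 1, comb_single f i⟩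

theorem exists_alt [Finite G] (hG : ∀ g : G, N • g = 0) (Φ : G →+ (Fin n → ZMod N))
    (hΦ : Function.Injective Φ) (g : Fin n → G) (h0 : ∀ i, coord G Φ i (g i) = 0)
    (h1 : ∀ i j, coord G Φ i (g j) = - coord G Φ j (g i)) :
    ∃ h : Alt N G, ∀ i, h.1 (coord G Φ i) = g i := by
  have hsurj := comb_surjective (coord G Φ) (closure_coord G hG Φ hΦ)
  have hker : (comb (coord G Φ)).ker ≤ (comb g).ker := by
    intro c hc
    rw [AddMonoidHom.mem_ker] at hc ⊢
    apply hΦ
    rw [map_zero]
    ext j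
    have e1 : Φ (comb g c) j = ∑ i, c i • coord G Φ j (g i) := by
      rw [← coord_apply, comb_apply, map_sum]
      refine Finset.sum_congr rfl fun i _ => ?_
      rw [map_zsmul]
    have e2 : comb (coord G Φ) c (g j) = ∑ i, c i • coord G Φ i (g j) := by
      rw [comb_apply, AddMonoidHom.finsetSum_apply]
      rfl
    rw [hc, AddMonoidHom.zero_apply] at e2
    rw [e1, Pi.zero_apply]
    rw [← neg_eq_zero, e2, ← Finset.sum_neg_distrib]
    refine Finset.sum_congr rfl fun i _ => ?_
    rw [h1 i j, smul_neg]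
  let h : (G →+ ZMod N) →+ G :=
    (AddMonoidHom.liftOfSurjective (comb (coord G Φ)) hsurj) ⟨comb g, hker⟩
  have hh : ∀ c, h (comb (coord G Φ) c) = comb g c :=
    AddMonoidHom.liftOfRightInverse_comp_apply _ _ _ _
  refine ⟨⟨h, ?_⟩, ?_⟩
  · intro φ
    obtain ⟨c, rfl⟩ := hsurj φ
    rw [hh]
    rw [comb_apply, AddMonoidHom.finsetSum_apply]
    have : ∀ i, (c i • coord G Φ i) (comb g c) =
        ∑ j, ((c i * c j : ℤ) : ZMod N) * coord G Φ i (g j) := by
      intro i
      rw [AddMonoidHom.smul_apply, comb_apply, map_sum, Finset.smul_sum]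
      refine Finset.sum_congr rfl fun j _ => ?_
      rw [map_zsmul, smul_smul, zsmul_eq_mul]
    simp only [this]
    refine sum_symm_alt (fun i j => ((c i * c j : ℤ) : ZMod N)) (fun i j => coord G Φ i (g j))
      ?_ h0 h1
    intro i j
    rw [mul_comm]
  · intro i
    have := hh (Pi.single i 1)
    rwa [comb_single, comb_single] at this

omit [NeZero N] in
theorem psiH_single (f : Fin n → G →+ ZMod N) (h : (G →+ ZMod N) →+ G) (i : Fin n)
    (φ : G →+ ZMod N) : psiH G f h (Pi.single i φ) = φ (h (f i)) := by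
  rw [psiH_apply, Finset.sum_eq_single i]
  · simp
  · intro j _ hj
    simp [hj]
  · simp

/-- The map from alternating maps to characters of the cokernel. -/
def cokerMap (Φ : G →+ (Fin n → ZMod N)) (h : Alt N G) :
    ((Fin n → (G →+ ZMod N)) ⧸ (T G Φ).range) →+ ZMod N :=
  QuotientAddGroup.lift _ (psiH G (coord G Φ) h.1) (by
    rintro _ ⟨M, rfl⟩
    exact psiH_T G Φ h M)

omit [NeZero N] in
theorem cokerMap_mk (Φ : G →+ (Fin n → ZMod N)) (h : Alt N G) (x : Fin n → (G →+ ZMod N)) :
    cokerMap G Φ h (QuotientAddGroup.mk x) = psiH G (coord G Φ) h.1 x := rfl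

omit [NeZero N] in
theorem sum_single_mul (x : Fin n → Fin n → ZMod N) (a b : Fin n) :
    ∑ i, ∑ j, (Matrix.single a b (1 : ZMod N)) i j * x i j = x a b := by
  rw [Finset.sum_eq_single a]
  · rw [Finset.sum_eq_single b]
    · simp
    · intro j _ hj
      simp [hj.symm]
    · simp
  · intro i _ hi
    simp [hi.symm]
  · simp

theorem cokerMap_bijective [Finite G] (hG : ∀ g : G, N • g = 0) (Φ : G →+ (Fin n → ZMod N))
    (hΦ : Function.Injective Φ) : Function.Bijective (cokerMap G Φ) := by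
  constructor
  · intro h h' heq
    have key : ∀ i, h.1 (coord G Φ i) = h'.1 (coord G Φ i) := by
      intro i
      rw [← sub_eq_zero]
      apply eq_zero_of_forall G hG
      intro φ
      have := congrArg (fun χ => χ (QuotientAddGroup.mk (Pi.single i φ))) heq
      simp only [cokerMap_mk, psiH_single] at this
      rw [map_sub, this, sub_self]
    apply Subtype.ext
    refine AddMonoidHom.eq_of_eqOn_dense (closure_coord G hG Φ hΦ) ?_
    rintro _ ⟨i, rfl⟩
    exact key i
  · intro χ
    let ψ : (Fin n → (G →+ ZMod N)) →+ ZMod N := χ.comp (QuotientAddGroup.mk' _)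
    have hψT : ∀ M, ψ (T G Φ M) = 0 := by
      intro M
      have hm : T G Φ M ∈ (T G Φ).range := ⟨M, rfl⟩
      simp only [ψ, AddMonoidHom.coe_comp, Function.comp_apply, QuotientAddGroup.mk'_apply]
      rw [(QuotientAddGroup.eq_zero_iff _).2 hm, map_zero]
    have hg : ∀ i, ∃ g : G, ∀ φ : G →+ ZMod N, ψ (Pi.single i φ) = φ g := fun i =>
      exists_of_dual_dual G hG (ψ.comp (AddMonoidHom.single (fun _ : Fin n => (G →+ ZMod N)) i))
    choose g hg using hg
    have hψ : ∀ x, ψ x = ∑ i, x i (g i) := by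
      intro x
      have : x = ∑ i, Pi.single i (x i) := (Finset.univ_sum_single x).symm
      conv_lhs => rw [this]
      rw [map_sum]
      exact Finset.sum_congr rfl fun i _ => hg i (x i)
    have hψ2 : ∀ M : symSub n (ZMod N), ∑ i, ∑ j, M.1 i j * Φ (g i) j = 0 := by
      intro M
      rw [← hψT M, hψ]
      exact Finset.sum_congr rfl fun i _ => (T_apply G Φ M i (g i)).symm
    have h0 : ∀ i, coord G Φ i (g i) = 0 := by
      intro i
      have := hψ2 ⟨Matrix.single i i 1, by
        change (Matrix.single i i (1 : ZMod N)).transpose = _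
        rw [Matrix.transpose_single]⟩
      rwa [sum_single_mul (fun i j => Φ (g i) j)] at this
    have h1 : ∀ i j, coord G Φ i (g j) = - coord G Φ j (g i) := by
      intro i j
      have := hψ2 ⟨Matrix.single i j 1 + Matrix.single j i 1, by
        change (Matrix.single i j (1 : ZMod N) + Matrix.single j i 1).transpose = _
        rw [Matrix.transpose_add, Matrix.transpose_single, Matrix.transpose_single, add_comm]⟩
      simp only [Matrix.add_apply, add_mul, Finset.sum_add_distrib] at this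
      rw [sum_single_mul (fun i j => Φ (g i) j), sum_single_mul (fun i j => Φ (g i) j)] at this
      rw [coord_apply, coord_apply]
      exact eq_neg_of_add_eq_zero_right this
    obtain ⟨h, hh⟩ := exists_alt G hG Φ hΦ g h0 h1
    refine ⟨h, ?_⟩
    apply AddMonoidHom.ext
    intro y
    induction y using QuotientAddGroup.induction_on with
    | H x => ?_
    change cokerMap G Φ h (QuotientAddGroup.mk x) = χ (QuotientAddGroup.mk x)
    rw [cokerMap_mk, psiH_apply]
    have := hψ x
    change χ (QuotientAddGroup.mk x) = _ at this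
    rw [this]
    exact Finset.sum_congr rfl fun i _ => by rw [hh]

theorem card_ker_T [Finite G] (hG : ∀ g : G, N • g = 0) (Φ : G →+ (Fin n → ZMod N))
    (hΦ : Function.Injective Φ) :
    Nat.card (T G Φ).ker * Nat.card G ^ n = Nat.card (Alt N G) * Nat.card (symSub n (ZMod N)) := by
  have := finite_addHom G (ZMod N)
  have h1 : Nat.card (symSub n (ZMod N)) = Nat.card (T G Φ).ker * Nat.card (T G Φ).range := by
    rw [AddSubgroup.card_eq_card_quotient_mul_card_addSubgroup (T G Φ).ker, mul_comm]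
    congr 1
    exact Nat.card_congr (QuotientAddGroup.quotientKerEquivRange (T G Φ)).toEquiv
  have h2 : Nat.card G ^ n =
      Nat.card ((Fin n → (G →+ ZMod N)) ⧸ (T G Φ).range) * Nat.card (T G Φ).range := by
    rw [← AddSubgroup.card_eq_card_quotient_mul_card_addSubgroup, Nat.card_pi]
    simp [card_dual G hG]
  have h3 : Nat.card ((Fin n → (G →+ ZMod N)) ⧸ (T G Φ).range) = Nat.card (Alt N G) := by
    rw [Nat.card_congr (Equiv.ofBijective _ (cokerMap_bijective G hG Φ hΦ))]
    refine (card_dual ((Fin n → (G →+ ZMod N)) ⧸ (T G Φ).range) ?_).symm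
    intro x
    induction x using QuotientAddGroup.induction_on with
    | H z =>
      rw [← QuotientAddGroup.mk_nsmul]
      have : N • z = 0 := by
        ext i g
        simp
      rw [this]
      rfl
  rw [h1, h2, h3]
  ring

end Gen

theorem mem_kerM {n : ℕ} {R : Type*} [CommRing R] (M : Matrix (Fin n) (Fin n) R)
    (x : Fin n → R) : x ∈ kerM M ↔ M.mulVec x = 0 := Iff.rfl

/-- Exchange of the order of summation. -/
def sigmaEquiv (n N : ℕ) (G : Type*) [AddCommGroup G] :
    (Σ M : SymMat n (ZMod N), Inj G (kerM M.1)) ≃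
      (Σ Φ : Inj G (Fin n → ZMod N), {M : SymMat n (ZMod N) // ∀ g, M.1.mulVec (Φ.1 g) = 0}) where
  toFun x := ⟨⟨(kerM x.1.1).subtype.comp x.2.1,
    (Subtype.val_injective).comp x.2.2⟩, ⟨x.1, fun g => (x.2.1 g).2⟩⟩
  invFun x := ⟨x.2.1, ⟨x.1.1.codRestrict (kerM x.2.1.1) (fun g => x.2.2 g), by
    intro a b h
    apply x.1.2
    exact congrArg Subtype.val h⟩⟩
  left_inv x := rfl
  right_inv x := rfl

/-- The kernel of `T`. -/
def kerTEquiv (n N : ℕ) (G : Type*) [AddCommGroup G] (Φ : G →+ (Fin n → ZMod N)) :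
    {M : SymMat n (ZMod N) // ∀ g, M.1.mulVec (Φ g) = 0} ≃ (T G Φ).ker where
  toFun M := ⟨⟨M.1.1, M.1.2⟩, by
    rw [AddMonoidHom.mem_ker]
    ext i g
    have := congrFun (M.2 g) i
    rw [T_apply]
    exact this⟩
  invFun M := ⟨⟨M.1.1, M.1.2⟩, by
    intro g
    have := M.2
    rw [AddMonoidHom.mem_ker] at this
    ext i
    have h2 : T G Φ ⟨M.1.1, M.1.2⟩ i g = 0 := by rw [this]; rfl
    rw [T_apply] at h2
    exact h2⟩
  left_inv M := rfl
  right_inv M := rfl

end Job5

theorem sum_card_inj_kerM {p k : ℕ} (hp : p.Prime) (G : Type) [AddCommGroup G] [Finite G]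
    (hG : ∀ g : G, p ^ k • g = 0) (n : ℕ) :
    (∑ᶠ M : SymMat n (ZMod (p ^ k)), (Nat.card (Inj G (kerM M.1)) : ℝ)) * (Nat.card G : ℝ) ^ n =
      (Nat.card (Inj G (Fin n → ZMod (p ^ k))) : ℝ) * (Nat.card (AltDual p k G) : ℝ) *
        (Nat.card (SymMat n (ZMod (p ^ k))) : ℝ) := by
  have : NeZero (p ^ k) := ⟨pow_ne_zero k hp.ne_zero⟩
  have : Finite (SymMat n (ZMod (p ^ k))) := inferInstance
  have := Fintype.ofFinite (SymMat n (ZMod (p ^ k)))
  have := Job5.finite_addHom G (Fin n → ZMod (p ^ k))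
  have := Fintype.ofFinite (Inj G (Fin n → ZMod (p ^ k)))
  have hfin : ∀ M : SymMat n (ZMod (p ^ k)), Finite (Inj G (kerM M.1)) := fun M => by
    have := Job5.finite_addHom G (kerM M.1)
    infer_instance
  rw [finsum_eq_sum_of_fintype, ← Nat.cast_sum, ← Nat.card_sigma,
    Nat.card_congr (Job5.sigmaEquiv n (p ^ k) G), Nat.card_sigma]
  have h : ∀ Φ : Inj G (Fin n → ZMod (p ^ k)),
      Nat.card {M : SymMat n (ZMod (p ^ k)) // ∀ g, M.1.mulVec (Φ.1 g) = 0} * Nat.card G ^ n =
        Nat.card (AltDual p k G) * Nat.card (SymMat n (ZMod (p ^ k))) := by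
    intro Φ
    rw [Nat.card_congr (Job5.kerTEquiv n (p ^ k) G Φ.1)]
    exact Job5.card_ker_T G hG Φ.1 Φ.2
  have h2 : (∑ Φ : Inj G (Fin n → ZMod (p ^ k)),
      Nat.card {M : SymMat n (ZMod (p ^ k)) // ∀ g, M.1.mulVec (Φ.1 g) = 0}) * Nat.card G ^ n =
      Nat.card (Inj G (Fin n → ZMod (p ^ k))) * Nat.card (AltDual p k G) *
        Nat.card (SymMat n (ZMod (p ^ k))) := by
    rw [Finset.sum_mul]
    simp only [h]
    rw [Finset.sum_const, Finset.card_univ, smul_eq_mul, ← Nat.card_eq_fintype_card, mul_assoc]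
  exact_mod_cast h2


end Pool.Agent.Lib.MP_49901c_pr
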