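import Mathlib
import Pool.Agent.Lib.MP_49901c_pr.Uniform
import Pool.Agent.Lib.MP_49901c_pr.Duality
import Pool.Agent.Lib.MP_49901c_pr.Job5a

set_option autoImplicit false

/-!
# Growth of the number of alternating forms on extensions
-/

namespace Pool.Agent.Lib.MP_49901c_pr

namespace Job5

section Forms

variable {N : ℕ} [NeZero N]

/-- Alternating forms. -/
abbrev AltForm (N : ℕ) (G : Type*) [AddCommGroup G] : Type _ :=
  {ω : G →+ (G →+ ZMod N) // ∀ g, ω g g = 0}

theorem card_alt_le (G : Type*) [AddCommGroup G] [Finite G] (hG : ∀ g : G, N • g = 0) :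
    Nat.card (Alt N G) ≤ Nat.card (AltForm N G) := by
  have := finite_addHom G (ZMod N)
  have := finite_addHom G (G →+ ZMod N)
  obtain ⟨e⟩ := nonempty_dual_equiv' N G hG
  let F : Alt N G → AltForm N G := fun h =>
    ⟨AddMonoidHom.mk' (fun g => AddMonoidHom.mk' (fun g' => e.symm g' (h.1 (e.symm g)))
      (fun a b => by rw [map_add]; rfl))
      (fun a b => by
        ext g'
        simp), fun g => h.2 (e.symm g)⟩
  refine Nat.card_le_card_of_injective F ?_
  intro h h' heq
  apply Subtype.ext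
  apply AddMonoidHom.ext
  intro φ
  rw [← sub_eq_zero]
  apply eq_zero_of_forall G hG
  intro ψ
  have h2 : (F h).1 (e φ) (e ψ) = (F h').1 (e φ) (e ψ) := by rw [heq]
  have h3 : (F h).1 (e φ) (e ψ) = ψ (h.1 φ) := by
    change e.symm (e ψ) (h.1 (e.symm (e φ))) = _
    rw [AddEquiv.symm_apply_apply, AddEquiv.symm_apply_apply]
  have h4 : (F h').1 (e φ) (e ψ) = ψ (h'.1 φ) := by
    change e.symm (e ψ) (h'.1 (e.symm (e φ))) = _
    rw [AddEquiv.symm_apply_apply, AddEquiv.symm_apply_apply]
  rw [map_sub, ← h3, ← h4, h2, sub_self]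

omit [NeZero N] in
theorem altForm_neg {G : Type*} [AddCommGroup G] (ω : AltForm N G) (x y : G) :
    ω.1 x y = - ω.1 y x := by
  have := ω.2 (x + y)
  simp only [map_add, AddMonoidHom.add_apply, ω.2, zero_add, add_zero] at this
  exact eq_neg_of_add_eq_zero_right this

theorem isotropic_card_le {A : Type*} [AddCommGroup A] [Finite A] (hA : ∀ a : A, N • a = 0)
    {i : ℕ} (w : Fin i → A × (A →+ ZMod N))
    (hw : ∀ j l, (w j).2 (w l).1 + (w l).2 (w j).1 = 0) :
    Nat.card (AddSubgroup.closure (Set.range w)) ≤ Nat.card A := by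
  have := finite_addHom A (ZMod N)
  have hB : ∀ u ∈ AddSubgroup.closure (Set.range w), ∀ v ∈ AddSubgroup.closure (Set.range w),
      u.2 v.1 + v.2 u.1 = 0 := by
    intro u hu v hv
    induction hu using AddSubgroup.closure_induction with
    | mem x hx =>
      obtain ⟨j, rfl⟩ := hx
      induction hv using AddSubgroup.closure_induction with
      | mem y hy =>
        obtain ⟨l, rfl⟩ := hy
        exact hw j l
      | zero => simp
      | add y z _ _ h1 h2 =>
        simp only [Prod.fst_add, Prod.snd_add, map_add, AddMonoidHom.add_apply]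
        linear_combination h1 + h2
      | neg y _ h1 =>
        simp only [Prod.fst_neg, Prod.snd_neg, map_neg, AddMonoidHom.neg_apply]
        linear_combination - h1
    | zero => simp
    | add y z _ _ h1 h2 =>
      simp only [Prod.fst_add, Prod.snd_add, map_add, AddMonoidHom.add_apply]
      linear_combination h1 + h2
    | neg y _ h1 =>
      simp only [Prod.fst_neg, Prod.snd_neg, map_neg, AddMonoidHom.neg_apply]
      linear_combination - h1
  set U := AddSubgroup.closure (Set.range w) with hU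
  have hkill : ∀ x : (A × (A →+ ZMod N)) ⧸ U, N • x = 0 := by
    intro x
    induction x using QuotientAddGroup.induction_on with
    | H z =>
      rw [← QuotientAddGroup.mk_nsmul]
      have : N • z = 0 := by
        refine Prod.ext ?_ ?_
        · exact hA z.1
        · exact dual_killed A z.2
      rw [this]
      rfl
  let F : U → (((A × (A →+ ZMod N)) ⧸ U) →+ ZMod N) := fun u =>
    QuotientAddGroup.lift U (AddMonoidHom.mk' (fun v => u.1.2 v.1 + v.2 u.1.1) (by
      intro a b
      simp only [Prod.fst_add, Prod.snd_add, map_add, AddMonoidHom.add_apply]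
      ring)) (fun v hv => hB u.1 u.2 v hv)
  have hF : ∀ u v, F u (QuotientAddGroup.mk v) = u.1.2 v.1 + v.2 u.1.1 := fun u v => rfl
  have hinj : Function.Injective F := by
    intro u v huv
    have h1 : ∀ x : A × (A →+ ZMod N), u.1.2 x.1 + x.2 u.1.1 = v.1.2 x.1 + x.2 v.1.1 := by
      intro x
      rw [← hF, ← hF, huv]
    apply Subtype.ext
    refine Prod.ext ?_ ?_
    · rw [← sub_eq_zero]
      apply eq_zero_of_forall A hA
      intro φ
      have := h1 (0, φ)
      simp only [map_zero, zero_add] at this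
      rw [map_sub, this, sub_self]
    · ext a
      have := h1 (a, 0)
      simpa using this
  have h1 : Nat.card U ≤ Nat.card ((A × (A →+ ZMod N)) ⧸ U) := by
    have := finite_addHom ((A × (A →+ ZMod N)) ⧸ U) (ZMod N)
    rw [← card_dual ((A × (A →+ ZMod N)) ⧸ U) hkill]
    exact Nat.card_le_card_of_injective F hinj
  have h2 : Nat.card (A × (A →+ ZMod N)) =
      Nat.card ((A × (A →+ ZMod N)) ⧸ U) * Nat.card U :=
    AddSubgroup.card_eq_card_quotient_mul_card_addSubgroup U
  rw [Nat.card_prod, card_dual A hA] at h2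
  by_contra hlt
  push Not at hlt
  have h3 : Nat.card A * Nat.card A < Nat.card U * Nat.card U :=
    Nat.mul_lt_mul_of_lt_of_lt hlt hlt
  have h4 : Nat.card U * Nat.card U ≤
      Nat.card ((A × (A →+ ZMod N)) ⧸ U) * Nat.card U := Nat.mul_le_mul_right _ h1
  omega

end Forms

section ExtFacts

variable {p k i : ℕ} {A : Type*} [AddCommGroup A] (ν : Fin i → A)

/-- The inclusion of the base group. -/
def iotaE (p k : ℕ) (ν : Fin i → A) : A →+ Ext p k i A ν :=
  (QuotientAddGroup.mk' _).comp (AddMonoidHom.inl A _)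

/-- The new generators. -/
def eE (p k : ℕ) (ν : Fin i → A) (j : Fin i) : Ext p k i A ν :=
  QuotientAddGroup.mk (0, Pi.single j 1)

theorem ext_rel (j : Fin i) : p • eE p k ν j = iotaE p k ν (ν j) := by
  have h1 : p • eE p k ν j - iotaE p k ν (ν j) = QuotientAddGroup.mk
      ((-(ν j), Pi.single j (p : ZMod (p ^ k))) : A × (Fin i → ZMod (p ^ k))) := by
    have : ((-(ν j), Pi.single j (p : ZMod (p ^ k))) : A × (Fin i → ZMod (p ^ k))) =
        p • (0, Pi.single j 1) - (ν j, 0) := by
      refine Prod.ext ?_ ?_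
      · simp
      · simp only [Prod.snd_sub, Prod.smul_snd, sub_zero]
        rw [← Pi.single_smul]
        simp
    rw [this]
    rfl
  rw [← sub_eq_zero, h1, QuotientAddGroup.eq_zero_iff]
  exact AddSubgroup.subset_closure ⟨j, rfl⟩

theorem hom_pi_zmod {B : Type*} [AddCommGroup B] {m : ℕ} [NeZero m]
    (F F' : (Fin i → ZMod m) →+ B)
    (h : ∀ j, F (Pi.single j 1) = F' (Pi.single j 1)) : F = F' := by
  apply AddMonoidHom.ext
  intro c
  have hc : c = ∑ j, (c j).val • (Pi.single j 1 : Fin i → ZMod m) := by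
    conv_lhs => rw [← Finset.univ_sum_single c]
    refine Finset.sum_congr rfl fun j _ => ?_
    rw [← Pi.single_smul]
    simp
  rw [hc, map_sum, map_sum]
  refine Finset.sum_congr rfl fun j _ => ?_
  rw [map_nsmul, map_nsmul, h]

theorem ext_hom [NeZero (p ^ k)] {B : Type*} [AddCommGroup B] (F F' : Ext p k i A ν →+ B)
    (h1 : ∀ a, F (iotaE p k ν a) = F' (iotaE p k ν a))
    (h2 : ∀ j, F (eE p k ν j) = F' (eE p k ν j)) : F = F' := by
  apply AddMonoidHom.ext
  intro y
  induction y using QuotientAddGroup.induction_on with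
  | H x =>
    obtain ⟨a, c⟩ := x
    have h3 : (F.comp (QuotientAddGroup.mk' _)).comp (AddMonoidHom.inr A (Fin i → ZMod (p ^ k))) =
        (F'.comp (QuotientAddGroup.mk' _)).comp (AddMonoidHom.inr A (Fin i → ZMod (p ^ k))) :=
      hom_pi_zmod _ _ h2
    have h4 := DFunLike.congr_fun h3 c
    have h5 : (QuotientAddGroup.mk (a, c) : Ext p k i A ν) = iotaE p k ν a +
        QuotientAddGroup.mk (0, c) := by
      have : ((a, c) : A × (Fin i → ZMod (p ^ k))) = (a, 0) + (0, c) := by simp
      rw [this]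
      rfl
    rw [h5, map_add, map_add, h1]
    congr 1

theorem ext_killed (hA : ∀ a : A, p ^ k • a = 0) (x : Ext p k i A ν) : p ^ k • x = 0 := by
  induction x using QuotientAddGroup.induction_on with
  | H z =>
    rw [← QuotientAddGroup.mk_nsmul]
    have : p ^ k • z = 0 := by
      refine Prod.ext (hA z.1) ?_
      funext j
      simp only [Prod.smul_snd, Prod.snd_zero, Pi.smul_apply, Pi.zero_apply, nsmul_eq_mul]
      rw [ZMod.natCast_self, zero_mul]
    rw [this]
    rfl

/-- Pairs of indices. -/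
abbrev Idx (i : ℕ) : Type := {x : Fin i × Fin i // x.1 < x.2}

theorem card_Idx (i : ℕ) : Nat.card (Idx i) = i.choose 2 := by
  let e : Idx i ≃ (Σ l : Fin i, Fin l.1) :=
    { toFun := fun x => ⟨x.1.2, ⟨x.1.1.1, x.2⟩⟩
      invFun := fun y => ⟨(⟨y.2.1, lt_trans y.2.2 y.1.2⟩, y.1), y.2.2⟩
      left_inv := fun x => rfl
      right_inv := fun y => rfl }
  rw [Nat.card_congr e, Nat.card_sigma]
  simp only [Nat.card_eq_fintype_card, Fintype.card_fin]
  rw [Fin.sum_univ_eq_sum_range (fun x => x) i, Finset.sum_range_id, Nat.choose_two_right]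

/-- The data of an alternating form on an extension. -/
def dataMap (p k i : ℕ) (A : Type*) [AddCommGroup A]
    (x : Σ ν : Fin i → A, AltForm (p ^ k) (Ext p k i A ν)) :
    (A →+ (A →+ ZMod (p ^ k))) × (Fin i → A × (A →+ ZMod (p ^ k))) × (Idx i → ZMod (p ^ k)) :=
  (AddMonoidHom.mk' (fun a => (x.2.1 (iotaE p k x.1 a)).comp (iotaE p k x.1)) (by
      intro a b
      ext c
      simp),
    fun j => (x.1 j, (x.2.1 (eE p k x.1 j)).comp (iotaE p k x.1)),
    fun y => x.2.1 (eE p k x.1 y.1.1) (eE p k x.1 y.1.2))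

theorem dataMap_injective [NeZero (p ^ k)] : Function.Injective (dataMap p k i A) := by
  rintro ⟨ν, ω⟩ ⟨ν', ω'⟩ h
  simp only [dataMap, Prod.mk.injEq] at h
  obtain ⟨h1, h2, h3⟩ := h
  have hν : ν = ν' := by
    funext j
    exact congrArg Prod.fst (congrFun h2 j)
  subst hν
  have : ω = ω' := by
    apply Subtype.ext
    have e1 : ∀ a b, ω.1 (iotaE p k ν a) (iotaE p k ν b) = ω'.1 (iotaE p k ν a) (iotaE p k ν b) :=
      fun a b => DFunLike.congr_fun (DFunLike.congr_fun h1 a) b
    have e2 : ∀ j a, ω.1 (eE p k ν j) (iotaE p k ν a) = ω'.1 (eE p k ν j) (iotaE p k ν a) :=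
      fun j a => DFunLike.congr_fun (congrArg Prod.snd (congrFun h2 j)) a
    have e3 : ∀ j l, j < l →
        ω.1 (eE p k ν j) (eE p k ν l) = ω'.1 (eE p k ν j) (eE p k ν l) :=
      fun j l hjl => congrFun h3 ⟨(j, l), hjl⟩
    have e4 : ∀ j l, ω.1 (eE p k ν j) (eE p k ν l) = ω'.1 (eE p k ν j) (eE p k ν l) := by
      intro j l
      rcases lt_trichotomy j l with h | h | h
      · exact e3 j l h
      · subst h
        rw [ω.2, ω'.2]
      · rw [altForm_neg ω, altForm_neg ω', e3 l j h]
    apply ext_hom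
    · intro a
      apply ext_hom
      · intro b
        exact e1 a b
      · intro j
        rw [altForm_neg ω, altForm_neg ω', e2]
    · intro j
      apply ext_hom
      · intro a
        exact e2 j a
      · intro l
        exact e4 j l
  rw [this]

/-- Isotropic tuples. -/
def Iso (p k i : ℕ) (A : Type*) [AddCommGroup A] (w : Fin i → A × (A →+ ZMod (p ^ k))) : Prop :=
  ∀ j l, (w j).2 (w l).1 + (w l).2 (w j).1 = 0

theorem data_rel (x : Σ ν : Fin i → A, AltForm (p ^ k) (Ext p k i A ν)) (j l : Fin i) :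
    ((dataMap p k i A x).2.1 j).2 ((dataMap p k i A x).2.1 l).1 =
      p • x.2.1 (eE p k x.1 j) (eE p k x.1 l) := by
  have : ((dataMap p k i A x).2.1 j).2 ((dataMap p k i A x).2.1 l).1 =
    x.2.1 (eE p k x.1 j) (iotaE p k x.1 (x.1 l)) := rfl
  rw [this, ← ext_rel, map_nsmul]

theorem data_iso (x : Σ ν : Fin i → A, AltForm (p ^ k) (Ext p k i A ν)) :
    Iso p k i A (dataMap p k i A x).2.1 := by
  intro j l
  rw [data_rel, data_rel, altForm_neg x.2 (eE p k x.1 l), smul_neg, add_neg_cancel]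

theorem card_smul_eq_le (hp : 0 < p) [NeZero (p ^ k)] (c : ZMod (p ^ k)) :
    Nat.card {s : ZMod (p ^ k) // p • s = c} ≤ p := by
  classical
  by_cases hne : Nonempty {s : ZMod (p ^ k) // p • s = c}
  · obtain ⟨s0⟩ := hne
    have h1 : Nat.card {s : ZMod (p ^ k) // p • s = c} ≤
        Nat.card {s : ZMod (p ^ k) // p • s = 0} := by
      refine Nat.card_le_card_of_injective (fun s => ⟨s.1 - s0.1, by
        rw [smul_sub, s.2, s0.2, sub_self]⟩) ?_
      intro a b h
      simp only [Subtype.mk.injEq, sub_left_inj] at h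
      exact Subtype.ext h
    refine h1.trans ?_
    rw [Nat.card_eq_fintype_card, Fintype.card_subtype]
    exact IsAddCyclic.card_nsmul_eq_zero_le hp
  · rw [not_nonempty_iff] at hne
    rw [Nat.card_of_isEmpty]
    omega

theorem card_rel_le (hp : 0 < p) [NeZero (p ^ k)] (c : Idx i → ZMod (p ^ k)) :
    Nat.card {t : Idx i → ZMod (p ^ k) // ∀ y, p • t y = c y} ≤ p ^ (i.choose 2) := by
  rw [Nat.card_congr (Equiv.subtypePiEquivPi (p := fun y s => p • s = c y)), Nat.card_pi]
  rw [← card_Idx i, Nat.card_eq_fintype_card, ← Finset.card_univ]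
  exact Finset.prod_le_pow_card _ _ _ fun y _ => card_smul_eq_le hp (c y)

theorem card_iso_le [NeZero (p ^ k)] [Finite A] (hA : ∀ a : A, p ^ k • a = 0) :
    Nat.card {w : Fin i → A × (A →+ ZMod (p ^ k)) // Iso p k i A w} ≤
      Nat.card (AddSubgroup (A × (A →+ ZMod (p ^ k)))) * Nat.card A ^ i := by
  classical
  have := finite_addHom A (ZMod (p ^ k))
  have hfin : Finite {U : AddSubgroup (A × (A →+ ZMod (p ^ k))) // Nat.card U ≤ Nat.card A} :=
    inferInstance
  have := Fintype.ofFinite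
    {U : AddSubgroup (A × (A →+ ZMod (p ^ k))) // Nat.card U ≤ Nat.card A}
  have h1 : Nat.card {w : Fin i → A × (A →+ ZMod (p ^ k)) // Iso p k i A w} ≤
      Nat.card (Σ U : {U : AddSubgroup (A × (A →+ ZMod (p ^ k))) // Nat.card U ≤ Nat.card A},
        (Fin i → U.1)) := by
    refine Nat.card_le_card_of_injective (fun w =>
      ⟨⟨AddSubgroup.closure (Set.range w.1), isotropic_card_le hA w.1 w.2⟩,
        fun j => ⟨w.1 j, AddSubgroup.subset_closure ⟨j, rfl⟩⟩⟩) ?_
    intro w w' h
    apply Subtype.ext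
    funext j
    have h2 := congrArg (fun x : (Σ U : {U : AddSubgroup (A × (A →+ ZMod (p ^ k))) //
      Nat.card U ≤ Nat.card A}, (Fin i → U.1)) => (x.2 j).1) h
    exact h2
  refine h1.trans ?_
  rw [Nat.card_sigma]
  have h2 : ∀ U : {U : AddSubgroup (A × (A →+ ZMod (p ^ k))) // Nat.card U ≤ Nat.card A},
      Nat.card (Fin i → U.1) ≤ Nat.card A ^ i := by
    intro U
    rw [Nat.card_fun, Nat.card_eq_fintype_card (α := Fin i), Fintype.card_fin]
    exact Nat.pow_le_pow_left U.2 i
  refine (Finset.sum_le_sum fun U _ => h2 U).trans ?_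
  rw [Finset.sum_const, smul_eq_mul, Finset.card_univ, ← Nat.card_eq_fintype_card]
  exact Nat.mul_le_mul_right _ (Nat.card_le_card_of_injective _ Subtype.val_injective)

theorem card_forms_le (hp : 0 < p) [NeZero (p ^ k)] [Finite A] (hA : ∀ a : A, p ^ k • a = 0) :
    Nat.card (Σ ν : Fin i → A, AltForm (p ^ k) (Ext p k i A ν)) ≤
      Nat.card (A →+ (A →+ ZMod (p ^ k))) *
        ((Nat.card (AddSubgroup (A × (A →+ ZMod (p ^ k)))) * Nat.card A ^ i) *
          p ^ (i.choose 2)) := by
  classical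
  have := finite_addHom A (ZMod (p ^ k))
  have := finite_addHom A (A →+ ZMod (p ^ k))
  have := Fintype.ofFinite {w : Fin i → A × (A →+ ZMod (p ^ k)) // Iso p k i A w}
  let Target := (A →+ (A →+ ZMod (p ^ k))) ×
    (Σ w : {w : Fin i → A × (A →+ ZMod (p ^ k)) // Iso p k i A w},
      {t : Idx i → ZMod (p ^ k) // ∀ y, p • t y = (w.1 y.1.1).2 (w.1 y.1.2).1})
  let F : (Σ ν : Fin i → A, AltForm (p ^ k) (Ext p k i A ν)) → Target := fun x =>
    ((dataMap p k i A x).1, ⟨⟨(dataMap p k i A x).2.1, data_iso x⟩,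
      ⟨(dataMap p k i A x).2.2, fun y => (data_rel x y.1.1 y.1.2).symm⟩⟩)
  have hF : Function.Injective F := by
    apply Function.Injective.of_comp (f := fun y : Target => (y.1, y.2.1.1, y.2.2.1))
    exact dataMap_injective
  have hfin : Finite Target := inferInstance
  refine (Nat.card_le_card_of_injective F hF).trans ?_
  rw [Nat.card_prod, Nat.card_sigma]
  refine Nat.mul_le_mul_left _ ?_
  refine (Finset.sum_le_sum fun w _ => card_rel_le hp _).trans ?_
  rw [Finset.sum_const, smul_eq_mul, Finset.card_univ, ← Nat.card_eq_fintype_card]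
  exact Nat.mul_le_mul_right _ (card_iso_le hA)

end ExtFacts

end Job5

theorem exists_growth {p k : ℕ} (hp : p.Prime) (hk : 1 ≤ k) (N : Type) [AddCommGroup N]
    [Finite N] (hN : ∀ x : N, p ^ (k - 1) • x = 0) :
    ∃ C : ℝ, ∀ i : ℕ, ∑ᶠ ν : Fin i → N, (Nat.card (AltDual p k (Ext p k i N ν)) : ℝ) ≤
      C * (p : ℝ) ^ (i.choose 2) * (Nat.card N : ℝ) ^ i := by
  have : NeZero (p ^ k) := ⟨pow_ne_zero k hp.ne_zero⟩
  have hA : ∀ x : N, p ^ k • x = 0 := by
    intro x
    have : p ^ k = p * p ^ (k - 1) := by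
      rw [← pow_succ']
      congr 1
      omega
    rw [this, mul_smul, hN, smul_zero]
  refine ⟨(Nat.card (N →+ (N →+ ZMod (p ^ k))) : ℝ) *
    Nat.card (AddSubgroup (N × (N →+ ZMod (p ^ k)))), ?_⟩
  intro i
  have := Fintype.ofFinite (Fin i → N)
  rw [finsum_eq_sum_of_fintype]
  have h1 : ∀ ν : Fin i → N, Nat.card (AltDual p k (Ext p k i N ν)) ≤
      Nat.card (Job5.AltForm (p ^ k) (Ext p k i N ν)) := fun ν =>
    Job5.card_alt_le (Ext p k i N ν) (Job5.ext_killed ν hA)
  have hfin : ∀ ν : Fin i → N, Finite (Job5.AltForm (p ^ k) (Ext p k i N ν)) := by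
    intro ν
    have := Job5.finite_addHom (Ext p k i N ν) (ZMod (p ^ k))
    have := Job5.finite_addHom (Ext p k i N ν) (Ext p k i N ν →+ ZMod (p ^ k))
    infer_instance
  have h2 : ∑ ν : Fin i → N, Nat.card (AltDual p k (Ext p k i N ν)) ≤
      Nat.card (N →+ (N →+ ZMod (p ^ k))) *
        ((Nat.card (AddSubgroup (N × (N →+ ZMod (p ^ k)))) * Nat.card N ^ i) *
          p ^ (i.choose 2)) := by
    refine (Finset.sum_le_sum fun ν _ => h1 ν).trans ?_
    rw [← Nat.card_sigma]
    exact Job5.card_forms_le hp.pos hA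
  calc ∑ ν : Fin i → N, (Nat.card (AltDual p k (Ext p k i N ν)) : ℝ)
      ≤ (Nat.card (N →+ (N →+ ZMod (p ^ k))) : ℝ) *
        (((Nat.card (AddSubgroup (N × (N →+ ZMod (p ^ k)))) : ℝ) * (Nat.card N : ℝ) ^ i) *
          (p : ℝ) ^ (i.choose 2)) := by exact_mod_cast h2
    _ = _ := by ring

namespace Job5

theorem card_symSub (i N : ℕ) [NeZero N] :
    Nat.card (symSub i (ZMod N)) = N ^ ((i + 1).choose 2) := by
  let e : symSub i (ZMod N) ≃ (Sym2 (Fin i) → ZMod N) :=
    { toFun := fun M => Sym2.lift ⟨fun a b => M.1 a b, fun a b => (M.2.apply b a)⟩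
      invFun := fun f => ⟨Matrix.of fun a b => f s(a, b), by
        change (Matrix.of fun a b => f s(a, b)).transpose = _
        ext a b
        simp [Sym2.eq_swap]⟩
      left_inv := fun M => by
        apply Subtype.ext
        ext a b
        rfl
      right_inv := fun f => by
        funext x
        induction x using Sym2.ind with
        | _ a b => rfl }
  rw [Nat.card_congr e, Nat.card_fun, Nat.card_eq_fintype_card (α := Sym2 (Fin i)), Sym2.card,
    Fintype.card_fin, Nat.card_zmod]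

end Job5

theorem card_altDual_elementary {p : ℕ} (hp : p.Prime) (i : ℕ) (ν : Fin i → PUnit.{1}) :
    Nat.card (AltDual p 1 (Ext p 1 i PUnit ν)) = p ^ (i.choose 2) := by
  have : NeZero (p ^ 1) := ⟨pow_ne_zero 1 hp.ne_zero⟩
  have hbot : AddSubgroup.closure
      (Set.range fun j : Fin i => ((-(ν j), Pi.single j (p : ZMod (p ^ 1))) :
        PUnit.{1} × (Fin i → ZMod (p ^ 1)))) = ⊥ := by
    rw [AddSubgroup.closure_eq_bot_iff]
    rintro _ ⟨j, rfl⟩
    have h0 : (p : ZMod (p ^ 1)) = 0 := by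
      rw [ZMod.natCast_eq_zero_iff, pow_one]
    simp only [h0, Pi.single_zero]
    rfl
  let Φ : Ext p 1 i PUnit ν ≃+ (Fin i → ZMod (p ^ 1)) :=
    (QuotientAddGroup.quotientAddEquivOfEq hbot).trans
      (QuotientAddGroup.quotientBot.trans AddEquiv.uniqueProd)
  have hG : ∀ g : Ext p 1 i PUnit ν, p ^ 1 • g = 0 :=
    Job5.ext_killed ν (fun a => rfl)
  have h1 := Job5.card_ker_T (Ext p 1 i PUnit ν) hG Φ.toAddMonoidHom Φ.injective
  have h2 : Nat.card (Job5.T (Ext p 1 i PUnit ν) Φ.toAddMonoidHom).ker = 1 := by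
    rw [Nat.card_eq_one_iff_unique]
    refine ⟨⟨fun M M' => ?_⟩, ⟨0⟩⟩
    have h3 : ∀ M : (Job5.T (Ext p 1 i PUnit ν) Φ.toAddMonoidHom).ker, ∀ a b,
        M.1.1 a b = 0 := by
      intro M a b
      have h4 : Job5.T (Ext p 1 i PUnit ν) Φ.toAddMonoidHom M.1 a (Φ.symm (Pi.single b 1)) = 0 := by
        rw [AddMonoidHom.mem_ker.1 M.2]
        rfl
      rw [Job5.T_apply] at h4
      have h5 : Φ.toAddMonoidHom (Φ.symm (Pi.single b 1)) = Pi.single b 1 :=
        Φ.apply_symm_apply _
      rw [h5] at h4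
      simpa [Pi.single_apply] using h4
    apply Subtype.ext
    apply Subtype.ext
    ext a b
    rw [h3 M, h3 M']
  have h3 : Nat.card (Ext p 1 i PUnit ν) = p ^ i := by
    rw [Nat.card_congr Φ.toEquiv, Nat.card_fun, Nat.card_zmod, pow_one,
      Nat.card_eq_fintype_card, Fintype.card_fin]
  have hs : Nat.card (Job5.symSub i (ZMod (p ^ 1))) = p ^ ((i + 1).choose 2) := by
    rw [Job5.card_symSub, pow_one]
  rw [h2, h3, hs, one_mul, ← pow_mul] at h1
  have h4 : i * i = i.choose 2 + (i + 1).choose 2 := by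
    rw [Nat.choose_two_right, Nat.choose_two_right]
    have h5 := Nat.even_mul_pred_self i
    have h6 := Nat.even_mul_succ_self i
    obtain ⟨a, ha⟩ := h5
    obtain ⟨b, hb⟩ := h6
    have h7 : (i + 1) * (i + 1 - 1) = b + b := by
      rw [Nat.add_sub_cancel, mul_comm, ← hb]
    rw [h7, ha]
    have h8 : i * i + i = b + b := by rw [← hb]; ring
    have h9 : i * i = a + a + i := by
      rcases Nat.eq_zero_or_pos i with h | h
      · subst h
        simp at ha ⊢
        omega
      · obtain ⟨m, rfl⟩ : ∃ m, i = m + 1 := ⟨i - 1, by omega⟩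
        rw [← ha]
        simp
        ring
    omega
  rw [h4, pow_add] at h1
  have h5 : Nat.card (Job5.Alt (p ^ 1) (Ext p 1 i PUnit ν)) = p ^ (i.choose 2) :=
    (Nat.eq_of_mul_eq_mul_right (pow_pos hp.pos _) h1).symm
  exact h5

end Pool.Agent.Lib.MP_49901c_pr
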