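import Mathlib
import Pool.Agent.Lib.MP_49901c_pr.Uniform
import Pool.Agent.Lib.MP_49901c_pr.Job1
import Pool.Agent.Lib.MP_49901c_pr.Job4
import Pool.Agent.Lib.MP_49901c_pr.Job5b
import Pool.Agent.Lib.MP_49901c_pr.HomInj

/-!
# Comparison of two families of random groups
-/

namespace Pool.Agent.Lib.MP_49901c_pr

open Finset Filter Topology

theorem fall_pos {p : ℕ} (hp : 2 ≤ p) (i : ℕ) : 0 < fall p i i := by
  unfold fall
  apply prod_pos
  intro l hl
  rw [mem_range] at hl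
  have h1 : (p : ℝ) ^ l < (p : ℝ) ^ i := by
    apply pow_lt_pow_right₀ _ hl
    exact_mod_cast hp
  linarith

theorem tendsto_term {p : ℕ} (hp : 2 ≤ p) : Tendsto (fun i : ℕ => (p : ℝ) ^ (i.choose 2) /
    fall p i i * (p : ℝ) ^ (i.choose 2)) atTop (𝓝 0) := by
  have h1 := tendsto_euler p hp
  have h2 := (h1.comp (tendsto_add_atTop_nat 1)).sub h1
  rw [sub_self] at h2
  have h3 : Tendsto (fun i : ℕ => (-1 : ℝ) ^ i * (p : ℝ) ^ (i.choose 2) / fall p i i *
      (p : ℝ) ^ (i.choose 2)) atTop (𝓝 0) := by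
    refine h2.congr fun i => ?_
    simp only [Function.comp_apply]
    rw [sum_range_succ, add_sub_cancel_left]
  rw [tendsto_zero_iff_abs_tendsto_zero] at h3
  refine h3.congr fun i => ?_
  have h4 := fall_pos hp i
  simp only [Function.comp_apply]
  rw [abs_mul, abs_div, abs_mul, abs_pow, abs_neg, abs_one, one_pow, one_mul, abs_of_pos h4,
    abs_of_nonneg (by positivity : (0 : ℝ) ≤ (p : ℝ) ^ (i.choose 2))]

theorem ext_killed' {p k i : ℕ} {N : Type} [AddCommGroup N] (hN : ∀ x : N, p ^ (k - 1) • x = 0)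
    (ν : Fin i → N) (x : Ext p k i N ν) : p ^ k • x = 0 := by
  apply Job5.ext_killed ν
  intro a
  rcases Nat.eq_zero_or_pos k with h | h
  · subst h
    exact hN a
  · have : p ^ k = p * p ^ (k - 1) := by
      rw [← pow_succ']
      congr 1
      omega
    rw [this, mul_smul, hN, smul_zero]

theorem ext_finite {p k i : ℕ} (hp : p.Prime) {N : Type} [AddCommGroup N] [Finite N]
    (ν : Fin i → N) : Finite (Ext p k i N ν) := by
  have : NeZero (p ^ k) := ⟨pow_ne_zero k hp.ne_zero⟩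
  exact Quotient.finite _

/-- The comparison theorem. -/
theorem compare {p k : ℕ} (hp : p.Prime) (hk : 1 ≤ k) (N : Type) [AddCommGroup N] [Finite N]
    (hN : ∀ x : N, p ^ (k - 1) • x = 0) {Ω Ω' : ℕ → Type} [∀ n, Fintype (Ω n)]
    [∀ n, Fintype (Ω' n)] (w : ∀ n, Ω n → ℝ) (w' : ∀ n, Ω' n → ℝ)
    (Y : ∀ n, Ω n → AddSubgroup (Fin n → ZMod (p ^ k)))
    (Y' : ∀ n, Ω' n → AddSubgroup (Fin n → ZMod (p ^ k)))
    (hw : ∀ n ω, 0 ≤ w n ω) (hw' : ∀ n ω, 0 ≤ w' n ω)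
    (hInj : ∀ (G : Type) [AddCommGroup G] [Finite G], (∀ g : G, p ^ k • g = 0) →
      Tendsto (fun n => ∑ ω, w n ω * (Nat.card (Inj G (Y n ω)) : ℝ) -
        ∑ ω, w' n ω * (Nat.card (Inj G (Y' n ω)) : ℝ)) atTop (𝓝 0))
    (hgrow : ∃ C : ℝ, ∀ i n : ℕ, ∑ᶠ ν : Fin i → N,
      ∑ ω, w' n ω * (Nat.card (Inj (Ext p k i N ν) (Y' n ω)) : ℝ) ≤
        C * (p : ℝ) ^ (i.choose 2) * (Nat.card N : ℝ) ^ i) :
    Tendsto (fun n => ∑ ω, w n ω * (Nat.card (N ≃+ Y n ω) : ℝ) -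
      ∑ ω, w' n ω * (Nat.card (N ≃+ Y' n ω) : ℝ)) atTop (𝓝 0) := by
  classical
  have hNZ : NeZero (p ^ k) := ⟨pow_ne_zero k hp.ne_zero⟩
  have hFN : Fintype N := Fintype.ofFinite N
  have hp2 : 2 ≤ p := hp.two_le
  obtain ⟨C, hC⟩ := hgrow
  set A : ℕ → ℝ := fun n => ∑ ω, w n ω * (Nat.card (N ≃+ Y n ω) : ℝ) with hA
  set A' : ℕ → ℝ := fun n => ∑ ω, w' n ω * (Nat.card (N ≃+ Y' n ω) : ℝ) with hA'
  set B : ℕ → ℕ → ℝ := fun m n => ∑ ω, w n ω * bonf p k m N (Y n ω) with hB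
  set B' : ℕ → ℕ → ℝ := fun m n => ∑ ω, w' n ω * bonf p k m N (Y' n ω) with hB'
  have hkill : ∀ (n : ℕ) (V : AddSubgroup (Fin n → ZMod (p ^ k))) (y : V), p ^ k • y = 0 := by
    intro n V y
    apply Subtype.ext
    funext i
    simp
  have hfin : ∀ (n : ℕ) (V : AddSubgroup (Fin n → ZMod (p ^ k))), Finite V := by
    intro n V
    infer_instance
  have hNpos : (0 : ℝ) < Nat.card N := by exact_mod_cast Nat.card_pos
  -- (1) sandwich
  have up : ∀ m, Even m → ∀ n, A n ≤ B m n := fun m hm n =>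
    sum_le_sum fun ω _ => mul_le_mul_of_nonneg_left
      (card_equiv_le_bonf hp hk N (Y n ω) hN (hkill n _) m hm) (hw n ω)
  have up' : ∀ m, Even m → ∀ n, A' n ≤ B' m n := fun m hm n =>
    sum_le_sum fun ω _ => mul_le_mul_of_nonneg_left
      (card_equiv_le_bonf hp hk N (Y' n ω) hN (hkill n _) m hm) (hw' n ω)
  have lo : ∀ m, Odd m → ∀ n, B m n ≤ A n := fun m hm n =>
    sum_le_sum fun ω _ => mul_le_mul_of_nonneg_left
      (bonf_le_card_equiv hp hk N (Y n ω) hN (hkill n _) m hm) (hw n ω)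
  have lo' : ∀ m, Odd m → ∀ n, B' m n ≤ A' n := fun m hm n =>
    sum_le_sum fun ω _ => mul_le_mul_of_nonneg_left
      (bonf_le_card_equiv hp hk N (Y' n ω) hN (hkill n _) m hm) (hw' n ω)
  -- rewriting the sums
  have hfinsum : ∀ (i : ℕ) (f : (Fin i → N) → ℝ), ∑ᶠ ν, f ν = ∑ ν, f ν := by
    intro i f
    exact finsum_eq_sum_of_fintype f
  have expand : ∀ (m n : ℕ) (Ω₁ : Type) (_ : Fintype Ω₁) (v : Ω₁ → ℝ)
      (Z : Ω₁ → AddSubgroup (Fin n → ZMod (p ^ k))),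
      ∑ ω, v ω * bonf p k m N (Z ω) = ∑ i ∈ range (m + 1), (-1 : ℝ) ^ i * (p : ℝ) ^ (i.choose 2) /
        (fall p i i * (Nat.card N : ℝ) ^ i) *
        ∑ᶠ ν : Fin i → N, ∑ ω, v ω * (Nat.card (Inj (Ext p k i N ν) (Z ω)) : ℝ) := by
    intro m n Ω₁ _ v Z
    unfold bonf
    simp_rw [mul_sum]
    rw [sum_comm]
    apply sum_congr rfl
    intro i _
    rw [hfinsum, sum_comm, mul_sum]
    apply sum_congr rfl
    intro ω _
    rw [hfinsum, mul_sum, mul_sum, mul_sum]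
    apply sum_congr rfl
    intro ν _
    ring
  -- (2) the truncated sums are close
  have close : ∀ m, Tendsto (fun n => B m n - B' m n) atTop (𝓝 0) := by
    intro m
    have h1 : ∀ n, B m n - B' m n = ∑ i ∈ range (m + 1), (-1 : ℝ) ^ i *
        (p : ℝ) ^ (i.choose 2) / (fall p i i * (Nat.card N : ℝ) ^ i) *
        (∑ ν : Fin i → N, (∑ ω, w n ω * (Nat.card (Inj (Ext p k i N ν) (Y n ω)) : ℝ) -
            ∑ ω, w' n ω * (Nat.card (Inj (Ext p k i N ν) (Y' n ω)) : ℝ))) := by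
      intro n
      simp only [hB, hB']
      rw [expand, expand, ← sum_sub_distrib]
      apply sum_congr rfl
      intro i _
      rw [hfinsum, hfinsum, ← mul_sub, sum_sub_distrib]
    have h2 : Tendsto (fun n => ∑ i ∈ range (m + 1), (-1 : ℝ) ^ i *
        (p : ℝ) ^ (i.choose 2) / (fall p i i * (Nat.card N : ℝ) ^ i) *
        (∑ ν : Fin i → N, (∑ ω, w n ω * (Nat.card (Inj (Ext p k i N ν) (Y n ω)) : ℝ) -
            ∑ ω, w' n ω * (Nat.card (Inj (Ext p k i N ν) (Y' n ω)) : ℝ)))) atTop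
        (𝓝 (∑ i ∈ range (m + 1), (-1 : ℝ) ^ i *
        (p : ℝ) ^ (i.choose 2) / (fall p i i * (Nat.card N : ℝ) ^ i) *
        (∑ ν : Fin i → N, (0 : ℝ)))) := by
      apply tendsto_finsetSum
      intro i _
      apply Tendsto.const_mul
      apply tendsto_finsetSum
      intro ν _
      have := ext_finite (k := k) hp ν
      exact hInj (Ext p k i N ν) (ext_killed' hN ν)
    simp only [sum_const_zero, mul_zero] at h2
    exact h2.congr fun n => (h1 n).symm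
  -- (3) consecutive truncations
  set τ : ℕ → ℝ := fun i => C * ((p : ℝ) ^ (i.choose 2) / fall p i i * (p : ℝ) ^ (i.choose 2))
    with hτ
  have consec : ∀ m n, |B' (m + 1) n - B' m n| ≤ τ (m + 1) := by
    intro m n
    simp only [hB']
    rw [expand, expand, sum_range_succ _ (m + 1), add_sub_cancel_left]
    have h1 := hC (m + 1) n
    have h2 : 0 ≤ ∑ᶠ ν : Fin (m + 1) → N,
        ∑ ω, w' n ω * (Nat.card (Inj (Ext p k (m + 1) N ν) (Y' n ω)) : ℝ) := by
      rw [hfinsum]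
      exact sum_nonneg fun ν _ => sum_nonneg fun ω _ => mul_nonneg (hw' n ω) (Nat.cast_nonneg _)
    have h3 := fall_pos hp2 (m + 1)
    have h4 : (0 : ℝ) < (Nat.card N : ℝ) ^ (m + 1) := pow_pos hNpos _
    rw [abs_mul, abs_of_nonneg h2, abs_div, abs_mul, abs_pow, abs_neg, abs_one, one_pow, one_mul,
      abs_of_pos (mul_pos h3 h4), abs_of_nonneg (by positivity :
        (0 : ℝ) ≤ (p : ℝ) ^ ((m + 1).choose 2))]
    calc (p : ℝ) ^ ((m + 1).choose 2) / (fall p (m + 1) (m + 1) * (Nat.card N : ℝ) ^ (m + 1)) *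
        ∑ᶠ ν : Fin (m + 1) → N,
          ∑ ω, w' n ω * (Nat.card (Inj (Ext p k (m + 1) N ν) (Y' n ω)) : ℝ)
        ≤ (p : ℝ) ^ ((m + 1).choose 2) / (fall p (m + 1) (m + 1) * (Nat.card N : ℝ) ^ (m + 1)) *
          (C * (p : ℝ) ^ ((m + 1).choose 2) * (Nat.card N : ℝ) ^ (m + 1)) :=
          mul_le_mul_of_nonneg_left h1 (by positivity)
      _ = τ (m + 1) := by
          simp only [hτ]
          field_simp
  have hτlim : Tendsto τ atTop (𝓝 0) := by
    have := (tendsto_term hp2).const_mul C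
    rwa [mul_zero] at this
  -- conclusion
  rw [Metric.tendsto_atTop]
  intro ε hε
  have h1 : ∀ᶠ i in atTop, τ i < ε / 2 := hτlim.eventually_lt_const (by linarith)
  obtain ⟨m₀, hm₀⟩ := eventually_atTop.mp h1
  set m : ℕ := 2 * m₀ with hm
  have hmeven : Even m := even_two_mul m₀
  have hmodd : Odd (m + 1) := hmeven.add_one
  have h2 : τ (m + 1) < ε / 2 := hm₀ (m + 1) (by omega)
  have h3 := Metric.tendsto_atTop.mp (close m) (ε / 2) (by linarith)
  have h4 := Metric.tendsto_atTop.mp (close (m + 1)) (ε / 2) (by linarith)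
  obtain ⟨n₁, hn₁⟩ := h3
  obtain ⟨n₂, hn₂⟩ := h4
  refine ⟨max n₁ n₂, fun n hn => ?_⟩
  have h5 := hn₁ n (le_of_max_le_left hn)
  have h6 := hn₂ n (le_of_max_le_right hn)
  rw [Real.dist_eq, sub_zero] at h5 h6 ⊢
  have h7 := up m hmeven n
  have h8 := up' m hmeven n
  have h9 := lo (m + 1) hmodd n
  have h10 := lo' (m + 1) hmodd n
  have h11 := consec m n
  rw [abs_lt] at h5 h6
  rw [abs_le] at h11
  rw [abs_lt]
  constructor
  · linarith
  · linarith

end Pool.Agent.Lib.MP_49901c_pr
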