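import Mathlib
import Pool.Agent.Lib.MP_49901c_pr.Uniform
import Pool.Agent.Lib.MP_49901c_pr.Duality
import Pool.Agent.Lib.MP_49901c_pr.Pairs

/-!
# The quadratic function on `Hom(G, ZMod (p ^ k)) × G`
-/

namespace Pool.Agent.Lib.MP_49901c_pr

open Finset

section

variable {p k : ℕ} {G : Type*} [AddCommGroup G]

theorem norm_stdAddChar {N : ℕ} [NeZero N] (x : ZMod N) : ‖ZMod.stdAddChar x‖ = 1 := by
  rw [ZMod.stdAddChar_apply]
  exact Circle.norm_coe _

theorem stdAddChar_eq_one_iff {N : ℕ} [NeZero N] (x : ZMod N) : ZMod.stdAddChar x = 1 ↔ x = 0 := by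
  constructor
  · intro h
    apply ZMod.injective_stdAddChar
    rw [h, AddChar.map_zero_eq_one]
  · rintro rfl
    exact AddChar.map_zero_eq_one _

/-- The quadratic function `(φ, g) ↦ e(φ(g))`. -/
noncomputable def dualForm (p k : ℕ) (hp : p.Prime) (G : Type*) [AddCommGroup G] [Finite G]
    (hG : ∀ g : G, p ^ k • g = 0) : QForm (Dual p k G × G) :=
  haveI : NeZero (p ^ k) := ⟨pow_ne_zero k hp.ne_zero⟩
  { κ := fun w => ZMod.stdAddChar (w.1 w.2)
    b := fun w =>
      { toFun := fun w' => ZMod.stdAddChar (w.1 w'.2 + w'.1 w.2)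
        map_zero_eq_one' := by simp
        map_add_eq_mul' := fun x y => by
          rw [← AddChar.map_add_eq_mul]
          congr 1
          simp only [Prod.snd_add, map_add, Prod.fst_add, AddMonoidHom.add_apply]
          abel }
    norm_κ := fun w => norm_stdAddChar _
    κ_add := fun w w' => by
      simp only [AddChar.coe_mk]
      rw [← AddChar.map_add_eq_mul, ← AddChar.map_add_eq_mul]
      congr 1
      simp only [Prod.snd_add, map_add, Prod.fst_add, AddMonoidHom.add_apply]
      abel
    κ_neg := fun w => by simp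
    nondeg := fun w hw => by
      simp only [AddChar.coe_mk] at hw
      apply Prod.ext
      · ext g
        have h := hw (0, g)
        rw [stdAddChar_eq_one_iff] at h
        simpa using h
      · by_contra hne
        obtain ⟨φ, hφ⟩ := exists_dual_ne_zero hp G hG w.2 hne
        have h := hw (φ, 0)
        rw [stdAddChar_eq_one_iff] at h
        apply hφ
        simpa using h }

variable (hp : p.Prime) [Finite G] (hG : ∀ g : G, p ^ k • g = 0)

theorem dualForm_κ (w : Dual p k G × G) :
    haveI : NeZero (p ^ k) := ⟨pow_ne_zero k hp.ne_zero⟩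
    (dualForm p k hp G hG).κ w = ZMod.stdAddChar (w.1 w.2) := rfl

theorem dualForm_b (w w' : Dual p k G × G) :
    haveI : NeZero (p ^ k) := ⟨pow_ne_zero k hp.ne_zero⟩
    (dualForm p k hp G hG).b w w' = ZMod.stdAddChar (w.1 w'.2 + w'.1 w.2) := rfl

include hp hG in
theorem card_dual : Nat.card (Dual p k G) = Nat.card G := by
  obtain ⟨e⟩ := nonempty_dual_equiv hp G hG
  exact Nat.card_congr e.toEquiv

include hp hG in
theorem card_dual_prod : Nat.card G ^ 2 = Nat.card (Dual p k G × G) := by
  rw [Nat.card_prod, card_dual hp hG, sq]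

omit [Finite G] in
include hp in
theorem finite_dual [Finite G] : Finite (Dual p k G) := by
  have : NeZero (p ^ k) := ⟨pow_ne_zero k hp.ne_zero⟩
  exact Finite.of_injective (fun φ : Dual p k G => (φ : G → ZMod (p ^ k)))
    DFunLike.coe_injective

open scoped Classical in
include hp hG in
/-- Fourier expansion of the number of harmonic functions. -/
theorem card_harmonic [Fintype G] [Fintype (Dual p k G)] {n : ℕ} (ω : Pr n → Bool) :
    (Nat.card {Φ : Fin n → Dual p k G // ∀ i, lap ω Φ i = 0} : ℂ) * (Nat.card G : ℂ) ^ n =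
      ∑ c : Fin n → Dual p k G × G, (dualForm p k hp G hG).chi ω c := by
  have : NeZero (p ^ k) := ⟨pow_ne_zero k hp.ne_zero⟩
  set Q := dualForm p k hp G hG with hQ
  -- the isotropic subgroup `0 × G`
  set U : AddSubgroup (Dual p k G × G) := AddSubgroup.prod ⊥ ⊤ with hU
  have hUiso : Q.Isotropic U := by
    rintro ⟨φ, g⟩ hu
    have hφ : φ = 0 := by
      have := hu.1
      simpa using this
    rw [hQ, dualForm_κ, hφ]
    simp
  have hmem : ∀ g : G, ((0 : Dual p k G), g) ∈ U := by
    intro g
    exact ⟨AddSubgroup.mem_bot.mpr rfl, AddSubgroup.mem_top _⟩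
  have h1 : ∀ (Φ : Fin n → Dual p k G) (g : Fin n → G),
      Q.chi ω (fun i => (Φ i, g i)) = ∏ i, ZMod.stdAddChar ((lap ω Φ i) (g i)) := by
    intro Φ g
    have h2 := Q.chi_add_isotropic hUiso ω (fun i => (Φ i, 0)) (fun i => ⟨(0, g i), hmem (g i)⟩)
    have h3 : (fun i => ((Φ i, 0) : Dual p k G × G) + (((⟨(0, g i), hmem (g i)⟩ : U)) :
        Dual p k G × G)) = fun i => (Φ i, g i) := by
      funext i
      simp
    rw [h3] at h2
    rw [h2]
    have h4 : Q.chi ω (fun i => ((Φ i, 0) : Dual p k G × G)) = 1 := by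
      unfold QForm.chi
      apply prod_eq_one
      intro e _
      split_ifs
      · rw [hQ, dualForm_κ]
        simp
      · rfl
    rw [h4, one_mul]
    apply prod_congr rfl
    intro i _
    have h5 : lap ω (fun i => ((Φ i, 0) : Dual p k G × G)) i = (lap ω Φ i, 0) := by
      apply Prod.ext
      · have := lap_map (AddMonoidHom.fst (Dual p k G) G) ω
          (fun i => ((Φ i, 0) : Dual p k G × G)) i
        exact this.symm
      · have := lap_map (AddMonoidHom.snd (Dual p k G) G) ω
          (fun i => ((Φ i, 0) : Dual p k G × G)) i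
        simp only [AddMonoidHom.coe_snd] at this
        rw [← this]
        unfold lap
        simp
    rw [h5, hQ, dualForm_b]
    simp
  have h6 : ∑ c : Fin n → Dual p k G × G, Q.chi ω c =
      ∑ Φ : Fin n → Dual p k G, ∑ g : Fin n → G, Q.chi ω (fun i => (Φ i, g i)) := by
    rw [← Fintype.sum_prod_type', ← Equiv.sum_comp (Equiv.arrowProdEquivProdArrow (Fin n) _ _)]
    rfl
  rw [h6]
  have h7 : ∀ Φ : Fin n → Dual p k G, ∑ g : Fin n → G, Q.chi ω (fun i => (Φ i, g i)) =
      if ∀ i, lap ω Φ i = 0 then (Nat.card G : ℂ) ^ n else 0 := by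
    intro Φ
    simp_rw [h1]
    have h8 : ∑ g : Fin n → G, ∏ i, ZMod.stdAddChar ((lap ω Φ i) (g i)) =
        ∏ i, ∑ g : G, (ZMod.stdAddChar ((lap ω Φ i) g) : ℂ) := by
      rw [prod_univ_sum, Fintype.piFinset_univ]
    rw [h8]
    have h9 : ∀ φ : Dual p k G, ∑ g : G, (ZMod.stdAddChar (φ g) : ℂ) =
        if φ = 0 then (Nat.card G : ℂ) else 0 := by
      intro φ
      have h10 := AddChar.sum_eq_ite (ZMod.stdAddChar.compAddMonoidHom φ : AddChar G ℂ)
      have h11 : (ZMod.stdAddChar.compAddMonoidHom φ : AddChar G ℂ) = 0 ↔ φ = 0 := by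
        constructor
        · intro h
          ext g
          have := DFunLike.congr_fun h g
          simp only [AddChar.compAddMonoidHom_apply, AddChar.zero_apply] at this
          rw [stdAddChar_eq_one_iff] at this
          simpa using this
        · rintro rfl
          ext g
          simp
      simp only [AddChar.compAddMonoidHom_apply] at h10
      rw [h10]
      simp only [h11, Nat.card_eq_fintype_card]
    rw [prod_congr rfl fun i _ => h9 (lap ω Φ i)]
    split_ifs with h
    · rw [prod_congr rfl fun i _ => if_pos (h i), prod_const, card_univ, Fintype.card_fin]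
    · push Not at h
      obtain ⟨i, hi⟩ := h
      exact prod_eq_zero (mem_univ i) (if_neg hi)
  rw [sum_congr rfl fun Φ _ => h7 Φ, Nat.card_eq_fintype_card, Fintype.card_subtype]
  rw [Finset.sum_ite, Finset.sum_const, Finset.sum_const_zero, add_zero, nsmul_eq_mul]

end

end Pool.Agent.Lib.MP_49901c_pr
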