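import Mathlib
import Pool.Agent.Lib.MP_49901c_pr.Uniform
import Pool.Agent.Lib.MP_49901c_pr.Pairs

/-!
# Graphs, the random graph and the kernel of the reduced Laplacian
-/

namespace Pool.Agent.Lib.MP_49901c_pr

open Finset

/-- The graph encoded by `ω`. -/
def toGraph {n : ℕ} (ω : Pr n → Bool) : SimpleGraph (Fin n) where
  Adj i j := adjB ω i j = true
  symm := ⟨fun i j h => by rw [adjB_comm]; exact h⟩
  loopless := ⟨fun i h => by rw [adjB_self] at h; exact Bool.false_ne_true h⟩

theorem toGraph_adj {n : ℕ} (ω : Pr n → Bool) (i j : Fin n) :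
    (toGraph ω).Adj i j ↔ adjB ω i j = true := Iff.rfl

open scoped Classical in
/-- Graphs are Boolean functions on pairs. -/
noncomputable def graphEquiv (n : ℕ) : (Pr n → Bool) ≃ SimpleGraph (Fin n) where
  toFun := toGraph
  invFun G := fun e => decide (G.Adj e.1.1 e.1.2)
  left_inv ω := by
    funext e
    simp only [toGraph_adj, adjB_pair]
    simp
  right_inv G := by
    ext i j
    rw [toGraph_adj]
    unfold adjB
    rcases lt_trichotomy i j with h | h | h
    · rw [dif_pos h]; simp
    · subst h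
      rw [dif_neg (lt_irrefl i), dif_neg (lt_irrefl i)]
      simp
    · rw [dif_neg (not_lt.mpr h.le), dif_pos h]
      simp only [decide_eq_true_eq]
      exact G.adj_comm j i

theorem card_Pr (n : ℕ) : Fintype.card (Pr n) = n.choose 2 := by
  have h1 : Fintype.card (Pr n) = (univ.filter fun e : Fin n × Fin n => e.1 < e.2).card :=
    Fintype.card_subtype _
  rw [h1]
  have h2 : (univ.filter fun e : Fin n × Fin n => e.1 < e.2).card =
      ∑ j : Fin n, (j : ℕ) := by
    rw [card_eq_sum_card_fiberwise (f := Prod.snd) (t := univ) (fun _ _ => mem_coe.mpr (mem_univ _))]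
    apply sum_congr rfl
    intro j _
    rw [← Fin.card_Iio j]
    apply card_bij (fun e _ => e.1)
    · intro e he
      simp only [mem_filter, mem_univ, true_and] at he
      rw [mem_Iio, ← he.2]
      exact he.1
    · intro e he e' he' h
      simp only [mem_filter, mem_univ, true_and] at he he'
      exact Prod.ext h (he.2.trans he'.2.symm)
    · intro i hi
      rw [mem_Iio] at hi
      exact ⟨(i, j), by simpa using hi, rfl⟩
  rw [h2, Fin.sum_univ_eq_sum_range (fun i => i) n, sum_range_id, Nat.choose_two_right]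

theorem ncard_edgeSet_toGraph {n : ℕ} (ω : Pr n → Bool) :
    (toGraph ω).edgeSet.ncard = (univ.filter fun e : Pr n => ω e = true).card := by
  classical
  rw [← Set.ncard_coe_finset]
  symm
  apply Set.ncard_congr (fun (e : Pr n) _ => s(e.1.1, e.1.2))
  · intro e he
    rw [coe_filter, Set.mem_ofPred_eq] at he
    rw [SimpleGraph.mem_edgeSet, toGraph_adj, adjB_pair]
    exact he.2
  · intro e e' _ _ h
    rw [Sym2.eq_iff] at h
    rcases h with ⟨h1, h2⟩ | ⟨h1, h2⟩
    · exact Subtype.ext (Prod.ext h1 h2)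
    · exfalso
      have h3 := e.2
      have h4 := e'.2
      rw [h1, h2] at h3
      exact absurd h3 (not_lt.mpr h4.le)
  · intro s hs
    induction s with | _ i j => ?_
    rw [SimpleGraph.mem_edgeSet, toGraph_adj] at hs
    rcases lt_trichotomy i j with h | h | h
    · refine ⟨⟨(i, j), h⟩, ?_, rfl⟩
      rw [coe_filter, Set.mem_ofPred_eq]
      refine ⟨mem_univ _, ?_⟩
      rw [← adjB_pair ω ⟨(i, j), h⟩]
      exact hs
    · subst h
      rw [adjB_self] at hs
      exact absurd hs Bool.false_ne_true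
    · refine ⟨⟨(j, i), h⟩, ?_, Sym2.eq_swap⟩
      rw [coe_filter, Set.mem_ofPred_eq]
      refine ⟨mem_univ _, ?_⟩
      rw [← adjB_pair ω ⟨(j, i), h⟩, adjB_comm]
      exact hs

theorem wt_eq_pow {n : ℕ} (q : ℝ) (ω : Pr n → Bool) :
    wt q ω = q ^ (toGraph ω).edgeSet.ncard * (1 - q) ^ (n.choose 2 -
      (toGraph ω).edgeSet.ncard) := by
  unfold wt
  rw [ncard_edgeSet_toGraph, prod_ite, prod_const, prod_const]
  congr 2
  have h := card_filter_add_card_filter_not (s := (univ : Finset (Pr n))) (fun e => ω e = true)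
  rw [card_univ, card_Pr] at h
  omega

open scoped Classical in
theorem gnpProb_eq_Ex (n : ℕ) (q : ℝ) (S : Set (SimpleGraph (Fin n))) :
    gnpProb n q S = Ex q (fun ω : Pr n → Bool => if toGraph ω ∈ S then (1 : ℝ) else 0) := by
  unfold gnpProb Ex
  have h1 : (∑ᶠ G ∈ S, q ^ G.edgeSet.ncard * (1 - q) ^ (n.choose 2 - G.edgeSet.ncard)) =
      ∑ G : SimpleGraph (Fin n), if G ∈ S then
        q ^ G.edgeSet.ncard * (1 - q) ^ (n.choose 2 - G.edgeSet.ncard) else 0 := by
    rw [finsum_mem_eq_toFinset_sum]
    rw [← sum_filter]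
    congr 1
    ext G
    simp
  rw [h1, ← Equiv.sum_comp (graphEquiv n)]
  apply sum_congr rfl
  intro ω _
  have h2 : graphEquiv n ω = toGraph ω := rfl
  rw [h2, smul_eq_mul, wt_eq_pow]
  by_cases h : toGraph ω ∈ S
  · simp only [if_pos h, mul_one]
  · simp only [if_neg h, mul_zero]

/-- The Laplacian matrix acts as `lap`. -/
theorem lapMatrix_mulVec {n : ℕ} {S : Type*} [CommRing S] (ω : Pr n → Bool)
    [DecidableRel (toGraph ω).Adj] (x : Fin n → S) (v : Fin n) :
    ((toGraph ω).lapMatrix S).mulVec x v = lap ω x v := by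
  rw [SimpleGraph.lapMatrix_mulVec_apply]
  unfold lap
  have h1 : ∀ j, (if adjB ω v j = true then x v - x j else 0) =
      (if adjB ω v j = true then x v else 0) - (if adjB ω v j = true then x j else 0) := by
    intro j
    split_ifs <;> simp
  rw [sum_congr rfl fun j _ => h1 j, sum_sub_distrib]
  congr 1
  · rw [← sum_filter, sum_const, nsmul_eq_mul]
    congr 2
    rw [← SimpleGraph.card_neighborFinset_eq_degree]
    congr 1
    ext j
    simp [toGraph_adj]
  · rw [← sum_filter]
    apply sum_congr _ fun _ _ => rfl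
    ext j
    simp [toGraph_adj]

/-- The reduced Laplacian modulo `N`. -/
theorem redLap_map_mulVec {n : ℕ} {S : Type*} [CommRing S] (ω : Pr (n + 1) → Bool)
    (f : Fin n → S) (i : Fin n) :
    ((redLap (toGraph ω)).map (Int.castRingHom S)).mulVec f i =
      lap ω (Fin.snoc f (0 : S) : Fin (n + 1) → S) (Fin.castSucc i) := by
  classical
  rw [← lapMatrix_mulVec]
  unfold Matrix.mulVec dotProduct
  rw [Fin.sum_univ_castSucc]
  rw [Fin.snoc_last, mul_zero, add_zero]
  apply sum_congr rfl
  intro j _
  rw [Fin.snoc_castSucc]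
  congr 1
  unfold redLap
  change (Int.castRingHom S) ((SimpleGraph.lapMatrix ℤ (toGraph ω)) (Fin.castSucc i)
    (Fin.castSucc j)) = SimpleGraph.lapMatrix S (toGraph ω) (Fin.castSucc i) (Fin.castSucc j)
  simp only [SimpleGraph.lapMatrix, SimpleGraph.degMatrix, Matrix.sub_apply, Matrix.diagonal_apply,
    SimpleGraph.adjMatrix_apply]
  split_ifs <;> simp

theorem sum_lap {n : ℕ} {A : Type*} [AddCommGroup A] (ω : Pr n → Bool) (f : Fin n → A) :
    ∑ i, lap ω f i = 0 := by
  unfold lap
  have h1 : ∑ i, ∑ j, (if adjB ω i j = true then f i - f j else 0) =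
      ∑ i, ∑ j, -(if adjB ω i j = true then f i - f j else 0) := by
    rw [sum_comm]
    apply sum_congr rfl
    intro i _
    apply sum_congr rfl
    intro j _
    rw [adjB_comm]
    split_ifs <;> simp
  simp_rw [sum_neg_distrib] at h1
  -- use the pair decomposition
  have h2 := prod_pairs (A := Multiplicative A)
    (fun i j => Multiplicative.ofAdd (if adjB ω i j = true then f i - f j else 0))
    (fun i => by simp [adjB_self])
  have h3 : ∏ i, ∏ j, Multiplicative.ofAdd (if adjB ω i j = true then f i - f j else 0) =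
      Multiplicative.ofAdd (∑ i, ∑ j, (if adjB ω i j = true then f i - f j else 0)) := by
    rw [ofAdd_sum]
    apply prod_congr rfl
    intro i _
    rw [ofAdd_sum]
  rw [h3] at h2
  have h4 : ∀ e : Pr n, Multiplicative.ofAdd (if adjB ω e.1.1 e.1.2 = true then
      f e.1.1 - f e.1.2 else 0) * Multiplicative.ofAdd (if adjB ω e.1.2 e.1.1 = true then
      f e.1.2 - f e.1.1 else 0) = 1 := by
    intro e
    rw [← ofAdd_add, adjB_comm ω e.1.2 e.1.1]
    split_ifs
    · rw [sub_add_sub_cancel, sub_self]; rfl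
    · simp
  rw [prod_congr rfl fun e _ => h4 e, prod_const_one] at h2
  exact Multiplicative.ofAdd.injective h2

theorem lap_const_add {n : ℕ} {A : Type*} [AddCommGroup A] (ω : Pr n → Bool) (f : Fin n → A)
    (a : A) (i : Fin n) : lap ω (fun j => f j + a) i = lap ω f i := by
  unfold lap
  apply sum_congr rfl
  intro j _
  split_ifs
  · rw [add_sub_add_right_eq_sub]
  · rfl

/-- Homomorphisms to the kernel of the reduced Laplacian and harmonic functions. -/
noncomputable def homEquiv {p k n : ℕ} {G : Type*} [AddCommGroup G] (ω : Pr (n + 1) → Bool) :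
    (G →+ kerM ((redLap (toGraph ω)).map (Int.castRingHom (ZMod (p ^ k))))) × Dual p k G ≃
      {Φ : Fin (n + 1) → Dual p k G // ∀ i, lap ω Φ i = 0} where
  toFun x := ⟨fun j => Fin.snoc (α := fun _ => Dual p k G)
      (fun i : Fin n => (Pi.evalAddMonoidHom (fun _ : Fin n => ZMod (p ^ k)) i).comp
        ((AddSubgroup.subtype _).comp x.1)) 0 j + x.2, by
    set Ψ : Fin (n + 1) → Dual p k G := Fin.snoc (α := fun _ => Dual p k G)
      (fun i : Fin n => (Pi.evalAddMonoidHom (fun _ : Fin n => ZMod (p ^ k)) i).comp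
        ((AddSubgroup.subtype _).comp x.1)) 0 with hΨ
    have h1 : ∀ i : Fin n, lap ω Ψ (Fin.castSucc i) = 0 := by
      intro i
      ext g
      have h2 := lap_map (AddMonoidHom.eval g : Dual p k G →+ ZMod (p ^ k)) ω Ψ (Fin.castSucc i)
      have h3 : (fun j => (AddMonoidHom.eval g : Dual p k G →+ ZMod (p ^ k)) (Ψ j)) =
          (Fin.snoc ((x.1 g : Fin n → ZMod (p ^ k))) (0 : ZMod (p ^ k)) :
            Fin (n + 1) → ZMod (p ^ k)) := by
        funext j
        refine Fin.lastCases ?_ (fun j => ?_) j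
        · simp [hΨ]
        · simp [hΨ]
      rw [h3, ← redLap_map_mulVec] at h2
      have h4 : ((redLap (toGraph ω)).map (Int.castRingHom (ZMod (p ^ k)))).mulVec
          (x.1 g : Fin n → ZMod (p ^ k)) = 0 := (x.1 g).2
      rw [h4] at h2
      exact h2.symm
    intro i
    rw [lap_const_add]
    refine Fin.lastCases ?_ h1 i
    have h5 := sum_lap ω Ψ
    rw [Fin.sum_univ_castSucc, sum_eq_zero fun i _ => h1 i, zero_add] at h5
    exact h5⟩
  invFun Φ := (⟨⟨fun g => ⟨fun i => Φ.1 (Fin.castSucc i) g - Φ.1 (Fin.last n) g, by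
      change ((redLap (toGraph ω)).map (Int.castRingHom (ZMod (p ^ k)))).mulVec _ = 0
      funext i
      rw [redLap_map_mulVec]
      have h2 := lap_map (AddMonoidHom.eval g : Dual p k G →+ ZMod (p ^ k)) ω
        (fun j => Φ.1 j + -Φ.1 (Fin.last n)) (Fin.castSucc i)
      rw [lap_const_add, Φ.2, map_zero] at h2
      rw [Pi.zero_apply]
      refine Eq.trans ?_ h2
      congr 1
      funext j
      refine Fin.lastCases ?_ (fun j => ?_) j
      · simp
      · simp [sub_eq_add_neg]⟩, by
      apply Subtype.ext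
      funext i
      simp⟩, fun g h => by
      apply Subtype.ext
      funext i
      simp only [map_add, AddSubgroup.coe_add, Pi.add_apply]
      abel⟩, Φ.1 (Fin.last n))
  left_inv x := by
    apply Prod.ext
    · ext g i
      simp
    · simp
  right_inv Φ := by
    apply Subtype.ext
    funext j
    refine Fin.lastCases ?_ (fun j => ?_) j
    · simp
    · ext g
      simp

theorem card_hom_kerM {p k n : ℕ} {G : Type*} [AddCommGroup G] (ω : Pr (n + 1) → Bool) :
    Nat.card (G →+ kerM ((redLap (toGraph ω)).map (Int.castRingHom (ZMod (p ^ k))))) *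
      Nat.card (Dual p k G) = Nat.card {Φ : Fin (n + 1) → Dual p k G // ∀ i, lap ω Φ i = 0} := by
  rw [← Nat.card_prod]
  exact Nat.card_congr (homEquiv ω)

end Pool.Agent.Lib.MP_49901c_pr
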