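import Mathlib
import Pool.Agent.Lib.MP_49901c_pr.Defs
import Pool.Agent.Lib.MP_49901c_pr.Uniform

/-!
# Job 6: an analytic estimate
-/

set_option autoImplicit false

namespace Pool.Agent.Lib.MP_49901c_pr

open Filter Topology

namespace Job6

lemma geom_le {u : ℝ} (h0 : 0 ≤ u) (h1 : u ≤ 1 / 2) (m : ℕ) :
    ∑ j ∈ Finset.Icc 1 m, u ^ j ≤ 2 * u := by
  have h3 : ∀ m : ℕ, ∑ j ∈ Finset.Icc 1 m, u ^ j ≤ 2 * u - u ^ m * (2 * u) := by
    intro m
    induction m with
    | zero => simp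
    | succ m ih =>
      rw [Finset.sum_Icc_succ_top (by omega)]
      have h4 : u ^ (m + 1) ≤ u ^ m * (2 * u) - u ^ (m + 1) * (2 * u) := by
        have h5 : u ^ (m + 1) * (2 * u) ≤ u ^ (m + 1) * 1 := by
          apply mul_le_mul_of_nonneg_left _ (by positivity)
          linarith
        have h6 : u ^ m * (2 * u) = 2 * u ^ (m + 1) := by rw [pow_succ]; ring
        rw [h6]
        linarith
      linarith
  have h4 : 0 ≤ u ^ m * (2 * u) := by positivity
  linarith [h3 m]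

lemma tendsto_geom (u : ℕ → ℝ) (h0 : ∀ n, 0 ≤ u n) (hu : Tendsto u atTop (𝓝 0)) (m : ℕ → ℕ) :
    Tendsto (fun n => ∑ j ∈ Finset.Icc 1 (m n), u n ^ j) atTop (𝓝 0) := by
  apply squeeze_zero' (g := fun n => 2 * u n)
  · filter_upwards with n
    exact Finset.sum_nonneg fun j _ => pow_nonneg (h0 n) j
  · filter_upwards [hu.eventually_le_const (by norm_num : (0 : ℝ) < 1 / 2)] with n hn
    exact geom_le (h0 n) hn _
  · have := hu.const_mul 2
    rwa [mul_zero] at this

lemma tendsto_second (a : ℝ) (ha : 1 ≤ a) (η : ℝ) (h0 : 0 < η) (h2 : η ≤ 1 / 2)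
    (h1 : η * Real.log (16 * a) ≤ Real.log (31 / 30)) :
    Tendsto (fun n : ℕ => ∑ j ∈ Finset.Icc 1 ⌊η * n⌋₊,
        (n.choose j : ℝ) * a ^ j * (7 / 8 : ℝ) ^ (n - j)) atTop (𝓝 0) := by
  have ha0 : 0 < a := by linarith
  apply squeeze_zero (g := fun n : ℕ => (31 / 32 : ℝ) ^ n)
  · intro n
    apply Finset.sum_nonneg
    intro j _
    positivity
  · intro n
    have hpt : ∀ j ∈ Finset.Icc 1 ⌊η * n⌋₊,
        (n.choose j : ℝ) * a ^ j * (7 / 8 : ℝ) ^ (n - j) ≤
          (31 / 30 : ℝ) ^ n * ((1 / 16 : ℝ) ^ j * (7 / 8 : ℝ) ^ (n - j) * (n.choose j : ℝ)) := by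
      intro j hj
      rw [Finset.mem_Icc] at hj
      have hjn : (j : ℝ) ≤ η * n := by
        calc (j : ℝ) ≤ (⌊η * n⌋₊ : ℝ) := by exact_mod_cast hj.2
          _ ≤ η * n := Nat.floor_le (by positivity)
      have h3 : (16 * a) ^ j ≤ (31 / 30 : ℝ) ^ n := by
        have hl : 0 ≤ Real.log (16 * a) := Real.log_nonneg (by linarith)
        rw [← Real.rpow_natCast, ← Real.rpow_natCast, Real.rpow_def_of_pos (by linarith),
          Real.rpow_def_of_pos (by norm_num)]
        apply Real.exp_le_exp.mpr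
        calc Real.log (16 * a) * j ≤ Real.log (16 * a) * (η * n) :=
              mul_le_mul_of_nonneg_left hjn hl
          _ = (η * Real.log (16 * a)) * n := by ring
          _ ≤ Real.log (31 / 30) * n := mul_le_mul_of_nonneg_right h1 (by positivity)
      have h4 : a ^ j = (16 * a) ^ j * (1 / 16 : ℝ) ^ j := by
        rw [← mul_pow]; congr 1; ring
      rw [h4]
      have h5 : 0 ≤ (1 / 16 : ℝ) ^ j * (7 / 8 : ℝ) ^ (n - j) * (n.choose j : ℝ) := by positivity
      calc (n.choose j : ℝ) * ((16 * a) ^ j * (1 / 16 : ℝ) ^ j) * (7 / 8 : ℝ) ^ (n - j)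
          = (16 * a) ^ j * ((1 / 16 : ℝ) ^ j * (7 / 8 : ℝ) ^ (n - j) * (n.choose j : ℝ)) := by ring
        _ ≤ _ := mul_le_mul_of_nonneg_right h3 h5
    refine (Finset.sum_le_sum hpt).trans ?_
    rw [← Finset.mul_sum]
    have hsub : Finset.Icc 1 ⌊η * (n : ℝ)⌋₊ ⊆ Finset.range (n + 1) := by
      intro j hj
      rw [Finset.mem_Icc] at hj
      rw [Finset.mem_range]
      have : (j : ℝ) ≤ n := by
        calc (j : ℝ) ≤ (⌊η * n⌋₊ : ℝ) := by exact_mod_cast hj.2
          _ ≤ η * n := Nat.floor_le (by positivity)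
          _ ≤ 1 * n := by
              apply mul_le_mul_of_nonneg_right (by linarith) (by positivity)
          _ = n := one_mul _
      have : j ≤ n := by exact_mod_cast this
      omega
    have h6 : ∑ j ∈ Finset.Icc 1 ⌊η * (n : ℝ)⌋₊,
        (1 / 16 : ℝ) ^ j * (7 / 8 : ℝ) ^ (n - j) * (n.choose j : ℝ) ≤ (15 / 16 : ℝ) ^ n := by
      calc _ ≤ ∑ j ∈ Finset.range (n + 1),
            (1 / 16 : ℝ) ^ j * (7 / 8 : ℝ) ^ (n - j) * (n.choose j : ℝ) :=
            Finset.sum_le_sum_of_subset_of_nonneg hsub (fun j _ _ => by positivity)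
        _ = (1 / 16 + 7 / 8 : ℝ) ^ n := by rw [add_pow]
        _ = (15 / 16 : ℝ) ^ n := by norm_num
    calc (31 / 30 : ℝ) ^ n * ∑ j ∈ Finset.Icc 1 ⌊η * (n : ℝ)⌋₊,
        (1 / 16 : ℝ) ^ j * (7 / 8 : ℝ) ^ (n - j) * (n.choose j : ℝ)
          ≤ (31 / 30 : ℝ) ^ n * (15 / 16 : ℝ) ^ n := by gcongr
      _ = (31 / 32 : ℝ) ^ n := by rw [← mul_pow]; norm_num
  · exact tendsto_pow_atTop_nhds_zero_of_lt_one (by norm_num) (by norm_num)

/-- `1 - j r (1-r)^(j-1)` bound. -/
lemma bfun_le {j : ℕ} (hj : 1 ≤ j) {r : ℝ} (hr0 : 0 < r) (hr1 : r ≤ 1 / 2)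
    (hjr : 2 * j * r < 1) : 0 ≤ bfun j r ∧ bfun j r ≤ Real.exp (-(j * r * (1 - j * r))) := by
  have hjr0 : 0 < (j : ℝ) * r := by
    have : (0 : ℝ) < j := by exact_mod_cast hj
    positivity
  have hb : 1 - (j : ℝ) * r ≤ (1 - r) ^ (j - 1) := by
    have h1 := one_add_mul_sub_le_pow (a := 1 - r) (by linarith) (j - 1)
    have h2 : ((j - 1 : ℕ) : ℝ) = (j : ℝ) - 1 := by
      rw [Nat.cast_sub hj, Nat.cast_one]
    rw [h2] at h1
    nlinarith
  have hb1 : (1 - r) ^ (j - 1) ≤ 1 := pow_le_one₀ (by linarith) (by linarith)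
  have hb0 : 0 ≤ (1 - r) ^ (j - 1) := pow_nonneg (by linarith) _
  rw [bfun, if_pos hjr]
  constructor
  · have : (j : ℝ) * r * (1 - r) ^ (j - 1) ≤ j * r * 1 := by gcongr
    nlinarith
  · have h3 : (j : ℝ) * r * (1 - j * r) ≤ j * r * (1 - r) ^ (j - 1) := by gcongr
    have h4 := Real.add_one_le_exp (-((j : ℝ) * r * (1 - j * r)))
    linarith

lemma choose_le_pow' (n j : ℕ) : (n.choose j : ℝ) ≤ (n : ℝ) ^ j := by
  exact_mod_cast Nat.choose_le_pow n j

lemma choose_le_exp (n j : ℕ) (hj : 1 ≤ j) :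
    (n.choose j : ℝ) ≤ (Real.exp 1 * (n / j)) ^ j := by
  have h1 : (n.choose j : ℝ) ≤ (n : ℝ) ^ j / (j.factorial : ℝ) := Nat.choose_le_pow_div j n
  have h2 := Real.pow_div_factorial_le_exp (x := (j : ℝ)) (by positivity) j
  have hj0 : (0 : ℝ) < j := by exact_mod_cast hj
  have hf : (0 : ℝ) < j.factorial := by exact_mod_cast Nat.factorial_pos j
  refine h1.trans ?_
  have h3 : (Real.exp 1 * ((n : ℝ) / j)) ^ j = Real.exp j * ((n : ℝ) ^ j / (j : ℝ) ^ j) := by
    rw [mul_pow, ← Real.exp_nat_mul, mul_one, div_pow]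
  rw [h3, div_le_iff₀ hf]
  rw [div_le_iff₀ hf] at h2
  have hjj : (0 : ℝ) < (j : ℝ) ^ j := by positivity
  calc (n : ℝ) ^ j = (n : ℝ) ^ j / (j : ℝ) ^ j * (j : ℝ) ^ j := by field_simp
    _ ≤ (n : ℝ) ^ j / (j : ℝ) ^ j * (Real.exp j * j.factorial) := by gcongr
    _ = Real.exp j * ((n : ℝ) ^ j / (j : ℝ) ^ j) * j.factorial := by ring

/-- pointwise bound of the terms -/
lemma term_le {a : ℝ} (ha : 1 ≤ a) {n j : ℕ} (hj : 1 ≤ j) (hjn : 2 * j ≤ n) {r : ℝ}
    (hr0 : 0 < r) (hr1 : r ≤ 1 / 2) :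
    0 ≤ (n.choose j : ℝ) * a ^ j * (bfun j r) ^ (n - j) ∧
    (n.choose j : ℝ) * a ^ j * (bfun j r) ^ (n - j) ≤
      (Real.exp 1 * a * (n * Real.exp (-(n * r)))) ^ j +
      (2 * Real.exp 1 * a * ((n * r) ^ 2 * Real.exp (-(n * r) / 4))) ^ j +
      (n.choose j : ℝ) * a ^ j * (7 / 8 : ℝ) ^ (n - j) := by
  have ha0 : 0 < a := by linarith
  have hj0 : (0 : ℝ) < j := by exact_mod_cast hj
  have hn0 : (0 : ℝ) < n := by
    have : 0 < n := by omega
    exact_mod_cast this
  have hp1 : 0 ≤ (Real.exp 1 * a * (n * Real.exp (-(n * r)))) ^ j := by positivity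
  have hp2 : 0 ≤ (2 * Real.exp 1 * a * ((n * r) ^ 2 * Real.exp (-(n * r) / 4))) ^ j := by
    positivity
  have hp3 : 0 ≤ (n.choose j : ℝ) * a ^ j * (7 / 8 : ℝ) ^ (n - j) := by positivity
  by_cases hjr : 2 * j * r < 1
  · obtain ⟨hb0, hb1⟩ := bfun_le hj hr0 hr1 hjr
    have hnj : ((n - j : ℕ) : ℝ) = (n : ℝ) - j := by rw [Nat.cast_sub (by omega)]
    have hpow : (bfun j r) ^ (n - j) ≤ Real.exp (-(((n : ℝ) - j) * (j * r * (1 - j * r)))) := by
      calc (bfun j r) ^ (n - j) ≤ (Real.exp (-(j * r * (1 - j * r)))) ^ (n - j) :=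
            pow_le_pow_left₀ hb0 hb1 _
        _ = Real.exp (-(((n : ℝ) - j) * (j * r * (1 - j * r)))) := by
            rw [← Real.exp_nat_mul, hnj]
            congr 1
            ring
    refine ⟨by positivity, ?_⟩
    by_cases hcase : 2 * n * j * r ^ 2 ≤ 1
    · -- first range
      have hexp : -(((n : ℝ) - j) * (j * r * (1 - j * r))) ≤ j + j * (-(n * r)) := by
        have e1 : ((n : ℝ) - j) * (j * r * (1 - j * r)) =
            n * j * r - j * (j * r) - j * (n * j * r ^ 2) + j * j * j * r ^ 2 := by ring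
        have e2 : (j : ℝ) * (j * r) ≤ j * (1 / 2) := by
          apply mul_le_mul_of_nonneg_left _ hj0.le
          linarith
        have e3 : (j : ℝ) * (n * j * r ^ 2) ≤ j * (1 / 2) := by
          apply mul_le_mul_of_nonneg_left _ hj0.le
          linarith
        have e4 : 0 ≤ (j : ℝ) * j * j * r ^ 2 := by positivity
        rw [e1]
        nlinarith
      have h1 : (n.choose j : ℝ) * a ^ j * (bfun j r) ^ (n - j) ≤
          (Real.exp 1 * a * (n * Real.exp (-(n * r)))) ^ j := by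
        calc (n.choose j : ℝ) * a ^ j * (bfun j r) ^ (n - j)
            ≤ (n : ℝ) ^ j * a ^ j * Real.exp (j + j * (-(n * r))) := by
              have := choose_le_pow' n j
              have h5 := hpow.trans (Real.exp_le_exp.mpr hexp)
              gcongr
          _ = (Real.exp 1 * a * (n * Real.exp (-(n * r)))) ^ j := by
              have e1 : Real.exp (j : ℝ) = Real.exp 1 ^ j := by
                rw [← Real.exp_nat_mul, mul_one]
              rw [Real.exp_add, Real.exp_nat_mul, mul_pow, mul_pow, mul_pow, e1]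
              ring
      linarith
    · -- second range
      push Not at hcase
      have hexp : -(((n : ℝ) - j) * (j * r * (1 - j * r))) ≤ j * (-(n * r) / 4) := by
        have e1 : (n : ℝ) / 2 ≤ n - j := by
          have : (2 * j : ℝ) ≤ n := by exact_mod_cast hjn
          linarith
        have e2 : (1 : ℝ) / 2 ≤ 1 - j * r := by linarith
        have e0 : 0 ≤ (n : ℝ) - j := le_trans (by positivity) e1
        have e3 : (n : ℝ) / 2 * (j * r * (1 / 2)) ≤ ((n : ℝ) - j) * (j * r * (1 - j * r)) := by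
          gcongr
        linarith
      have hnj2 : (n : ℝ) / j ≤ 2 * (n * r) ^ 2 := by
        rw [div_le_iff₀ hj0]
        nlinarith
      have h1 : (n.choose j : ℝ) * a ^ j * (bfun j r) ^ (n - j) ≤
          (2 * Real.exp 1 * a * ((n * r) ^ 2 * Real.exp (-(n * r) / 4))) ^ j := by
        calc (n.choose j : ℝ) * a ^ j * (bfun j r) ^ (n - j)
            ≤ (Real.exp 1 * (2 * (n * r) ^ 2)) ^ j * a ^ j * Real.exp (j * (-(n * r) / 4)) := by
              have h4 := choose_le_exp n j hj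
              have h4' : (n.choose j : ℝ) ≤ (Real.exp 1 * (2 * (n * r) ^ 2)) ^ j :=
                h4.trans (by gcongr)
              have h5 := hpow.trans (Real.exp_le_exp.mpr hexp)
              gcongr
          _ = (2 * Real.exp 1 * a * ((n * r) ^ 2 * Real.exp (-(n * r) / 4))) ^ j := by
              rw [Real.exp_nat_mul, ← mul_pow, ← mul_pow]
              congr 1
              ring
      linarith
  · have hb : bfun j r = 7 / 8 := by rw [bfun, if_neg hjr]
    rw [hb]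
    exact ⟨hp3, by linarith⟩

end Job6

open Job6 in
theorem exists_eta_tendsto (a : ℝ) (ha : 1 ≤ a) : ∃ η : ℝ, 0 < η ∧ η ≤ 1 / 2 ∧
    ∀ r : ℕ → ℝ, (∀ n, 0 < r n) → (∀ n, r n ≤ 1 / 2) →
      Tendsto (fun n : ℕ => n * r n - Real.log n) atTop atTop →
      Tendsto (fun n : ℕ => ∑ j ∈ Finset.Icc 1 ⌊η * n⌋₊,
        (n.choose j : ℝ) * a ^ j * (bfun j (r n)) ^ (n - j)) atTop (𝓝 0) ∧
      Tendsto (fun n : ℕ => ∑ j ∈ Finset.Icc 1 ⌊η * n⌋₊,
        (n.choose j : ℝ) * a ^ j * (7 / 8 : ℝ) ^ (n - j)) atTop (𝓝 0) := by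
  have hl1 : 0 < Real.log (16 * a) := Real.log_pos (by linarith)
  have hl2 : 0 < Real.log (31 / 30) := Real.log_pos (by norm_num)
  set η : ℝ := min (1 / 2) (Real.log (31 / 30) / Real.log (16 * a)) with hη
  have hη0 : 0 < η := by
    rw [hη]; exact lt_min (by norm_num) (div_pos hl2 hl1)
  have hη2 : η ≤ 1 / 2 := min_le_left _ _
  have hη3 : η * Real.log (16 * a) ≤ Real.log (31 / 30) := by
    rw [← le_div_iff₀ hl1]
    exact min_le_right _ _
  have hsec := tendsto_second a ha η hη0 hη2 hη3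
  refine ⟨η, hη0, hη2, ?_⟩
  intro r hr0 hr1 hr
  refine ⟨?_, hsec⟩
  have ha0 : 0 < a := by linarith
  -- n r → ∞
  have hnr : Tendsto (fun n : ℕ => (n : ℝ) * r n) atTop atTop := by
    apply tendsto_atTop_mono' _ _ hr
    filter_upwards [eventually_ge_atTop 1] with n hn
    have : 0 ≤ Real.log n := Real.log_nonneg (by exact_mod_cast hn)
    linarith
  -- x_n → 0
  have hx : Tendsto (fun n : ℕ => Real.exp 1 * a * (n * Real.exp (-(n * r n)))) atTop (𝓝 0) := by
    have h1 : Tendsto (fun n : ℕ => (n : ℝ) * Real.exp (-(n * r n))) atTop (𝓝 0) := by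
      have h2 : Tendsto (fun n : ℕ => Real.exp (-(n * r n - Real.log n))) atTop (𝓝 0) :=
        Real.tendsto_exp_atBot.comp (tendsto_neg_atTop_atBot.comp hr)
      refine h2.congr' ?_
      filter_upwards [eventually_ge_atTop 1] with n hn
      have hn0 : (0 : ℝ) < n := by exact_mod_cast hn
      rw [neg_sub, sub_eq_add_neg, Real.exp_add, Real.exp_log hn0]
    have := h1.const_mul (Real.exp 1 * a)
    rwa [mul_zero] at this
  have hy : Tendsto (fun n : ℕ => 2 * Real.exp 1 * a *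
      ((n * r n) ^ 2 * Real.exp (-(n * r n) / 4))) atTop (𝓝 0) := by
    have h1 : Tendsto (fun t : ℝ => t ^ 2 * Real.exp (-t / 4)) atTop (𝓝 0) := by
      have h2 := (Real.tendsto_pow_mul_exp_neg_atTop_nhds_zero 2).comp
        (tendsto_id.atTop_div_const (by norm_num : (0 : ℝ) < 4))
      have h3 := h2.const_mul 16
      rw [mul_zero] at h3
      refine h3.congr ?_
      intro t
      simp only [Function.comp, id]
      rw [neg_div]
      ring
    have := (h1.comp hnr).const_mul (2 * Real.exp 1 * a)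
    rw [mul_zero] at this
    exact this
  have hX := tendsto_geom _ (fun n => by positivity) hx (fun n => ⌊η * n⌋₊)
  have hY := tendsto_geom _ (fun n => by positivity) hy (fun n => ⌊η * n⌋₊)
  have hsum := (hX.add hY).add hsec
  rw [add_zero, add_zero] at hsum
  have hjn : ∀ n j : ℕ, j ∈ Finset.Icc 1 ⌊η * (n : ℝ)⌋₊ → 1 ≤ j ∧ 2 * j ≤ n := by
    intro n j hj
    rw [Finset.mem_Icc] at hj
    refine ⟨hj.1, ?_⟩
    have : (2 * j : ℝ) ≤ n := by
      have h1 : (j : ℝ) ≤ η * n := by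
        calc (j : ℝ) ≤ (⌊η * n⌋₊ : ℝ) := by exact_mod_cast hj.2
          _ ≤ η * n := Nat.floor_le (by positivity)
      have h2 : η * (n : ℝ) ≤ 1 / 2 * n := mul_le_mul_of_nonneg_right hη2 (by positivity)
      linarith
    exact_mod_cast this
  apply squeeze_zero _ _ hsum
  · intro n
    apply Finset.sum_nonneg
    intro j hj
    exact (term_le ha (hjn n j hj).1 (hjn n j hj).2 (hr0 n) (hr1 n)).1
  · intro n
    rw [← Finset.sum_add_distrib, ← Finset.sum_add_distrib]
    apply Finset.sum_le_sum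
    intro j hj
    exact (term_le ha (hjn n j hj).1 (hjn n j hj).2 (hr0 n) (hr1 n)).2

end Pool.Agent.Lib.MP_49901c_pr
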