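import Mathlib
import Pool.Agent.Lib.MP_49901c_pr.Uniform
import Pool.Agent.Lib.MP_49901c_pr.Near

/-!
# Harmonic functions with small support
-/

namespace Pool.Agent.Lib.MP_49901c_pr

open Finset Filter Topology

section Standard

variable {J : Type*} [Fintype J] [DecidableEq J] {A : Type*} [AddCommGroup A]

/-- Random subset sum. -/
def rsum (γ : J → A) (ω : J → Bool) : A := ∑ u, if ω u then γ u else 0

theorem Ex_indicator_eq (q : ℝ) (ω₀ : J → Bool) :
    Ex q (fun ω => if ω = ω₀ then (1 : ℝ) else 0) = wt q ω₀ := by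
  unfold Ex
  simp

theorem wt_false (q : ℝ) : wt q (fun _ : J => false) = (1 - q) ^ Fintype.card J := by
  unfold wt
  simp

theorem wt_single (q : ℝ) (u : J) :
    wt q (fun v => decide (v = u)) = q * (1 - q) ^ (Fintype.card J - 1) := by
  unfold wt
  rw [← mul_prod_erase univ _ (mem_univ u)]
  congr 1
  · simp
  · rw [prod_congr rfl (g := fun _ => 1 - q), prod_const, card_erase_of_mem (mem_univ u), card_univ]
    intro v hv
    rw [mem_erase] at hv
    simp [hv.1]

open scoped Classical in
theorem Ex_rsum_zero_le {q : ℝ} (h0 : 0 ≤ q) (h1 : q ≤ 1) (γ : J → A) (hγ : ∀ u, γ u ≠ 0) :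
    Ex q (fun ω => if rsum γ ω = 0 then (1 : ℝ) else 0) ≤
      1 - Fintype.card J * q * (1 - q) ^ (Fintype.card J - 1) := by
  have hle : ∀ ω : J → Bool, (if rsum γ ω = 0 then (1 : ℝ) else 0) ≤
      1 - ∑ u, (if ω = (fun v => decide (v = u)) then (1 : ℝ) else 0) := by
    intro ω
    by_cases h : ∃ u, ω = fun v => decide (v = u)
    · obtain ⟨u, rfl⟩ := h
      have hs : rsum γ (fun v => decide (v = u)) = γ u := by
        unfold rsum
        simp
      rw [hs, if_neg (hγ u)]
      have : ∑ u', (if (fun v => decide (v = u)) = (fun v => decide (v = u')) then (1 : ℝ)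
          else 0) = 1 := by
        rw [sum_eq_single u]
        · simp
        · intro b _ hb
          rw [if_neg]
          intro h
          have := congrFun h b
          simp only [decide_true, decide_eq_true_eq] at this
          exact hb this
        · intro h
          exact absurd (mem_univ u) h
      rw [this]
      norm_num
    · push Not at h
      rw [sum_eq_zero fun u _ => if_neg (h u), sub_zero]
      split_ifs <;> norm_num
  refine (Ex_mono h0 h1 hle).trans (le_of_eq ?_)
  have h2 : Ex q (fun ω : J → Bool => 1 - ∑ u, (if ω = (fun v => decide (v = u)) then (1 : ℝ)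
      else 0)) = 1 - ∑ u : J, wt q (fun v => decide (v = u)) := by
    have h3 : Ex q (fun ω : J → Bool => 1 - ∑ u, (if ω = (fun v => decide (v = u)) then (1 : ℝ)
        else 0)) = Ex q (fun _ : J → Bool => (1 : ℝ)) -
        Ex q (fun ω : J → Bool => ∑ u, (if ω = (fun v => decide (v = u)) then (1 : ℝ)
        else 0)) := by
      unfold Ex
      rw [← sum_sub_distrib]
      apply sum_congr rfl
      intro ω _
      rw [smul_sub]
    rw [h3, Ex_const, Ex_sum]
    congr 1
    apply sum_congr rfl
    intro u _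
    exact Ex_indicator_eq q _
  rw [h2]
  simp_rw [wt_single]
  rw [sum_const, card_univ, nsmul_eq_mul]
  ring

open scoped Classical in
theorem Ex_rsum_ne_le {q : ℝ} (h0 : 0 ≤ q) (h1 : q ≤ 1) (γ : J → A) {b : A} (hb : b ≠ 0) :
    Ex q (fun ω => if rsum γ ω = b then (1 : ℝ) else 0) ≤ Fintype.card J * q := by
  have hle : ∀ ω : J → Bool, (if rsum γ ω = b then (1 : ℝ) else 0) ≤
      1 - (if ω = (fun _ => false) then (1 : ℝ) else 0) := by
    intro ω
    by_cases h : ω = fun _ => false
    · subst h
      have hs : rsum γ (fun _ => false) = 0 := by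
        unfold rsum
        simp
      rw [hs, if_neg hb.symm]
      simp
    · rw [if_neg h]
      split_ifs <;> norm_num
  refine (Ex_mono h0 h1 hle).trans ?_
  have h3 : Ex q (fun ω : J → Bool => 1 - (if ω = (fun _ => false) then (1 : ℝ) else 0)) =
      1 - (1 - q) ^ Fintype.card J := by
    have h4 : Ex q (fun ω : J → Bool => 1 - (if ω = (fun _ => false) then (1 : ℝ) else 0)) =
        Ex q (fun _ : J → Bool => (1 : ℝ)) -
        Ex q (fun ω : J → Bool => (if ω = (fun _ => false) then (1 : ℝ) else 0)) := by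
      unfold Ex
      rw [← sum_sub_distrib]
      apply sum_congr rfl
      intro ω _
      rw [smul_sub]
    rw [h4, Ex_const, Ex_indicator_eq, wt_false]
  rw [h3]
  have h5 := one_add_mul_le_pow (a := -q) (by linarith) (Fintype.card J)
  have h6 : (1 + -q) = 1 - q := by ring
  rw [h6] at h5
  linarith

open scoped Classical in
/-- When the number of variables is large, no value is taken with high probability. -/
theorem Ex_rsum_large {q : ℝ} (h0 : 0 < q) (h1 : q ≤ 1 / 2) (γ : J → A) (hγ : ∀ u, γ u ≠ 0)
    (hJ : 1 ≤ 2 * (Fintype.card J : ℝ) * q) (b : A) :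
    Ex q (fun ω => if rsum γ ω = b then (1 : ℝ) else 0) ≤ 7 / 8 := by
  set j' : ℕ := ⌊1 / (2 * q)⌋₊ with hj'
  have hj1 : (j' : ℝ) ≤ 1 / (2 * q) := Nat.floor_le (by positivity)
  have hj2 : 1 / (2 * q) < j' + 1 := Nat.lt_floor_add_one _
  have hj3 : 1 ≤ j' := by
    rw [hj', Nat.one_le_floor_iff, le_div_iff₀ (by linarith)]
    linarith
  have hj4 : j' ≤ Fintype.card J := by
    have : (j' : ℝ) ≤ Fintype.card J := by
      refine hj1.trans ?_
      rw [div_le_iff₀ (by linarith)]
      linarith
    exact_mod_cast this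
  have hjq1 : (j' : ℝ) * q ≤ 1 / 2 := by
    rw [le_div_iff₀ (by linarith)] at hj1
    linarith
  have hjq2 : 1 / 4 ≤ (j' : ℝ) * q := by
    rw [div_lt_iff₀ (by linarith)] at hj2
    have hj5 : (1 : ℝ) ≤ j' := by exact_mod_cast hj3
    rcases le_or_gt q (1 / 4) with h | h
    · nlinarith
    · nlinarith
  obtain ⟨J', -, hJ'⟩ := exists_subset_card_eq (s := (univ : Finset J)) (n := j')
    (by rw [card_univ]; exact hj4)
  -- bound for the small block
  have hcard : Fintype.card {e // e ∈ J'} = j' := by rw [Fintype.card_coe, hJ']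
  have hblock : ∀ b' : A, Ex q (fun x : {e // e ∈ J'} → Bool =>
      if rsum (fun e : {e // e ∈ J'} => γ e) x = b' then (1 : ℝ) else 0) ≤ 7 / 8 := by
    intro b'
    by_cases hb' : b' = 0
    · subst hb'
      refine (Ex_rsum_zero_le h0.le (by linarith) _ fun u => hγ _).trans ?_
      rw [hcard]
      have h5 := one_add_mul_le_pow (a := -q) (by linarith) (j' - 1)
      have h6 : (1 + -q) = 1 - q := by ring
      rw [h6, Nat.cast_sub hj3] at h5
      have h7 : (1 : ℝ) / 2 ≤ (1 - q) ^ (j' - 1) := by
        refine le_trans ?_ h5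
        push_cast
        nlinarith
      nlinarith
    · refine (Ex_rsum_ne_le h0.le (by linarith) _ hb').trans ?_
      rw [hcard]
      linarith
  -- conditioning
  have key : Ex q (fun ω : J → Bool => if rsum γ ω = b then (1 : ℝ) else 0) =
      ∑ y : {e // ¬ e ∈ J'} → Bool, wt q y * Ex q (fun x : {e // e ∈ J'} → Bool =>
        if rsum (fun e : {e // e ∈ J'} => γ e) x =
          b - rsum (fun e : {e // ¬ e ∈ J'} => γ e) y then (1 : ℝ) else 0) := by
    unfold Ex
    rw [← Equiv.sum_comp (Equiv.piEquivPiSubtypeProd (fun e => e ∈ J') (fun _ => Bool)).symm,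
      Fintype.sum_prod_type, sum_comm]
    apply sum_congr rfl
    intro y _
    rw [mul_sum]
    apply sum_congr rfl
    intro x _
    have e0 : wt q ((Equiv.piEquivPiSubtypeProd (fun e => e ∈ J') (fun _ => Bool)).symm (x, y)) =
        wt q (fun e : {e // e ∈ J'} => (Equiv.piEquivPiSubtypeProd (fun e => e ∈ J')
          (fun _ => Bool)).symm (x, y) e) *
        wt q (fun e : {e // ¬ e ∈ J'} => (Equiv.piEquivPiSubtypeProd (fun e => e ∈ J')
          (fun _ => Bool)).symm (x, y) e) := by
      refine (wt_piEquiv q (fun e => e ∈ J') _).trans ?_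
      congr
      exact Subsingleton.elim _ _
    rw [e0]
    have e1 : wt q (fun e : {e // e ∈ J'} => (Equiv.piEquivPiSubtypeProd (fun e => e ∈ J')
        (fun _ => Bool)).symm (x, y) e) = wt q x := by
      congr 1
      funext e
      simp [Equiv.piEquivPiSubtypeProd]
    have e2 : wt q (fun e : {e // ¬ e ∈ J'} => (Equiv.piEquivPiSubtypeProd (fun e => e ∈ J')
        (fun _ => Bool)).symm (x, y) e) = wt q y := by
      congr 1
      funext e
      simp [Equiv.piEquivPiSubtypeProd, e.2]
    rw [e1, e2]
    have e3 : rsum γ ((Equiv.piEquivPiSubtypeProd (fun e => e ∈ J')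
        (fun _ => Bool)).symm (x, y)) = rsum (fun e : {e // e ∈ J'} => γ e) x +
        rsum (fun e : {e // ¬ e ∈ J'} => γ e) y := by
      unfold rsum
      have e31 : ∀ F : J → A, ∑ u, F u = ∑ u : {e // e ∈ J'}, F u +
          ∑ u : {e // ¬ e ∈ J'}, F u := by
        intro F
        refine (Fintype.sum_subtype_add_sum_subtype (fun e => e ∈ J') F).symm.trans ?_
        congr
        exact Subsingleton.elim _ _
      rw [e31]
      congr 1
      · apply sum_congr rfl
        intro e _
        simp [Equiv.piEquivPiSubtypeProd]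
      · apply sum_congr rfl
        intro e _
        simp [Equiv.piEquivPiSubtypeProd, e.2]
    simp only [e3]
    have e4 : rsum (fun e : {e // e ∈ J'} => γ e) x + rsum (fun e : {e // ¬ e ∈ J'} => γ e) y = b ↔
        rsum (fun e : {e // e ∈ J'} => γ e) x = b - rsum (fun e : {e // ¬ e ∈ J'} => γ e) y :=
      eq_sub_iff_add_eq.symm
    simp only [e4, smul_eq_mul]
    ring
  rw [key]
  calc _ ≤ ∑ y : {e // ¬ e ∈ J'} → Bool, wt q y * (7 / 8) := by
        apply sum_le_sum
        intro y _
        exact mul_le_mul_of_nonneg_left (hblock _) (wt_nonneg h0.le (by linarith) y)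
    _ = 7 / 8 := by rw [← sum_mul, sum_wt, one_mul]

theorem wt_not (q : ℝ) (ω : J → Bool) : wt (1 - q) (fun u => !(ω u)) = wt q ω := by
  unfold wt
  apply prod_congr rfl
  intro u _
  cases h : ω u <;> simp [h]

open scoped Classical in
theorem Ex_rsum_not (q : ℝ) (γ : J → A) (b : A) :
    Ex q (fun ω => if rsum γ ω = b then (1 : ℝ) else 0) =
      Ex (1 - q) (fun ω => if rsum γ ω = (∑ u, γ u) - b then (1 : ℝ) else 0) := by
  unfold Ex
  have e : (J → Bool) ≃ (J → Bool) := Equiv.arrowCongr (Equiv.refl J) Equiv.boolNot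
  rw [← Equiv.sum_comp (Equiv.arrowCongr (Equiv.refl J) Equiv.boolNot)
    (fun ω => wt (1 - q) ω • (if rsum γ ω = (∑ u, γ u) - b then (1 : ℝ) else 0))]
  apply sum_congr rfl
  intro ω _
  have h1 : (Equiv.arrowCongr (Equiv.refl J) Equiv.boolNot) ω = fun u => !(ω u) := rfl
  rw [h1, wt_not]
  congr 1
  have h2 : rsum γ (fun u => !(ω u)) = (∑ u, γ u) - rsum γ ω := by
    unfold rsum
    rw [← sum_sub_distrib]
    apply sum_congr rfl
    intro u _
    cases h : ω u <;> simp [h]
  rw [h2]
  have h3 : ((∑ u, γ u) - rsum γ ω = (∑ u, γ u) - b) ↔ rsum γ ω = b := by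
    constructor
    · intro h
      exact sub_right_injective h
    · intro h
      rw [h]
  simp only [h3]

open scoped Classical in
theorem Ex_rsum_le_bfun {q : ℝ} (h0 : 0 < q) (h1 : q ≤ 1 / 2) (γ : J → A) (hγ : ∀ u, γ u ≠ 0)
    (b : A) : Ex q (fun ω => if rsum γ ω = b then (1 : ℝ) else 0) ≤
      max (bfun (Fintype.card J) q) (7 / 8) := by
  by_cases hJ : 2 * (Fintype.card J : ℝ) * q < 1
  · by_cases hb : b = 0
    · subst hb
      refine (Ex_rsum_zero_le h0.le (by linarith) γ hγ).trans ?_
      refine le_trans (le_of_eq ?_) (le_max_left _ _)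
      unfold bfun
      rw [if_pos hJ]
    · refine (Ex_rsum_ne_le h0.le (by linarith) γ hb).trans ?_
      refine le_trans ?_ (le_max_right _ _)
      linarith
  · exact (Ex_rsum_large h0 h1 γ hγ (by linarith) b).trans (le_max_right _ _)

open scoped Classical in
theorem Ex_rsum_zero_le_bfun {q : ℝ} (h0 : 0 < q) (h1 : q < 1) (γ : J → A) (hγ : ∀ u, γ u ≠ 0) :
    Ex q (fun ω => if rsum γ ω = 0 then (1 : ℝ) else 0) ≤
      max (bfun (Fintype.card J) (min q (1 - q))) (7 / 8) := by
  rcases le_total q (1 - q) with h | h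
  · rw [min_eq_left h]
    exact Ex_rsum_le_bfun h0 (by linarith) γ hγ 0
  · rw [min_eq_right h, Ex_rsum_not]
    exact Ex_rsum_le_bfun (by linarith) (by linarith) γ hγ _

end Standard

section Graph

variable {n : ℕ} {A : Type*} [AddCommGroup A]

/-- The pair formed by two distinct vertices. -/
def mkPair {n : ℕ} (v u : Fin n) (h : v ≠ u) : Pr n :=
  if h' : v < u then ⟨(v, u), h'⟩ else ⟨(u, v), lt_of_le_of_ne (not_lt.mp h') h.symm⟩

theorem adjB_mkPair (ω : Pr n → Bool) (v u : Fin n) (h : v ≠ u) :
    adjB ω v u = ω (mkPair v u h) := by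
  unfold adjB mkPair
  rcases lt_or_gt_of_ne h with h' | h'
  · rw [dif_pos h', dif_pos h']
  · rw [dif_neg (not_lt.mpr h'.le), dif_pos h', dif_neg (not_lt.mpr h'.le)]

theorem mkPair_mem (v u : Fin n) (h : v ≠ u) :
    ((mkPair v u h).1.1 = v ∧ (mkPair v u h).1.2 = u) ∨
      ((mkPair v u h).1.1 = u ∧ (mkPair v u h).1.2 = v) := by
  unfold mkPair
  split_ifs
  · exact Or.inl ⟨rfl, rfl⟩
  · exact Or.inr ⟨rfl, rfl⟩

open scoped Classical in
/-- The probability that a given function is harmonic. -/
theorem Ex_lap_le {q : ℝ} (h0 : 0 < q) (h1 : q < 1) (γ : Fin n → A) {j : ℕ}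
    (hj : (univ.filter fun i => γ i ≠ 0).card = j) :
    Ex q (fun ω : Pr n → Bool => if ∀ i, lap ω γ i = 0 then (1 : ℝ) else 0) ≤
      (max (bfun j (min q (1 - q))) (7 / 8)) ^ (n - j) := by
  set J : Finset (Fin n) := univ.filter fun i => γ i ≠ 0 with hJdef
  have hmem : ∀ i, i ∈ J ↔ γ i ≠ 0 := by
    intro i
    rw [hJdef, mem_filter]
    simp
  set V := {v : Fin n // v ∉ J} with hV
  have hne : ∀ (v : V) (u : {u // u ∈ J}), v.1 ≠ u.1 := by
    intro v u h
    exact v.2 (h ▸ u.2)
  set f : V → (Pr n → Bool) → ℝ := fun v ω =>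
    if rsum (fun u : {u // u ∈ J} => γ u) (fun u => ω (mkPair v.1 u.1 (hne v u))) = 0 then
      1 else 0 with hf
  set B : V → Set (Pr n) := fun v => {e | ∃ u : {u // u ∈ J}, e = mkPair v.1 u.1 (hne v u)}
    with hB
  have hdisj : ∀ v w : V, v ≠ w → Disjoint (B v) (B w) := by
    intro v w hvw
    rw [Set.disjoint_left]
    rintro e ⟨u, rfl⟩ ⟨u', hu'⟩
    have h2 := mkPair_mem v.1 u.1 (hne v u)
    have h3 := mkPair_mem w.1 u'.1 (hne w u')
    rw [← hu'] at h3
    rcases h2 with ⟨h4, h5⟩ | ⟨h4, h5⟩ <;> rcases h3 with ⟨h6, h7⟩ | ⟨h6, h7⟩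
    · exact hvw (Subtype.ext (h4.symm.trans h6))
    · exact hne v u' (h4.symm.trans h6)
    · exact hne w u (h6.symm.trans h4)
    · exact hvw (Subtype.ext (h5.symm.trans h7))
  have hdep : ∀ v : V, DependsOn (f v) (B v) := by
    intro v x y hxy
    simp only [hf]
    have : (fun u : {u // u ∈ J} => x (mkPair v.1 u.1 (hne v u))) =
        fun u : {u // u ∈ J} => y (mkPair v.1 u.1 (hne v u)) := by
      funext u
      exact hxy _ ⟨u, rfl⟩
    rw [this]
  have hle : ∀ ω : Pr n → Bool, (if ∀ i, lap ω γ i = 0 then (1 : ℝ) else 0) ≤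
      ∏ v : V, f v ω := by
    intro ω
    split_ifs with h
    · apply le_of_eq
      symm
      apply prod_eq_one
      intro v _
      simp only [hf]
      rw [if_pos]
      have h2 := h v.1
      unfold lap at h2
      have h3 : γ v.1 = 0 := by
        have h31 := v.2
        by_contra h32
        exact h31 ((hmem _).mpr h32)
      have h4 : ∑ j, (if adjB ω v.1 j then γ v.1 - γ j else 0) =
          -∑ u : {u // u ∈ J}, (if ω (mkPair v.1 u.1 (hne v u)) then γ u else 0) := by
        have h5 : ∀ j, (if adjB ω v.1 j then γ v.1 - γ j else 0) =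
            -(if adjB ω v.1 j then γ j else 0) := by
          intro j
          rw [h3]
          split_ifs <;> simp
        rw [sum_congr rfl fun j _ => h5 j, sum_neg_distrib]
        congr 1
        rw [← sum_subset (subset_univ J)]
        · rw [← sum_coe_sort J]
          apply sum_congr rfl
          intro u _
          rw [adjB_mkPair ω v.1 u.1 (hne v u)]
        · intro u _ hu
          have : γ u = 0 := by
            by_contra h32
            exact hu ((hmem _).mpr h32)
          rw [this]
          simp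
      rw [h4, neg_eq_zero] at h2
      exact h2
    · apply prod_nonneg
      intro v _
      simp only [hf]
      split_ifs <;> norm_num
  refine (Ex_mono h0.le h1.le hle).trans ?_
  rw [Ex_prod_of_dependsOn q B hdisj f hdep univ]
  have hE : ∀ v : V, Ex q (f v) ≤ max (bfun j (min q (1 - q))) (7 / 8) := by
    intro v
    have hinj : Function.Injective (fun u : {u // u ∈ J} => mkPair v.1 u.1 (hne v u)) := by
      intro u u' huu
      have h2 := mkPair_mem v.1 u.1 (hne v u)
      have h3 := mkPair_mem v.1 u'.1 (hne v u')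
      simp only at huu
      rw [← huu] at h3
      rcases h2 with ⟨h4, h5⟩ | ⟨h4, h5⟩ <;> rcases h3 with ⟨h6, h7⟩ | ⟨h6, h7⟩
      · exact Subtype.ext (h5.symm.trans h7)
      · exact absurd (h4.symm.trans h6) (hne v u')
      · exact absurd (h6.symm.trans h4) (hne v u)
      · exact Subtype.ext (h4.symm.trans h6)
    have h2 := Ex_comp_injective q (fun u : {u // u ∈ J} => mkPair v.1 u.1 (hne v u)) hinj
      (fun x : {u // u ∈ J} → Bool =>
        if rsum (fun u : {u // u ∈ J} => γ u) x = 0 then (1 : ℝ) else 0)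
    have h3 : Ex q (f v) = Ex q (fun x : {u // u ∈ J} → Bool =>
        if rsum (fun u : {u // u ∈ J} => γ u) x = 0 then (1 : ℝ) else 0) := by
      rw [← h2]
    rw [h3]
    refine (Ex_rsum_zero_le_bfun h0 h1 _ ?_).trans (le_of_eq ?_)
    · intro u
      exact (hmem _).mp u.2
    · rw [Fintype.card_coe, hj]
  calc ∏ v : V, Ex q (f v) ≤ ∏ _v : V, max (bfun j (min q (1 - q))) (7 / 8) := by
        apply Finset.prod_le_prod
        · intro v _
          apply Ex_nonneg h0.le h1.le
          intro ω
          simp only [hf]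
          split_ifs <;> norm_num
        · intro v _
          exact hE v
    _ = (max (bfun j (min q (1 - q))) (7 / 8)) ^ (n - j) := by
        rw [prod_const, card_univ]
        congr 1
        have hVc := Fintype.card_subtype_compl (fun v : Fin n => v ∈ J)
        rw [Fintype.card_fin, Fintype.card_coe, hj] at hVc
        rw [← hVc]

open scoped Classical in
/-- The number of functions with given support size. -/
theorem card_support_le [Fintype A] (j : ℕ) :
    (univ.filter fun γ : Fin n → A => (univ.filter fun i => γ i ≠ 0).card = j).card ≤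
      n.choose j * Fintype.card A ^ j := by
  rw [card_eq_sum_card_fiberwise (f := fun γ : Fin n → A => univ.filter fun i => γ i ≠ 0)
    (t := powersetCard j (univ : Finset (Fin n)))]
  · calc _ ≤ ∑ _s ∈ powersetCard j (univ : Finset (Fin n)), Fintype.card A ^ j := by
          apply sum_le_sum
          intro s hs
          rw [mem_powersetCard] at hs
          have h1 : Fintype.card (s → A) = Fintype.card A ^ j := by
            rw [Fintype.card_fun, Fintype.card_coe, hs.2]
          rw [← h1, ← card_univ]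
          apply card_le_card_of_injOn (fun γ => fun u : s => γ u) (fun _ _ => mem_coe.mpr (mem_univ _))
          intro γ hγ γ' hγ' h
          rw [mem_coe, mem_filter] at hγ hγ'
          funext i
          by_cases hi : i ∈ s
          · exact congrFun h ⟨i, hi⟩
          · have h2 : γ i = 0 := by
              by_contra hcon
              apply hi
              rw [← hγ.2]
              simp [hcon]
            have h3 : γ' i = 0 := by
              by_contra hcon
              apply hi
              rw [← hγ'.2]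
              simp [hcon]
            rw [h2, h3]
      _ = _ := by rw [sum_const, card_powersetCard, card_univ, Fintype.card_fin, smul_eq_mul]
  · intro γ hγ
    rw [mem_coe, mem_filter] at hγ
    rw [mem_coe, mem_powersetCard]
    exact ⟨subset_univ _, hγ.2⟩

theorem smallSum_le [Fintype A] {q : ℝ} (h0 : 0 < q) (h1 : q < 1) (K : ℕ) :
    smallSum q n A K ≤ ∑ j ∈ Icc 1 K, ((n.choose j : ℝ) * (Fintype.card A : ℝ) ^ j *
      (bfun j (min q (1 - q))) ^ (n - j) +
      (n.choose j : ℝ) * (Fintype.card A : ℝ) ^ j * (7 / 8 : ℝ) ^ (n - j)) := by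
  classical
  have hbpos : ∀ j : ℕ, 0 < bfun j (min q (1 - q)) := by
    intro j
    have hr0 : 0 < min q (1 - q) := lt_min h0 (by linarith)
    have hr1 : min q (1 - q) ≤ 1 := (min_le_left _ _).trans h1.le
    unfold bfun
    split_ifs with h
    · have h2 : (1 - min q (1 - q)) ^ (j - 1) ≤ 1 := pow_le_one₀ (by linarith) (by linarith)
      have h3 : 0 ≤ (j : ℝ) * min q (1 - q) := by positivity
      have h4 : (j : ℝ) * min q (1 - q) * (1 - min q (1 - q)) ^ (j - 1) ≤
          (j : ℝ) * min q (1 - q) * 1 := mul_le_mul_of_nonneg_left h2 h3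
      linarith
    · norm_num
  unfold smallSum
  have h2 : ∀ γ : Fin n → A, (if γ ≠ 0 ∧ (univ.filter fun i => γ i ≠ 0).card ≤ K then
      Ex q (fun ω : Pr n → Bool => if ∀ i, lap ω γ i = 0 then (1 : ℝ) else 0) else 0) ≤
      ∑ j ∈ Icc 1 K, if (univ.filter fun i => γ i ≠ 0).card = j then
        (max (bfun j (min q (1 - q))) (7 / 8)) ^ (n - j) else 0 := by
    intro γ
    have hnn : ∀ j ∈ Icc 1 K, 0 ≤ (if (univ.filter fun i => γ i ≠ 0).card = j then
        (max (bfun j (min q (1 - q))) (7 / 8)) ^ (n - j) else 0) := by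
      intro j _
      split_ifs
      · exact pow_nonneg ((hbpos j).le.trans (le_max_left _ _)) _
      · exact le_rfl
    split_ifs with h
    · have h3 : 1 ≤ (univ.filter fun i => γ i ≠ 0).card := by
        rw [Nat.one_le_iff_ne_zero, Ne, card_eq_zero, filter_eq_empty_iff]
        intro h4
        apply h.1
        funext i
        have := h4 (mem_univ i)
        push Not at this
        exact this
      refine le_trans ?_ (single_le_sum hnn (mem_Icc.mpr ⟨h3, h.2⟩))
      rw [if_pos rfl]
      exact Ex_lap_le h0 h1 γ rfl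
    · exact sum_nonneg hnn
  refine (sum_le_sum fun γ _ => h2 γ).trans ?_
  rw [sum_comm]
  apply sum_le_sum
  intro j _
  rw [← sum_filter, sum_const, nsmul_eq_mul]
  have h4 := card_support_le (n := n) (A := A) j
  have h5 : (((univ.filter fun γ : Fin n → A => (univ.filter fun i => γ i ≠ 0).card = j).card :
      ℕ) : ℝ) ≤ (n.choose j : ℝ) * (Fintype.card A : ℝ) ^ j := by exact_mod_cast h4
  have h6 : (max (bfun j (min q (1 - q))) (7 / 8)) ^ (n - j) ≤
      (bfun j (min q (1 - q))) ^ (n - j) + (7 / 8 : ℝ) ^ (n - j) := by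
    have h7 : 0 ≤ (bfun j (min q (1 - q))) ^ (n - j) := pow_nonneg (hbpos j).le _
    have h8 : (0 : ℝ) ≤ (7 / 8 : ℝ) ^ (n - j) := by positivity
    rcases max_choice (bfun j (min q (1 - q))) (7 / 8) with h | h <;> rw [h] <;> linarith
  calc _ ≤ (n.choose j : ℝ) * (Fintype.card A : ℝ) ^ j *
        (max (bfun j (min q (1 - q))) (7 / 8)) ^ (n - j) :=
        mul_le_mul_of_nonneg_right h5 (pow_nonneg ((hbpos j).le.trans (le_max_left _ _)) _)
    _ ≤ (n.choose j : ℝ) * (Fintype.card A : ℝ) ^ j *
        ((bfun j (min q (1 - q))) ^ (n - j) + (7 / 8 : ℝ) ^ (n - j)) :=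
        mul_le_mul_of_nonneg_left h6 (by positivity)
    _ = _ := by ring

end Graph

end Pool.Agent.Lib.MP_49901c_pr
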