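import Mathlib
import Pool.Agent.Lib.MP_49901c_pr.Asymp
import Pool.Agent.Lib.MP_49901c_pr.SmallSum
import Pool.Agent.Lib.MP_49901c_pr.Job6
import Pool.Agent.Lib.MP_49901c_pr.DualForm
import Pool.Agent.Lib.MP_49901c_pr.GraphLink

/-!
# Moments of the sandpile group of the random graph
-/

namespace Pool.Agent.Lib.MP_49901c_pr

open Finset Filter Topology

theorem bfun_nonneg {r : ℝ} (h0 : 0 ≤ r) (h1 : r ≤ 1) (j : ℕ) : 0 ≤ bfun j r := by
  unfold bfun
  split_ifs with h
  · have h2 : (1 - r) ^ (j - 1) ≤ 1 := pow_le_one₀ (by linarith) (by linarith)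
    have h3 : 0 ≤ (j : ℝ) * r := by positivity
    have h4 : (j : ℝ) * r * (1 - r) ^ (j - 1) ≤ (j : ℝ) * r * 1 := mul_le_mul_of_nonneg_left h2 h3
    linarith
  · norm_num

/-- The small support sums tend to zero when `n min(q, 1 - q) - log n → ∞`. -/
theorem exists_eta_smallSum (a : ℕ) (ha : 1 ≤ a) : ∃ η₀ : ℝ, 0 < η₀ ∧ ∀ q : ℕ → ℝ,
    (∀ n, 0 < q n) → (∀ n, q n < 1) →
    Tendsto (fun n : ℕ => n * min (q n) (1 - q n) - Real.log n) atTop atTop →
    ∀ (A : Type) [AddCommGroup A] [Fintype A], Fintype.card A ≤ a → ∀ η : ℝ, 0 < η → η ≤ η₀ →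
      Tendsto (fun n : ℕ => smallSum (q n) n A ⌊η * n⌋₊) atTop (𝓝 0) := by
  obtain ⟨η₀, h1, -, h3⟩ := exists_eta_tendsto (a : ℝ) (by exact_mod_cast ha)
  refine ⟨η₀, h1, fun q hq0 hq1 hlim A _ _ hA η hη hη' => ?_⟩
  have hr0 : ∀ n, 0 < min (q n) (1 - q n) := fun n => lt_min (hq0 n) (by linarith [hq1 n])
  have hr1 : ∀ n, min (q n) (1 - q n) ≤ 1 / 2 := by
    intro n
    rcases le_total (q n) (1 - q n) with h | h
    · rw [min_eq_left h]; linarith
    · rw [min_eq_right h]; linarith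
  obtain ⟨h4, h5⟩ := h3 (fun n => min (q n) (1 - q n)) hr0 hr1 hlim
  have h6 := h4.add h5
  rw [add_zero] at h6
  refine squeeze_zero (fun n => smallSum_nonneg (hq0 n).le (hq1 n).le n A _) (fun n => ?_) h6
  refine (smallSum_le (hq0 n) (hq1 n) _).trans ?_
  rw [← sum_add_distrib]
  have hAr : (Fintype.card A : ℝ) ≤ a := by exact_mod_cast hA
  have hb : ∀ j : ℕ, 0 ≤ bfun j (min (q n) (1 - q n)) := fun j =>
    bfun_nonneg (hr0 n).le ((hr1 n).trans (by norm_num)) j
  calc _ ≤ ∑ j ∈ Icc 1 ⌊η * n⌋₊, ((n.choose j : ℝ) * (a : ℝ) ^ j *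
      (bfun j (min (q n) (1 - q n))) ^ (n - j) +
      (n.choose j : ℝ) * (a : ℝ) ^ j * (7 / 8 : ℝ) ^ (n - j)) := by
        apply sum_le_sum
        intro j _
        have h7 : (Fintype.card A : ℝ) ^ j ≤ (a : ℝ) ^ j :=
          pow_le_pow_left₀ (Nat.cast_nonneg _) hAr j
        have h8 := pow_nonneg (hb j) (n - j)
        gcongr
    _ ≤ _ := by
        apply sum_le_sum_of_subset_of_nonneg
        · apply Icc_subset_Icc_right
          apply Nat.floor_le_floor
          exact mul_le_mul_of_nonneg_right hη' (Nat.cast_nonneg n)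
        · intro j _ _
          have h8 := pow_nonneg (hb j) (n - j)
          positivity

theorem tendsto_mul_of_log {q : ℕ → ℝ} (hq0 : ∀ n, 0 < q n) (hq1 : ∀ n, q n < 1)
    (hlim : Tendsto (fun n : ℕ => n * min (q n) (1 - q n) - Real.log n) atTop atTop) :
    Tendsto (fun n : ℕ => n * (q n * (1 - q n))) atTop atTop := by
  have h1 : Tendsto (fun n : ℕ => (n * min (q n) (1 - q n) - Real.log n) * (1 / 2)) atTop atTop :=
    hlim.atTop_mul_const (by norm_num)
  refine tendsto_atTop_mono' _ ?_ h1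
  filter_upwards [eventually_ge_atTop 1] with n hn
  have hlog : 0 ≤ Real.log n := Real.log_nonneg (by exact_mod_cast hn)
  have h2 : min (q n) (1 - q n) * (1 / 2) ≤ q n * (1 - q n) := by
    rcases le_total (q n) (1 - q n) with h | h
    · rw [min_eq_left h]
      have := hq0 n
      nlinarith
    · rw [min_eq_right h]
      have := hq1 n
      nlinarith
  have h3 : (n : ℝ) * (min (q n) (1 - q n) * (1 / 2)) ≤ n * (q n * (1 - q n)) :=
    mul_le_mul_of_nonneg_left h2 (Nat.cast_nonneg n)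
  nlinarith

section

variable {p k : ℕ} (hp : p.Prime) (G : Type) [AddCommGroup G] [Finite G]
  (hG : ∀ g : G, p ^ k • g = 0)

/-- The hypothesis on the sequence `q` which is used for the upper bounds: the small support sums
tend to zero. -/
def SmallSupport (p : ℕ) (q : ℕ → ℝ) : Prop :=
  ∀ a : ℕ, 1 ≤ a → ∃ η₀ : ℝ, 0 < η₀ ∧ ∀ (A : Type) [AddCommGroup A] [Fintype A],
    Fintype.card A ≤ a → (∃ k, ∀ x : A, p ^ k • x = 0) → ∀ η : ℝ, 0 < η → η ≤ η₀ →
      Tendsto (fun n : ℕ => smallSum (q n) n A ⌊η * n⌋₊) atTop (𝓝 0)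

theorem smallSupport_of_log (p : ℕ) {q : ℕ → ℝ} (hq0 : ∀ n, 0 < q n) (hq1 : ∀ n, q n < 1)
    (hlim : Tendsto (fun n : ℕ => n * min (q n) (1 - q n) - Real.log n) atTop atTop) :
    SmallSupport p q := by
  intro a ha
  obtain ⟨η₀, h1, h2⟩ := exists_eta_smallSum a ha
  exact ⟨η₀, h1, fun A _ _ hA _ η hη hη' => h2 q hq0 hq1 hlim A hA η hη hη'⟩

theorem card_lagCoset :
    Nat.card (dualForm p k hp G hG).LagCoset = Nat.card G *
      Nat.card {U : AddSubgroup (Dual p k G × G) // (dualForm p k hp G hG).IsLag U} := by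
  classical
  have hfin : Finite (Dual p k G) := finite_dual hp
  have : Fintype (Dual p k G × G) := Fintype.ofFinite _
  set Q := dualForm p k hp G hG with hQ
  have hD : Nat.card G ^ 2 = Nat.card (Dual p k G × G) := card_dual_prod hp hG
  have h1 : ∀ U : {U : AddSubgroup (Dual p k G × G) // Q.IsLag U},
      Nat.card ((Dual p k G × G) ⧸ U.1) = Nat.card G := by
    intro U
    have h2 := U.1.card_eq_card_quotient_mul_card_addSubgroup
    rw [Q.isLag_card hD U.2, ← hD, sq] at h2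
    exact (Nat.eq_of_mul_eq_mul_right Nat.card_pos h2).symm
  have : Fintype {U : AddSubgroup (Dual p k G × G) // Q.IsLag U} := Fintype.ofFinite _
  rw [Nat.card_sigma]
  rw [Finset.sum_congr rfl fun U _ => h1 U, sum_const, card_univ, smul_eq_mul, mul_comm,
    Nat.card_eq_fintype_card (α := {U : AddSubgroup (Dual p k G × G) // Q.IsLag U})]

open scoped Classical in
include hp hG in
/-- Convergence of the moments for the random graph. -/
theorem tendsto_graph_hom {q : ℕ → ℝ} (hq0 : ∀ n, 0 ≤ q n) (hq1 : ∀ n, q n ≤ 1)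
    (hq : Tendsto (fun n : ℕ => n * (q n * (1 - q n))) atTop atTop) (hsmall : SmallSupport p q) :
    Tendsto (fun n : ℕ => Ex (q (n + 1)) (fun ω : Pr (n + 1) → Bool =>
      (Nat.card (G →+ kerM ((redLap (toGraph ω)).map (Int.castRingHom (ZMod (p ^ k))))) : ℝ)))
      atTop (𝓝 (Nat.card {U : AddSubgroup (Dual p k G × G) //
        (dualForm p k hp G hG).IsLag U} : ℝ)) := by
  have hfin : Finite (Dual p k G) := finite_dual hp
  have : Fintype G := Fintype.ofFinite G
  have : Fintype (Dual p k G) := Fintype.ofFinite _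
  set Q := dualForm p k hp G hG with hQ
  set D : ℕ := Nat.card G with hDdef
  have hDpos : 0 < D := Nat.card_pos
  have hD : D ^ 2 = Nat.card (Dual p k G × G) := card_dual_prod hp hG
  obtain ⟨η₀, hη₀, hη⟩ := hsmall D hDpos
  have hs : ∀ U : AddSubgroup (Dual p k G × G), Q.IsLag U → ∀ η : ℝ, 0 < η → η ≤ η₀ →
      Tendsto (fun n : ℕ => smallSum (q n) n ((Dual p k G × G) ⧸ U) ⌊η * n⌋₊) atTop (𝓝 0) := by
    intro U hU η h1 h2
    apply hη ((Dual p k G × G) ⧸ U) _ _ η h1 h2
    · rw [← Nat.card_eq_fintype_card]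
      have h3 := U.card_eq_card_quotient_mul_card_addSubgroup
      rw [Q.isLag_card hD hU, ← hD, sq] at h3
      exact (Nat.eq_of_mul_eq_mul_right hDpos h3).symm.le
    · refine ⟨k, fun x => ?_⟩
      obtain ⟨w, rfl⟩ := QuotientAddGroup.mk_surjective x
      have h4 : p ^ k • w = 0 := by
        apply Prod.ext
        · ext g
          simp only [Prod.smul_fst, AddMonoidHom.coe_smul, Pi.smul_apply, Prod.fst_zero,
            AddMonoidHom.zero_apply]
          rw [← map_nsmul, hG, map_zero]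
        · exact hG w.2
      rw [← QuotientAddGroup.mk_nsmul, h4, QuotientAddGroup.mk_zero]
  have hmain := (Q.tendsto_partition hD q hq0 hq1 hq hη₀ hs).comp (tendsto_add_atTop_nat 1)
  -- divide by `D`
  have hmain2 : Tendsto (fun n : ℕ => ((∑ c : Fin (n + 1) → Dual p k G × G,
      Q.Fc (q (n + 1)) c) / (D : ℂ) ^ (n + 1)) / D) atTop
      (𝓝 ((Fintype.card Q.LagCoset : ℂ) / D)) := hmain.div_const _
  have hlimval : ((Fintype.card Q.LagCoset : ℂ) / D) =
      ((Nat.card {U : AddSubgroup (Dual p k G × G) // Q.IsLag U} : ℝ) : ℂ) := by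
    rw [← Nat.card_eq_fintype_card, hQ, card_lagCoset hp G hG]
    push_cast
    rw [← hDdef]
    have : (D : ℂ) ≠ 0 := by exact_mod_cast hDpos.ne'
    field_simp
  rw [hlimval] at hmain2
  have hre := (Complex.continuous_re.tendsto _).comp hmain2
  simp only [Complex.ofReal_re] at hre
  refine hre.congr fun n => ?_
  simp only [Function.comp_apply]
  have hDc : (D : ℂ) ≠ 0 := by exact_mod_cast hDpos.ne'
  have key : ((∑ c : Fin (n + 1) → Dual p k G × G, Q.Fc (q (n + 1)) c) / (D : ℂ) ^ (n + 1)) / D =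
      ((Ex (q (n + 1)) (fun ω : Pr (n + 1) → Bool =>
      (Nat.card (G →+ kerM ((redLap (toGraph ω)).map (Int.castRingHom (ZMod (p ^ k))))) : ℝ)) :
        ℝ) : ℂ) := by
    have h5 : ∑ c : Fin (n + 1) → Dual p k G × G, Q.Fc (q (n + 1)) c =
        Ex (q (n + 1)) (fun ω : Pr (n + 1) → Bool =>
          ∑ c : Fin (n + 1) → Dual p k G × G, Q.chi ω c) := by
      rw [Ex_sum]
      exact sum_congr rfl fun c _ => (Q.Ex_chi _ c).symm
    have h6 : ∀ ω : Pr (n + 1) → Bool, ∑ c : Fin (n + 1) → Dual p k G × G, Q.chi ω c =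
        ((Nat.card (G →+ kerM ((redLap (toGraph ω)).map (Int.castRingHom (ZMod (p ^ k))))) : ℝ) :
          ℂ) * ((D : ℂ) * (D : ℂ) ^ (n + 1)) := by
      intro ω
      rw [← card_harmonic hp hG ω, ← card_hom_kerM ω, card_dual hp hG]
      push_cast
      ring
    rw [h5]
    simp_rw [h6]
    unfold Ex
    rw [Complex.ofReal_sum, sum_div, sum_div]
    apply sum_congr rfl
    intro ω _
    rw [smul_eq_mul, Complex.real_smul]
    push_cast
    field_simp
  rw [key, Complex.ofReal_re]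

end

end Pool.Agent.Lib.MP_49901c_pr
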