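import Mathlib
import Pool.Agent.Lib.MP_49901c_pr.Defs
import Pool.Agent.Lib.MP_49901c_pr.Uniform
import Pool.Agent.Lib.MP_49901c_pr.Duality

/-!
# Finitely generated abelian groups and their `ZMod (p ^ k)`-duals
-/

namespace Pool.Agent.Lib.MP_49901c_pr

namespace Job2

theorem finite_of_smul {X : Type*} [AddCommGroup X] [Module.Finite ℤ X] {m : ℤ} (hm : m ≠ 0)
    (h : ∀ x : X, m • x = 0) : Finite X :=
  Module.finite_of_fg_torsion X fun x => ⟨⟨m, mem_nonZeroDivisors_of_ne_zero hm⟩, h x⟩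

theorem nakayama {p k : ℕ} (hp : p.Prime) (hk : 1 ≤ k) {X : Type*} [AddCommGroup X]
    [Module.Finite ℤ X] (h : ∀ φ : X →+ ZMod (p ^ k), ∀ x, p ^ (k - 1) • φ x = 0) :
    ∃ r : ℤ, IsCoprime r (p : ℤ) ∧ ∀ x : X, (r * (p : ℤ) ^ (k - 1)) • x = 0 := by
  have hp0 : (p : ℤ) ≠ 0 := by exact_mod_cast hp.ne_zero
  set M : Submodule ℤ X := LinearMap.range (LinearMap.lsmul ℤ X ((p : ℤ) ^ k)) with hM
  have hQk : ∀ g : X ⧸ M, ((p : ℤ) ^ k) • g = 0 := by
    intro g
    obtain ⟨x, rfl⟩ := M.mkQ_surjective g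
    rw [← map_smul, Submodule.mkQ_apply, Submodule.Quotient.mk_eq_zero]
    exact ⟨x, rfl⟩
  have hQ : Finite (X ⧸ M) := finite_of_smul (pow_ne_zero k hp0) hQk
  have hmem : ∀ x : X, ((p : ℤ) ^ (k - 1)) • x ∈ M := by
    intro x
    by_contra hx
    have hx' : M.mkQ (((p : ℤ) ^ (k - 1)) • x) ≠ 0 := by
      rw [Submodule.mkQ_apply]
      intro h0
      exact hx ((Submodule.Quotient.mk_eq_zero M).1 h0)
    obtain ⟨φ, hφ⟩ := exists_dual_ne_zero hp (X ⧸ M) (k := k) (fun g => by
      have := hQk g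
      rw [← Nat.cast_pow, natCast_zsmul] at this
      exact this) _ hx'
    apply hφ
    have h1 := h (φ.comp M.mkQ.toAddMonoidHom) x
    rw [← map_nsmul] at h1
    have h2 : ((p : ℤ) ^ (k - 1)) • x = p ^ (k - 1) • x := by
      rw [← Nat.cast_pow, natCast_zsmul]
    rw [h2]
    exact h1
  set N : Submodule ℤ X := LinearMap.range (LinearMap.lsmul ℤ X ((p : ℤ) ^ (k - 1))) with hN
  have hNfg : N.FG := IsNoetherian.noetherian N
  have hle : N ≤ Ideal.span {(p : ℤ)} • N := by
    rintro _ ⟨x, rfl⟩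
    obtain ⟨y, hy⟩ := hmem x
    have e : ((p : ℤ) ^ (k - 1)) • x = (p : ℤ) • (((p : ℤ) ^ (k - 1)) • y) := by
      rw [smul_smul, ← pow_succ']
      have : k - 1 + 1 = k := by omega
      rw [this]; exact hy.symm
    rw [LinearMap.lsmul_apply, e]
    exact Submodule.smul_mem_smul (Ideal.mem_span_singleton_self _) ⟨y, rfl⟩
  obtain ⟨r, hr1, hr2⟩ :=
    Submodule.exists_sub_one_mem_and_smul_eq_zero_of_fg_of_le_smul _ N hNfg hle
  rw [Ideal.mem_span_singleton] at hr1
  obtain ⟨c, hc⟩ := hr1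
  refine ⟨r, ⟨1, -c, by linear_combination hc⟩, fun x => ?_⟩
  rw [mul_smul]
  exact hr2 _ ⟨x, rfl⟩

theorem primaryPart_smul {p : ℕ} {X : Type*} [AddCommGroup X] {r : ℤ}
    (hr : IsCoprime r (p : ℤ)) {e : ℕ} (h : ∀ x : X, (r * (p : ℤ) ^ e) • x = 0) {x : X}
    (hx : x ∈ primaryPart p X) : p ^ e • x = 0 := by
  obtain ⟨m, hm⟩ := hx
  have h1 : IsCoprime r ((p : ℤ) ^ m) := hr.pow_right
  obtain ⟨a, b, hab⟩ := h1
  have h2 : r • ((p : ℤ) ^ e • x) = 0 := by rw [smul_smul]; exact h x
  have h3 : ((p : ℤ) ^ m) • ((p : ℤ) ^ e • x) = 0 := by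
    rw [smul_comm]
    have : ((p : ℤ) ^ m) • x = 0 := by
      rw [← Nat.cast_pow, natCast_zsmul]; exact hm
    rw [this, smul_zero]
  have h4 : (p : ℤ) ^ e • x = 0 := by
    calc (p : ℤ) ^ e • x = (1 : ℤ) • ((p : ℤ) ^ e • x) := (one_smul _ _).symm
      _ = a • (r • ((p : ℤ) ^ e • x)) + b • (((p : ℤ) ^ m) • ((p : ℤ) ^ e • x)) := by
          rw [← hab, add_smul, mul_smul, mul_smul]
      _ = 0 := by rw [h2, h3, smul_zero, smul_zero, add_zero]
  rw [← Nat.cast_pow, natCast_zsmul] at h4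
  exact h4

theorem dual_primary {p k : ℕ} {X : Type*} [AddCommGroup X] {r : ℤ}
    (hr : IsCoprime r (p : ℤ)) {e : ℕ} (h : ∀ x : X, (r * (p : ℤ) ^ e) • x = 0) :
    Nonempty ((X →+ ZMod (p ^ k)) ≃+ (primaryPart p X →+ ZMod (p ^ k))) := by
  obtain ⟨a, b, hab⟩ := hr.pow_right (n := k)
  have hab' : (a : ZMod (p ^ k)) * (r : ZMod (p ^ k)) = 1 := by
    have := congrArg (Int.cast : ℤ → ZMod (p ^ k)) hab
    push_cast at this
    have h0 : (p : ZMod (p ^ k)) ^ k = 0 := by
      have := ZMod.natCast_self (p ^ k)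
      push_cast at this
      exact this
    rw [h0, mul_zero, add_zero] at this
    exact this
  have hmem : ∀ x : X, r • x ∈ primaryPart p X := by
    intro x
    refine ⟨e, ?_⟩
    have := h x
    rw [mul_comm, mul_smul, ← Nat.cast_pow, natCast_zsmul] at this
    exact this
  let res : (X →+ ZMod (p ^ k)) →+ (primaryPart p X →+ ZMod (p ^ k)) :=
    { toFun := fun φ => φ.comp (primaryPart p X).subtype
      map_zero' := rfl
      map_add' := fun _ _ => rfl }
  refine ⟨AddEquiv.ofBijective res ⟨?_, ?_⟩⟩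
  · rw [injective_iff_map_eq_zero]
    intro φ hφ
    ext x
    have h1 : φ (r • x) = 0 := DFunLike.congr_fun hφ ⟨r • x, hmem x⟩
    rw [map_zsmul, zsmul_eq_mul] at h1
    calc φ x = ((a : ZMod (p ^ k)) * (r : ZMod (p ^ k))) * φ x := by rw [hab', one_mul]
      _ = a * (r * φ x) := by ring
      _ = 0 := by rw [h1, mul_zero]
  · intro ψ
    refine ⟨{ toFun := fun x => (a : ZMod (p ^ k)) * ψ ⟨r • x, hmem x⟩
              map_zero' := ?_
              map_add' := ?_ }, ?_⟩
    · have : (⟨r • (0 : X), hmem 0⟩ : primaryPart p X) = 0 := Subtype.ext (smul_zero _)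
      rw [this, map_zero, mul_zero]
    · intro x y
      have : (⟨r • (x + y), hmem (x + y)⟩ : primaryPart p X) =
          ⟨r • x, hmem x⟩ + ⟨r • y, hmem y⟩ := Subtype.ext (smul_add _ _ _)
      rw [this, map_add, mul_add]
    · ext x
      show (a : ZMod (p ^ k)) * ψ ⟨r • (x : X), hmem x⟩ = ψ x
      have : (⟨r • (x : X), hmem x⟩ : primaryPart p X) = r • x := Subtype.ext rfl
      rw [this, map_zsmul, zsmul_eq_mul, ← mul_assoc, hab', one_mul]

end Job2

end Pool.Agent.Lib.MP_49901c_pr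

/-!
# The link between the critical group and the kernel of the reduced Laplacian mod `p ^ k`
-/

namespace Pool.Agent.Lib.MP_49901c_pr

namespace Job2

open Matrix

/-- homomorphisms from the cokernel of a symmetric matrix -/
theorem cokerDual {n : ℕ} (A : Matrix (Fin n) (Fin n) ℤ) (hA : A.IsSymm) (N : ℕ) :
    Nonempty ((((Fin n → ℤ) ⧸ LinearMap.range A.mulVecLin) →+ ZMod N) ≃+
      kerM (A.map (Int.castRingHom (ZMod N)))) := by
  set A' := A.map (Int.castRingHom (ZMod N)) with hA'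
  have hA's : A'ᵀ = A' := by
    rw [hA', ← Matrix.transpose_map, hA.eq]
  set M := LinearMap.range A.mulVecLin with hM
  have hlin : ∀ (φ : ((Fin n → ℤ) ⧸ M) →+ ZMod N) (v : Fin n → ℤ),
      φ (M.mkQ v) = ∑ i, (v i : ZMod N) * φ (M.mkQ (Pi.single i 1)) := by
    intro φ v
    have hv : v = ∑ i, v i • (Pi.single i (1 : ℤ) : Fin n → ℤ) := by
      ext j
      simp [Finset.sum_apply, Pi.single_apply]
    conv_lhs => rw [hv]
    rw [map_sum, map_sum]
    refine Finset.sum_congr rfl fun i _ => ?_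
    rw [map_smul, map_zsmul, zsmul_eq_mul]
  have hker : ∀ φ : ((Fin n → ℤ) ⧸ M) →+ ZMod N,
      (fun i => φ (M.mkQ (Pi.single i 1))) ∈ kerM A' := by
    intro φ
    show _ ∈ LinearMap.ker A'.mulVecLin
    rw [LinearMap.mem_ker, Matrix.mulVecLin_apply]
    ext j
    have h0 : M.mkQ (A *ᵥ (Pi.single j 1)) = 0 := by
      rw [Submodule.mkQ_apply, Submodule.Quotient.mk_eq_zero]
      exact ⟨Pi.single j 1, rfl⟩
    have h1 := hlin φ (A *ᵥ (Pi.single j 1))
    rw [h0, map_zero] at h1
    rw [Matrix.mulVec, dotProduct, Pi.zero_apply, h1]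
    refine Finset.sum_congr rfl fun i _ => ?_
    congr 1
    rw [hA', Matrix.map_apply, Matrix.mulVec_single_one, Matrix.col_apply]
    rw [← hA.apply]; rfl
  let T : (((Fin n → ℤ) ⧸ M) →+ ZMod N) →+ kerM A' :=
    { toFun := fun φ => ⟨fun i => φ (M.mkQ (Pi.single i 1)), hker φ⟩
      map_zero' := rfl
      map_add' := fun _ _ => rfl }
  refine ⟨AddEquiv.ofBijective T ⟨?_, ?_⟩⟩
  · rw [injective_iff_map_eq_zero]
    intro φ hφ
    have h1 : ∀ i, φ (M.mkQ (Pi.single i 1)) = 0 := fun i =>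
      congrFun (congrArg Subtype.val hφ) i
    ext x
    obtain ⟨v, rfl⟩ := M.mkQ_surjective x
    rw [hlin φ v]
    exact Finset.sum_eq_zero fun i _ => by rw [h1 i, mul_zero]
  · rintro ⟨f, hf⟩
    have hf' : A' *ᵥ f = 0 := by
      have : f ∈ LinearMap.ker A'.mulVecLin := hf
      rwa [LinearMap.mem_ker, Matrix.mulVecLin_apply] at this
    let ψ : (Fin n → ℤ) →+ ZMod N :=
      { toFun := fun v => ∑ i, (v i : ZMod N) * f i
        map_zero' := by simp
        map_add' := fun v w => by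
          simp only [Pi.add_apply, Int.cast_add, add_mul, Finset.sum_add_distrib] }
    have hψ : ∀ v ∈ M, ψ.toIntLinearMap v = 0 := by
      rintro _ ⟨v, rfl⟩
      show ∑ i, ((A.mulVecLin v) i : ZMod N) * f i = 0
      have e1 : ∀ i, ((A.mulVecLin v) i : ZMod N) = ∑ j, A' i j * (v j : ZMod N) := by
        intro i
        rw [Matrix.mulVecLin_apply, Matrix.mulVec, dotProduct, Int.cast_sum]
        refine Finset.sum_congr rfl fun j _ => ?_
        rw [Int.cast_mul, hA', Matrix.map_apply]; rfl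
      simp only [e1, Finset.sum_mul]
      rw [Finset.sum_comm]
      refine Finset.sum_eq_zero fun j _ => ?_
      have e2 : ∑ i, A' i j * (v j : ZMod N) * f i = (v j : ZMod N) * ∑ i, A' j i * f i := by
        rw [Finset.mul_sum]
        refine Finset.sum_congr rfl fun i _ => ?_
        have : A' i j = A' j i := congrFun (congrFun hA's j) i
        rw [this]; ring
      rw [e2]
      have e3 : ∑ i, A' j i * f i = 0 := congrFun hf' j
      rw [e3, mul_zero]
    refine ⟨(M.liftQ ψ.toIntLinearMap (fun v hv => hψ v hv)).toAddMonoidHom, ?_⟩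
    apply Subtype.ext
    ext i
    show ψ (Pi.single i 1) = f i
    show ∑ j, ((Pi.single i (1 : ℤ) : Fin n → ℤ) j : ZMod N) * f j = f i
    rw [Finset.sum_eq_single i]
    · simp
    · intro j _ hj
      rw [Pi.single_eq_of_ne hj]; simp
    · simp

section graph

open scoped Classical in
theorem redLap_isSymm {n : ℕ} (G : SimpleGraph (Fin (n + 1))) : (redLap G).IsSymm := by
  unfold redLap
  exact (G.isSymm_lapMatrix (R := ℤ)).submatrix _

open scoped Classical in
/-- the reduced Laplacian acting on a vector extended by zero -/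
theorem redLap_mulVec {n : ℕ} (G : SimpleGraph (Fin (n + 1))) {R : Type*} [CommRing R]
    (f : Fin (n + 1) → R) (hf : f (Fin.last n) = 0) (i : Fin n) :
    ((redLap G).map (Int.castRingHom R) *ᵥ (fun j => f j.castSucc)) i =
      (G.degree i.castSucc : R) * f i.castSucc - ∑ u ∈ G.neighborFinset i.castSucc, f u := by
  rw [← SimpleGraph.lapMatrix_mulVec_apply, Matrix.mulVec, Matrix.mulVec, dotProduct, dotProduct,
    Fin.sum_univ_castSucc, hf, mul_zero, add_zero]
  refine Finset.sum_congr rfl fun j _ => ?_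
  congr 1
  rw [Matrix.map_apply]
  unfold redLap
  rw [Matrix.submatrix_apply]
  simp only [SimpleGraph.lapMatrix, Matrix.sub_apply, SimpleGraph.degMatrix,
    Matrix.diagonal_apply, SimpleGraph.adjMatrix_apply]
  split_ifs <;> simp

open scoped Classical in
/-- If every element of the kernel mod `p ^ k` is killed by `p ^ (k - 1)` the graph is connected. -/
theorem connected_of_ker {p k : ℕ} (hp : p.Prime) (hk : 1 ≤ k) {n : ℕ}
    (G : SimpleGraph (Fin (n + 1)))
    (h : ∀ f ∈ kerM ((redLap G).map (Int.castRingHom (ZMod (p ^ k)))), p ^ (k - 1) • f = 0) :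
    G.Connected := by
  rw [SimpleGraph.connected_iff]
  refine ⟨?_, ⟨0⟩⟩
  by_contra hnp
  obtain ⟨w, hw⟩ : ∃ w, ¬ G.Reachable w (Fin.last n) := by
    by_contra hall
    push Not at hall
    exact hnp fun u v => (hall u).trans (hall v).symm
  set f : Fin (n + 1) → ZMod (p ^ k) := fun x => if G.Reachable w x then 1 else 0 with hf
  have hlast : f (Fin.last n) = 0 := by simp [hf, hw]
  have hmem : (fun j : Fin n => f j.castSucc) ∈
      kerM ((redLap G).map (Int.castRingHom (ZMod (p ^ k)))) := by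
    show _ ∈ LinearMap.ker _
    rw [LinearMap.mem_ker, Matrix.mulVecLin_apply]
    ext i
    rw [redLap_mulVec G f hlast i]
    have : ∑ u ∈ G.neighborFinset i.castSucc, f u =
        ∑ u ∈ G.neighborFinset i.castSucc, f i.castSucc := by
      refine Finset.sum_congr rfl fun u hu => ?_
      rw [SimpleGraph.mem_neighborFinset] at hu
      simp only [hf]
      have : G.Reachable w u ↔ G.Reachable w i.castSucc :=
        ⟨fun hr => hr.trans hu.symm.reachable, fun hr => hr.trans hu.reachable⟩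
      simp only [this]
    rw [this, Finset.sum_const, SimpleGraph.card_neighborFinset_eq_degree, nsmul_eq_mul, sub_self]
    rfl
  have h1 := h _ hmem
  have hwl : w ≠ Fin.last n := fun he => hw (he ▸ SimpleGraph.Reachable.refl _)
  obtain ⟨w', rfl⟩ := Fin.exists_castSucc_eq.2 hwl
  have h2 := congrFun h1 w'
  simp only [Pi.smul_apply, hf, SimpleGraph.Reachable.refl, if_true, Pi.zero_apply] at h2
  rw [nsmul_eq_mul, mul_one, ZMod.natCast_eq_zero_iff] at h2
  have h3 := Nat.le_of_dvd (pow_pos hp.pos _) h2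
  have h4 : p ^ (k - 1) < p ^ k := Nat.pow_lt_pow_right hp.one_lt (by omega)
  omega

open scoped Classical in
/-- For a connected graph the determinant of the reduced Laplacian is not zero. -/
theorem det_ne_zero {n : ℕ} (G : SimpleGraph (Fin (n + 1))) (hG : G.Connected) :
    (redLap G).det ≠ 0 := by
  intro hdet
  obtain ⟨v, hv, hv0⟩ := (Matrix.exists_mulVec_eq_zero_iff (M := redLap G)).2 hdet
  apply hv
  set f : Fin (n + 1) → ℝ := Fin.snoc (fun j => (v j : ℝ)) 0 with hf
  have hlast : f (Fin.last n) = 0 := by simp [hf]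
  have hcs : ∀ j : Fin n, f j.castSucc = v j := by intro j; simp [hf]
  have h1 : ∀ i : Fin n, (G.lapMatrix ℝ *ᵥ f) i.castSucc = 0 := by
    intro i
    rw [SimpleGraph.lapMatrix_mulVec_apply, ← redLap_mulVec G f hlast i]
    have h2 := congrFun hv0 i
    have h3 : ((redLap G).map (Int.castRingHom ℝ) *ᵥ (fun j => f j.castSucc)) i =
        (((redLap G) *ᵥ v) i : ℤ) := by
      rw [Matrix.mulVec, Matrix.mulVec, dotProduct, dotProduct, Int.cast_sum]
      refine Finset.sum_congr rfl fun j _ => ?_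
      rw [hcs, Matrix.map_apply, Int.cast_mul]; rfl
    rw [h3, h2]; simp
  have hsum : ∑ i, (G.lapMatrix ℝ *ᵥ f) i = 0 := by
    have e1 : ∑ i, (G.lapMatrix ℝ *ᵥ f) i = (fun _ => (1 : ℝ)) ⬝ᵥ (G.lapMatrix ℝ *ᵥ f) := by
      simp [dotProduct]
    rw [e1, Matrix.dotProduct_mulVec, ← Matrix.mulVec_transpose, (G.isSymm_lapMatrix (R := ℝ)).eq,
      SimpleGraph.lapMatrix_mulVec_const_eq_zero, zero_dotProduct]
  have h2 : (G.lapMatrix ℝ *ᵥ f) = 0 := by
    ext i
    rcases Fin.eq_castSucc_or_eq_last i with ⟨j, rfl⟩ | rfl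
    · exact h1 j
    · rw [Fin.sum_univ_castSucc] at hsum
      simp only [h1, Finset.sum_const_zero, zero_add] at hsum
      exact hsum
  rw [SimpleGraph.lapMatrix_mulVec_eq_zero_iff_forall_reachable] at h2
  ext j
  have h3 := h2 j.castSucc (Fin.last n) (hG.preconnected _ _)
  rw [hlast, hcs] at h3
  exact_mod_cast h3

end graph

end Job2

open Job2 Matrix

open scoped Classical in
theorem link {p k : ℕ} (hp : p.Prime) (hk : 1 ≤ k) (H : Type) [AddCommGroup H] [Finite H]
    (hH : ∀ h : H, p ^ (k - 1) • h = 0) {n : ℕ} (G : SimpleGraph (Fin (n + 1))) :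
    (G.Connected ∧ Nonempty (primaryPart p (CriticalGroup G) ≃+ H)) ↔
      Nonempty (kerM ((redLap G).map (Int.castRingHom (ZMod (p ^ k)))) ≃+ H) := by
  obtain ⟨e₁⟩ := cokerDual (redLap G) (redLap_isSymm G) (p ^ k)
  have hle : k - 1 ≤ k := Nat.sub_le _ _
  have hp0 : (p : ℤ) ≠ 0 := by exact_mod_cast hp.ne_zero
  -- common part
  have key : ∀ r : ℤ, IsCoprime r (p : ℤ) →
      (∀ x : CriticalGroup G, (r * (p : ℤ) ^ (k - 1)) • x = 0) →
      Nonempty (kerM ((redLap G).map (Int.castRingHom (ZMod (p ^ k)))) ≃+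
        primaryPart p (CriticalGroup G)) := by
    intro r hr hkill
    have hr0 : r ≠ 0 := by
      rintro rfl
      rw [isCoprime_zero_left] at hr
      exact hp.one_lt.ne' (by simpa using Int.isUnit_iff_natAbs_eq.1 hr)
    have hfin : Finite (CriticalGroup G) :=
      finite_of_smul (mul_ne_zero hr0 (pow_ne_zero (k - 1) hp0)) hkill
    obtain ⟨e₂⟩ := dual_primary (k := k) hr hkill
    obtain ⟨e₃⟩ := nonempty_dual_equiv (k := k) hp (primaryPart p (CriticalGroup G)) (fun g => by
      have h1 := primaryPart_smul hr hkill g.2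
      apply Subtype.ext
      show p ^ k • (g : CriticalGroup G) = 0
      have : p ^ k = p ^ (k - (k - 1)) * p ^ (k - 1) := by
        rw [← pow_add]; congr 1; omega
      rw [this, mul_smul, h1, smul_zero])
    exact ⟨e₁.symm.trans (e₂.trans e₃)⟩
  constructor
  · rintro ⟨hG, ⟨e⟩⟩
    -- finiteness
    have hdet := det_ne_zero G hG
    have hdetkill : ∀ x : CriticalGroup G, (redLap G).det • x = 0 := by
      intro x
      obtain ⟨v, rfl⟩ := (LinearMap.range (redLap G).mulVecLin).mkQ_surjective x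
      rw [← map_smul, Submodule.mkQ_apply, Submodule.Quotient.mk_eq_zero]
      refine ⟨(redLap G).adjugate *ᵥ v, ?_⟩
      rw [Matrix.mulVecLin_apply, Matrix.mulVec_mulVec, Matrix.mul_adjugate, Matrix.smul_mulVec,
        Matrix.one_mulVec]
    obtain ⟨m, r, hr, hdr⟩ : ∃ (m : ℕ) (r : ℤ), IsCoprime r (p : ℤ) ∧
        (redLap G).det = r * (p : ℤ) ^ m := by
      have hfin : FiniteMultiplicity (p : ℤ) (redLap G).det := by
        rw [Int.finiteMultiplicity_iff]
        exact ⟨by simpa using hp.one_lt.ne', hdet⟩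
      obtain ⟨r, hr, hnd⟩ := hfin.exists_eq_pow_mul_and_not_dvd
      have hpp : Prime (p : ℤ) := Nat.prime_iff_prime_int.1 hp
      refine ⟨multiplicity (p : ℤ) (redLap G).det, r,
        ((Prime.coprime_iff_not_dvd hpp).2 hnd).symm, ?_⟩
      rw [mul_comm]; exact hr
    have hkill : ∀ x : CriticalGroup G, (r * (p : ℤ) ^ (k - 1)) • x = 0 := by
      intro x
      have hmem : r • x ∈ primaryPart p (CriticalGroup G) := by
        refine ⟨m, ?_⟩
        have := hdetkill x
        rw [hdr, mul_comm, mul_smul, ← Nat.cast_pow, natCast_zsmul] at this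
        exact this
      have h1 : p ^ (k - 1) • (⟨r • x, hmem⟩ : primaryPart p (CriticalGroup G)) = 0 := by
        apply e.injective
        rw [map_nsmul, hH, map_zero]
      have h2 : p ^ (k - 1) • (r • x) = 0 := congrArg Subtype.val h1
      rw [mul_comm, mul_smul, ← Nat.cast_pow, natCast_zsmul]
      exact h2
    obtain ⟨e'⟩ := key r hr hkill
    exact ⟨e'.trans e⟩
  · rintro ⟨e⟩
    have hker : ∀ f ∈ kerM ((redLap G).map (Int.castRingHom (ZMod (p ^ k)))),
        p ^ (k - 1) • f = 0 := by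
      intro f hf
      have h1 : p ^ (k - 1) • (⟨f, hf⟩ : kerM ((redLap G).map (Int.castRingHom (ZMod (p ^ k))))) =
          0 := by
        apply e.injective
        rw [map_nsmul, hH, map_zero]
      exact congrArg Subtype.val h1
    obtain ⟨r, hr, hkill⟩ := nakayama (X := CriticalGroup G) hp hk (fun φ x => by
      have h1 : p ^ (k - 1) • e₁ φ = 0 := by
        apply Subtype.ext
        exact hker _ (e₁ φ).2
      rw [← map_nsmul] at h1
      have h2 : p ^ (k - 1) • φ = 0 := e₁.injective (by rw [h1, map_zero])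
      exact DFunLike.congr_fun h2 x)
    obtain ⟨e'⟩ := key r hr hkill
    exact ⟨connected_of_ker hp hk G hker, ⟨e'.symm.trans e⟩⟩

end Pool.Agent.Lib.MP_49901c_pr
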