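import Mathlib
import Pool.Agent.Lib.MP_49901c_pr.Uniform
import Pool.Agent.Lib.MP_49901c_pr.Duality
import Pool.Agent.Lib.MP_49901c_pr.QForm
import Pool.Agent.Lib.MP_49901c_pr.DualForm
import Pool.Agent.Lib.MP_49901c_pr.Job5a

/-!
# Job 8: moments of uniform symmetric matrices tend to the number of Lagrangian subgroups
-/

set_option autoImplicit false

namespace Pool.Agent.Lib.MP_49901c_pr

open Filter Topology

namespace Job8

open Job5

section Gen

variable {N : ℕ} [NeZero N] {n : ℕ} (G : Type*) [AddCommGroup G]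

/-- the conditions dual to the symmetry -/
def GCond (Φ : G →+ (Fin n → ZMod N)) (g : Fin n → G) : Prop :=
  (∀ i, coord G Φ i (g i) = 0) ∧ (∀ i j, coord G Φ i (g j) = - coord G Φ j (g i))

/-- pairing with a tuple -/
def psiG (g : Fin n → G) : (Fin n → (G →+ ZMod N)) →+ ZMod N :=
  AddMonoidHom.mk' (fun x => ∑ i, x i (g i)) (by
    intro x y
    simp [Finset.sum_add_distrib])

omit [NeZero N] in
theorem psiG_apply (g : Fin n → G) (x : Fin n → (G →+ ZMod N)) :
    psiG G g x = ∑ i, x i (g i) := rfl

omit [NeZero N] in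
theorem psiG_T (Φ : G →+ (Fin n → ZMod N)) (g : Fin n → G) (h : GCond G Φ g)
    (M : symSub n (ZMod N)) : psiG G g (T G Φ M) = 0 := by
  rw [psiG_apply]
  simp only [T_apply]
  refine sum_symm_alt (fun i j => M.1 i j) (fun i j => Φ (g i) j) ?_ ?_ ?_
  · intro i j
    exact (M.2.apply j i)
  · intro i
    exact h.1 i
  · intro i j
    exact h.2 j i

omit [NeZero N] in
theorem psiG_single (g : Fin n → G) (i : Fin n) (φ : G →+ ZMod N) :
    psiG G g (Pi.single i φ) = φ (g i) := by
  rw [psiG_apply, Finset.sum_eq_single i]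
  · simp
  · intro j _ hj
    simp [hj]
  · simp

/-- characters of the cokernel -/
def cokerMapG (Φ : G →+ (Fin n → ZMod N)) (g : {g : Fin n → G // GCond G Φ g}) :
    ((Fin n → (G →+ ZMod N)) ⧸ (T G Φ).range) →+ ZMod N :=
  QuotientAddGroup.lift _ (psiG G g.1) (by
    rintro _ ⟨M, rfl⟩
    exact psiG_T G Φ g.1 g.2 M)

omit [NeZero N] in
theorem cokerMapG_mk (Φ : G →+ (Fin n → ZMod N)) (g : {g : Fin n → G // GCond G Φ g})
    (x : Fin n → (G →+ ZMod N)) :
    cokerMapG G Φ g (QuotientAddGroup.mk x) = psiG G g.1 x := rfl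

theorem cokerMapG_bijective [Finite G] (hG : ∀ g : G, N • g = 0) (Φ : G →+ (Fin n → ZMod N)) :
    Function.Bijective (cokerMapG G Φ) := by
  constructor
  · intro g g' heq
    apply Subtype.ext
    funext i
    rw [← sub_eq_zero]
    apply eq_zero_of_forall G hG
    intro φ
    have := congrArg (fun χ => χ (QuotientAddGroup.mk (Pi.single i φ))) heq
    simp only [cokerMapG_mk, psiG_single] at this
    rw [map_sub, this, sub_self]
  · intro χ
    let ψ : (Fin n → (G →+ ZMod N)) →+ ZMod N := χ.comp (QuotientAddGroup.mk' _)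
    have hψT : ∀ M, ψ (T G Φ M) = 0 := by
      intro M
      have hm : T G Φ M ∈ (T G Φ).range := ⟨M, rfl⟩
      simp only [ψ, AddMonoidHom.coe_comp, Function.comp_apply, QuotientAddGroup.mk'_apply]
      rw [(QuotientAddGroup.eq_zero_iff _).2 hm, map_zero]
    have hg : ∀ i, ∃ g : G, ∀ φ : G →+ ZMod N, ψ (Pi.single i φ) = φ g := fun i =>
      exists_of_dual_dual G hG (ψ.comp (AddMonoidHom.single (fun _ : Fin n => (G →+ ZMod N)) i))
    choose g hg using hg
    have hψ : ∀ x, ψ x = ∑ i, x i (g i) := by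
      intro x
      have : x = ∑ i, Pi.single i (x i) := (Finset.univ_sum_single x).symm
      conv_lhs => rw [this]
      rw [map_sum]
      exact Finset.sum_congr rfl fun i _ => hg i (x i)
    have hψ2 : ∀ M : symSub n (ZMod N), ∑ i, ∑ j, M.1 i j * Φ (g i) j = 0 := by
      intro M
      rw [← hψT M, hψ]
      exact Finset.sum_congr rfl fun i _ => (T_apply G Φ M i (g i)).symm
    have h0 : ∀ i, coord G Φ i (g i) = 0 := by
      intro i
      have := hψ2 ⟨Matrix.single i i 1, by
        change (Matrix.single i i (1 : ZMod N)).transpose = _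
        rw [Matrix.transpose_single]⟩
      rwa [sum_single_mul (fun i j => Φ (g i) j)] at this
    have h1 : ∀ i j, coord G Φ i (g j) = - coord G Φ j (g i) := by
      intro i j
      have := hψ2 ⟨Matrix.single i j 1 + Matrix.single j i 1, by
        change (Matrix.single i j (1 : ZMod N) + Matrix.single j i 1).transpose = _
        rw [Matrix.transpose_add, Matrix.transpose_single, Matrix.transpose_single, add_comm]⟩
      simp only [Matrix.add_apply, add_mul, Finset.sum_add_distrib] at this
      rw [sum_single_mul (fun i j => Φ (g i) j), sum_single_mul (fun i j => Φ (g i) j)] at this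
      rw [coord_apply, coord_apply]
      exact eq_neg_of_add_eq_zero_right this
    refine ⟨⟨g, h0, h1⟩, ?_⟩
    apply AddMonoidHom.ext
    intro y
    induction y using QuotientAddGroup.induction_on with
    | H x => ?_
    change cokerMapG G Φ ⟨g, h0, h1⟩ (QuotientAddGroup.mk x) = χ (QuotientAddGroup.mk x)
    rw [cokerMapG_mk, psiG_apply]
    have := hψ x
    change χ (QuotientAddGroup.mk x) = _ at this
    rw [this]

theorem card_ker_T' [Finite G] (hG : ∀ g : G, N • g = 0) (Φ : G →+ (Fin n → ZMod N)) :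
    Nat.card (T G Φ).ker * Nat.card G ^ n =
      Nat.card {g : Fin n → G // GCond G Φ g} * Nat.card (symSub n (ZMod N)) := by
  have := finite_addHom G (ZMod N)
  have h1 : Nat.card (symSub n (ZMod N)) = Nat.card (T G Φ).ker * Nat.card (T G Φ).range := by
    rw [AddSubgroup.card_eq_card_quotient_mul_card_addSubgroup (T G Φ).ker, mul_comm]
    congr 1
    exact Nat.card_congr (QuotientAddGroup.quotientKerEquivRange (T G Φ)).toEquiv
  have h2 : Nat.card G ^ n =
      Nat.card ((Fin n → (G →+ ZMod N)) ⧸ (T G Φ).range) * Nat.card (T G Φ).range := by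
    rw [← AddSubgroup.card_eq_card_quotient_mul_card_addSubgroup, Nat.card_pi]
    simp [Job5.card_dual G hG]
  have h3 : Nat.card ((Fin n → (G →+ ZMod N)) ⧸ (T G Φ).range) =
      Nat.card {g : Fin n → G // GCond G Φ g} := by
    rw [Nat.card_congr (Equiv.ofBijective _ (cokerMapG_bijective G hG Φ))]
    refine (Job5.card_dual ((Fin n → (G →+ ZMod N)) ⧸ (T G Φ).range) ?_).symm
    intro x
    induction x using QuotientAddGroup.induction_on with
    | H z =>
      rw [← QuotientAddGroup.mk_nsmul]
      have : N • z = 0 := by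
        ext i g
        simp
      rw [this]
      rfl
  rw [h1, h2, h3]
  ring

end Gen

/-- Exchange of the order of summation. -/
def sigmaHomEquiv (n N : ℕ) (G : Type*) [AddCommGroup G] :
    (Σ M : SymMat n (ZMod N), (G →+ kerM M.1)) ≃
      (Σ Φ : (G →+ (Fin n → ZMod N)), {M : SymMat n (ZMod N) // ∀ g, M.1.mulVec (Φ g) = 0}) where
  toFun x := ⟨(kerM x.1.1).subtype.comp x.2, ⟨x.1, fun g => (x.2 g).2⟩⟩
  invFun x := ⟨x.2.1, x.1.codRestrict (kerM x.2.1.1) (fun g => x.2.2 g)⟩
  left_inv _ := rfl
  right_inv _ := rfl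

/-- isotropic tuples -/
def IsoT (p k : ℕ) (G : Type*) [AddCommGroup G] {n : ℕ} (c : Fin n → Dual p k G × G) : Prop :=
  (∀ i, (c i).1 (c i).2 = 0) ∧ ∀ i j, (c i).1 (c j).2 = - (c j).1 (c i).2

/-- pairs `(Φ, g)` are isotropic tuples -/
def isoEquiv (n p k : ℕ) (G : Type*) [AddCommGroup G] :
    (Σ Φ : (G →+ (Fin n → ZMod (p ^ k))), {g : Fin n → G // GCond G Φ g}) ≃
      {c : Fin n → Dual p k G × G // IsoT p k G c} where
  toFun x := ⟨fun i => (coord G x.1 i, x.2.1 i), x.2.2⟩
  invFun c := ⟨AddMonoidHom.mk' (fun g i => (c.1 i).1 g) (by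
      intro a b; ext i; simp), ⟨fun i => (c.1 i).2, c.2⟩⟩
  left_inv _ := rfl
  right_inv _ := rfl

theorem sum_card_hom_kerM {p k : ℕ} (hp : p.Prime) (G : Type) [AddCommGroup G] [Finite G]
    (hG : ∀ g : G, p ^ k • g = 0) (n : ℕ) :
    (∑ᶠ M : SymMat n (ZMod (p ^ k)), (Nat.card (G →+ kerM M.1) : ℝ)) * (Nat.card G : ℝ) ^ n =
      (Nat.card {c : Fin n → Dual p k G × G // IsoT p k G c} : ℝ) *
        (Nat.card (SymMat n (ZMod (p ^ k))) : ℝ) := by
  have : NeZero (p ^ k) := ⟨pow_ne_zero k hp.ne_zero⟩
  have : Finite (SymMat n (ZMod (p ^ k))) := inferInstance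
  have := Fintype.ofFinite (SymMat n (ZMod (p ^ k)))
  have := Job5.finite_addHom G (Fin n → ZMod (p ^ k))
  have := Fintype.ofFinite (G →+ (Fin n → ZMod (p ^ k)))
  have hfin : ∀ M : SymMat n (ZMod (p ^ k)), Finite (G →+ kerM M.1) := fun M =>
    Job5.finite_addHom G (kerM M.1)
  rw [finsum_eq_sum_of_fintype, ← Nat.cast_sum, ← Nat.card_sigma,
    Nat.card_congr (sigmaHomEquiv n (p ^ k) G), Nat.card_sigma]
  have h : ∀ Φ : G →+ (Fin n → ZMod (p ^ k)),
      Nat.card {M : SymMat n (ZMod (p ^ k)) // ∀ g, M.1.mulVec (Φ g) = 0} * Nat.card G ^ n =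
        Nat.card {g : Fin n → G // GCond G Φ g} * Nat.card (SymMat n (ZMod (p ^ k))) := by
    intro Φ
    rw [Nat.card_congr (Job5.kerTEquiv n (p ^ k) G Φ)]
    exact card_ker_T' G hG Φ
  have h2 : (∑ Φ : G →+ (Fin n → ZMod (p ^ k)),
      Nat.card {M : SymMat n (ZMod (p ^ k)) // ∀ g, M.1.mulVec (Φ g) = 0}) * Nat.card G ^ n =
      Nat.card {c : Fin n → Dual p k G × G // IsoT p k G c} *
        Nat.card (SymMat n (ZMod (p ^ k))) := by
    rw [Finset.sum_mul]
    simp only [h]
    rw [← Finset.sum_mul, ← Nat.card_sigma, Nat.card_congr (isoEquiv n p k G)]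
  exact_mod_cast h2

/-! ### Counting isotropic tuples -/

section Count

variable {W : Type*} [AddCommGroup W]

theorem isotropic_closure (Q : QForm W) {T : Set W} (hκ : ∀ w ∈ T, Q.κ w = 1)
    (h1 : ∀ w ∈ T, ∀ w' ∈ T, Q.b w w' = 1) : Q.Isotropic (AddSubgroup.closure T) := by
  have h2 : ∀ w ∈ AddSubgroup.closure T, ∀ w' ∈ T, Q.b w w' = 1 := by
    intro w hw w' hw'
    induction hw using AddSubgroup.closure_induction with
    | mem x hx => exact h1 x hx w' hw'
    | zero => exact Q.b_zero_left _
    | add x y _ _ hx hy => rw [Q.b_add_left, hx, hy, one_mul]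
    | neg x _ hx => rw [Q.b_neg_left, hx, inv_one]
  have h3 : ∀ w ∈ AddSubgroup.closure T, ∀ w' ∈ AddSubgroup.closure T, Q.b w w' = 1 := by
    intro w hw w' hw'
    induction hw' using AddSubgroup.closure_induction with
    | mem x hx => exact h2 w hw x hx
    | zero => exact AddChar.map_zero_eq_one _
    | add x y _ _ hx hy => rw [AddChar.map_add_eq_mul, hx, hy, one_mul]
    | neg x _ hx => rw [Q.b_neg_right, hx, inv_one]
  intro w hw
  induction hw using AddSubgroup.closure_induction with
  | mem x hx => exact hκ x hx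
  | zero => exact Q.κ_zero
  | add x y hx hy ihx ihy => rw [Q.κ_add, ihx, ihy, h3 x hx y hy, one_mul, one_mul]
  | neg x _ hx => rw [Q.κ_neg, hx]

variable [Finite W]

omit [Finite W] in
/-- number of tuples in a subgroup -/
theorem card_tuples_mem (V : AddSubgroup W) (n : ℕ) :
    Nat.card {c : Fin n → W // ∀ i, c i ∈ V} = Nat.card V ^ n := by
  have e : {c : Fin n → W // ∀ i, c i ∈ V} ≃ (Fin n → V) :=
    { toFun := fun c i => ⟨c.1 i, c.2 i⟩
      invFun := fun f => ⟨fun i => (f i).1, fun i => (f i).2⟩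
      left_inv := fun _ => rfl
      right_inv := fun _ => rfl }
  rw [Nat.card_congr e, Nat.card_pi]
  simp

omit [Finite W] in
theorem closure_le_iff_mem {n : ℕ} (c : Fin n → W) (V : AddSubgroup W) :
    AddSubgroup.closure (Set.range c) ≤ V ↔ ∀ i, c i ∈ V := by
  rw [AddSubgroup.closure_le, Set.range_subset_iff]
  rfl

open scoped Classical in
/-- Upper bound. -/
theorem count_upper (Q : QForm W) {D : ℕ} (hD : D ^ 2 = Nat.card W) (hD1 : 1 ≤ D) (n : ℕ) :
    Nat.card {c : Fin n → W // Q.Isotropic (AddSubgroup.closure (Set.range c))} ≤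
      Nat.card {U : AddSubgroup W // Q.IsLag U} * D ^ n +
        Nat.card (AddSubgroup W) * (D - 1) ^ n := by
  have := Fintype.ofFinite W
  have := Fintype.ofFinite (AddSubgroup W)
  have hsub : (Finset.univ.filter fun c : Fin n → W =>
      Q.Isotropic (AddSubgroup.closure (Set.range c))) ⊆
      ((Finset.univ.filter fun U : AddSubgroup W => Q.IsLag U).biUnion
        fun U => Finset.univ.filter fun c : Fin n → W => ∀ i, c i ∈ U) ∪
      ((Finset.univ.filter fun U : AddSubgroup W => Nat.card U ≤ D - 1).biUnion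
        fun U => Finset.univ.filter fun c : Fin n → W => ∀ i, c i ∈ U) := by
    intro c hc
    rw [Finset.mem_filter] at hc
    rw [Finset.mem_union, Finset.mem_biUnion, Finset.mem_biUnion]
    have hmem : ∀ i, c i ∈ AddSubgroup.closure (Set.range c) := fun i =>
      AddSubgroup.subset_closure ⟨i, rfl⟩
    have hcard := hc.2.card_sq_le
    rw [← hD] at hcard
    have hle : Nat.card (AddSubgroup.closure (Set.range c)) ≤ D :=
      (Nat.pow_le_pow_iff_left (by norm_num)).mp hcard
    rcases hle.lt_or_eq with hlt | heq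
    · right
      refine ⟨AddSubgroup.closure (Set.range c), ?_, ?_⟩
      · simp only [Finset.mem_filter, Finset.mem_univ, true_and]
        omega
      · simp only [Finset.mem_filter, Finset.mem_univ, true_and]
        exact hmem
    · left
      refine ⟨AddSubgroup.closure (Set.range c), ?_, ?_⟩
      · simp only [Finset.mem_filter, Finset.mem_univ, true_and]
        exact ⟨hc.2, by rw [heq, hD]⟩
      · simp only [Finset.mem_filter, Finset.mem_univ, true_and]
        exact hmem
  have h1 := (Finset.card_le_card hsub).trans (Finset.card_union_le _ _)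
  have hcnt : ∀ U : AddSubgroup W, (Finset.univ.filter fun c : Fin n → W => ∀ i, c i ∈ U).card =
      Nat.card U ^ n := by
    intro U
    rw [← card_tuples_mem U n, Nat.card_eq_fintype_card, Fintype.card_subtype]
  have h2 : ((Finset.univ.filter fun U : AddSubgroup W => Q.IsLag U).biUnion
        fun U => Finset.univ.filter fun c : Fin n → W => ∀ i, c i ∈ U).card ≤
      Nat.card {U : AddSubgroup W // Q.IsLag U} * D ^ n := by
    refine (Finset.card_biUnion_le_card_mul _ _ (D ^ n) ?_).trans ?_
    · intro U hU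
      rw [hcnt]
      have h3 := (Finset.mem_filter.mp hU).2.2
      rw [← hD] at h3
      have h4 : Nat.card U = D := Nat.pow_left_injective (by norm_num : (2 : ℕ) ≠ 0) h3
      rw [h4]
    · rw [Nat.card_eq_fintype_card, Fintype.card_subtype]
  have h3 : ((Finset.univ.filter fun U : AddSubgroup W => Nat.card U ≤ D - 1).biUnion
        fun U => Finset.univ.filter fun c : Fin n → W => ∀ i, c i ∈ U).card ≤
      Nat.card (AddSubgroup W) * (D - 1) ^ n := by
    refine (Finset.card_biUnion_le_card_mul _ _ ((D - 1) ^ n) ?_).trans ?_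
    · intro U hU
      rw [hcnt]
      exact Nat.pow_le_pow_left (Finset.mem_filter.mp hU).2 n
    · apply Nat.mul_le_mul_right
      rw [Nat.card_eq_fintype_card]
      exact Finset.card_le_univ _
  rw [Nat.card_eq_fintype_card, Fintype.card_subtype]
  exact h1.trans (add_le_add h2 h3)

open scoped Classical in
/-- Lower bound. -/
theorem count_lower (Q : QForm W) {D : ℕ} (hD : D ^ 2 = Nat.card W) (n : ℕ) :
    Nat.card {U : AddSubgroup W // Q.IsLag U} * D ^ n ≤
    Nat.card {c : Fin n → W // Q.Isotropic (AddSubgroup.closure (Set.range c))} +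
      Nat.card {U : AddSubgroup W // Q.IsLag U} *
        (Nat.card (AddSubgroup W) * (D - 1) ^ n) := by
  have := Fintype.ofFinite W
  have := Fintype.ofFinite (AddSubgroup W)
  have hcnt : ∀ U : AddSubgroup W, (Finset.univ.filter fun c : Fin n → W => ∀ i, c i ∈ U).card =
      Nat.card U ^ n := by
    intro U
    rw [← card_tuples_mem U n, Nat.card_eq_fintype_card, Fintype.card_subtype]
  -- for every Lagrangian
  have hU : ∀ U : AddSubgroup W, Q.IsLag U → D ^ n ≤
      (Finset.univ.filter fun c : Fin n → W => AddSubgroup.closure (Set.range c) = U).card +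
        Nat.card (AddSubgroup W) * (D - 1) ^ n := by
    intro U hU
    have h4 : Nat.card U = D := by
      have h3 := hU.2
      rw [← hD] at h3
      exact Nat.pow_left_injective (by norm_num : (2 : ℕ) ≠ 0) h3
    have hsub : (Finset.univ.filter fun c : Fin n → W => ∀ i, c i ∈ U) ⊆
        (Finset.univ.filter fun c : Fin n → W => AddSubgroup.closure (Set.range c) = U) ∪
        ((Finset.univ.filter fun K : AddSubgroup W => K < U).biUnion
          fun K => Finset.univ.filter fun c : Fin n → W => ∀ i, c i ∈ K) := by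
      intro c hc
      rw [Finset.mem_filter] at hc
      rw [Finset.mem_union, Finset.mem_biUnion]
      have hle : AddSubgroup.closure (Set.range c) ≤ U := (closure_le_iff_mem c U).mpr hc.2
      rcases hle.lt_or_eq with hlt | heq
      · right
        refine ⟨_, by simp only [Finset.mem_filter, Finset.mem_univ, true_and]; exact hlt, ?_⟩
        simp only [Finset.mem_filter, Finset.mem_univ, true_and]
        exact fun i => AddSubgroup.subset_closure ⟨i, rfl⟩
      · left
        simp only [Finset.mem_filter, Finset.mem_univ, true_and]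
        exact heq
    have h1 := (Finset.card_le_card hsub).trans (Finset.card_union_le _ _)
    rw [hcnt, h4] at h1
    refine h1.trans (Nat.add_le_add_left ?_ _)
    refine (Finset.card_biUnion_le_card_mul _ _ ((D - 1) ^ n) ?_).trans ?_
    · intro K hK
      rw [hcnt]
      apply Nat.pow_le_pow_left
      have hlt : Nat.card K < Nat.card U := by
        have h5 : (K : Set W) ⊂ (U : Set W) := (Finset.mem_filter.mp hK).2
        exact Set.Finite.card_lt_card (Set.toFinite _) h5
      omega
    · apply Nat.mul_le_mul_right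
      rw [Nat.card_eq_fintype_card]
      exact Finset.card_le_univ _
  -- sum over the Lagrangians
  have hsum : ∑ U ∈ (Finset.univ.filter fun U : AddSubgroup W => Q.IsLag U),
      (Finset.univ.filter fun c : Fin n → W => AddSubgroup.closure (Set.range c) = U).card ≤
      Nat.card {c : Fin n → W // Q.Isotropic (AddSubgroup.closure (Set.range c))} := by
    rw [← Finset.card_biUnion]
    · rw [Nat.card_eq_fintype_card, Fintype.card_subtype]
      apply Finset.card_le_card
      intro c hc
      rw [Finset.mem_biUnion] at hc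
      obtain ⟨U, hU, hc⟩ := hc
      simp only [Finset.mem_filter, Finset.mem_univ, true_and] at hU hc ⊢
      rw [hc]
      exact hU.1
    · intro U _ V _ hUV
      rw [Function.onFun, Finset.disjoint_left]
      intro c hc hc'
      simp only [Finset.mem_filter, Finset.mem_univ, true_and] at hc hc'
      exact hUV (hc.symm.trans hc')
  have hL : (Finset.univ.filter fun U : AddSubgroup W => Q.IsLag U).card =
      Nat.card {U : AddSubgroup W // Q.IsLag U} := by
    rw [Nat.card_eq_fintype_card, Fintype.card_subtype]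
  calc Nat.card {U : AddSubgroup W // Q.IsLag U} * D ^ n
      = ∑ U ∈ (Finset.univ.filter fun U : AddSubgroup W => Q.IsLag U), D ^ n := by
        rw [Finset.sum_const, smul_eq_mul, hL]
    _ ≤ ∑ U ∈ (Finset.univ.filter fun U : AddSubgroup W => Q.IsLag U),
        ((Finset.univ.filter fun c : Fin n → W => AddSubgroup.closure (Set.range c) = U).card +
          Nat.card (AddSubgroup W) * (D - 1) ^ n) :=
        Finset.sum_le_sum fun U h => hU U (Finset.mem_filter.mp h).2
    _ = (∑ U ∈ (Finset.univ.filter fun U : AddSubgroup W => Q.IsLag U),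
        (Finset.univ.filter fun c : Fin n → W => AddSubgroup.closure (Set.range c) = U).card) +
          Nat.card {U : AddSubgroup W // Q.IsLag U} *
            (Nat.card (AddSubgroup W) * (D - 1) ^ n) := by
        rw [Finset.sum_add_distrib, Finset.sum_const, smul_eq_mul, hL]
    _ ≤ _ := Nat.add_le_add_right hsum _

/-- The number of isotropic tuples. -/
theorem tendsto_count (Q : QForm W) {D : ℕ} (hD : D ^ 2 = Nat.card W) (hD1 : 1 ≤ D) :
    Tendsto (fun n : ℕ =>
      (Nat.card {c : Fin n → W // Q.Isotropic (AddSubgroup.closure (Set.range c))} : ℝ) /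
        (D : ℝ) ^ n) atTop (𝓝 (Nat.card {U : AddSubgroup W // Q.IsLag U} : ℝ)) := by
  set L : ℝ := (Nat.card {U : AddSubgroup W // Q.IsLag U} : ℝ) with hL
  set s : ℝ := (Nat.card (AddSubgroup W) : ℝ) with hs
  have hDR : (0 : ℝ) < D := by exact_mod_cast hD1
  set t : ℝ := ((D - 1 : ℕ) : ℝ) / D with ht
  have ht0 : 0 ≤ t := by positivity
  have ht1 : t < 1 := by
    rw [ht, div_lt_one hDR]
    exact_mod_cast (by omega : D - 1 < D)
  have htend := tendsto_pow_atTop_nhds_zero_of_lt_one ht0 ht1
  have hlim1 : Tendsto (fun n : ℕ => L - L * s * t ^ n) atTop (𝓝 L) := by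
    have h1 := (htend.const_mul (L * s)).const_sub L
    rwa [mul_zero, sub_zero] at h1
  have hlim2 : Tendsto (fun n : ℕ => L + s * t ^ n) atTop (𝓝 L) := by
    have h1 := (htend.const_mul s).const_add L
    rwa [mul_zero, add_zero] at h1
  apply tendsto_of_tendsto_of_tendsto_of_le_of_le hlim1 hlim2
  · intro n
    have hDn : (0 : ℝ) < (D : ℝ) ^ n := by positivity
    have h1 := count_lower Q hD n
    have h2 : L * (D : ℝ) ^ n ≤
        (Nat.card {c : Fin n → W // Q.Isotropic (AddSubgroup.closure (Set.range c))} : ℝ) +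
          L * (s * ((D - 1 : ℕ) : ℝ) ^ n) := by
      rw [hL, hs]
      exact_mod_cast h1
    show L - L * s * t ^ n ≤ _
    rw [le_div_iff₀ hDn, ht, div_pow]
    have h3 : (L - L * s * (((D - 1 : ℕ) : ℝ) ^ n / (D : ℝ) ^ n)) * (D : ℝ) ^ n =
        L * (D : ℝ) ^ n - L * (s * ((D - 1 : ℕ) : ℝ) ^ n) := by
      field_simp
    rw [h3]
    linarith
  · intro n
    have hDn : (0 : ℝ) < (D : ℝ) ^ n := by positivity
    have h1 := count_upper Q hD hD1 n
    have h2 : (Nat.card {c : Fin n → W //
        Q.Isotropic (AddSubgroup.closure (Set.range c))} : ℝ) ≤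
        L * (D : ℝ) ^ n + s * ((D - 1 : ℕ) : ℝ) ^ n := by
      rw [hL, hs]
      exact_mod_cast h1
    show _ ≤ L + s * t ^ n
    rw [div_le_iff₀ hDn, ht, div_pow]
    have h3 : (L + s * (((D - 1 : ℕ) : ℝ) ^ n / (D : ℝ) ^ n)) * (D : ℝ) ^ n =
        L * (D : ℝ) ^ n + s * ((D - 1 : ℕ) : ℝ) ^ n := by
      field_simp
    rw [h3]
    exact h2

end Count

theorem isoT_iff {p k : ℕ} (hp : p.Prime) (G : Type) [AddCommGroup G] [Finite G]
    (hG : ∀ g : G, p ^ k • g = 0) {n : ℕ} (c : Fin n → Dual p k G × G) :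
    IsoT p k G c ↔
      (dualForm p k hp G hG).Isotropic (AddSubgroup.closure (Set.range c)) := by
  have : NeZero (p ^ k) := ⟨pow_ne_zero k hp.ne_zero⟩
  constructor
  · rintro ⟨h0, h1⟩
    apply isotropic_closure
    · rintro _ ⟨i, rfl⟩
      rw [dualForm_κ, h0 i, AddChar.map_zero_eq_one]
    · rintro _ ⟨i, rfl⟩ _ ⟨j, rfl⟩
      rw [dualForm_b, h1 i j, neg_add_cancel, AddChar.map_zero_eq_one]
  · intro h
    have hmem : ∀ i, c i ∈ AddSubgroup.closure (Set.range c) := fun i =>
      AddSubgroup.subset_closure ⟨i, rfl⟩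
    constructor
    · intro i
      have := h _ (hmem i)
      rw [dualForm_κ, stdAddChar_eq_one_iff] at this
      exact this
    · intro i j
      have := h.b_eq_one (hmem i) (hmem j)
      rw [dualForm_b, stdAddChar_eq_one_iff] at this
      exact eq_neg_of_add_eq_zero_left this

end Job8

open Job8 in
theorem tendsto_unif_hom {p k : ℕ} (hp : p.Prime) (G : Type) [AddCommGroup G] [Finite G]
    (hG : ∀ g : G, p ^ k • g = 0) :
    Tendsto (fun n : ℕ => (∑ᶠ M : SymMat n (ZMod (p ^ k)), (Nat.card (G →+ kerM M.1) : ℝ)) /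
      (Nat.card (SymMat n (ZMod (p ^ k))) : ℝ)) atTop
      (𝓝 (Nat.card {U : AddSubgroup (Dual p k G × G) // (dualForm p k hp G hG).IsLag U} : ℝ)) := by
  have : NeZero (p ^ k) := ⟨pow_ne_zero k hp.ne_zero⟩
  have hfd : Finite (Dual p k G) := finite_dual hp
  have hD := card_dual_prod hp hG (G := G)
  have hD1 : 1 ≤ Nat.card G := Nat.card_pos
  have h := tendsto_count (dualForm p k hp G hG) hD hD1
  refine h.congr ?_
  intro n
  have h1 := sum_card_hom_kerM hp G hG n
  have h2 : Nat.card {c : Fin n → Dual p k G × G // IsoT p k G c} =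
      Nat.card {c : Fin n → Dual p k G × G //
        (dualForm p k hp G hG).Isotropic (AddSubgroup.closure (Set.range c))} :=
    Nat.card_congr (Equiv.subtypeEquivRight fun c => isoT_iff hp G hG c)
  rw [h2] at h1
  have hS : (0 : ℝ) < (Nat.card (SymMat n (ZMod (p ^ k))) : ℝ) := by
    have : Nonempty (SymMat n (ZMod (p ^ k))) := ⟨⟨0, Matrix.isSymm_zero⟩⟩
    exact_mod_cast Nat.card_pos
  have hDn : (0 : ℝ) < (Nat.card G : ℝ) ^ n := by
    have : (0 : ℝ) < Nat.card G := by exact_mod_cast hD1
    positivity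
  rw [div_eq_div_iff hDn.ne' hS.ne']
  exact h1.symm

end Pool.Agent.Lib.MP_49901c_pr
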