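import Mathlib
import Pool.Agent.Lib.MP_49901c_pr.Uniform
import Pool.Agent.Lib.MP_49901c_pr.Duality

/-!
# Job 10: almost all homomorphisms into `R ^ n` are injective
-/

set_option autoImplicit false

namespace Pool.Agent.Lib.MP_49901c_pr

open Filter Topology

namespace Job10

/-- coordinates of a homomorphism -/
def homEquiv (G : Type*) [AddCommGroup G] (n N : ℕ) :
    (G →+ (Fin n → ZMod N)) ≃ (Fin n → (G →+ ZMod N)) where
  toFun Φ i := (Pi.evalAddMonoidHom _ i).comp Φ
  invFun f :=
    { toFun := fun g i => f i g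
      map_zero' := by ext i; simp
      map_add' := by intro x y; ext i; simp }
  left_inv Φ := by ext g i; rfl
  right_inv f := by ext i g; rfl

lemma homEquiv_apply (G : Type*) [AddCommGroup G] (n N : ℕ) (Φ : G →+ (Fin n → ZMod N))
    (i : Fin n) (g : G) : homEquiv G n N Φ i g = Φ g i := rfl

end Job10

open Job10 in
theorem tendsto_card_inj {p k : ℕ} (hp : p.Prime) (G : Type) [AddCommGroup G] [Finite G]
    (hG : ∀ g : G, p ^ k • g = 0) :
    Tendsto (fun n : ℕ => (Nat.card (Inj G (Fin n → ZMod (p ^ k))) : ℝ) / (Nat.card G : ℝ) ^ n)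
      atTop (𝓝 1) := by
  classical
  have : NeZero (p ^ k) := ⟨pow_ne_zero k hp.ne_zero⟩
  obtain ⟨e⟩ := nonempty_dual_equiv hp G hG
  have hfin : Finite (Dual p k G) := Finite.of_equiv G e.symm.toEquiv
  have := Fintype.ofFinite (Dual p k G)
  have := Fintype.ofFinite G
  set D := Nat.card G with hD
  have hD1 : 1 ≤ D := Nat.card_pos
  have hcd : Fintype.card (Dual p k G) = D := by
    rw [← Nat.card_eq_fintype_card]
    exact Nat.card_congr e.toEquiv
  -- for `g ≠ 0` the number of `φ` with `φ g = 0` is at most `D - 1`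
  have hg1 : ∀ g : G, g ≠ 0 → Fintype.card {φ : Dual p k G // φ g = 0} ≤ D - 1 := by
    intro g hg
    obtain ⟨φ, hφ⟩ := exists_dual_ne_zero hp G hG g hg
    have h1 : Fintype.card {φ : Dual p k G // φ g = 0} < Fintype.card (Dual p k G) :=
      Fintype.card_subtype_lt hφ
    rw [hcd] at h1
    omega
  have hfinH : ∀ n, Finite (G →+ (Fin n → ZMod (p ^ k))) := fun n =>
    Finite.of_equiv _ (homEquiv G n (p ^ k)).symm
  have hHom : ∀ n, Nat.card (G →+ (Fin n → ZMod (p ^ k))) = D ^ n := by
    intro n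
    rw [Nat.card_congr (homEquiv G n (p ^ k)), Nat.card_eq_fintype_card, Fintype.card_fun,
      Fintype.card_fin, hcd]
  -- number of homs killing `g`
  have hkill : ∀ n, ∀ g : G, g ≠ 0 →
      Nat.card {Φ : G →+ (Fin n → ZMod (p ^ k)) // Φ g = 0} ≤ (D - 1) ^ n := by
    intro n g hg
    have e1 : {Φ : G →+ (Fin n → ZMod (p ^ k)) // Φ g = 0} ≃
        (Fin n → {φ : Dual p k G // φ g = 0}) :=
      { toFun := fun Φ i => ⟨homEquiv G n (p ^ k) Φ.1 i, by
          rw [homEquiv_apply, Φ.2]; rfl⟩
        invFun := fun f => ⟨(homEquiv G n (p ^ k)).symm (fun i => (f i).1), by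
          ext i; exact (f i).2⟩
        left_inv := by intro Φ; ext x i; rfl
        right_inv := by intro f; ext i x; rfl }
    rw [Nat.card_congr e1, Nat.card_eq_fintype_card, Fintype.card_fun, Fintype.card_fin]
    exact Nat.pow_le_pow_left (hg1 g hg) n
  -- lower bound for the number of injective homs
  have hlow : ∀ n, D ^ n ≤ Nat.card (Inj G (Fin n → ZMod (p ^ k))) + D * (D - 1) ^ n := by
    intro n
    have := Fintype.ofFinite (G →+ (Fin n → ZMod (p ^ k)))
    have hsplit : (Finset.univ : Finset (G →+ (Fin n → ZMod (p ^ k)))) ⊆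
        (Finset.univ.filter fun Φ => Function.Injective Φ) ∪
        (Finset.univ.filter fun g : G => g ≠ 0).biUnion
          (fun g => Finset.univ.filter fun Φ : G →+ (Fin n → ZMod (p ^ k)) => Φ g = 0) := by
      intro Φ _
      rw [Finset.mem_union, Finset.mem_filter, Finset.mem_biUnion]
      by_cases hΦ : Function.Injective Φ
      · left; exact ⟨Finset.mem_univ _, hΦ⟩
      · right
        rw [injective_iff_map_eq_zero] at hΦ
        push Not at hΦ
        obtain ⟨g, hg0, hg⟩ := hΦ
        exact ⟨g, by simp [hg], by simp [hg0]⟩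
    have h1 := Finset.card_le_card hsplit
    have h2 := h1.trans (Finset.card_union_le _ _)
    have h3 : ((Finset.univ.filter fun g : G => g ≠ 0).biUnion
          (fun g => Finset.univ.filter fun Φ : G →+ (Fin n → ZMod (p ^ k)) => Φ g = 0)).card ≤
        D * (D - 1) ^ n := by
      refine (Finset.card_biUnion_le_card_mul _ _ ((D - 1) ^ n) ?_).trans ?_
      · intro g hg
        have h4 := hkill n g (Finset.mem_filter.mp hg).2
        rwa [Nat.card_eq_fintype_card, Fintype.card_subtype] at h4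
      · apply Nat.mul_le_mul_right
        rw [hD, Nat.card_eq_fintype_card]
        exact Finset.card_le_univ _
    have h5 : (Finset.univ.filter fun Φ : G →+ (Fin n → ZMod (p ^ k)) =>
        Function.Injective Φ).card = Nat.card (Inj G (Fin n → ZMod (p ^ k))) := by
      rw [Nat.card_eq_fintype_card, Fintype.card_subtype]
    have h6 : (Finset.univ : Finset (G →+ (Fin n → ZMod (p ^ k)))).card = D ^ n := by
      rw [Finset.card_univ, ← Nat.card_eq_fintype_card, hHom]
    rw [h6, h5] at h2
    omega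
  have hup : ∀ n, Nat.card (Inj G (Fin n → ZMod (p ^ k))) ≤ D ^ n := by
    intro n
    rw [← hHom n]
    have := hfinH n
    exact Nat.card_le_card_of_injective (fun Φ : Inj G (Fin n → ZMod (p ^ k)) => Φ.1)
      Subtype.val_injective
  have hDR : (0 : ℝ) < D := by exact_mod_cast hD1
  set t : ℝ := ((D - 1 : ℕ) : ℝ) / D with ht
  have ht0 : 0 ≤ t := by positivity
  have ht1 : t < 1 := by
    rw [ht, div_lt_one hDR]
    exact_mod_cast (by omega : D - 1 < D)
  have hlim : Tendsto (fun n : ℕ => 1 - (D : ℝ) * t ^ n) atTop (𝓝 1) := by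
    have h1 := ((tendsto_pow_atTop_nhds_zero_of_lt_one ht0 ht1).const_mul (D : ℝ)).const_sub 1
    rwa [mul_zero, sub_zero] at h1
  apply tendsto_of_tendsto_of_tendsto_of_le_of_le hlim tendsto_const_nhds
  · intro n
    have hDn : (0 : ℝ) < (D : ℝ) ^ n := by positivity
    have h1 : ((D ^ n : ℕ) : ℝ) ≤
        ((Nat.card (Inj G (Fin n → ZMod (p ^ k))) + D * (D - 1) ^ n : ℕ) : ℝ) := by
      exact_mod_cast hlow n
    push_cast at h1
    show 1 - (D : ℝ) * t ^ n ≤ _
    rw [le_div_iff₀ hDn, ht, div_pow]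
    have h2 : (1 - (D : ℝ) * (((D - 1 : ℕ) : ℝ) ^ n / (D : ℝ) ^ n)) * (D : ℝ) ^ n =
        (D : ℝ) ^ n - D * ((D - 1 : ℕ) : ℝ) ^ n := by
      field_simp
    rw [h2]
    linarith
  · intro n
    have hDn : (0 : ℝ) < (D : ℝ) ^ n := by positivity
    show _ ≤ (1 : ℝ)
    rw [div_le_one hDn]
    exact_mod_cast hup n

end Pool.Agent.Lib.MP_49901c_pr
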