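import Mathlib

/-!
# Job 3, part A: counting lemmas
-/

namespace Pool.Agent.Lib.MP_49901c_pr.Job3

/-- Counting along a homomorphism. -/
theorem card_fib {A B : Type*} [AddGroup A] [AddGroup B] (f : A →+ B) (Q : B → Prop)
    (hQ : ∀ b, Q b → ∃ a, f a = b) :
    Nat.card {a // Q (f a)} = Nat.card {b // Q b} * Nat.card f.ker := by
  classical
  choose s hs using hQ
  have key : ∀ (b c : B) (hb : Q b) (hc : Q c), c = b → s c hc = s b hb := by
    rintro b c hb hc rfl; rfl
  have e : {a // Q (f a)} ≃ {b // Q b} × f.ker :=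
    { toFun := fun a => (⟨f a.1, a.2⟩, ⟨a.1 - s (f a.1) a.2, by
        rw [AddMonoidHom.mem_ker, map_sub, hs, sub_self]⟩)
      invFun := fun x => ⟨x.2.1 + s x.1.1 x.1.2, by
        have h : f (x.2.1 + s x.1.1 x.1.2) = x.1.1 := by
          rw [map_add, hs, (AddMonoidHom.mem_ker).1 x.2.2, zero_add]
        rw [h]; exact x.1.2⟩
      left_inv := by
        rintro ⟨a, ha⟩
        simp
      right_inv := by
        rintro ⟨⟨b, hb⟩, ⟨z, hz⟩⟩
        have h : f (z + s b hb) = b := by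
          rw [map_add, hs, (AddMonoidHom.mem_ker).1 hz, zero_add]
        refine Prod.ext (Subtype.ext h) (Subtype.ext ?_)
        show z + s b hb - s (f (z + s b hb)) _ = z
        rw [key b (f (z + s b hb)) hb _ h, add_sub_cancel_right] }
  rw [Nat.card_congr e, Nat.card_prod]

/-- Counting along a surjective homomorphism. -/
theorem card_surj {A B : Type*} [AddGroup A] [AddGroup B] (f : A →+ B)
    (hf : Function.Surjective f) (Q : B → Prop) :
    Nat.card {a // Q (f a)} * Nat.card B = Nat.card {b // Q b} * Nat.card A := by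
  have h1 := card_fib f Q (fun b _ => hf b)
  have h2 := card_fib f (fun _ => True) (fun b _ => hf b)
  rw [Nat.card_congr (Equiv.subtypeUnivEquiv (fun _ => trivial)),
    Nat.card_congr (Equiv.subtypeUnivEquiv (fun _ => trivial))] at h2
  rw [h1, h2]
  ring

/-- The additive group of symmetric matrices. -/
def SymA (ι R : Type*) [AddCommGroup R] : AddSubgroup (Matrix ι ι R) where
  carrier := {M | M.IsSymm}
  zero_mem' := Matrix.isSymm_zero
  add_mem' := fun ha hb => Matrix.IsSymm.add ha hb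
  neg_mem' := fun ha => Matrix.IsSymm.neg ha

theorem mem_SymA {ι R : Type*} [AddCommGroup R] {M : Matrix ι ι R} :
    M ∈ SymA ι R ↔ M.IsSymm := Iff.rfl

/-- A symmetric matrix is determined by its upper triangular entries. -/
def symEquiv (ι R : Type*) [AddCommGroup R] [LinearOrder ι] :
    SymA ι R ≃ ({p : ι × ι // p.1 ≤ p.2} → R) where
  toFun M p := M.1 p.1.1 p.1.2
  invFun f := ⟨Matrix.of fun i j => f (Sym2.sortEquiv s(i, j)), by
    rw [mem_SymA]
    apply Matrix.IsSymm.ext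
    intro i j
    simp only [Matrix.of_apply]
    rw [Sym2.eq_swap]⟩
  left_inv := by
    rintro ⟨M, hM⟩
    apply Subtype.ext
    ext i j
    have h : M j i = M i j := Matrix.IsSymm.apply hM i j
    rcases le_total i j with hij | hij
    · simp [Sym2.sortEquiv, hij]
    · simp [Sym2.sortEquiv, hij, h]
  right_inv := by
    intro f
    funext p
    have h := Sym2.sortEquiv.apply_symm_apply p
    simp only [Sym2.sortEquiv_symm_apply] at h
    show f (Sym2.sortEquiv s(p.1.1, p.1.2)) = f p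
    rw [h]

theorem card_symm_entries {ι R : Type*} [AddCommGroup R] [LinearOrder ι] [Fintype ι]
    (P : ι → ι → R → Prop) (hP : ∀ i j r, P i j r → P j i r) :
    Nat.card {M : SymA ι R // ∀ i j, P i j (M.1 i j)} =
      ∏ p : {p : ι × ι // p.1 ≤ p.2}, Nat.card {r : R // P p.1.1 p.1.2 r} := by
  rw [← Nat.card_pi, ← Nat.card_congr (Equiv.subtypePiEquivPi)]
  refine Nat.card_congr (Equiv.subtypeEquiv (symEquiv ι R) ?_)
  intro M
  constructor
  · intro h p
    exact h _ _
  · intro h i j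
    rcases le_total i j with hij | hij
    · exact h ⟨(i, j), hij⟩
    · have h1 := h ⟨(j, i), hij⟩
      have h2 : (M.1 : Matrix ι ι R) i j = M.1 j i := Matrix.IsSymm.apply M.2 j i
      rw [h2]
      exact hP _ _ _ h1

theorem card_SymA {ι R : Type*} [AddCommGroup R] [LinearOrder ι] [Fintype ι] :
    Nat.card (SymA ι R) = ∏ _p : {p : ι × ι // p.1 ≤ p.2}, Nat.card R := by
  rw [Nat.card_congr (symEquiv ι R), Nat.card_pi]

theorem card_pow_mul_eq_zero {p k : ℕ} (hp : p.Prime) (c : ℕ) (hc : c ≤ k) :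
    Nat.card {y : ZMod (p ^ k) // (p : ZMod (p ^ k)) ^ c * y = 0} = p ^ c := by
  have : NeZero (p ^ k) := ⟨(pow_pos hp.pos k).ne'⟩
  have h := IsAddCyclic.card_nsmulAddMonoidHom_ker (ZMod (p ^ k)) (p ^ c)
  rw [Nat.card_zmod, Nat.gcd_eq_right (pow_dvd_pow p hc)] at h
  rw [← h]
  refine Nat.card_congr (Equiv.subtypeEquiv (Equiv.refl _) ?_)
  intro y
  simp [AddMonoidHom.mem_ker]

theorem dvd_of_mul_eq_zero {p k : ℕ} (hp : p.Prime) (c : ℕ) (hc : c ≤ k) (x : ZMod (p ^ k))
    (h : (p : ZMod (p ^ k)) ^ (k - c) * x = 0) : (p : ZMod (p ^ k)) ^ c ∣ x := by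
  have : NeZero (p ^ k) := ⟨(pow_pos hp.pos k).ne'⟩
  rw [← ZMod.natCast_zmod_val x] at h ⊢
  rw [← Nat.cast_pow, ← Nat.cast_mul, ZMod.natCast_eq_zero_iff] at h
  have h2 : p ^ (k - c) * p ^ c ∣ p ^ (k - c) * x.val := by
    rwa [← pow_add, Nat.sub_add_cancel hc]
  have h3 : p ^ c ∣ x.val := Nat.dvd_of_mul_dvd_mul_left (pow_pos hp.pos _) h2
  obtain ⟨y, hy⟩ := h3
  exact ⟨(y : ZMod (p ^ k)), by rw [hy]; push_cast; ring⟩

theorem pow_k_eq_zero (p k : ℕ) : (p : ZMod (p ^ k)) ^ k = 0 := by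
  rw [← Nat.cast_pow, ZMod.natCast_self]

end Pool.Agent.Lib.MP_49901c_pr.Job3
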