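import Mathlib
import Pool.Agent.Lib.MP_49901c_pr.Job3A

/-!
# Job 3, part B: matrices with a given diagonal kernel
-/

namespace Pool.Agent.Lib.MP_49901c_pr.Job3

open Matrix

section red

variable {p k : ℕ}

/-- Reduction mod `p`. -/
def red (p : ℕ) {k : ℕ} (hk : k ≠ 0) : ZMod (p ^ k) →+* ZMod p :=
  ZMod.castHom (dvd_pow_self p hk) (ZMod p)

theorem red_eq_zero_iff (hp : p.Prime) (hk : k ≠ 0) (x : ZMod (p ^ k)) :
    red p hk x = 0 ↔ (p : ZMod (p ^ k)) ^ (k - 1) * x = 0 := by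
  have : NeZero (p ^ k) := ⟨(pow_pos hp.pos k).ne'⟩
  obtain ⟨m, rfl⟩ : ∃ m : ℕ, (m : ZMod (p ^ k)) = x := ⟨x.val, ZMod.natCast_zmod_val x⟩
  rw [map_natCast, ZMod.natCast_eq_zero_iff, ← Nat.cast_pow, ← Nat.cast_mul,
    ZMod.natCast_eq_zero_iff]
  have h : p ^ k = p ^ (k - 1) * p := by
    rw [← pow_succ, Nat.sub_add_cancel (Nat.one_le_iff_ne_zero.2 hk)]
  rw [h]
  exact (Nat.mul_dvd_mul_iff_left (pow_pos hp.pos _)).symm

theorem isUnit_red_iff (hp : p.Prime) (hk : k ≠ 0) (x : ZMod (p ^ k)) :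
    IsUnit (red p hk x) ↔ IsUnit x := by
  have : NeZero (p ^ k) := ⟨(pow_pos hp.pos k).ne'⟩
  obtain ⟨m, rfl⟩ : ∃ m : ℕ, (m : ZMod (p ^ k)) = x := ⟨x.val, ZMod.natCast_zmod_val x⟩
  rw [map_natCast, ZMod.isUnit_natCast_iff_not_dvd_pow hp (Nat.pos_of_ne_zero hk)]
  have h := ZMod.isUnit_natCast_iff_not_dvd_pow (d := 1) (a := m) hp one_pos
  rw [pow_one] at h
  exact h

theorem red_surjective (hp : p.Prime) (hk : k ≠ 0) : Function.Surjective (red p hk) := by
  have : NeZero p := ⟨hp.ne_zero⟩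
  intro x
  exact ⟨((x.val : ℕ) : ZMod (p ^ k)), by rw [map_natCast, ZMod.natCast_zmod_val]⟩

end red

variable {p k : ℕ} {ι : Type*} [Fintype ι] [LinearOrder ι]

/-- The kernel of `T` is the kernel of `diagonal (p ^ b)`. -/
def KerEq (p : ℕ) {k : ℕ} {ι : Type*} [Fintype ι] (T : Matrix ι ι (ZMod (p ^ k)))
    (b : ι → ℕ) : Prop :=
  ∀ x : ι → ZMod (p ^ k), T *ᵥ x = 0 ↔ ∀ i, (p : ZMod (p ^ k)) ^ b i * x i = 0

theorem dvd_of_kerEq (hp : p.Prime) {b : ι → ℕ} (hb : ∀ i, b i ≤ k)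
    {T : Matrix ι ι (ZMod (p ^ k))} (hT : T.IsSymm) (h : KerEq p T b) (i j : ι) :
    (p : ZMod (p ^ k)) ^ max (b i) (b j) ∣ T i j := by
  have key : ∀ i j, (p : ZMod (p ^ k)) ^ b j ∣ T i j := by
    intro i j
    apply dvd_of_mul_eq_zero hp _ (hb j)
    have h1 := (h (Pi.single j ((p : ZMod (p ^ k)) ^ (k - b j)))).2 (by
      intro l
      by_cases hl : l = j
      · subst hl
        rw [Pi.single_eq_same, ← pow_add, Nat.add_sub_cancel' (hb l), pow_k_eq_zero]
      · rw [Pi.single_eq_of_ne hl, mul_zero])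
    have h2 := congrFun h1 i
    rw [Matrix.mulVec_single] at h2
    simpa [mul_comm] using h2
  rcases le_total (b i) (b j) with hij | hij
  · rw [max_eq_right hij]; exact key i j
  · rw [max_eq_left hij, ← hT.apply i j]; exact key j i

/-- The map `Y ↦ (p ^ max (b i) (b j) * Y i j)`. -/
def Tmap (p k : ℕ) (b : ι → ℕ) : SymA ι (ZMod (p ^ k)) →+ SymA ι (ZMod (p ^ k)) where
  toFun Y := ⟨Matrix.of fun i j => (p : ZMod (p ^ k)) ^ max (b i) (b j) * Y.1 i j, by
    rw [mem_SymA]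
    apply Matrix.IsSymm.ext
    intro i j
    rw [Matrix.of_apply, Matrix.of_apply, max_comm, Matrix.IsSymm.apply Y.2 i j]⟩
  map_zero' := by
    apply Subtype.ext
    ext i j
    simp
  map_add' Y Z := by
    apply Subtype.ext
    ext i j
    simp [mul_add]

theorem Tmap_apply (b : ι → ℕ) (Y : SymA ι (ZMod (p ^ k))) (i j : ι) :
    (Tmap p k b Y).1 i j = (p : ZMod (p ^ k)) ^ max (b i) (b j) * Y.1 i j := rfl

theorem exists_Tmap_eq (hp : p.Prime) {b : ι → ℕ} (hb : ∀ i, b i ≤ k)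
    (T : SymA ι (ZMod (p ^ k))) (h : KerEq p T.1 b) : ∃ Y, Tmap p k b Y = T := by
  classical
  have hd := dvd_of_kerEq hp hb T.2 h
  let d : ℕ → ZMod (p ^ k) → ZMod (p ^ k) := fun m t =>
    if h : (p : ZMod (p ^ k)) ^ m ∣ t then h.choose else 0
  have hdspec : ∀ m t, (p : ZMod (p ^ k)) ^ m ∣ t → (p : ZMod (p ^ k)) ^ m * d m t = t := by
    intro m t hmt
    simp only [d, dif_pos hmt]
    exact hmt.choose_spec.symm
  refine ⟨⟨Matrix.of fun i j => d (max (b i) (b j)) (T.1 i j), ?_⟩, ?_⟩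
  · rw [mem_SymA]
    apply Matrix.IsSymm.ext
    intro i j
    rw [Matrix.of_apply, Matrix.of_apply, max_comm, Matrix.IsSymm.apply T.2 i j]
  · apply Subtype.ext
    ext i j
    rw [Tmap_apply]
    exact hdspec _ _ (hd i j)

/-- The matrix over `ZMod p` deciding whether the kernel is as small as possible. -/
def goodmat {k : ℕ} (hk : k ≠ 0) (b : ι → ℕ) (Y : Matrix ι ι (ZMod (p ^ k))) :
    Matrix ι ι (ZMod p) :=
  Matrix.of fun i j => if b j ≤ b i then red p hk (Y i j) else 0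

/-- The matrix `X` with `T = D X`. -/
def Xmat (b : ι → ℕ) (Y : Matrix ι ι (ZMod (p ^ k))) : Matrix ι ι (ZMod (p ^ k)) :=
  Matrix.of fun i j => (p : ZMod (p ^ k)) ^ (max (b i) (b j) - b i) * Y i j

theorem Xmat_map (hk : k ≠ 0) (b : ι → ℕ) (Y : Matrix ι ι (ZMod (p ^ k))) :
    (Xmat b Y).map (red p hk) = goodmat hk b Y := by
  ext i j
  simp only [Xmat, goodmat, Matrix.map_apply, Matrix.of_apply, map_mul, map_pow, map_natCast]
  split_ifs with h
  · rw [max_eq_left h, Nat.sub_self, pow_zero, one_mul]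
  · rw [max_eq_right (not_le.1 h).le, ZMod.natCast_self, zero_pow (by omega), zero_mul]

theorem isUnit_goodmat_iff (hp : p.Prime) (hk : k ≠ 0) (b : ι → ℕ)
    (Y : Matrix ι ι (ZMod (p ^ k))) :
    IsUnit (goodmat hk b Y).det ↔ IsUnit (Xmat b Y).det := by
  rw [← Xmat_map, ← isUnit_red_iff hp hk (Xmat b Y).det, RingHom.map_det]
  rfl

theorem Tmap_mulVec (b : ι → ℕ) (Y : SymA ι (ZMod (p ^ k))) (x : ι → ZMod (p ^ k)) :
    (Tmap p k b Y).1 *ᵥ x =
      (Xmat b Y.1)ᵀ *ᵥ (fun i => (p : ZMod (p ^ k)) ^ b i * x i) := by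
  funext i
  simp only [Matrix.mulVec, dotProduct, Tmap_apply, Xmat, Matrix.transpose_apply, Matrix.of_apply]
  refine Finset.sum_congr rfl fun j _ => ?_
  rw [Matrix.IsSymm.apply Y.2 i j, max_comm (b j) (b i)]
  have h : max (b i) (b j) = (max (b i) (b j) - b j) + b j := by
    have := le_max_right (b i) (b j)
    omega
  rw [show (p : ZMod (p ^ k)) ^ max (b i) (b j) =
    (p : ZMod (p ^ k)) ^ (max (b i) (b j) - b j) * (p : ZMod (p ^ k)) ^ b j by
      rw [← pow_add]; congr 1]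
  ring

theorem kerEq_Tmap_iff (hp : p.Prime) (hk : k ≠ 0) (b : ι → ℕ) (hb : ∀ i, b i < k)
    (Y : SymA ι (ZMod (p ^ k))) :
    KerEq p (Tmap p k b Y).1 b ↔ IsUnit (goodmat hk b Y.1).det := by
  have : Fact p.Prime := ⟨hp⟩
  constructor
  · intro h
    by_contra hu
    rw [isUnit_iff_ne_zero, not_not, ← Matrix.det_transpose,
      ← Matrix.exists_mulVec_eq_zero_iff] at hu
    obtain ⟨v, hv0, hv⟩ := hu
    choose s hs using red_surjective (k := k) hp hk
    apply hv0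
    funext i
    rw [Pi.zero_apply, ← hs (v i), red_eq_zero_iff hp hk]
    have h1 := (h (fun i => (p : ZMod (p ^ k)) ^ (k - 1 - b i) * s (v i))).1 (by
      rw [Tmap_mulVec]
      have h2 : (fun i => (p : ZMod (p ^ k)) ^ b i *
          ((p : ZMod (p ^ k)) ^ (k - 1 - b i) * s (v i))) =
          (p : ZMod (p ^ k)) ^ (k - 1) • (fun i => s (v i)) := by
        funext i
        rw [← mul_assoc, ← pow_add, Pi.smul_apply, smul_eq_mul]
        have := hb i
        congr 3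
        omega
      rw [h2, Matrix.mulVec_smul]
      funext i
      rw [Pi.smul_apply, smul_eq_mul, Pi.zero_apply, ← red_eq_zero_iff hp hk]
      have h3 := congrFun hv i
      rw [← Xmat_map] at h3
      simp only [Matrix.mulVec, dotProduct, Matrix.transpose_apply, Matrix.map_apply,
        Pi.zero_apply] at h3 ⊢
      rw [map_sum, ← h3]
      refine Finset.sum_congr rfl fun j _ => ?_
      rw [map_mul, hs]) i
    rw [← mul_assoc, ← pow_add] at h1
    have := hb i
    rwa [show b i + (k - 1 - b i) = k - 1 by omega] at h1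
  · intro h x
    rw [isUnit_goodmat_iff hp hk] at h
    rw [Tmap_mulVec]
    have hu : IsUnit (Xmat b Y.1)ᵀ.det := by rwa [Matrix.det_transpose]
    constructor
    · intro h1 i
      have h2 : (fun i => (p : ZMod (p ^ k)) ^ b i * x i) = 0 := by
        have h3 := congrArg (fun w => (Xmat b Y.1)ᵀ⁻¹ *ᵥ w) h1
        simp only [Matrix.mulVec_mulVec, Matrix.nonsing_inv_mul _ hu, Matrix.one_mulVec,
          Matrix.mulVec_zero] at h3
        exact h3
      exact congrFun h2 i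
    · intro h1
      have h2 : (fun i => (p : ZMod (p ^ k)) ^ b i * x i) = 0 := funext h1
      rw [h2, Matrix.mulVec_zero]

/-- The kernel is as small as possible. -/
def Good (hk : k ≠ 0) (b : ι → ℕ) (Y : Matrix ι ι (ZMod (p ^ k))) : Prop :=
  IsUnit (goodmat hk b Y).det

theorem card_kerEq (hp : p.Prime) (hk : k ≠ 0) (b : ι → ℕ) (hb : ∀ i, b i < k) :
    Nat.card {T : SymA ι (ZMod (p ^ k)) // KerEq p T.1 b} *
      ∏ q : {q : ι × ι // q.1 ≤ q.2}, p ^ max (b q.1.1) (b q.1.2) =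
    Nat.card {Y : SymA ι (ZMod (p ^ k)) // Good hk b Y.1} := by
  have h1 := card_fib (Tmap p k b) (fun T => KerEq p T.1 b)
    (fun T hT => exists_Tmap_eq hp (fun i => (hb i).le) T hT)
  have h2 : Nat.card {a : SymA ι (ZMod (p ^ k)) // KerEq p (Tmap p k b a).1 b} =
      Nat.card {Y : SymA ι (ZMod (p ^ k)) // Good hk b Y.1} :=
    Nat.card_congr (Equiv.subtypeEquiv (Equiv.refl _) fun Y => kerEq_Tmap_iff hp hk b hb Y)
  rw [← h2, h1]
  congr 1
  have h3 := card_symm_entries (ι := ι) (R := ZMod (p ^ k))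
    (fun i j r => (p : ZMod (p ^ k)) ^ max (b i) (b j) * r = 0)
    (fun i j r h => by rwa [max_comm])
  have h4 : Nat.card (Tmap p k b).ker = Nat.card {M : SymA ι (ZMod (p ^ k)) // ∀ i j,
      (p : ZMod (p ^ k)) ^ max (b i) (b j) * M.1 i j = 0} := by
    refine Nat.card_congr (Equiv.subtypeEquiv (Equiv.refl _) fun Y => ?_)
    rw [AddMonoidHom.mem_ker]
    constructor
    · intro h i j
      have := congrArg (fun Z : SymA ι (ZMod (p ^ k)) => Z.1 i j) h
      exact this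
    · intro h
      apply Subtype.ext
      ext i j
      exact h i j
  rw [h4, h3]
  refine Finset.prod_congr rfl fun q _ => ?_
  exact (card_pow_mul_eq_zero hp _ (max_le (hb _).le (hb _).le)).symm

end Pool.Agent.Lib.MP_49901c_pr.Job3
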