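import Mathlib
import Pool.Agent.Lib.MP_49901c_pr.Job3B

/-!
# Job 3, part C: block decomposition and exponents
-/

namespace Pool.Agent.Lib.MP_49901c_pr.Job3

open Matrix

variable {p k : ℕ} {ι : Type*} [Fintype ι] [LinearOrder ι]

/-- Restriction of a symmetric matrix to the two blocks. -/
def blockHom (hk : k ≠ 0) (P : ι → Prop) :
    SymA ι (ZMod (p ^ k)) →+ SymA {i // ¬ P i} (ZMod p) × SymA {i // P i} (ZMod (p ^ k)) where
  toFun Y := (⟨Matrix.of fun i j => red p hk (Y.1 i.1 j.1), by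
      rw [mem_SymA]
      apply Matrix.IsSymm.ext
      intro i j
      rw [Matrix.of_apply, Matrix.of_apply, Matrix.IsSymm.apply Y.2 i.1 j.1]⟩,
    ⟨Matrix.of fun i j => Y.1 i.1 j.1, by
      rw [mem_SymA]
      apply Matrix.IsSymm.ext
      intro i j
      rw [Matrix.of_apply, Matrix.of_apply, Matrix.IsSymm.apply Y.2 i.1 j.1]⟩)
  map_zero' := by
    refine Prod.ext (Subtype.ext ?_) (Subtype.ext ?_)
    · ext i j
      simp
    · ext i j
      simp
  map_add' Y Z := by
    refine Prod.ext (Subtype.ext ?_) (Subtype.ext ?_)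
    · ext i j
      simp
    · ext i j
      simp

theorem blockHom_surjective (hp : p.Prime) (hk : k ≠ 0) (P : ι → Prop) :
    Function.Surjective (blockHom (p := p) hk P) := by
  classical
  choose s hs using red_surjective (k := k) hp hk
  rintro ⟨A, B⟩
  refine ⟨⟨Matrix.of fun i j => if h : P i then (if h' : P j then B.1 ⟨i, h⟩ ⟨j, h'⟩ else 0)
    else (if h' : P j then 0 else s (A.1 ⟨i, h⟩ ⟨j, h'⟩)), ?_⟩, ?_⟩
  · rw [mem_SymA]
    apply Matrix.IsSymm.ext
    intro i j
    simp only [Matrix.of_apply]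
    by_cases hi : P i
    · by_cases hj : P j
      · simp only [hi, hj, dif_pos]
        exact Matrix.IsSymm.apply B.2 _ _
      · simp only [hi, hj, dif_pos, dif_neg, not_false_eq_true]
    · by_cases hj : P j
      · simp only [hi, hj, dif_pos, dif_neg, not_false_eq_true]
      · simp only [hi, hj, dif_neg, not_false_eq_true]
        rw [Matrix.IsSymm.apply A.2 ⟨i, hi⟩ ⟨j, hj⟩]
  · refine Prod.ext (Subtype.ext ?_) (Subtype.ext ?_)
    · ext i j
      have hi := i.2
      have hj := j.2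
      simp only [blockHom, AddMonoidHom.coe_mk, ZeroHom.coe_mk, Matrix.of_apply, hi, hj,
        dif_neg, not_false_eq_true, Subtype.coe_eta]
      exact hs _
    · ext i j
      have hi := i.2
      have hj := j.2
      simp only [blockHom, AddMonoidHom.coe_mk, ZeroHom.coe_mk, Matrix.of_apply, hi, hj,
        dif_pos, Subtype.coe_eta]

theorem card_good_split (hp : p.Prime) (hk : k ≠ 0) (a : ι → ℕ) (ha : ∀ i, a i ≤ k) :
    Nat.card {Y : SymA ι (ZMod (p ^ k)) // Good hk a Y.1} *
      (Nat.card (SymA {i // ¬ a i ≠ 0} (ZMod p)) *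
        Nat.card (SymA {i // a i ≠ 0} (ZMod (p ^ k)))) =
    Nat.card {A : SymA {i // ¬ a i ≠ 0} (ZMod p) // IsUnit A.1.det} *
      Nat.card {B : SymA {i // a i ≠ 0} (ZMod (p ^ k)) //
        Good hk (fun i : {i // a i ≠ 0} => k - a i.1) B.1} *
      Nat.card (SymA ι (ZMod (p ^ k))) := by
  have h := card_surj (blockHom (p := p) hk (fun i => a i ≠ 0))
    (blockHom_surjective hp hk _) (fun AB => IsUnit AB.1.1.det ∧
      Good hk (fun i : {i // a i ≠ 0} => k - a i.1) AB.2.1)
  have h1 : Nat.card {Y : SymA ι (ZMod (p ^ k)) // Good hk a Y.1} =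
      Nat.card {Y : SymA ι (ZMod (p ^ k)) //
        IsUnit (blockHom hk (fun i => a i ≠ 0) Y).1.1.det ∧
        Good hk (fun i : {i // a i ≠ 0} => k - a i.1)
          (blockHom hk (fun i => a i ≠ 0) Y).2.1} := by
    refine Nat.card_congr (Equiv.subtypeEquiv (Equiv.refl _) fun Y => ?_)
    have h2 := Matrix.twoBlockTriangular_det (goodmat hk a Y.1) (fun i => a i ≠ 0) (by
      intro i hi j hj
      rw [not_not] at hi
      simp only [goodmat, Matrix.of_apply]
      rw [if_neg (by omega)])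
    have h3 : Matrix.toSquareBlockProp (goodmat hk a Y.1) (fun i => ¬ a i ≠ 0) =
        (blockHom hk (fun i => a i ≠ 0) Y).1.1 := by
      ext i j
      have hi := i.2
      have hj := j.2
      rw [not_not] at hi hj
      simp only [Matrix.toSquareBlockProp_def, Matrix.of_apply, goodmat, blockHom,
        AddMonoidHom.coe_mk, ZeroHom.coe_mk]
      rw [if_pos (by omega)]
    have h4 : (Matrix.toSquareBlockProp (goodmat hk a Y.1) (fun i => a i ≠ 0))ᵀ =
        goodmat hk (fun i : {i // a i ≠ 0} => k - a i.1)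
          (blockHom hk (fun i => a i ≠ 0) Y).2.1 := by
      ext i j
      simp only [Matrix.toSquareBlockProp_def, Matrix.of_apply, goodmat, blockHom,
        AddMonoidHom.coe_mk, ZeroHom.coe_mk, Matrix.transpose_apply]
      rw [Matrix.IsSymm.apply Y.2 i.1 j.1]
      have h5 := ha i.1
      have h6 := ha j.1
      congr 1
      simp only [eq_iff_iff]
      omega
    rw [Equiv.refl_apply]
    unfold Good
    rw [h2, h3, ← h4, Matrix.det_transpose, IsUnit.mul_iff, and_comm]
    apply iff_of_eq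
    congr
  rw [h1, ← Nat.card_prod, h]
  congr 1
  rw [← Nat.card_prod]
  exact Nat.card_congr (Equiv.subtypeProdEquivProd
    (p := fun A : SymA {i // ¬ a i ≠ 0} (ZMod p) => IsUnit A.1.det)
    (q := fun B : SymA {i // a i ≠ 0} (ZMod (p ^ k)) =>
      Good hk (fun i : {i // a i ≠ 0} => k - a i.1) B.1))

/-- Sum over the upper triangle as a double sum. -/
theorem sum_upper {M : Type*} [AddCommMonoid M] (g : ι → ι → M) :
    ∑ q : {q : ι × ι // q.1 ≤ q.2}, g q.1.1 q.1.2 =
      ∑ i, ∑ j, if i ≤ j then g i j else 0 := by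
  rw [← Fintype.sum_prod_type' (f := fun i j => if i ≤ j then g i j else 0),
    ← Finset.sum_filter]
  rw [Finset.sum_subtype (Finset.univ.filter fun x : ι × ι => x.1 ≤ x.2)
    (p := fun x : ι × ι => x.1 ≤ x.2) (by simp)]

theorem sum_upper_subtype (a : ι → ℕ) :
    ∑ q : {q : {i // a i ≠ 0} × {i // a i ≠ 0} // q.1 ≤ q.2}, min (a q.1.1.1) (a q.1.2.1) =
      ∑ i, ∑ j, if i ≤ j then min (a i) (a j) else 0 := by
  classical
  rw [sum_upper (ι := {i // a i ≠ 0}) (fun i j => min (a i.1) (a j.1))]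
  have key : ∀ h : ι → ℕ, (∀ i, a i = 0 → h i = 0) → ∑ i : {i // a i ≠ 0}, h i.1 = ∑ i, h i := by
    intro h hh
    rw [← Fintype.sum_subtype_add_sum_subtype (fun i => a i ≠ 0) h]
    have : ∑ i : {i // ¬ a i ≠ 0}, h i.1 = 0 := by
      apply Finset.sum_eq_zero
      intro i _
      exact hh i.1 (not_not.1 i.2)
    rw [this, add_zero]
  rw [← key (fun i => ∑ j, if i ≤ j then min (a i) (a j) else 0) (by
    intro i hi
    apply Finset.sum_eq_zero
    intro j _
    simp [hi])]
  refine Finset.sum_congr rfl fun i _ => ?_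
  exact key (fun j => if i.1 ≤ j then min (a i.1) (a j) else 0) (by
    intro j hj
    simp [hj])

theorem sum_exponents (n : ℕ) (a : Fin n → ℕ) :
    (∑ q : {q : Fin n × Fin n // q.1 ≤ q.2}, max (a q.1.1) (a q.1.2)) +
      ∑ q : {q : {i // a i ≠ 0} × {i // a i ≠ 0} // q.1 ≤ q.2}, min (a q.1.1.1) (a q.1.2.1) =
      (n + 1) * ∑ i, a i := by
  rw [sum_upper_subtype, sum_upper (fun i j => max (a i) (a j)), ← Finset.sum_add_distrib]
  have h1 : ∀ i, (∑ j, if i ≤ j then max (a i) (a j) else 0) +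
      (∑ j, if i ≤ j then min (a i) (a j) else 0) =
      (∑ j, if i ≤ j then a i else 0) + ∑ j, if i ≤ j then a j else 0 := by
    intro i
    rw [← Finset.sum_add_distrib, ← Finset.sum_add_distrib]
    refine Finset.sum_congr rfl fun j _ => ?_
    split_ifs
    · exact max_add_min _ _
    · rfl
  rw [Finset.sum_congr rfl fun i _ => h1 i, Finset.sum_add_distrib]
  rw [Finset.sum_comm (f := fun i j => if i ≤ j then a j else 0)]
  rw [← Finset.sum_add_distrib, Finset.mul_sum]
  refine Finset.sum_congr rfl fun i _ => ?_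
  rw [← Finset.sum_filter, ← Finset.sum_filter, Finset.sum_const, Finset.sum_const]
  have h2 : (Finset.univ.filter fun j : Fin n => i ≤ j) = Finset.Ici i := by ext; simp
  have h3 : (Finset.univ.filter fun j : Fin n => j ≤ i) = Finset.Iic i := by ext; simp
  rw [h2, h3, Fin.card_Ici, Fin.card_Iic, smul_eq_mul, smul_eq_mul, ← add_mul]
  congr 1
  have := i.2
  omega

theorem main_count (hp : p.Prime) (hk : k ≠ 0) (n : ℕ) (a : Fin n → ℕ) (ha : ∀ i, a i < k) :
    Nat.card {M : SymA (Fin n) (ZMod (p ^ k)) // KerEq p M.1 a} *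
      (p ^ ∑ i, a i) ^ (n + 1) * Nat.card (SymA {i // ¬ a i ≠ 0} (ZMod p)) =
    Nat.card {A : SymA {i // ¬ a i ≠ 0} (ZMod p) // IsUnit A.1.det} *
      Nat.card {T : SymA {i // a i ≠ 0} (ZMod (p ^ k)) //
        KerEq p T.1 (fun i : {i // a i ≠ 0} => k - a i.1)} *
      Nat.card (SymA (Fin n) (ZMod (p ^ k))) := by
  have h1 := card_kerEq hp hk a ha
  have h2 := card_kerEq (ι := {i : Fin n // a i ≠ 0}) hp hk (fun i => k - a i.1) (by
    intro i
    have := i.2
    have := ha i.1
    omega)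
  have h3 := card_good_split hp hk a (fun i => (ha i).le)
  rw [← h1, ← h2] at h3
  have h4 : Nat.card (SymA {i // a i ≠ 0} (ZMod (p ^ k))) =
      (∏ q : {q : {i // a i ≠ 0} × {i // a i ≠ 0} // q.1 ≤ q.2},
        p ^ max (k - a q.1.1.1) (k - a q.1.2.1)) *
      p ^ ∑ q : {q : {i // a i ≠ 0} × {i // a i ≠ 0} // q.1 ≤ q.2},
        min (a q.1.1.1) (a q.1.2.1) := by
    rw [card_SymA, ← Finset.prod_pow_eq_pow_sum, ← Finset.prod_mul_distrib]
    refine Finset.prod_congr rfl fun q _ => ?_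
    rw [Nat.card_zmod, ← pow_add]
    congr 1
    have := ha q.1.1.1
    have := ha q.1.2.1
    omega
  rw [h4, Finset.prod_pow_eq_pow_sum Finset.univ (fun q : {q : Fin n × Fin n // q.1 ≤ q.2} =>
    max (a q.1.1) (a q.1.2)) p] at h3
  have h5 := sum_exponents n a
  have h6 : (p ^ ∑ i, a i) ^ (n + 1) =
      p ^ (∑ q : {q : Fin n × Fin n // q.1 ≤ q.2}, max (a q.1.1) (a q.1.2)) *
      p ^ ∑ q : {q : {i // a i ≠ 0} × {i // a i ≠ 0} // q.1 ≤ q.2},
        min (a q.1.1.1) (a q.1.2.1) := by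
    rw [← pow_add, h5, ← pow_mul, mul_comm]
  rw [h6]
  have h7 : 0 < ∏ q : {q : {i // a i ≠ 0} × {i // a i ≠ 0} // q.1 ≤ q.2},
        p ^ max (k - a q.1.1.1) (k - a q.1.2.1) :=
    Finset.prod_pos fun q _ => pow_pos hp.pos _
  apply Nat.eq_of_mul_eq_mul_right h7
  linarith [h3]

end Pool.Agent.Lib.MP_49901c_pr.Job3
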