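import Mathlib
import Pool.Agent.Lib.MP_49901c_pr.Defs
import Pool.Agent.Lib.MP_49901c_pr.Job3B

/-!
# Job 3, part D: perfect symmetric pairings as matrices
-/

namespace Pool.Agent.Lib.MP_49901c_pr.Job3

open Matrix

theorem exists_iota (m : ℕ) (hm : m ≠ 0) : ∃ f : ZMod m →+ Additive ℂˣ,
    Function.Injective f ∧ ∀ u : Additive ℂˣ, m • u = 0 → ∃ t, f t = u := by
  have : NeZero m := ⟨hm⟩
  have h := (Complex.isPrimitiveRoot_exp m hm).isUnit_unit hm
  set ζ : ℂˣ := ((Complex.isPrimitiveRoot_exp m hm).isUnit hm).unit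
  refine ⟨(MonoidHom.toAdditive (Subgroup.zpowers ζ).subtype).comp
    h.zmodEquivZPowers.toAddMonoidHom, ?_, ?_⟩
  · have h1 : Function.Injective (MonoidHom.toAdditive (Subgroup.zpowers ζ).subtype) :=
      Subtype.val_injective
    exact h1.comp h.zmodEquivZPowers.injective
  · intro u hu
    have h1 : Additive.toMul u ∈ Subgroup.zpowers ζ := by
      rw [h.zpowers_eq, mem_rootsOfUnity]
      have h2 := congrArg Additive.toMul hu
      simpa using h2
    refine ⟨h.zmodEquivZPowers.symm (Additive.ofMul ⟨Additive.toMul u, h1⟩), ?_⟩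
    simp

theorem card_addDual (W : Type*) [AddCommGroup W] [Finite W] :
    Nat.card (W →+ Additive ℂˣ) = Nat.card W := by
  have h := CommGroup.card_monoidHom_of_hasEnoughRootsOfUnity (Multiplicative W) ℂ
  rw [← Nat.card_congr (Multiplicative.toAdd : Multiplicative W ≃ W), ← h]
  exact Nat.card_congr (AddMonoidHom.toMultiplicativeLeft)

theorem exists_descend {G W A : Type*} [AddCommGroup G] [AddCommGroup W] [AddCommGroup A]
    (π : G →+ W) (hπ : Function.Surjective π) (g : G →+ A) (hg : ∀ x, π x = 0 → g x = 0) :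
    ∃ h : W →+ A, ∀ x, h (π x) = g x :=
  ⟨π.liftOfSurjective hπ ⟨g, fun x hx => hg x hx⟩,
    fun x => AddMonoidHom.liftOfRightInverse_comp_apply _ _ _ _ x⟩

theorem hom_ext_single {m : ℕ} (hm : m ≠ 0) {S A : Type*} [Fintype S] [DecidableEq S]
    [AddCommGroup A] (f g : (S → ZMod m) →+ A)
    (h : ∀ i, f (Pi.single i 1) = g (Pi.single i 1)) (x : S → ZMod m) : f x = g x := by
  have : NeZero m := ⟨hm⟩
  have key : f = g := by
    apply AddMonoidHom.functions_ext
    intro i c
    have h1 : (Pi.single i c : S → ZMod m) = c.val • Pi.single i (1 : ZMod m) := by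
      rw [← Pi.single_smul, nsmul_eq_mul, ZMod.natCast_zmod_val, mul_one]
    rw [h1, map_nsmul, map_nsmul, h i]
  rw [key]

theorem numPairings_eq {p k : ℕ} (hp : p.Prime) {S W : Type*} [Fintype S] [DecidableEq S]
    [AddCommGroup W] [Finite W] (π : (S → ZMod (p ^ k)) →+ W) (hπ : Function.Surjective π) :
    numPairings W = Nat.card {T : SymA S (ZMod (p ^ k)) // ∀ x, T.1 *ᵥ x = 0 ↔ π x = 0} := by
  have hm : p ^ k ≠ 0 := (pow_pos hp.pos k).ne'
  obtain ⟨f, hinj, hsurj⟩ := exists_iota (p ^ k) hm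
  have hinj0 : ∀ t, f t = 0 → t = 0 := fun t ht => hinj (by rw [ht, map_zero])
  -- from matrices to pairings
  have h1 : ∀ T : {T : SymA S (ZMod (p ^ k)) // ∀ x, T.1 *ᵥ x = 0 ↔ π x = 0},
      ∃ φ : W →+ W →+ Additive ℂˣ, ∀ x y, φ (π x) (π y) = f (x ⬝ᵥ (T.1.1 *ᵥ y)) := by
    rintro ⟨T, hT⟩
    have hx : ∀ x : S → ZMod (p ^ k), ∃ h : W →+ Additive ℂˣ, ∀ y,
        h (π y) = f (x ⬝ᵥ (T.1 *ᵥ y)) := by
      intro x
      exact exists_descend π hπ (AddMonoidHom.mk' (fun y => f (x ⬝ᵥ (T.1 *ᵥ y))) (by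
        intro a b
        rw [Matrix.mulVec_add, dotProduct_add, map_add])) (by
        intro y hy
        show f (x ⬝ᵥ (T.1 *ᵥ y)) = 0
        rw [(hT y).2 hy, dotProduct_zero, map_zero])
    choose h hh using hx
    obtain ⟨φ, hφ⟩ := exists_descend π hπ (AddMonoidHom.mk' h (by
      intro a b
      ext w
      obtain ⟨y, rfl⟩ := hπ w
      rw [AddMonoidHom.add_apply, hh, hh, hh, add_dotProduct, map_add])) (by
      intro x hx
      show h x = 0
      ext w
      obtain ⟨y, rfl⟩ := hπ w
      rw [hh, AddMonoidHom.zero_apply]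
      have h2 : x ⬝ᵥ (T.1 *ᵥ y) = (T.1 *ᵥ x) ⬝ᵥ y := by
        have h3 : T.1ᵀ = T.1 := T.2
        rw [Matrix.dotProduct_mulVec, ← Matrix.mulVec_transpose, h3]
      rw [h2, (hT x).2 hx, zero_dotProduct, map_zero])
    refine ⟨φ, fun x y => ?_⟩
    rw [hφ]
    exact hh x y
  choose F hF using h1
  have hFsymm : ∀ T x y, F T x y = F T y x := by
    intro T x y
    obtain ⟨x, rfl⟩ := hπ x
    obtain ⟨y, rfl⟩ := hπ y
    rw [hF, hF]
    have h3 : T.1.1ᵀ = T.1.1 := T.1.2
    rw [Matrix.dotProduct_mulVec, ← Matrix.mulVec_transpose, h3, dotProduct_comm]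
  have hFinj : ∀ T, Function.Injective (F T) := by
    intro T
    rw [injective_iff_map_eq_zero]
    intro w hw
    obtain ⟨x, rfl⟩ := hπ w
    rw [← T.2]
    funext i
    apply hinj0
    have h2 := hF T (Pi.single i 1) x
    rw [hFsymm, hw, AddMonoidHom.zero_apply, single_one_dotProduct] at h2
    exact h2.symm
  have hFbij : ∀ T, Function.Bijective (F T) := by
    intro T
    have : Finite (W →+ Additive ℂˣ) := Nat.finite_of_card_ne_zero (by
      rw [card_addDual]; exact Nat.card_pos.ne')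
    exact (Nat.bijective_iff_injective_and_card _).2 ⟨hFinj T, (card_addDual W).symm⟩
  unfold numPairings
  symm
  refine Nat.card_congr (Equiv.ofBijective (fun T => ⟨F T, hFsymm T, hFbij T⟩) ⟨?_, ?_⟩)
  · intro T T' h
    have h2 : F T = F T' := congrArg Subtype.val h
    apply Subtype.ext
    apply Subtype.ext
    ext i j
    apply hinj
    have h3 := hF T (Pi.single i 1) (Pi.single j 1)
    have h4 := hF T' (Pi.single i 1) (Pi.single j 1)
    rw [h2, h4] at h3
    rw [single_one_dotProduct, single_one_dotProduct, Matrix.mulVec_single_one,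
      Matrix.mulVec_single_one] at h3
    exact h3.symm
  · rintro ⟨φ, hφs, hφb⟩
    have h2 : ∀ i j : S, ∃ t, f t = φ (π (Pi.single i 1)) (π (Pi.single j 1)) := by
      intro i j
      apply hsurj
      rw [← map_nsmul, ← map_nsmul]
      have : (p ^ k) • (Pi.single j 1 : S → ZMod (p ^ k)) = 0 := by
        funext l
        rw [Pi.smul_apply, nsmul_eq_mul, ZMod.natCast_self, zero_mul, Pi.zero_apply]
      rw [this, map_zero, map_zero]
    choose t ht using h2
    have hts : ∀ i j, t j i = t i j := by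
      intro i j
      apply hinj
      rw [ht, ht, hφs]
    have hrel : ∀ x y, φ (π x) (π y) = f (x ⬝ᵥ (Matrix.of t *ᵥ y)) := by
      intro x y
      refine hom_ext_single hm ((AddMonoidHom.mk' (fun x => φ (π x) (π y)) (by
        intro a b; rw [map_add, map_add, AddMonoidHom.add_apply])))
        (AddMonoidHom.mk' (fun x => f (x ⬝ᵥ (Matrix.of t *ᵥ y))) (by
        intro a b; rw [add_dotProduct, map_add])) ?_ x
      intro i
      refine hom_ext_single hm ((AddMonoidHom.mk' (fun y => φ (π (Pi.single i 1)) (π y)) (by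
        intro a b; rw [map_add, map_add])))
        (AddMonoidHom.mk' (fun y => f ((Pi.single i 1) ⬝ᵥ (Matrix.of t *ᵥ y))) (by
        intro a b; rw [Matrix.mulVec_add, dotProduct_add, map_add])) ?_ y
      intro j
      show φ (π (Pi.single i 1)) (π (Pi.single j 1)) =
        f ((Pi.single i 1) ⬝ᵥ (Matrix.of t *ᵥ (Pi.single j 1)))
      rw [← ht, single_one_dotProduct, Matrix.mulVec_single_one]
      rfl
    have hsymm : (Matrix.of t).IsSymm := Matrix.IsSymm.ext fun i j => hts i j
    refine ⟨⟨⟨Matrix.of t, hsymm⟩, ?_⟩, ?_⟩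
    · intro x
      constructor
      · intro hx
        have h3 : φ (π x) = 0 := by
          ext w
          obtain ⟨y, rfl⟩ := hπ w
          rw [hφs, hrel, AddMonoidHom.zero_apply]
          have hx' : Matrix.of t *ᵥ x = 0 := hx
          rw [hx', dotProduct_zero, map_zero]
        exact (injective_iff_map_eq_zero φ).1 hφb.1 _ h3
      · intro hx
        funext i
        apply hinj0
        have h3 := hrel (Pi.single i 1) x
        rw [hx, map_zero, single_one_dotProduct] at h3
        exact h3.symm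
    · apply Subtype.ext
      show F _ = φ
      ext v w
      obtain ⟨x, rfl⟩ := hπ v
      obtain ⟨y, rfl⟩ := hπ w
      rw [hF, hrel]

end Pool.Agent.Lib.MP_49901c_pr.Job3
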