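import Mathlib
import Pool.Agent.Lib.MP_49901c_pr.Job3B

/-!
# Job 3, part E: Smith normal form of a subgroup of `(ZMod (p ^ k)) ^ n`
-/

namespace Pool.Agent.Lib.MP_49901c_pr.Job3

open Matrix

theorem exists_smith_int {n : ℕ} (L : Submodule ℤ (Fin n → ℤ)) :
    ∃ (P Q : Matrix (Fin n) (Fin n) ℤ) (a : Fin n → ℤ), P * Q = 1 ∧
      ∀ v, v ∈ L ↔ ∃ y : Fin n → ℤ, v = P *ᵥ (fun i => a i * y i) := by
  classical
  obtain ⟨m, snf⟩ := L.smithNormalForm (Pi.basisFun ℤ (Fin n))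
  have hP : ∀ y : Fin n → ℤ, ((Pi.basisFun ℤ (Fin n)).toMatrix snf.bM) *ᵥ y =
      ∑ j, y j • snf.bM j := by
    intro y
    funext i
    simp only [Matrix.mulVec, dotProduct, Module.Basis.toMatrix_apply, Pi.basisFun_repr,
      Finset.sum_apply, Pi.smul_apply, smul_eq_mul]
    exact Finset.sum_congr rfl fun j _ => mul_comm _ _
  let a' : Fin n → ℤ := fun j => if h : ∃ i, snf.f i = j then snf.a h.choose else 0
  have ha' : ∀ i, a' (snf.f i) = snf.a i := by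
    intro i
    have h : ∃ i', snf.f i' = snf.f i := ⟨i, rfl⟩
    simp only [a', dif_pos h]
    rw [snf.f.injective h.choose_spec]
  have ha0 : ∀ j, j ∉ Set.range snf.f → a' j = 0 := by
    intro j hj
    have h : ¬ ∃ i, snf.f i = j := hj
    simp only [a', dif_neg h]
  refine ⟨(Pi.basisFun ℤ (Fin n)).toMatrix snf.bM, snf.bM.toMatrix (Pi.basisFun ℤ (Fin n)), a',
    Module.Basis.toMatrix_mul_toMatrix_flip _ _, fun v => ⟨fun hv => ?_, ?_⟩⟩
  · refine ⟨fun j => if h : ∃ i, snf.f i = j then snf.bN.repr ⟨v, hv⟩ h.choose else 0, ?_⟩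
    rw [hP]
    refine (snf.bM.sum_repr v).symm.trans (Finset.sum_congr rfl fun j _ => ?_)
    congr 1
    · by_cases h : j ∈ Set.range snf.f
      · obtain ⟨i, rfl⟩ := h
        have h : ∃ i', snf.f i' = snf.f i := ⟨i, rfl⟩
        rw [ha']
        beta_reduce
        rw [dif_pos h, snf.f.injective h.choose_spec]
        have h2 := snf.repr_apply_embedding_eq_repr_smul ⟨v, hv⟩ (i := i)
        rw [map_smul, Finsupp.smul_apply, smul_eq_mul] at h2
        rw [← h2]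
      · rw [ha0 j h, zero_mul]
        have h2 := snf.repr_eq_zero_of_notMem_range ⟨v, hv⟩ h
        simpa using h2
  · rintro ⟨y, rfl⟩
    rw [hP]
    refine Submodule.sum_mem _ fun j _ => ?_
    by_cases h : j ∈ Set.range snf.f
    · obtain ⟨i, rfl⟩ := h
      rw [ha', mul_comm, mul_smul, ← snf.snf]
      exact Submodule.smul_mem _ _ (snf.bN i).2
    · rw [ha0 j h, zero_mul, zero_smul]
      exact Submodule.zero_mem _

theorem exists_smith {p k : ℕ} (hp : p.Prime) {n : ℕ} (V : AddSubgroup (Fin n → ZMod (p ^ k))) :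
    ∃ (P : Matrix (Fin n) (Fin n) (ZMod (p ^ k))) (c : Fin n → ℕ), IsUnit P.det ∧
      (∀ i, c i ≤ k) ∧
      ∀ x, x ∈ V ↔ ∃ y : Fin n → ZMod (p ^ k), x = P *ᵥ (fun i => (p : ZMod (p ^ k)) ^ c i * y i) := by
  classical
  have : NeZero (p ^ k) := ⟨(pow_pos hp.pos k).ne'⟩
  let φ : (Fin n → ℤ) →+ (Fin n → ZMod (p ^ k)) :=
    AddMonoidHom.mk' (fun v i => ((v i : ℤ) : ZMod (p ^ k))) (by
      intro a b
      funext i
      simp)
  have hφ : ∀ v i, φ v i = ((v i : ℤ) : ZMod (p ^ k)) := fun _ _ => rfl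
  have hφs : Function.Surjective φ := by
    intro x
    refine ⟨fun i => ((x i).val : ℤ), ?_⟩
    funext i
    rw [hφ]
    simp
  obtain ⟨P, Q, a, hPQ, hL⟩ := exists_smith_int (AddSubgroup.toIntSubmodule (V.comap φ))
  have hL' : ∀ v, φ v ∈ V ↔ ∃ y : Fin n → ℤ, v = P *ᵥ (fun i => a i * y i) := fun v => hL v
  have hmul : ∀ y : Fin n → ℤ, φ (P *ᵥ y) = (P.map (Int.castRingHom (ZMod (p ^ k)))) *ᵥ (φ y) := by
    intro y
    funext i
    rw [hφ]
    simp only [Matrix.mulVec, dotProduct, Matrix.map_apply, hφ]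
    push_cast
    rfl
  have hdecomp : ∀ i, ∃ c : ℕ, c ≤ k ∧ ∃ u : ZMod (p ^ k), IsUnit u ∧
      ((a i : ℤ) : ZMod (p ^ k)) = u * (p : ZMod (p ^ k)) ^ c := by
    intro i
    obtain ⟨d, hd, u, hu, h⟩ := ZMod.eq_unit_mul_divisor ((a i : ℤ) : ZMod (p ^ k))
    obtain ⟨c, hc, rfl⟩ := (Nat.dvd_prime_pow hp).1 hd
    exact ⟨c, hc, u, hu, by rw [h]; push_cast; rfl⟩
  choose c hc u hu hau using hdecomp
  refine ⟨P.map (Int.castRingHom (ZMod (p ^ k))), c, ?_, hc, fun x => ⟨fun hx => ?_, ?_⟩⟩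
  · have h1 : P.map (Int.castRingHom (ZMod (p ^ k))) * Q.map (Int.castRingHom (ZMod (p ^ k))) = 1 := by
      rw [← Matrix.map_mul, hPQ]
      simp
    exact Matrix.isUnit_det_of_right_inverse h1
  · obtain ⟨v, rfl⟩ := hφs x
    obtain ⟨y, rfl⟩ := (hL' v).1 hx
    refine ⟨fun i => u i * φ y i, ?_⟩
    rw [hmul]
    congr 1
    funext i
    rw [hφ]
    beta_reduce
    rw [hφ]
    push_cast
    rw [hau]
    ring
  · rintro ⟨y, rfl⟩
    obtain ⟨z, hz⟩ := hφs (fun i => ((hu i).unit⁻¹ : (ZMod (p ^ k))ˣ) * y i)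
    have h1 : φ (P *ᵥ (fun i => a i * z i)) ∈ V := (hL' _).2 ⟨z, rfl⟩
    rw [hmul] at h1
    convert h1 using 2
    funext i
    have h2 := congrFun hz i
    rw [hφ] at h2
    rw [hφ]
    push_cast
    rw [hau, h2]
    have h3 : u i * ((hu i).unit⁻¹ : (ZMod (p ^ k))ˣ) = 1 := (hu i).mul_val_inv
    calc (p : ZMod (p ^ k)) ^ c i * y i = 1 * ((p : ZMod (p ^ k)) ^ c i * y i) := by rw [one_mul]
      _ = _ := by rw [← h3]; ring

end Pool.Agent.Lib.MP_49901c_pr.Job3
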