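import Mathlib
import Pool.Agent.Lib.MP_49901c_pr.Uniform
import Pool.Agent.Lib.MP_49901c_pr.Job3C
import Pool.Agent.Lib.MP_49901c_pr.Job3D
import Pool.Agent.Lib.MP_49901c_pr.Job3E

/-!
# Job 3, part F: the number of symmetric matrices with a given kernel
-/

namespace Pool.Agent.Lib.MP_49901c_pr.Job3

open Matrix

theorem card_diag {p k : ℕ} (hp : p.Prime) {n : ℕ} (e : Fin n → ℕ) (he : ∀ i, e i ≤ k) :
    Nat.card {x : Fin n → ZMod (p ^ k) // ∀ i, (p : ZMod (p ^ k)) ^ e i * x i = 0} =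
      p ^ ∑ i, e i := by
  rw [Nat.card_congr (Equiv.subtypePiEquivPi (p := fun i (r : ZMod (p ^ k)) =>
    (p : ZMod (p ^ k)) ^ e i * r = 0)), Nat.card_pi, ← Finset.prod_pow_eq_pow_sum]
  exact Finset.prod_congr rfl fun i _ => card_pow_mul_eq_zero hp _ (he i)

/-- Congruence action on symmetric matrices. -/
noncomputable def conjEquiv {n : ℕ} {R : Type*} [CommRing R] (P : Matrix (Fin n) (Fin n) R)
    (hP : IsUnit P.det) : SymA (Fin n) R ≃ SymA (Fin n) R where
  toFun M := ⟨Pᵀ * M.1 * P, by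
    have h : M.1ᵀ = M.1 := M.2
    rw [mem_SymA, Matrix.IsSymm, Matrix.transpose_mul, Matrix.transpose_mul,
      Matrix.transpose_transpose, h, Matrix.mul_assoc]⟩
  invFun M := ⟨(P⁻¹)ᵀ * M.1 * P⁻¹, by
    have h : M.1ᵀ = M.1 := M.2
    rw [mem_SymA, Matrix.IsSymm, Matrix.transpose_mul, Matrix.transpose_mul,
      Matrix.transpose_transpose, h, Matrix.mul_assoc]⟩
  left_inv M := by
    apply Subtype.ext
    show (P⁻¹)ᵀ * (Pᵀ * M.1 * P) * P⁻¹ = M.1
    have h1 : (P⁻¹)ᵀ * Pᵀ = 1 := by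
      rw [← Matrix.transpose_mul, Matrix.mul_nonsing_inv _ hP, Matrix.transpose_one]
    calc (P⁻¹)ᵀ * (Pᵀ * M.1 * P) * P⁻¹ = ((P⁻¹)ᵀ * Pᵀ) * M.1 * (P * P⁻¹) := by
          simp only [Matrix.mul_assoc]
      _ = M.1 := by rw [h1, Matrix.mul_nonsing_inv _ hP, Matrix.one_mul, Matrix.mul_one]
  right_inv M := by
    apply Subtype.ext
    show Pᵀ * ((P⁻¹)ᵀ * M.1 * P⁻¹) * P = M.1
    have h1 : Pᵀ * (P⁻¹)ᵀ = 1 := by
      rw [← Matrix.transpose_mul, Matrix.nonsing_inv_mul _ hP, Matrix.transpose_one]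
    calc Pᵀ * ((P⁻¹)ᵀ * M.1 * P⁻¹) * P = (Pᵀ * (P⁻¹)ᵀ) * M.1 * (P⁻¹ * P) := by
          simp only [Matrix.mul_assoc]
      _ = M.1 := by rw [h1, Matrix.nonsing_inv_mul _ hP, Matrix.one_mul, Matrix.mul_one]

theorem symInvProb_eq {p m : ℕ} {Z : Type*} [Fintype Z] [DecidableEq Z] (hZ : Fintype.card Z = m) :
    symInvProb p m = (Nat.card {A : SymA Z (ZMod p) // IsUnit A.1.det} : ℝ) /
      Nat.card (SymA Z (ZMod p)) := by
  let e : Z ≃ Fin m := Fintype.equivFinOfCardEq hZ
  let E : SymA Z (ZMod p) ≃ SymMat m (ZMod p) :=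
    { toFun := fun A => ⟨A.1.submatrix e.symm e.symm, Matrix.IsSymm.submatrix A.2 _⟩
      invFun := fun A => ⟨A.1.submatrix e e, Matrix.IsSymm.submatrix A.2 _⟩
      left_inv := fun A => by
        apply Subtype.ext
        ext i j
        simp
      right_inv := fun A => by
        apply Subtype.ext
        ext i j
        simp }
  unfold symInvProb
  rw [← Nat.card_congr E]
  congr 2
  symm
  refine Nat.card_congr (Equiv.subtypeEquiv E fun A => ?_)
  show _ ↔ IsUnit (A.1.submatrix e.symm e.symm).det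
  rw [Matrix.det_submatrix_equiv_self]

theorem card_ker_eq_range {p k : ℕ} (hp : p.Prime) (hk : k ≠ 0) (N : Type*) [AddCommGroup N]
    [Finite N] (hN : ∀ x : N, p ^ (k - 1) • x = 0) (n r : ℕ)
    (hr : Nat.card (N ⧸ (nsmulAddMonoidHom p : N →+ N).range) = p ^ r)
    (Φ : N →+ (Fin n → ZMod (p ^ k))) (hΦ : Function.Injective Φ) :
    (Nat.card {M : SymA (Fin n) (ZMod (p ^ k)) // ∀ x, M.1 *ᵥ x = 0 ↔ x ∈ Φ.range} : ℝ) *
        (Nat.card N : ℝ) ^ (n + 1) =
      (numPairings N : ℝ) * (Nat.card (SymA (Fin n) (ZMod (p ^ k))) : ℝ) *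
        symInvProb p (n - r) := by
  classical
  have : NeZero (p ^ k) := ⟨(pow_pos hp.pos k).ne'⟩
  have : NeZero p := ⟨hp.ne_zero⟩
  obtain ⟨P, c, hP, hc, hV⟩ := exists_smith hp Φ.range
  have hPinj : ∀ x y, P *ᵥ x = P *ᵥ y → x = y := by
    intro x y h
    have h1 := congrArg (fun w => P⁻¹ *ᵥ w) h
    simpa only [Matrix.mulVec_mulVec, Matrix.nonsing_inv_mul _ hP, Matrix.one_mulVec] using h1
  have hc1 : ∀ i, 1 ≤ c i := by
    intro i
    by_contra h
    have hci : c i = 0 := by omega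
    have h1 : P *ᵥ (fun j => (p : ZMod (p ^ k)) ^ c j * (Pi.single i 1 : Fin n → ZMod (p ^ k)) j) ∈
        Φ.range := (hV _).2 ⟨_, rfl⟩
    obtain ⟨w, hw⟩ := h1
    have h2 : p ^ (k - 1) • (P *ᵥ (fun j => (p : ZMod (p ^ k)) ^ c j *
        (Pi.single i 1 : Fin n → ZMod (p ^ k)) j)) = 0 := by
      rw [← hw, ← map_nsmul, hN, map_zero]
    have h3 : P *ᵥ (p ^ (k - 1) • (fun j => (p : ZMod (p ^ k)) ^ c j *
        (Pi.single i 1 : Fin n → ZMod (p ^ k)) j)) = P *ᵥ 0 := by
      rw [Matrix.mulVec_smul, h2, Matrix.mulVec_zero]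
    have h4 := congrFun (hPinj _ _ h3) i
    rw [Pi.smul_apply, hci, pow_zero, one_mul, Pi.single_eq_same, nsmul_eq_mul, mul_one,
      Pi.zero_apply, ZMod.natCast_eq_zero_iff] at h4
    have h5 := (Nat.pow_dvd_pow_iff_le_right hp.one_lt).1 h4
    omega
  obtain ⟨a, ha⟩ : ∃ a : Fin n → ℕ, ∀ i, a i = k - c i := ⟨fun i => k - c i, fun i => rfl⟩
  have hak : ∀ i, a i < k := by
    intro i
    have := hc1 i
    rw [ha]
    omega
  have hV' : ∀ x, P *ᵥ x ∈ Φ.range ↔ ∀ i, (p : ZMod (p ^ k)) ^ a i * x i = 0 := by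
    intro x
    rw [hV]
    constructor
    · rintro ⟨y, hy⟩ i
      rw [hPinj _ _ hy, ← mul_assoc, ← pow_add, ha, Nat.sub_add_cancel (hc i), pow_k_eq_zero,
        zero_mul]
    · intro h
      have h1 : ∀ i, ∃ y, x i = (p : ZMod (p ^ k)) ^ c i * y := by
        intro i
        have h2 := h i
        rw [ha] at h2
        exact dvd_of_mul_eq_zero hp _ (hc i) _ h2
      choose y hy using h1
      exact ⟨y, by congr 1; funext i; exact hy i⟩
  -- the equivalence between `N` and the diagonal group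
  obtain ⟨ψ, hψ⟩ : ∃ ψ : {x : Fin n → ZMod (p ^ k) // ∀ i, (p : ZMod (p ^ k)) ^ a i * x i = 0} ≃ N,
      ∀ x, Φ (ψ x) = P *ᵥ x.1 := by
    let e : N ≃+ Φ.range := AddMonoidHom.ofInjective hΦ
    have he : ∀ z : Φ.range, Φ (e.symm z) = z.1 := by
      intro z
      have h1 : ∀ w, (e w).1 = Φ w := fun w => rfl
      rw [← h1, e.apply_symm_apply]
    refine ⟨Equiv.ofBijective (fun x => e.symm ⟨P *ᵥ x.1, (hV' _).2 x.2⟩) ⟨?_, ?_⟩, ?_⟩
    · intro x y h
      have h1 := e.symm.injective h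
      exact Subtype.ext (hPinj _ _ (congrArg Subtype.val h1))
    · intro w
      obtain ⟨y, hy⟩ := (hV (Φ w)).1 ⟨w, rfl⟩
      refine ⟨⟨_, (hV' _).1 (by rw [← hy]; exact ⟨w, rfl⟩)⟩, ?_⟩
      apply hΦ
      rw [he]
      exact hy.symm
    · intro x
      exact he _
  have hcardN : Nat.card N = p ^ ∑ i, a i := by
    rw [← Nat.card_congr ψ, card_diag hp a (fun i => (hak i).le)]
  -- the rank
  have hrS : r = Fintype.card {i // a i ≠ 0} := by
    have h1 : Nat.card (N ⧸ (nsmulAddMonoidHom p : N →+ N).range) =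
        Nat.card (nsmulAddMonoidHom p : N →+ N).ker := by
      rw [← AddSubgroup.index_range]
      rfl
    have h2 : Nat.card (nsmulAddMonoidHom p : N →+ N).ker =
        Nat.card {x : Fin n → ZMod (p ^ k) // ∀ i, (p : ZMod (p ^ k)) ^ min (a i) 1 * x i = 0} := by
      have h3 : Nat.card (nsmulAddMonoidHom p : N →+ N).ker =
          Nat.card {x : {x : Fin n → ZMod (p ^ k) // ∀ i, (p : ZMod (p ^ k)) ^ a i * x i = 0} //
            ∀ i, (p : ZMod (p ^ k)) * x.1 i = 0} := by
        symm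
        refine Nat.card_congr (Equiv.subtypeEquiv ψ fun x => ?_)
        rw [AddMonoidHom.mem_ker, nsmulAddMonoidHom_apply]
        have h4 : p • ψ x = 0 ↔ p • x.1 = 0 := by
          constructor
          · intro h
            apply hPinj
            rw [Matrix.mulVec_smul, ← hψ, ← map_nsmul, h, map_zero, Matrix.mulVec_zero]
          · intro h
            apply hΦ
            rw [map_nsmul, hψ, ← Matrix.mulVec_smul, h, Matrix.mulVec_zero, map_zero]
        rw [h4]
        constructor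
        · intro h
          funext i
          rw [Pi.smul_apply, nsmul_eq_mul]
          exact h i
        · intro h i
          have := congrFun h i
          rwa [Pi.smul_apply, nsmul_eq_mul] at this
      rw [h3, Nat.card_congr (Equiv.subtypeSubtypeEquivSubtypeInter _
        (fun x : Fin n → ZMod (p ^ k) => ∀ i, (p : ZMod (p ^ k)) * x i = 0))]
      refine Nat.card_congr (Equiv.subtypeEquiv (Equiv.refl _) fun x => ?_)
      rw [← forall_and]
      refine forall_congr' fun i => ?_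
      rw [Equiv.refl_apply]
      by_cases hi : a i = 0
      · rw [hi, pow_zero, one_mul, Nat.zero_min, pow_zero, one_mul]
        constructor
        · exact fun h => h.1
        · intro h
          exact ⟨h, by rw [h, mul_zero]⟩
      · rw [min_eq_right (Nat.one_le_iff_ne_zero.2 hi), pow_one]
        constructor
        · exact fun h => h.2
        · intro h
          refine ⟨?_, h⟩
          obtain ⟨m, hm⟩ := Nat.exists_eq_succ_of_ne_zero hi
          rw [hm, pow_succ, mul_assoc, h, mul_zero]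
    rw [h1, h2, card_diag hp _ (fun i => (min_le_right _ _).trans
      (Nat.one_le_iff_ne_zero.2 hk))] at hr
    have h5 := Nat.pow_right_injective hp.two_le hr
    rw [← h5, Fintype.card_subtype, Finset.card_filter]
    refine Finset.sum_congr rfl fun i _ => ?_
    split_ifs with h6
    · exact min_eq_right (Nat.one_le_iff_ne_zero.2 h6)
    · rw [not_not] at h6
      rw [h6, Nat.zero_min]
  have hZ : Fintype.card {i // ¬ a i ≠ 0} = n - r := by
    rw [Fintype.card_subtype_compl, Fintype.card_fin, hrS]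
  -- the pairings
  have hpair : numPairings N = Nat.card {T : SymA {i // a i ≠ 0} (ZMod (p ^ k)) //
      KerEq p T.1 (fun i : {i // a i ≠ 0} => k - a i.1)} := by
    let e : N ≃+ Φ.range := AddMonoidHom.ofInjective hΦ
    have he : ∀ z : Φ.range, Φ (e.symm z) = z.1 := by
      intro z
      have h1 : ∀ w, (e w).1 = Φ w := fun w => rfl
      rw [← h1, e.apply_symm_apply]
    let ext : ({i // a i ≠ 0} → ZMod (p ^ k)) → (Fin n → ZMod (p ^ k)) :=
      fun y i => (p : ZMod (p ^ k)) ^ c i * (if h : a i ≠ 0 then y ⟨i, h⟩ else 0)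
    have hext : ∀ y i, ext y i =
        (p : ZMod (p ^ k)) ^ c i * (if h : a i ≠ 0 then y ⟨i, h⟩ else 0) := fun _ _ => rfl
    have hextV : ∀ y, P *ᵥ ext y ∈ Φ.range := fun y => (hV _).2 ⟨_, rfl⟩
    have hextadd : ∀ y z, ext (y + z) = ext y + ext z := by
      intro y z
      funext i
      rw [Pi.add_apply, hext, hext, hext, ← mul_add]
      congr 1
      split_ifs
      · rfl
      · rw [add_zero]
    let π : ({i // a i ≠ 0} → ZMod (p ^ k)) →+ N :=
      AddMonoidHom.mk' (fun y => e.symm ⟨P *ᵥ ext y, hextV y⟩) (by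
        intro y z
        rw [← map_add]
        congr 1
        apply Subtype.ext
        show P *ᵥ ext (y + z) = P *ᵥ ext y + P *ᵥ ext z
        rw [hextadd, Matrix.mulVec_add])
    have hπΦ : ∀ y, Φ (π y) = P *ᵥ ext y := fun y => he _
    have hπ : Function.Surjective π := by
      intro w
      obtain ⟨y, hy⟩ := (hV (Φ w)).1 ⟨w, rfl⟩
      refine ⟨fun i => y i.1, ?_⟩
      apply hΦ
      rw [hπΦ, hy]
      congr 1
      funext i
      refine (hext (fun i => y i.1) i).trans ?_
      split_ifs with h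
      · rfl
      · rw [not_not, ha] at h
        have h1 : c i = k := by
          have := hc i
          omega
        rw [h1, pow_k_eq_zero, zero_mul, zero_mul]
    rw [numPairings_eq hp π hπ]
    refine Nat.card_congr (Equiv.subtypeEquiv (Equiv.refl _) fun T => ?_)
    refine forall_congr' fun x => ?_
    have h1 : π x = 0 ↔ ∀ i : {i // a i ≠ 0}, (p : ZMod (p ^ k)) ^ (k - a i.1) * x i = 0 := by
      constructor
      · intro h i
        have h2 : P *ᵥ ext x = P *ᵥ 0 := by
          rw [← hπΦ, h, map_zero, Matrix.mulVec_zero]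
        have h3 := congrFun (hPinj _ _ h2) i.1
        rw [hext, dif_pos i.2, Pi.zero_apply] at h3
        have h4 : k - a i.1 = c i.1 := by
          rw [ha]
          have := hc i.1
          omega
        rw [h4]
        exact h3
      · intro h
        apply hΦ
        rw [hπΦ, map_zero]
        have h2 : ext x = 0 := by
          funext i
          rw [hext, Pi.zero_apply]
          split_ifs with h3
          · have h4 : k - a i = c i := by
              rw [ha]
              have := hc i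
              omega
            rw [← h4]
            exact h ⟨i, h3⟩
          · rw [mul_zero]
        rw [h2, Matrix.mulVec_zero]
    rw [h1]
    rfl
  -- the congruence
  have hconj : Nat.card {M : SymA (Fin n) (ZMod (p ^ k)) // ∀ x, M.1 *ᵥ x = 0 ↔ x ∈ Φ.range} =
      Nat.card {M : SymA (Fin n) (ZMod (p ^ k)) // KerEq p M.1 a} := by
    refine Nat.card_congr (Equiv.subtypeEquiv (conjEquiv P hP) fun M => ?_)
    have h1 : ∀ x, (conjEquiv P hP M).1 *ᵥ x = 0 ↔ M.1 *ᵥ (P *ᵥ x) = 0 := by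
      intro x
      show (Pᵀ * M.1 * P) *ᵥ x = 0 ↔ _
      rw [← Matrix.mulVec_mulVec, ← Matrix.mulVec_mulVec]
      constructor
      · intro h
        have h2 := congrArg (fun w => (P⁻¹)ᵀ *ᵥ w) h
        simpa only [Matrix.mulVec_mulVec, ← Matrix.transpose_mul, Matrix.mul_nonsing_inv _ hP,
          Matrix.transpose_one, Matrix.one_mulVec, Matrix.mulVec_zero, ← Matrix.mul_assoc,
          Matrix.one_mul] using h2
      · intro h
        rw [h, Matrix.mulVec_zero]
    constructor
    · intro h x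
      rw [h1, h, hV']
    · intro h x
      have h2 : x = P *ᵥ (P⁻¹ *ᵥ x) := by
        rw [Matrix.mulVec_mulVec, Matrix.mul_nonsing_inv _ hP, Matrix.one_mulVec]
      rw [h2, hV', ← h1]
      exact h _
  have hmain := main_count hp hk n a hak
  rw [hconj, hcardN, hpair, symInvProb_eq hZ]
  have h0 : (Nat.card (SymA {i // ¬ a i ≠ 0} (ZMod p)) : ℝ) ≠ 0 := by
    have : Nonempty (SymA {i // ¬ a i ≠ 0} (ZMod p)) := ⟨0⟩
    have : Finite (SymA {i // ¬ a i ≠ 0} (ZMod p)) := Subtype.finite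
    exact_mod_cast Nat.card_pos.ne'
  rw [← mul_div_assoc, eq_div_iff h0]
  have h1 : ((Nat.card {M : SymA (Fin n) (ZMod (p ^ k)) // KerEq p M.1 a} *
      (p ^ ∑ i, a i) ^ (n + 1) * Nat.card (SymA {i // ¬ a i ≠ 0} (ZMod p)) : ℕ) : ℝ) =
      ((Nat.card {A : SymA {i // ¬ a i ≠ 0} (ZMod p) // IsUnit A.1.det} *
      Nat.card {T : SymA {i // a i ≠ 0} (ZMod (p ^ k)) //
        KerEq p T.1 (fun i : {i // a i ≠ 0} => k - a i.1)} *
      Nat.card (SymA (Fin n) (ZMod (p ^ k))) : ℕ) : ℝ) := by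
    rw [hmain]
  push_cast at h1 ⊢
  linarith [h1]

end Pool.Agent.Lib.MP_49901c_pr.Job3
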