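import Mathlib
import Pool.Agent.Lib.MP_49901c_pr.Defs
import Pool.Agent.Lib.MP_49901c_pr.Uniform
import Pool.Agent.Lib.MP_49901c_pr.Job3F

/-!
# Job 3: the exact law of the kernel of a uniform symmetric matrix
-/

namespace Pool.Agent.Lib.MP_49901c_pr

open Matrix

namespace Job3

theorem mem_kerM {n : ℕ} {R : Type*} [CommRing R] (M : Matrix (Fin n) (Fin n) R)
    (x : Fin n → R) : x ∈ kerM M ↔ M *ᵥ x = 0 := Iff.rfl

/-- An injective homomorphism with range the kernel of `M` gives an isomorphism. -/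
noncomputable def toEquiv {n : ℕ} {R N : Type*} [CommRing R] [AddCommGroup N]
    (M : Matrix (Fin n) (Fin n) R) (Φ : N →+ (Fin n → R)) (hΦ : Function.Injective Φ)
    (h : ∀ x, M *ᵥ x = 0 ↔ x ∈ Φ.range) : N ≃+ kerM M :=
  AddEquiv.ofBijective (Φ.codRestrict (kerM M) (fun x => (mem_kerM _ _).2 ((h _).2 ⟨x, rfl⟩)))
    ⟨fun x y hxy => hΦ (congrArg Subtype.val hxy), fun z => by
      obtain ⟨w, hw⟩ := (h z.1).1 ((mem_kerM _ _).1 z.2)
      exact ⟨w, Subtype.ext hw⟩⟩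

theorem toEquiv_apply {n : ℕ} {R N : Type*} [CommRing R] [AddCommGroup N]
    (M : Matrix (Fin n) (Fin n) R) (Φ : N →+ (Fin n → R)) (hΦ : Function.Injective Φ)
    (h : ∀ x, M *ᵥ x = 0 ↔ x ∈ Φ.range) (w : N) : (toEquiv M Φ hΦ h w).1 = Φ w := rfl

theorem card_inj_of_equiv {n : ℕ} {R N : Type*} [CommRing R] [AddCommGroup N]
    (M : Matrix (Fin n) (Fin n) R) (e : kerM M ≃+ N) :
    Nat.card {Φ : Inj N (Fin n → R) // ∀ x, M *ᵥ x = 0 ↔ x ∈ Φ.1.range} =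
      Nat.card (N ≃+ N) := by
  symm
  refine Nat.card_congr (Equiv.ofBijective (fun g => ⟨⟨(kerM M).subtype.comp
    (e.symm.toAddMonoidHom.comp g.toAddMonoidHom), ?_⟩, ?_⟩) ⟨?_, ?_⟩)
  · intro x y hxy
    exact g.injective (e.symm.injective (Subtype.val_injective hxy))
  · intro x
    rw [← mem_kerM]
    constructor
    · intro hx
      refine ⟨g.symm (e ⟨x, hx⟩), ?_⟩
      show (e.symm (g (g.symm (e ⟨x, hx⟩)))).1 = x
      rw [g.apply_symm_apply, e.symm_apply_apply]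
    · rintro ⟨w, rfl⟩
      exact (e.symm (g w)).2
  · intro g g' h
    apply AddEquiv.ext
    intro x
    have h1 : (e.symm (g x)).1 = (e.symm (g' x)).1 :=
      congrArg (fun Φ : {Φ : Inj N (Fin n → R) // ∀ x, M *ᵥ x = 0 ↔ x ∈ Φ.1.range} =>
        Φ.1.1 x) h
    exact e.symm.injective (Subtype.ext h1)
  · rintro ⟨⟨Φ, hΦ⟩, h⟩
    refine ⟨(toEquiv M Φ hΦ h).trans e, ?_⟩
    apply Subtype.ext
    apply Subtype.ext
    ext1 w
    show (e.symm (e (toEquiv M Φ hΦ h w))).1 = Φ w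
    rw [e.symm_apply_apply, toEquiv_apply]

end Job3

open Job3 in
theorem card_sym_ker {p k : ℕ} (hp : p.Prime) (hk : 1 ≤ k) (N : Type) [AddCommGroup N] [Finite N]
    (hN : ∀ x : N, p ^ (k - 1) • x = 0) (n r : ℕ) (_hrn : r ≤ n)
    (hr : Nat.card (N ⧸ (nsmulAddMonoidHom p : N →+ N).range) = p ^ r) :
    (Nat.card {M : SymMat n (ZMod (p ^ k)) // Nonempty (kerM M.1 ≃+ N)} : ℝ) *
        (Nat.card (N ≃+ N) : ℝ) * (Nat.card N : ℝ) ^ (n + 1) =
      (Nat.card (Inj N (Fin n → ZMod (p ^ k))) : ℝ) * (numPairings N : ℝ) *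
        (Nat.card (SymMat n (ZMod (p ^ k))) : ℝ) * symInvProb p (n - r) := by
  classical
  have : NeZero (p ^ k) := ⟨(pow_pos hp.pos k).ne'⟩
  have : Finite (N →+ (Fin n → ZMod (p ^ k))) := DFunLike.finite _
  have : Fintype (Inj N (Fin n → ZMod (p ^ k))) := Fintype.ofFinite _
  have : Fintype (SymMat n (ZMod (p ^ k))) := Fintype.ofFinite _
  have hA : Nat.card {x : SymMat n (ZMod (p ^ k)) × Inj N (Fin n → ZMod (p ^ k)) //
      ∀ z, x.1.1 *ᵥ z = 0 ↔ z ∈ x.2.1.range} =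
      Nat.card {M : SymMat n (ZMod (p ^ k)) // Nonempty (kerM M.1 ≃+ N)} *
        Nat.card (N ≃+ N) := by
    rw [Nat.card_congr (Equiv.subtypeProdEquivSigmaSubtype
      (fun (M : SymMat n (ZMod (p ^ k))) (Φ : Inj N (Fin n → ZMod (p ^ k))) =>
        ∀ z, M.1 *ᵥ z = 0 ↔ z ∈ Φ.1.range)), Nat.card_sigma]
    have h1 : ∀ M : SymMat n (ZMod (p ^ k)),
        Nat.card {Φ : Inj N (Fin n → ZMod (p ^ k)) // ∀ z, M.1 *ᵥ z = 0 ↔ z ∈ Φ.1.range} =
        if Nonempty (kerM M.1 ≃+ N) then Nat.card (N ≃+ N) else 0 := by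
      intro M
      split_ifs with h
      · exact card_inj_of_equiv M.1 h.some
      · rw [Nat.card_eq_zero]
        left
        constructor
        rintro ⟨⟨Φ, hΦ⟩, h2⟩
        exact h ⟨(toEquiv M.1 Φ hΦ h2).symm⟩
    rw [Finset.sum_congr rfl fun M _ => h1 M, ← Finset.sum_filter, Finset.sum_const, smul_eq_mul,
      Nat.card_eq_fintype_card (α := {M : SymMat n (ZMod (p ^ k)) // Nonempty (kerM M.1 ≃+ N)}),
      Fintype.card_subtype]
  have hB : (Nat.card {x : SymMat n (ZMod (p ^ k)) × Inj N (Fin n → ZMod (p ^ k)) //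
      ∀ z, x.1.1 *ᵥ z = 0 ↔ z ∈ x.2.1.range} : ℝ) * (Nat.card N : ℝ) ^ (n + 1) =
      (Nat.card (Inj N (Fin n → ZMod (p ^ k))) : ℝ) * ((numPairings N : ℝ) *
        (Nat.card (SymMat n (ZMod (p ^ k))) : ℝ) * symInvProb p (n - r)) := by
    have e : {x : SymMat n (ZMod (p ^ k)) × Inj N (Fin n → ZMod (p ^ k)) //
        ∀ z, x.1.1 *ᵥ z = 0 ↔ z ∈ x.2.1.range} ≃
        Σ Φ : Inj N (Fin n → ZMod (p ^ k)), {M : SymMat n (ZMod (p ^ k)) //
          ∀ z, M.1 *ᵥ z = 0 ↔ z ∈ Φ.1.range} :=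
      { toFun := fun x => ⟨x.1.2, x.1.1, x.2⟩
        invFun := fun x => ⟨(x.2.1, x.1), x.2.2⟩
        left_inv := fun _ => rfl
        right_inv := fun _ => rfl }
    rw [Nat.card_congr e, Nat.card_sigma]
    push_cast
    rw [Finset.sum_mul]
    have h1 : ∀ Φ : Inj N (Fin n → ZMod (p ^ k)),
        (Nat.card {M : SymMat n (ZMod (p ^ k)) // ∀ z, M.1 *ᵥ z = 0 ↔ z ∈ Φ.1.range} : ℝ) *
          (Nat.card N : ℝ) ^ (n + 1) = (numPairings N : ℝ) *
        (Nat.card (SymMat n (ZMod (p ^ k))) : ℝ) * symInvProb p (n - r) := by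
      intro Φ
      exact card_ker_eq_range hp (by omega) N hN n r hr Φ.1 Φ.2
    rw [Finset.sum_congr rfl fun Φ _ => h1 Φ, Finset.sum_const, Finset.card_univ,
      ← Nat.card_eq_fintype_card, nsmul_eq_mul]
  rw [hA] at hB
  push_cast at hB
  rw [hB]
  ring

end Pool.Agent.Lib.MP_49901c_pr
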