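import Mathlib
import Pool.Agent.Lib.MP_49901c_pr.Compare
import Pool.Agent.Lib.MP_49901c_pr.Job3
import Pool.Agent.Lib.MP_49901c_pr.Job10

/-!
# The limiting law of the kernel of a uniform symmetric matrix
-/

namespace Pool.Agent.Lib.MP_49901c_pr

open Finset Filter Topology
open scoped Matrix

theorem symMat_finite {p k : ℕ} (hp : p.Prime) (n : ℕ) : Finite (SymMat n (ZMod (p ^ k))) := by
  have : NeZero (p ^ k) := ⟨pow_ne_zero k hp.ne_zero⟩
  infer_instance

theorem card_symMat_pos {p k : ℕ} (hp : p.Prime) (n : ℕ) :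
    0 < Nat.card (SymMat n (ZMod (p ^ k))) := by
  have := symMat_finite (k := k) hp n
  have : Nonempty (SymMat n (ZMod (p ^ k))) := ⟨⟨0, Matrix.isSymm_zero⟩⟩
  exact Nat.card_pos

open scoped Classical in
/-- The isomorphisms onto a group form a torsor, when there is one. -/
theorem card_equiv_eq (N Y : Type) [AddCommGroup N] [AddCommGroup Y] :
    Nat.card (N ≃+ Y) = if Nonempty (Y ≃+ N) then Nat.card (N ≃+ N) else 0 := by
  split_ifs with h
  · obtain ⟨e⟩ := h
    apply Nat.card_congr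
    exact
      { toFun := fun f => f.trans e
        invFun := fun f => f.trans e.symm
        left_inv := fun f => by ext; simp
        right_inv := fun f => by ext; simp }
  · have : IsEmpty (N ≃+ Y) := ⟨fun f => h ⟨f.symm⟩⟩
    exact Nat.card_of_isEmpty

open scoped Classical in
theorem sum_card_equiv {p k : ℕ} (n : ℕ) (N : Type) [AddCommGroup N]
    [Fintype (SymMat n (ZMod (p ^ k)))] :
    ∑ M : SymMat n (ZMod (p ^ k)), (Nat.card (N ≃+ kerM M.1) : ℝ) =
      (Nat.card {M : SymMat n (ZMod (p ^ k)) // Nonempty (kerM M.1 ≃+ N)} : ℝ) *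
        (Nat.card (N ≃+ N) : ℝ) := by
  have h1 : ∀ M : SymMat n (ZMod (p ^ k)), (Nat.card (N ≃+ kerM M.1) : ℝ) =
      if Nonempty (kerM M.1 ≃+ N) then (Nat.card (N ≃+ N) : ℝ) else 0 := by
    intro M
    rw [card_equiv_eq N (kerM M.1)]
    split_ifs <;> simp
  rw [sum_congr rfl fun M _ => h1 M, ← sum_filter, sum_const, nsmul_eq_mul]
  congr 2
  rw [Nat.card_eq_fintype_card, Fintype.card_subtype]

/-- The growth bound for uniform symmetric matrices. -/
theorem unif_growth {p k : ℕ} (hp : p.Prime) (hk : 1 ≤ k) (N : Type) [AddCommGroup N] [Finite N]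
    (hN : ∀ x : N, p ^ (k - 1) • x = 0) [∀ n, Fintype (SymMat n (ZMod (p ^ k)))] :
    ∃ C : ℝ, ∀ i n : ℕ, ∑ᶠ ν : Fin i → N, ∑ M : SymMat n (ZMod (p ^ k)),
      ((Nat.card (SymMat n (ZMod (p ^ k))) : ℝ)⁻¹) *
        (Nat.card (Inj (Ext p k i N ν) (kerM M.1)) : ℝ) ≤
        C * (p : ℝ) ^ (i.choose 2) * (Nat.card N : ℝ) ^ i := by
  classical
  have hNZ : NeZero (p ^ k) := ⟨pow_ne_zero k hp.ne_zero⟩
  have hFN : Fintype N := Fintype.ofFinite N
  obtain ⟨C, hC⟩ := exists_growth hp hk N hN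
  refine ⟨C, fun i n => le_trans ?_ (hC i)⟩
  rw [finsum_eq_sum_of_fintype, finsum_eq_sum_of_fintype]
  apply sum_le_sum
  intro ν _
  have := ext_finite (k := k) hp ν
  have h1 := sum_card_inj_kerM hp (Ext p k i N ν) (ext_killed' hN ν) n
  rw [finsum_eq_sum_of_fintype] at h1
  rw [← mul_sum]
  have hpos : (0 : ℝ) < Nat.card (SymMat n (ZMod (p ^ k))) := by
    exact_mod_cast card_symMat_pos hp n
  have hG : (0 : ℝ) < (Nat.card (Ext p k i N ν) : ℝ) ^ n := by
    apply pow_pos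
    exact_mod_cast Nat.card_pos
  rw [inv_mul_le_iff₀ hpos, ← mul_le_mul_iff_left₀ hG, h1]
  have h2 : (Nat.card (Inj (Ext p k i N ν) (Fin n → ZMod (p ^ k))) : ℝ) ≤
      (Nat.card (Ext p k i N ν) : ℝ) ^ n := by
    have h3 : Nat.card (Inj (Ext p k i N ν) (Fin n → ZMod (p ^ k))) ≤
        Nat.card (Fin n → (Ext p k i N ν →+ ZMod (p ^ k))) := by
      have : Finite (Ext p k i N ν →+ ZMod (p ^ k)) :=
        Finite.of_injective _ (DFunLike.coe_injective (F := Ext p k i N ν →+ ZMod (p ^ k)))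
      apply Nat.card_le_card_of_injective
        (fun Φ j => (Pi.evalAddMonoidHom (fun _ : Fin n => ZMod (p ^ k)) j).comp Φ.1)
      intro Φ Φ' h
      apply Subtype.ext
      apply DFunLike.ext
      intro g
      funext j
      exact DFunLike.congr_fun (congrFun h j) g
    have h4 : Nat.card (Ext p k i N ν →+ ZMod (p ^ k)) = Nat.card (Ext p k i N ν) :=
      Job5.card_dual (Ext p k i N ν) (ext_killed' hN ν)
    rw [Nat.card_fun, h4, Nat.card_eq_fintype_card (α := Fin n), Fintype.card_fin] at h3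
    exact_mod_cast h3
  have h5 : (0 : ℝ) ≤ (Nat.card (AltDual p k (Ext p k i N ν)) : ℝ) := Nat.cast_nonneg _
  nlinarith [mul_le_mul_of_nonneg_right h2 (mul_nonneg h5 hpos.le)]

/-- The Inj-moments of uniform symmetric matrices converge. -/
theorem tendsto_unif_inj {p k : ℕ} (hp : p.Prime) (G : Type) [AddCommGroup G] [Finite G]
    (hG : ∀ g : G, p ^ k • g = 0) [∀ n, Fintype (SymMat n (ZMod (p ^ k)))] :
    Tendsto (fun n : ℕ => ∑ M : SymMat n (ZMod (p ^ k)),
      ((Nat.card (SymMat n (ZMod (p ^ k))) : ℝ)⁻¹) * (Nat.card (Inj G (kerM M.1)) : ℝ)) atTop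
      (𝓝 (Nat.card (AltDual p k G) : ℝ)) := by
  have h1 := (tendsto_card_inj hp G hG).mul_const (Nat.card (AltDual p k G) : ℝ)
  rw [one_mul] at h1
  refine h1.congr fun n => ?_
  have h2 := sum_card_inj_kerM hp G hG n
  rw [finsum_eq_sum_of_fintype] at h2
  have hpos : (0 : ℝ) < Nat.card (SymMat n (ZMod (p ^ k))) := by
    exact_mod_cast card_symMat_pos hp n
  have hG : (0 : ℝ) < (Nat.card G : ℝ) ^ n := by
    apply pow_pos
    exact_mod_cast Nat.card_pos
  rw [← mul_sum, div_mul_eq_mul_div, div_eq_iff hG.ne', inv_mul_eq_div, div_mul_eq_mul_div,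
    eq_div_iff hpos.ne', h2]

theorem symInvProb_eq {p : ℕ} (hp : p.Prime) (n : ℕ) [Fintype (SymMat n (ZMod (p ^ 1)))] :
    symInvProb p n = ∑ M : SymMat n (ZMod (p ^ 1)),
      ((Nat.card (SymMat n (ZMod (p ^ 1))) : ℝ)⁻¹) * (Nat.card (PUnit.{1} ≃+ kerM M.1) : ℝ) := by
  classical
  have h0 : symInvProb p n = (Nat.card {M : SymMat n (ZMod (p ^ 1)) // IsUnit M.1.det} : ℝ) /
      Nat.card (SymMat n (ZMod (p ^ 1))) := by
    unfold symInvProb
    rw [pow_one]
  rw [h0, ← mul_sum, sum_card_equiv]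
  have h1 : Nat.card (PUnit.{1} ≃+ PUnit.{1}) = 1 := Nat.card_unique
  have h2 : Nat.card {M : SymMat n (ZMod (p ^ 1)) // IsUnit M.1.det} =
      Nat.card {M : SymMat n (ZMod (p ^ 1)) // Nonempty (kerM M.1 ≃+ PUnit.{1})} := by
    have hF : Fact (p ^ 1).Prime := ⟨by rw [pow_one]; exact hp⟩
    apply Nat.card_congr
    apply Equiv.subtypeEquivRight
    intro M
    constructor
    · intro h
      have h3 : Subsingleton (kerM M.1) := by
        constructor
        rintro ⟨x, hx⟩ ⟨y, hy⟩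
        apply Subtype.ext
        have hx' : M.1 *ᵥ x = 0 := hx
        have hy' : M.1 *ᵥ y = 0 := hy
        have hinj := Matrix.mulVec_injective_of_isUnit ((Matrix.isUnit_iff_isUnit_det M.1).mpr h)
        exact hinj (hx'.trans hy'.symm)
      exact ⟨{ toFun := fun _ => PUnit.unit
               invFun := fun _ => 0
               left_inv := fun x => Subsingleton.elim _ _
               right_inv := fun x => rfl
               map_add' := fun _ _ => rfl }⟩
    · rintro ⟨e⟩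
      rw [isUnit_iff_ne_zero]
      intro hdet
      obtain ⟨v, hv, hv0⟩ := (Matrix.exists_mulVec_eq_zero_iff (M := M.1)).2 hdet
      have h3 : (⟨v, hv0⟩ : kerM M.1) = 0 := e.injective (Subsingleton.elim _ _)
      exact hv (congrArg Subtype.val h3)
  rw [h1, h2, Nat.cast_one, mul_one, div_eq_inv_mul]

theorem sum_bonf {p k : ℕ} (m n : ℕ) (N : Type) [AddCommGroup N] [Fintype N]
    (Ω₁ : Type) [Fintype Ω₁] (v : Ω₁ → ℝ) (Z : Ω₁ → AddSubgroup (Fin n → ZMod (p ^ k))) :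
    ∑ ω, v ω * bonf p k m N (Z ω) = ∑ i ∈ range (m + 1), (-1 : ℝ) ^ i * (p : ℝ) ^ (i.choose 2) /
        (fall p i i * (Nat.card N : ℝ) ^ i) *
        ∑ ν : Fin i → N, ∑ ω, v ω * (Nat.card (Inj (Ext p k i N ν) (Z ω)) : ℝ) := by
  classical
  unfold bonf
  simp_rw [mul_sum]
  rw [sum_comm]
  apply sum_congr rfl
  intro i _
  rw [sum_comm]
  apply sum_congr rfl
  intro ω _
  rw [finsum_eq_sum_of_fintype, mul_sum, mul_sum]
  apply sum_congr rfl
  intro ν _
  ring

theorem amb_killed {p k n : ℕ} (V : AddSubgroup (Fin n → ZMod (p ^ k))) (y : V) :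
    p ^ k • y = 0 := by
  apply Subtype.ext
  funext i
  simp

theorem tendsto_symInvProb {p : ℕ} (hp : p.Prime) :
    Tendsto (symInvProb p) atTop (𝓝 (∏' j : ℕ, (1 - ((p : ℝ) ^ (2 * j + 1))⁻¹))) := by
  classical
  have hNZ : NeZero (p ^ 1) := ⟨pow_ne_zero 1 hp.ne_zero⟩
  have hFS : ∀ n, Fintype (SymMat n (ZMod (p ^ 1))) := fun n => Fintype.ofFinite _
  have hN : ∀ x : PUnit.{1}, p ^ (1 - 1) • x = 0 := fun x => Subsingleton.elim _ _
  have hkill : ∀ (n : ℕ) (V : AddSubgroup (Fin n → ZMod (p ^ 1))) (y : V), p ^ 1 • y = 0 :=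
    fun n V y => amb_killed V y
  set c : ℝ := ∏' j : ℕ, (1 - ((p : ℝ) ^ (2 * j + 1))⁻¹) with hc
  set E : ℕ → ℝ := fun m => ∑ i ∈ range m,
      (-1 : ℝ) ^ i * (p : ℝ) ^ (i.choose 2) / fall p i i * (p : ℝ) ^ (i.choose 2) with hE
  have hElim : Tendsto E atTop (𝓝 c) := tendsto_euler p hp.two_le
  set B : ℕ → ℕ → ℝ := fun m n => ∑ M : SymMat n (ZMod (p ^ 1)),
      ((Nat.card (SymMat n (ZMod (p ^ 1))) : ℝ)⁻¹) * bonf p 1 m PUnit.{1} (kerM M.1) with hB
  have up : ∀ m, Even m → ∀ n, symInvProb p n ≤ B m n := by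
    intro m hm n
    rw [symInvProb_eq hp n]
    exact sum_le_sum fun M _ => mul_le_mul_of_nonneg_left
      (card_equiv_le_bonf hp le_rfl PUnit (kerM M.1) hN (hkill n _) m hm) (by positivity)
  have lo : ∀ m, Odd m → ∀ n, B m n ≤ symInvProb p n := by
    intro m hm n
    rw [symInvProb_eq hp n]
    exact sum_le_sum fun M _ => mul_le_mul_of_nonneg_left
      (bonf_le_card_equiv hp le_rfl PUnit (kerM M.1) hN (hkill n _) m hm) (by positivity)
  have hBlim : ∀ m, Tendsto (B m) atTop (𝓝 (E (m + 1))) := by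
    intro m
    simp only [hB, hE]
    have h1 : ∀ n, ∑ M : SymMat n (ZMod (p ^ 1)),
      ((Nat.card (SymMat n (ZMod (p ^ 1))) : ℝ)⁻¹) * bonf p 1 m PUnit.{1} (kerM M.1) = _ :=
      fun n => sum_bonf m n PUnit.{1} (SymMat n (ZMod (p ^ 1)))
        (fun _ => ((Nat.card (SymMat n (ZMod (p ^ 1))) : ℝ)⁻¹)) (fun M => kerM M.1)
    simp_rw [h1]
    apply tendsto_finsetSum
    intro i _
    have h2 : (Nat.card PUnit.{1} : ℝ) ^ i = 1 := by simp
    rw [h2, mul_one]
    apply Tendsto.const_mul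
    have h3 : ((p : ℝ) ^ (i.choose 2)) = ∑ ν : Fin i → PUnit.{1},
        (Nat.card (AltDual p 1 (Ext p 1 i PUnit ν)) : ℝ) := by
      rw [Fintype.sum_unique, card_altDual_elementary hp]
      push_cast
      rfl
    rw [h3]
    apply tendsto_finsetSum
    intro ν _
    have := ext_finite (k := 1) hp ν
    exact tendsto_unif_inj hp (Ext p 1 i PUnit ν) (ext_killed' hN ν)
  rw [Metric.tendsto_atTop]
  intro ε hε
  obtain ⟨m₀, hm₀⟩ := Metric.tendsto_atTop.mp hElim (ε / 2) (by linarith)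
  have h3 := Metric.tendsto_atTop.mp (hBlim (2 * m₀)) (ε / 2) (by linarith)
  have h4 := Metric.tendsto_atTop.mp (hBlim (2 * m₀ + 1)) (ε / 2) (by linarith)
  obtain ⟨n₁, hn₁⟩ := h3
  obtain ⟨n₂, hn₂⟩ := h4
  refine ⟨max n₁ n₂, fun n hn => ?_⟩
  have h5 := hn₁ n (le_of_max_le_left hn)
  have h6 := hn₂ n (le_of_max_le_right hn)
  have h7 := hm₀ (2 * m₀ + 1) (by omega)
  have h8 := hm₀ (2 * m₀ + 1 + 1) (by omega)
  rw [Real.dist_eq, abs_lt] at h5 h6 h7 h8
  rw [Real.dist_eq, abs_lt]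
  have h9 := up (2 * m₀) (even_two_mul m₀) n
  have h10 := lo (2 * m₀ + 1) (even_two_mul m₀).add_one n
  constructor <;> linarith [h5.1, h5.2, h6.1, h6.2, h7.1, h7.2, h8.1, h8.2]

theorem quot_card {p : ℕ} (hp : p.Prime) (N : Type) [AddCommGroup N] [Finite N] :
    ∃ r, Nat.card (N ⧸ (nsmulAddMonoidHom p : N →+ N).range) = p ^ r := by
  have : Fact p.Prime := ⟨hp⟩
  set Q := N ⧸ (nsmulAddMonoidHom p : N →+ N).range with hQ
  have hkill : ∀ x : Q, p • x = 0 := by
    intro x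
    obtain ⟨y, rfl⟩ := QuotientAddGroup.mk_surjective x
    rw [← QuotientAddGroup.mk_nsmul, QuotientAddGroup.eq_zero_iff]
    exact ⟨y, rfl⟩
  have h1 : IsPGroup p (Multiplicative Q) := by
    intro g
    refine ⟨1, ?_⟩
    rw [pow_one]
    exact congrArg Multiplicative.ofAdd (hkill g.toAdd)
  obtain ⟨r, hr⟩ := IsPGroup.iff_card.mp h1
  exact ⟨r, hr⟩

/-- The law of the kernel of a uniform symmetric matrix over `ℤ / p ^ k` converges to `μ_p`. -/
theorem tendsto_unif_law {p k : ℕ} (hp : p.Prime) (hk : 1 ≤ k) (N : Type) [AddCommGroup N]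
    [Finite N] (hN : ∀ x : N, p ^ (k - 1) • x = 0) :
    Tendsto (fun n : ℕ => (Nat.card {M : SymMat n (ZMod (p ^ k)) //
      Nonempty (kerM M.1 ≃+ N)} : ℝ) / (Nat.card (SymMat n (ZMod (p ^ k))) : ℝ)) atTop
      (𝓝 (mu p N)) := by
  classical
  obtain ⟨r, hr⟩ := quot_card hp N
  have hN' : ∀ x : N, p ^ k • x = 0 := by
    intro x
    have : p ^ k = p * p ^ (k - 1) := by
      rw [← pow_succ']
      congr 1
      omega
    rw [this, mul_smul, hN, smul_zero]
  have hNpos : (0 : ℝ) < Nat.card N := by exact_mod_cast Nat.card_pos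
  have hfinA : Finite (N ≃+ N) :=
    Finite.of_injective (fun f => (f : N → N)) DFunLike.coe_injective
  have hApos : (0 : ℝ) < Nat.card (N ≃+ N) := by
    have : Nonempty (N ≃+ N) := ⟨AddEquiv.refl N⟩
    exact_mod_cast Nat.card_pos
  have h1 : Tendsto (fun n : ℕ => symInvProb p (n - r)) atTop
      (𝓝 (∏' j : ℕ, (1 - ((p : ℝ) ^ (2 * j + 1))⁻¹))) :=
    (tendsto_symInvProb hp).comp (tendsto_sub_atTop_nat r)
  have h2 := ((tendsto_card_inj hp N hN').mul_const
    ((numPairings N : ℝ) / ((Nat.card N : ℝ) * (Nat.card (N ≃+ N) : ℝ)))).mul h1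
  rw [one_mul] at h2
  refine h2.congr' ?_
  filter_upwards [eventually_ge_atTop r] with n hn
  have h3 := card_sym_ker hp hk N hN n r hn hr
  have hpos : (0 : ℝ) < Nat.card (SymMat n (ZMod (p ^ k))) := by
    exact_mod_cast card_symMat_pos hp n
  rw [pow_succ] at h3
  have h4 : (0 : ℝ) < (Nat.card N : ℝ) ^ n := by positivity
  rw [div_mul_div_comm, div_mul_eq_mul_div, div_eq_div_iff (by positivity) hpos.ne']
  nlinarith [h3]

end Pool.Agent.Lib.MP_49901c_pr
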