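import Mathlib
import Pool.Agent.Lib.MP_49901c_pr.UniformLimit
import Pool.Agent.Lib.MP_49901c_pr.GraphMoments
import Pool.Agent.Lib.MP_49901c_pr.Job2
import Pool.Agent.Lib.MP_49901c_pr.Job8

/-!
# The limiting law of the critical group of a random graph
-/

namespace Pool.Agent.Lib.MP_49901c_pr

open Finset Filter Topology

/-- The probability that the kernel of the reduced Laplacian mod `p ^ k` is isomorphic to `N`. -/
noncomputable def kerProb (p k : ℕ) (n : ℕ) (q : ℝ) (N : Type) [AddCommGroup N] : ℝ :=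
  gnpProb (n + 1) q
    {G | Nonempty (kerM ((redLap G).map (Int.castRingHom (ZMod (p ^ k)))) ≃+ N)}

theorem sum_graph_equiv {p k : ℕ} (n : ℕ) (q : ℝ) (N : Type) [AddCommGroup N] :
    ∑ ω : Pr (n + 1) → Bool, wt q ω *
      (Nat.card (N ≃+ kerM ((redLap (toGraph ω)).map (Int.castRingHom (ZMod (p ^ k))))) : ℝ) =
      kerProb p k n q N * (Nat.card (N ≃+ N) : ℝ) := by
  classical
  unfold kerProb
  rw [gnpProb_eq_Ex]
  unfold Ex
  rw [sum_mul]
  apply sum_congr rfl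
  intro ω _
  simp only [smul_eq_mul]
  rw [card_equiv_eq N (kerM ((redLap (toGraph ω)).map (Int.castRingHom (ZMod (p ^ k)))))]
  by_cases h : Nonempty (kerM ((redLap (toGraph ω)).map (Int.castRingHom (ZMod (p ^ k)))) ≃+ N)
  · rw [if_pos h, if_pos (show toGraph ω ∈ {G : SimpleGraph (Fin (n + 1)) |
      Nonempty (kerM ((redLap G).map (Int.castRingHom (ZMod (p ^ k)))) ≃+ N)} from h)]
    ring
  · rw [if_neg h, if_neg (show ¬ toGraph ω ∈ {G : SimpleGraph (Fin (n + 1)) |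
      Nonempty (kerM ((redLap G).map (Int.castRingHom (ZMod (p ^ k)))) ≃+ N)} from h)]
    simp

/-- If the Hom moments converge to the right limits then the law of the kernel converges. -/
theorem tendsto_kerProb {p k : ℕ} (hp : p.Prime) (hk : 1 ≤ k) {q : ℕ → ℝ} (hq0 : ∀ n, 0 ≤ q n)
    (hq1 : ∀ n, q n ≤ 1) (hq : Tendsto (fun n : ℕ => n * (q n * (1 - q n))) atTop atTop)
    (hsmall : SmallSupport p q) (N : Type) [AddCommGroup N] [Finite N]
    (hN : ∀ x : N, p ^ (k - 1) • x = 0) :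
    Tendsto (fun n : ℕ => kerProb p k n (q (n + 1)) N) atTop (𝓝 (mu p N)) := by
  classical
  have hNZ : NeZero (p ^ k) := ⟨pow_ne_zero k hp.ne_zero⟩
  have hFS : ∀ n, Fintype (SymMat n (ZMod (p ^ k))) := fun n => Fintype.ofFinite _
  have hfinA : Finite (N ≃+ N) :=
    Finite.of_injective (fun f => (f : N → N)) DFunLike.coe_injective
  have hApos : (0 : ℝ) < Nat.card (N ≃+ N) := by
    have : Nonempty (N ≃+ N) := ⟨AddEquiv.refl N⟩
    exact_mod_cast Nat.card_pos
  set w : ∀ n, (Pr (n + 1) → Bool) → ℝ := fun n ω => wt (q (n + 1)) ω with hw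
  set w' : ∀ n, SymMat n (ZMod (p ^ k)) → ℝ :=
    fun n M => ((Nat.card (SymMat n (ZMod (p ^ k))) : ℝ)⁻¹) with hw'
  set Y : ∀ n, (Pr (n + 1) → Bool) → AddSubgroup (Fin n → ZMod (p ^ k)) :=
    fun n ω => kerM ((redLap (toGraph ω)).map (Int.castRingHom (ZMod (p ^ k)))) with hY
  set Y' : ∀ n, SymMat n (ZMod (p ^ k)) → AddSubgroup (Fin n → ZMod (p ^ k)) :=
    fun n M => kerM M.1 with hY'
  have hHom : ∀ (G : Type) [AddCommGroup G] [Finite G], (∀ g : G, p ^ k • g = 0) →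
      Tendsto (fun n => ∑ ω, w n ω * (Nat.card (G →+ Y n ω) : ℝ) -
        ∑ ω, w' n ω * (Nat.card (G →+ Y' n ω) : ℝ)) atTop (𝓝 0) := by
    intro G _ _ hG
    have h1 := tendsto_graph_hom hp G hG hq0 hq1 hq hsmall
    have h2 := tendsto_unif_hom hp G hG
    have h3 := h1.sub h2
    rw [sub_self] at h3
    refine h3.congr fun n => ?_
    congr 1
    rw [finsum_eq_sum_of_fintype, ← mul_sum, inv_mul_eq_div]
  have hInj := tendsto_inj_of_hom w w' Y Y' hp hHom
  have hw0 : ∀ n ω, 0 ≤ w n ω := fun n ω => wt_nonneg (hq0 _) (hq1 _) ω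
  have hw0' : ∀ n ω, 0 ≤ w' n ω := fun n ω => by positivity
  have h1 := compare hp hk N hN w w' Y Y' hw0 hw0' hInj (unif_growth hp hk N hN)
  have h2 := (tendsto_unif_law hp hk N hN).mul_const (Nat.card (N ≃+ N) : ℝ)
  have h3 := h1.add h2
  rw [zero_add] at h3
  have h4 := h3.div_const (Nat.card (N ≃+ N) : ℝ)
  rw [mul_div_cancel_right₀ _ hApos.ne'] at h4
  refine h4.congr fun n => ?_
  have h5 : ∑ ω, w n ω * (Nat.card (N ≃+ Y n ω) : ℝ) =
      kerProb p k n (q (n + 1)) N * (Nat.card (N ≃+ N) : ℝ) := sum_graph_equiv n (q (n + 1)) N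
  have h6 : ∑ ω, w' n ω * (Nat.card (N ≃+ Y' n ω) : ℝ) =
      (Nat.card {M : SymMat n (ZMod (p ^ k)) // Nonempty (kerM M.1 ≃+ N)} : ℝ) /
        (Nat.card (SymMat n (ZMod (p ^ k))) : ℝ) * (Nat.card (N ≃+ N) : ℝ) := by
    simp only [hw']
    rw [← mul_sum, sum_card_equiv, div_eq_mul_inv]
    ring
  rw [h5, h6]
  field_simp
  ring

theorem gnpProb_congr {n : ℕ} {q : ℝ} {S T : Set (SimpleGraph (Fin n))} (h : S = T) :
    gnpProb n q S = gnpProb n q T := by rw [h]

theorem isUniversal_iff_ker {p : ℕ} (hp : p.Prime) (q : ℕ → ℝ) :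
    IsUniversal p q ↔ ∀ k : ℕ, 1 ≤ k → ∀ (N : Type) [AddCommGroup N] [Finite N],
      (∀ x : N, p ^ (k - 1) • x = 0) →
      Tendsto (fun n : ℕ => kerProb p k n (q (n + 1)) N) atTop (𝓝 (mu p N)) := by
  classical
  have hset : ∀ (k : ℕ) (_ : 1 ≤ k) (N : Type) [AddCommGroup N] [Finite N]
      (_ : ∀ x : N, p ^ (k - 1) • x = 0) (n : ℕ),
      {G : SimpleGraph (Fin (n + 1)) | G.Connected ∧
        Nonempty (primaryPart p (CriticalGroup G) ≃+ N)} =
      {G | Nonempty (kerM ((redLap G).map (Int.castRingHom (ZMod (p ^ k)))) ≃+ N)} := by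
    intro k hk N _ _ hN n
    ext G
    exact link hp hk N hN G
  constructor
  · intro h k hk N _ _ hN
    have hF : Fact p.Prime := ⟨hp⟩
    have h1 : IsPGroup p (Multiplicative N) := by
      intro g
      exact ⟨k - 1, congrArg Multiplicative.ofAdd (hN g.toAdd)⟩
    obtain ⟨m, hm⟩ := IsPGroup.iff_card.mp h1
    have h2 : ∃ m, Nat.card N = p ^ m := ⟨m, hm⟩
    refine (h N h2).congr fun n => ?_
    exact gnpProb_congr (hset k hk N hN n)
  · intro h H _ _ hm
    obtain ⟨m, hm⟩ := hm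
    have hN : ∀ x : H, p ^ ((m + 1) - 1) • x = 0 := by
      intro x
      rw [Nat.add_sub_cancel, ← hm]
      exact card_nsmul_eq_zero'
    refine (h (m + 1) (by omega) H hN).congr fun n => ?_
    exact gnpProb_congr (hset (m + 1) (by omega) H hN n).symm

theorem isUniversal_of_small {p : ℕ} (hp : p.Prime) {q : ℕ → ℝ} (hq0 : ∀ n, 0 ≤ q n)
    (hq1 : ∀ n, q n ≤ 1) (hq : Tendsto (fun n : ℕ => n * (q n * (1 - q n))) atTop atTop)
    (hsmall : SmallSupport p q) : IsUniversal p q := by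
  rw [isUniversal_iff_ker hp]
  intro k hk N _ _ hN
  exact tendsto_kerProb hp hk hq0 hq1 hq hsmall N hN

end Pool.Agent.Lib.MP_49901c_pr
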