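import Mathlib
import Pool.Agent.Lib.MP_49901c_pr.Defs
import Pool.Agent.Lib.MP_49901c_pr.Uniform
import Pool.Agent.Lib.MP_49901c_pr.Duality

/-!
# The total mass of `μ_p` is at least one
-/

namespace Pool.Agent.Lib.MP_49901c_pr

open Filter Topology

namespace Job11

/-- The additive group of symmetric matrices. -/
def symG (n : ℕ) (R : Type*) [CommRing R] : AddSubgroup (Matrix (Fin n) (Fin n) R) where
  carrier := {M | M.IsSymm}
  zero_mem' := Matrix.isSymm_zero
  add_mem' := fun h h' => Matrix.IsSymm.add h h'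
  neg_mem' := fun h => Matrix.IsSymm.neg h

/-- Evaluation of symmetric matrices at a vector. -/
def evalAt {n : ℕ} {R : Type*} [CommRing R] (f : Fin n → R) : symG n R →+ (Fin n → R) where
  toFun M := M.1.mulVec f
  map_zero' := Matrix.zero_mulVec f
  map_add' M M' := Matrix.add_mulVec M.1 M'.1 f

theorem evalAt_apply {n : ℕ} {R : Type*} [CommRing R] (f : Fin n → R) (M : symG n R) :
    evalAt f M = M.1.mulVec f := rfl

/-- Multiplication by a scalar. -/
def mulBy (n : ℕ) {R : Type*} [CommRing R] (a : R) : (Fin n → R) →+ (Fin n → R) where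
  toFun w := a • w
  map_zero' := smul_zero a
  map_add' := smul_add a

/-- A vector with an invertible coordinate can be sent to any vector by a symmetric matrix. -/
theorem exists_symm {n : ℕ} {R : Type*} [CommRing R] (f : Fin n → R) (i : Fin n)
    (hi : IsUnit (f i)) (w : Fin n → R) : ∃ M : symG n R, M.1.mulVec f = w := by
  classical
  obtain ⟨u, hu⟩ := hi
  let d : R := ∑ j, if j = i then 0 else w j * ↑u⁻¹ * f j
  let A : Matrix (Fin n) (Fin n) R := fun a b =>
    if a = i then (if b = i then (w i - d) * ↑u⁻¹ else w b * ↑u⁻¹)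
    else if b = i then w a * ↑u⁻¹ else 0
  have hA : A.IsSymm := by
    refine Matrix.IsSymm.ext fun a b => ?_
    simp only [A]
    by_cases ha : a = i <;> by_cases hb : b = i <;> simp [ha, hb]
  refine ⟨⟨A, hA⟩, ?_⟩
  have huu : (↑u⁻¹ : R) * f i = 1 := by rw [← hu]; exact u.inv_mul
  ext a
  simp only [Matrix.mulVec, dotProduct]
  by_cases ha : a = i
  · subst ha
    have h1 : ∀ b, A a b * f b = (if b = a then (w a - d) * ↑u⁻¹ * f a else 0) +
        (if b = a then 0 else w b * ↑u⁻¹ * f b) := by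
      intro b
      by_cases hb : b = a
      · subst hb; simp [A]
      · simp [A, hb]
    rw [Finset.sum_congr rfl fun b _ => h1 b, Finset.sum_add_distrib]
    rw [Finset.sum_ite_eq' Finset.univ a]
    simp only [Finset.mem_univ, if_true]
    have : (w a - d) * ↑u⁻¹ * f a = w a - d := by rw [mul_assoc, huu, mul_one]
    rw [this]
    simp only [d]
    ring
  · have h1 : ∀ b, A a b * f b = if b = i then w a * ↑u⁻¹ * f i else 0 := by
      intro b
      by_cases hb : b = i
      · subst hb; simp [A, ha]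
      · simp [A, ha, hb]
    rw [Finset.sum_congr rfl fun b _ => h1 b, Finset.sum_ite_eq' Finset.univ i]
    simp only [Finset.mem_univ, if_true]
    rw [mul_assoc, huu, mul_one]

/-- A vector over `ℤ / p ^ k` is `p ^ v` times a vector with an invertible coordinate, or zero. -/
theorem exists_content {p k : ℕ} (hp : p.Prime) {n : ℕ} (f : Fin n → ZMod (p ^ k)) :
    ∃ v ≤ k, f ∈ (mulBy n ((p : ZMod (p ^ k)) ^ v)).range ∧
      (mulBy n ((p : ZMod (p ^ k)) ^ v)).range ≤ (evalAt f).range := by
  classical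
  have : NeZero (p ^ k) := ⟨pow_ne_zero k hp.ne_zero⟩
  let P : ℕ → Prop := fun v => f ∈ (mulBy n ((p : ZMod (p ^ k)) ^ v)).range
  have hP0 : P 0 := ⟨f, by simp [mulBy]⟩
  let v := Nat.findGreatest P k
  have hv : P v := Nat.findGreatest_spec (Nat.zero_le k) hP0
  have hvk : v ≤ k := Nat.findGreatest_le k
  refine ⟨v, hvk, hv, ?_⟩
  rcases hvk.lt_or_eq with hlt | heq
  · obtain ⟨f', hf'⟩ := hv
    have hf'' : f = (p : ZMod (p ^ k)) ^ v • f' := hf'.symm
    have hunit : ∃ i, IsUnit (f' i) := by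
      by_contra! hnon
      have hdiv : ∀ i, ∃ y : ZMod (p ^ k), f' i = (p : ZMod (p ^ k)) * y := by
        intro i
        have h1 : ¬ (f' i).val.Coprime (p ^ k) := by
          intro hc
          apply hnon i
          have := (ZMod.isUnit_iff_coprime (f' i).val (p ^ k)).2 hc
          rwa [ZMod.natCast_zmod_val] at this
        have h2 : p ∣ (f' i).val := by
          by_contra hnd
          exact h1 (((Nat.Prime.coprime_iff_not_dvd hp).2 hnd).symm.pow_right k)
        obtain ⟨y, hy⟩ := h2
        refine ⟨(y : ZMod (p ^ k)), ?_⟩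
        rw [← ZMod.natCast_zmod_val (f' i), hy, Nat.cast_mul]
      choose y hy using hdiv
      have hP1 : P (v + 1) := by
        refine ⟨y, ?_⟩
        change (p : ZMod (p ^ k)) ^ (v + 1) • y = f
        rw [hf'']
        ext i
        simp only [Pi.smul_apply, smul_eq_mul]
        rw [hy i, pow_succ, mul_assoc]
      have := Nat.le_findGreatest (P := P) (Nat.succ_le_of_lt hlt) hP1
      exact absurd this (Nat.not_succ_le_self v)
    obtain ⟨i, hi⟩ := hunit
    rintro _ ⟨w, rfl⟩
    obtain ⟨M, hM⟩ := exists_symm f' i hi w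
    refine ⟨M, ?_⟩
    rw [evalAt_apply, hf'', Matrix.mulVec_smul, hM]
    rfl
  · rintro _ ⟨w, rfl⟩
    refine ⟨0, ?_⟩
    rw [map_zero]
    have h0 : (p : ZMod (p ^ k)) ^ v = 0 := by
      rw [heq, ← Nat.cast_pow]
      exact ZMod.natCast_self _
    change 0 = (p : ZMod (p ^ k)) ^ v • w
    rw [h0, zero_smul]

/-- The first moment of the size of the kernel, bounded. -/
theorem sum_card_ker_le {p k : ℕ} (hp : p.Prime) (n : ℕ) [Fintype (symG n (ZMod (p ^ k)))] :
    ∑ M : symG n (ZMod (p ^ k)), (Nat.card (kerM M.1) : ℝ) ≤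
      (k + 1) * (Nat.card (symG n (ZMod (p ^ k))) : ℝ) := by
  classical
  have : NeZero (p ^ k) := ⟨pow_ne_zero k hp.ne_zero⟩
  -- exchange the sums
  have h1 : ∀ M : symG n (ZMod (p ^ k)), (Nat.card (kerM M.1) : ℝ) =
      ∑ f : Fin n → ZMod (p ^ k), if M.1.mulVec f = 0 then (1 : ℝ) else 0 := by
    intro M
    rw [Finset.sum_boole, Nat.card_eq_fintype_card]
    norm_cast
    rw [Fintype.card_subtype]
    refine congrArg Finset.card ?_
    ext f
    simp only [Finset.mem_filter, Finset.mem_univ, true_and]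
    exact Iff.rfl
  have h2 : ∀ f : Fin n → ZMod (p ^ k), (∑ M : symG n (ZMod (p ^ k)),
      if M.1.mulVec f = 0 then (1 : ℝ) else 0) = Nat.card (evalAt f).ker := by
    intro f
    rw [Finset.sum_boole, Nat.card_eq_fintype_card]
    norm_cast
    rw [Fintype.card_subtype]
    refine congrArg Finset.card ?_
    ext M
    simp only [Finset.mem_filter, Finset.mem_univ, true_and]
    exact Iff.rfl
  rw [Finset.sum_congr rfl fun M _ => h1 M, Finset.sum_comm,
    Finset.sum_congr rfl fun f _ => h2 f]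
  -- the bound for one vector
  let B : ℕ → AddSubgroup (Fin n → ZMod (p ^ k)) := fun v =>
    (mulBy n ((p : ZMod (p ^ k)) ^ v)).range
  have hBpos : ∀ v, (0 : ℝ) < Nat.card (B v) := fun v => by
    exact_mod_cast Nat.card_pos
  have h3 : ∀ f : Fin n → ZMod (p ^ k), (Nat.card (evalAt f).ker : ℝ) ≤
      ∑ v ∈ Finset.range (k + 1), if f ∈ B v then
        (Nat.card (symG n (ZMod (p ^ k))) : ℝ) / Nat.card (B v) else 0 := by
    intro f
    obtain ⟨v, hvk, hv, hle⟩ := exists_content hp f
    have hcard : Nat.card (evalAt f).ker * Nat.card (evalAt f).range =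
        Nat.card (symG n (ZMod (p ^ k))) := by
      rw [AddSubgroup.card_eq_card_quotient_mul_card_addSubgroup (evalAt f).ker, mul_comm,
        Nat.card_congr (QuotientAddGroup.quotientKerEquivRange (evalAt f)).toEquiv]
    have hle2 : Nat.card (B v) ≤ Nat.card (evalAt f).range :=
      Nat.card_le_card_of_injective (AddSubgroup.inclusion hle)
        (AddSubgroup.inclusion_injective hle)
    have h4 : (Nat.card (evalAt f).ker : ℝ) ≤
        (Nat.card (symG n (ZMod (p ^ k))) : ℝ) / Nat.card (B v) := by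
      rw [le_div_iff₀ (hBpos v), ← hcard]
      push_cast
      gcongr
    refine h4.trans ?_
    have h5 := Finset.single_le_sum (f := fun v => if f ∈ B v then
        (Nat.card (symG n (ZMod (p ^ k))) : ℝ) / Nat.card (B v) else 0)
      (s := Finset.range (k + 1)) (fun u _ => by
        split_ifs
        · positivity
        · exact le_rfl) (Finset.mem_range.2 (Nat.lt_succ_of_le hvk))
    refine le_trans ?_ h5
    change _ ≤ if f ∈ B v then
        (Nat.card (symG n (ZMod (p ^ k))) : ℝ) / Nat.card (B v) else 0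
    rw [if_pos hv]
  refine (Finset.sum_le_sum fun f _ => h3 f).trans ?_
  rw [Finset.sum_comm]
  have h6 : ∀ v ∈ Finset.range (k + 1), (∑ f : Fin n → ZMod (p ^ k), if f ∈ B v then
      (Nat.card (symG n (ZMod (p ^ k))) : ℝ) / Nat.card (B v) else 0) =
        Nat.card (symG n (ZMod (p ^ k))) := by
    intro v _
    rw [← Finset.sum_filter, Finset.sum_const, nsmul_eq_mul]
    have : (Finset.univ.filter fun f : Fin n → ZMod (p ^ k) => f ∈ B v).card =
        Nat.card (B v) := by
      rw [Nat.card_eq_fintype_card, Fintype.card_subtype]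
    rw [this]
    field_simp [(hBpos v).ne']
  rw [Finset.sum_congr rfl h6, Finset.sum_const, Finset.card_range, nsmul_eq_mul]
  push_cast
  exact le_rfl

/-- Markov's inequality. -/
theorem markov {p k : ℕ} (hp : p.Prime) (n : ℕ) [Fintype (symG n (ZMod (p ^ k)))] (t : ℕ)
    (ht : 0 < t) (P : symG n (ZMod (p ^ k)) → Prop) [DecidablePred P]
    (hP : ∀ M, P M → t ≤ Nat.card (kerM M.1)) :
    ((Finset.univ.filter P).card : ℝ) ≤
      (k + 1) * (Nat.card (symG n (ZMod (p ^ k))) : ℝ) / t := by
  have : NeZero (p ^ k) := ⟨pow_ne_zero k hp.ne_zero⟩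
  rw [le_div_iff₀ (by exact_mod_cast ht)]
  refine le_trans ?_ (sum_card_ker_le hp n)
  calc ((Finset.univ.filter P).card : ℝ) * t
      = ∑ M ∈ Finset.univ.filter P, (t : ℝ) := by rw [Finset.sum_const, nsmul_eq_mul]
    _ ≤ ∑ M ∈ Finset.univ.filter P, (Nat.card (kerM M.1) : ℝ) := by
        refine Finset.sum_le_sum fun M hM => ?_
        exact_mod_cast hP M (Finset.mem_filter.1 hM).2
    _ ≤ ∑ M : symG n (ZMod (p ^ k)), (Nat.card (kerM M.1) : ℝ) :=
        Finset.sum_le_sum_of_subset_of_nonneg (Finset.filter_subset _ _)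
          (fun M _ _ => Nat.cast_nonneg _)

/-- A small subgroup can be embedded in a small power of `ℤ / p ^ k`. -/
theorem exists_embedding {p k : ℕ} (hp : p.Prime) {Y : Type} [AddCommGroup Y] [Finite Y]
    (hY : ∀ y : Y, p ^ k • y = 0) (c : ℕ) : ∀ K : AddSubgroup Y, Nat.card K ≤ 2 ^ c →
      ∃ F : Y →+ (Fin c → ZMod (p ^ k)), ∀ y ∈ K, F y = 0 → y = 0 := by
  induction c with
  | zero =>
    intro K hK
    refine ⟨0, ?_⟩
    intro y hy _
    have h1 : Nat.card K = 1 := by
      have := Nat.card_pos (α := K)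
      simp only [pow_zero] at hK
      omega
    have := (Nat.card_eq_one_iff_unique.1 h1).1
    have h2 : (⟨y, hy⟩ : K) = 0 := Subsingleton.elim _ _
    exact congrArg Subtype.val h2
  | succ c ih =>
    intro K hK
    by_cases hbot : K = ⊥
    · refine ⟨0, ?_⟩
      intro y hy _
      rw [hbot] at hy
      exact (AddSubgroup.mem_bot).1 hy
    · obtain ⟨y0, hy0, hne⟩ := (AddSubgroup.bot_or_exists_ne_zero K).resolve_left hbot
      obtain ⟨φ, hφ⟩ := exists_dual_ne_zero hp Y hY y0 hne
      let K' : AddSubgroup Y := K ⊓ φ.ker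
      have hlt : Nat.card K' ≤ 2 ^ c := by
        -- index at least two
        have hdvd : Nat.card K' ∣ Nat.card K := AddSubgroup.card_dvd_of_le inf_le_left
        have hneq : Nat.card K' ≠ Nat.card K := by
          intro he
          have hKK : K' = K := by
            apply AddSubgroup.eq_of_le_of_card_ge inf_le_left
            rw [he]
          have : y0 ∈ K' := by rw [hKK]; exact hy0
          exact hφ (AddMonoidHom.mem_ker.1 this.2)
        obtain ⟨m, hm⟩ := hdvd
        have hpos : 0 < Nat.card K := Nat.card_pos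
        have hm2 : 2 ≤ m := by
          rcases m with _ | _ | m
          · simp at hm; omega
          · simp at hm; exact absurd hm.symm hneq
          · omega
        have : Nat.card K' * 2 ≤ 2 ^ c * 2 := by
          calc Nat.card K' * 2 ≤ Nat.card K' * m := Nat.mul_le_mul_left _ hm2
            _ = Nat.card K := hm.symm
            _ ≤ 2 ^ (c + 1) := hK
            _ = 2 ^ c * 2 := pow_succ 2 c
        omega
      obtain ⟨F, hF⟩ := ih K' hlt
      refine ⟨{ toFun := fun y => Fin.cons (φ y) (F y), map_zero' := ?_, map_add' := ?_ }, ?_⟩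
      · ext i
        refine Fin.cases ?_ (fun j => ?_) i
        · simp
        · simp
      · intro a b
        ext i
        refine Fin.cases ?_ (fun j => ?_) i
        · simp
        · simp
      · intro y hy h0
        have e0 : φ y = 0 := by
          have := congrFun h0 0
          simpa using this
        have e1 : F y = 0 := by
          ext j
          have := congrFun h0 j.succ
          simpa using this
        exact hF y ⟨hy, AddMonoidHom.mem_ker.2 e0⟩ e1

end Job11

theorem exists_mass {p : ℕ} (hp : p.Prime)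
    (hlim : ∀ k : ℕ, 1 ≤ k → ∀ (N : Type) [AddCommGroup N] [Finite N],
      (∀ x : N, p ^ (k - 1) • x = 0) →
      Tendsto (fun n : ℕ => (Nat.card {M : SymMat n (ZMod (p ^ k)) //
        Nonempty (kerM M.1 ≃+ N)} : ℝ) / (Nat.card (SymMat n (ZMod (p ^ k))) : ℝ)) atTop
        (𝓝 (mu p N))) (ε : ℝ) (hε : 0 < ε) :
    ∃ (k c : ℕ) (S : Finset (AddSubgroup (Fin c → ZMod (p ^ k)))),
      (∀ V ∈ S, ∀ V' ∈ S, V ≠ V' → IsEmpty (V ≃+ V')) ∧ 1 - ε ≤ ∑ V ∈ S, mu p V := by
  classical
  -- choice of `k` and `c`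
  have hk : ∃ k : ℕ, 1 ≤ k ∧ ((k : ℝ) + 1) / (p : ℝ) ^ k ≤ ε / 2 := by
    have h1 : Tendsto (fun k : ℕ => ((k : ℝ) + 1) / (p : ℝ) ^ k) atTop (𝓝 0) := by
      have hp1 : (1 : ℝ) < p := by exact_mod_cast hp.one_lt
      have e1 := tendsto_pow_const_div_const_pow_of_one_lt 1 hp1
      have e2 := tendsto_pow_const_div_const_pow_of_one_lt 0 hp1
      have e3 := e1.add e2
      simp only [pow_one, pow_zero, add_zero] at e3
      refine e3.congr fun k => ?_
      rw [add_div]
    have h2 := (h1.eventually (ge_mem_nhds (half_pos hε))).and (eventually_ge_atTop 1)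
    obtain ⟨k, h3, h4⟩ := h2.exists
    exact ⟨k, h4, h3⟩
  obtain ⟨k, hk1, hkε⟩ := hk
  have hc : ∃ c : ℕ, ((k : ℝ) + 1) / (2 : ℝ) ^ c ≤ ε / 2 := by
    have h1 : Tendsto (fun c : ℕ => ((k : ℝ) + 1) / (2 : ℝ) ^ c) atTop (𝓝 0) :=
      Tendsto.const_div_atTop (tendsto_pow_atTop_atTop_of_one_lt one_lt_two) _
    exact ((h1.eventually (ge_mem_nhds (half_pos hε)))).exists
  obtain ⟨c, hcε⟩ := hc
  have hNZ : NeZero (p ^ k) := ⟨pow_ne_zero k hp.ne_zero⟩
  have : Finite (AddSubgroup (Fin c → ZMod (p ^ k))) := inferInstance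
  -- representatives
  let A : Type := {V : AddSubgroup (Fin c → ZMod (p ^ k)) // ∀ x : V, p ^ (k - 1) • x = 0}
  have : Finite A := inferInstance
  let s : Setoid A :=
    { r := fun V W => Nonempty (V.1 ≃+ W.1)
      iseqv := ⟨fun V => ⟨AddEquiv.refl _⟩, fun ⟨e⟩ => ⟨e.symm⟩, fun ⟨e⟩ ⟨e'⟩ => ⟨e.trans e'⟩⟩ }
  have : Fintype (Quotient s) := Fintype.ofFinite _
  let S : Finset (AddSubgroup (Fin c → ZMod (p ^ k))) :=
    Finset.univ.image fun q : Quotient s => (Quotient.out q).1
  have hSk : ∀ V ∈ S, ∀ x : V, p ^ (k - 1) • x = 0 := by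
    intro V hV
    obtain ⟨q, -, rfl⟩ := Finset.mem_image.1 hV
    exact (Quotient.out q).2
  refine ⟨k, c, S, ?_, ?_⟩
  · intro V hV V' hV' hne
    obtain ⟨q, -, rfl⟩ := Finset.mem_image.1 hV
    obtain ⟨q', -, rfl⟩ := Finset.mem_image.1 hV'
    refine ⟨fun e => hne ?_⟩
    have h1 : (⟦Quotient.out q⟧ : Quotient s) = ⟦Quotient.out q'⟧ := Quotient.sound ⟨e⟩
    rw [Quotient.out_eq, Quotient.out_eq] at h1
    rw [h1]
  · -- the limit
    have hlim' : Tendsto (fun n : ℕ => ∑ V ∈ S, (Nat.card {M : SymMat n (ZMod (p ^ k)) //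
        Nonempty (kerM M.1 ≃+ V)} : ℝ) / (Nat.card (SymMat n (ZMod (p ^ k))) : ℝ)) atTop
        (𝓝 (∑ V ∈ S, mu p V)) :=
      tendsto_finsetSum S fun V hV => hlim k hk1 V (hSk V hV)
    refine ge_of_tendsto' hlim' fun n => ?_
    have hFS : Fintype (Job11.symG n (ZMod (p ^ k))) := Fintype.ofFinite _
    have hpos : (0 : ℝ) < Nat.card (SymMat n (ZMod (p ^ k))) := by
      have : Nonempty (SymMat n (ZMod (p ^ k))) := ⟨⟨0, Matrix.isSymm_zero⟩⟩
      exact_mod_cast Nat.card_pos
    have hcardeq : Nat.card (Job11.symG n (ZMod (p ^ k))) = Nat.card (SymMat n (ZMod (p ^ k))) :=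
      rfl
    rw [← Finset.sum_div, le_div_iff₀ hpos]
    -- the two bad events
    have hb1 := Job11.markov (p := p) (k := k) hp n (2 ^ c) (by positivity)
      (fun M => 2 ^ c < Nat.card (kerM M.1)) (fun M h => h.le)
    have hb2 := Job11.markov (p := p) (k := k) hp n (p ^ k) (pow_pos hp.pos k)
      (fun M => ∃ x : kerM M.1, p ^ (k - 1) • x ≠ 0) (by
        rintro M ⟨x, hx⟩
        have hord : addOrderOf x = p ^ (k - 1 + 1) := by
          have : Fact p.Prime := ⟨hp⟩
          refine addOrderOf_eq_prime_pow hx ?_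
          rw [Nat.sub_add_cancel hk1]
          apply Subtype.ext
          change p ^ k • (x : Fin n → ZMod (p ^ k)) = 0
          ext i
          simp only [Pi.smul_apply, nsmul_eq_mul, Pi.zero_apply]
          rw [ZMod.natCast_self, zero_mul]
        rw [Nat.sub_add_cancel hk1] at hord
        exact hord.symm.le.trans addOrderOf_le_card)
    -- a good matrix
    have hgood : ∀ M : Job11.symG n (ZMod (p ^ k)), ¬ (2 ^ c < Nat.card (kerM M.1)) →
        ¬ (∃ x : kerM M.1, p ^ (k - 1) • x ≠ 0) → ∃ V ∈ S, Nonempty (kerM M.1 ≃+ V) := by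
      intro M h1 h2
      push Not at h1 h2
      have hk' : ∀ y : kerM M.1, p ^ k • y = 0 := by
        intro y
        have : p ^ k = p * p ^ (k - 1) := by
          rw [← pow_succ', Nat.sub_add_cancel hk1]
        calc p ^ k • y = (p * p ^ (k - 1)) • y := congrArg (fun m : ℕ => m • y) this
          _ = 0 := by rw [mul_smul, h2 y, smul_zero]
      obtain ⟨F, hF⟩ := Job11.exists_embedding hp hk' c ⊤ (by
        rw [AddSubgroup.card_top]
        exact h1)
      have hinj : Function.Injective F := by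
        rw [injective_iff_map_eq_zero]
        intro y hy
        exact hF y (AddSubgroup.mem_top y) hy
      let e : kerM M.1 ≃+ F.range := AddMonoidHom.ofInjective hinj
      have hkr : ∀ x : F.range, p ^ (k - 1) • x = 0 := by
        intro x
        obtain ⟨y, rfl⟩ := e.surjective x
        rw [← map_nsmul, h2 y, map_zero]
      let a : A := ⟨F.range, hkr⟩
      refine ⟨(Quotient.out (⟦a⟧ : Quotient s)).1, Finset.mem_image.2 ⟨⟦a⟧, Finset.mem_univ _, rfl⟩,
        ?_⟩
      have h3 : s.r a (Quotient.out (⟦a⟧ : Quotient s)) :=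
        Quotient.exact (Quotient.out_eq (⟦a⟧ : Quotient s)).symm
      obtain ⟨e'⟩ := h3
      exact ⟨e.trans e'⟩
    -- count
    have hcount : (Nat.card (SymMat n (ZMod (p ^ k))) : ℝ) ≤
        ((Finset.univ.filter fun M : Job11.symG n (ZMod (p ^ k)) =>
          2 ^ c < Nat.card (kerM M.1)).card : ℝ) +
        ((Finset.univ.filter fun M : Job11.symG n (ZMod (p ^ k)) =>
          ∃ x : kerM M.1, p ^ (k - 1) • x ≠ 0).card : ℝ) +
        ∑ V ∈ S, (Nat.card {M : SymMat n (ZMod (p ^ k)) // Nonempty (kerM M.1 ≃+ V)} : ℝ) := by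
      have hV : ∀ V ∈ S, (Nat.card {M : SymMat n (ZMod (p ^ k)) //
          Nonempty (kerM M.1 ≃+ V)} : ℝ) = ((Finset.univ.filter
            fun M : Job11.symG n (ZMod (p ^ k)) => Nonempty (kerM M.1 ≃+ V)).card : ℝ) := by
        intro V _
        rw [← Fintype.card_subtype, ← Nat.card_eq_fintype_card]
        rfl
      rw [Finset.sum_congr rfl hV, ← hcardeq, Nat.card_eq_fintype_card, ← Finset.card_univ]
      norm_cast
      have hsub : (Finset.univ : Finset (Job11.symG n (ZMod (p ^ k)))) ⊆
          ((Finset.univ.filter fun M : Job11.symG n (ZMod (p ^ k)) =>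
            2 ^ c < Nat.card (kerM M.1)) ∪
          (Finset.univ.filter fun M : Job11.symG n (ZMod (p ^ k)) =>
            ∃ x : kerM M.1, p ^ (k - 1) • x ≠ 0)) ∪
          S.biUnion fun V => Finset.univ.filter
            fun M : Job11.symG n (ZMod (p ^ k)) => Nonempty (kerM M.1 ≃+ V) := by
        intro M _
        rw [Finset.mem_union, Finset.mem_union, Finset.mem_filter, Finset.mem_filter,
          Finset.mem_biUnion]
        by_cases h1 : 2 ^ c < Nat.card (kerM M.1)
        · exact Or.inl (Or.inl ⟨Finset.mem_univ _, h1⟩)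
        · by_cases h2 : ∃ x : kerM M.1, p ^ (k - 1) • x ≠ 0
          · exact Or.inl (Or.inr ⟨Finset.mem_univ _, h2⟩)
          · obtain ⟨V, hVS, hVe⟩ := hgood M h1 h2
            exact Or.inr ⟨V, hVS, Finset.mem_filter.2 ⟨Finset.mem_univ _, hVe⟩⟩
      refine (Finset.card_le_card hsub).trans ((Finset.card_union_le _ _).trans ?_)
      exact Nat.add_le_add (Finset.card_union_le _ _) Finset.card_biUnion_le
    rw [hcardeq] at hb1 hb2
    push_cast at hb1 hb2
    have e1 : ((k : ℝ) + 1) * (Nat.card (SymMat n (ZMod (p ^ k))) : ℝ) / 2 ^ c ≤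
        ε / 2 * (Nat.card (SymMat n (ZMod (p ^ k))) : ℝ) := by
      rw [mul_div_right_comm]
      exact mul_le_mul_of_nonneg_right hcε hpos.le
    have e2 : ((k : ℝ) + 1) * (Nat.card (SymMat n (ZMod (p ^ k))) : ℝ) / (p : ℝ) ^ k ≤
        ε / 2 * (Nat.card (SymMat n (ZMod (p ^ k))) : ℝ) := by
      rw [mul_div_right_comm]
      exact mul_le_mul_of_nonneg_right hkε hpos.le
    nlinarith [hcount, hb1, hb2, e1, e2]

end Pool.Agent.Lib.MP_49901c_pr
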