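import Mathlib
import Pool.Agent.Lib.MP_49901c_pr.Defs
import Pool.Agent.Lib.MP_49901c_pr.Uniform

/-!
# Connectivity of `G(n, q)` with `q → 0` forces `n q - log n → ∞`

Second moment method for the number of isolated vertices.
-/

namespace Pool.Agent.Lib.MP_49901c_pr

open Filter Topology

namespace Job7

open scoped Classical

/-- The weight of a graph under `G(n, q)`. -/
noncomputable def wt (n : ℕ) (q : ℝ) (G : SimpleGraph (Fin n)) : ℝ :=
  q ^ G.edgeSet.ncard * (1 - q) ^ (n.choose 2 - G.edgeSet.ncard)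

theorem wt_nonneg {n : ℕ} {q : ℝ} (h0 : 0 ≤ q) (h1 : q ≤ 1) (G : SimpleGraph (Fin n)) :
    0 ≤ wt n q G :=
  mul_nonneg (pow_nonneg h0 _) (pow_nonneg (by linarith) _)

theorem gnpProb_eq (n : ℕ) (q : ℝ) (S : Set (SimpleGraph (Fin n))) :
    gnpProb n q S = ∑ G : SimpleGraph (Fin n), if G ∈ S then wt n q G else 0 := by
  unfold gnpProb
  rw [finsum_mem_def, finsum_eq_sum_of_fintype]
  refine Finset.sum_congr rfl fun G _ => ?_
  rw [Set.indicator_apply]
  rfl

/-- The edges of a graph as a finset. -/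
noncomputable def edges {n : ℕ} (G : SimpleGraph (Fin n)) : Finset (Sym2 (Fin n)) :=
  Finset.univ.filter (fun e => e ∈ G.edgeSet)

theorem mem_edges {n : ℕ} (G : SimpleGraph (Fin n)) (e : Sym2 (Fin n)) :
    e ∈ edges G ↔ e ∈ G.edgeSet := by
  unfold edges
  rw [Finset.mem_filter]
  simp

/-- The probability that no pair of `A` is an edge. -/
theorem sum_avoid (n : ℕ) (q : ℝ) (A : Finset (Sym2 (Fin n))) (hA : ∀ e ∈ A, ¬ e.IsDiag) :
    (∑ G : SimpleGraph (Fin n), if (∀ e ∈ A, e ∉ G.edgeSet) then wt n q G else 0) =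
      (1 - q) ^ A.card := by
  set U : Finset (Sym2 (Fin n)) := Finset.univ.filter (fun e => ¬ e.IsDiag) with hU
  have hUc : U.card = n.choose 2 := by
    have h := SimpleGraph.card_edgeFinset_top_eq_card_choose_two (V := Fin n)
    rw [Fintype.card_fin] at h
    rw [← h]
    congr 1
    ext e
    rw [hU, Finset.mem_filter, SimpleGraph.mem_edgeFinset, SimpleGraph.edgeSet_top]
    simp
  have hAU : A ⊆ U := by
    intro e he
    rw [hU, Finset.mem_filter]
    exact ⟨Finset.mem_univ _, hA e he⟩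
  rw [← Finset.sum_filter]
  have key : ∑ G ∈ (Finset.univ : Finset (SimpleGraph (Fin n))).filter
      (fun G => ∀ e ∈ A, e ∉ G.edgeSet), wt n q G =
      ∑ t ∈ (U \ A).powerset, q ^ t.card * (1 - q) ^ (n.choose 2 - t.card) := by
    refine Finset.sum_bij' (fun G _ => edges G)
      (fun t _ => SimpleGraph.fromEdgeSet (t : Set (Sym2 (Fin n)))) ?_ ?_ ?_ ?_ ?_
    · intro G hG
      rw [Finset.mem_filter] at hG
      rw [Finset.mem_powerset]
      intro e he
      rw [mem_edges] at he
      rw [Finset.mem_sdiff, hU, Finset.mem_filter]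
      exact ⟨⟨Finset.mem_univ _, SimpleGraph.not_isDiag_of_mem_edgeSet _ he⟩,
        fun h => hG.2 e h he⟩
    · intro t ht
      rw [Finset.mem_powerset, Finset.subset_sdiff] at ht
      rw [Finset.mem_filter]
      refine ⟨Finset.mem_univ _, ?_⟩
      intro e he h
      rw [SimpleGraph.edgeSet_fromEdgeSet] at h
      exact Finset.disjoint_left.1 ht.2 h.1 he
    · intro G hG
      apply SimpleGraph.edgeSet_injective
      rw [SimpleGraph.edgeSet_fromEdgeSet]
      ext e
      rw [Set.mem_sdiff, Finset.mem_coe, mem_edges]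
      constructor
      · intro h
        exact h.1
      · intro h
        exact ⟨h, SimpleGraph.not_isDiag_of_mem_edgeSet _ h⟩
    · intro t ht
      rw [Finset.mem_powerset, Finset.subset_sdiff] at ht
      ext e
      rw [mem_edges, SimpleGraph.edgeSet_fromEdgeSet]
      constructor
      · intro h
        exact h.1
      · intro h
        refine ⟨h, ?_⟩
        have h2 := ht.1 h
        rw [hU, Finset.mem_filter] at h2
        exact h2.2
    · intro G hG
      unfold wt
      have h : G.edgeSet.ncard = (edges G).card := by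
        rw [← Set.ncard_coe_finset]
        congr 1
        ext e
        rw [Finset.mem_coe, mem_edges]
      rw [h]
  rw [key]
  have h2 : ∀ t ∈ (U \ A).powerset, q ^ t.card * (1 - q) ^ (n.choose 2 - t.card) =
      (1 - q) ^ A.card * (q ^ t.card * (1 - q) ^ ((U \ A).card - t.card)) := by
    intro t ht
    rw [Finset.mem_powerset] at ht
    have h3 := Finset.card_le_card ht
    have h4 : (U \ A).card + A.card = n.choose 2 := by
      rw [← hUc]
      exact Finset.card_sdiff_add_card_eq_card hAU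
    have h5 : n.choose 2 - t.card = A.card + ((U \ A).card - t.card) := by omega
    rw [h5, pow_add]
    ring
  rw [Finset.sum_congr rfl h2, ← Finset.mul_sum, Finset.sum_pow_mul_eq_add_pow]
  simp

theorem sum_wt (n : ℕ) (q : ℝ) : ∑ G : SimpleGraph (Fin n), wt n q G = 1 := by
  have h := sum_avoid n q ∅ (by simp)
  simpa using h

/-- A vertex is isolated. -/
def Iso {n : ℕ} (G : SimpleGraph (Fin n)) (v : Fin n) : Prop := ∀ w, ¬ G.Adj v w

/-- The pairs at a vertex. -/
noncomputable def star {n : ℕ} (v : Fin n) : Finset (Sym2 (Fin n)) :=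
  (Finset.univ.erase v).image (fun w => s(v, w))

theorem star_injOn {n : ℕ} (v : Fin n) : Set.InjOn (fun w => s(v, w)) (Set.univ : Set (Fin n)) := by
  intro a _ b _ h
  have h2 : s(v, a) = s(v, b) := h
  rw [Sym2.eq_iff] at h2
  rcases h2 with h | h
  · exact h.2
  · rw [← h.1, h.2]

theorem card_star {n : ℕ} (v : Fin n) : (star v).card = n - 1 := by
  unfold star
  rw [Finset.card_image_of_injOn ((star_injOn v).mono (Set.subset_univ _)),
    Finset.card_erase_of_mem (Finset.mem_univ _)]
  simp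

theorem star_not_diag {n : ℕ} (v : Fin n) : ∀ e ∈ star v, ¬ e.IsDiag := by
  intro e he
  unfold star at he
  rw [Finset.mem_image] at he
  obtain ⟨w, hw, rfl⟩ := he
  rw [Sym2.mk_isDiag_iff]
  exact fun h => (Finset.mem_erase.1 hw).1 h.symm

theorem iso_iff {n : ℕ} (G : SimpleGraph (Fin n)) (v : Fin n) :
    Iso G v ↔ ∀ e ∈ star v, e ∉ G.edgeSet := by
  unfold Iso star
  constructor
  · intro h e he
    rw [Finset.mem_image] at he
    obtain ⟨w, hw, rfl⟩ := he
    exact h w
  · intro h w hw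
    have hne : w ≠ v := fun hh => by
      rw [hh] at hw
      exact G.loopless.irrefl v hw
    exact h s(v, w) (Finset.mem_image.2 ⟨w, Finset.mem_erase.2 ⟨hne, Finset.mem_univ _⟩, rfl⟩) hw

theorem card_star_union {n : ℕ} (v w : Fin n) (hvw : v ≠ w) :
    (star v ∪ star w).card = 2 * n - 3 := by
  have h1 : (star v ∩ star w) = {s(v, w)} := by
    ext e
    rw [Finset.mem_inter, Finset.mem_singleton]
    unfold star
    constructor
    · rintro ⟨h1, h2⟩
      rw [Finset.mem_image] at h1 h2
      obtain ⟨a, ha, rfl⟩ := h1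
      obtain ⟨b, hb, hab⟩ := h2
      rw [Sym2.eq_iff] at hab
      rcases hab with ⟨h, -⟩ | ⟨h, h'⟩
      · exact absurd h.symm hvw
      · rw [h]
    · rintro rfl
      constructor
      · exact Finset.mem_image.2 ⟨w, Finset.mem_erase.2 ⟨hvw.symm, Finset.mem_univ _⟩, rfl⟩
      · exact Finset.mem_image.2 ⟨v, Finset.mem_erase.2 ⟨hvw, Finset.mem_univ _⟩, Sym2.eq_swap⟩
  have h2 := Finset.card_union_add_card_inter (star v) (star w)
  rw [h1, Finset.card_singleton, card_star, card_star] at h2
  have h3 : 2 ≤ n := by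
    have := v.isLt
    have := w.isLt
    have : (v : ℕ) ≠ w := fun h => hvw (Fin.ext h)
    omega
  omega

/-- The number of isolated vertices. -/
noncomputable def isoCount {n : ℕ} (G : SimpleGraph (Fin n)) : ℝ :=
  ∑ v : Fin n, if Iso G v then (1 : ℝ) else 0

theorem first_moment (n : ℕ) (q : ℝ) :
    ∑ G : SimpleGraph (Fin n), wt n q G * isoCount G = n * (1 - q) ^ (n - 1) := by
  have h1 : ∀ G : SimpleGraph (Fin n), wt n q G * isoCount G =
      ∑ v : Fin n, if (∀ e ∈ star v, e ∉ G.edgeSet) then wt n q G else 0 := by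
    intro G
    unfold isoCount
    rw [Finset.mul_sum]
    refine Finset.sum_congr rfl fun v _ => ?_
    simp only [iso_iff]
    split_ifs <;> simp
  rw [Finset.sum_congr rfl fun G _ => h1 G, Finset.sum_comm,
    Finset.sum_congr rfl fun v _ => sum_avoid n q (star v) (star_not_diag v)]
  simp [card_star]

theorem second_moment (n : ℕ) (q : ℝ) :
    ∑ G : SimpleGraph (Fin n), wt n q G * isoCount G ^ 2 =
      n * (1 - q) ^ (n - 1) + n * (n - 1) * (1 - q) ^ (2 * n - 3) := by
  have h1 : ∀ G : SimpleGraph (Fin n), wt n q G * isoCount G ^ 2 =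
      ∑ v : Fin n, ∑ w : Fin n,
        if (∀ e ∈ star v ∪ star w, e ∉ G.edgeSet) then wt n q G else 0 := by
    intro G
    unfold isoCount
    rw [sq, Finset.sum_mul_sum, Finset.mul_sum]
    refine Finset.sum_congr rfl fun v _ => ?_
    rw [Finset.mul_sum]
    refine Finset.sum_congr rfl fun w _ => ?_
    have h : (∀ e ∈ star v ∪ star w, e ∉ G.edgeSet) ↔ (Iso G v ∧ Iso G w) := by
      rw [iso_iff, iso_iff]
      constructor
      · intro h
        exact ⟨fun e he => h e (Finset.mem_union_left _ he),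
          fun e he => h e (Finset.mem_union_right _ he)⟩
      · intro h e he
        rcases Finset.mem_union.1 he with he | he
        · exact h.1 e he
        · exact h.2 e he
    simp only [h]
    by_cases hv : Iso G v <;> by_cases hw : Iso G w <;> simp [hv, hw]
  have h2 : ∀ v w : Fin n, (∑ G : SimpleGraph (Fin n),
      if (∀ e ∈ star v ∪ star w, e ∉ G.edgeSet) then wt n q G else 0) =
      if v = w then (1 - q) ^ (n - 1) else (1 - q) ^ (2 * n - 3) := by
    intro v w
    rw [sum_avoid n q (star v ∪ star w)]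
    · split_ifs with h
      · rw [h, Finset.union_self, card_star]
      · rw [card_star_union v w h]
    · intro e he
      rcases Finset.mem_union.1 he with he | he
      · exact star_not_diag v e he
      · exact star_not_diag w e he
  rw [Finset.sum_congr rfl fun G _ => h1 G, Finset.sum_comm]
  have h3 : ∀ v : Fin n, (∑ G : SimpleGraph (Fin n), ∑ w : Fin n,
      if (∀ e ∈ star v ∪ star w, e ∉ G.edgeSet) then wt n q G else 0) =
      (1 - q) ^ (n - 1) + (n - 1) * (1 - q) ^ (2 * n - 3) := by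
    intro v
    rw [Finset.sum_comm, Finset.sum_congr rfl fun w _ => h2 v w,
      ← Finset.add_sum_erase _ _ (Finset.mem_univ v)]
    rw [if_pos rfl]
    congr 1
    have h4 : ∀ w ∈ Finset.univ.erase v,
        (if v = w then (1 - q) ^ (n - 1) else (1 - q) ^ (2 * n - 3)) = (1 - q) ^ (2 * n - 3) := by
      intro w hw
      rw [if_neg (fun h => (Finset.mem_erase.1 hw).1 h.symm)]
    rw [Finset.sum_congr rfl h4, Finset.sum_const, Finset.card_erase_of_mem (Finset.mem_univ _),
      Finset.card_univ, Fintype.card_fin, nsmul_eq_mul]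
    have hn : 1 ≤ n := by
      have := v.isLt
      omega
    push_cast [Nat.cast_sub hn]
    ring
  rw [Finset.sum_congr rfl fun v _ => h3 v, Finset.sum_const, Finset.card_univ, Fintype.card_fin,
    nsmul_eq_mul]
  ring

/-- The second moment inequality. -/
theorem main_ineq (n : ℕ) (hn : 2 ≤ n) (q : ℝ) (h0 : 0 ≤ q) (h1 : q ≤ 1) :
    (n * (1 - q) ^ (n - 1)) ^ 2 ≤ (1 - gnpProb n q {G | G.Connected}) *
      (n * (1 - q) ^ (n - 1) + n * (n - 1) * (1 - q) ^ (2 * n - 3)) := by
  rw [← second_moment, ← first_moment]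
  have hc : ∀ G : SimpleGraph (Fin n), G.Connected → isoCount G = 0 := by
    intro G hG
    unfold isoCount
    refine Finset.sum_eq_zero fun v _ => ?_
    rw [if_neg]
    intro hv
    have : Nontrivial (Fin n) := Fin.nontrivial_iff_two_le.2 hn
    obtain ⟨w, hw⟩ := hG.preconnected.exists_adj_of_nontrivial v
    exact hv w hw
  have hP : 1 - gnpProb n q {G | G.Connected} =
      ∑ G : SimpleGraph (Fin n), wt n q G * (if G.Connected then (0 : ℝ) else 1) := by
    rw [gnpProb_eq]
    refine (congrArg (fun x => x - _) (sum_wt n q).symm).trans ?_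
    rw [← Finset.sum_sub_distrib]
    refine Finset.sum_congr rfl fun G _ => ?_
    by_cases hG : G.Connected <;> simp [hG]
  rw [hP]
  have hCS := Finset.sum_mul_sq_le_sq_mul_sq (Finset.univ : Finset (SimpleGraph (Fin n)))
    (fun G => Real.sqrt (wt n q G) * (if G.Connected then (0 : ℝ) else 1))
    (fun G => Real.sqrt (wt n q G) * isoCount G)
  have e1 : ∀ G : SimpleGraph (Fin n),
      (Real.sqrt (wt n q G) * (if G.Connected then (0 : ℝ) else 1)) *
      (Real.sqrt (wt n q G) * isoCount G) = wt n q G * isoCount G := by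
    intro G
    have hs := Real.mul_self_sqrt (wt_nonneg h0 h1 G)
    by_cases hG : G.Connected
    · simp [hG, hc G hG]
    · simp only [hG, if_false]
      calc _ = (Real.sqrt (wt n q G) * Real.sqrt (wt n q G)) * isoCount G := by ring
        _ = _ := by rw [hs]
  have e2 : ∀ G : SimpleGraph (Fin n),
      (Real.sqrt (wt n q G) * (if G.Connected then (0 : ℝ) else 1)) ^ 2 =
      wt n q G * (if G.Connected then (0 : ℝ) else 1) := by
    intro G
    have hs := Real.mul_self_sqrt (wt_nonneg h0 h1 G)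
    by_cases hG : G.Connected
    · simp [hG]
    · simp only [hG, if_false]
      calc _ = (Real.sqrt (wt n q G) * Real.sqrt (wt n q G)) * 1 := by ring
        _ = _ := by rw [hs]
  have e3 : ∀ G : SimpleGraph (Fin n),
      (Real.sqrt (wt n q G) * isoCount G) ^ 2 = wt n q G * isoCount G ^ 2 := by
    intro G
    have hs := Real.mul_self_sqrt (wt_nonneg h0 h1 G)
    calc _ = (Real.sqrt (wt n q G) * Real.sqrt (wt n q G)) * isoCount G ^ 2 := by ring
      _ = _ := by rw [hs]
  rw [Finset.sum_congr rfl fun G _ => e1 G, Finset.sum_congr rfl fun G _ => e2 G,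
    Finset.sum_congr rfl fun G _ => e3 G] at hCS
  exact hCS

/-- The expected number of isolated vertices is small. -/
theorem moment_le (n : ℕ) (hn : 2 ≤ n) (q : ℝ) (h0 : 0 ≤ q) (h1 : q ≤ 1 / 2)
    (hd : 1 - gnpProb n q {G | G.Connected} ≤ 1 / 4) :
    n * (1 - q) ^ (n - 1) ≤ 2 * (1 - gnpProb n q {G | G.Connected}) := by
  have h := main_ineq n hn q h0 (by linarith)
  set δ := 1 - gnpProb n q {G | G.Connected} with hδ
  set m : ℝ := n * (1 - q) ^ (n - 1) with hm
  have hq : 0 < 1 - q := by linarith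
  have hn0 : (0 : ℝ) < n := by
    have : 0 < n := by omega
    exact_mod_cast this
  have hm0 : 0 < m := mul_pos hn0 (pow_pos hq _)
  have h2 : n * ((n : ℝ) - 1) * (1 - q) ^ (2 * n - 3) ≤ 2 * m ^ 2 := by
    have e : (1 - q) * (1 - q) ^ (2 * n - 3) = (1 - q) ^ (n - 1) * (1 - q) ^ (n - 1) := by
      rw [← pow_succ', ← pow_add]
      congr 1
      omega
    have hp : 0 < (1 - q) ^ (2 * n - 3) := pow_pos hq _
    have h3 : (1 - q) ^ (2 * n - 3) ≤ 2 * ((1 - q) ^ (n - 1) * (1 - q) ^ (n - 1)) := by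
      rw [← e]
      nlinarith
    have h4 : n * ((n : ℝ) - 1) * (1 - q) ^ (2 * n - 3) ≤ n * n * (1 - q) ^ (2 * n - 3) := by
      apply mul_le_mul_of_nonneg_right _ hp.le
      nlinarith
    have h5 : (n : ℝ) * n * (1 - q) ^ (2 * n - 3) ≤
        n * n * (2 * ((1 - q) ^ (n - 1) * (1 - q) ^ (n - 1))) :=
      mul_le_mul_of_nonneg_left h3 (by positivity)
    calc _ ≤ _ := h4
      _ ≤ _ := h5
      _ = 2 * m ^ 2 := by rw [hm]; ring
  have hδ0 : 0 ≤ δ := by
    by_contra hneg
    push Not at hneg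
    have h3 : 0 ≤ m + n * ((n : ℝ) - 1) * (1 - q) ^ (2 * n - 3) := by
      have hp : 0 < (1 - q) ^ (2 * n - 3) := pow_pos hq _
      have hn1 : (0 : ℝ) ≤ (n : ℝ) - 1 := by
        have : (1 : ℝ) ≤ n := by exact_mod_cast (by omega : 1 ≤ n)
        linarith
      positivity
    nlinarith
  have h3 : m ^ 2 ≤ δ * (m + 2 * m ^ 2) := h.trans (mul_le_mul_of_nonneg_left (by linarith) hδ0)
  have h4 : m ≤ δ * (1 + 2 * m) := by
    have : m * m ≤ m * (δ * (1 + 2 * m)) := by nlinarith
    exact le_of_mul_le_mul_left this hm0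
  nlinarith

/-- `-log (1 - q) ≤ q + 2 * q ^ 2` for `0 ≤ q ≤ 1/2`. -/
theorem neg_log_le (q : ℝ) (h0 : 0 ≤ q) (h1 : q ≤ 1 / 2) :
    -Real.log (1 - q) ≤ q + 2 * q ^ 2 := by
  have hq : 0 < 1 - q := by linarith
  rw [← Real.log_inv]
  have h := Real.log_le_sub_one_of_pos (inv_pos.2 hq)
  refine h.trans ?_
  have h2 : (1 - q)⁻¹ ≤ 1 + q + 2 * q ^ 2 := by
    rw [inv_le_iff_one_le_mul₀ hq]
    nlinarith [mul_nonneg (mul_nonneg h0 h0) (by linarith : 0 ≤ 1 - 2 * q)]
  linarith

end Job7

open Job7

theorem tendsto_atTop_of_connected (q : ℕ → ℝ) (h0 : ∀ n, 0 < q n) (_h1 : ∀ n, q n < 1)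
    (hq : Tendsto q atTop (𝓝 0))
    (hc : Tendsto (fun n : ℕ => gnpProb (n + 1) (q (n + 1)) {G | G.Connected}) atTop (𝓝 1)) :
    Tendsto (fun n : ℕ => n * q n - Real.log n) atTop atTop := by
  have hc' : Tendsto (fun n : ℕ => gnpProb n (q n) {G | G.Connected}) atTop (𝓝 1) :=
    (tendsto_add_atTop_iff_nat 1).1 hc
  rw [tendsto_atTop]
  intro M
  have hq2 : ∀ᶠ n : ℕ in atTop, q n ≤ 1 / 2 := hq.eventually (ge_mem_nhds (by norm_num))
  -- the failure probability is small
  set ε : ℝ := Real.exp (-(|M| + 9)) / 4 with hε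
  have hε0 : 0 < ε := by positivity
  have hε1 : ε ≤ 1 / 4 := by
    rw [hε]
    have : Real.exp (-(|M| + 9)) ≤ 1 := Real.exp_le_one_iff.2 (by linarith [abs_nonneg M])
    linarith
  have hd : ∀ᶠ n : ℕ in atTop, 1 - ε < gnpProb n (q n) {G | G.Connected} :=
    hc'.eventually (lt_mem_nhds (by linarith))
  have hlog : Tendsto (fun n : ℕ => Real.log n) atTop atTop :=
    Real.tendsto_log_atTop.comp tendsto_natCast_atTop_atTop
  have hl1 : ∀ᶠ n : ℕ in atTop, |M| ≤ Real.log n := hlog.eventually_ge_atTop _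
  have hl2 : Tendsto (fun n : ℕ => Real.log n ^ 2 / (n : ℝ)) atTop (𝓝 0) := by
    have h := Real.tendsto_pow_log_div_mul_add_atTop 1 0 2 one_ne_zero
    have h2 := h.comp tendsto_natCast_atTop_atTop (α := ℕ)
    simpa [Function.comp_def] using h2
  have hl3 : ∀ᶠ n : ℕ in atTop, Real.log n ^ 2 / (n : ℝ) ≤ 1 :=
    hl2.eventually (ge_mem_nhds (by norm_num))
  filter_upwards [hq2, hd, hl1, hl3, eventually_ge_atTop 2] with n hn1 hn2 hn3 hn4 hn5
  have hn0 : (0 : ℝ) < n := by exact_mod_cast (by omega : 0 < n)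
  have hM : M ≤ |M| := le_abs_self M
  have hmom := moment_le n hn5 (q n) (h0 n).le hn1 (by linarith)
  have hq' : 0 < 1 - q n := by linarith
  -- take logarithms
  have hlt : (n : ℝ) * (1 - q n) ^ (n - 1) < Real.exp (-(|M| + 9)) := by
    have : 2 * (1 - gnpProb n (q n) {G | G.Connected}) < 2 * ε := by linarith
    have h3 : 2 * ε ≤ Real.exp (-(|M| + 9)) := by
      rw [hε]
      have := Real.exp_pos (-(|M| + 9))
      linarith
    linarith
  have hlog1 : Real.log n + (n - 1) * Real.log (1 - q n) < -(|M| + 9) := by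
    have h3 := Real.log_lt_log (mul_pos hn0 (pow_pos hq' _)) hlt
    rw [Real.log_exp, Real.log_mul hn0.ne' (pow_pos hq' _).ne', Real.log_pow,
      Nat.cast_sub (by omega : 1 ≤ n), Nat.cast_one] at h3
    exact h3
  have hneg := neg_log_le (q n) (h0 n).le hn1
  have hn1' : (1 : ℝ) ≤ n := by exact_mod_cast (by omega : 1 ≤ n)
  have h5 : |M| + 9 < n * (q n + 2 * q n ^ 2) - Real.log n := by
    have h6 : ((n : ℝ) - 1) * (-Real.log (1 - q n)) ≤ (n - 1) * (q n + 2 * q n ^ 2) :=
      mul_le_mul_of_nonneg_left hneg (by linarith)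
    have h7 : 0 ≤ q n + 2 * q n ^ 2 := by
      have := h0 n
      positivity
    nlinarith
  rcases le_total (2 * Real.log n / n) (q n) with hcase | hcase
  · rw [div_le_iff₀ hn0] at hcase
    nlinarith
  · have h8 : (n : ℝ) * q n ^ 2 ≤ 4 := by
      have h9 : q n ^ 2 ≤ (2 * Real.log n / n) ^ 2 :=
        pow_le_pow_left₀ (h0 n).le hcase 2
      calc (n : ℝ) * q n ^ 2 ≤ n * (2 * Real.log n / n) ^ 2 :=
            mul_le_mul_of_nonneg_left h9 hn0.le
        _ = 4 * (Real.log n ^ 2 / n) := by
            field_simp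
            ring
        _ ≤ 4 * 1 := by linarith
        _ = 4 := by norm_num
    nlinarith

end Pool.Agent.Lib.MP_49901c_pr
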