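import Mathlib
import Pool.Agent.Lib.MP_49901c_pr.GraphLimit
import Pool.Agent.Lib.MP_49901c_pr.Job11
import Pool.Agent.Lib.MP_49901c_pr.Job7

/-!
# Universality implies connectedness
-/

namespace Pool.Agent.Lib.MP_49901c_pr

open Finset Filter Topology

/-- Finitely many disjoint events carry almost all the mass of `μ_p`. -/
theorem exists_disjoint_mass {p : ℕ} (hp : p.Prime) (ε : ℝ) (hε : 0 < ε) :
    ∃ (k c : ℕ) (S : Finset (AddSubgroup (Fin c → ZMod (p ^ k)))),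
      (∀ V ∈ S, ∀ V' ∈ S, V ≠ V' → IsEmpty (V ≃+ V')) ∧ 1 - ε ≤ ∑ V ∈ S, mu p V :=
  exists_mass hp (fun _ hk N _ _ hN => tendsto_unif_law hp hk N hN) ε hε

theorem gnpProb_le_one (n : ℕ) {q : ℝ} (h0 : 0 ≤ q) (h1 : q ≤ 1) (S : Set (SimpleGraph (Fin n))) :
    gnpProb n q S ≤ 1 := by
  classical
  rw [gnpProb_eq_Ex]
  have h2 : Ex q (fun ω : Pr n → Bool => if toGraph ω ∈ S then (1 : ℝ) else 0) ≤
      Ex q (fun _ : Pr n → Bool => (1 : ℝ)) := by
    apply Ex_mono h0 h1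
    intro ω
    split_ifs <;> norm_num
  rwa [Ex_const] at h2

theorem gnpProb_nonneg (n : ℕ) {q : ℝ} (h0 : 0 ≤ q) (h1 : q ≤ 1) (S : Set (SimpleGraph (Fin n))) :
    0 ≤ gnpProb n q S := by
  classical
  rw [gnpProb_eq_Ex]
  apply Ex_nonneg h0 h1
  intro ω
  split_ifs <;> norm_num

/-- Probabilities of disjoint events add up to at most the probability of an event containing
them. -/
theorem sum_gnpProb_le {ι : Type*} (n : ℕ) {q : ℝ} (h0 : 0 ≤ q) (h1 : q ≤ 1) (s : Finset ι)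
    (S : ι → Set (SimpleGraph (Fin n))) (T : Set (SimpleGraph (Fin n)))
    (hsub : ∀ i ∈ s, S i ⊆ T) (hdis : ∀ i ∈ s, ∀ j ∈ s, i ≠ j → Disjoint (S i) (S j)) :
    ∑ i ∈ s, gnpProb n q (S i) ≤ gnpProb n q T := by
  classical
  simp_rw [gnpProb_eq_Ex]
  rw [← Ex_sum]
  apply Ex_mono h0 h1
  intro ω
  by_cases h : ∃ i ∈ s, toGraph ω ∈ S i
  · obtain ⟨i, hi, hωi⟩ := h
    rw [if_pos (hsub i hi hωi)]
    have h2 : ∀ j ∈ s, j ≠ i → (if toGraph ω ∈ S j then (1 : ℝ) else 0) = 0 := by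
      intro j hj hji
      rw [if_neg]
      intro hωj
      exact Set.disjoint_left.mp (hdis j hj i hi hji) hωj hωi
    rw [sum_eq_single_of_mem i hi h2, if_pos hωi]
  · push Not at h
    rw [sum_eq_zero]
    · split_ifs <;> norm_num
    · intro i hi
      rw [if_neg (h i hi)]

/-- Universality implies connectedness with high probability. -/
theorem tendsto_connected {p : ℕ} (hp : p.Prime) {q : ℕ → ℝ} (hq0 : ∀ n, 0 ≤ q n)
    (hq1 : ∀ n, q n ≤ 1) (h : IsUniversal p q) :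
    Tendsto (fun n : ℕ => gnpProb (n + 1) (q (n + 1)) {G | G.Connected}) atTop (𝓝 1) := by
  classical
  have hF : Fact p.Prime := ⟨hp⟩
  rw [Metric.tendsto_atTop]
  intro ε hε
  obtain ⟨k, c, S, hS, hmass⟩ := exists_disjoint_mass hp (ε / 2) (by linarith)
  have hNZ : NeZero (p ^ k) := ⟨pow_ne_zero k hp.ne_zero⟩
  have hcard : ∀ V : AddSubgroup (Fin c → ZMod (p ^ k)), ∃ m, Nat.card V = p ^ m := by
    intro V
    have h1 : IsPGroup p (Multiplicative V) := by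
      intro g
      exact ⟨k, congrArg Multiplicative.ofAdd (amb_killed V g.toAdd)⟩
    obtain ⟨m, hm⟩ := IsPGroup.iff_card.mp h1
    exact ⟨m, hm⟩
  have h1 : Tendsto (fun n : ℕ => ∑ V ∈ S, gnpProb (n + 1) (q (n + 1))
      {G | G.Connected ∧ Nonempty (primaryPart p (CriticalGroup G) ≃+ V)}) atTop
      (𝓝 (∑ V ∈ S, mu p V)) := by
    apply tendsto_finsetSum
    intro V _
    exact h V (hcard V)
  obtain ⟨n₀, hn₀⟩ := Metric.tendsto_atTop.mp h1 (ε / 2) (by linarith)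
  refine ⟨n₀, fun n hn => ?_⟩
  have h2 := hn₀ n hn
  rw [Real.dist_eq, abs_lt] at h2
  have h3 : ∑ V ∈ S, gnpProb (n + 1) (q (n + 1))
      {G | G.Connected ∧ Nonempty (primaryPart p (CriticalGroup G) ≃+ V)} ≤
      gnpProb (n + 1) (q (n + 1)) {G | G.Connected} := by
    apply sum_gnpProb_le _ (hq0 _) (hq1 _)
    · intro V _ G hG
      exact hG.1
    · intro V hV V' hV' hne
      rw [Set.disjoint_left]
      rintro G ⟨_, ⟨e⟩⟩ ⟨_, ⟨e'⟩⟩
      exact (hS V hV V' hV' hne).false (e.symm.trans e')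
  have h4 := gnpProb_le_one (n + 1) (hq0 (n + 1)) (hq1 (n + 1)) {G | G.Connected}
  rw [Real.dist_eq, abs_lt]
  constructor <;> linarith [h2.1, h2.2]

end Pool.Agent.Lib.MP_49901c_pr
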