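import Mathlib
import Pool.Agent.Lib.MP_49901c_pr.Defs
import Pool.Agent.Lib.MP_49901c_pr.Pairs

/-!
# Definitions for dense random graphs: obstruction trees, valid functions, linked sets

In this file `ω : Pr n → Bool` encodes the COMPLEMENT `Γ` of the random graph.
-/

namespace Pool.Agent.Lib.MP_49901c_pr

open scoped Classical in
/-- `IsObstruction p a j e`: there is a tree with `e` edges and an eigenvector modulo `p` of its
Laplacian for the eigenvalue `a`, which is nonzero at exactly `j ≥ 1` vertices and such that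
no two adjacent vertices are zeros of it. -/
def IsObstruction (p a j e : ℕ) : Prop :=
  ∃ (v : ℕ) (T : SimpleGraph (Fin v)) (γ : Fin v → ZMod p), T.IsTree ∧ T.edgeSet.ncard = e ∧
    {i | γ i ≠ 0}.ncard = j ∧ 1 ≤ j ∧ (∀ i k, T.Adj i k → γ i ≠ 0 ∨ γ k ≠ 0) ∧
    (T.lapMatrix (ZMod p)).mulVec γ = (a : ZMod p) • γ

/-- The smallest number of nonzero values of an eigenvector of a tree. -/
noncomputable def jmin (p a : ℕ) : ℕ := sInf {j | ∃ e, IsObstruction p a j e}

/-- The largest number of edges of a tree with an eigenvector with `jmin` nonzero values. -/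
noncomputable def emax (p a : ℕ) : ℕ := sSup {e | IsObstruction p a (jmin p a) e}

/-- The complement. -/
def neg {n : ℕ} (ω : Pr n → Bool) : Pr n → Bool := fun e => !(ω e)

/-- The support. -/
def supp {n : ℕ} {A : Type*} [Zero A] [DecidableEq A] (γ : Fin n → A) : Finset (Fin n) :=
  Finset.univ.filter fun i => γ i ≠ 0

/-- Eigenvectors of the Laplacian of `Γ` for the eigenvalue `n`. -/
def Val {n : ℕ} {A : Type*} [AddCommGroup A] (ω : Pr n → Bool) (γ : Fin n → A) : Prop :=
  ∀ i, lap ω γ i = n • γ i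

/-- No edges between `J₁` and `J₂` and no common neighbour outside. -/
def Sep {n : ℕ} (ω : Pr n → Bool) (J₁ J₂ : Finset (Fin n)) : Prop :=
  (∀ i ∈ J₁, ∀ k ∈ J₂, adjB ω i k = false) ∧
    ∀ v, v ∉ J₁ → v ∉ J₂ → ∀ i ∈ J₁, ∀ k ∈ J₂, adjB ω v i = true → adjB ω v k = false

/-- `J` cannot be split in two separated parts. -/
def Linked {n : ℕ} (ω : Pr n → Bool) (J : Finset (Fin n)) : Prop :=
  J.Nonempty ∧ ∀ J₁ ⊆ J, J₁.Nonempty → Sep ω J₁ (J \ J₁) → J₁ = J

open scoped Classical in
/-- Expected number of nonzero valid functions with support of size at most `t`. -/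
noncomputable def valSum (r : ℝ) (n : ℕ) (A : Type*) [AddCommGroup A] [Fintype A] (t : ℕ) : ℝ :=
  ∑ γ : Fin n → A, if γ ≠ 0 ∧ (supp γ).card ≤ t then
    Ex r (fun ω : Pr n → Bool => if Val ω γ then (1 : ℝ) else 0) else 0

open scoped Classical in
/-- Weighted expected number of valid functions with linked support of size at most `t`. -/
noncomputable def linkSum (r : ℝ) (n : ℕ) (A : Type*) [AddCommGroup A] [Fintype A] (t : ℕ) : ℝ :=
  ∑ γ : Fin n → A, if γ ≠ 0 ∧ (supp γ).card ≤ t then
    Ex r (fun ω : Pr n → Bool => if Val ω γ ∧ Linked ω (supp γ) then (1 : ℝ) else 0) *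
      ((1 - r)⁻¹) ^ ((supp γ).card * t) else 0

/-- `φ l` is a copy in `Γ` of the tree `T`, exact at the images of the vertices of `J₀`, for every
`l`, and the copies are disjoint. -/
def IsCopies {n v L : ℕ} (T : SimpleGraph (Fin v)) (J₀ : Finset (Fin v)) (ω : Pr n → Bool)
    (φ : Fin L × Fin v → Fin n) : Prop :=
  Function.Injective φ ∧ ∀ l : Fin L, ∀ x ∈ J₀, ∀ y : Fin n,
    adjB ω (φ (l, x)) y = true ↔ ∃ x', T.Adj x x' ∧ φ (l, x') = y

end Pool.Agent.Lib.MP_49901c_pr
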