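import Mathlib
import Pool.Agent.Lib.MP_49901c_pr.DenseDefs

/-!
# Peeling off a linked part of a valid function
-/

namespace Pool.Agent.Lib.MP_49901c_pr

open Finset

namespace Job12

section General

variable {ι : Type*} [Fintype ι] [DecidableEq ι]

/-- Switch off the coordinates in `D`. -/
def off (D : Finset ι) (ω : ι → Bool) : ι → Bool := fun e => if e ∈ D then false else ω e

open scoped Classical in
/-- The indicator of the event that all coordinates in `D` are off. -/
noncomputable def ind (D : Finset ι) (ω : ι → Bool) : ℝ := if ∀ e ∈ D, ω e = false then 1 else 0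

theorem ind_eq_prod (D : Finset ι) (ω : ι → Bool) :
    ind D ω = ∏ e, if e ∈ D then (if ω e then (0 : ℝ) else 1) else 1 := by
  unfold ind
  split_ifs with h
  · symm
    apply Finset.prod_eq_one
    intro e _
    split_ifs with h1 h2
    · rw [h e h1] at h2; simp at h2
    · rfl
    · rfl
  · push Not at h
    obtain ⟨e, he, h1⟩ := h
    symm
    apply Finset.prod_eq_zero (Finset.mem_univ e)
    rw [if_pos he, if_pos (by simpa using h1)]

theorem Ex_ind (q : ℝ) (D : Finset ι) : Ex q (ind D) = (1 - q) ^ D.card := by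
  have h1 : ind D = fun ω : ι → Bool => ∏ e, (fun (e : ι) (b : Bool) =>
      if e ∈ D then (if b then (0 : ℝ) else 1) else 1) e (ω e) := by
    funext ω
    exact ind_eq_prod D ω
  rw [h1]
  refine (Ex_prod (A := ℝ) q (fun (e : ι) (b : Bool) =>
      if e ∈ D then (if b then (0 : ℝ) else 1) else 1)).trans ?_
  have h2 : ∀ e : ι, (algebraMap ℝ ℝ q * (if e ∈ D then (if true = true then (0 : ℝ) else 1) else 1) +
      algebraMap ℝ ℝ (1 - q) * (if e ∈ D then (if false = true then (0 : ℝ) else 1) else 1)) =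
      if e ∈ D then 1 - q else 1 := by
    intro e
    by_cases he : e ∈ D
    · simp [he]
    · simp [he]
  rw [Finset.prod_congr rfl fun e _ => h2 e, Finset.prod_ite_mem, Finset.univ_inter,
    Finset.prod_const]

theorem dependsOn_ind (D : Finset ι) : DependsOn (ind D) (D : Set ι) := by
  intro x y hxy
  unfold ind
  have : (∀ e ∈ D, x e = false) ↔ (∀ e ∈ D, y e = false) := by
    constructor
    · intro h e he
      rw [← hxy e he]; exact h e he
    · intro h e he
      rw [hxy e he]; exact h e he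
  simp only [this]

omit [Fintype ι] in
theorem dependsOn_off {D : Finset ι} {S : Set ι} {F : (ι → Bool) → ℝ} (hF : DependsOn F S) :
    DependsOn (fun ω => F (off D ω)) (S \ (D : Set ι)) := by
  intro x y hxy
  apply hF
  intro e he
  unfold off
  by_cases h : e ∈ D
  · rw [if_pos h, if_pos h]
  · rw [if_neg h, if_neg h]
    exact hxy e ⟨he, h⟩

omit [Fintype ι] in
theorem off_of_ind {D : Finset ι} {ω : ι → Bool} (h : ∀ e ∈ D, ω e = false) : off D ω = ω := by
  funext e
  unfold off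
  split_ifs with h1
  · exact (h e h1).symm
  · rfl

theorem ind_nonneg (D : Finset ι) (ω : ι → Bool) : 0 ≤ ind D ω := by
  unfold ind
  split_ifs <;> norm_num

theorem ind_le_one (D : Finset ι) (ω : ι → Bool) : ind D ω ≤ 1 := by
  unfold ind
  split_ifs <;> norm_num

/-- Two functions of almost disjoint sets of coordinates. -/
theorem Ex_mul_mul_le {q : ℝ} (h0 : 0 ≤ q) (h1 : q ≤ 1) (D : Finset ι) (S₁ S₂ : Set ι)
    {F₁ F₂ : (ι → Bool) → ℝ} (hF₁ : DependsOn F₁ S₁) (hF₂ : DependsOn F₂ S₂)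
    (hS : S₁ ∩ S₂ ⊆ (D : Set ι)) (hn₁ : ∀ ω, 0 ≤ F₁ ω) (hn₂ : ∀ ω, 0 ≤ F₂ ω) :
    Ex q (fun ω => F₁ ω * F₂ ω * ind D ω) * (1 - q) ^ D.card ≤ Ex q F₁ * Ex q F₂ := by
  have e1 : (fun ω => F₁ ω * F₂ ω * ind D ω) =
      fun ω => (F₁ (off D ω) * F₂ (off D ω)) * ind D ω := by
    funext ω
    by_cases h : ∀ e ∈ D, ω e = false
    · rw [off_of_ind h]
    · have : ind D ω = 0 := by unfold ind; rw [if_neg h]
      rw [this, mul_zero, mul_zero]
  have d1 := dependsOn_off (D := D) hF₁
  have d2 := dependsOn_off (D := D) hF₂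
  have e2 : Ex q (fun ω => (F₁ (off D ω) * F₂ (off D ω)) * ind D ω) =
      Ex q (fun ω => F₁ (off D ω) * F₂ (off D ω)) * Ex q (ind D) := by
    apply Ex_mul_of_dependsOn q ((D : Set ι)ᶜ)
    · intro x y hxy
      have h3 := d1 (x := x) (y := y) (fun e he => hxy e he.2)
      have h4 := d2 (x := x) (y := y) (fun e he => hxy e he.2)
      change F₁ (off D x) * F₂ (off D x) = F₁ (off D y) * F₂ (off D y)
      have h3' : F₁ (off D x) = F₁ (off D y) := h3
      have h4' : F₂ (off D x) = F₂ (off D y) := h4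
      rw [h3', h4']
    · rw [compl_compl]
      exact dependsOn_ind D
  have e3 : Ex q (fun ω => F₁ (off D ω) * F₂ (off D ω)) =
      Ex q (fun ω => F₁ (off D ω)) * Ex q (fun ω => F₂ (off D ω)) := by
    apply Ex_mul_of_dependsOn q (S₁ \ (D : Set ι)) d1
    intro x y hxy
    apply d2
    intro e he
    apply hxy
    intro h
    exact he.2 (hS ⟨h.1, he.1⟩)
  have key : ∀ {F : (ι → Bool) → ℝ} {S : Set ι}, DependsOn F S → (∀ ω, 0 ≤ F ω) →
      Ex q (fun ω => F (off D ω)) * (1 - q) ^ D.card ≤ Ex q F := by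
    intro F S hF hn
    have d := dependsOn_off (D := D) hF
    have e4 : Ex q (fun ω => F (off D ω) * ind D ω) =
        Ex q (fun ω => F (off D ω)) * Ex q (ind D) := by
      apply Ex_mul_of_dependsOn q ((D : Set ι)ᶜ)
      · intro x y hxy
        exact d (fun e he => hxy e he.2)
      · rw [compl_compl]
        exact dependsOn_ind D
    rw [← Ex_ind q D, ← e4]
    apply Ex_mono h0 h1
    intro ω
    by_cases h : ∀ e ∈ D, ω e = false
    · rw [off_of_ind h]
      exact mul_le_of_le_one_right (hn ω) (ind_le_one D ω)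
    · have : ind D ω = 0 := by unfold ind; rw [if_neg h]
      rw [this, mul_zero]
      exact hn ω
  rw [e1, e2, e3, Ex_ind]
  have k1 := key hF₁ hn₁
  have k2 := key hF₂ hn₂
  have n1 : 0 ≤ Ex q (fun ω => F₂ (off D ω)) := Ex_nonneg h0 h1 fun ω => hn₂ _
  have n2 : 0 ≤ Ex q F₁ := Ex_nonneg h0 h1 hn₁
  have n3 : 0 ≤ (1 - q) ^ D.card := pow_nonneg (by linarith) _
  calc Ex q (fun ω => F₁ (off D ω)) * Ex q (fun ω => F₂ (off D ω)) * (1 - q) ^ D.card *
        (1 - q) ^ D.card = (Ex q (fun ω => F₁ (off D ω)) * (1 - q) ^ D.card) *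
          (Ex q (fun ω => F₂ (off D ω)) * (1 - q) ^ D.card) := by ring
    _ ≤ Ex q F₁ * Ex q F₂ := mul_le_mul k1 k2 (mul_nonneg n1 n3) n2

end General

/-- The pairs incident to `J`. -/
def inc {n : ℕ} (J : Finset (Fin n)) : Set (Pr n) := {e | e.1.1 ∈ J ∨ e.1.2 ∈ J}

theorem adjB_congr {n : ℕ} {J : Finset (Fin n)} {x y : Pr n → Bool} (h : ∀ e ∈ inc J, x e = y e)
    {i k : Fin n} (hik : i ∈ J ∨ k ∈ J) : adjB x i k = adjB y i k := by
  unfold adjB
  split_ifs with h1 h2
  · exact h _ hik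
  · exact h _ hik.symm
  · rfl

theorem lap_congr {n : ℕ} {A : Type*} [AddCommGroup A] {x y : Pr n → Bool} {γ : Fin n → A}
    {J : Finset (Fin n)} (hJ : ∀ i, i ∉ J → γ i = 0)
    (h : ∀ e ∈ inc J, x e = y e) (i : Fin n) : lap x γ i = lap y γ i := by
  unfold lap
  apply Finset.sum_congr rfl
  intro k _
  by_cases hik : i ∈ J ∨ k ∈ J
  · rw [adjB_congr h hik]
  · push Not at hik
    rw [hJ i hik.1, hJ k hik.2, sub_zero]
    simp

theorem val_congr {n : ℕ} {A : Type*} [AddCommGroup A] {x y : Pr n → Bool} {γ : Fin n → A}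
    {J : Finset (Fin n)} (hJ : ∀ i, i ∉ J → γ i = 0)
    (h : ∀ e ∈ inc J, x e = y e) : Val x γ ↔ Val y γ := by
  unfold Val
  simp only [lap_congr hJ h]

theorem sep_congr {n : ℕ} {x y : Pr n → Bool} {J J₁ J₂ : Finset (Fin n)} (h1 : J₁ ⊆ J)
    (h2 : J₂ ⊆ J) (h : ∀ e ∈ inc J, x e = y e) : Sep x J₁ J₂ → Sep y J₁ J₂ := by
  rintro ⟨a, b⟩
  constructor
  · intro i hi k hk
    rw [← adjB_congr h (Or.inl (h1 hi))]
    exact a i hi k hk
  · intro v hv1 hv2 i hi k hk hvi
    rw [← adjB_congr h (Or.inr (h2 hk))]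
    rw [← adjB_congr h (Or.inr (h1 hi))] at hvi
    exact b v hv1 hv2 i hi k hk hvi

theorem linked_congr {n : ℕ} {x y : Pr n → Bool} {J : Finset (Fin n)}
    (h : ∀ e ∈ inc J, x e = y e) : Linked x J → Linked y J := by
  rintro ⟨a, b⟩
  refine ⟨a, fun J₁ hJ₁ hne hs => b J₁ hJ₁ hne ?_⟩
  exact sep_congr hJ₁ sdiff_subset (fun e he => (h e he).symm) hs

open scoped Classical in
theorem dependsOn_F₁ {n : ℕ} {A : Type*} [AddCommGroup A] (γ : Fin n → A) :
    DependsOn (fun ω : Pr n → Bool => if Val ω γ ∧ Linked ω (supp γ) then (1 : ℝ) else 0)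
      (inc (supp γ)) := by
  intro x y hxy
  have hJ : ∀ i, i ∉ supp γ → γ i = 0 := by
    intro i hi
    by_contra hne
    exact hi (by simp [supp, hne])
  have h1 : (Val x γ ∧ Linked x (supp γ)) ↔ (Val y γ ∧ Linked y (supp γ)) := by
    constructor
    · rintro ⟨a, b⟩
      exact ⟨(val_congr hJ hxy).mp a, linked_congr hxy b⟩
    · rintro ⟨a, b⟩
      exact ⟨(val_congr hJ hxy).mpr a, linked_congr (fun e he => (hxy e he).symm) b⟩
  simp only [h1]

open scoped Classical in
theorem dependsOn_F₂ {n : ℕ} {A : Type*} [AddCommGroup A] (γ : Fin n → A) :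
    DependsOn (fun ω : Pr n → Bool => if Val ω γ then (1 : ℝ) else 0)
      (inc (supp γ)) := by
  intro x y hxy
  have hJ : ∀ i, i ∉ supp γ → γ i = 0 := by
    intro i hi
    by_contra hne
    exact hi (by simp [supp, hne])
  simp only [val_congr hJ hxy]

open scoped Classical in
/-- The pairs incident to both sets. -/
noncomputable def cross {n : ℕ} (J₁ J₂ : Finset (Fin n)) : Finset (Pr n) :=
  Finset.univ.filter fun e => e ∈ inc J₁ ∧ e ∈ inc J₂

theorem card_cross_le {n : ℕ} {J₁ J₂ : Finset (Fin n)} (h : Disjoint J₁ J₂) :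
    (cross J₁ J₂).card ≤ J₁.card * J₂.card := by
  classical
  rw [← Finset.card_product]
  apply Finset.card_le_card_of_injOn
    (fun e : Pr n => if e.1.1 ∈ J₁ then (e.1.1, e.1.2) else (e.1.2, e.1.1))
  · intro e he
    have he' : e ∈ inc J₁ ∧ e ∈ inc J₂ := by simpa [cross] using he
    obtain ⟨h1, h2⟩ := he'
    change e.1.1 ∈ J₁ ∨ e.1.2 ∈ J₁ at h1
    change e.1.1 ∈ J₂ ∨ e.1.2 ∈ J₂ at h2
    have hd : ∀ x, x ∈ J₁ → x ∉ J₂ := fun x hx hx2 => Finset.disjoint_left.mp h hx hx2
    simp only [Finset.coe_product, Set.mem_prod, Finset.mem_coe]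
    split_ifs with h3
    · refine ⟨h3, ?_⟩
      rcases h2 with h2 | h2
      · exact absurd h2 (hd _ h3)
      · exact h2
    · have h4 : e.1.2 ∈ J₁ := h1.resolve_left h3
      refine ⟨h4, ?_⟩
      rcases h2 with h2 | h2
      · exact h2
      · exact absurd h2 (hd _ h4)
  · intro e he e' he' hee
    simp only at hee
    apply Subtype.ext
    apply Prod.ext
    · split_ifs at hee with h1 h2 h2
      · exact (Prod.mk.inj hee).1
      · obtain ⟨a, b⟩ := Prod.mk.inj hee
        exfalso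
        have l1 := e.2
        have l2 := e'.2
        rw [a, b] at l1
        exact absurd l1 (not_lt.mpr l2.le)
      · obtain ⟨a, b⟩ := Prod.mk.inj hee
        exfalso
        have l1 := e.2
        have l2 := e'.2
        rw [a, b] at l1
        exact absurd l1 (not_lt.mpr l2.le)
      · exact (Prod.mk.inj hee).2
    · split_ifs at hee with h1 h2 h2
      · exact (Prod.mk.inj hee).2
      · obtain ⟨a, b⟩ := Prod.mk.inj hee
        exfalso
        have l1 := e.2
        have l2 := e'.2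
        rw [a, b] at l1
        exact absurd l1 (not_lt.mpr l2.le)
      · obtain ⟨a, b⟩ := Prod.mk.inj hee
        exfalso
        have l1 := e.2
        have l2 := e'.2
        rw [a, b] at l1
        exact absurd l1 (not_lt.mpr l2.le)
      · exact (Prod.mk.inj hee).1

theorem ind_cross_of_sep {n : ℕ} {J₁ J₂ : Finset (Fin n)} (h : Disjoint J₁ J₂)
    {ω : Pr n → Bool} (hs : Sep ω J₁ J₂) : ind (cross J₁ J₂) ω = 1 := by
  classical
  unfold ind
  rw [if_pos]
  intro e he
  have he' : e ∈ inc J₁ ∧ e ∈ inc J₂ := by simpa [cross] using he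
  obtain ⟨h1, h2⟩ := he'
  change e.1.1 ∈ J₁ ∨ e.1.2 ∈ J₁ at h1
  change e.1.1 ∈ J₂ ∨ e.1.2 ∈ J₂ at h2
  have hd : ∀ x, x ∈ J₁ → x ∉ J₂ := fun x hx hx2 => Finset.disjoint_left.mp h hx hx2
  rw [← adjB_pair ω e]
  rcases h1 with h1 | h1
  · rcases h2 with h2 | h2
    · exact absurd h2 (hd _ h1)
    · exact hs.1 _ h1 _ h2
  · rcases h2 with h2 | h2
    · rw [adjB_comm]
      exact hs.1 _ h1 _ h2
    · exact absurd h2 (hd _ h1)

/-- Every set has a linked separated part. -/
theorem exists_linked {n : ℕ} (ω : Pr n → Bool) (J : Finset (Fin n)) (hJ : J.Nonempty) :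
    ∃ J₁ ⊆ J, Linked ω J₁ ∧ Sep ω J₁ (J \ J₁) := by
  classical
  let S : Finset (Finset (Fin n)) :=
    J.powerset.filter fun J₁ => J₁.Nonempty ∧ Sep ω J₁ (J \ J₁)
  have hS : S.Nonempty := by
    refine ⟨J, ?_⟩
    simp only [S, Finset.mem_filter, Finset.mem_powerset]
    refine ⟨Finset.Subset.refl _, hJ, ?_⟩
    rw [Finset.sdiff_self]
    constructor
    · intro i _ k hk; simp at hk
    · intro v _ _ i _ k hk; simp at hk
  obtain ⟨J₁, hJ₁, hmin⟩ := Finset.exists_min_image S Finset.card hS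
  simp only [S, Finset.mem_filter, Finset.mem_powerset] at hJ₁
  obtain ⟨hsub, hne, hsep⟩ := hJ₁
  refine ⟨J₁, hsub, ⟨hne, ?_⟩, hsep⟩
  intro J' hJ' hne' hsep'
  have hmem : J' ∈ S := by
    simp only [S, Finset.mem_filter, Finset.mem_powerset]
    refine ⟨hJ'.trans hsub, hne', ?_, ?_⟩
    · intro i hi k hk
      by_cases hk1 : k ∈ J₁
      · exact hsep'.1 i hi k (Finset.mem_sdiff.mpr ⟨hk1, (Finset.mem_sdiff.mp hk).2⟩)
      · exact hsep.1 i (hJ' hi) k (Finset.mem_sdiff.mpr ⟨(Finset.mem_sdiff.mp hk).1, hk1⟩)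
    · intro v hv1 hv2 i hi k hk hvi
      have hvJ : v ∉ J := fun h => hv2 (Finset.mem_sdiff.mpr ⟨h, hv1⟩)
      have hvJ1 : v ∉ J₁ := fun h => hvJ (hsub h)
      by_cases hk1 : k ∈ J₁
      · exact hsep'.2 v hv1 (fun h => hvJ1 (Finset.mem_sdiff.mp h).1) i hi k
          (Finset.mem_sdiff.mpr ⟨hk1, (Finset.mem_sdiff.mp hk).2⟩) hvi
      · exact hsep.2 v hvJ1 (fun h => hvJ (Finset.mem_sdiff.mp h).1) i (hJ' hi) k
          (Finset.mem_sdiff.mpr ⟨(Finset.mem_sdiff.mp hk).1, hk1⟩) hvi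
  exact Finset.eq_of_subset_of_card_le hJ' (hmin J' hmem)

/-- The restriction of a valid function to a separated part is valid. -/
theorem val_restrict {n : ℕ} {A : Type*} [AddCommGroup A] [DecidableEq A] {ω : Pr n → Bool}
    {γ : Fin n → A} (hval : Val ω γ) {J₁ : Finset (Fin n)}
    (hsep : Sep ω J₁ (supp γ \ J₁)) : Val ω (fun i => if i ∈ J₁ then γ i else 0) := by
  have hJ : ∀ i, i ∉ supp γ → γ i = 0 := by
    intro i hi
    by_contra hne
    exact hi (by simp [supp, hne])
  intro i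
  by_cases hi : i ∈ J₁
  · have h1 := hval i
    have h2 : lap ω (fun i => if i ∈ J₁ then γ i else 0) i = lap ω γ i := by
      unfold lap
      apply Finset.sum_congr rfl
      intro k _
      beta_reduce
      rw [if_pos hi]
      by_cases hk : k ∈ J₁
      · rw [if_pos hk]
      · rw [if_neg hk]
        by_cases hk2 : k ∈ supp γ
        · rw [hsep.1 i hi k (Finset.mem_sdiff.mpr ⟨hk2, hk⟩)]
          simp
        · rw [hJ k hk2]
    rw [h2, h1]
    simp only [if_pos hi]
  · simp only [if_neg hi, smul_zero]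
    by_cases hi2 : i ∈ supp γ
    · unfold lap
      apply Finset.sum_eq_zero
      intro k _
      by_cases hk : k ∈ J₁
      · have := hsep.1 k hk i (Finset.mem_sdiff.mpr ⟨hi2, hi⟩)
        rw [adjB_comm] at this
        rw [this]
        simp
      · beta_reduce
        rw [if_neg hk, if_neg hi, sub_zero]
        simp
    · by_cases hex : ∃ k ∈ J₁, adjB ω i k = true
      · obtain ⟨k, hk, hik⟩ := hex
        have h1 := hval i
        rw [hJ i hi2, smul_zero] at h1
        refine Eq.trans ?_ h1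
        unfold lap
        apply Finset.sum_congr rfl
        intro l _
        beta_reduce
        rw [if_neg hi, hJ i hi2]
        by_cases hl : l ∈ J₁
        · rw [if_pos hl]
        · rw [if_neg hl]
          by_cases hl2 : l ∈ supp γ
          · have := hsep.2 i hi (fun h => hi2 (Finset.mem_sdiff.mp h).1) k hk l
              (Finset.mem_sdiff.mpr ⟨hl2, hl⟩) hik
            rw [this]
            simp
          · rw [hJ l hl2]
      · push Not at hex
        unfold lap
        apply Finset.sum_eq_zero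
        intro k _
        by_cases hk : k ∈ J₁
        · have := hex k hk
          rw [if_neg this]
        · beta_reduce
          rw [if_neg hk, if_neg hi, sub_zero]
          simp

theorem val_sub {n : ℕ} {A : Type*} [AddCommGroup A] {ω : Pr n → Bool} {f g : Fin n → A}
    (hf : Val ω f) (hg : Val ω (f + g)) : Val ω g := by
  intro i
  have h1 := hf i
  have h2 := hg i
  rw [lap_add, h1, Pi.add_apply, smul_add] at h2
  exact add_left_cancel h2

open scoped Classical in
/-- The decomposition of a valid function. -/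
theorem exists_peel {n : ℕ} {A : Type*} [AddCommGroup A] {ω : Pr n → Bool} {γ : Fin n → A}
    (hval : Val ω γ) (hne : γ ≠ 0) :
    ∃ γ₁ γ₂ : Fin n → A, γ₁ + γ₂ = γ ∧ γ₁ ≠ 0 ∧ (supp γ₁).card ≤ (supp γ).card ∧
      (supp γ₂).card ≤ (supp γ).card ∧ Val ω γ₁ ∧ Linked ω (supp γ₁) ∧ Val ω γ₂ ∧
      Disjoint (supp γ₁) (supp γ₂) ∧ Sep ω (supp γ₁) (supp γ₂) := by
  have hJ : (supp γ).Nonempty := by
    obtain ⟨i, hi⟩ := Function.ne_iff.mp hne
    exact ⟨i, by simpa [supp] using hi⟩
  obtain ⟨J₁, hsub, hlink, hsep⟩ := exists_linked ω (supp γ) hJ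
  have e1 : supp (fun i => if i ∈ J₁ then γ i else 0) = J₁ := by
    ext i
    simp only [supp, Finset.mem_filter, Finset.mem_univ, true_and]
    constructor
    · intro h
      by_contra h2
      rw [if_neg h2] at h
      exact h rfl
    · intro h
      rw [if_pos h]
      have := hsub h
      simpa [supp] using this
  have e2 : supp (fun i => if i ∈ J₁ then 0 else γ i) = supp γ \ J₁ := by
    ext i
    simp only [supp, Finset.mem_filter, Finset.mem_univ, true_and, Finset.mem_sdiff]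
    constructor
    · intro h
      by_cases h2 : i ∈ J₁
      · rw [if_pos h2] at h
        exact absurd rfl h
      · rw [if_neg h2] at h
        exact ⟨h, h2⟩
    · rintro ⟨h, h2⟩
      rw [if_neg h2]
      exact h
  have e3 : (fun i => if i ∈ J₁ then γ i else 0) + (fun i => if i ∈ J₁ then 0 else γ i) = γ := by
    funext i
    simp only [Pi.add_apply]
    split_ifs <;> simp
  have v1 := val_restrict hval hsep
  refine ⟨fun i => if i ∈ J₁ then γ i else 0, fun i => if i ∈ J₁ then 0 else γ i, e3, ?_, ?_, ?_,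
    v1, ?_, ?_, ?_, ?_⟩
  · intro h
    have : supp (fun i => if i ∈ J₁ then γ i else 0) = ∅ := by
      rw [h]
      ext i
      simp [supp]
    rw [e1] at this
    exact hlink.1.ne_empty this
  · rw [e1]
    exact Finset.card_le_card hsub
  · rw [e2]
    exact Finset.card_le_card Finset.sdiff_subset
  · rw [e1]
    exact hlink
  · exact val_sub v1 (by rw [e3]; exact hval)
  · rw [e1, e2]
    exact Finset.disjoint_sdiff
  · rw [e1, e2]
    exact hsep

end Job12

open Job12 in
open scoped Classical in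
theorem valSum_le {n : ℕ} {A : Type} [AddCommGroup A] [Fintype A] {r : ℝ} (h0 : 0 ≤ r)
    (h1 : r < 1) (t : ℕ) :
    valSum r n A t ≤ linkSum r n A t * (1 + valSum r n A t) := by
  have h1' : r ≤ 1 := h1.le
  -- the pairs
  let T : (Pr n → Bool) → (Fin n → A) × (Fin n → A) → Prop := fun ω x =>
    x.1 ≠ 0 ∧ (supp x.1).card ≤ t ∧ (supp x.2).card ≤ t ∧ Val ω x.1 ∧ Linked ω (supp x.1) ∧
      Val ω x.2 ∧ Disjoint (supp x.1) (supp x.2) ∧ Sep ω (supp x.1) (supp x.2)
  have s1 : valSum r n A t = Ex r (fun ω : Pr n → Bool =>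
      ∑ γ : Fin n → A, if (γ ≠ 0 ∧ (supp γ).card ≤ t) ∧ Val ω γ then (1 : ℝ) else 0) := by
    unfold valSum
    rw [Ex_sum]
    apply Finset.sum_congr rfl
    intro γ _
    by_cases h : γ ≠ 0 ∧ (supp γ).card ≤ t
    · rw [if_pos h]
      congr 1
      funext ω
      by_cases h2 : Val ω γ
      · rw [if_pos h2, if_pos ⟨h, h2⟩]
      · rw [if_neg h2, if_neg (fun h3 => h2 h3.2)]
    · rw [if_neg h]
      have : (fun ω : Pr n → Bool => if (γ ≠ 0 ∧ (supp γ).card ≤ t) ∧ Val ω γ then (1 : ℝ) else 0)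
          = fun _ => 0 := by
        funext ω
        rw [if_neg (fun h3 => h h3.1)]
      rw [this, Ex_const]
  have s2 : valSum r n A t ≤ Ex r (fun ω : Pr n → Bool =>
      ∑ x : (Fin n → A) × (Fin n → A), if T ω x then (1 : ℝ) else 0) := by
    rw [s1]
    apply Ex_mono h0 h1'
    intro ω
    rw [← Finset.sum_filter, ← Finset.sum_filter]
    simp only [Finset.sum_const, nsmul_eq_mul, mul_one]
    norm_cast
    apply Finset.card_le_card_of_surjOn (fun x : (Fin n → A) × (Fin n → A) => x.1 + x.2)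
    intro γ hγ
    simp only [Finset.coe_filter, Finset.mem_univ, true_and, Set.mem_ofPred_eq] at hγ
    obtain ⟨⟨hne, hc⟩, hv⟩ := hγ
    obtain ⟨γ₁, γ₂, a1, a2, a3, a4, a5, a6, a7, a8, a9⟩ := exists_peel hv hne
    refine ⟨(γ₁, γ₂), ?_, a1⟩
    simp only [Finset.coe_filter, Finset.mem_univ, true_and, Set.mem_ofPred_eq]
    exact ⟨a2, a3.trans hc, a4.trans hc, a5, a6, a7, a8, a9⟩
  rw [Ex_sum] at s2
  refine s2.trans ?_
  -- the right hand side
  have s3 : 1 + valSum r n A t = ∑ γ : Fin n → A, ((if γ = 0 then (1 : ℝ) else 0) +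
      if γ ≠ 0 ∧ (supp γ).card ≤ t then
        Ex r (fun ω : Pr n → Bool => if Val ω γ then (1 : ℝ) else 0) else 0) := by
    rw [Finset.sum_add_distrib]
    unfold valSum
    congr 1
    rw [Finset.sum_ite_eq' Finset.univ (0 : Fin n → A) (fun _ => (1 : ℝ))]
    simp
  rw [s3]
  unfold linkSum
  rw [Finset.sum_mul_sum, ← Finset.univ_product_univ, Finset.sum_product]
  apply Finset.sum_le_sum
  intro γ₁ _
  apply Finset.sum_le_sum
  intro γ₂ _
  have hinv : 1 ≤ (1 - r)⁻¹ := by
    rw [one_le_inv₀ (by linarith)]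
    linarith
  by_cases c1 : γ₁ ≠ 0 ∧ (supp γ₁).card ≤ t
  swap
  · have : (fun ω : Pr n → Bool => if T ω (γ₁, γ₂) then (1 : ℝ) else 0) = fun _ => 0 := by
      funext ω
      rw [if_neg (fun h3 => c1 ⟨h3.1, h3.2.1⟩)]
    rw [this, Ex_const, if_neg c1, zero_mul]
  rw [if_pos c1]
  have n1 : 0 ≤ Ex r (fun ω : Pr n → Bool =>
      if Val ω γ₁ ∧ Linked ω (supp γ₁) then (1 : ℝ) else 0) :=
    Ex_nonneg h0 h1' fun ω => by split_ifs <;> norm_num
  by_cases c2 : γ₂ = 0
  · rw [if_pos c2, if_neg (fun h3 => h3.1 c2), add_zero, mul_one]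
    have n2 : 1 ≤ ((1 - r)⁻¹) ^ ((supp γ₁).card * t) := one_le_pow₀ hinv
    refine le_trans ?_ (le_mul_of_one_le_right n1 n2)
    apply Ex_mono h0 h1'
    intro ω
    split_ifs with h3 h4 h4
    · exact le_rfl
    · exact absurd ⟨h3.2.2.2.1, h3.2.2.2.2.1⟩ h4
    · norm_num
    · exact le_rfl
  rw [if_neg c2, zero_add]
  by_cases c3 : (supp γ₂).card ≤ t ∧ Disjoint (supp γ₁) (supp γ₂)
  swap
  · have : (fun ω : Pr n → Bool => if T ω (γ₁, γ₂) then (1 : ℝ) else 0) = fun _ => 0 := by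
      funext ω
      rw [if_neg (fun h3 => c3 ⟨h3.2.2.1, h3.2.2.2.2.2.2.1⟩)]
    rw [this, Ex_const]
    apply mul_nonneg (mul_nonneg n1 (pow_nonneg (by linarith) _))
    split_ifs
    · exact Ex_nonneg h0 h1' fun ω => by split_ifs <;> norm_num
    · exact le_rfl
  rw [if_pos ⟨c2, c3.1⟩]
  have k1 := Ex_mul_mul_le h0 h1' (cross (supp γ₁) (supp γ₂)) _ _ (dependsOn_F₁ γ₁)
    (dependsOn_F₂ γ₂) (by
      rintro e ⟨he1, he2⟩
      simp [cross, he1, he2]) (fun ω => by split_ifs <;> norm_num)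
      (fun ω => by split_ifs <;> norm_num)
  have hcard : (cross (supp γ₁) (supp γ₂)).card ≤ (supp γ₁).card * t :=
    (card_cross_le c3.2).trans (Nat.mul_le_mul_left _ c3.1)
  have hpos : 0 < (1 - r) ^ ((supp γ₁).card * t) := pow_pos (by linarith) _
  have k2 : Ex r (fun ω : Pr n → Bool => if T ω (γ₁, γ₂) then (1 : ℝ) else 0) ≤
      Ex r (fun ω : Pr n → Bool => (if Val ω γ₁ ∧ Linked ω (supp γ₁) then (1 : ℝ) else 0) *
        (if Val ω γ₂ then (1 : ℝ) else 0) * ind (cross (supp γ₁) (supp γ₂)) ω) := by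
    apply Ex_mono h0 h1'
    intro ω
    by_cases h3 : T ω (γ₁, γ₂)
    · rw [if_pos h3, if_pos ⟨h3.2.2.2.1, h3.2.2.2.2.1⟩, if_pos h3.2.2.2.2.2.1,
        ind_cross_of_sep c3.2 h3.2.2.2.2.2.2.2]
      norm_num
    · rw [if_neg h3]
      apply mul_nonneg _ (ind_nonneg _ _)
      apply mul_nonneg
      · split_ifs <;> norm_num
      · split_ifs <;> norm_num
  have n3 : 0 ≤ Ex r (fun ω : Pr n → Bool => if T ω (γ₁, γ₂) then (1 : ℝ) else 0) :=
    Ex_nonneg h0 h1' fun ω => by split_ifs <;> norm_num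
  have k3 : Ex r (fun ω : Pr n → Bool => if T ω (γ₁, γ₂) then (1 : ℝ) else 0) *
      (1 - r) ^ ((supp γ₁).card * t) ≤
      Ex r (fun ω : Pr n → Bool => if Val ω γ₁ ∧ Linked ω (supp γ₁) then (1 : ℝ) else 0) *
        Ex r (fun ω : Pr n → Bool => if Val ω γ₂ then (1 : ℝ) else 0) := by
    refine le_trans ?_ k1
    apply mul_le_mul k2 _ hpos.le (n3.trans k2)
    exact pow_le_pow_of_le_one (by linarith) (by linarith) hcard
  rw [inv_pow, mul_assoc, mul_comm (((1 - r) ^ ((supp γ₁).card * t))⁻¹), ← mul_assoc,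
    ← div_eq_mul_inv, le_div_iff₀ hpos]
  exact k3

end Pool.Agent.Lib.MP_49901c_pr
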