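import Mathlib
import Pool.Agent.Lib.MP_49901c_pr.DenseDefs
import Pool.Agent.Lib.MP_49901c_pr.SmallSum

/-!
# Exploration of a linked set and union bound
-/

namespace Pool.Agent.Lib.MP_49901c_pr

open Finset Filter Topology

namespace Job13

/-- The state of the exploration. -/
structure State {n : ℕ} (ω : Pr n → Bool) (J : Finset (Fin n)) (i₀ : Fin n) (J₁ M : Finset (Fin n))
    (par : Fin n → Fin n) (h : Fin n → ℕ) : Prop where
  sub : J₁ ⊆ J
  root : i₀ ∈ J₁
  disj : Disjoint J M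
  card : M.card < J₁.card
  parJ : ∀ x ∈ J₁, x ≠ i₀ → par x ∈ J₁ ∪ M
  parM : ∀ x ∈ M, par x ∈ J₁
  parO : ∀ x, (x = i₀ ∨ x ∉ J₁ ∪ M) → par x = x
  adj : ∀ x ∈ J₁ ∪ M, x ≠ i₀ → adjB ω x (par x) = true ∧ h (par x) < h x

theorem State.par_mem {n : ℕ} {ω : Pr n → Bool} {J : Finset (Fin n)} {i₀ : Fin n}
    {J₁ M : Finset (Fin n)} {par : Fin n → Fin n} {h : Fin n → ℕ}
    (S : State ω J i₀ J₁ M par h) {x : Fin n} (hx : x ∈ J₁ ∪ M) : par x ∈ J₁ ∪ M := by
  by_cases h0 : x = i₀
  · rw [S.parO x (Or.inl h0)]; exact hx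
  · rcases mem_union.1 hx with h1 | h1
    · exact S.parJ x h1 h0
    · exact mem_union_left _ (S.parM x h1)

/-- Add a vertex `k` of `J` whose parent `w` is already explored. -/
theorem State.addJ {n : ℕ} {ω : Pr n → Bool} {J : Finset (Fin n)} {i₀ : Fin n}
    {J₁ M : Finset (Fin n)} {par : Fin n → Fin n} {h : Fin n → ℕ}
    (S : State ω J i₀ J₁ M par h) {k w : Fin n} (hk : k ∈ J) (hk1 : k ∉ J₁) (hw : w ∈ J₁ ∪ M)
    (ha : adjB ω k w = true) :
    State ω J i₀ (insert k J₁) M (Function.update par k w) (Function.update h k (h w + 1)) := by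
  have hkM : k ∉ M := fun hc => (disjoint_left.1 S.disj hk) hc
  have hkU : k ∉ J₁ ∪ M := by
    rw [mem_union]; rintro (hc | hc)
    · exact hk1 hc
    · exact hkM hc
  have hki : k ≠ i₀ := fun hc => hk1 (hc ▸ S.root)
  have hwk : w ≠ k := fun hc => hkU (hc ▸ hw)
  have hins : insert k J₁ ∪ M = insert k (J₁ ∪ M) := insert_union _ _ _
  refine ⟨?_, ?_, S.disj, ?_, ?_, ?_, ?_, ?_⟩
  · exact insert_subset hk S.sub
  · exact mem_insert_of_mem S.root
  · rw [card_insert_of_notMem hk1]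
    exact S.card.trans (Nat.lt_succ_self _)
  · intro x hx hx0
    rw [hins]
    rcases mem_insert.1 hx with rfl | hx1
    · rw [Function.update_self]; exact mem_insert_of_mem hw
    · have : x ≠ k := fun hc => hk1 (hc ▸ hx1)
      rw [Function.update_of_ne this]; exact mem_insert_of_mem (S.parJ x hx1 hx0)
  · intro x hx
    have : x ≠ k := fun hc => hkM (hc ▸ hx)
    rw [Function.update_of_ne this]; exact mem_insert_of_mem (S.parM x hx)
  · intro x hx
    have hxk : x ≠ k := by
      rcases hx with rfl | hx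
      · exact hki.symm
      · rintro rfl; exact hx (mem_union_left _ (mem_insert_self _ _))
    rw [Function.update_of_ne hxk]
    apply S.parO
    rcases hx with hx | hx
    · exact Or.inl hx
    · right; rw [hins] at hx; exact fun hc => hx (mem_insert_of_mem hc)
  · intro x hx hx0
    rw [hins] at hx
    rcases mem_insert.1 hx with rfl | hx1
    · rw [Function.update_self, Function.update_self, Function.update_of_ne hwk]
      exact ⟨ha, Nat.lt_succ_self _⟩
    · have h1 : x ≠ k := fun hc => hkU (hc ▸ hx1)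
      have h2 : par x ≠ k := fun hc => hkU (hc ▸ S.par_mem hx1)
      rw [Function.update_of_ne h1, Function.update_of_ne h2, Function.update_of_ne h1]
      exact S.adj x hx1 hx0

/-- Add a vertex `v` outside `J` and then a vertex `k` of `J`. -/
theorem State.addM {n : ℕ} {ω : Pr n → Bool} {J : Finset (Fin n)} {i₀ : Fin n}
    {J₁ M : Finset (Fin n)} {par : Fin n → Fin n} {h : Fin n → ℕ}
    (S : State ω J i₀ J₁ M par h) {k v i : Fin n} (hk : k ∈ J) (hk1 : k ∉ J₁) (hv : v ∉ J)
    (hvM : v ∉ M) (hi : i ∈ J₁) (ha : adjB ω v i = true) (hb : adjB ω v k = true) :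
    ∃ M' par' h', State ω J i₀ (insert k J₁) M' par' h' := by
  have hkM : k ∉ M := fun hc => (disjoint_left.1 S.disj hk) hc
  have hvJ1 : v ∉ J₁ := fun hc => hv (S.sub hc)
  have hkU : k ∉ J₁ ∪ M := by
    rw [mem_union]; rintro (hc | hc)
    · exact hk1 hc
    · exact hkM hc
  have hvU : v ∉ J₁ ∪ M := by
    rw [mem_union]; rintro (hc | hc)
    · exact hvJ1 hc
    · exact hvM hc
  have hki : k ≠ i₀ := fun hc => hk1 (hc ▸ S.root)
  have hvi : v ≠ i₀ := fun hc => hvJ1 (hc ▸ S.root)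
  have hvk : v ≠ k := fun hc => hv (hc ▸ hk)
  have hiv : i ≠ v := fun hc => hvJ1 (hc ▸ hi)
  have hik : i ≠ k := fun hc => hk1 (hc ▸ hi)
  refine ⟨insert v M, Function.update (Function.update par v i) k v,
    Function.update (Function.update h v (h i + 1)) k (h i + 2), ?_, ?_, ?_, ?_, ?_, ?_, ?_, ?_⟩
  · exact insert_subset hk S.sub
  · exact mem_insert_of_mem S.root
  · rw [disjoint_insert_right]; exact ⟨hv, S.disj⟩
  · rw [card_insert_of_notMem hk1, card_insert_of_notMem hvM]
    have := S.card; omega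
  · intro x hx hx0
    rcases mem_insert.1 hx with rfl | hx1
    · rw [Function.update_self]
      exact mem_union_right _ (mem_insert_self _ _)
    · have h1 : x ≠ k := fun hc => hk1 (hc ▸ hx1)
      have h2 : x ≠ v := fun hc => hvJ1 (hc ▸ hx1)
      rw [Function.update_of_ne h1, Function.update_of_ne h2]
      rcases mem_union.1 (S.parJ x hx1 hx0) with h3 | h3
      · exact mem_union_left _ (mem_insert_of_mem h3)
      · exact mem_union_right _ (mem_insert_of_mem h3)
  · intro x hx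
    rcases mem_insert.1 hx with rfl | hx1
    · rw [Function.update_of_ne hvk, Function.update_self]
      exact mem_insert_of_mem hi
    · have h1 : x ≠ k := fun hc => hkM (hc ▸ hx1)
      have h2 : x ≠ v := fun hc => hvM (hc ▸ hx1)
      rw [Function.update_of_ne h1, Function.update_of_ne h2]
      exact mem_insert_of_mem (S.parM x hx1)
  · intro x hx
    have hxk : x ≠ k := by
      rcases hx with rfl | hx
      · exact hki.symm
      · rintro rfl; exact hx (mem_union_left _ (mem_insert_self _ _))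
    have hxv : x ≠ v := by
      rcases hx with rfl | hx
      · exact hvi.symm
      · rintro rfl; exact hx (mem_union_right _ (mem_insert_self _ _))
    rw [Function.update_of_ne hxk, Function.update_of_ne hxv]
    apply S.parO
    rcases hx with hx | hx
    · exact Or.inl hx
    · right
      intro hc
      apply hx
      rcases mem_union.1 hc with h3 | h3
      · exact mem_union_left _ (mem_insert_of_mem h3)
      · exact mem_union_right _ (mem_insert_of_mem h3)
  · intro x hx hx0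
    by_cases h1 : x = k
    · subst h1
      rw [Function.update_self, Function.update_self, Function.update_of_ne hvk,
        Function.update_self, adjB_comm]
      exact ⟨hb, Nat.lt_succ_self _⟩
    · by_cases h2 : x = v
      · subst h2
        rw [Function.update_of_ne h1, Function.update_self, Function.update_of_ne hik,
          Function.update_of_ne hiv, Function.update_of_ne h1, Function.update_self]
        exact ⟨ha, Nat.lt_succ_self _⟩
      · have h3 : x ∈ J₁ ∪ M := by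
          rcases mem_union.1 hx with h4 | h4
          · exact mem_union_left _ ((mem_insert.1 h4).resolve_left h1)
          · exact mem_union_right _ ((mem_insert.1 h4).resolve_left h2)
        have h4 := S.par_mem h3
        have h5 : par x ≠ k := fun hc => hkU (hc ▸ h4)
        have h6 : par x ≠ v := fun hc => hvU (hc ▸ h4)
        rw [Function.update_of_ne h1, Function.update_of_ne h2, Function.update_of_ne h5,
          Function.update_of_ne h6, Function.update_of_ne h1, Function.update_of_ne h2]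
        exact S.adj x h3 hx0

theorem exists_state {n : ℕ} (ω : Pr n → Bool) (J : Finset (Fin n)) (hJ : Linked ω J)
    (i₀ : Fin n) (hi₀ : i₀ ∈ J) (s : ℕ) (hs : s + 1 ≤ J.card) :
    ∃ J₁ M par h, State ω J i₀ J₁ M par h ∧ J₁.card = s + 1 := by
  induction s with
  | zero =>
    refine ⟨{i₀}, ∅, id, fun _ => 0, ⟨?_, ?_, ?_, ?_, ?_, ?_, ?_, ?_⟩, ?_⟩
    · exact singleton_subset_iff.2 hi₀
    · exact mem_singleton_self _
    · exact disjoint_empty_right _
    · simp
    · intro x hx hx0; exact absurd (mem_singleton.1 hx) hx0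
    · intro x hx; exact absurd hx (notMem_empty _)
    · intro x _; rfl
    · intro x hx hx0
      rw [union_empty] at hx
      exact absurd (mem_singleton.1 hx) hx0
    · simp
  | succ s ih =>
    obtain ⟨J₁, M, par, h, S, hc⟩ := ih (by omega)
    have hne : J₁ ≠ J := by rintro rfl; omega
    have hsep : ¬ Sep ω J₁ (J \ J₁) := fun hsep => hne (hJ.2 J₁ S.sub ⟨i₀, S.root⟩ hsep)
    unfold Sep at hsep
    rw [not_and_or] at hsep
    rcases hsep with hsep | hsep
    · push Not at hsep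
      obtain ⟨i, hi, k, hk, ha⟩ := hsep
      rw [Finset.mem_sdiff] at hk
      rw [ne_eq, Bool.not_eq_false] at ha
      exact ⟨_, _, _, _, S.addJ hk.1 hk.2 (mem_union_left _ hi) (by rw [adjB_comm]; exact ha), by
        rw [card_insert_of_notMem hk.2, hc]⟩
    · push Not at hsep
      obtain ⟨v, hv1, hv2, i, hi, k, hk, ha, hb⟩ := hsep
      rw [Finset.mem_sdiff] at hk hv2
      rw [ne_eq, Bool.not_eq_false] at hb
      have hvJ : v ∉ J := fun hc => hv2 ⟨hc, hv1⟩
      by_cases hvM : v ∈ M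
      · exact ⟨_, _, _, _, S.addJ hk.1 hk.2 (mem_union_right _ hvM) (by rw [adjB_comm]; exact hb), by
          rw [card_insert_of_notMem hk.2, hc]⟩
      · obtain ⟨M', par', h', S'⟩ := S.addM hk.1 hk.2 hvJ hvM hi ha hb
        exact ⟨_, _, _, _, S', by rw [card_insert_of_notMem hk.2, hc]⟩

end Job13

open Job13

theorem exists_parent {n : ℕ} (ω : Pr n → Bool) (J : Finset (Fin n)) (hJ : Linked ω J)
    (i₀ : Fin n) (hi₀ : i₀ ∈ J) :
    ∃ (M : Finset (Fin n)) (par : Fin n → Fin n) (h : Fin n → ℕ), Disjoint J M ∧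
      M.card < J.card ∧ (∀ x ∈ J, x ≠ i₀ → par x ∈ J ∪ M) ∧ (∀ x ∈ M, par x ∈ J) ∧
      (∀ x, (x = i₀ ∨ x ∉ J ∪ M) → par x = x) ∧
      (∀ x ∈ J ∪ M, x ≠ i₀ → adjB ω x (par x) = true ∧ h (par x) < h x) := by
  have hpos : 0 < J.card := card_pos.2 ⟨i₀, hi₀⟩
  obtain ⟨J₁, M, par, h, S, hc⟩ := exists_state ω J hJ i₀ hi₀ (J.card - 1) (by omega)
  have hJ1 : J₁ = J := eq_of_subset_of_card_le S.sub (by omega)
  subst hJ1
  exact ⟨M, par, h, S.disj, S.card, S.parJ, S.parM, S.parO, S.adj⟩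

namespace Job13

theorem adjB_congr {n : ℕ} {ω ω' : Pr n → Bool} (i k : Fin n)
    (h : ∀ e : Pr n, ((e.1.1 = i ∧ e.1.2 = k) ∨ (e.1.1 = k ∧ e.1.2 = i)) → ω e = ω' e) :
    adjB ω i k = adjB ω' i k := by
  unfold adjB
  rcases lt_trichotomy i k with h1 | h1 | h1
  · rw [dif_pos h1, dif_pos h1]
    exact h _ (Or.inl ⟨rfl, rfl⟩)
  · subst h1; simp
  · rw [dif_neg (not_lt.mpr h1.le), dif_neg (not_lt.mpr h1.le), dif_pos h1, dif_pos h1]
    exact h _ (Or.inr ⟨rfl, rfl⟩)

theorem Ex_single {ι : Type*} [Fintype ι] [DecidableEq ι] (q : ℝ) (e₀ : ι) :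
    Ex q (fun ω : ι → Bool => if ω e₀ = true then (1 : ℝ) else 0) = q := by
  have h := Ex_prod (A := ℝ) q (fun (e : ι) (b : Bool) =>
    if e = e₀ then (if b = true then (1 : ℝ) else 0) else 1)
  have h2 : (fun ω : ι → Bool => ∏ e, (if e = e₀ then (if ω e = true then (1 : ℝ) else 0) else 1)) =
      fun ω => if ω e₀ = true then (1 : ℝ) else 0 := by
    funext ω
    rw [prod_eq_single e₀]
    · rw [if_pos rfl]
    · intro b _ hb; rw [if_neg hb]
    · intro h; exact absurd (mem_univ _) h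
  rw [h2] at h
  rw [h, prod_eq_single e₀]
  · simp
  · intro b _ hb; simp [hb]
  · intro h; exact absurd (mem_univ _) h

open scoped Classical in
/-- the factor attached to a vertex -/
noncomputable def fac {n : ℕ} {A : Type} [AddCommGroup A] (γ : Fin n → A) (J M : Finset (Fin n))
    (i₀ : Fin n) (par : Fin n → Fin n) (z : Fin n) (ω : Pr n → Bool) : ℝ :=
  if z = i₀ then 1 else if z ∈ J ∪ M then (if adjB ω z (par z) = true then 1 else 0)
    else (if rsum (fun u : {u // u ∈ J} => γ u) (fun u => adjB ω z u) = 0 then 1 else 0)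

/-- the pairs attached to a vertex -/
def blk {n : ℕ} (J M : Finset (Fin n)) (i₀ : Fin n) (par : Fin n → Fin n) (z : Fin n) :
    Set (Pr n) :=
  {e | z ≠ i₀ ∧ ((z ∈ J ∪ M ∧ ((e.1.1 = z ∧ e.1.2 = par z) ∨ (e.1.1 = par z ∧ e.1.2 = z))) ∨
    (z ∉ J ∪ M ∧ ∃ u ∈ J, ((e.1.1 = z ∧ e.1.2 = u) ∨ (e.1.1 = u ∧ e.1.2 = z))))}

theorem fac_nonneg {n : ℕ} {A : Type} [AddCommGroup A] (γ : Fin n → A) (J M : Finset (Fin n))
    (i₀ : Fin n) (par : Fin n → Fin n) (z : Fin n) (ω : Pr n → Bool) :
    0 ≤ fac γ J M i₀ par z ω := by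
  unfold fac
  split_ifs <;> norm_num

theorem fac_dep {n : ℕ} {A : Type} [AddCommGroup A] (γ : Fin n → A) (J M : Finset (Fin n))
    (i₀ : Fin n) (par : Fin n → Fin n) (z : Fin n) :
    DependsOn (fac γ J M i₀ par z) (blk J M i₀ par z) := by
  intro x y hxy
  unfold fac
  by_cases h0 : z = i₀
  · rw [if_pos h0, if_pos h0]
  · rw [if_neg h0, if_neg h0]
    by_cases h1 : z ∈ J ∪ M
    · rw [if_pos h1, if_pos h1]
      rw [adjB_congr (ω := x) (ω' := y) z (par z) fun e he => hxy e ⟨h0, Or.inl ⟨h1, he⟩⟩]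
    · rw [if_neg h1, if_neg h1]
      have : (fun u : {u // u ∈ J} => adjB x z u) = fun u : {u // u ∈ J} => adjB y z u := by
        funext u
        exact adjB_congr z u fun e he => hxy e ⟨h0, Or.inr ⟨h1, u, u.2, he⟩⟩
      rw [this]

theorem blk_disj {n : ℕ} (J M : Finset (Fin n)) (i₀ : Fin n)
    (par : Fin n → Fin n) (h : Fin n → ℕ)
    (hp : ∀ x ∈ J ∪ M, par x ∈ J ∪ M) (hh : ∀ x ∈ J ∪ M, x ≠ i₀ → h (par x) < h x) (v w : Fin n)
    (hvw : v ≠ w) : Disjoint (blk J M i₀ par v) (blk J M i₀ par w) := by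
  rw [Set.disjoint_left]
  rintro e ⟨hv0, hv⟩ ⟨hw0, hw⟩
  rcases hv with ⟨hv1, hv2⟩ | ⟨hv1, u, hu, hv2⟩ <;> rcases hw with ⟨hw1, hw2⟩ | ⟨hw1, u', hu', hw2⟩
  · have a1 := hh v hv1 hv0
    have a2 := hh w hw1 hw0
    rcases hv2 with ⟨b1, b2⟩ | ⟨b1, b2⟩ <;> rcases hw2 with ⟨c1, c2⟩ | ⟨c1, c2⟩
    · exact hvw (b1.symm.trans c1)
    · have e1 : v = par w := b1.symm.trans c1
      have e2 : par v = w := b2.symm.trans c2
      rw [← e1] at a2; rw [e2] at a1; omega
    · have e1 : par v = w := b1.symm.trans c1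
      have e2 : v = par w := b2.symm.trans c2
      rw [← e2] at a2; rw [e1] at a1; omega
    · exact hvw (b2.symm.trans c2)
  · have hpv := hp v hv1
    rcases hv2 with ⟨b1, b2⟩ | ⟨b1, b2⟩ <;> rcases hw2 with ⟨c1, c2⟩ | ⟨c1, c2⟩
    · exact hw1 ((b1.symm.trans c1) ▸ hv1)
    · exact hw1 ((b2.symm.trans c2) ▸ hpv)
    · exact hw1 ((b1.symm.trans c1) ▸ hpv)
    · exact hw1 ((b2.symm.trans c2) ▸ hv1)
  · have hpw := hp w hw1
    rcases hv2 with ⟨b1, b2⟩ | ⟨b1, b2⟩ <;> rcases hw2 with ⟨c1, c2⟩ | ⟨c1, c2⟩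
    · exact hv1 ((c1.symm.trans b1) ▸ hw1)
    · exact hv1 ((c1.symm.trans b1) ▸ hpw)
    · exact hv1 ((c2.symm.trans b2) ▸ hpw)
    · exact hv1 ((c2.symm.trans b2) ▸ hw1)
  · rcases hv2 with ⟨b1, b2⟩ | ⟨b1, b2⟩ <;> rcases hw2 with ⟨c1, c2⟩ | ⟨c1, c2⟩
    · exact hvw (b1.symm.trans c1)
    · exact hv1 (mem_union_left _ ((c1.symm.trans b1) ▸ hu'))
    · exact hv1 (mem_union_left _ ((c2.symm.trans b2) ▸ hu'))
    · exact hvw (b2.symm.trans c2)

theorem Ex_fac_tree {n : ℕ} {A : Type} [AddCommGroup A] (γ : Fin n → A) (J M : Finset (Fin n))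
    (i₀ : Fin n) (par : Fin n → Fin n) (z : Fin n) (hz : z ∈ J ∪ M) (hz0 : z ≠ i₀)
    (hne : z ≠ par z) (r : ℝ) : Ex r (fac γ J M i₀ par z) = r := by
  have h1 : fac γ J M i₀ par z = fun ω : Pr n → Bool =>
      if ω (mkPair z (par z) hne) = true then (1 : ℝ) else 0 := by
    funext ω
    unfold fac
    rw [if_neg hz0, if_pos hz, adjB_mkPair ω z (par z) hne]
  rw [h1]
  exact Ex_single r _

theorem Ex_fac_out {n : ℕ} {A : Type} [AddCommGroup A] (γ : Fin n → A) (J M : Finset (Fin n))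
    (hJ : ∀ u ∈ J, γ u ≠ 0)
    (i₀ : Fin n) (hi₀ : i₀ ∈ J) (par : Fin n → Fin n) (z : Fin n) (hz : z ∉ J ∪ M) {r : ℝ}
    (h0 : 0 ≤ r) (h1 : r ≤ 1) : Ex r (fac γ J M i₀ par z) ≤
      1 - J.card * r * (1 - r) ^ (J.card - 1) := by
  classical
  have hzJ : z ∉ J := fun hc => hz (mem_union_left _ hc)
  have hz0 : z ≠ i₀ := fun hc => hzJ (hc ▸ hi₀)
  have hne : ∀ u : {u // u ∈ J}, z ≠ u.1 := fun u hc => hzJ (hc ▸ u.2)
  have hinj : Function.Injective (fun u : {u // u ∈ J} => mkPair z u.1 (hne u)) := by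
    intro u u' huu
    have h2 := mkPair_mem z u.1 (hne u)
    have h3 := mkPair_mem z u'.1 (hne u')
    simp only at huu
    rw [← huu] at h3
    rcases h2 with ⟨h4, h5⟩ | ⟨h4, h5⟩ <;> rcases h3 with ⟨h6, h7⟩ | ⟨h6, h7⟩
    · exact Subtype.ext (h5.symm.trans h7)
    · exact absurd (h4.symm.trans h6) (hne u')
    · exact absurd (h6.symm.trans h4) (hne u)
    · exact Subtype.ext (h4.symm.trans h6)
  have h2 := Ex_comp_injective r (fun u : {u // u ∈ J} => mkPair z u.1 (hne u)) hinj
    (fun x : {u // u ∈ J} → Bool =>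
      if rsum (fun u : {u // u ∈ J} => γ u) x = 0 then (1 : ℝ) else 0)
  have h3 : fac γ J M i₀ par z = fun ω : Pr n → Bool =>
      if rsum (fun u : {u // u ∈ J} => γ u) (fun u => ω (mkPair z u.1 (hne u))) = 0 then
        (1 : ℝ) else 0 := by
    funext ω
    unfold fac
    rw [if_neg hz0, if_neg hz]
    have : (fun u : {u // u ∈ J} => adjB ω z u) = fun u => ω (mkPair z u.1 (hne u)) := by
      funext u
      exact adjB_mkPair ω z u.1 (hne u)
    rw [this]
  rw [h3, h2]
  refine (Ex_rsum_zero_le h0 h1 (fun u : {u // u ∈ J} => γ u)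
    (fun u : {u // u ∈ J} => hJ u.1 u.2)).trans (le_of_eq ?_)
  rw [Fintype.card_coe]

/-- the constant is nonnegative -/
theorem cst_nonneg {n : ℕ} {A : Type} [AddCommGroup A] (γ : Fin n → A) (J : Finset (Fin n))
    (hJ : ∀ u ∈ J, γ u ≠ 0) {r : ℝ} (h0 : 0 ≤ r) (h1 : r ≤ 1) :
    0 ≤ 1 - J.card * r * (1 - r) ^ (J.card - 1) := by
  classical
  have h := Ex_rsum_zero_le h0 h1 (fun u : {u // u ∈ J} => γ u)
    (fun u : {u // u ∈ J} => hJ u.1 u.2)
  rw [Fintype.card_coe] at h
  refine le_trans ?_ h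
  apply Ex_nonneg h0 h1
  intro ω; split_ifs <;> norm_num

theorem Ex_prod_fac_le {n : ℕ} {A : Type} [AddCommGroup A] (γ : Fin n → A) (J M : Finset (Fin n))
    (hJ : ∀ u ∈ J, γ u ≠ 0) (hJM : Disjoint J M)
    (i₀ : Fin n) (hi₀ : i₀ ∈ J) (par : Fin n → Fin n) (h : Fin n → ℕ)
    (hp : ∀ x ∈ J ∪ M, par x ∈ J ∪ M) (hh : ∀ x ∈ J ∪ M, x ≠ i₀ → h (par x) < h x)
    {r : ℝ} (h0 : 0 ≤ r) (h1 : r ≤ 1) :
    Ex r (fun ω => ∏ z, fac γ J M i₀ par z ω) ≤ r ^ (J.card - 1 + M.card) *
      (1 - J.card * r * (1 - r) ^ (J.card - 1)) ^ (n - J.card - M.card) := by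
  classical
  set c : ℝ := 1 - J.card * r * (1 - r) ^ (J.card - 1) with hc
  rw [Ex_prod_of_dependsOn r (blk J M i₀ par)
    (fun v w hvw => blk_disj J M i₀ par h hp hh v w hvw) _ (fac_dep γ J M i₀ par) univ]
  have hi₀U : i₀ ∈ J ∪ M := mem_union_left _ hi₀
  calc ∏ z, Ex r (fac γ J M i₀ par z) ≤
      ∏ z, ((if z ∈ (J ∪ M).erase i₀ then r else 1) * (if z ∈ (J ∪ M)ᶜ then c else 1)) := by
        apply Finset.prod_le_prod
        · intro z _
          exact Ex_nonneg h0 h1 fun ω => fac_nonneg _ _ _ _ _ _ _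
        · intro z _
          by_cases hz0 : z = i₀
          · subst hz0
            rw [if_neg (notMem_erase _ _), if_neg (fun hc => (mem_compl.1 hc) hi₀U)]
            have : fac γ J M z par z = fun _ : Pr n → Bool => (1 : ℝ) := by
              funext ω; unfold fac; rw [if_pos rfl]
            rw [this, Ex_const, mul_one]
          · by_cases hz : z ∈ J ∪ M
            · rw [if_pos (mem_erase.2 ⟨hz0, hz⟩), if_neg (fun hc => (mem_compl.1 hc) hz), mul_one]
              refine le_of_eq (Ex_fac_tree γ J M i₀ par z hz hz0 ?_ r)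
              intro hc
              have := hh z hz hz0
              rw [← hc] at this
              exact lt_irrefl _ this
            · rw [if_neg (fun hc => hz (mem_of_mem_erase hc)), if_pos (mem_compl.2 hz), one_mul]
              exact Ex_fac_out γ J M hJ i₀ hi₀ par z hz h0 h1
    _ = r ^ (J.card - 1 + M.card) * c ^ (n - J.card - M.card) := by
        rw [prod_mul_distrib, prod_ite_mem, prod_ite_mem, univ_inter, univ_inter, prod_const,
          prod_const, card_erase_of_mem hi₀U, card_compl, card_union_of_disjoint hJM,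
          Fintype.card_fin]
        have : 0 < J.card := card_pos.2 ⟨i₀, hi₀⟩
        congr 2 <;> omega

/-- the sets of possible parents -/
def pars {n : ℕ} (J M : Finset (Fin n)) (i₀ : Fin n) : Finset (Fin n → Fin n) :=
  Fintype.piFinset fun x => if x = i₀ then {x} else if x ∈ J then J ∪ M else if x ∈ M then J
    else {x}

theorem card_pars {n : ℕ} (J M : Finset (Fin n)) (hJM : Disjoint J M) (i₀ : Fin n)
    (hi₀ : i₀ ∈ J) : (pars J M i₀).card = (J.card + M.card) ^ (J.card - 1) * J.card ^ M.card := by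
  unfold pars
  rw [Fintype.card_piFinset]
  have h1 : ∀ x : Fin n, (if x = i₀ then {x} else if x ∈ J then J ∪ M else if x ∈ M then J
      else {x} : Finset (Fin n)).card = (if x ∈ J.erase i₀ then (J.card + M.card) else 1) *
        (if x ∈ M then J.card else 1) := by
    intro x
    by_cases hx0 : x = i₀
    · subst hx0
      have hM : x ∉ M := fun hc => disjoint_left.1 hJM hi₀ hc
      rw [if_pos rfl, if_neg (notMem_erase _ _), if_neg hM, card_singleton]
    · rw [if_neg hx0]
      by_cases hxJ : x ∈ J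
      · have hM : x ∉ M := fun hc => disjoint_left.1 hJM hxJ hc
        rw [if_pos hxJ, if_pos (mem_erase.2 ⟨hx0, hxJ⟩), if_neg hM, mul_one,
          card_union_of_disjoint hJM]
      · rw [if_neg hxJ, if_neg (fun hc => hxJ (mem_of_mem_erase hc)), one_mul]
        by_cases hM : x ∈ M
        · rw [if_pos hM, if_pos hM]
        · rw [if_neg hM, if_neg hM, card_singleton]
  rw [prod_congr rfl fun x _ => h1 x, prod_mul_distrib, prod_ite_mem, prod_ite_mem, univ_inter,
    univ_inter, prod_const, prod_const, card_erase_of_mem hi₀]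

/-- On the event, one of the products of factors is `1`. -/
theorem exists_fac {n : ℕ} {A : Type} [AddCommGroup A] [DecidableEq A] (γ : Fin n → A)
    (J : Finset (Fin n)) (hJ : ∀ u, u ∈ J ↔ γ u ≠ 0) (i₀ : Fin n) (hi₀ : i₀ ∈ J)
    (ω : Pr n → Bool) (hval : Val ω γ) (hlink : Linked ω J) :
    ∃ M : Finset (Fin n), Disjoint J M ∧ M.card < J.card ∧ ∃ par ∈ pars J M i₀,
      (∃ h : Fin n → ℕ, ∀ x ∈ J ∪ M, x ≠ i₀ → h (par x) < h x) ∧
      (∀ x ∈ J ∪ M, par x ∈ J ∪ M) ∧ ∏ z, fac γ J M i₀ par z ω = 1 := by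
  obtain ⟨M, par, h, h1, h2, h3, h4, h5, h6⟩ := exists_parent ω J hlink i₀ hi₀
  refine ⟨M, h1, h2, par, ?_, ⟨h, fun x hx hx0 => (h6 x hx hx0).2⟩, ?_, ?_⟩
  · unfold pars
    rw [Fintype.mem_piFinset]
    intro x
    by_cases hx0 : x = i₀
    · rw [if_pos hx0, mem_singleton, h5 x (Or.inl hx0)]
    · rw [if_neg hx0]
      by_cases hxJ : x ∈ J
      · rw [if_pos hxJ]; exact h3 x hxJ hx0
      · rw [if_neg hxJ]
        by_cases hM : x ∈ M
        · rw [if_pos hM]; exact h4 x hM
        · rw [if_neg hM, mem_singleton]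
          exact h5 x (Or.inr (by rw [mem_union]; rintro (hc | hc); exacts [hxJ hc, hM hc]))
  · intro x hx
    by_cases hx0 : x = i₀
    · rw [h5 x (Or.inl hx0)]; exact hx
    · rcases mem_union.1 hx with hx1 | hx1
      · exact h3 x hx1 hx0
      · exact mem_union_left _ (h4 x hx1)
  · apply prod_eq_one
    intro z _
    unfold fac
    by_cases hz0 : z = i₀
    · rw [if_pos hz0]
    · rw [if_neg hz0]
      by_cases hz : z ∈ J ∪ M
      · rw [if_pos hz, if_pos (h6 z hz hz0).1]
      · rw [if_neg hz, if_pos]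
        have hzJ : z ∉ J := fun hc => hz (mem_union_left _ hc)
        have hγz : γ z = 0 := by
          by_contra hc; exact hzJ ((hJ z).2 hc)
        have h7 := hval z
        rw [hγz, smul_zero] at h7
        unfold lap at h7
        have h8 : ∀ k, (if adjB ω z k = true then γ z - γ k else 0) =
            -(if adjB ω z k = true then γ k else 0) := by
          intro k
          rw [hγz]
          split_ifs <;> simp
        rw [sum_congr rfl fun k _ => h8 k, sum_neg_distrib, neg_eq_zero,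
          ← sum_subset (subset_univ J)] at h7
        · unfold rsum
          rw [← sum_coe_sort J] at h7
          exact h7
        · intro u _ hu
          have : γ u = 0 := by
            by_contra hc; exact hu ((hJ u).2 hc)
          rw [this]; simp

end Job13

open scoped Classical in
theorem Ex_linked_le {n : ℕ} {A : Type} [AddCommGroup A] {r : ℝ} (h0 : 0 ≤ r) (h1 : r ≤ 1)
    (γ : Fin n → A) {j : ℕ} (hj : (supp γ).card = j) (hj1 : 1 ≤ j) :
    Ex r (fun ω : Pr n → Bool => if Val ω γ ∧ Linked ω (supp γ) then (1 : ℝ) else 0) ≤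
      ∑ m ∈ range j, (n.choose m : ℝ) * ((j + m : ℕ) : ℝ) ^ (j - 1) * (j : ℝ) ^ m *
        r ^ (j - 1 + m) * (1 - j * r * (1 - r) ^ (j - 1)) ^ (n - j - m) := by
  set J := supp γ with hJdef
  have hJ : ∀ u, u ∈ J ↔ γ u ≠ 0 := by
    intro u; rw [hJdef]; unfold supp; simp
  obtain ⟨i₀, hi₀⟩ : J.Nonempty := card_pos.1 (by omega)
  set t : Finset (Fin n) → (Fin n → Fin n) → (Pr n → Bool) → ℝ := fun M par ω =>
    if (∃ h : Fin n → ℕ, ∀ x ∈ J ∪ M, x ≠ i₀ → h (par x) < h x) ∧ (∀ x ∈ J ∪ M, par x ∈ J ∪ M)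
      then ∏ z, fac γ J M i₀ par z ω else 0 with ht
  have htn : ∀ M par ω, 0 ≤ t M par ω := by
    intro M par ω
    simp only [ht]
    split_ifs
    · exact prod_nonneg fun z _ => fac_nonneg _ _ _ _ _ _ _
    · exact le_rfl
  set S : ℕ → Finset (Finset (Fin n)) := fun m =>
    (powersetCard m univ).filter fun M => Disjoint J M with hS
  have hle : ∀ ω : Pr n → Bool, (if Val ω γ ∧ Linked ω J then (1 : ℝ) else 0) ≤
      ∑ m ∈ range j, ∑ M ∈ S m, ∑ par ∈ pars J M i₀, t M par ω := by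
    intro ω
    by_cases hv : Val ω γ ∧ Linked ω J
    · rw [if_pos hv]
      obtain ⟨M, hM1, hM2, par, hpar, hh, hp, hprod⟩ := exists_fac γ J hJ i₀ hi₀ ω hv.1 hv.2
      have e1 : t M par ω = 1 := by
        simp only [ht]
        rw [if_pos ⟨hh, hp⟩, hprod]
      calc (1 : ℝ) = t M par ω := e1.symm
        _ ≤ ∑ par ∈ pars J M i₀, t M par ω :=
            single_le_sum (f := fun par => t M par ω) (fun par _ => htn M par ω) hpar
        _ ≤ ∑ M ∈ S M.card, ∑ par ∈ pars J M i₀, t M par ω :=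
            single_le_sum (f := fun M => ∑ par ∈ pars J M i₀, t M par ω)
              (fun M _ => sum_nonneg fun par _ => htn M par ω)
              (mem_filter.2 ⟨mem_powersetCard.2 ⟨subset_univ _, rfl⟩, hM1⟩)
        _ ≤ _ := single_le_sum (f := fun m => ∑ M ∈ S m, ∑ par ∈ pars J M i₀, t M par ω)
              (fun m _ => sum_nonneg fun M _ => sum_nonneg fun par _ => htn M par ω)
              (mem_range.2 (by omega))
    · rw [if_neg hv]
      exact sum_nonneg fun m _ => sum_nonneg fun M _ => sum_nonneg fun par _ => htn M par ω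
  refine (Ex_mono h0 h1 hle).trans ?_
  rw [Ex_sum]
  apply sum_le_sum
  intro m _
  rw [Ex_sum]
  have hcst := cst_nonneg γ J (fun u hu => (hJ u).1 hu) h0 h1
  rw [hj] at hcst
  have hterm : ∀ M ∈ S m, Ex r (fun ω => ∑ par ∈ pars J M i₀, t M par ω) ≤
      ((j + m : ℕ) : ℝ) ^ (j - 1) * (j : ℝ) ^ m *
        (r ^ (j - 1 + m) * (1 - j * r * (1 - r) ^ (j - 1)) ^ (n - j - m)) := by
    intro M hM
    rw [mem_filter, mem_powersetCard] at hM
    obtain ⟨⟨-, hMc⟩, hMd⟩ := hM
    rw [Ex_sum]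
    have hb : ∀ par ∈ pars J M i₀, Ex r (t M par) ≤
        r ^ (j - 1 + m) * (1 - j * r * (1 - r) ^ (j - 1)) ^ (n - j - m) := by
      intro par _
      by_cases hh : (∃ h : Fin n → ℕ, ∀ x ∈ J ∪ M, x ≠ i₀ → h (par x) < h x) ∧
          (∀ x ∈ J ∪ M, par x ∈ J ∪ M)
      · have e : t M par = fun ω => ∏ z, fac γ J M i₀ par z ω := by
          funext ω
          simp only [ht]
          rw [if_pos hh]
        rw [e]
        obtain ⟨⟨h, hh1⟩, hh2⟩ := hh
        have := Ex_prod_fac_le γ J M (fun u hu => (hJ u).1 hu) hMd i₀ hi₀ par h hh2 hh1 h0 h1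
        rwa [hj, hMc] at this
      · have e : t M par = fun _ => 0 := by
          funext ω
          simp only [ht]
          rw [if_neg hh]
        rw [e, Ex_const]
        exact mul_nonneg (pow_nonneg h0 _) (pow_nonneg hcst _)
    refine (sum_le_sum hb).trans (le_of_eq ?_)
    rw [sum_const, nsmul_eq_mul, card_pars J M hMd i₀ hi₀, hj, hMc]
    push_cast
    ring
  refine (sum_le_sum hterm).trans ?_
  rw [sum_const, nsmul_eq_mul]
  have hcard : ((S m).card : ℝ) ≤ (n.choose m : ℝ) := by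
    have : (S m).card ≤ (powersetCard m (univ : Finset (Fin n))).card := card_filter_le _ _
    rw [card_powersetCard, card_univ, Fintype.card_fin] at this
    exact_mod_cast this
  calc _ ≤ (n.choose m : ℝ) * (((j + m : ℕ) : ℝ) ^ (j - 1) * (j : ℝ) ^ m *
        (r ^ (j - 1 + m) * (1 - j * r * (1 - r) ^ (j - 1)) ^ (n - j - m))) :=
        mul_le_mul_of_nonneg_right hcard (by
          have h3 : 0 ≤ (1 - (j : ℝ) * r * (1 - r) ^ (j - 1)) ^ (n - j - m) := pow_nonneg hcst _
          positivity)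
    _ = _ := by ring

end Pool.Agent.Lib.MP_49901c_pr
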