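import Mathlib
import Pool.Agent.Lib.MP_49901c_pr.DenseDefs

/-!
# Cutting an eigenvector of a forest to a tree component
-/

namespace Pool.Agent.Lib.MP_49901c_pr

namespace Job26

open Finset

theorem lapM_apply {V : Type*} [Fintype V] [DecidableEq V] (T : SimpleGraph V)
    [DecidableRel T.Adj] {R : Type*} [CommRing R] (g : V → R) (x : V) :
    (T.lapMatrix R).mulVec g x = ∑ y, if T.Adj x y then g x - g y else 0 := by
  rw [SimpleGraph.lapMatrix_mulVec_apply, ← Finset.sum_filter,
    ← SimpleGraph.neighborFinset_eq_filter, Finset.sum_sub_distrib, Finset.sum_const,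
    SimpleGraph.card_neighborFinset_eq_degree, nsmul_eq_mul]

/-- The eigenvector equation in terms of differences. -/
theorem eig_iff {V : Type*} [Fintype V] [DecidableEq V] (T : SimpleGraph V)
    [DecidableRel T.Adj] {R : Type*} [CommRing R] (g : V → R) (a : R) :
    (T.lapMatrix R).mulVec g = a • g ↔
      ∀ x, (∑ y, if T.Adj x y then g x - g y else 0) = a * g x := by
  rw [funext_iff]
  simp only [lapM_apply, Pi.smul_apply, smul_eq_mul]

end Job26

theorem exists_isObstruction_of_acyclic {p a : ℕ} {V : Type} [Fintype V] [DecidableEq V]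
    (T : SimpleGraph V) [DecidableRel T.Adj] (hT : T.IsAcyclic) (g : V → ZMod p) (hg : g ≠ 0)
    (heig : (T.lapMatrix (ZMod p)).mulVec g = (a : ZMod p) • g) :
    ∃ j e, j ≤ {x | g x ≠ 0}.ncard ∧ e ≤ T.edgeSet.ncard ∧ IsObstruction p a j e := by
  classical
  rw [Job26.eig_iff] at heig
  obtain ⟨x₀, hx₀⟩ := Function.ne_iff.mp hg
  -- remove the edges between zeros
  let T' : SimpleGraph V :=
    { Adj := fun x y => T.Adj x y ∧ (g x ≠ 0 ∨ g y ≠ 0)
      symm := ⟨fun x y h => ⟨h.1.symm, h.2.symm⟩⟩
      loopless := ⟨fun x h => T.loopless.irrefl x h.1⟩ }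
  have hT'le : T' ≤ T := fun x y h => h.1
  have hT' : T'.IsAcyclic := SimpleGraph.IsAcyclic.anti hT'le hT
  have heig' : ∀ x, (∑ y, if T'.Adj x y then g x - g y else 0) = (a : ZMod p) * g x := by
    intro x
    rw [← heig x]
    apply Finset.sum_congr rfl
    intro y _
    by_cases h : T.Adj x y
    · by_cases h' : g x ≠ 0 ∨ g y ≠ 0
      · rw [if_pos (show T'.Adj x y from ⟨h, h'⟩), if_pos h]
      · rw [if_neg (fun hh : T'.Adj x y => h' hh.2), if_pos h]
        rw [not_or, not_not, not_not] at h'
        rw [h'.1, h'.2, sub_zero]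
    · rw [if_neg (fun hh : T'.Adj x y => h hh.1), if_neg h]
  let c : T'.ConnectedComponent := T'.connectedComponentMk x₀
  have hc : c.toSimpleGraph.IsTree := hT'.isTree_connectedComponent c
  let e := Fintype.equivFin c
  let S : SimpleGraph (Fin (Fintype.card c)) := c.toSimpleGraph.comap e.symm
  have hSadj : ∀ i k, S.Adj i k ↔ T'.Adj (e.symm i : V) (e.symm k : V) := by
    intro i k
    rfl
  have hS : S.IsTree := (SimpleGraph.Iso.comap e.symm c.toSimpleGraph).isTree_iff.mpr hc
  let γ : Fin (Fintype.card c) → ZMod p := fun i => g (e.symm i : V)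
  have hinj : Function.Injective (fun i : Fin (Fintype.card c) => ((e.symm i : c) : V)) :=
    Subtype.val_injective.comp e.symm.injective
  refine ⟨{i | γ i ≠ 0}.ncard, S.edgeSet.ncard, ?_, ?_, Fintype.card c, S, γ, hS, rfl, rfl,
    ?_, ?_, ?_⟩
  · exact Set.ncard_le_ncard_of_injOn (fun i => ((e.symm i : c) : V)) (fun i hi => hi)
      hinj.injOn (Set.toFinite _)
  · refine Set.ncard_le_ncard_of_injOn (Sym2.map (fun i => ((e.symm i : c) : V))) ?_
      (Sym2.map.injective hinj).injOn (Set.toFinite _)
    intro s hs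
    induction s using Sym2.ind with
    | _ i k =>
      rw [SimpleGraph.mem_edgeSet, hSadj] at hs
      rw [Sym2.map_mk, SimpleGraph.mem_edgeSet]
      exact hs.1
  · rw [Nat.one_le_iff_ne_zero, ← Nat.pos_iff_ne_zero, Set.ncard_pos (Set.toFinite _)]
    refine ⟨e ⟨x₀, rfl⟩, ?_⟩
    show g _ ≠ 0
    rw [Equiv.symm_apply_apply]
    exact hx₀
  · intro i k h
    exact ((hSadj i k).mp h).2
  · rw [Job26.eig_iff]
    intro i
    show _ = (a : ZMod p) * g (e.symm i : V)
    rw [← heig' (e.symm i : V)]
    -- sum over the component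
    have h1 : (∑ y : V, if T'.Adj (e.symm i : V) y then g (e.symm i : V) - g y else 0) =
        ∑ y ∈ (Finset.univ : Finset c).map ⟨Subtype.val, Subtype.val_injective⟩,
          if T'.Adj (e.symm i : V) y then g (e.symm i : V) - g y else 0 := by
      symm
      apply Finset.sum_subset (Finset.subset_univ _)
      intro y _ hy
      rw [if_neg]
      intro hadj
      apply hy
      rw [Finset.mem_map]
      refine ⟨⟨y, ?_⟩, Finset.mem_univ _, rfl⟩
      have h2 : T'.connectedComponentMk (e.symm i : V) = c := (e.symm i).2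
      show T'.connectedComponentMk y = c
      rw [← h2]
      exact SimpleGraph.ConnectedComponent.sound hadj.symm.reachable
    rw [h1, Finset.sum_map, ← Equiv.sum_comp e.symm]
    apply Finset.sum_congr rfl
    intro k _
    by_cases h : S.Adj i k
    · rw [if_pos h]
      exact (if_pos ((hSadj i k).mp h)).symm
    · rw [if_neg h]
      exact (if_neg (fun hh => h ((hSadj i k).mpr hh))).symm

end Pool.Agent.Lib.MP_49901c_pr
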