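import Mathlib
import Pool.Agent.Lib.MP_49901c_pr.DenseDefs
import Pool.Agent.Lib.MP_49901c_pr.Job26

/-!
# Exact trees give obstructions
-/

namespace Pool.Agent.Lib.MP_49901c_pr

namespace Job14

open Finset

theorem isObstruction_of_tree {p a : ℕ} {V : Type*} [Fintype V] [DecidableEq V]
    (T : SimpleGraph V) [DecidableRel T.Adj] (hT : T.IsTree) (g : V → ZMod p)
    (hne : ∃ x, g x ≠ 0) (hadj : ∀ x y, T.Adj x y → g x ≠ 0 ∨ g y ≠ 0)
    (heq : ∀ x, (∑ y, if T.Adj x y then g x - g y else 0) = (a : ZMod p) * g x) :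
    IsObstruction p a {x | g x ≠ 0}.ncard T.edgeSet.ncard := by
  classical
  let e := Fintype.equivFin V
  refine ⟨Fintype.card V, T.comap e.symm, fun i => g (e.symm i),
    (SimpleGraph.Iso.comap e.symm T).isTree_iff.mpr hT, ?_, ?_, ?_, ?_, ?_⟩
  · rw [← Nat.card_coe_set_eq, ← Nat.card_coe_set_eq]
    exact Nat.card_congr (SimpleGraph.Iso.comap e.symm T).mapEdgeSet
  · rw [← Nat.card_coe_set_eq, ← Nat.card_coe_set_eq]
    exact Nat.card_congr (e.symm.subtypeEquiv (fun i => Iff.rfl))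
  · rw [Nat.one_le_iff_ne_zero, ← Nat.pos_iff_ne_zero, Set.ncard_pos (Set.toFinite _)]
    exact hne
  · intro i k h
    exact hadj _ _ h
  · rw [Job26.eig_iff]
    intro i
    rw [← heq (e.symm i), ← Equiv.sum_comp e.symm]
    apply Finset.sum_congr rfl
    intro k _
    by_cases h : T.Adj (e.symm i) (e.symm k)
    · rw [if_pos h]
      exact if_pos h
    · rw [if_neg h]
      exact if_neg h

theorem exists_hom_ne_zero_field {K : Type*} [Field K] {B : Type*} [AddCommGroup B] [Module K B]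
    (v : B) (hv : v ≠ 0) : ∃ f : B →+ K, f v ≠ 0 := by
  obtain ⟨f, hf⟩ := Module.Projective.exists_dual_ne_zero K hv
  exact ⟨f.toAddMonoidHom, hf⟩

theorem exists_hom_ne_zero {p : ℕ} (hp : p.Prime) {B : Type*} [AddCommGroup B]
    (hB : ∀ x : B, p • x = 0) (v : B) (hv : v ≠ 0) : ∃ f : B →+ ZMod p, f v ≠ 0 := by
  have := Fact.mk hp
  let _ : Module (ZMod p) B := AddCommGroup.zmodModule hB
  exact exists_hom_ne_zero_field v hv

/-- A nonzero function with values in a `p`-primary group has a nonzero quotient with values in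
`ZMod p`, compatible with all linear relations. -/
theorem exists_functional {p : ℕ} (hp : p.Prime) {A : Type*} [AddCommGroup A] {k : ℕ}
    (hA : ∀ x : A, p ^ k • x = 0) {I : Type*} (γ : I → A) (hγ : ∃ i, γ i ≠ 0) :
    ∃ (B : AddSubgroup A) (f : B →+ ZMod p) (t : ℕ) (ht : ∀ i, p ^ t • γ i ∈ B),
      ∃ i, f ⟨p ^ t • γ i, ht i⟩ ≠ 0 := by
  classical
  have := Fact.mk hp
  have hex : ∃ s, ∀ i, p ^ s • γ i = 0 := ⟨k, fun i => hA _⟩
  have h1 : Nat.find hex ≠ 0 := by
    intro h0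
    obtain ⟨i, hi⟩ := hγ
    have h2 := Nat.find_spec hex i
    rw [h0, pow_zero, one_smul] at h2
    exact hi h2
  obtain ⟨t, ht⟩ := Nat.exists_eq_succ_of_ne_zero h1
  have h3 : ∀ i, p ^ (t + 1) • γ i = 0 := by
    have := Nat.find_spec hex
    rw [ht] at this
    exact this
  have h4 : ¬ ∀ i, p ^ t • γ i = 0 := Nat.find_min hex (by rw [ht]; exact Nat.lt_succ_self t)
  rw [not_forall] at h4
  obtain ⟨i, hi⟩ := h4
  let B : AddSubgroup A := (DistribSMul.toAddMonoidHom A p).ker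
  have hB : ∀ x : A, x ∈ B ↔ p • x = 0 := fun x => Iff.rfl
  have hmem : ∀ i, p ^ t • γ i ∈ B := by
    intro i
    rw [hB, smul_smul, ← pow_succ']
    exact h3 i
  obtain ⟨f, hf⟩ := exists_hom_ne_zero hp (B := B) (fun x => Subtype.ext (by
    have := (hB x.1).mp x.2
    simpa using this)) ⟨p ^ t • γ i, hmem i⟩ (fun h => hi (Subtype.ext_iff.mp h))
  exact ⟨B, f, t, hmem, i, hf⟩

end Job14

open Finset

open scoped Classical in
theorem isObstruction_of_exact {p : ℕ} (hp : p.Prime) {n : ℕ} {A : Type} [AddCommGroup A]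
    (hA : ∃ k, ∀ x : A, p ^ k • x = 0) (ω : Pr n → Bool) (γ : Fin n → A) (hval : Val ω γ)
    (M : Finset (Fin n)) (hM : Disjoint (supp γ) M) (i₀ : Fin n) (hi₀ : i₀ ∈ supp γ)
    (par : Fin n → Fin n) (h : Fin n → ℕ)
    (h1 : ∀ x ∈ supp γ, x ≠ i₀ → par x ∈ supp γ ∪ M) (h2 : ∀ x ∈ M, par x ∈ supp γ)
    (h3 : ∀ x ∈ supp γ ∪ M, x ≠ i₀ → adjB ω x (par x) = true ∧ h (par x) < h x)
    (h4 : ∀ x ∈ supp γ, ∀ y, adjB ω x y = true →
      (x ≠ i₀ ∧ y = par x) ∨ (y ∈ supp γ ∪ M ∧ y ≠ i₀ ∧ x = par y))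
    (hmin : ∀ j' e', IsObstruction p n j' e' → (supp γ).card ≤ j') :
    IsObstruction p n (supp γ).card ((supp γ).card - 1 + M.card) := by
  obtain ⟨k, hk⟩ := hA
  have hmemJ : ∀ x, x ∈ supp γ ↔ γ x ≠ 0 := by
    intro x
    simp [supp]
  have hdisj : ∀ x, x ∈ supp γ → x ∈ M → False := fun x hx hx' =>
    (Finset.disjoint_left.mp hM) hx hx'
  -- the tree
  have hparU : ∀ x ∈ supp γ ∪ M, x ≠ i₀ → par x ∈ supp γ ∪ M := by
    intro x hx hx0
    rcases Finset.mem_union.mp hx with hxJ | hxM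
    · exact h1 x hxJ hx0
    · exact Finset.mem_union_left _ (h2 x hxM)
  let T : SimpleGraph (supp γ ∪ M : Finset (Fin n)) :=
    { Adj := fun x y => (x.1 ≠ i₀ ∧ y.1 = par x.1) ∨ (y.1 ≠ i₀ ∧ x.1 = par y.1)
      symm := ⟨fun x y hxy => hxy.symm⟩
      loopless := ⟨fun x hx => by
        have h5 : x.1 ≠ i₀ ∧ x.1 = par x.1 := by
          rcases hx with hx | hx <;> exact hx
        have h6 := (h3 x.1 x.2 h5.1).2
        rw [← h5.2] at h6
        exact lt_irrefl _ h6⟩ }
  let r : (supp γ ∪ M : Finset (Fin n)) := ⟨i₀, Finset.mem_union_left _ hi₀⟩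
  have hreach : ∀ (m : ℕ) (x : (supp γ ∪ M : Finset (Fin n))), h x.1 = m → T.Reachable x r := by
    intro m
    induction m using Nat.strong_induction_on with
    | _ m ih =>
      intro x hx
      by_cases hx0 : x.1 = i₀
      · have : x = r := Subtype.ext hx0
        rw [this]
      · have h5 := h3 x.1 x.2 hx0
        have h6 : T.Reachable ⟨par x.1, hparU x.1 x.2 hx0⟩ r :=
          ih (h (par x.1)) (by rw [← hx]; exact h5.2) _ rfl
        have h7 : T.Adj x ⟨par x.1, hparU x.1 x.2 hx0⟩ := Or.inl ⟨hx0, rfl⟩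
        exact h7.reachable.trans h6
  have hconn : T.Connected := by
    have : Nonempty (supp γ ∪ M : Finset (Fin n)) := ⟨r⟩
    exact SimpleGraph.Connected.mk (fun x y => (hreach _ x rfl).trans (hreach _ y rfl).symm)
  -- number of edges
  have hcardU : (supp γ ∪ M).card = (supp γ).card + M.card := Finset.card_union_of_disjoint hM
  have hcardJ : 1 ≤ (supp γ).card := Finset.card_pos.mpr ⟨i₀, hi₀⟩
  let E : {x : (supp γ ∪ M : Finset (Fin n)) // x.1 ≠ i₀} →
      Sym2 (supp γ ∪ M : Finset (Fin n)) :=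
    fun x => s(x.1, ⟨par x.1.1, hparU x.1.1 x.1.2 x.2⟩)
  have hE : T.edgeSet = Set.range E := by
    ext s
    induction s using Sym2.ind with
    | _ x y =>
      rw [SimpleGraph.mem_edgeSet]
      constructor
      · rintro (⟨hx0, hy⟩ | ⟨hy0, hx⟩)
        · refine ⟨⟨x, hx0⟩, ?_⟩
          have h5 : (⟨par x.1, hparU x.1 x.2 hx0⟩ : (supp γ ∪ M : Finset (Fin n))) = y :=
            Subtype.ext hy.symm
          show s(x, _) = s(x, y)
          rw [h5]
        · refine ⟨⟨y, hy0⟩, ?_⟩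
          have h5 : (⟨par y.1, hparU y.1 y.2 hy0⟩ : (supp γ ∪ M : Finset (Fin n))) = x :=
            Subtype.ext hx.symm
          show s(y, _) = s(x, y)
          rw [h5, Sym2.eq_swap]
      · rintro ⟨z, hz⟩
        have h5 : s(z.1, (⟨par z.1.1, hparU z.1.1 z.1.2 z.2⟩ : (supp γ ∪ M : Finset (Fin n)))) =
          s(x, y) := hz
        rw [← SimpleGraph.mem_edgeSet, ← h5, SimpleGraph.mem_edgeSet]
        exact Or.inl ⟨z.2, rfl⟩
  have hEinj : Function.Injective E := by
    intro x y hxy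
    have h5 : s(x.1, (⟨par x.1.1, hparU x.1.1 x.1.2 x.2⟩ : (supp γ ∪ M : Finset (Fin n)))) =
      s(y.1, ⟨par y.1.1, hparU y.1.1 y.1.2 y.2⟩) := hxy
    rw [Sym2.eq_iff] at h5
    rcases h5 with ⟨h6, -⟩ | ⟨h6, h7⟩
    · exact Subtype.ext h6
    · exfalso
      have h8 := (h3 x.1.1 x.1.2 x.2).2
      have h9 := (h3 y.1.1 y.1.2 y.2).2
      have h10 : x.1.1 = par y.1.1 := Subtype.ext_iff.mp h6
      have h11 : par x.1.1 = y.1.1 := Subtype.ext_iff.mp h7
      rw [h11] at h8
      rw [← h10] at h9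
      exact lt_asymm h8 h9
  have hcardE : Nat.card T.edgeSet = (supp γ).card - 1 + M.card := by
    rw [hE, Nat.card_range_of_injective hEinj, Nat.card_eq_fintype_card]
    have h5 : Fintype.card {x : (supp γ ∪ M : Finset (Fin n)) // x.1 ≠ i₀} =
        Fintype.card (supp γ ∪ M : Finset (Fin n)) - 1 := by
      have h6 := Fintype.card_subtype_compl
        (fun x : (supp γ ∪ M : Finset (Fin n)) => x = r)
      rw [Fintype.card_subtype_eq] at h6
      rw [← h6]
      apply Fintype.card_congr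
      exact Equiv.subtypeEquivRight (fun x => not_congr
        ⟨fun hx => Subtype.ext hx, fun hx => Subtype.ext_iff.mp hx⟩)
    rw [h5, Fintype.card_coe, hcardU]
    omega
  have htree : T.IsTree := by
    rw [SimpleGraph.isTree_iff_connected_and_card]
    refine ⟨hconn, ?_⟩
    rw [hcardE, Nat.card_eq_fintype_card, Fintype.card_coe, hcardU]
    omega
  -- adjacency facts
  have F1 : ∀ x y : (supp γ ∪ M : Finset (Fin n)), T.Adj x y → adjB ω x.1 y.1 = true := by
    rintro x y (⟨hx0, hy⟩ | ⟨hy0, hx⟩)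
    · rw [hy]; exact (h3 x.1 x.2 hx0).1
    · rw [adjB_comm, hx]; exact (h3 y.1 y.2 hy0).1
  have F2 : ∀ x : (supp γ ∪ M : Finset (Fin n)), x.1 ∈ supp γ → ∀ y, adjB ω x.1 y = true →
      ∃ hy : y ∈ supp γ ∪ M, T.Adj x ⟨y, hy⟩ := by
    intro x hx y hxy
    rcases h4 x.1 hx y hxy with ⟨hx0, hy⟩ | ⟨hyU, hy0, hx'⟩
    · exact ⟨by rw [hy]; exact hparU x.1 x.2 hx0, Or.inl ⟨hx0, hy⟩⟩
    · exact ⟨hyU, Or.inr ⟨hy0, hx'⟩⟩
  have F3 : ∀ x y : (supp γ ∪ M : Finset (Fin n)), x.1 ∈ M → T.Adj x y → y.1 ∈ supp γ := by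
    rintro x y hxM (⟨hx0, hy⟩ | ⟨hy0, hx⟩)
    · rw [hy]; exact h2 x.1 hxM
    · rcases Finset.mem_union.mp y.2 with hyJ | hyM
      · exact hyJ
      · exfalso
        apply hdisj x.1 _ hxM
        rw [hx]; exact h2 y.1 hyM
  -- the equation in `A`
  have heqA : ∀ x : (supp γ ∪ M : Finset (Fin n)),
      (∑ y : (supp γ ∪ M : Finset (Fin n)), if T.Adj x y then γ x.1 - γ y.1 else 0) =
        n • γ x.1 := by
    intro x
    rw [← hval x.1]
    unfold lap
    rw [← Finset.sum_subset (Finset.subset_univ (supp γ ∪ M)), ← Finset.sum_coe_sort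
      (supp γ ∪ M) (fun y => if adjB ω x.1 y = true then γ x.1 - γ y else 0)]
    · apply Finset.sum_congr rfl
      intro y _
      rcases Finset.mem_union.mp x.2 with hxJ | hxM
      · by_cases hxy : T.Adj x y
        · rw [if_pos hxy, if_pos (F1 x y hxy)]
        · rw [if_neg hxy, if_neg]
          intro hxy'
          exact hxy (F2 x hxJ y.1 hxy').2
      · have hγx : γ x.1 = 0 := by
          by_contra hne
          exact hdisj x.1 ((hmemJ _).mpr hne) hxM
        by_cases hγy : γ y.1 = 0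
        · rw [hγx, hγy, sub_zero, ite_self, ite_self]
        · have hyJ : y.1 ∈ supp γ := (hmemJ _).mpr hγy
          by_cases hxy : T.Adj x y
          · rw [if_pos hxy, if_pos (F1 x y hxy)]
          · rw [if_neg hxy, if_neg]
            intro hxy'
            rw [adjB_comm] at hxy'
            exact hxy (F2 y hyJ x.1 hxy').2.symm
    · intro y _ hy
      have hγy : γ y = 0 := by
        by_contra hne
        exact hy (Finset.mem_union_left _ ((hmemJ _).mpr hne))
      rcases Finset.mem_union.mp x.2 with hxJ | hxM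
      · rw [if_neg]
        intro hxy'
        exact hy (F2 x hxJ y hxy').1
      · have hγx : γ x.1 = 0 := by
          by_contra hne
          exact hdisj x.1 ((hmemJ _).mpr hne) hxM
        rw [hγx, hγy, sub_zero, ite_self]
  -- reduction to `ZMod p`
  obtain ⟨B, f, t, ht, i, hi⟩ := Job14.exists_functional hp hk γ ⟨i₀, (hmemJ _).mp hi₀⟩
  let g : (supp γ ∪ M : Finset (Fin n)) → ZMod p := fun x => f ⟨p ^ t • γ x.1, ht x.1⟩
  have hgJ : ∀ x, g x ≠ 0 → x.1 ∈ supp γ := by
    intro x hx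
    rw [hmemJ]
    intro h0
    apply hx
    have h5 : (⟨p ^ t • γ x.1, ht x.1⟩ : B) = 0 := Subtype.ext (by
      show p ^ t • γ x.1 = 0
      rw [h0, smul_zero])
    show f ⟨p ^ t • γ x.1, ht x.1⟩ = 0
    rw [h5, map_zero]
  have hiJ : i ∈ supp γ := by
    rw [hmemJ]
    intro h0
    apply hi
    have h5 : (⟨p ^ t • γ i, ht i⟩ : B) = 0 := Subtype.ext (by
      show p ^ t • γ i = 0
      rw [h0, smul_zero])
    rw [h5, map_zero]
  have heqg : ∀ x : (supp γ ∪ M : Finset (Fin n)),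
      (∑ y : (supp γ ∪ M : Finset (Fin n)), if T.Adj x y then g x - g y else 0) =
        (n : ZMod p) * g x := by
    intro x
    have h5 : (∑ y : (supp γ ∪ M : Finset (Fin n)), if T.Adj x y then
        (⟨p ^ t • γ x.1, ht x.1⟩ : B) - ⟨p ^ t • γ y.1, ht y.1⟩ else 0) =
        n • (⟨p ^ t • γ x.1, ht x.1⟩ : B) := by
      apply Subtype.ext
      rw [AddSubgroup.val_finsetSum]
      show _ = n • (p ^ t • γ x.1)
      rw [smul_comm, ← heqA x, Finset.smul_sum]
      apply Finset.sum_congr rfl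
      intro y _
      split_ifs
      · show p ^ t • γ x.1 - p ^ t • γ y.1 = _
        rw [smul_sub]
      · rw [smul_zero]; rfl
    have h6 := congrArg f h5
    rw [map_sum, map_nsmul, nsmul_eq_mul] at h6
    rw [← h6]
    apply Finset.sum_congr rfl
    intro y _
    split_ifs
    · rw [map_sub]
    · rw [map_zero]
  -- the support of `g` is everything
  have hgne : g ≠ 0 := by
    intro h0
    exact hi (congrFun h0 ⟨i, Finset.mem_union_left _ hiJ⟩)
  obtain ⟨j', e', hj', -, hob⟩ := exists_isObstruction_of_acyclic (p := p) (a := n) T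
    htree.isAcyclic g hgne ((Job26.eig_iff T g _).mpr heqg)
  have h5 := hmin j' e' hob
  have h6 : (Subtype.val '' {x : (supp γ ∪ M : Finset (Fin n)) | g x ≠ 0}) ⊆
      (supp γ : Set (Fin n)) := by
    rintro _ ⟨x, hx, rfl⟩
    exact hgJ x hx
  have h7 : (Subtype.val '' {x : (supp γ ∪ M : Finset (Fin n)) | g x ≠ 0}).ncard =
      {x : (supp γ ∪ M : Finset (Fin n)) | g x ≠ 0}.ncard :=
    Set.ncard_image_of_injective _ Subtype.val_injective
  have h8 : (Subtype.val '' {x : (supp γ ∪ M : Finset (Fin n)) | g x ≠ 0}) =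
      (supp γ : Set (Fin n)) := by
    apply Set.eq_of_subset_of_ncard_le h6
    rw [h7, Set.ncard_coe_finset]
    exact h5.trans hj'
  have h9 : {x : (supp γ ∪ M : Finset (Fin n)) | g x ≠ 0}.ncard = (supp γ).card := by
    rw [← h7, h8, Set.ncard_coe_finset]
  have h10 : ∀ x : (supp γ ∪ M : Finset (Fin n)), x.1 ∈ supp γ → g x ≠ 0 := by
    intro x hx
    have h11 : x.1 ∈ (Subtype.val '' {x : (supp γ ∪ M : Finset (Fin n)) | g x ≠ 0}) := by
      rw [h8]; exact hx
    obtain ⟨y, hy, hxy⟩ := h11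
    rw [← Subtype.ext hxy]
    exact hy
  have h12 := Job14.isObstruction_of_tree (p := p) (a := n) T htree g
    ⟨⟨i, Finset.mem_union_left _ hiJ⟩, hi⟩ (by
      intro x y hxy
      rcases Finset.mem_union.mp x.2 with hxJ | hxM
      · exact Or.inl (h10 x hxJ)
      · exact Or.inr (h10 y (F3 x y hxM hxy))) heqg
  rw [h9, ← Nat.card_coe_set_eq T.edgeSet, hcardE] at h12
  exact h12

end Pool.Agent.Lib.MP_49901c_pr
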