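import Mathlib
import Pool.Agent.Lib.MP_49901c_pr.DenseDefs
import Pool.Agent.Lib.MP_49901c_pr.SmallSum
import Pool.Agent.Lib.MP_49901c_pr.Job13
import Pool.Agent.Lib.MP_49901c_pr.Job14

/-!
# Refined union bound for valid functions with small linked support
-/

namespace Pool.Agent.Lib.MP_49901c_pr

open Finset Filter Topology

namespace Job15

open Job13

theorem Ex_all {ι : Type*} [Fintype ι] [DecidableEq ι] (q : ℝ) (S : Finset ι) (b : Bool) :
    Ex q (fun ω : ι → Bool => if ∀ e ∈ S, ω e = b then (1 : ℝ) else 0) =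
      (if b = true then q else 1 - q) ^ S.card := by
  have h := Ex_prod (A := ℝ) q (fun (e : ι) (c : Bool) =>
    if e ∈ S then (if c = b then (1 : ℝ) else 0) else 1)
  have h2 : (fun ω : ι → Bool => ∏ e, (if e ∈ S then (if ω e = b then (1 : ℝ) else 0) else 1)) =
      fun ω => if ∀ e ∈ S, ω e = b then (1 : ℝ) else 0 := by
    funext ω
    rw [prod_ite_mem, univ_inter]
    by_cases hω : ∀ e ∈ S, ω e = b
    · rw [if_pos hω]
      exact prod_eq_one fun e he => if_pos (hω e he)
    · rw [if_neg hω]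
      push Not at hω
      obtain ⟨e, he, hne⟩ := hω
      exact prod_eq_zero he (if_neg hne)
  rw [h2] at h
  rw [h]
  have h3 : ∀ e : ι, (algebraMap ℝ ℝ q * (if e ∈ S then (if true = b then (1 : ℝ) else 0) else 1) +
      algebraMap ℝ ℝ (1 - q) * (if e ∈ S then (if false = b then (1 : ℝ) else 0) else 1)) =
      if e ∈ S then (if b = true then q else 1 - q) else 1 := by
    intro e
    by_cases he : e ∈ S
    · simp only [if_pos he]
      cases b <;> simp
    · simp only [if_neg he]
      simp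
  rw [prod_congr rfl fun e _ => h3 e, prod_ite_mem, univ_inter, prod_const]

/-- the pairs between `z` and `J` -/
theorem Ex_none {n : ℕ} (J : Finset (Fin n)) (z : Fin n) (hz : z ∉ J) (r : ℝ) :
    Ex r (fun ω : Pr n → Bool => if ∀ u ∈ J, adjB ω z u = false then (1 : ℝ) else 0) =
      (1 - r) ^ J.card := by
  classical
  have hne : ∀ u : {u // u ∈ J}, z ≠ u.1 := fun u hc => hz (hc ▸ u.2)
  have hinj : Function.Injective (fun u : {u // u ∈ J} => mkPair z u.1 (hne u)) := by
    intro u u' huu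
    have h2 := mkPair_mem z u.1 (hne u)
    have h3 := mkPair_mem z u'.1 (hne u')
    simp only at huu
    rw [← huu] at h3
    rcases h2 with ⟨h4, h5⟩ | ⟨h4, h5⟩ <;> rcases h3 with ⟨h6, h7⟩ | ⟨h6, h7⟩
    · exact Subtype.ext (h5.symm.trans h7)
    · exact absurd (h4.symm.trans h6) (hne u')
    · exact absurd (h6.symm.trans h4) (hne u)
    · exact Subtype.ext (h4.symm.trans h6)
  have h1 := Ex_all r (univ.image fun u : {u // u ∈ J} => mkPair z u.1 (hne u)) false
  rw [card_image_of_injective _ hinj, card_univ, Fintype.card_coe] at h1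
  simp only [Bool.false_eq_true, if_false] at h1
  rw [← h1]
  congr 1
  funext ω
  have : (∀ u ∈ J, adjB ω z u = false) ↔
      ∀ e ∈ univ.image fun u : {u // u ∈ J} => mkPair z u.1 (hne u), ω e = false := by
    constructor
    · intro h e he
      obtain ⟨u, -, rfl⟩ := mem_image.1 he
      rw [← adjB_mkPair ω z u.1 (hne u)]
      exact h u.1 u.2
    · intro h u hu
      rw [adjB_mkPair ω z u (hne ⟨u, hu⟩)]
      exact h _ (mem_image.2 ⟨⟨u, hu⟩, mem_univ _, rfl⟩)
  by_cases hc : ∀ u ∈ J, adjB ω z u = false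
  · rw [if_pos hc, if_pos (this.1 hc)]
  · rw [if_neg hc, if_neg (fun h => hc (this.2 h))]

theorem Ex_two {n : ℕ} (v u u' : Fin n) (hu : v ≠ u) (hu' : v ≠ u') (huu : u ≠ u') (r : ℝ) :
    Ex r (fun ω : Pr n → Bool => if adjB ω v u = true ∧ adjB ω v u' = true then (1 : ℝ) else 0) =
      r ^ 2 := by
  classical
  have hne : mkPair v u hu ≠ mkPair v u' hu' := by
    intro hc
    have h2 := mkPair_mem v u hu
    have h3 := mkPair_mem v u' hu'
    rw [← hc] at h3
    rcases h2 with ⟨h4, h5⟩ | ⟨h4, h5⟩ <;> rcases h3 with ⟨h6, h7⟩ | ⟨h6, h7⟩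
    · exact huu (h5.symm.trans h7)
    · exact hu' (h4.symm.trans h6)
    · exact hu (h6.symm.trans h4)
    · exact huu (h4.symm.trans h6)
  have h1 := Ex_all r {mkPair v u hu, mkPair v u' hu'} true
  rw [card_pair hne] at h1
  simp only [if_true] at h1
  rw [← h1]
  congr 1
  funext ω
  rw [adjB_mkPair ω v u hu, adjB_mkPair ω v u' hu']
  simp

/-- the factor for exact trees -/
noncomputable def facO {n : ℕ} (J M : Finset (Fin n))
    (i₀ : Fin n) (par : Fin n → Fin n) (z : Fin n) (ω : Pr n → Bool) : ℝ :=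
  if z = i₀ then 1 else if z ∈ J ∪ M then (if adjB ω z (par z) = true then 1 else 0)
    else (if ∀ u ∈ J, adjB ω z u = false then 1 else 0)

theorem facO_nonneg {n : ℕ} (J M : Finset (Fin n))
    (i₀ : Fin n) (par : Fin n → Fin n) (z : Fin n) (ω : Pr n → Bool) :
    0 ≤ facO J M i₀ par z ω := by
  unfold facO
  split_ifs <;> norm_num

theorem facO_dep {n : ℕ} (J M : Finset (Fin n))
    (i₀ : Fin n) (par : Fin n → Fin n) (z : Fin n) :
    DependsOn (facO J M i₀ par z) (blk J M i₀ par z) := by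
  intro x y hxy
  unfold facO
  by_cases h0 : z = i₀
  · rw [if_pos h0, if_pos h0]
  · rw [if_neg h0, if_neg h0]
    by_cases h1 : z ∈ J ∪ M
    · rw [if_pos h1, if_pos h1]
      rw [adjB_congr (ω := x) (ω' := y) z (par z) fun e he => hxy e ⟨h0, Or.inl ⟨h1, he⟩⟩]
    · rw [if_neg h1, if_neg h1]
      have : ∀ u ∈ J, adjB x z u = adjB y z u := fun u hu =>
        adjB_congr z u fun e he => hxy e ⟨h0, Or.inr ⟨h1, u, hu, he⟩⟩
      by_cases hc : ∀ u ∈ J, adjB x z u = false
      · rw [if_pos hc, if_pos (fun u hu => (this u hu) ▸ hc u hu)]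
      · rw [if_neg hc, if_neg (fun h => hc (fun u hu => (this u hu).symm ▸ h u hu))]

open scoped Classical in
/-- the factor with two edges at `v` -/
noncomputable def fac2 {n : ℕ} {A : Type} [AddCommGroup A] (γ : Fin n → A) (J M : Finset (Fin n))
    (i₀ : Fin n) (par : Fin n → Fin n) (v u u' : Fin n) (z : Fin n) (ω : Pr n → Bool) : ℝ :=
  if z = v then (if adjB ω v u = true ∧ adjB ω v u' = true then 1 else 0) else
    fac γ J M i₀ par z ω

theorem fac2_nonneg {n : ℕ} {A : Type} [AddCommGroup A] (γ : Fin n → A) (J M : Finset (Fin n))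
    (i₀ : Fin n) (par : Fin n → Fin n) (v u u' : Fin n) (z : Fin n) (ω : Pr n → Bool) :
    0 ≤ fac2 γ J M i₀ par v u u' z ω := by
  unfold fac2
  split_ifs
  · norm_num
  · norm_num
  · exact fac_nonneg _ _ _ _ _ _ _

theorem fac2_dep {n : ℕ} {A : Type} [AddCommGroup A] (γ : Fin n → A) (J M : Finset (Fin n))
    (i₀ : Fin n) (hi₀ : i₀ ∈ J) (par : Fin n → Fin n) (v u u' : Fin n) (hv : v ∉ J ∪ M)
    (hu : u ∈ J) (hu' : u' ∈ J) (z : Fin n) :
    DependsOn (fac2 γ J M i₀ par v u u' z) (blk J M i₀ par z) := by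
  intro x y hxy
  unfold fac2
  by_cases h0 : z = v
  · subst h0
    have hz0 : z ≠ i₀ := fun hc => hv (hc ▸ mem_union_left _ hi₀)
    rw [if_pos rfl, if_pos rfl,
      adjB_congr (ω := x) (ω' := y) z u fun e he => hxy e ⟨hz0, Or.inr ⟨hv, u, hu, he⟩⟩,
      adjB_congr (ω := x) (ω' := y) z u' fun e he => hxy e ⟨hz0, Or.inr ⟨hv, u', hu', he⟩⟩]
  · rw [if_neg h0, if_neg h0]
    exact fac_dep γ J M i₀ par z hxy

theorem Ex_prod_facO {n : ℕ} (J M : Finset (Fin n)) (hJM : Disjoint J M)
    (i₀ : Fin n) (hi₀ : i₀ ∈ J) (par : Fin n → Fin n) (h : Fin n → ℕ)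
    (hp : ∀ x ∈ J ∪ M, par x ∈ J ∪ M) (hh : ∀ x ∈ J ∪ M, x ≠ i₀ → h (par x) < h x)
    (r : ℝ) :
    Ex r (fun ω => ∏ z, facO J M i₀ par z ω) = r ^ (J.card - 1 + M.card) *
      (1 - r) ^ (J.card * (n - J.card - M.card)) := by
  classical
  rw [Ex_prod_of_dependsOn r (blk J M i₀ par)
    (fun v w hvw => blk_disj J M i₀ par h hp hh v w hvw) _ (facO_dep J M i₀ par) univ]
  have hi₀U : i₀ ∈ J ∪ M := mem_union_left _ hi₀
  have hterm : ∀ z, Ex r (facO J M i₀ par z) =
      ((if z ∈ (J ∪ M).erase i₀ then r else 1) *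
        (if z ∈ (J ∪ M)ᶜ then (1 - r) ^ J.card else 1)) := by
    intro z
    by_cases hz0 : z = i₀
    · subst hz0
      rw [if_neg (notMem_erase _ _), if_neg (fun hc => (mem_compl.1 hc) hi₀U)]
      have : facO J M z par z = fun _ : Pr n → Bool => (1 : ℝ) := by
        funext ω; unfold facO; rw [if_pos rfl]
      rw [this, Ex_const, mul_one]
    · by_cases hz : z ∈ J ∪ M
      · rw [if_pos (mem_erase.2 ⟨hz0, hz⟩), if_neg (fun hc => (mem_compl.1 hc) hz), mul_one]
        have hne : z ≠ par z := by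
          intro hc
          have := hh z hz hz0
          rw [← hc] at this
          exact lt_irrefl _ this
        have h1 : facO J M i₀ par z = fun ω : Pr n → Bool =>
            if ω (mkPair z (par z) hne) = true then (1 : ℝ) else 0 := by
          funext ω
          unfold facO
          rw [if_neg hz0, if_pos hz, adjB_mkPair ω z (par z) hne]
        rw [h1]
        exact Ex_single r _
      · rw [if_neg (fun hc => hz (mem_of_mem_erase hc)), if_pos (mem_compl.2 hz), one_mul]
        have h1 : facO J M i₀ par z = fun ω : Pr n → Bool =>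
            if ∀ u ∈ J, adjB ω z u = false then (1 : ℝ) else 0 := by
          funext ω
          unfold facO
          rw [if_neg hz0, if_neg hz]
        rw [h1]
        exact Ex_none J z (fun hc => hz (mem_union_left _ hc)) r
  rw [prod_congr rfl fun z _ => hterm z, prod_mul_distrib, prod_ite_mem, prod_ite_mem, univ_inter,
    univ_inter, prod_const, prod_const, card_erase_of_mem hi₀U, card_compl,
    card_union_of_disjoint hJM, Fintype.card_fin, ← pow_mul]
  have : 0 < J.card := card_pos.2 ⟨i₀, hi₀⟩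
  congr 2
  · omega
  · congr 1
    omega

theorem Ex_prod_fac2_le {n : ℕ} {A : Type} [AddCommGroup A] (γ : Fin n → A) (J M : Finset (Fin n))
    (hJ : ∀ u ∈ J, γ u ≠ 0) (hJM : Disjoint J M)
    (i₀ : Fin n) (hi₀ : i₀ ∈ J) (par : Fin n → Fin n) (h : Fin n → ℕ)
    (hp : ∀ x ∈ J ∪ M, par x ∈ J ∪ M) (hh : ∀ x ∈ J ∪ M, x ≠ i₀ → h (par x) < h x)
    (v u u' : Fin n) (hv : v ∉ J ∪ M) (hu : u ∈ J) (hu' : u' ∈ J) (huu : u ≠ u')
    {r : ℝ} (h0 : 0 ≤ r) (h1 : r ≤ 1) :
    Ex r (fun ω => ∏ z, fac2 γ J M i₀ par v u u' z ω) ≤ r ^ (J.card - 1 + M.card) *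
      (r ^ 2 * (1 - J.card * r * (1 - r) ^ (J.card - 1)) ^ (n - J.card - M.card - 1)) := by
  classical
  set c : ℝ := 1 - J.card * r * (1 - r) ^ (J.card - 1) with hc
  rw [Ex_prod_of_dependsOn r (blk J M i₀ par)
    (fun v w hvw => blk_disj J M i₀ par h hp hh v w hvw) _
    (fac2_dep γ J M i₀ hi₀ par v u u' hv hu hu') univ]
  have hi₀U : i₀ ∈ J ∪ M := mem_union_left _ hi₀
  have hvJ : v ∉ J := fun hc => hv (mem_union_left _ hc)
  have hvu : v ≠ u := fun hc => hvJ (hc ▸ hu)
  have hvu' : v ≠ u' := fun hc => hvJ (hc ▸ hu')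
  calc ∏ z, Ex r (fac2 γ J M i₀ par v u u' z) ≤
      ∏ z, ((if z ∈ (J ∪ M).erase i₀ then r else 1) *
        ((if z ∈ ({v} : Finset (Fin n)) then r ^ 2 else 1) *
          (if z ∈ ((J ∪ M)ᶜ).erase v then c else 1))) := by
        apply Finset.prod_le_prod
        · intro z _
          exact Ex_nonneg h0 h1 fun ω => fac2_nonneg _ _ _ _ _ _ _ _ _ _
        · intro z _
          by_cases hzv : z = v
          · subst hzv
            have e : fac2 γ J M i₀ par z u u' z = fun ω : Pr n → Bool =>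
                if adjB ω z u = true ∧ adjB ω z u' = true then (1 : ℝ) else 0 := by
              funext ω; unfold fac2; rw [if_pos rfl]
            rw [e, Ex_two z u u' hvu hvu' huu, if_neg (fun hc => hv (mem_of_mem_erase hc)),
              if_pos (mem_singleton_self _), if_neg (notMem_erase _ _)]
            rw [one_mul, mul_one]
          · have e : fac2 γ J M i₀ par v u u' z = fac γ J M i₀ par z := by
              funext ω; unfold fac2; rw [if_neg hzv]
            rw [e, if_neg (fun hc => hzv (mem_singleton.1 hc)), one_mul]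
            by_cases hz0 : z = i₀
            · subst hz0
              rw [if_neg (notMem_erase _ _), if_neg (fun hc =>
                (mem_compl.1 (mem_of_mem_erase hc)) hi₀U)]
              have : fac γ J M z par z = fun _ : Pr n → Bool => (1 : ℝ) := by
                funext ω; unfold fac; rw [if_pos rfl]
              rw [this, Ex_const, mul_one]
            · by_cases hz : z ∈ J ∪ M
              · rw [if_pos (mem_erase.2 ⟨hz0, hz⟩), if_neg (fun hc =>
                  (mem_compl.1 (mem_of_mem_erase hc)) hz), mul_one]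
                refine le_of_eq (Ex_fac_tree γ J M i₀ par z hz hz0 ?_ r)
                intro hc
                have := hh z hz hz0
                rw [← hc] at this
                exact lt_irrefl _ this
              · rw [if_neg (fun hc => hz (mem_of_mem_erase hc)),
                  if_pos (mem_erase.2 ⟨hzv, mem_compl.2 hz⟩), one_mul]
                exact Ex_fac_out γ J M hJ i₀ hi₀ par z hz h0 h1
    _ = r ^ (J.card - 1 + M.card) * (r ^ 2 * c ^ (n - J.card - M.card - 1)) := by
        rw [prod_mul_distrib, prod_mul_distrib, prod_ite_mem, prod_ite_mem, prod_ite_mem,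
          univ_inter, univ_inter, univ_inter, prod_const, prod_const, prod_const,
          card_erase_of_mem hi₀U, card_erase_of_mem (mem_compl.2 hv), card_compl,
          card_union_of_disjoint hJM, Fintype.card_fin, card_singleton, pow_one]
        have : 0 < J.card := card_pos.2 ⟨i₀, hi₀⟩
        congr 2
        · omega
        · congr 1
          omega

theorem Ex_prod_extra_le {n : ℕ} {A : Type} [AddCommGroup A] (γ : Fin n → A) (J M : Finset (Fin n))
    (hJ : ∀ u ∈ J, γ u ≠ 0) (hJM : Disjoint J M)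
    (i₀ : Fin n) (hi₀ : i₀ ∈ J) (par : Fin n → Fin n) (h : Fin n → ℕ)
    (hp : ∀ x ∈ J ∪ M, par x ∈ J ∪ M) (hh : ∀ x ∈ J ∪ M, x ≠ i₀ → h (par x) < h x)
    (x y : Fin n) (hx : x ∈ J) (hy : y ∈ J ∪ M) (hxy : x ≠ y)
    (hnt : ¬ ((x ≠ i₀ ∧ y = par x) ∨ (y ≠ i₀ ∧ x = par y)))
    {r : ℝ} (h0 : 0 ≤ r) (h1 : r ≤ 1) :
    Ex r (fun ω => (if adjB ω x y = true then (1 : ℝ) else 0) * ∏ z, fac γ J M i₀ par z ω) ≤
      r ^ (J.card - 1 + M.card) *
      (r * (1 - J.card * r * (1 - r) ^ (J.card - 1)) ^ (n - J.card - M.card)) := by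
  classical
  have hx' : x ∈ J ∪ M := mem_union_left _ hx
  have e1 : (fun ω : Pr n → Bool => (if adjB ω x y = true then (1 : ℝ) else 0) *
      ∏ z, fac γ J M i₀ par z ω) = fun ω =>
      (if ω (mkPair x y hxy) = true then (1 : ℝ) else 0) * ∏ z, fac γ J M i₀ par z ω := by
    funext ω
    rw [adjB_mkPair ω x y hxy]
  have hmem := mkPair_mem x y hxy
  rw [e1, Ex_mul_of_dependsOn r {mkPair x y hxy}
    (f := fun ω : Pr n → Bool => if ω (mkPair x y hxy) = true then (1 : ℝ) else 0)
    (g := fun ω => ∏ z, fac γ J M i₀ par z ω)]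
  · have h2 := Ex_prod_fac_le γ J M hJ hJM i₀ hi₀ par h hp hh h0 h1
    have h3 : Ex r (fun ω : Pr n → Bool => if ω (mkPair x y hxy) = true then (1 : ℝ) else 0) = r :=
      Ex_single r _
    rw [h3]
    calc r * Ex r (fun ω => ∏ z, fac γ J M i₀ par z ω) ≤ r * _ := mul_le_mul_of_nonneg_left h2 h0
      _ = _ := by ring
  · intro a b hab
    simp only
    rw [hab _ (Set.mem_singleton _)]
  · intro a b hab
    apply prod_congr rfl
    intro z _
    apply fac_dep γ J M i₀ par z
    intro e he
    apply hab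
    intro hc
    rw [Set.mem_singleton_iff] at hc
    subst hc
    obtain ⟨hz0, hz⟩ := he
    rcases hz with ⟨hz1, hz2⟩ | ⟨hz1, w, hw, hz2⟩
    · apply hnt
      rcases hmem with ⟨a1, a2⟩ | ⟨a1, a2⟩ <;> rcases hz2 with ⟨b1, b2⟩ | ⟨b1, b2⟩
      · have c1 : x = z := a1.symm.trans b1
        have c2 : y = par z := a2.symm.trans b2
        left
        rw [c1]
        exact ⟨hz0, c2⟩
      · have c1 : x = par z := a1.symm.trans b1
        have c2 : y = z := a2.symm.trans b2
        right
        rw [c2]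
        exact ⟨hz0, c1⟩
      · have c1 : y = z := a1.symm.trans b1
        have c2 : x = par z := a2.symm.trans b2
        right
        rw [c1]
        exact ⟨hz0, c2⟩
      · have c1 : y = par z := a1.symm.trans b1
        have c2 : x = z := a2.symm.trans b2
        left
        rw [c2]
        exact ⟨hz0, c1⟩
    · apply hz1
      rcases hmem with ⟨a1, a2⟩ | ⟨a1, a2⟩ <;> rcases hz2 with ⟨b1, b2⟩ | ⟨b1, b2⟩
      · exact (a1.symm.trans b1) ▸ hx'
      · exact (a2.symm.trans b2) ▸ hy
      · exact (a1.symm.trans b1) ▸ hy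
      · exact (a2.symm.trans b2) ▸ hx'

/-- The condition on the parent function. -/
def Cond {n : ℕ} (J M : Finset (Fin n)) (i₀ : Fin n) (par : Fin n → Fin n) : Prop :=
  (∃ h : Fin n → ℕ, ∀ x ∈ J ∪ M, x ≠ i₀ → h (par x) < h x) ∧ (∀ x ∈ J ∪ M, par x ∈ J ∪ M)

/-- Not an edge of the tree. -/
def NonTree {n : ℕ} (i₀ : Fin n) (par : Fin n → Fin n) (x y : Fin n) : Prop :=
  x ≠ y ∧ ¬ ((x ≠ i₀ ∧ y = par x) ∨ (y ≠ i₀ ∧ x = par y))

theorem prod_fac_eq_one {n : ℕ} {A : Type} [AddCommGroup A] [DecidableEq A] (γ : Fin n → A)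
    (J M : Finset (Fin n)) (hJ : ∀ u, u ∈ J ↔ γ u ≠ 0) (i₀ : Fin n)
    (par : Fin n → Fin n) (ω : Pr n → Bool) (hval : Val ω γ)
    (h6 : ∀ x ∈ J ∪ M, x ≠ i₀ → adjB ω x (par x) = true) (z : Fin n) :
    fac γ J M i₀ par z ω = 1 := by
  unfold fac
  by_cases hz0 : z = i₀
  · rw [if_pos hz0]
  · rw [if_neg hz0]
    by_cases hz : z ∈ J ∪ M
    · rw [if_pos hz, if_pos (h6 z hz hz0)]
    · rw [if_neg hz, if_pos]
      have hzJ : z ∉ J := fun hc => hz (mem_union_left _ hc)
      have hγz : γ z = 0 := by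
        by_contra hc; exact hzJ ((hJ z).2 hc)
      have h7 := hval z
      rw [hγz, smul_zero] at h7
      unfold lap at h7
      have h8 : ∀ k, (if adjB ω z k = true then γ z - γ k else 0) =
          -(if adjB ω z k = true then γ k else 0) := by
        intro k
        rw [hγz]
        split_ifs <;> simp
      rw [sum_congr rfl fun k _ => h8 k, sum_neg_distrib, neg_eq_zero,
        ← sum_subset (subset_univ J)] at h7
      · unfold rsum
        rw [← sum_coe_sort J] at h7
        exact h7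
      · intro u _ hu
        have : γ u = 0 := by
          by_contra hc; exact hu ((hJ u).2 hc)
        rw [this]; simp

/-- An outside vertex with a neighbour in `J` has a second one. -/
theorem exists_second {n : ℕ} {A : Type} [AddCommGroup A] (γ : Fin n → A)
    (J : Finset (Fin n)) (hJ : ∀ u, u ∈ J ↔ γ u ≠ 0) (ω : Pr n → Bool) (hval : Val ω γ)
    (v u : Fin n) (hv : v ∉ J) (hu : u ∈ J) (hadj : adjB ω v u = true) :
    ∃ u' ∈ J, u ≠ u' ∧ adjB ω v u' = true := by
  by_contra hcon
  push Not at hcon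
  have hγv : γ v = 0 := by
    by_contra hc; exact hv ((hJ v).2 hc)
  have h7 := hval v
  rw [hγv, smul_zero] at h7
  unfold lap at h7
  rw [sum_eq_single u] at h7
  · rw [if_pos hadj, hγv, zero_sub, neg_eq_zero] at h7
    exact (hJ u).1 hu h7
  · intro k _ hk
    by_cases hkJ : k ∈ J
    · rw [if_neg (hcon k hkJ (Ne.symm hk))]
    · have : γ k = 0 := by
        by_contra hc; exact hkJ ((hJ k).2 hc)
      rw [this, hγv, sub_zero]
      simp
  · intro h
    exact absurd (mem_univ _) h

open scoped Classical in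
theorem exists_split {p : ℕ} (hp : p.Prime) {n : ℕ} {A : Type} [AddCommGroup A]
    (hA : ∃ k, ∀ x : A, p ^ k • x = 0) (γ : Fin n → A) (i₀ : Fin n) (hi₀ : i₀ ∈ supp γ)
    (hmin : ∀ j' e', IsObstruction p n j' e' → (supp γ).card ≤ j')
    (ω : Pr n → Bool) (hval : Val ω γ) (hlink : Linked ω (supp γ)) :
    ∃ M : Finset (Fin n), Disjoint (supp γ) M ∧ M.card < (supp γ).card ∧
      ∃ par ∈ pars (supp γ) M i₀, Cond (supp γ) M i₀ par ∧
      ((IsObstruction p n (supp γ).card ((supp γ).card - 1 + M.card) ∧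
          ∏ z, facO (supp γ) M i₀ par z ω = 1) ∨
        (∃ x ∈ supp γ, ∃ y ∈ supp γ ∪ M, NonTree i₀ par x y ∧ adjB ω x y = true ∧
          ∏ z, fac γ (supp γ) M i₀ par z ω = 1) ∨
        (∃ v, v ∉ supp γ ∪ M ∧ ∃ u ∈ supp γ, ∃ u' ∈ supp γ, u ≠ u' ∧
          ∏ z, fac2 γ (supp γ) M i₀ par v u u' z ω = 1)) := by
  obtain ⟨M, par, h, h1, h2, h3, h4, h5, h6⟩ := exists_parent ω (supp γ) hlink i₀ hi₀
  have hJ : ∀ u, u ∈ supp γ ↔ γ u ≠ 0 := by
    intro u; unfold supp; simp
  have hpm : ∀ x ∈ supp γ ∪ M, par x ∈ supp γ ∪ M := by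
    intro x hx
    by_cases hx0 : x = i₀
    · rw [h5 x (Or.inl hx0)]; exact hx
    · rcases mem_union.1 hx with hx1 | hx1
      · exact h3 x hx1 hx0
      · exact mem_union_left _ (h4 x hx1)
  refine ⟨M, h1, h2, par, ?_, ⟨⟨h, fun x hx hx0 => (h6 x hx hx0).2⟩, hpm⟩, ?_⟩
  · unfold pars
    rw [Fintype.mem_piFinset]
    intro x
    by_cases hx0 : x = i₀
    · rw [if_pos hx0, mem_singleton, h5 x (Or.inl hx0)]
    · rw [if_neg hx0]
      by_cases hxJ : x ∈ supp γ
      · rw [if_pos hxJ]; exact h3 x hxJ hx0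
      · rw [if_neg hxJ]
        by_cases hM : x ∈ M
        · rw [if_pos hM]; exact h4 x hM
        · rw [if_neg hM, mem_singleton]
          exact h5 x (Or.inr (by rw [mem_union]; rintro (hc | hc); exacts [hxJ hc, hM hc]))
  have hfac : ∀ z, fac γ (supp γ) M i₀ par z ω = 1 :=
    prod_fac_eq_one γ (supp γ) M hJ i₀ par ω hval (fun x hx hx0 => (h6 x hx hx0).1)
  by_cases hex : ∀ x ∈ supp γ, ∀ y, adjB ω x y = true →
      (x ≠ i₀ ∧ y = par x) ∨ (y ∈ supp γ ∪ M ∧ y ≠ i₀ ∧ x = par y)
  · left
    refine ⟨isObstruction_of_exact hp hA ω γ hval M h1 i₀ hi₀ par h h3 h4 h6 hex hmin, ?_⟩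
    apply prod_eq_one
    intro z _
    unfold facO
    by_cases hz0 : z = i₀
    · rw [if_pos hz0]
    · rw [if_neg hz0]
      by_cases hz : z ∈ supp γ ∪ M
      · rw [if_pos hz, if_pos (h6 z hz hz0).1]
      · rw [if_neg hz, if_pos]
        intro u hu
        by_contra hc
        rw [Bool.not_eq_false] at hc
        rcases hex u hu z (by rw [adjB_comm]; exact hc) with ⟨_, e⟩ | ⟨e, _⟩
        · exact hz (e ▸ hpm u (mem_union_left _ hu))
        · exact hz e
  · push Not at hex
    obtain ⟨x, hx, y, hxy, ha, hb⟩ := hex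
    right
    by_cases hy : y ∈ supp γ ∪ M
    · left
      refine ⟨x, hx, y, hy, ⟨?_, ?_⟩, hxy, prod_eq_one fun z _ => hfac z⟩
      · rintro rfl
        rw [adjB_self] at hxy
        cases hxy
      · rintro (⟨h7, h8⟩ | ⟨h7, h8⟩)
        · exact ha h7 h8
        · exact hb hy h7 h8
    · right
      have hyJ : y ∉ supp γ := fun hc => hy (mem_union_left _ hc)
      obtain ⟨u', hu', huu, hadj'⟩ := exists_second γ (supp γ) hJ ω hval y x hyJ hx
        (by rw [adjB_comm]; exact hxy)
      refine ⟨y, hy, x, hx, u', hu', huu, ?_⟩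
      apply prod_eq_one
      intro z _
      unfold fac2
      by_cases hzy : z = y
      · rw [if_pos hzy, if_pos ⟨by rw [adjB_comm]; exact hxy, hadj'⟩]
      · rw [if_neg hzy]
        exact hfac z

end Job15

open Job13 Job15

open scoped Classical in
theorem Ex_linked_le_small {p : ℕ} (hp : p.Prime) {n : ℕ} {A : Type} [AddCommGroup A]
    (hA : ∃ k, ∀ x : A, p ^ k • x = 0) {r : ℝ} (h0 : 0 ≤ r) (h1 : r ≤ 1)
    (γ : Fin n → A) {j : ℕ} (hj : (supp γ).card = j) (hj1 : 1 ≤ j)
    (hmin : ∀ j' e', IsObstruction p n j' e' → j ≤ j') :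
    Ex r (fun ω : Pr n → Bool => if Val ω γ ∧ Linked ω (supp γ) then (1 : ℝ) else 0) ≤
      ∑ m ∈ range j, (n.choose m : ℝ) * ((j + m : ℕ) : ℝ) ^ (j - 1) * (j : ℝ) ^ m *
        r ^ (j - 1 + m) *
        ((if IsObstruction p n j (j - 1 + m) then (1 - r) ^ (j * (n - j - m)) else 0) +
          (j * (j + m) : ℕ) * r * (1 - j * r * (1 - r) ^ (j - 1)) ^ (n - j - m) +
          n * (j : ℝ) ^ 2 * r ^ 2 * (1 - j * r * (1 - r) ^ (j - 1)) ^ (n - j - m - 1)) := by
  set J := supp γ with hJdef
  have hJ : ∀ u, u ∈ J ↔ γ u ≠ 0 := by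
    intro u; rw [hJdef]; unfold supp; simp
  obtain ⟨i₀, hi₀⟩ : J.Nonempty := card_pos.1 (by omega)
  have h1r : 0 ≤ 1 - r := by linarith
  set tA : Finset (Fin n) → (Fin n → Fin n) → (Pr n → Bool) → ℝ := fun M par ω =>
    if Cond J M i₀ par ∧ IsObstruction p n j (j - 1 + M.card)
      then ∏ z, facO J M i₀ par z ω else 0 with htA
  set tB : Finset (Fin n) → (Fin n → Fin n) → (Pr n → Bool) → ℝ := fun M par ω =>
    ∑ x ∈ J, ∑ y ∈ J ∪ M, if Cond J M i₀ par ∧ NonTree i₀ par x y
      then (if adjB ω x y = true then (1 : ℝ) else 0) * ∏ z, fac γ J M i₀ par z ω else 0 with htB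
  set tC : Finset (Fin n) → (Fin n → Fin n) → (Pr n → Bool) → ℝ := fun M par ω =>
    ∑ v : Fin n, ∑ u ∈ J, ∑ u' ∈ J, if Cond J M i₀ par ∧ v ∉ J ∪ M ∧ u ≠ u'
      then ∏ z, fac2 γ J M i₀ par v u u' z ω else 0 with htC
  have hA0 : ∀ M par ω, 0 ≤ tA M par ω := by
    intro M par ω
    simp only [htA]
    split_ifs
    · exact prod_nonneg fun z _ => facO_nonneg _ _ _ _ _ _
    · exact le_rfl
  have hB1 : ∀ M par ω x y, 0 ≤ (if Cond J M i₀ par ∧ NonTree i₀ par x y
      then (if adjB ω x y = true then (1 : ℝ) else 0) * ∏ z, fac γ J M i₀ par z ω else 0) := by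
    intro M par ω x y
    have := prod_nonneg fun z (_ : z ∈ (univ : Finset (Fin n))) => fac_nonneg γ J M i₀ par z ω
    split_ifs <;> simp [this]
  have hB0 : ∀ M par ω, 0 ≤ tB M par ω := fun M par ω =>
    sum_nonneg fun x _ => sum_nonneg fun y _ => hB1 M par ω x y
  have hC1 : ∀ M par ω v u u', 0 ≤ (if Cond J M i₀ par ∧ v ∉ J ∪ M ∧ u ≠ u'
      then ∏ z, fac2 γ J M i₀ par v u u' z ω else 0) := by
    intro M par ω v u u'
    split_ifs
    · exact prod_nonneg fun z _ => fac2_nonneg _ _ _ _ _ _ _ _ _ _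
    · exact le_rfl
  have hC0 : ∀ M par ω, 0 ≤ tC M par ω := fun M par ω =>
    sum_nonneg fun v _ => sum_nonneg fun u _ => sum_nonneg fun u' _ => hC1 M par ω v u u'
  set t : Finset (Fin n) → (Fin n → Fin n) → (Pr n → Bool) → ℝ := fun M par ω =>
    tA M par ω + tB M par ω + tC M par ω with ht
  have htn : ∀ M par ω, 0 ≤ t M par ω := fun M par ω => by
    have e1 := hA0 M par ω
    have e2 := hB0 M par ω
    have e3 := hC0 M par ω
    simp only [ht]
    linarith
  set S : ℕ → Finset (Finset (Fin n)) := fun m =>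
    (powersetCard m univ).filter fun M => Disjoint J M with hS
  have hle : ∀ ω : Pr n → Bool, (if Val ω γ ∧ Linked ω J then (1 : ℝ) else 0) ≤
      ∑ m ∈ range j, ∑ M ∈ S m, ∑ par ∈ pars J M i₀, t M par ω := by
    intro ω
    by_cases hv : Val ω γ ∧ Linked ω J
    · rw [if_pos hv]
      obtain ⟨M, hM1, hM2, par, hpar, hcond, hcase⟩ := exists_split hp hA γ i₀ hi₀
        (by rw [← hJdef, hj]; exact hmin) ω hv.1 hv.2
      have e1 : 1 ≤ t M par ω := by
        have e1 := hA0 M par ω
        have e2 := hB0 M par ω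
        have e3 := hC0 M par ω
        simp only [ht]
        rcases hcase with ⟨ho, hpr⟩ | ⟨x, hx, y, hy, hnt, hadj, hpr⟩ | ⟨v, hv', u, hu, u', hu', huu, hpr⟩
        · have : tA M par ω = 1 := by
            simp only [htA]
            rw [if_pos ⟨hcond, by rw [← hj]; exact ho⟩]
            exact hpr
          linarith
        · have : 1 ≤ tB M par ω := by
            simp only [htB]
            calc (1 : ℝ) = (if Cond J M i₀ par ∧ NonTree i₀ par x y
                then (if adjB ω x y = true then (1 : ℝ) else 0) * ∏ z, fac γ J M i₀ par z ω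
                  else 0) := by
                  rw [if_pos ⟨hcond, hnt⟩, if_pos hadj, one_mul]
                  exact hpr.symm
              _ ≤ ∑ y ∈ J ∪ M, (if Cond J M i₀ par ∧ NonTree i₀ par x y
                then (if adjB ω x y = true then (1 : ℝ) else 0) * ∏ z, fac γ J M i₀ par z ω
                  else 0) := single_le_sum (f := fun y => (if Cond J M i₀ par ∧ NonTree i₀ par x y
                then (if adjB ω x y = true then (1 : ℝ) else 0) * ∏ z, fac γ J M i₀ par z ω
                  else 0)) (fun y _ => hB1 M par ω x y) hy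
              _ ≤ _ := single_le_sum (f := fun x => ∑ y ∈ J ∪ M,
                (if Cond J M i₀ par ∧ NonTree i₀ par x y
                then (if adjB ω x y = true then (1 : ℝ) else 0) * ∏ z, fac γ J M i₀ par z ω
                  else 0)) (fun x _ => sum_nonneg fun y _ => hB1 M par ω x y) hx
          linarith
        · have : 1 ≤ tC M par ω := by
            simp only [htC]
            calc (1 : ℝ) = (if Cond J M i₀ par ∧ v ∉ J ∪ M ∧ u ≠ u'
                then ∏ z, fac2 γ J M i₀ par v u u' z ω else 0) := by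
                  rw [if_pos ⟨hcond, hv', huu⟩]
                  exact hpr.symm
              _ ≤ ∑ u' ∈ J, (if Cond J M i₀ par ∧ v ∉ J ∪ M ∧ u ≠ u'
                then ∏ z, fac2 γ J M i₀ par v u u' z ω else 0) :=
                single_le_sum (f := fun u' => (if Cond J M i₀ par ∧ v ∉ J ∪ M ∧ u ≠ u'
                then ∏ z, fac2 γ J M i₀ par v u u' z ω else 0))
                (fun u' _ => hC1 M par ω v u u') hu'
              _ ≤ ∑ u ∈ J, ∑ u' ∈ J, (if Cond J M i₀ par ∧ v ∉ J ∪ M ∧ u ≠ u'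
                then ∏ z, fac2 γ J M i₀ par v u u' z ω else 0) :=
                single_le_sum (f := fun u => ∑ u' ∈ J, (if Cond J M i₀ par ∧ v ∉ J ∪ M ∧ u ≠ u'
                then ∏ z, fac2 γ J M i₀ par v u u' z ω else 0))
                (fun u _ => sum_nonneg fun u' _ => hC1 M par ω v u u') hu
              _ ≤ _ := single_le_sum (f := fun v => ∑ u ∈ J, ∑ u' ∈ J,
                (if Cond J M i₀ par ∧ v ∉ J ∪ M ∧ u ≠ u'
                then ∏ z, fac2 γ J M i₀ par v u u' z ω else 0))
                (fun v _ => sum_nonneg fun u _ => sum_nonneg fun u' _ => hC1 M par ω v u u')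
                (mem_univ v)
          linarith
      calc (1 : ℝ) ≤ t M par ω := e1
        _ ≤ ∑ par ∈ pars J M i₀, t M par ω :=
            single_le_sum (f := fun par => t M par ω) (fun par _ => htn M par ω) hpar
        _ ≤ ∑ M ∈ S M.card, ∑ par ∈ pars J M i₀, t M par ω :=
            single_le_sum (f := fun M => ∑ par ∈ pars J M i₀, t M par ω)
              (fun M _ => sum_nonneg fun par _ => htn M par ω)
              (mem_filter.2 ⟨mem_powersetCard.2 ⟨subset_univ _, rfl⟩, hM1⟩)
        _ ≤ _ := single_le_sum (f := fun m => ∑ M ∈ S m, ∑ par ∈ pars J M i₀, t M par ω)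
              (fun m _ => sum_nonneg fun M _ => sum_nonneg fun par _ => htn M par ω)
              (mem_range.2 (by rw [← hj]; exact hM2))
    · rw [if_neg hv]
      exact sum_nonneg fun m _ => sum_nonneg fun M _ => sum_nonneg fun par _ => htn M par ω
  refine (Ex_mono h0 h1 hle).trans ?_
  rw [Ex_sum]
  apply sum_le_sum
  intro m _
  rw [Ex_sum]
  have hcst := cst_nonneg γ J (fun u hu => (hJ u).1 hu) h0 h1
  rw [hj] at hcst
  set c : ℝ := 1 - j * r * (1 - r) ^ (j - 1) with hc
  set B : ℝ := (if IsObstruction p n j (j - 1 + m) then (1 - r) ^ (j * (n - j - m)) else 0) +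
          (j * (j + m) : ℕ) * r * c ^ (n - j - m) +
          n * (j : ℝ) ^ 2 * r ^ 2 * c ^ (n - j - m - 1) with hB
  have hBn : 0 ≤ B := by
    have e1 : 0 ≤ (if IsObstruction p n j (j - 1 + m) then (1 - r) ^ (j * (n - j - m)) else 0) := by
      split_ifs
      · exact pow_nonneg h1r _
      · exact le_rfl
    have e2 := pow_nonneg hcst (n - j - m)
    have e3 := pow_nonneg hcst (n - j - m - 1)
    positivity
  have hterm : ∀ M ∈ S m, Ex r (fun ω => ∑ par ∈ pars J M i₀, t M par ω) ≤
      ((j + m : ℕ) : ℝ) ^ (j - 1) * (j : ℝ) ^ m * (r ^ (j - 1 + m) * B) := by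
    intro M hM
    rw [mem_filter, mem_powersetCard] at hM
    obtain ⟨⟨-, hMc⟩, hMd⟩ := hM
    rw [Ex_sum]
    have hb : ∀ par ∈ pars J M i₀, Ex r (t M par) ≤ r ^ (j - 1 + m) * B := by
      intro par _
      have hsplit : Ex r (t M par) = Ex r (tA M par) + Ex r (tB M par) + Ex r (tC M par) := by
        simp only [ht]
        unfold Ex
        rw [← sum_add_distrib, ← sum_add_distrib]
        exact sum_congr rfl fun ω _ => by simp only [smul_eq_mul]; ring
      have eA : Ex r (tA M par) ≤ r ^ (j - 1 + m) *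
          (if IsObstruction p n j (j - 1 + m) then (1 - r) ^ (j * (n - j - m)) else 0) := by
        by_cases hh : Cond J M i₀ par ∧ IsObstruction p n j (j - 1 + M.card)
        · have e : tA M par = fun ω => ∏ z, facO J M i₀ par z ω := by
            funext ω
            simp only [htA]
            rw [if_pos hh]
          obtain ⟨⟨⟨h, hh1⟩, hh2⟩, hob⟩ := hh
          rw [e, Ex_prod_facO J M hMd i₀ hi₀ par h hh2 hh1 r, hj, hMc]
          rw [hMc] at hob
          rw [if_pos hob]
        · have e : tA M par = fun _ => 0 := by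
            funext ω
            simp only [htA]
            rw [if_neg hh]
          rw [e, Ex_const]
          apply mul_nonneg (pow_nonneg h0 _)
          split_ifs
          · exact pow_nonneg h1r _
          · exact le_rfl
      have eB : Ex r (tB M par) ≤ r ^ (j - 1 + m) * ((j * (j + m) : ℕ) * r * c ^ (n - j - m)) := by
        have e1 : Ex r (tB M par) = ∑ x ∈ J, ∑ y ∈ J ∪ M, Ex r (fun ω =>
            if Cond J M i₀ par ∧ NonTree i₀ par x y then
              (if adjB ω x y = true then (1 : ℝ) else 0) * ∏ z, fac γ J M i₀ par z ω else 0) := by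
          simp only [htB]
          rw [Ex_sum]
          exact sum_congr rfl fun x _ => Ex_sum _ _ _
        have e2 : ∀ x ∈ J, ∀ y ∈ J ∪ M, Ex r (fun ω =>
            if Cond J M i₀ par ∧ NonTree i₀ par x y then
              (if adjB ω x y = true then (1 : ℝ) else 0) * ∏ z, fac γ J M i₀ par z ω else 0) ≤
            r ^ (j - 1 + m) * (r * c ^ (n - j - m)) := by
          intro x hx y hy
          by_cases hh : Cond J M i₀ par ∧ NonTree i₀ par x y
          · simp only [if_pos hh]
            obtain ⟨⟨⟨h, hh1⟩, hh2⟩, hne, hnt⟩ := hh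
            have := Ex_prod_extra_le γ J M (fun u hu => (hJ u).1 hu) hMd i₀ hi₀ par h hh2 hh1
              x y hx hy hne hnt h0 h1
            rwa [hj, hMc] at this
          · simp only [if_neg hh]
            rw [Ex_const]
            exact mul_nonneg (pow_nonneg h0 _) (mul_nonneg h0 (pow_nonneg hcst _))
        rw [e1]
        calc ∑ x ∈ J, ∑ y ∈ J ∪ M, Ex r (fun ω =>
            if Cond J M i₀ par ∧ NonTree i₀ par x y then
              (if adjB ω x y = true then (1 : ℝ) else 0) * ∏ z, fac γ J M i₀ par z ω else 0)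
            ≤ ∑ x ∈ J, ∑ y ∈ J ∪ M, r ^ (j - 1 + m) * (r * c ^ (n - j - m)) :=
              sum_le_sum fun x hx => sum_le_sum fun y hy => e2 x hx y hy
          _ = _ := by
              rw [sum_const, sum_const, card_union_of_disjoint hMd, hj, hMc, nsmul_eq_mul,
                nsmul_eq_mul]
              push_cast
              ring
      have eC : Ex r (tC M par) ≤ r ^ (j - 1 + m) *
          (n * (j : ℝ) ^ 2 * r ^ 2 * c ^ (n - j - m - 1)) := by
        have e1 : Ex r (tC M par) = ∑ v : Fin n, ∑ u ∈ J, ∑ u' ∈ J, Ex r (fun ω =>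
            if Cond J M i₀ par ∧ v ∉ J ∪ M ∧ u ≠ u' then
              ∏ z, fac2 γ J M i₀ par v u u' z ω else 0) := by
          simp only [htC]
          rw [Ex_sum]
          refine sum_congr rfl fun v _ => ?_
          rw [Ex_sum]
          exact sum_congr rfl fun x _ => Ex_sum _ _ _
        have e2 : ∀ v : Fin n, ∀ u ∈ J, ∀ u' ∈ J, Ex r (fun ω =>
            if Cond J M i₀ par ∧ v ∉ J ∪ M ∧ u ≠ u' then
              ∏ z, fac2 γ J M i₀ par v u u' z ω else 0) ≤
            r ^ (j - 1 + m) * (r ^ 2 * c ^ (n - j - m - 1)) := by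
          intro v u hu u' hu'
          by_cases hh : Cond J M i₀ par ∧ v ∉ J ∪ M ∧ u ≠ u'
          · simp only [if_pos hh]
            obtain ⟨⟨⟨h, hh1⟩, hh2⟩, hv, huu⟩ := hh
            have := Ex_prod_fac2_le γ J M (fun u hu => (hJ u).1 hu) hMd i₀ hi₀ par h hh2 hh1
              v u u' hv hu hu' huu h0 h1
            rwa [hj, hMc] at this
          · simp only [if_neg hh]
            rw [Ex_const]
            exact mul_nonneg (pow_nonneg h0 _) (mul_nonneg (pow_nonneg h0 _) (pow_nonneg hcst _))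
        rw [e1]
        calc ∑ v : Fin n, ∑ u ∈ J, ∑ u' ∈ J, Ex r (fun ω =>
            if Cond J M i₀ par ∧ v ∉ J ∪ M ∧ u ≠ u' then
              ∏ z, fac2 γ J M i₀ par v u u' z ω else 0)
            ≤ ∑ v : Fin n, ∑ u ∈ J, ∑ u' ∈ J, r ^ (j - 1 + m) * (r ^ 2 * c ^ (n - j - m - 1)) :=
              sum_le_sum fun v _ => sum_le_sum fun u hu => sum_le_sum fun u' hu' => e2 v u hu u' hu'
          _ = _ := by
              rw [sum_const, sum_const, sum_const, hj, card_univ, Fintype.card_fin, nsmul_eq_mul,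
                nsmul_eq_mul, nsmul_eq_mul]
              ring
      rw [hsplit, hB]
      calc Ex r (tA M par) + Ex r (tB M par) + Ex r (tC M par) ≤
          r ^ (j - 1 + m) *
          (if IsObstruction p n j (j - 1 + m) then (1 - r) ^ (j * (n - j - m)) else 0) +
          r ^ (j - 1 + m) * ((j * (j + m) : ℕ) * r * c ^ (n - j - m)) +
          r ^ (j - 1 + m) * (n * (j : ℝ) ^ 2 * r ^ 2 * c ^ (n - j - m - 1)) := by
            linarith
        _ = _ := by ring
    refine (sum_le_sum hb).trans (le_of_eq ?_)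
    rw [sum_const, nsmul_eq_mul, card_pars J M hMd i₀ hi₀, hj, hMc]
    push_cast
    ring
  refine (sum_le_sum hterm).trans ?_
  rw [sum_const, nsmul_eq_mul]
  have hcard : ((S m).card : ℝ) ≤ (n.choose m : ℝ) := by
    have : (S m).card ≤ (powersetCard m (univ : Finset (Fin n))).card := card_filter_le _ _
    rw [card_powersetCard, card_univ, Fintype.card_fin] at this
    exact_mod_cast this
  calc _ ≤ (n.choose m : ℝ) * (((j + m : ℕ) : ℝ) ^ (j - 1) * (j : ℝ) ^ m *
        (r ^ (j - 1 + m) * B)) :=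
        mul_le_mul_of_nonneg_right hcard (by positivity)
    _ = _ := by ring

end Pool.Agent.Lib.MP_49901c_pr
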