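import Mathlib
import Pool.Agent.Lib.MP_49901c_pr.DenseDefs
import Pool.Agent.Lib.MP_49901c_pr.SmallSum

/-!
# Small supports: passing to the complement
-/

namespace Pool.Agent.Lib.MP_49901c_pr

open Finset Filter Topology

namespace Job16

/-- Rows outside `J` are independent. -/
theorem Ex_rows_le {n : ℕ} {q : ℝ} (h0 : 0 ≤ q) (h1 : q ≤ 1) (J : Finset (Fin n)) {j : ℕ}
    (hj : J.card = j) (hne : ∀ (v : {v : Fin n // v ∉ J}) (u : {u // u ∈ J}), v.1 ≠ u.1)
    (h : ({u // u ∈ J} → Bool) → ℝ) (hh : ∀ x, 0 ≤ h x) (c : ℝ) (hc : Ex q h ≤ c)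
    (F : (Pr n → Bool) → ℝ)
    (hF : ∀ ω, F ω ≤ ∏ v : {v : Fin n // v ∉ J}, h (fun u => ω (mkPair v.1 u.1 (hne v u)))) :
    Ex q F ≤ c ^ (n - j) := by
  classical
  set V := {v : Fin n // v ∉ J} with hV
  set f : V → (Pr n → Bool) → ℝ := fun v ω => h (fun u => ω (mkPair v.1 u.1 (hne v u))) with hf
  set B : V → Set (Pr n) := fun v => {e | ∃ u : {u // u ∈ J}, e = mkPair v.1 u.1 (hne v u)}
    with hB
  have hdisj : ∀ v w : V, v ≠ w → Disjoint (B v) (B w) := by
    intro v w hvw
    rw [Set.disjoint_left]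
    rintro e ⟨u, rfl⟩ ⟨u', hu'⟩
    have h2 := mkPair_mem v.1 u.1 (hne v u)
    have h3 := mkPair_mem w.1 u'.1 (hne w u')
    rw [← hu'] at h3
    rcases h2 with ⟨h4, h5⟩ | ⟨h4, h5⟩ <;> rcases h3 with ⟨h6, h7⟩ | ⟨h6, h7⟩
    · exact hvw (Subtype.ext (h4.symm.trans h6))
    · exact hne v u' (h4.symm.trans h6)
    · exact hne w u (h6.symm.trans h4)
    · exact hvw (Subtype.ext (h5.symm.trans h7))
  have hdep : ∀ v : V, DependsOn (f v) (B v) := by
    intro v x y hxy
    simp only [hf]
    have : (fun u : {u // u ∈ J} => x (mkPair v.1 u.1 (hne v u))) =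
        fun u : {u // u ∈ J} => y (mkPair v.1 u.1 (hne v u)) := by
      funext u
      exact hxy _ ⟨u, rfl⟩
    rw [this]
  refine (Ex_mono h0 h1 hF).trans ?_
  rw [Ex_prod_of_dependsOn q B hdisj f hdep univ]
  have hE : ∀ v : V, Ex q (f v) ≤ c := by
    intro v
    have hinj : Function.Injective (fun u : {u // u ∈ J} => mkPair v.1 u.1 (hne v u)) := by
      intro u u' huu
      have h2 := mkPair_mem v.1 u.1 (hne v u)
      have h3 := mkPair_mem v.1 u'.1 (hne v u')
      simp only at huu
      rw [← huu] at h3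
      rcases h2 with ⟨h4, h5⟩ | ⟨h4, h5⟩ <;> rcases h3 with ⟨h6, h7⟩ | ⟨h6, h7⟩
      · exact Subtype.ext (h5.symm.trans h7)
      · exact absurd (h4.symm.trans h6) (hne v u')
      · exact absurd (h6.symm.trans h4) (hne v u)
      · exact Subtype.ext (h4.symm.trans h6)
    have h2 := Ex_comp_injective q (fun u : {u // u ∈ J} => mkPair v.1 u.1 (hne v u)) hinj h
    have h3 : Ex q (f v) = Ex q h := by
      rw [← h2]
    rw [h3]
    exact hc
  calc ∏ v : V, Ex q (f v) ≤ ∏ _v : V, c := by
        apply Finset.prod_le_prod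
        · intro v _
          apply Ex_nonneg h0 h1
          intro ω
          exact hh _
        · intro v _
          exact hE v
    _ = c ^ (n - j) := by
        rw [prod_const, card_univ]
        congr 1
        have hVc := Fintype.card_subtype_compl (fun v : Fin n => v ∈ J)
        rw [Fintype.card_fin, Fintype.card_coe, hj] at hVc
        rw [← hVc]

/-- Laplacian of the complement. -/
theorem lap_add_lap_neg {n : ℕ} {A : Type*} [AddCommGroup A] (ω : Pr n → Bool) (g : Fin n → A)
    (i : Fin n) : lap ω g i + lap (neg ω) g i = n • g i - ∑ k, g k := by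
  unfold lap
  rw [← sum_add_distrib]
  have h1 : ∀ k, ((if adjB ω i k then g i - g k else 0) + if adjB (neg ω) i k then g i - g k else 0)
      = g i - g k := by
    intro k
    by_cases hk : i = k
    · subst hk
      rw [adjB_self, adjB_self]; simp
    · rw [adjB_mkPair ω i k hk, adjB_mkPair (neg ω) i k hk]
      unfold neg
      cases ω (mkPair i k hk) <;> simp
  rw [sum_congr rfl fun k _ => h1 k, sum_sub_distrib]
  simp

theorem Ex_neg {n : ℕ} (q : ℝ) (f : (Pr n → Bool) → ℝ) :
    Ex q f = Ex (1 - q) (fun ω => f (neg ω)) := by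
  unfold Ex
  rw [← Equiv.sum_comp (Equiv.arrowCongr (Equiv.refl (Pr n)) Equiv.boolNot)
    (fun ω => wt q ω • f ω)]
  apply sum_congr rfl
  intro ω _
  have h1 : (Equiv.arrowCongr (Equiv.refl (Pr n)) Equiv.boolNot) ω = neg ω := rfl
  rw [h1]
  congr 1
  have := wt_not (1 - q) ω
  rw [sub_sub_cancel] at this
  exact this

open scoped Classical in
theorem Ex_lap_small {n : ℕ} {A : Type} [AddCommGroup A] {q : ℝ} (h0 : 0 ≤ q) (h1 : q ≤ 1)
    (γ : Fin n → A) {j : ℕ} (hj : (univ.filter fun i => γ i ≠ 0).card = j) :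
    Ex q (fun ω : Pr n → Bool => if ∀ i, lap ω γ i = 0 then (1 : ℝ) else 0) ≤
      Ex (1 - q) (fun ω : Pr n → Bool => if Val ω γ then (1 : ℝ) else 0) +
        (j * (1 - q)) ^ (n - j) := by
  rw [Ex_neg]
  by_cases hs : ∑ k, γ k = 0
  · have h2 : (fun ω : Pr n → Bool => if ∀ i, lap (neg ω) γ i = 0 then (1 : ℝ) else 0) =
        fun ω : Pr n → Bool => if Val ω γ then (1 : ℝ) else 0 := by
      funext ω
      have : (∀ i, lap (neg ω) γ i = 0) ↔ Val ω γ := by
        unfold Val
        refine forall_congr' fun i => ?_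
        have := lap_add_lap_neg ω γ i
        rw [hs, sub_zero] at this
        constructor
        · intro h; rw [h, add_zero] at this; exact this
        · intro h; rw [h] at this; exact add_eq_left.1 this
      simp only [this]
    rw [h2]
    have : 0 ≤ ((j : ℝ) * (1 - q)) ^ (n - j) := pow_nonneg (mul_nonneg (by positivity) (by linarith)) _
    linarith
  · have hE : 0 ≤ Ex (1 - q) (fun ω : Pr n → Bool => if Val ω γ then (1 : ℝ) else 0) := by
      apply Ex_nonneg (by linarith) (by linarith)
      intro ω; split_ifs <;> norm_num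
    refine le_trans ?_ (le_add_of_nonneg_left hE)
    set J : Finset (Fin n) := univ.filter fun i => γ i ≠ 0 with hJdef
    have hmem : ∀ i, i ∈ J ↔ γ i ≠ 0 := by
      intro i
      rw [hJdef, mem_filter]
      simp
    have hne : ∀ (v : {v : Fin n // v ∉ J}) (u : {u // u ∈ J}), v.1 ≠ u.1 := by
      intro v u h
      exact v.2 (h ▸ u.2)
    refine Ex_rows_le (by linarith) (by linarith) J hj hne
      (fun x => if rsum (fun u : {u // u ∈ J} => γ u) x = ∑ k, γ k then (1 : ℝ) else 0)
      (fun x => by split_ifs <;> norm_num) _ ?_ _ ?_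
    · refine (Ex_rsum_ne_le (by linarith) (by linarith) _ hs).trans (le_of_eq ?_)
      rw [Fintype.card_coe, hj]
    · intro ω
      split_ifs with h
      · apply le_of_eq
        symm
        apply prod_eq_one
        intro v _
        rw [if_pos]
        have h3 : γ v.1 = 0 := by
          have h31 := v.2
          by_contra h32
          exact h31 ((hmem _).mpr h32)
        have h2 := lap_add_lap_neg ω γ v.1
        rw [h v.1, add_zero, h3, smul_zero, zero_sub] at h2
        unfold lap at h2
        have h4 : ∑ j, (if adjB ω v.1 j then γ v.1 - γ j else 0) =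
            -∑ u : {u // u ∈ J}, (if ω (mkPair v.1 u.1 (hne v u)) then γ u else 0) := by
          have h5 : ∀ j, (if adjB ω v.1 j then γ v.1 - γ j else 0) =
              -(if adjB ω v.1 j then γ j else 0) := by
            intro j
            rw [h3]
            split_ifs <;> simp
          rw [sum_congr rfl fun j _ => h5 j, sum_neg_distrib]
          congr 1
          rw [← sum_subset (subset_univ J)]
          · rw [← sum_coe_sort J]
            apply sum_congr rfl
            intro u _
            rw [adjB_mkPair ω v.1 u.1 (hne v u)]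
          · intro u _ hu
            have : γ u = 0 := by
              by_contra h32
              exact hu ((hmem _).mpr h32)
            rw [this]
            simp
        rw [h4, neg_inj] at h2
        exact h2
      · apply prod_nonneg
        intro v _
        split_ifs <;> norm_num

end Job16

open Job16

open scoped Classical in
theorem smallSum_le_dense {n : ℕ} {A : Type} [AddCommGroup A] [Fintype A] {q : ℝ}
    (h0 : 1 / 2 ≤ q) (h1 : q < 1) (t K : ℕ) :
    smallSum q n A K ≤ valSum (1 - q) n A t +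
      ∑ j ∈ Icc 1 t, (n.choose j : ℝ) * (Fintype.card A : ℝ) ^ j * (j * (1 - q)) ^ (n - j) +
      ∑ j ∈ Icc (t + 1) K, ((n.choose j : ℝ) * (Fintype.card A : ℝ) ^ j *
        (bfun j (1 - q)) ^ (n - j) +
        (n.choose j : ℝ) * (Fintype.card A : ℝ) ^ j * (7 / 8 : ℝ) ^ (n - j)) := by
  have hq0 : 0 < q := by linarith
  have hmin : min q (1 - q) = 1 - q := min_eq_right (by linarith)
  have hbpos : ∀ j : ℕ, 0 < bfun j (1 - q) := by
    intro j
    unfold bfun
    split_ifs with h
    · have h2 : (1 - (1 - q)) ^ (j - 1) ≤ 1 := pow_le_one₀ (by linarith) (by linarith)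
      have h3 : 0 ≤ (j : ℝ) * (1 - q) := mul_nonneg (by positivity) (by linarith)
      have h4 : (j : ℝ) * (1 - q) * (1 - (1 - q)) ^ (j - 1) ≤
          (j : ℝ) * (1 - q) * 1 := mul_le_mul_of_nonneg_left h2 h3
      linarith
    · norm_num
  have hr : 0 ≤ 1 - q := by linarith
  have hpow : ∀ j : ℕ, 0 ≤ ((j : ℝ) * (1 - q)) ^ (n - j) := fun j =>
    pow_nonneg (mul_nonneg (by positivity) hr) _
  unfold smallSum valSum
  have h2 : ∀ γ : Fin n → A, (if γ ≠ 0 ∧ (univ.filter fun i => γ i ≠ 0).card ≤ K then
      Ex q (fun ω : Pr n → Bool => if ∀ i, lap ω γ i = 0 then (1 : ℝ) else 0) else 0) ≤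
      (if γ ≠ 0 ∧ (supp γ).card ≤ t then
        Ex (1 - q) (fun ω : Pr n → Bool => if Val ω γ then (1 : ℝ) else 0) else 0) +
      (∑ j ∈ Icc 1 t, if (univ.filter fun i => γ i ≠ 0).card = j then
        (j * (1 - q)) ^ (n - j) else 0) +
      ∑ j ∈ Icc (t + 1) K, if (univ.filter fun i => γ i ≠ 0).card = j then
        (max (bfun j (1 - q)) (7 / 8)) ^ (n - j) else 0 := by
    intro γ
    have hsupp : supp γ = univ.filter fun i => γ i ≠ 0 := by
      unfold supp
      ext i; simp
    rw [hsupp]
    have hnn : ∀ j ∈ Icc 1 t, 0 ≤ (if (univ.filter fun i => γ i ≠ 0).card = j then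
        ((j : ℝ) * (1 - q)) ^ (n - j) else 0) := by
      intro j _
      split_ifs
      · exact hpow j
      · exact le_rfl
    have hnn' : ∀ j ∈ Icc (t + 1) K, 0 ≤ (if (univ.filter fun i => γ i ≠ 0).card = j then
        (max (bfun j (1 - q)) (7 / 8)) ^ (n - j) else 0) := by
      intro j _
      split_ifs
      · exact pow_nonneg ((hbpos j).le.trans (le_max_left _ _)) _
      · exact le_rfl
    have hE : 0 ≤ Ex (1 - q) (fun ω : Pr n → Bool => if Val ω γ then (1 : ℝ) else 0) := by
      apply Ex_nonneg (by linarith) (by linarith)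
      intro ω; split_ifs <;> norm_num
    have hv : 0 ≤ (if γ ≠ 0 ∧ (univ.filter fun i => γ i ≠ 0).card ≤ t then
        Ex (1 - q) (fun ω : Pr n → Bool => if Val ω γ then (1 : ℝ) else 0) else 0) := by
      split_ifs
      · exact hE
      · exact le_rfl
    split_ifs with h hc hc
    · have h3 : 1 ≤ (univ.filter fun i => γ i ≠ 0).card := by
        rw [Nat.one_le_iff_ne_zero, Ne, card_eq_zero, filter_eq_empty_iff]
        intro h4
        apply h.1
        funext i
        have := h4 (mem_univ i)
        push Not at this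
        exact this
      have h5 := Ex_lap_small hq0.le h1.le γ rfl
      have h6 := single_le_sum hnn (mem_Icc.mpr ⟨h3, hc.2⟩)
      rw [if_pos rfl] at h6
      have h7 := sum_nonneg hnn'
      linarith
    · have h3 : t < (univ.filter fun i => γ i ≠ 0).card := by
        by_contra hcon
        exact hc ⟨h.1, not_lt.mp hcon⟩
      have h6 := single_le_sum hnn' (mem_Icc.mpr ⟨h3, h.2⟩)
      rw [if_pos rfl] at h6
      have h7 := sum_nonneg hnn
      have h8 := Ex_lap_le hq0 h1 γ rfl
      rw [hmin] at h8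
      linarith
    · have h7 := sum_nonneg hnn
      have h8 := sum_nonneg hnn'
      linarith
    · have h7 := sum_nonneg hnn
      have h8 := sum_nonneg hnn'
      linarith
  refine (sum_le_sum fun γ _ => h2 γ).trans ?_
  rw [sum_add_distrib, sum_add_distrib]
  have hcard : ∀ j : ℕ, (((univ.filter fun γ : Fin n → A =>
      (univ.filter fun i => γ i ≠ 0).card = j).card : ℕ) : ℝ) ≤
      (n.choose j : ℝ) * (Fintype.card A : ℝ) ^ j := fun j => by
    exact_mod_cast card_support_le (n := n) (A := A) j
  refine add_le_add (add_le_add le_rfl ?_) ?_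
  · rw [sum_comm]
    apply sum_le_sum
    intro j _
    rw [← sum_filter, sum_const, nsmul_eq_mul]
    exact mul_le_mul_of_nonneg_right (hcard j) (hpow j)
  · rw [sum_comm]
    apply sum_le_sum
    intro j _
    rw [← sum_filter, sum_const, nsmul_eq_mul]
    have h6 : (max (bfun j (1 - q)) (7 / 8)) ^ (n - j) ≤
        (bfun j (1 - q)) ^ (n - j) + (7 / 8 : ℝ) ^ (n - j) := by
      have h7 : 0 ≤ (bfun j (1 - q)) ^ (n - j) := pow_nonneg (hbpos j).le _
      have h8 : (0 : ℝ) ≤ (7 / 8 : ℝ) ^ (n - j) := by positivity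
      rcases max_choice (bfun j (1 - q)) (7 / 8) with h | h <;> rw [h] <;> linarith
    calc _ ≤ (n.choose j : ℝ) * (Fintype.card A : ℝ) ^ j *
          (max (bfun j (1 - q)) (7 / 8)) ^ (n - j) :=
          mul_le_mul_of_nonneg_right (hcard j) (pow_nonneg ((hbpos j).le.trans (le_max_left _ _)) _)
      _ ≤ (n.choose j : ℝ) * (Fintype.card A : ℝ) ^ j *
          ((bfun j (1 - q)) ^ (n - j) + (7 / 8 : ℝ) ^ (n - j)) :=
          mul_le_mul_of_nonneg_left h6 (by positivity)
      _ = _ := by ring

end Pool.Agent.Lib.MP_49901c_pr
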