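import Mathlib

/-!
# Job 17: a double sum tends to zero
-/

namespace Pool.Agent.Lib.MP_49901c_pr

open Finset Filter Topology

namespace Job17

theorem sub_le_natSub (n k : ℕ) : (n : ℝ) - k ≤ ((n - k : ℕ) : ℝ) := by
  have h : n ≤ (n - k) + k := le_tsub_add
  have h' : (n : ℝ) ≤ ((n - k : ℕ) : ℝ) + k := by exact_mod_cast h
  linarith

theorem base_nonneg {j : ℕ} {r : ℝ} (h0 : 0 < r) (h1 : r < 1) (hjr : j * r ≤ 1) :
    0 ≤ 1 - j * r * (1 - r) ^ (j - 1) := by
  have h2 : (1 - r) ^ (j - 1) ≤ 1 := pow_le_one₀ (by linarith) (by linarith)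
  have h3 : j * r * (1 - r) ^ (j - 1) ≤ j * r := mul_le_of_le_one_right (by positivity) h2
  linarith

theorem bpow {n j k : ℕ} {r : ℝ} (h0 : 0 < r) (h1 : r < 1) (hjr : j * r ≤ 1)
    (hE : r * k + j * r * (n * r) ≤ 1) :
    (1 - j * r * (1 - r) ^ (j - 1)) ^ (n - k) ≤ Real.exp (-(j * (n * r)) + j) := by
  have hb := base_nonneg h0 h1 hjr
  have hpow : 1 - j * r ≤ (1 - r) ^ (j - 1) := by
    have h2 := one_add_mul_le_pow (a := -r) (by linarith) (j - 1)
    have h3 : ((j - 1 : ℕ) : ℝ) ≤ j := by exact_mod_cast Nat.sub_le j 1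
    have h4 : ((j - 1 : ℕ) : ℝ) * r ≤ j * r := mul_le_mul_of_nonneg_right h3 h0.le
    have h5 : (1 : ℝ) + -r = 1 - r := by ring
    rw [h5] at h2
    linarith
  have hbe : 1 - j * r * (1 - r) ^ (j - 1) ≤ Real.exp (-(j * r * (1 - j * r))) := by
    calc 1 - j * r * (1 - r) ^ (j - 1) ≤ 1 - j * r * (1 - j * r) := by
          have := mul_le_mul_of_nonneg_left hpow (show 0 ≤ (j : ℝ) * r by positivity)
          linarith
      _ ≤ _ := Real.one_sub_le_exp_neg _
  calc (1 - j * r * (1 - r) ^ (j - 1)) ^ (n - k)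
      ≤ (Real.exp (-(j * r * (1 - j * r)))) ^ (n - k) := pow_le_pow_left₀ hb hbe _
    _ = Real.exp (((n - k : ℕ) : ℝ) * (-(j * r * (1 - j * r)))) := (Real.exp_nat_mul _ _).symm
    _ ≤ Real.exp (-(j * (n * r)) + j) := by
        apply Real.exp_le_exp.mpr
        have hx : 0 ≤ j * r * (1 - j * r) := mul_nonneg (by positivity) (by linarith)
        have h2 := mul_le_mul_of_nonneg_right (sub_le_natSub n k) hx
        have h3 : 0 ≤ (j : ℝ) * r * (k * (j * r)) := by positivity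
        have h4 := mul_le_mul_of_nonneg_left hE (show 0 ≤ (j : ℝ) by positivity)
        nlinarith [h2, h3, h4]

theorem qpow {n j k : ℕ} {r : ℝ} (h0 : 0 < r) (h1 : r < 1) (hE : r * k ≤ 1) :
    (1 - r) ^ (j * (n - k)) ≤ Real.exp (-(j * (n * r)) + j) := by
  calc (1 - r) ^ (j * (n - k)) ≤ (Real.exp (-r)) ^ (j * (n - k)) :=
        pow_le_pow_left₀ (by linarith) (Real.one_sub_le_exp_neg _) _
    _ = Real.exp (((j * (n - k) : ℕ) : ℝ) * (-r)) := (Real.exp_nat_mul _ _).symm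
    _ ≤ Real.exp (-(j * (n * r)) + j) := by
        apply Real.exp_le_exp.mpr
        rw [Nat.cast_mul]
        have h2 := mul_le_mul_of_nonneg_left (sub_le_natSub n k) (show 0 ≤ (j : ℝ) * r by positivity)
        have h4 := mul_le_mul_of_nonneg_left hE (show 0 ≤ (j : ℝ) by positivity)
        nlinarith [h2, h4]

theorem invpow {j t : ℕ} {r : ℝ} (h0 : 0 < r) (h1 : r ≤ 1 / 2) (hE : 2 * (t * r) ≤ 1) :
    ((1 - r)⁻¹) ^ (j * t) ≤ Real.exp j := by
  have h2 : (1 - r)⁻¹ ≤ Real.exp (2 * r) := by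
    rw [inv_le_comm₀ (by linarith) (Real.exp_pos _), ← Real.exp_neg]
    -- exp (-2r) ≤ 1 - r
    have h3 : Real.exp (-(2 * r)) * (1 + 2 * r) ≤ 1 := by
      have h4 := Real.add_one_le_exp (2 * r)
      have h5 : Real.exp (-(2 * r)) * Real.exp (2 * r) = 1 := by
        rw [← Real.exp_add]; simp
      calc Real.exp (-(2 * r)) * (1 + 2 * r) ≤ Real.exp (-(2 * r)) * Real.exp (2 * r) :=
            mul_le_mul_of_nonneg_left (by linarith) (Real.exp_pos _).le
        _ = 1 := h5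
    have h6 : 1 ≤ (1 - r) * (1 + 2 * r) := by nlinarith
    have h7 : Real.exp (-(2 * r)) * (1 + 2 * r) ≤ (1 - r) * (1 + 2 * r) := h3.trans h6
    exact le_of_mul_le_mul_right h7 (by linarith)
  calc ((1 - r)⁻¹) ^ (j * t) ≤ (Real.exp (2 * r)) ^ (j * t) :=
        pow_le_pow_left₀ (inv_nonneg.mpr (by linarith)) h2 _
    _ = Real.exp (((j * t : ℕ) : ℝ) * (2 * r)) := (Real.exp_nat_mul _ _).symm
    _ ≤ Real.exp j := by
        apply Real.exp_le_exp.mpr
        rw [Nat.cast_mul]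
        have h4 := mul_le_mul_of_nonneg_left hE (show 0 ≤ (j : ℝ) by positivity)
        nlinarith [h4]

theorem large {n t j : ℕ} {r a : ℝ} (ha : 1 ≤ a) (h0 : 0 < r) (h1 : r ≤ 1 / 2) (hj1 : 1 ≤ j)
    (hjt : j ≤ t) (hy : 1 ≤ n * r) (hE : t * r * (2 + n * r) ≤ 1) :
    (n.choose j : ℝ) * a ^ j * ((1 - r)⁻¹) ^ (j * t) *
      ∑ m ∈ range j, (n.choose m : ℝ) * ((j + m : ℕ) : ℝ) ^ (j - 1) * (j : ℝ) ^ m *
        r ^ (j - 1 + m) * (1 - j * r * (1 - r) ^ (j - 1)) ^ (n - j - m) ≤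
      n * (2 * Real.exp 4 * a * (n * r) ^ 2 * Real.exp (-(n * r))) ^ j := by
  have hjt' : (j : ℝ) ≤ t := by exact_mod_cast hjt
  have hjr : (j : ℝ) * r ≤ t * r := mul_le_mul_of_nonneg_right hjt' h0.le
  have htr : 0 ≤ (t : ℝ) * r := by positivity
  have htry : 0 ≤ (t : ℝ) * r * (n * r) := mul_nonneg htr (by linarith)
  have htr1 : 2 * ((t : ℝ) * r) ≤ 1 := by nlinarith
  have hb := base_nonneg (j := j) h0 (by linarith) (by linarith)
  have hn0 : 0 < (n : ℝ) := by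
    by_contra h
    have : (n : ℝ) * r ≤ 0 := mul_nonpos_of_nonpos_of_nonneg (by linarith) h0.le
    linarith
  have hsum : ∑ m ∈ range j, (n.choose m : ℝ) * ((j + m : ℕ) : ℝ) ^ (j - 1) * (j : ℝ) ^ m *
        r ^ (j - 1 + m) * (1 - j * r * (1 - r) ^ (j - 1)) ^ (n - j - m) ≤
      (2 * j : ℝ) ^ (j - 1) * r ^ (j - 1) * Real.exp (-(j * (n * r)) + j) *
        ((n * r) ^ j * Real.exp j) := by
    have hm : ∀ m ∈ range j, (n.choose m : ℝ) * ((j + m : ℕ) : ℝ) ^ (j - 1) * (j : ℝ) ^ m *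
        r ^ (j - 1 + m) * (1 - j * r * (1 - r) ^ (j - 1)) ^ (n - j - m) ≤
        ((2 * j : ℝ) ^ (j - 1) * r ^ (j - 1) * Real.exp (-(j * (n * r)) + j)) *
          ((n * r) ^ j * ((j : ℝ) ^ m / m.factorial)) := by
      intro m hm
      rw [mem_range] at hm
      have hc : (n.choose m : ℝ) ≤ (n : ℝ) ^ m / m.factorial := Nat.choose_le_pow_div m n
      have hp : ((j + m : ℕ) : ℝ) ^ (j - 1) ≤ (2 * j : ℝ) ^ (j - 1) := by
        apply pow_le_pow_left₀ (by positivity)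
        have : j + m ≤ 2 * j := by omega
        exact_mod_cast this
      have hbb : (1 - j * r * (1 - r) ^ (j - 1)) ^ (n - j - m) ≤
          Real.exp (-(j * (n * r)) + j) := by
        rw [Nat.sub_sub]
        apply bpow h0 (by linarith) (by linarith)
        have h2 : ((j + m : ℕ) : ℝ) ≤ 2 * t := by
          have : j + m ≤ 2 * t := by omega
          exact_mod_cast this
        have h3 : r * ((j + m : ℕ) : ℝ) ≤ r * (2 * t) := mul_le_mul_of_nonneg_left h2 h0.le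
        have h4 : (j : ℝ) * r * (n * r) ≤ t * r * (n * r) :=
          mul_le_mul_of_nonneg_right hjr (by linarith)
        linarith
      calc (n.choose m : ℝ) * ((j + m : ℕ) : ℝ) ^ (j - 1) * (j : ℝ) ^ m *
            r ^ (j - 1 + m) * (1 - j * r * (1 - r) ^ (j - 1)) ^ (n - j - m)
          ≤ ((n : ℝ) ^ m / m.factorial) * (2 * j : ℝ) ^ (j - 1) * (j : ℝ) ^ m *
            r ^ (j - 1 + m) * Real.exp (-(j * (n * r)) + j) := by
            gcongr
        _ = ((2 * j : ℝ) ^ (j - 1) * r ^ (j - 1) * Real.exp (-(j * (n * r)) + j)) *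
          ((n * r) ^ m * ((j : ℝ) ^ m / m.factorial)) := by
            rw [pow_add, mul_pow (n : ℝ) r m]; ring
        _ ≤ _ := by
            gcongr
    calc _ ≤ ∑ m ∈ range j, ((2 * j : ℝ) ^ (j - 1) * r ^ (j - 1) *
            Real.exp (-(j * (n * r)) + j)) * ((n * r) ^ j * ((j : ℝ) ^ m / m.factorial)) :=
          Finset.sum_le_sum hm
      _ = ((2 * j : ℝ) ^ (j - 1) * r ^ (j - 1) *
            Real.exp (-(j * (n * r)) + j)) * ((n * r) ^ j *
            ∑ m ∈ range j, ((j : ℝ) ^ m / m.factorial)) := by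
          rw [← Finset.mul_sum, ← Finset.mul_sum]
      _ ≤ _ := by
          gcongr
          exact Real.sum_le_exp_of_nonneg (by positivity) j
  have hchoose : (n.choose j : ℝ) ≤ (n : ℝ) ^ j / j.factorial := Nat.choose_le_pow_div j n
  have hinv := invpow (j := j) (t := t) h0 h1 htr1
  have hfac : (2 * j : ℝ) ^ (j - 1) / j.factorial ≤ 2 ^ j * Real.exp 1 ^ j := by
    have h2 : (2 * j : ℝ) ^ (j - 1) ≤ (2 * j : ℝ) ^ j := by
      apply pow_le_pow_right₀
      · have : (1 : ℝ) ≤ j := by exact_mod_cast hj1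
        linarith
      · exact Nat.sub_le _ _
    have h3 : (j : ℝ) ^ j / j.factorial ≤ Real.exp j :=
      Real.pow_div_factorial_le_exp _ (by positivity) j
    calc (2 * j : ℝ) ^ (j - 1) / j.factorial ≤ (2 * j : ℝ) ^ j / j.factorial := by gcongr
      _ = 2 ^ j * ((j : ℝ) ^ j / j.factorial) := by rw [mul_pow]; ring
      _ ≤ 2 ^ j * Real.exp j := by gcongr
      _ = 2 ^ j * Real.exp 1 ^ j := by rw [← Real.exp_nat_mul]; simp
  have hny : (n : ℝ) ^ j * r ^ (j - 1) ≤ n * (n * r) ^ j := by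
    obtain ⟨i, rfl⟩ : ∃ i, j = i + 1 := ⟨j - 1, by omega⟩
    rw [Nat.add_sub_cancel]
    calc (n : ℝ) ^ (i + 1) * r ^ i = n * (n * r) ^ i := by rw [mul_pow]; ring
      _ ≤ n * (n * r) ^ (i + 1) := by
        have h2 : (n * r) ^ i ≤ (n * r) ^ (i + 1) := pow_le_pow_right₀ hy (Nat.le_succ i)
        exact mul_le_mul_of_nonneg_left h2 hn0.le
  have hSnn : 0 ≤ ∑ m ∈ range j, (n.choose m : ℝ) * ((j + m : ℕ) : ℝ) ^ (j - 1) * (j : ℝ) ^ m *
        r ^ (j - 1 + m) * (1 - j * r * (1 - r) ^ (j - 1)) ^ (n - j - m) := by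
    apply Finset.sum_nonneg
    intro m _
    have := pow_nonneg hb (n - j - m)
    positivity
  calc (n.choose j : ℝ) * a ^ j * ((1 - r)⁻¹) ^ (j * t) *
      ∑ m ∈ range j, (n.choose m : ℝ) * ((j + m : ℕ) : ℝ) ^ (j - 1) * (j : ℝ) ^ m *
        r ^ (j - 1 + m) * (1 - j * r * (1 - r) ^ (j - 1)) ^ (n - j - m)
      ≤ ((n : ℝ) ^ j / j.factorial) * a ^ j * Real.exp j *
        ((2 * j : ℝ) ^ (j - 1) * r ^ (j - 1) * Real.exp (-(j * (n * r)) + j) *
        ((n * r) ^ j * Real.exp j)) := by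
        gcongr
        exact pow_nonneg (inv_nonneg.mpr (by linarith)) _
    _ = ((n : ℝ) ^ j * r ^ (j - 1)) * ((2 * j : ℝ) ^ (j - 1) / j.factorial) *
        (a ^ j * Real.exp j * Real.exp (-(j * (n * r)) + j) * ((n * r) ^ j * Real.exp j)) := by
        ring
    _ ≤ (n * (n * r) ^ j) * (2 ^ j * Real.exp 1 ^ j) *
        (a ^ j * Real.exp j * Real.exp (-(j * (n * r)) + j) * ((n * r) ^ j * Real.exp j)) := by
        gcongr
    _ = n * (2 * Real.exp 4 * a * (n * r) ^ 2 * Real.exp (-(n * r))) ^ j := by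
        have h4 : Real.exp 4 ^ j = Real.exp 1 ^ j * Real.exp j * Real.exp j * Real.exp j := by
          rw [← Real.exp_nat_mul, ← Real.exp_nat_mul, ← Real.exp_add, ← Real.exp_add,
            ← Real.exp_add]
          congr 1; ring
        have h5 : Real.exp (-(j * (n * r)) + j) = Real.exp (-(n * r)) ^ j * Real.exp j := by
          rw [Real.exp_add, ← Real.exp_nat_mul]
          congr 2; ring
        rw [h5]
        generalize (n : ℝ) * r = y
        rw [mul_pow, mul_pow, mul_pow, mul_pow, h4, ← pow_mul, mul_comm 2 j, pow_mul]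
        ring

theorem small {n t j j₀ e₀ : ℕ} {r a : ℝ} (Ob : ℕ → ℕ → Prop) [∀ j e, Decidable (Ob j e)]
    (hOb1 : ∀ j e, Ob j e → j₀ ≤ j) (hOb2 : ∀ e, Ob j₀ e → e ≤ e₀) (ha : 1 ≤ a) (h0 : 0 < r)
    (h1 : r ≤ 1 / 2) (hj1 : 1 ≤ j) (hj₀ : j ≤ j₀)
    (hjt : j ≤ t) (hy : 1 ≤ n * r) (hE : t * r * (2 + n * r) ≤ 1) :
    (n.choose j : ℝ) * a ^ j * ((1 - r)⁻¹) ^ (j * t) *
      ∑ m ∈ range j, (n.choose m : ℝ) * ((j + m : ℕ) : ℝ) ^ (j - 1) * (j : ℝ) ^ m *
        r ^ (j - 1 + m) *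
          ((if Ob j (j - 1 + m) then (1 - r) ^ (j * (n - j - m)) else 0) +
            (j * (j + m) : ℕ) * r * (1 - j * r * (1 - r) ^ (j - 1)) ^ (n - j - m) +
            n * (j : ℝ) ^ 2 * r ^ 2 * (1 - j * r * (1 - r) ^ (j - 1)) ^ (n - j - m - 1)) ≤
      ∑ m ∈ range j, a ^ j * Real.exp j * ((j + m : ℕ) : ℝ) ^ (j - 1) * (j : ℝ) ^ m *
        Real.exp j * (n * (n * r) ^ e₀ * Real.exp (-(j₀ * (n * r))) +
          (j * (j + m) : ℕ) * ((n * r) ^ (j + m) * Real.exp (-(j * (n * r)))) +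
          (j : ℝ) ^ 2 * ((n * r) ^ (j + m + 1) * Real.exp (-(j * (n * r))))) := by
  have hjt' : (j : ℝ) ≤ t := by exact_mod_cast hjt
  have hjr : (j : ℝ) * r ≤ t * r := mul_le_mul_of_nonneg_right hjt' h0.le
  have htr : 0 ≤ (t : ℝ) * r := by positivity
  have htry : 0 ≤ (t : ℝ) * r * (n * r) := mul_nonneg htr (by linarith)
  have htr1 : 2 * ((t : ℝ) * r) ≤ 1 := by nlinarith
  have hb := base_nonneg (j := j) h0 (by linarith) (by linarith)
  have hinv := invpow (j := j) (t := t) h0 h1 htr1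
  rw [Finset.mul_sum]
  apply Finset.sum_le_sum
  intro m hm
  rw [mem_range] at hm
  have hk : ∀ k : ℕ, k ≤ 2 * j → r * (k : ℝ) + j * r * (n * r) ≤ 1 := by
    intro k hk
    have h2 : (k : ℝ) ≤ 2 * t := by
      have : k ≤ 2 * t := by omega
      exact_mod_cast this
    have h3 : r * (k : ℝ) ≤ r * (2 * t) := mul_le_mul_of_nonneg_left h2 h0.le
    have h4 : (j : ℝ) * r * (n * r) ≤ t * r * (n * r) :=
      mul_le_mul_of_nonneg_right hjr (by linarith)
    linarith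
  have hb1 : (1 - j * r * (1 - r) ^ (j - 1)) ^ (n - j - m) ≤
      Real.exp (-(j * (n * r))) * Real.exp j := by
    rw [Nat.sub_sub, ← Real.exp_add]
    exact bpow h0 (by linarith) (by linarith) (hk _ (by omega))
  have hb2 : (1 - j * r * (1 - r) ^ (j - 1)) ^ (n - j - m - 1) ≤
      Real.exp (-(j * (n * r))) * Real.exp j := by
    rw [Nat.sub_sub, Nat.sub_sub, ← Real.exp_add]
    exact bpow h0 (by linarith) (by linarith) (hk _ (by omega))
  have hq1 : (1 - r) ^ (j * (n - j - m)) ≤ Real.exp (-(j * (n * r))) * Real.exp j := by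
    rw [Nat.sub_sub, ← Real.exp_add]
    apply qpow h0 (by linarith)
    have := hk (j + m) (by omega)
    have h4 : 0 ≤ (j : ℝ) * r * (n * r) := by positivity
    linarith
  have hc1 : (n.choose j : ℝ) ≤ (n : ℝ) ^ j := by exact_mod_cast Nat.choose_le_pow n j
  have hc2 : (n.choose m : ℝ) ≤ (n : ℝ) ^ m := by exact_mod_cast Nat.choose_le_pow n m
  have hX1 : (n * (n * r) ^ (j - 1 + m)) *
      (if Ob j (j - 1 + m) then (1 - r) ^ (j * (n - j - m)) else 0) ≤
      Real.exp j * (n * (n * r) ^ e₀ * Real.exp (-(j₀ * (n * r)))) := by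
    by_cases hO : Ob j (j - 1 + m)
    · rw [if_pos hO]
      have hjj : j = j₀ := le_antisymm hj₀ (hOb1 _ _ hO)
      have he : j - 1 + m ≤ e₀ := by
        apply hOb2
        rw [← hjj]
        exact hO
      have h5 : (n * r) ^ (j - 1 + m) ≤ (n * r) ^ e₀ := pow_le_pow_right₀ hy he
      rw [← hjj]
      calc (n * (n * r) ^ (j - 1 + m)) * (1 - r) ^ (j * (n - j - m))
          ≤ (n * (n * r) ^ e₀) * (Real.exp (-(j * (n * r))) * Real.exp j) := by
            apply mul_le_mul _ hq1 (pow_nonneg (by linarith) _) (by positivity)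
            exact mul_le_mul_of_nonneg_left h5 (by positivity)
        _ = _ := by ring
    · rw [if_neg hO, mul_zero]
      positivity
  have hX2 : (n * (n * r) ^ (j - 1 + m)) *
      ((j * (j + m) : ℕ) * r * (1 - j * r * (1 - r) ^ (j - 1)) ^ (n - j - m)) ≤
      Real.exp j * ((j * (j + m) : ℕ) * ((n * r) ^ (j + m) * Real.exp (-(j * (n * r))))) := by
    have h5 : (n * r) ^ (j + m) = (n * r) * (n * r) ^ (j - 1 + m) := by
      rw [← pow_succ']
      congr 1
      omega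
    rw [h5]
    calc (n * (n * r) ^ (j - 1 + m)) *
        ((j * (j + m) : ℕ) * r * (1 - j * r * (1 - r) ^ (j - 1)) ^ (n - j - m))
        ≤ (n * (n * r) ^ (j - 1 + m)) *
        ((j * (j + m) : ℕ) * r * (Real.exp (-(j * (n * r))) * Real.exp j)) := by
          gcongr
      _ = _ := by ring
  have hX3 : (n * (n * r) ^ (j - 1 + m)) *
      (n * (j : ℝ) ^ 2 * r ^ 2 * (1 - j * r * (1 - r) ^ (j - 1)) ^ (n - j - m - 1)) ≤
      Real.exp j * ((j : ℝ) ^ 2 * ((n * r) ^ (j + m + 1) * Real.exp (-(j * (n * r))))) := by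
    have h5 : (n * r) ^ (j + m + 1) = (n * r) * ((n * r) * (n * r) ^ (j - 1 + m)) := by
      rw [← pow_succ', ← pow_succ']
      congr 1
      omega
    rw [h5]
    calc (n * (n * r) ^ (j - 1 + m)) *
        (n * (j : ℝ) ^ 2 * r ^ 2 * (1 - j * r * (1 - r) ^ (j - 1)) ^ (n - j - m - 1))
        ≤ (n * (n * r) ^ (j - 1 + m)) *
        (n * (j : ℝ) ^ 2 * r ^ 2 * (Real.exp (-(j * (n * r))) * Real.exp j)) := by
          gcongr
      _ = _ := by ring
  have hnn1 : 0 ≤ (if Ob j (j - 1 + m) then (1 - r) ^ (j * (n - j - m)) else 0 : ℝ) := by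
    split_ifs
    · exact pow_nonneg (by linarith) _
    · exact le_rfl
  have hnn2 : 0 ≤ (1 - j * r * (1 - r) ^ (j - 1)) ^ (n - j - m) := pow_nonneg hb _
  have hnn3 : 0 ≤ (1 - j * r * (1 - r) ^ (j - 1)) ^ (n - j - m - 1) := pow_nonneg hb _
  have hpw : (n : ℝ) ^ j * (n : ℝ) ^ m * r ^ (j - 1 + m) = n * (n * r) ^ (j - 1 + m) := by
    rw [mul_pow, ← pow_add]
    have : j + m = (j - 1 + m) + 1 := by omega
    rw [this, pow_succ]
    ring
  have hnnX := add_nonneg (add_nonneg hnn1 (mul_nonneg (mul_nonneg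
    (Nat.cast_nonneg (α := ℝ) (j * (j + m))) h0.le) hnn2))
    (mul_nonneg (by positivity : 0 ≤ n * (j : ℝ) ^ 2 * r ^ 2) hnn3)
  set X1 := (if Ob j (j - 1 + m) then (1 - r) ^ (j * (n - j - m)) else 0 : ℝ) with hX1d
  set X2 := ((j * (j + m) : ℕ) : ℝ) * r * (1 - j * r * (1 - r) ^ (j - 1)) ^ (n - j - m) with hX2d
  set X3 := n * (j : ℝ) ^ 2 * r ^ 2 * (1 - j * r * (1 - r) ^ (j - 1)) ^ (n - j - m - 1) with hX3d
  calc (n.choose j : ℝ) * a ^ j * ((1 - r)⁻¹) ^ (j * t) *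
        ((n.choose m : ℝ) * ((j + m : ℕ) : ℝ) ^ (j - 1) * (j : ℝ) ^ m *
        r ^ (j - 1 + m) * (X1 + X2 + X3))
      ≤ (n : ℝ) ^ j * a ^ j * Real.exp j *
        ((n : ℝ) ^ m * ((j + m : ℕ) : ℝ) ^ (j - 1) * (j : ℝ) ^ m *
        r ^ (j - 1 + m) * (X1 + X2 + X3)) := by
        gcongr
        exact pow_nonneg (inv_nonneg.mpr (by linarith)) _
    _ = a ^ j * Real.exp j * ((j + m : ℕ) : ℝ) ^ (j - 1) * (j : ℝ) ^ m *
        (((n : ℝ) ^ j * (n : ℝ) ^ m * r ^ (j - 1 + m)) * X1 +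
        ((n : ℝ) ^ j * (n : ℝ) ^ m * r ^ (j - 1 + m)) * X2 +
        ((n : ℝ) ^ j * (n : ℝ) ^ m * r ^ (j - 1 + m)) * X3) := by ring
    _ ≤ a ^ j * Real.exp j * ((j + m : ℕ) : ℝ) ^ (j - 1) * (j : ℝ) ^ m *
        (Real.exp j * (n * (n * r) ^ e₀ * Real.exp (-(j₀ * (n * r)))) +
        Real.exp j * ((j * (j + m) : ℕ) * ((n * r) ^ (j + m) * Real.exp (-(j * (n * r))))) +
        Real.exp j * ((j : ℝ) ^ 2 * ((n * r) ^ (j + m + 1) * Real.exp (-(j * (n * r)))))) := by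
        rw [hpw]
        gcongr
    _ = _ := by ring

theorem tendsto_pow_exp {l : Filter ℕ} {y : ℕ → ℝ} (hy : Tendsto y l atTop)
    (hy1 : ∀ᶠ n in l, 1 ≤ y n) (k j : ℕ) (hj : 1 ≤ j) :
    Tendsto (fun n => y n ^ k * Real.exp (-(j * y n))) l (𝓝 0) := by
  have h1 := (Real.tendsto_pow_mul_exp_neg_atTop_nhds_zero k).comp hy
  refine squeeze_zero' ?_ ?_ h1
  · filter_upwards [hy1] with n hn
    have : 0 ≤ y n := by linarith
    positivity
  · filter_upwards [hy1] with n hn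
    have h0 : 0 ≤ y n := by linarith
    show y n ^ k * Real.exp (-(j * y n)) ≤ y n ^ k * Real.exp (-(y n))
    apply mul_le_mul_of_nonneg_left _ (by positivity)
    apply Real.exp_le_exp.mpr
    have : (1 : ℝ) ≤ j := by exact_mod_cast hj
    nlinarith

end Job17

theorem tendsto_linked_bound (j₀ e₀ : ℕ) (hj₀ : 1 ≤ j₀) (a : ℝ) (ha : 1 ≤ a)
    (Ob : ℕ → ℕ → Prop) [∀ j e, Decidable (Ob j e)] (hOb1 : ∀ j e, Ob j e → j₀ ≤ j)
    (hOb2 : ∀ e, Ob j₀ e → e ≤ e₀) (l : Filter ℕ) (hl : l ≤ atTop) (r : ℕ → ℝ)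
    (h0 : ∀ n, 0 < r n) (h1 : ∀ n, r n < 1)
    (hy : ∀ᶠ n : ℕ in l, n * r n ≤ 2 * Real.log n)
    (hlim : Tendsto (fun n : ℕ => j₀ * (n * r n) - Real.log n - e₀ * Real.log (Real.log n))
      l atTop) :
    Tendsto (fun n : ℕ => ∑ j ∈ Icc 1 ⌊(n : ℝ) ^ (1 - 1 / (4 * (j₀ : ℝ)))⌋₊,
      (n.choose j : ℝ) * a ^ j *
      ((1 - r n)⁻¹) ^ (j * ⌊(n : ℝ) ^ (1 - 1 / (4 * (j₀ : ℝ)))⌋₊) *
      (if j ≤ j₀ then
        ∑ m ∈ range j, (n.choose m : ℝ) * ((j + m : ℕ) : ℝ) ^ (j - 1) * (j : ℝ) ^ m *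
          r n ^ (j - 1 + m) *
          ((if Ob j (j - 1 + m) then (1 - r n) ^ (j * (n - j - m)) else 0) +
            (j * (j + m) : ℕ) * r n * (1 - j * r n * (1 - r n) ^ (j - 1)) ^ (n - j - m) +
            n * (j : ℝ) ^ 2 * r n ^ 2 * (1 - j * r n * (1 - r n) ^ (j - 1)) ^ (n - j - m - 1))
      else
        ∑ m ∈ range j, (n.choose m : ℝ) * ((j + m : ℕ) : ℝ) ^ (j - 1) * (j : ℝ) ^ m *
          r n ^ (j - 1 + m) * (1 - j * r n * (1 - r n) ^ (j - 1)) ^ (n - j - m)))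
      l (𝓝 0) := by
  have hj₀' : (1 : ℝ) ≤ j₀ := by exact_mod_cast hj₀
  have hnat : Tendsto (fun n : ℕ => (n : ℝ)) l atTop := tendsto_natCast_atTop_atTop.mono_left hl
  have hlog : Tendsto (fun n : ℕ => Real.log n) l atTop := Real.tendsto_log_atTop.comp hnat
  have hloglog : Tendsto (fun n : ℕ => Real.log (Real.log n)) l atTop :=
    Real.tendsto_log_atTop.comp hlog
  -- `log n ≤ j₀ y`
  have hF3 : ∀ᶠ n : ℕ in l, Real.log n ≤ j₀ * (n * r n) := by
    filter_upwards [hlim.eventually_ge_atTop 0, hloglog.eventually_ge_atTop 0] with n hn1 hn2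
    have : 0 ≤ (e₀ : ℝ) * Real.log (Real.log n) := by positivity
    linarith
  have hytop : Tendsto (fun n : ℕ => n * r n) l atTop := by
    have h2 : Tendsto (fun n : ℕ => Real.log n / j₀) l atTop :=
      hlog.atTop_div_const (by linarith)
    apply tendsto_atTop_mono' l _ h2
    filter_upwards [hF3] with n hn
    rw [div_le_iff₀ (by linarith)]
    linarith
  have hF4 : ∀ᶠ n : ℕ in l, 1 ≤ n * r n := hytop.eventually_ge_atTop 1
  -- `t r (2 + y) ≤ 1`
  have hF5 : ∀ᶠ n : ℕ in l, (⌊(n : ℝ) ^ (1 - 1 / (4 * (j₀ : ℝ)))⌋₊ : ℝ) * r n *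
      (2 + n * r n) ≤ 1 := by
    have hδ : 0 < 1 / (4 * (j₀ : ℝ)) := by positivity
    -- n^(-δ) (2 log n) (2 + 2 log n) → 0
    have hlim1 : Tendsto (fun n : ℕ => (n : ℝ) ^ (-(1 / (4 * (j₀ : ℝ)))) *
        (2 * Real.log n * (2 + 2 * Real.log n))) l (𝓝 0) := by
      generalize 1 / (4 * (j₀ : ℝ)) = δ at hδ
      have hu : Tendsto (fun n : ℕ => δ * Real.log n) l atTop :=
        hlog.const_mul_atTop hδ
      have hA := ((Real.tendsto_pow_mul_exp_neg_atTop_nhds_zero 1).comp hu).const_mul (4 / δ)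
      have hB := ((Real.tendsto_pow_mul_exp_neg_atTop_nhds_zero 2).comp hu).const_mul (4 / δ ^ 2)
      have hAB := hA.add hB
      rw [mul_zero, mul_zero, add_zero] at hAB
      refine hAB.congr' ?_
      filter_upwards [hnat.eventually_gt_atTop 0] with n hn
      show 4 / δ * ((δ * Real.log n) ^ 1 * Real.exp (-(δ * Real.log n))) +
        4 / δ ^ 2 * ((δ * Real.log n) ^ 2 * Real.exp (-(δ * Real.log n))) = _
      have h3 : (n : ℝ) ^ (-δ) = Real.exp (-(δ * Real.log n)) := by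
        rw [Real.rpow_def_of_pos hn]
        congr 1
        ring
      rw [h3]
      field_simp
      ring
    filter_upwards [hlim1.eventually_le_const (by norm_num : (0 : ℝ) < 1), hy, hF4,
      hnat.eventually_gt_atTop 0] with n hn1 hn2 hn3 hn4
    have h2 : (⌊(n : ℝ) ^ (1 - 1 / (4 * (j₀ : ℝ)))⌋₊ : ℝ) ≤
        (n : ℝ) ^ (1 - 1 / (4 * (j₀ : ℝ))) := Nat.floor_le (by positivity)
    have h3 : (n : ℝ) ^ (1 - 1 / (4 * (j₀ : ℝ))) =
        n * (n : ℝ) ^ (-(1 / (4 * (j₀ : ℝ)))) := by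
      rw [sub_eq_add_neg, Real.rpow_add hn4, Real.rpow_one]
    have h4 : 0 ≤ (n : ℝ) ^ (-(1 / (4 * (j₀ : ℝ)))) := by positivity
    have hr := h0 n
    calc (⌊(n : ℝ) ^ (1 - 1 / (4 * (j₀ : ℝ)))⌋₊ : ℝ) * r n * (2 + n * r n)
        ≤ (n * (n : ℝ) ^ (-(1 / (4 * (j₀ : ℝ))))) * r n * (2 + n * r n) := by
          rw [← h3]
          gcongr
      _ = (n : ℝ) ^ (-(1 / (4 * (j₀ : ℝ)))) * ((n * r n) * (2 + n * r n)) := by ring
      _ ≤ (n : ℝ) ^ (-(1 / (4 * (j₀ : ℝ)))) * (2 * Real.log n * (2 + 2 * Real.log n)) := by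
          apply mul_le_mul_of_nonneg_left _ h4
          apply mul_le_mul hn2 (by linarith) (by linarith) (by linarith)
      _ ≤ 1 := hn1
  have hr2 : ∀ᶠ n : ℕ in l, r n ≤ 1 / 2 := by
    filter_upwards [hF5, hF4, hnat.eventually_ge_atTop 1] with n hn1 hn2 hn3
    have h2 : 1 ≤ ⌊(n : ℝ) ^ (1 - 1 / (4 * (j₀ : ℝ)))⌋₊ := by
      apply Nat.le_floor
      rw [Nat.cast_one]
      apply Real.one_le_rpow hn3
      have : 1 / (4 * (j₀ : ℝ)) ≤ 1 := by
        rw [div_le_one (by positivity)]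
        linarith
      linarith
    have h3 : (1 : ℝ) ≤ (⌊(n : ℝ) ^ (1 - 1 / (4 * (j₀ : ℝ)))⌋₊ : ℝ) := by exact_mod_cast h2
    have hr := h0 n
    have h4 : 1 * r n ≤ (⌊(n : ℝ) ^ (1 - 1 / (4 * (j₀ : ℝ)))⌋₊ : ℝ) * r n :=
      mul_le_mul_of_nonneg_right h3 hr.le
    have h5 : (1 * r n) * 2 ≤ (⌊(n : ℝ) ^ (1 - 1 / (4 * (j₀ : ℝ)))⌋₊ : ℝ) * r n *
      (2 + n * r n) := mul_le_mul h4 (by linarith) (by norm_num) (by positivity)
    linarith
  -- the quantity `z`
  have hz : Tendsto (fun n : ℕ => 2 * Real.exp 4 * a * (n * r n) ^ 2 *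
      Real.exp (-(n * r n))) l (𝓝 0) := by
    have h2 := (Job17.tendsto_pow_exp hytop hF4 2 1 le_rfl).const_mul (2 * Real.exp 4 * a)
    rw [mul_zero] at h2
    refine h2.congr fun n => ?_
    rw [Nat.cast_one, one_mul]
    ring
  have hzlim : Tendsto (fun n : ℕ => 2 * (n * (2 * Real.exp 4 * a * (n * r n) ^ 2 *
      Real.exp (-(n * r n))) ^ (j₀ + 1))) l (𝓝 0) := by
    have h2 := (Job17.tendsto_pow_exp hytop hF4 (2 * (j₀ + 1)) 1 le_rfl).const_mul
      (2 * (2 * Real.exp 4 * a) ^ (j₀ + 1))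
    rw [mul_zero] at h2
    refine squeeze_zero' ?_ ?_ h2
    · filter_upwards [hF4] with n hn
      have : 0 ≤ n * r n := by linarith
      positivity
    · filter_upwards [hF4, hF3, hnat.eventually_gt_atTop 0] with n hn hn2 hn3
      have h3 : (n : ℝ) * Real.exp (-(n * r n)) ^ j₀ ≤ 1 := by
        rw [← Real.exp_nat_mul]
        calc (n : ℝ) * Real.exp (j₀ * (-(n * r n))) =
              Real.exp (Real.log n) * Real.exp (j₀ * (-(n * r n))) := by rw [Real.exp_log hn3]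
          _ = Real.exp (Real.log n - j₀ * (n * r n)) := by
              rw [← Real.exp_add]; congr 1; ring
          _ ≤ 1 := by
              rw [Real.exp_le_one_iff]
              linarith
      rw [Nat.cast_one, one_mul]
      have h4 : 0 ≤ 2 * (2 * Real.exp 4 * a) ^ (j₀ + 1) * (((n : ℝ) * r n) ^ (2 * (j₀ + 1)) *
          Real.exp (-(n * r n))) := by
        have : 0 ≤ n * r n := by linarith
        positivity
      calc 2 * ((n : ℝ) * (2 * Real.exp 4 * a * (n * r n) ^ 2 *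
            Real.exp (-(n * r n))) ^ (j₀ + 1))
          = (n * Real.exp (-(n * r n)) ^ j₀) * (2 * (2 * Real.exp 4 * a) ^ (j₀ + 1) *
            (((n : ℝ) * r n) ^ (2 * (j₀ + 1)) * Real.exp (-(n * r n)))) := by
            generalize (n : ℝ) * r n = y
            rw [mul_pow (2 * Real.exp 4 * a * y ^ 2), mul_pow (2 * Real.exp 4 * a), ← pow_mul,
              pow_succ (Real.exp (-y)) j₀]
            ring
        _ ≤ 1 * (2 * (2 * Real.exp 4 * a) ^ (j₀ + 1) *
            (((n : ℝ) * r n) ^ (2 * (j₀ + 1)) * Real.exp (-(n * r n)))) :=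
            mul_le_mul_of_nonneg_right h3 h4
        _ = _ := one_mul _
  have hmain : Tendsto (fun n : ℕ => n * (n * r n) ^ e₀ * Real.exp (-(j₀ * (n * r n)))) l
      (𝓝 0) := by
    have h2 := ((Real.tendsto_exp_neg_atTop_nhds_zero).comp hlim).const_mul ((2 : ℝ) ^ e₀)
    rw [mul_zero] at h2
    refine squeeze_zero' ?_ ?_ h2
    · filter_upwards [hF4] with n hn
      have : 0 ≤ n * r n := by linarith
      positivity
    · filter_upwards [hF4, hy, hnat.eventually_gt_atTop 0, hlog.eventually_gt_atTop 0]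
        with n hn hn2 hn3 hn4
      show n * (n * r n) ^ e₀ * Real.exp (-(j₀ * (n * r n))) ≤ 2 ^ e₀ *
        Real.exp (-(j₀ * (n * r n) - Real.log n - e₀ * Real.log (Real.log n)))
      have h3 : Real.exp (-(j₀ * (n * r n) - Real.log n - e₀ * Real.log (Real.log n))) =
          n * Real.log n ^ e₀ * Real.exp (-(j₀ * (n * r n))) := by
        have h4 : -(j₀ * (n * r n) - Real.log n - e₀ * Real.log (Real.log n)) =
          Real.log n + e₀ * Real.log (Real.log n) + -(j₀ * (n * r n)) := by ring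
        rw [h4, Real.exp_add, Real.exp_add, Real.exp_log hn3, Real.exp_nat_mul,
          Real.exp_log hn4]
      rw [h3]
      have h5 : (n * r n) ^ e₀ ≤ 2 ^ e₀ * Real.log n ^ e₀ := by
        rw [← mul_pow]
        exact pow_le_pow_left₀ (by linarith) hn2 _
      calc n * (n * r n) ^ e₀ * Real.exp (-(j₀ * (n * r n)))
          ≤ n * (2 ^ e₀ * Real.log n ^ e₀) * Real.exp (-(j₀ * (n * r n))) := by
            gcongr
        _ = _ := by ring
  have hG : Tendsto (fun n : ℕ => (∑ j ∈ Icc 1 j₀,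
      ∑ m ∈ range j, a ^ j * Real.exp j * ((j + m : ℕ) : ℝ) ^ (j - 1) * (j : ℝ) ^ m *
        Real.exp j * (n * (n * r n) ^ e₀ * Real.exp (-(j₀ * (n * r n))) +
          (j * (j + m) : ℕ) * ((n * r n) ^ (j + m) * Real.exp (-(j * (n * r n)))) +
          (j : ℝ) ^ 2 * ((n * r n) ^ (j + m + 1) * Real.exp (-(j * (n * r n)))))) +
      2 * (n * (2 * Real.exp 4 * a * (n * r n) ^ 2 *
      Real.exp (-(n * r n))) ^ (j₀ + 1))) l (𝓝 0) := by
    have h2 : Tendsto (fun n : ℕ => (∑ j ∈ Icc 1 j₀,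
      ∑ m ∈ range j, a ^ j * Real.exp j * ((j + m : ℕ) : ℝ) ^ (j - 1) * (j : ℝ) ^ m *
        Real.exp j * (n * (n * r n) ^ e₀ * Real.exp (-(j₀ * (n * r n))) +
          (j * (j + m) : ℕ) * ((n * r n) ^ (j + m) * Real.exp (-(j * (n * r n)))) +
          (j : ℝ) ^ 2 * ((n * r n) ^ (j + m + 1) * Real.exp (-(j * (n * r n))))))) l
        (𝓝 (∑ j ∈ Icc 1 j₀, ∑ m ∈ range j, (0 : ℝ))) := by
      apply tendsto_finsetSum
      intro j hj
      rw [mem_Icc] at hj
      apply tendsto_finsetSum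
      intro m _
      have h3 := hmain
      have h4 := (Job17.tendsto_pow_exp hytop hF4 (j + m) j hj.1).const_mul
        ((j * (j + m) : ℕ) : ℝ)
      have h5 := (Job17.tendsto_pow_exp hytop hF4 (j + m + 1) j hj.1).const_mul
        ((j : ℝ) ^ 2)
      have h6 := ((h3.add h4).add h5).const_mul (a ^ j * Real.exp j *
        ((j + m : ℕ) : ℝ) ^ (j - 1) * (j : ℝ) ^ m * Real.exp j)
      simp only [mul_zero, add_zero] at h6
      exact h6
    have h7 := h2.add hzlim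
    simp only [Finset.sum_const_zero, add_zero] at h7
    exact h7
  refine squeeze_zero' ?_ ?_ hG
  · filter_upwards [hF4, hF5] with n hn1 hn2
    have hr := h0 n
    have hr1 := h1 n
    apply Finset.sum_nonneg
    intro j hj
    rw [mem_Icc] at hj
    have hjt' : (j : ℝ) ≤ (⌊(n : ℝ) ^ (1 - 1 / (4 * (j₀ : ℝ)))⌋₊ : ℝ) := by
      exact_mod_cast hj.2
    have hjr : (j : ℝ) * r n ≤ (⌊(n : ℝ) ^ (1 - 1 / (4 * (j₀ : ℝ)))⌋₊ : ℝ) * r n :=
      mul_le_mul_of_nonneg_right hjt' hr.le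
    have htr : 0 ≤ (⌊(n : ℝ) ^ (1 - 1 / (4 * (j₀ : ℝ)))⌋₊ : ℝ) * r n := by positivity
    have htry : 0 ≤ (⌊(n : ℝ) ^ (1 - 1 / (4 * (j₀ : ℝ)))⌋₊ : ℝ) * r n * (n * r n) :=
      mul_nonneg htr (by linarith)
    have hb := Job17.base_nonneg (j := j) hr hr1 (by linarith)
    have hq : 0 ≤ 1 - r n := by linarith
    have hq' : 0 ≤ (1 - r n)⁻¹ := inv_nonneg.mpr hq
    apply mul_nonneg (by positivity)
    split_ifs
    · apply Finset.sum_nonneg
      intro m _
      have h3 := pow_nonneg hb (n - j - m)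
      have h4 := pow_nonneg hb (n - j - m - 1)
      apply mul_nonneg (by positivity)
      apply add_nonneg (add_nonneg _ (by positivity)) (by positivity)
      split_ifs
      · positivity
      · exact le_rfl
    · apply Finset.sum_nonneg
      intro m _
      have h3 := pow_nonneg hb (n - j - m)
      positivity
  · filter_upwards [hF4, hF5, hr2, hz.eventually_le_const (by norm_num : (0 : ℝ) < 1 / 2)]
      with n hn1 hn2 hn3 hn4
    have hr := h0 n
    have hr1 := h1 n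
    have hn0 : (0 : ℝ) ≤ n := Nat.cast_nonneg n
    have hz0 : 0 ≤ 2 * Real.exp 4 * a * (n * r n) ^ 2 * Real.exp (-(n * r n)) := by positivity
    set t := ⌊(n : ℝ) ^ (1 - 1 / (4 * (j₀ : ℝ)))⌋₊ with ht
    rw [← Finset.sum_filter_add_sum_filter_not (Icc 1 t) (fun j => j ≤ j₀)]
    apply add_le_add
    · refine (Finset.sum_le_sum (g := fun j => ∑ m ∈ range j, a ^ j * Real.exp j *
        ((j + m : ℕ) : ℝ) ^ (j - 1) * (j : ℝ) ^ m *
        Real.exp j * (n * (n * r n) ^ e₀ * Real.exp (-(j₀ * (n * r n))) +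
          (j * (j + m) : ℕ) * ((n * r n) ^ (j + m) * Real.exp (-(j * (n * r n)))) +
          (j : ℝ) ^ 2 * ((n * r n) ^ (j + m + 1) * Real.exp (-(j * (n * r n)))))) ?_).trans ?_
      · intro j hj
        rw [mem_filter, mem_Icc] at hj
        rw [if_pos hj.2]
        exact Job17.small Ob hOb1 hOb2 ha hr hn3 hj.1.1 hj.2 hj.1.2 hn1 hn2
      · apply Finset.sum_le_sum_of_subset_of_nonneg
        · intro j hj
          rw [mem_filter, mem_Icc] at hj
          rw [mem_Icc]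
          exact ⟨hj.1.1, hj.2⟩
        · intro j _ _
          positivity
    · refine (Finset.sum_le_sum (g := fun j => n * (2 * Real.exp 4 * a * (n * r n) ^ 2 *
        Real.exp (-(n * r n))) ^ j) ?_).trans ?_
      · intro j hj
        rw [mem_filter, mem_Icc] at hj
        rw [if_neg hj.2]
        exact Job17.large ha hr hn3 hj.1.1 hj.1.2 hn1 hn2
      · generalize 2 * Real.exp 4 * a * (n * r n) ^ 2 * Real.exp (-(n * r n)) = z at hz0 hn4
        calc ∑ j ∈ (Icc 1 t).filter (fun j => ¬ j ≤ j₀), n * z ^ j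
            ≤ ∑ j ∈ Ico (j₀ + 1) (t + 1), n * z ^ j := by
              apply Finset.sum_le_sum_of_subset_of_nonneg
              · intro j hj
                rw [mem_filter, mem_Icc] at hj
                rw [mem_Ico]
                omega
              · intro j _ _
                positivity
          _ = n * ∑ j ∈ Ico (j₀ + 1) (t + 1), z ^ j := by rw [Finset.mul_sum]
          _ ≤ n * (z ^ (j₀ + 1) / (1 - z)) := by
              apply mul_le_mul_of_nonneg_left _ hn0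
              exact geom_sum_Ico_le_of_lt_one hz0 (by linarith)
          _ ≤ n * (2 * z ^ (j₀ + 1)) := by
              apply mul_le_mul_of_nonneg_left _ hn0
              rw [div_le_iff₀ (by linarith)]
              have : 0 ≤ z ^ (j₀ + 1) := by positivity
              nlinarith
          _ = 2 * (n * z ^ (j₀ + 1)) := by ring

end Pool.Agent.Lib.MP_49901c_pr
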