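import Mathlib
import Pool.Agent.Lib.MP_49901c_pr.Uniform
import Pool.Agent.Lib.MP_49901c_pr.Job6

/-!
# An analytic estimate for dense graphs
-/

namespace Pool.Agent.Lib.MP_49901c_pr

open Finset Filter Topology

namespace Job18

/-- `n^{-δ} log n → 0`. -/
theorem tendsto_log_mul_rpow {δ : ℝ} (hδ : 0 < δ) :
    Tendsto (fun n : ℕ => 2 * Real.log n * (n : ℝ) ^ (-δ)) atTop (𝓝 0) := by
  have h1 : Tendsto (fun x : ℝ => Real.log x / x ^ δ) atTop (𝓝 0) :=
    (isLittleO_log_rpow_atTop hδ).tendsto_div_nhds_zero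
  have h2 := (h1.comp tendsto_natCast_atTop_atTop).const_mul 2
  rw [mul_zero] at h2
  refine h2.congr ?_
  intro n
  simp only [Function.comp]
  rw [Real.rpow_neg (Nat.cast_nonneg n), div_eq_mul_inv, mul_assoc]

theorem tendsto_mul_pow : Tendsto (fun n : ℕ => (n : ℝ) * (1 / 4 : ℝ) ^ n) atTop (𝓝 0) :=
  tendsto_self_mul_const_pow_of_lt_one (by norm_num) (by norm_num)

/-- The first sum. -/
theorem tendsto_first (j₀ : ℕ) (hj₀ : 1 ≤ j₀) (a : ℝ) (ha : 1 ≤ a) (l : Filter ℕ)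
    (hl : l ≤ atTop) (r : ℕ → ℝ) (h0 : ∀ n, 0 < r n)
    (hy : ∀ᶠ n : ℕ in l, n * r n ≤ 2 * Real.log n) :
    Tendsto (fun n : ℕ => ∑ j ∈ Icc 1 ⌊(n : ℝ) ^ (1 - 1 / (4 * (j₀ : ℝ)))⌋₊,
        (n.choose j : ℝ) * a ^ j * (j * r n) ^ (n - j)) l (𝓝 0) := by
  set δ : ℝ := 1 / (4 * (j₀ : ℝ)) with hδ
  have hj0 : (1 : ℝ) ≤ j₀ := by exact_mod_cast hj₀
  have hδ0 : 0 < δ := by rw [hδ]; positivity
  have hδ1 : δ ≤ 1 / 4 := by
    rw [hδ]
    apply one_div_le_one_div_of_le (by norm_num)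
    linarith
  have ha0 : 0 < a := by linarith
  -- x small
  have hx := tendsto_log_mul_rpow hδ0
  have hx1 : ∀ᶠ n : ℕ in atTop, 2 * Real.log n * (n : ℝ) ^ (-δ) < (1 / (8 * a)) ^ 2 :=
    hx.eventually (gt_mem_nhds (by positivity))
  have hx2 : ∀ᶠ n : ℕ in atTop, (n : ℝ) ^ (1 - δ) ≤ n / 2 := by
    have h1 : Tendsto (fun n : ℕ => (n : ℝ) ^ (-δ)) atTop (𝓝 0) :=
      (tendsto_rpow_neg_atTop hδ0).comp tendsto_natCast_atTop_atTop
    filter_upwards [h1.eventually (gt_mem_nhds (show (0 : ℝ) < 1 / 2 by norm_num)),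
      eventually_ge_atTop 1] with n hn hn1
    have hn0 : (0 : ℝ) < n := by exact_mod_cast hn1
    rw [sub_eq_add_neg, Real.rpow_add hn0, Real.rpow_one]
    have := mul_le_mul_of_nonneg_left hn.le hn0.le
    linarith
  refine squeeze_zero' (g := fun n : ℕ => (n : ℝ) * (1 / 4 : ℝ) ^ n) ?_ ?_
    (tendsto_mul_pow.mono_left hl)
  · filter_upwards with n
    apply sum_nonneg
    intro j _
    have := h0 n
    positivity
  · filter_upwards [hy, hl hx1, hl hx2, hl (eventually_ge_atTop 1)] with n hn1 hn2 hn3 hn4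
    have hn0 : (0 : ℝ) < n := by exact_mod_cast hn4
    have hr := h0 n
    have hterm : ∀ j ∈ Icc 1 ⌊(n : ℝ) ^ (1 - δ)⌋₊,
        (n.choose j : ℝ) * a ^ j * (j * r n) ^ (n - j) ≤ (1 / 4 : ℝ) ^ n := by
      intro j hj
      rw [mem_Icc] at hj
      have hj1 : (j : ℝ) ≤ (n : ℝ) ^ (1 - δ) := by
        calc (j : ℝ) ≤ (⌊(n : ℝ) ^ (1 - δ)⌋₊ : ℝ) := by exact_mod_cast hj.2
          _ ≤ _ := Nat.floor_le (by positivity)
      have hjn : 2 * j ≤ n := by
        have : (2 : ℝ) * j ≤ n := by linarith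
        exact_mod_cast this
      have hjr : (j : ℝ) * r n ≤ (1 / (8 * a)) ^ 2 := by
        refine le_trans ?_ hn2.le
        have h1 : (n : ℝ) ^ (1 - δ) = n * (n : ℝ) ^ (-δ) := by
          rw [sub_eq_add_neg, Real.rpow_add hn0, Real.rpow_one]
        calc (j : ℝ) * r n ≤ (n : ℝ) ^ (1 - δ) * r n := mul_le_mul_of_nonneg_right hj1 hr.le
          _ = (n * r n) * (n : ℝ) ^ (-δ) := by rw [h1]; ring
          _ ≤ 2 * Real.log n * (n : ℝ) ^ (-δ) :=
            mul_le_mul_of_nonneg_right hn1 (by positivity)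
      have hjr0 : 0 ≤ (j : ℝ) * r n := by positivity
      have h2 : ((j : ℝ) * r n) ^ (n - j) ≤ (1 / (8 * a)) ^ n := by
        calc ((j : ℝ) * r n) ^ (n - j) ≤ ((1 / (8 * a)) ^ 2) ^ (n - j) :=
              pow_le_pow_left₀ hjr0 hjr _
          _ = (1 / (8 * a)) ^ (2 * (n - j)) := by rw [pow_mul]
          _ ≤ (1 / (8 * a)) ^ n := by
            apply pow_le_pow_of_le_one (by positivity)
            · rw [div_le_one (by positivity)]
              linarith
            · omega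
      have h3 : (n.choose j : ℝ) ≤ 2 ^ n := by
        exact_mod_cast Nat.choose_le_two_pow n j
      have h4 : a ^ j ≤ a ^ n := pow_le_pow_right₀ ha (by omega)
      calc (n.choose j : ℝ) * a ^ j * (j * r n) ^ (n - j)
          ≤ 2 ^ n * a ^ n * (1 / (8 * a)) ^ n := by gcongr
        _ = (1 / 4 : ℝ) ^ n := by
          rw [← mul_pow, ← mul_pow]
          congr 1
          field_simp
          norm_num
    refine (sum_le_sum hterm).trans ?_
    rw [sum_const, nsmul_eq_mul, Nat.card_Icc, Nat.add_sub_cancel]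
    apply mul_le_mul_of_nonneg_right _ (by positivity)
    calc ((⌊(n : ℝ) ^ (1 - δ)⌋₊ : ℕ) : ℝ) ≤ (n : ℝ) ^ (1 - δ) := Nat.floor_le (by positivity)
      _ ≤ n / 2 := hn3
      _ ≤ n := by linarith

end Job18

open Job18 in
theorem exists_eta_tendsto_dense (j₀ : ℕ) (hj₀ : 1 ≤ j₀) (a : ℝ) (ha : 1 ≤ a) :
    ∃ η₀ : ℝ, 0 < η₀ ∧ ∀ (l : Filter ℕ), l ≤ atTop → ∀ r : ℕ → ℝ, (∀ n, 0 < r n) →
      (∀ n, r n < 1) → (∀ᶠ n : ℕ in l, n * r n ≤ 2 * Real.log n) →
      (∀ᶠ n : ℕ in l, Real.log n ≤ j₀ * (n * r n)) →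
      Tendsto (fun n : ℕ => ∑ j ∈ Icc 1 ⌊(n : ℝ) ^ (1 - 1 / (4 * (j₀ : ℝ)))⌋₊,
        (n.choose j : ℝ) * a ^ j * (j * r n) ^ (n - j)) l (𝓝 0) ∧
      Tendsto (fun n : ℕ => ∑ j ∈ Icc (⌊(n : ℝ) ^ (1 - 1 / (4 * (j₀ : ℝ)))⌋₊ + 1) ⌊η₀ * n⌋₊,
        ((n.choose j : ℝ) * a ^ j * (bfun j (r n)) ^ (n - j) +
          (n.choose j : ℝ) * a ^ j * (7 / 8 : ℝ) ^ (n - j))) l (𝓝 0) := by
  have hl1 : 0 < Real.log (16 * a) := Real.log_pos (by linarith)
  have hl2 : 0 < Real.log (31 / 30) := Real.log_pos (by norm_num)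
  set η : ℝ := min (1 / 4) (Real.log (31 / 30) / Real.log (16 * a)) with hη
  have hη0 : 0 < η := by
    rw [hη]; exact lt_min (by norm_num) (div_pos hl2 hl1)
  have hη2 : η ≤ 1 / 4 := min_le_left _ _
  have hη3 : η * Real.log (16 * a) ≤ Real.log (31 / 30) := by
    rw [← le_div_iff₀ hl1]
    exact min_le_right _ _
  have hsec := Job6.tendsto_second a ha η hη0 (by linarith) hη3
  refine ⟨η, hη0, ?_⟩
  intro l hl r h0 h1 hy hlog
  refine ⟨tendsto_first j₀ hj₀ a ha l hl r h0 hy, ?_⟩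
  set δ : ℝ := 1 / (4 * (j₀ : ℝ)) with hδ
  have hj0 : (1 : ℝ) ≤ j₀ := by exact_mod_cast hj₀
  have hδ0 : 0 < δ := by rw [hδ]; positivity
  have ha0 : 0 < a := by linarith
  -- u
  set u : ℕ → ℝ := fun n => Real.exp 1 * a * (n : ℝ) ^ (-(1 / (8 * (j₀ : ℝ)))) with hu
  have hu0 : ∀ n, 0 ≤ u n := fun n => by rw [hu]; positivity
  have hulim : Tendsto u atTop (𝓝 0) := by
    have h2 : Tendsto (fun n : ℕ => (n : ℝ) ^ (-(1 / (8 * (j₀ : ℝ))))) atTop (𝓝 0) :=
      (tendsto_rpow_neg_atTop (by positivity)).comp tendsto_natCast_atTop_atTop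
    have h3 := h2.const_mul (Real.exp 1 * a)
    rw [mul_zero] at h3
    exact h3
  have hU := Job6.tendsto_geom u hu0 hulim (fun n => ⌊η * n⌋₊)
  have hsum := (hU.add (hsec.add hsec)).mono_left hl
  rw [add_zero, add_zero] at hsum
  have hrhalf : ∀ᶠ n : ℕ in l, r n ≤ 1 / 2 := by
    have h2 : Tendsto (fun x : ℝ => Real.log x / x) atTop (𝓝 0) := by
      have := (Real.isLittleO_log_id_atTop).tendsto_div_nhds_zero
      exact this
    have h3 : ∀ᶠ n : ℕ in atTop, Real.log n / n < 1 / 4 :=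
      (h2.comp tendsto_natCast_atTop_atTop).eventually (gt_mem_nhds (by norm_num))
    filter_upwards [hl h3, hl (eventually_ge_atTop 1), hy] with n hn1 hn2 hn3
    have hn0 : (0 : ℝ) < n := by exact_mod_cast hn2
    rw [div_lt_iff₀ hn0] at hn1
    by_contra hcon
    push Not at hcon
    have := mul_lt_mul_of_pos_left hcon hn0
    linarith
  refine squeeze_zero' ?_ ?_ hsum
  · filter_upwards [hrhalf] with n hn1
    apply sum_nonneg
    intro j hj
    rw [mem_Icc] at hj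
    have hj1 : 1 ≤ j := by omega
    have hb : 0 ≤ bfun j (r n) := by
      by_cases hjr : 2 * j * r n < 1
      · exact (Job6.bfun_le hj1 (h0 n) hn1 hjr).1
      · rw [bfun, if_neg hjr]; norm_num
    positivity
  · filter_upwards [hrhalf, hlog, hl (eventually_ge_atTop 1)] with n hn1 hn2 hn3
    have hn0 : (0 : ℝ) < n := by exact_mod_cast hn3
    have hpt : ∀ j ∈ Icc (⌊(n : ℝ) ^ (1 - δ)⌋₊ + 1) ⌊η * n⌋₊,
        ((n.choose j : ℝ) * a ^ j * (bfun j (r n)) ^ (n - j) +
          (n.choose j : ℝ) * a ^ j * (7 / 8 : ℝ) ^ (n - j)) ≤ u n ^ j +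
          ((n.choose j : ℝ) * a ^ j * (7 / 8 : ℝ) ^ (n - j) +
          (n.choose j : ℝ) * a ^ j * (7 / 8 : ℝ) ^ (n - j)) := by
      intro j hj
      rw [mem_Icc] at hj
      have hj1 : 1 ≤ j := by omega
      have hjpos : (0 : ℝ) < j := by exact_mod_cast hj1
      have hp1 : 0 ≤ u n ^ j := pow_nonneg (hu0 n) j
      have hp2 : 0 ≤ (n.choose j : ℝ) * a ^ j * (7 / 8 : ℝ) ^ (n - j) := by positivity
      by_cases hjr : 2 * j * r n < 1
      · obtain ⟨hb0, hb1⟩ := Job6.bfun_le hj1 (h0 n) hn1 hjr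
        have hjn : (j : ℝ) ≤ η * n := by
          calc (j : ℝ) ≤ (⌊η * n⌋₊ : ℝ) := by exact_mod_cast hj.2
            _ ≤ η * n := Nat.floor_le (by positivity)
        have hjn4 : (j : ℝ) ≤ 1 / 4 * n := hjn.trans (mul_le_mul_of_nonneg_right hη2 hn0.le)
        have hjn' : j ≤ n := by
          have : (j : ℝ) ≤ n := by linarith
          exact_mod_cast this
        have hnj : ((n - j : ℕ) : ℝ) = (n : ℝ) - j := by rw [Nat.cast_sub hjn']
        have hjt : (n : ℝ) ^ (1 - δ) ≤ j := by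
          have h2 := Nat.lt_floor_add_one ((n : ℝ) ^ (1 - δ))
          have h3 : ((⌊(n : ℝ) ^ (1 - δ)⌋₊ : ℕ) : ℝ) + 1 ≤ j := by exact_mod_cast hj.1
          linarith
        have hnjd : (n : ℝ) / j ≤ (n : ℝ) ^ δ := by
          rw [div_le_iff₀ hjpos]
          calc (n : ℝ) = (n : ℝ) ^ δ * (n : ℝ) ^ (1 - δ) := by
                rw [← Real.rpow_add hn0]
                rw [add_sub_cancel, Real.rpow_one]
            _ ≤ (n : ℝ) ^ δ * j := mul_le_mul_of_nonneg_left hjt (by positivity)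
        have hpow : (bfun j (r n)) ^ (n - j) ≤ ((n : ℝ) ^ (-(3 / (8 * (j₀ : ℝ))))) ^ j := by
          calc (bfun j (r n)) ^ (n - j) ≤ (Real.exp (-(j * r n * (1 - j * r n)))) ^ (n - j) :=
                pow_le_pow_left₀ hb0 hb1 _
            _ = Real.exp (-(((n : ℝ) - j) * (j * r n * (1 - j * r n)))) := by
                rw [← Real.exp_nat_mul, hnj]
                congr 1
                ring
            _ ≤ Real.exp (j * (Real.log n * (-(3 / (8 * (j₀ : ℝ)))))) := by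
                apply Real.exp_le_exp.mpr
                have e2 : (1 : ℝ) / 2 ≤ 1 - j * r n := by linarith
                have e1 : 3 / 4 * (n : ℝ) ≤ n - j := by linarith
                have hr := h0 n
                have e0 : 0 ≤ (n : ℝ) - j := by linarith
                have e3 : 3 / 4 * (n : ℝ) * (j * r n * (1 / 2)) ≤
                    ((n : ℝ) - j) * (j * r n * (1 - j * r n)) := by
                  gcongr
                have e4 : Real.log n * (3 / (8 * (j₀ : ℝ))) ≤ 3 / 8 * (n * r n) := by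
                  calc Real.log n * (3 / (8 * (j₀ : ℝ))) ≤
                      (j₀ * (n * r n)) * (3 / (8 * (j₀ : ℝ))) :=
                        mul_le_mul_of_nonneg_right hn2 (by positivity)
                    _ = 3 / 8 * (n * r n) := by field_simp
                have e5 := mul_le_mul_of_nonneg_left e4 hjpos.le
                nlinarith
            _ = ((n : ℝ) ^ (-(3 / (8 * (j₀ : ℝ))))) ^ j := by
                rw [Real.exp_nat_mul, ← Real.rpow_def_of_pos hn0]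
        have hmain : (n.choose j : ℝ) * a ^ j * (bfun j (r n)) ^ (n - j) ≤ u n ^ j := by
          calc (n.choose j : ℝ) * a ^ j * (bfun j (r n)) ^ (n - j)
              ≤ (Real.exp 1 * (n : ℝ) ^ δ) ^ j * a ^ j *
                ((n : ℝ) ^ (-(3 / (8 * (j₀ : ℝ))))) ^ j := by
                have h4 := Job6.choose_le_exp n j hj1
                have h4' : (n.choose j : ℝ) ≤ (Real.exp 1 * (n : ℝ) ^ δ) ^ j :=
                  h4.trans (by gcongr)
                gcongr
            _ = u n ^ j := by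
                rw [← mul_pow, ← mul_pow, hu]
                congr 1
                have h5 : (n : ℝ) ^ (-(1 / (8 * (j₀ : ℝ)))) =
                    (n : ℝ) ^ δ * (n : ℝ) ^ (-(3 / (8 * (j₀ : ℝ)))) := by
                  rw [← Real.rpow_add hn0]
                  congr 1
                  rw [hδ]
                  field_simp
                  norm_num
                simp only []
                rw [h5]
                ring
        linarith
      · have hb : bfun j (r n) = 7 / 8 := by rw [bfun, if_neg hjr]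
        rw [hb]
        linarith
    refine (sum_le_sum hpt).trans ?_
    have hsub : Icc (⌊(n : ℝ) ^ (1 - δ)⌋₊ + 1) ⌊η * (n : ℝ)⌋₊ ⊆ Icc 1 ⌊η * (n : ℝ)⌋₊ := by
      intro j hj
      rw [mem_Icc] at hj ⊢
      omega
    have hnn : ∀ j ∈ Icc 1 ⌊η * (n : ℝ)⌋₊, j ∉ Icc (⌊(n : ℝ) ^ (1 - δ)⌋₊ + 1) ⌊η * (n : ℝ)⌋₊ →
        0 ≤ u n ^ j +
          ((n.choose j : ℝ) * a ^ j * (7 / 8 : ℝ) ^ (n - j) +
          (n.choose j : ℝ) * a ^ j * (7 / 8 : ℝ) ^ (n - j)) := by
      intro j _ _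
      have := hu0 n
      positivity
    refine (sum_le_sum_of_subset_of_nonneg hsub hnn).trans (le_of_eq ?_)
    rw [sum_add_distrib, sum_add_distrib]

end Pool.Agent.Lib.MP_49901c_pr
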