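import Mathlib
import Pool.Agent.Lib.MP_49901c_pr.DenseDefs
import Pool.Agent.Lib.MP_49901c_pr.Job26

/-!
# Elementary facts on obstruction trees
-/

namespace Pool.Agent.Lib.MP_49901c_pr

namespace Job19

open Finset

/-- Unpacked data of an obstruction: number of vertices, and zeros have degree at least two. -/
theorem data {p a j e : ℕ} (h : IsObstruction p a j e) :
    ∃ (T : SimpleGraph (Fin (e + 1))) (_ : DecidableRel T.Adj) (γ : Fin (e + 1) → ZMod p),
      T.IsTree ∧ T.edgeFinset.card = e ∧
      (univ.filter fun i => γ i ≠ 0).card = j ∧ 1 ≤ j ∧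
      (∀ i k, T.Adj i k → γ i ≠ 0 ∨ γ k ≠ 0) ∧
      (∀ x, (∑ y, if T.Adj x y then γ x - γ y else 0) = (a : ZMod p) * γ x) ∧
      (∀ x, γ x = 0 → 2 ≤ T.degree x) ∧ 2 * (univ.filter fun i => γ i = 0).card ≤ e := by
  classical
  obtain ⟨v, T, γ, hT, he, hj, hj1, hind, heig⟩ := h
  rw [Job26.eig_iff] at heig
  have hcard := hT.card_edgeFinset
  rw [Fintype.card_fin] at hcard
  have he' : T.edgeFinset.card = e := by
    rw [← he, Set.ncard_eq_toFinset_card' T.edgeSet]
    congr 1
  rw [he'] at hcard
  subst hcard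
  have hj' : (univ.filter fun i => γ i ≠ 0).card = j := by
    rw [← hj, ← Set.ncard_coe_finset]
    congr 1
    ext i
    simp
  have hdeg : ∀ x, γ x = 0 → 2 ≤ T.degree x := by
    intro x hx
    have hnt : Nontrivial (Fin (e + 1)) := by
      have : 0 < (univ.filter fun i => γ i ≠ 0).card := by omega
      rw [Finset.card_pos] at this
      obtain ⟨y, hy⟩ := this
      rw [mem_filter] at hy
      exact ⟨x, y, fun h => hy.2 (h ▸ hx)⟩
    have h1 : 0 < T.degree x := by
      have := hT.connected.preconnected.minDegree_pos_of_nontrivial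
      exact lt_of_lt_of_le this (T.minDegree_le_degree x)
    by_contra hlt
    have h2 : T.degree x = 1 := by omega
    rw [← SimpleGraph.card_neighborFinset_eq_degree, Finset.card_eq_one] at h2
    obtain ⟨y, hy⟩ := h2
    have hxy : ∀ z, T.Adj x z ↔ z = y := by
      intro z
      rw [← SimpleGraph.mem_neighborFinset, hy, mem_singleton]
    have h3 := heig x
    rw [hx, mul_zero] at h3
    rw [Finset.sum_eq_single y] at h3
    · rw [if_pos ((hxy y).mpr rfl), zero_sub, neg_eq_zero] at h3
      rcases hind x y ((hxy y).mpr rfl) with h4 | h4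
      · exact h4 hx
      · exact h4 h3
    · intro z _ hz
      exact if_neg (fun hh => hz ((hxy z).mp hh))
    · intro hh
      exact absurd (mem_univ _) hh
  refine ⟨T, inferInstance, γ, hT, ?_, hj', hj1, hind, ?_, ?_, ?_⟩
  · exact he'
  · intro x
    rw [← heig x]
  · exact hdeg
  · have hb : ((univ.filter fun i => γ i = 0).biUnion fun i => T.incidenceFinset i).card ≤ e := by
      refine le_trans ?_ he'.le
      apply Finset.card_le_card
      intro s hs
      rw [mem_biUnion] at hs
      obtain ⟨i, _, hi⟩ := hs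
      exact T.incidenceFinset_subset i hi
    rw [Finset.card_biUnion] at hb
    · refine le_trans ?_ hb
      rw [mul_comm, ← smul_eq_mul, ← Finset.sum_const]
      apply Finset.sum_le_sum
      intro i hi
      rw [SimpleGraph.card_incidenceFinset_eq_degree]
      rw [mem_filter] at hi
      exact hdeg i hi.2
    · intro i hi k hk hik
      rw [Finset.mem_coe, mem_filter] at hi hk
      show Disjoint (T.incidenceFinset i) (T.incidenceFinset k)
      rw [Finset.disjoint_left]
      intro s hs1 hs2
      rw [SimpleGraph.mem_incidenceFinset] at hs1 hs2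
      have hnadj : ¬ T.Adj i k := by
        intro hh
        rcases hind i k hh with h4 | h4
        · exact h4 hi.2
        · exact h4 hk.2
      have := T.incidenceSet_inter_incidenceSet_of_not_adj hnadj hik
      have h5 : s ∈ T.incidenceSet i ∩ T.incidenceSet k := ⟨hs1, hs2⟩
      rw [this] at h5
      exact h5

end Job19

theorem IsObstruction.edges_le {p a j e : ℕ} (h : IsObstruction p a j e) : e + 2 ≤ 2 * j := by
  obtain ⟨T, _, γ, -, -, hj, hj1, -, -, -, h2⟩ := Job19.data h
  have h3 := Finset.card_filter_add_card_filter_not (s := (Finset.univ : Finset (Fin (e + 1))))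
    (fun i => γ i = 0)
  rw [Finset.card_univ, Fintype.card_fin] at h3
  have h4 : (Finset.univ.filter fun i => ¬ γ i = 0).card = j := hj
  omega

namespace Job19

open Finset

theorem small_one {p a e : ℕ} [Fact p.Prime] (h : IsObstruction p a 1 e) :
    e = 0 ∧ (a : ZMod p) = 0 := by
  have he := h.edges_le
  have he0 : e = 0 := by omega
  subst he0
  obtain ⟨T, _, γ, -, -, hj, hj1, -, heig, -, -⟩ := data h
  refine ⟨rfl, ?_⟩
  have h0 : γ 0 ≠ 0 := by
    have : 0 < (univ.filter fun i => γ i ≠ 0).card := by omega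
    rw [Finset.card_pos] at this
    obtain ⟨y, hy⟩ := this
    rw [mem_filter] at hy
    have hy0 : y = 0 := Fin.eq_zero y
    rw [← hy0]
    exact hy.2
  have h1 := heig 0
  rw [Finset.sum_eq_zero] at h1
  · rcases mul_eq_zero.mp h1.symm with h2 | h2
    · exact h2
    · exact absurd h2 h0
  · intro y _
    have hy0 : y = 0 := Fin.eq_zero y
    subst hy0
    exact if_neg (T.loopless.irrefl _)

theorem small_two {p a e : ℕ} [Fact p.Prime] (h : IsObstruction p a 2 e) :
    (e = 1 ∧ ((a : ZMod p) = 0 ∨ (a : ZMod p) = 2)) ∨ (e = 2 ∧ (a : ZMod p) = 1) := by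
  have he := h.edges_le
  have he1 : 1 ≤ e := by
    obtain ⟨T, _, γ, -, -, hj, hj1, -, heig, -, -⟩ := data h
    have := Finset.card_le_univ (univ.filter fun i => γ i ≠ 0)
    rw [Fintype.card_fin] at this
    omega
  have he2 : e = 1 ∨ e = 2 := by omega
  rcases he2 with rfl | rfl
  · left
    refine ⟨rfl, ?_⟩
    obtain ⟨T, _, γ, hT, -, hj, hj1, -, heig, -, -⟩ := data h
    have hall : (univ.filter fun i => γ i ≠ 0) = univ := by
      rw [← Finset.card_eq_iff_eq_univ, hj]
      rfl
    have hne : ∀ i, γ i ≠ 0 := by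
      intro i
      have : i ∈ (univ.filter fun i => γ i ≠ 0) := by rw [hall]; exact mem_univ _
      exact (mem_filter.mp this).2
    have hadj : T.Adj 0 1 := by
      have h1 := hT.connected.preconnected.exists_adj_of_nontrivial (0 : Fin 2)
      obtain ⟨y, hy⟩ := h1
      fin_cases y
      · exact absurd hy (T.loopless.irrefl _)
      · exact hy
    have h0 := heig 0
    have h1 := heig 1
    rw [Fin.sum_univ_two] at h0 h1
    rw [if_neg (T.loopless.irrefl _), if_pos hadj] at h0
    rw [if_neg (T.loopless.irrefl _), if_pos hadj.symm] at h1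
    by_cases ha : (a : ZMod p) = 0
    · exact Or.inl ha
    · right
      have h2 : (a : ZMod p) * (γ 0 + γ 1) = 0 := by
        linear_combination -h0 - h1
      rcases mul_eq_zero.mp h2 with h3 | h3
      · exact absurd h3 ha
      · have h4 : (a - 2 : ZMod p) * γ 0 = 0 := by
          linear_combination -h0 - h3
        rcases mul_eq_zero.mp h4 with h5 | h5
        · exact sub_eq_zero.mp h5
        · exact absurd h5 (hne 0)
  · right
    refine ⟨rfl, ?_⟩
    obtain ⟨T, _, γ, hT, hcard, hj, hj1, hind, heig, hdeg, -⟩ := data h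
    have h3 := Finset.card_filter_add_card_filter_not (s := (Finset.univ : Finset (Fin (2 + 1))))
      (fun i => γ i = 0)
    rw [Finset.card_univ, Fintype.card_fin] at h3
    have h4 : (Finset.univ.filter fun i => ¬ γ i = 0).card = 2 := hj
    have h5 : (Finset.univ.filter fun i => γ i = 0).card = 1 := by omega
    rw [Finset.card_eq_one] at h5
    obtain ⟨z, hz⟩ := h5
    have hz' : ∀ i, γ i = 0 ↔ i = z := by
      intro i
      have : i ∈ (univ.filter fun i => γ i = 0) ↔ i ∈ ({z} : Finset (Fin (2 + 1))) := by rw [hz]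
      rw [mem_filter, mem_singleton] at this
      rw [← this]
      exact ⟨fun h => ⟨mem_univ _, h⟩, fun h => h.2⟩
    have hzd := hdeg z ((hz' z).mpr rfl)
    have hinc : T.incidenceFinset z = T.edgeFinset := by
      apply Finset.eq_of_subset_of_card_le (T.incidenceFinset_subset z)
      rw [hcard, SimpleGraph.card_incidenceFinset_eq_degree]
      exact hzd
    -- a vertex different from z
    obtain ⟨x, hx⟩ : ∃ x, x ≠ z := exists_ne z
    have hxz : T.Adj x z := by
      have hdx : 0 < T.degree x := by
        have := hT.connected.preconnected.minDegree_pos_of_nontrivial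
        exact lt_of_lt_of_le this (T.minDegree_le_degree x)
      rw [SimpleGraph.degree_pos_iff_exists_adj] at hdx
      obtain ⟨y, hy⟩ := hdx
      have h6 : s(x, y) ∈ T.incidenceFinset z := by
        rw [hinc, SimpleGraph.mem_edgeFinset]
        exact hy
      rw [SimpleGraph.mem_incidenceFinset] at h6
      have h7 := h6.2
      rw [Sym2.mem_iff] at h7
      rcases h7 with h7 | h7
      · exact absurd h7.symm hx
      · rw [h7]
        exact hy
    have hxy : ∀ y, T.Adj x y ↔ y = z := by
      intro y
      constructor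
      · intro hy
        have h6 : s(x, y) ∈ T.incidenceFinset z := by
          rw [hinc, SimpleGraph.mem_edgeFinset]
          exact hy
        rw [SimpleGraph.mem_incidenceFinset] at h6
        have h7 := h6.2
        rw [Sym2.mem_iff] at h7
        rcases h7 with h7 | h7
        · exact absurd h7.symm hx
        · exact h7.symm
      · intro hy
        rw [hy]
        exact hxz
    have h8 := heig x
    rw [Finset.sum_eq_single z] at h8
    · rw [if_pos hxz, (hz' z).mpr rfl, sub_zero] at h8
      have h9 : (a - 1 : ZMod p) * γ x = 0 := by linear_combination -h8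
      rcases mul_eq_zero.mp h9 with h5 | h5
      · exact sub_eq_zero.mp h5
      · exact absurd ((hz' x).mp h5) hx
    · intro y _ hy
      exact if_neg (fun hh => hy ((hxy y).mp hh))
    · intro hh
      exact absurd (mem_univ _) hh

theorem star {p a k : ℕ} (c b : ZMod p) (hc : c ≠ 0) (hb : k ≠ 0 → b ≠ 0)
    (h1 : k * (c - b) = a * c) (h2 : k ≠ 0 → b - c = a * b) : IsObstruction p a (k + 1) k := by
  classical
  have hk : ∀ i : Fin k, k ≠ 0 := fun i => by
    have := i.2
    omega
  refine ⟨k + 1, SimpleGraph.starGraph 0, Fin.cons c fun _ => b, SimpleGraph.isTree_starGraph _,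
    ?_, ?_, by omega, ?_, ?_⟩
  · have := (SimpleGraph.isTree_starGraph (0 : Fin (k + 1))).card_edgeFinset
    rw [Fintype.card_fin] at this
    rw [Set.ncard_eq_toFinset_card']
    have h3 : (SimpleGraph.starGraph (0 : Fin (k + 1))).edgeFinset.card = k := by omega
    exact h3
  · have : {i : Fin (k + 1) | (Fin.cons c fun _ => b : Fin (k + 1) → ZMod p) i ≠ 0} =
        Set.univ := by
      rw [Set.eq_univ_iff_forall]
      intro i
      refine Fin.cases ?_ (fun i => ?_) i
      · exact hc
      · exact hb (hk i)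
    rw [this, Set.ncard_univ, Nat.card_eq_fintype_card, Fintype.card_fin]
  · intro i _ _
    left
    refine Fin.cases ?_ (fun i => ?_) i
    · exact hc
    · exact hb (hk i)
  · rw [Job26.eig_iff]
    intro x
    refine Fin.cases ?_ (fun x => ?_) x
    · rw [Fin.sum_univ_succ, if_neg (SimpleGraph.irrefl _), zero_add]
      rw [Fin.cons_zero, ← h1, Finset.sum_congr rfl (g := fun _ => c - b)]
      · rw [Finset.sum_const, Finset.card_univ, Fintype.card_fin, nsmul_eq_mul]
      · intro i _
        rw [if_pos, Fin.cons_succ]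
        rw [SimpleGraph.starGraph_adj]
        exact ⟨(Fin.succ_ne_zero i).symm, Or.inl rfl⟩
    · rw [Fin.sum_univ_succ, if_pos, Finset.sum_eq_zero, add_zero]
      · exact h2 (hk x)
      · intro y _
        rw [if_neg]
        rw [SimpleGraph.starGraph_adj]
        rintro ⟨_, h | h⟩
        · exact Fin.succ_ne_zero _ h
        · exact Fin.succ_ne_zero _ h
      · rw [SimpleGraph.starGraph_adj]
        exact ⟨Fin.succ_ne_zero _, Or.inr rfl⟩

theorem path {p a : ℕ} [Fact p.Prime] (ha : (a : ZMod p) = 1) : IsObstruction p a 2 2 := by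
  classical
  refine ⟨3, SimpleGraph.starGraph 0, ![0, 1, -1], SimpleGraph.isTree_starGraph _,
    ?_, ?_, by omega, ?_, ?_⟩
  · have := (SimpleGraph.isTree_starGraph (0 : Fin 3)).card_edgeFinset
    rw [Fintype.card_fin] at this
    rw [Set.ncard_eq_toFinset_card']
    have h3 : (SimpleGraph.starGraph (0 : Fin 3)).edgeFinset.card = 2 := by omega
    exact h3
  · have : {i : Fin 3 | (![0, 1, -1] : Fin 3 → ZMod p) i ≠ 0} = {1, 2} := by
      ext i
      fin_cases i <;> simp
    rw [this]
    rw [Set.ncard_pair (by decide)]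
  · intro i k hik
    rw [SimpleGraph.starGraph_adj] at hik
    fin_cases i <;> fin_cases k <;> simp at hik ⊢
  · rw [Job26.eig_iff, ha]
    intro x
    rw [Fin.sum_univ_three]
    fin_cases x <;> simp

end Job19

namespace Job19

theorem star_ge_two {p a : ℕ} (hp : p.Prime) (ha : 2 ≤ a % p) :
    IsObstruction p a (a % p) (a % p - 1) := by
  have hlt : a % p < p := Nat.mod_lt _ hp.pos
  obtain ⟨k, hk⟩ : ∃ k, a % p = k + 1 := ⟨a % p - 1, by omega⟩
  have hcast : (a : ZMod p) = k + 1 := by
    rw [← ZMod.natCast_mod a p, hk, Nat.cast_add, Nat.cast_one]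
  rw [hk, Nat.add_sub_cancel]
  have : Fact p.Prime := ⟨hp⟩
  apply star (k : ZMod p) (-1 : ZMod p)
  · intro h
    rw [ZMod.natCast_eq_zero_iff] at h
    have := Nat.le_of_dvd (by omega) h
    omega
  · intro _
    exact neg_ne_zero.mpr one_ne_zero
  · rw [hcast]; ring
  · intro _
    rw [hcast]; ring

theorem single {p a : ℕ} (hp : p.Prime) (ha : (a : ZMod p) = 0) : IsObstruction p a 1 0 := by
  have : Fact p.Prime := ⟨hp⟩
  apply star (k := 0) (1 : ZMod p) (1 : ZMod p) one_ne_zero
  · intro h; exact absurd rfl h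
  · rw [ha, Nat.cast_zero, zero_mul, zero_mul]
  · intro h; exact absurd rfl h

theorem jmin_eq {p a j e : ℕ} (h : IsObstruction p a j e)
    (hlow : ∀ j' e', IsObstruction p a j' e' → j ≤ j') : jmin p a = j := by
  apply le_antisymm
  · exact Nat.sInf_le ⟨e, h⟩
  · refine le_csInf (s := {j | ∃ e, IsObstruction p a j e}) ⟨j, e, h⟩ ?_
    rintro j' ⟨e', h'⟩
    exact hlow j' e' h'

theorem emax_eq {p a j e : ℕ} (hj : jmin p a = j) (h : IsObstruction p a j e)
    (hup : ∀ e', IsObstruction p a j e' → e' ≤ e) : emax p a = e := by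
  unfold emax
  rw [hj]
  apply le_antisymm
  · apply csSup_le ⟨e, h⟩
    intro e' h'
    exact hup e' h'
  · apply le_csSup
    · exact ⟨e, fun e' h' => hup e' h'⟩
    · exact h

theorem one_le {p a j e : ℕ} (h : IsObstruction p a j e) : 1 ≤ j := by
  obtain ⟨_, _, _, _, _, _, h, _⟩ := h
  exact h

end Job19

theorem exists_isObstruction {p : ℕ} (hp : p.Prime) (a : ℕ) : ∃ j e, IsObstruction p a j e := by
  have : Fact p.Prime := ⟨hp⟩
  rcases Nat.lt_or_ge (a % p) 2 with h | h
  · rcases Nat.lt_or_ge (a % p) 1 with h' | h'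
    · refine ⟨1, 0, Job19.single hp ?_⟩
      rw [ZMod.natCast_eq_zero_iff]
      exact Nat.dvd_of_mod_eq_zero (by omega)
    · refine ⟨2, 2, Job19.path ?_⟩
      have h1 : a % p = 1 := by omega
      rw [← ZMod.natCast_mod a p, h1, Nat.cast_one]
  · exact ⟨_, _, Job19.star_ge_two hp h⟩

theorem jmin_emax_zero {p : ℕ} (hp : p.Prime) {a : ℕ} (ha : p ∣ a) :
    jmin p a = 1 ∧ emax p a = 0 := by
  have : Fact p.Prime := ⟨hp⟩
  have h := Job19.single hp ((ZMod.natCast_eq_zero_iff a p).mpr ha)
  have hj : jmin p a = 1 := Job19.jmin_eq h fun j' e' h' => Job19.one_le h'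
  refine ⟨hj, Job19.emax_eq hj h ?_⟩
  intro e' h'
  exact (Job19.small_one h').1.le

theorem jmin_emax_one {p : ℕ} (hp : p.Prime) {a : ℕ} (ha : a ≡ 1 [MOD p]) :
    jmin p a = 2 ∧ emax p a = 2 := by
  have : Fact p.Prime := ⟨hp⟩
  have ha1 : (a : ZMod p) = 1 := by
    rw [(ZMod.natCast_eq_natCast_iff a 1 p).mpr ha, Nat.cast_one]
  have h : IsObstruction p a 2 2 := Job19.path ha1
  have hj : jmin p a = 2 := by
    apply Job19.jmin_eq h
    intro j' e' h'
    have h1 := Job19.one_le h'
    by_contra hlt
    have h2 : j' = 1 := by omega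
    subst h2
    have := (Job19.small_one h').2
    rw [ha1] at this
    exact one_ne_zero this
  refine ⟨hj, Job19.emax_eq hj h ?_⟩
  intro e' h'
  have := h'.edges_le
  omega

theorem jmin_emax_two {p : ℕ} (hp : p.Prime) (hp2 : 2 < p) {a : ℕ} (ha : a ≡ 2 [MOD p]) :
    jmin p a = 2 ∧ emax p a = 1 := by
  have : Fact p.Prime := ⟨hp⟩
  have ha2 : (a : ZMod p) = 2 := by
    rw [(ZMod.natCast_eq_natCast_iff a 2 p).mpr ha, Nat.cast_ofNat]
  have ham : a % p = 2 := by
    have : a % p = 2 % p := ha
    rw [this]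
    exact Nat.mod_eq_of_lt hp2
  have h : IsObstruction p a 2 1 := by
    have := Job19.star_ge_two hp (a := a) (by omega)
    rw [ham] at this
    exact this
  have h20 : (2 : ZMod p) ≠ 0 := by
    intro h
    have h' : ((2 : ℕ) : ZMod p) = 0 := by rw [Nat.cast_ofNat]; exact h
    rw [ZMod.natCast_eq_zero_iff] at h'
    have := Nat.le_of_dvd (by omega) h'
    omega
  have hj : jmin p a = 2 := by
    apply Job19.jmin_eq h
    intro j' e' h'
    have h1 := Job19.one_le h'
    by_contra hlt
    have h2 : j' = 1 := by omega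
    subst h2
    have := (Job19.small_one h').2
    rw [ha2] at this
    exact h20 this
  refine ⟨hj, Job19.emax_eq hj h ?_⟩
  intro e' h'
  rcases Job19.small_two h' with ⟨h1, _⟩ | ⟨_, h1⟩
  · exact h1.le
  · exfalso
    rw [ha2] at h1
    have : (1 : ZMod p) = 0 := by linear_combination h1
    exact one_ne_zero this

theorem jmin_other {p : ℕ} (hp : p.Prime) {a : ℕ} (ha : 3 ≤ a % p) :
    3 ≤ jmin p a ∧ jmin p a ≤ a % p := by
  have : Fact p.Prime := ⟨hp⟩
  have hlt : a % p < p := Nat.mod_lt _ hp.pos
  have h : IsObstruction p a (a % p) (a % p - 1) := Job19.star_ge_two hp (by omega)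
  have hne : ∀ k : ℕ, k < 3 → (a : ZMod p) ≠ k := by
    intro k hk heq
    rw [ZMod.natCast_eq_natCast_iff] at heq
    have h1 : a % p = k % p := heq
    have h2 : k % p ≤ k := Nat.mod_le _ _
    omega
  constructor
  · refine le_csInf (s := {j | ∃ e, IsObstruction p a j e}) ⟨_, _, h⟩ ?_
    rintro j' ⟨e', h'⟩
    have h1 := Job19.one_le h'
    by_contra hlt
    have h2 : j' = 1 ∨ j' = 2 := by omega
    rcases h2 with rfl | rfl
    · have := (Job19.small_one h').2
      apply hne 0 (by omega)
      rw [Nat.cast_zero]; exact this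
    · rcases Job19.small_two h' with ⟨_, h3 | h3⟩ | ⟨_, h3⟩
      · apply hne 0 (by omega)
        rw [Nat.cast_zero]; exact h3
      · apply hne 2 (by omega)
        rw [Nat.cast_ofNat]; exact h3
      · apply hne 1 (by omega)
        rw [Nat.cast_one]; exact h3
  · exact Nat.sInf_le ⟨_, h⟩

end Pool.Agent.Lib.MP_49901c_pr
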