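import Mathlib
import Pool.Agent.Lib.MP_49901c_pr.Connected
import Pool.Agent.Lib.MP_49901c_pr.Job12
import Pool.Agent.Lib.MP_49901c_pr.Job13
import Pool.Agent.Lib.MP_49901c_pr.Job15
import Pool.Agent.Lib.MP_49901c_pr.Job16
import Pool.Agent.Lib.MP_49901c_pr.Job17
import Pool.Agent.Lib.MP_49901c_pr.Job18
import Pool.Agent.Lib.MP_49901c_pr.Job19

/-!
# Dense random graphs: sufficiency of the threshold condition
-/

namespace Pool.Agent.Lib.MP_49901c_pr

open Finset Filter Topology

theorem isObstruction_congr {p a b j e : ℕ} (h : (a : ZMod p) = b) :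
    IsObstruction p a j e ↔ IsObstruction p b j e := by
  unfold IsObstruction
  rw [h]

theorem jmin_spec {p : ℕ} (hp : p.Prime) (a : ℕ) : ∃ e, IsObstruction p a (jmin p a) e :=
  Nat.sInf_mem (s := {j | ∃ e, IsObstruction p a j e}) (exists_isObstruction hp a)

theorem jmin_le {p a j e : ℕ} (h : IsObstruction p a j e) : jmin p a ≤ j :=
  Nat.sInf_le (s := {j | ∃ e, IsObstruction p a j e}) ⟨e, h⟩

theorem one_le_jmin {p : ℕ} (hp : p.Prime) (a : ℕ) : 1 ≤ jmin p a := by
  obtain ⟨e, v, T, γ, -, -, -, h, -⟩ := jmin_spec hp a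
  exact h

theorem bddAbove_emax (p a : ℕ) : BddAbove {e | IsObstruction p a (jmin p a) e} := by
  refine ⟨2 * jmin p a, fun e he => ?_⟩
  have := IsObstruction.edges_le he
  omega

theorem emax_spec {p : ℕ} (hp : p.Prime) (a : ℕ) : IsObstruction p a (jmin p a) (emax p a) :=
  Nat.sSup_mem (s := {e | IsObstruction p a (jmin p a) e}) (jmin_spec hp a) (bddAbove_emax p a)

theorem le_emax {p a e : ℕ} (h : IsObstruction p a (jmin p a) e) : e ≤ emax p a :=
  le_csSup (bddAbove_emax p a) h

theorem jmin_congr {p a b : ℕ} (h : (a : ZMod p) = b) : jmin p a = jmin p b := by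
  unfold jmin
  simp only [isObstruction_congr h]

theorem emax_congr {p a b : ℕ} (h : (a : ZMod p) = b) : emax p a = emax p b := by
  unfold emax
  rw [jmin_congr h]
  simp only [isObstruction_congr h]

open scoped Classical in
theorem linkSum_le_of {n : ℕ} {A : Type} [AddCommGroup A] [Fintype A] {r : ℝ} (h1 : r < 1)
    (t : ℕ) (B : ℕ → ℝ) (hB0 : ∀ j ∈ Icc 1 t, 0 ≤ B j)
    (hB : ∀ γ : Fin n → A, 1 ≤ (supp γ).card → (supp γ).card ≤ t →
      Ex r (fun ω : Pr n → Bool => if Val ω γ ∧ Linked ω (supp γ) then (1 : ℝ) else 0) ≤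
        B (supp γ).card) :
    linkSum r n A t ≤ ∑ j ∈ Icc 1 t, (n.choose j : ℝ) * (Fintype.card A : ℝ) ^ j *
      ((1 - r)⁻¹) ^ (j * t) * B j := by
  have hr : 0 ≤ (1 - r)⁻¹ := by
    rw [inv_nonneg]
    linarith
  unfold linkSum
  have h2 : ∀ γ : Fin n → A, (if γ ≠ 0 ∧ (supp γ).card ≤ t then
      Ex r (fun ω : Pr n → Bool => if Val ω γ ∧ Linked ω (supp γ) then (1 : ℝ) else 0) *
      ((1 - r)⁻¹) ^ ((supp γ).card * t) else 0) ≤
      ∑ j ∈ Icc 1 t, if (supp γ).card = j then B j * ((1 - r)⁻¹) ^ (j * t) else 0 := by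
    intro γ
    have hnn : ∀ j ∈ Icc 1 t, 0 ≤ (if (supp γ).card = j then B j * ((1 - r)⁻¹) ^ (j * t)
        else 0) := by
      intro j hj
      split_ifs
      · exact mul_nonneg (hB0 j hj) (pow_nonneg hr _)
      · exact le_rfl
    split_ifs with h
    · have h3 : 1 ≤ (supp γ).card := by
        rw [Nat.one_le_iff_ne_zero, Ne, card_eq_zero, supp, filter_eq_empty_iff]
        intro h4
        apply h.1
        funext i
        have := h4 (mem_univ i)
        push Not at this
        exact this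
      refine le_trans ?_ (single_le_sum hnn (mem_Icc.mpr ⟨h3, h.2⟩))
      rw [if_pos rfl]
      exact mul_le_mul_of_nonneg_right (hB γ h3 h.2) (pow_nonneg hr _)
    · exact sum_nonneg hnn
  refine (sum_le_sum fun γ _ => h2 γ).trans ?_
  rw [sum_comm]
  apply sum_le_sum
  intro j hj
  rw [← sum_filter, sum_const, nsmul_eq_mul]
  have h4 := card_support_le (n := n) (A := A) j
  have h5 : (((univ.filter fun γ : Fin n → A => (supp γ).card = j).card :
      ℕ) : ℝ) ≤ (n.choose j : ℝ) * (Fintype.card A : ℝ) ^ j := by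
    unfold supp
    exact_mod_cast h4
  calc _ ≤ (n.choose j : ℝ) * (Fintype.card A : ℝ) ^ j * (B j * ((1 - r)⁻¹) ^ (j * t)) :=
        mul_le_mul_of_nonneg_right h5 (mul_nonneg (hB0 j hj) (pow_nonneg hr _))
    _ = _ := by ring

theorem prob_bound_nonneg {r : ℝ} (h0 : 0 ≤ r) (h1 : r ≤ 1) (j : ℕ) :
    0 ≤ 1 - j * r * (1 - r) ^ (j - 1) := by
  rcases Nat.eq_zero_or_pos j with h | h
  · subst h; simp
  · have h2 : ∀ k : ℕ, ((k : ℝ) + 1) * r * (1 - r) ^ k ≤ 1 := by
      intro k
      have h3 := add_pow r (1 - r) (k + 1)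
      have h4 : ∑ m ∈ range (k + 1 + 1), r ^ m * (1 - r) ^ (k + 1 - m) *
          ((k + 1).choose m) = (1 : ℝ) := by
        rw [← h3]; simp
      have h5 : ((k : ℝ) + 1) * r * (1 - r) ^ k = r ^ 1 * (1 - r) ^ (k + 1 - 1) *
          ((k + 1).choose 1) := by
        rw [Nat.choose_one_right]
        push_cast
        ring
      rw [h5]
      refine le_trans ?_ h4.le
      apply single_le_sum (f := fun m => r ^ m * (1 - r) ^ (k + 1 - m) * (((k + 1).choose m) : ℝ))
      · intro m _
        have : 0 ≤ 1 - r := by linarith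
        positivity
      · simp
    obtain ⟨k, rfl⟩ : ∃ k, j = k + 1 := ⟨j - 1, by omega⟩
    have h3 := h2 k
    rw [Nat.add_sub_cancel]
    push_cast
    linarith

/-- The small support sums along a residue class, near the threshold. -/
theorem tendsto_smallSum_class {p : ℕ} (hp : p.Prime) (c : ℕ) (a : ℕ) (ha : 1 ≤ a) :
    ∃ η₀ : ℝ, 0 < η₀ ∧ ∀ (q : ℕ → ℝ) (l : Filter ℕ), l ≤ atTop →
      (∀ᶠ n : ℕ in l, (n : ZMod p) = (c : ZMod p)) → (∀ n, 0 < q n) → (∀ n, q n < 1) →
      (∀ᶠ n : ℕ in l, n * (1 - q n) ≤ 2 * Real.log n) →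
      Tendsto (fun n : ℕ => jmin p c * (n * (1 - q n)) - Real.log n -
        emax p c * Real.log (Real.log n)) l atTop →
      ∀ (A : Type) [AddCommGroup A] [Fintype A], Fintype.card A ≤ a →
        (∃ k, ∀ x : A, p ^ k • x = 0) → ∀ η : ℝ, 0 < η → η ≤ η₀ →
        Tendsto (fun n : ℕ => smallSum (q n) n A ⌊η * n⌋₊) l (𝓝 0) := by
  classical
  set j₀ := jmin p c with hj₀
  set e₀ := emax p c with he₀
  have hj1 : 1 ≤ j₀ := one_le_jmin hp c
  have ha1 : (1 : ℝ) ≤ a := by exact_mod_cast ha
  obtain ⟨η₀, hη₀, H⟩ := exists_eta_tendsto_dense j₀ hj1 a ha1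
  refine ⟨η₀, hη₀, fun q l hl hclass h0 h1 hy hlim A _ _ hA hAk η hη hηle => ?_⟩
  have hr0 : ∀ n, 0 < 1 - q n := fun n => by linarith [h1 n]
  have hr1 : ∀ n, 1 - q n < 1 := fun n => by linarith [h0 n]
  set t : ℕ → ℕ := fun n => ⌊(n : ℝ) ^ (1 - 1 / (4 * (j₀ : ℝ)))⌋₊ with ht
  -- `log n ≤ j₀ n r`
  have hlog : ∀ᶠ n : ℕ in l, Real.log n ≤ j₀ * (n * (1 - q n)) := by
    have h2 : ∀ᶠ n : ℕ in l, 0 ≤ j₀ * (n * (1 - q n)) - Real.log n -
        e₀ * Real.log (Real.log n) := hlim.eventually_ge_atTop 0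
    have h3 : ∀ᶠ n : ℕ in l, 3 ≤ n := hl (eventually_ge_atTop 3)
    filter_upwards [h2, h3] with n h4 h5
    have h6 : (1 : ℝ) ≤ Real.log n := by
      rw [Real.le_log_iff_exp_le (by positivity)]
      have : Real.exp 1 < 2.7182818286 := Real.exp_one_lt_d9
      have h7 : (3 : ℝ) ≤ n := by exact_mod_cast h5
      linarith
    have h7 : 0 ≤ Real.log (Real.log n) := Real.log_nonneg h6
    have h8 : 0 ≤ (e₀ : ℝ) * Real.log (Real.log n) := by positivity
    linarith
  -- `q n ≥ 1 / 2`
  have hq2 : ∀ᶠ n : ℕ in l, 1 / 2 ≤ q n := by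
    have h2 : Tendsto (fun n : ℕ => 2 * Real.log n / n) atTop (𝓝 0) := by
      have h3 : Tendsto (fun x : ℝ => Real.log x / x) atTop (𝓝 0) :=
        Real.isLittleO_log_id_atTop.tendsto_div_nhds_zero
      have h4 := (h3.comp tendsto_natCast_atTop_atTop).const_mul 2
      rw [mul_zero] at h4
      refine h4.congr fun n => ?_
      simp only [Function.comp_apply]
      ring
    have h3 : ∀ᶠ n : ℕ in l, 2 * Real.log n / n < 1 / 2 :=
      hl (h2.eventually_lt_const (by norm_num))
    have h4 : ∀ᶠ n : ℕ in l, 1 ≤ n := hl (eventually_ge_atTop 1)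
    filter_upwards [h3, h4, hy] with n h5 h6 h7
    have h8 : (0 : ℝ) < n := by exact_mod_cast h6
    rw [div_lt_iff₀ h8] at h5
    nlinarith
  obtain ⟨HS2, HS3⟩ := H l hl (fun n => 1 - q n) hr0 hr1 hy hlog
  have HS1 := tendsto_linked_bound j₀ e₀ hj1 a ha1 (IsObstruction p c)
    (fun j e h => jmin_le h) (fun e h => le_emax h) l hl (fun n => 1 - q n) hr0 hr1 hy hlim
  set B : ℕ → ℕ → ℝ := fun n j => (if j ≤ j₀ then
        ∑ m ∈ range j, (n.choose m : ℝ) * ((j + m : ℕ) : ℝ) ^ (j - 1) * (j : ℝ) ^ m *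
          (1 - q n) ^ (j - 1 + m) *
          ((if IsObstruction p c j (j - 1 + m) then (1 - (1 - q n)) ^ (j * (n - j - m)) else 0) +
            (j * (j + m) : ℕ) * (1 - q n) *
              (1 - j * (1 - q n) * (1 - (1 - q n)) ^ (j - 1)) ^ (n - j - m) +
            n * (j : ℝ) ^ 2 * (1 - q n) ^ 2 *
              (1 - j * (1 - q n) * (1 - (1 - q n)) ^ (j - 1)) ^ (n - j - m - 1))
      else
        ∑ m ∈ range j, (n.choose m : ℝ) * ((j + m : ℕ) : ℝ) ^ (j - 1) * (j : ℝ) ^ m *
          (1 - q n) ^ (j - 1 + m) *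
          (1 - j * (1 - q n) * (1 - (1 - q n)) ^ (j - 1)) ^ (n - j - m)) with hB
  have hBnn : ∀ n j, 0 ≤ B n j := by
    intro n j
    have h2 := hr0 n
    have h3 : 0 ≤ 1 - (1 - q n) := by linarith [h0 n]
    have h4 := prob_bound_nonneg (hr0 n).le (hr1 n).le j
    simp only [hB]
    split_ifs
    · apply sum_nonneg
      intro m _
      have h5 : (0 : ℝ) ≤ (if IsObstruction p c j (j - 1 + m) then
          (1 - (1 - q n)) ^ (j * (n - j - m)) else 0) := by
        split_ifs
        · positivity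
        · exact le_rfl
      have h6 := pow_nonneg h4 (n - j - m)
      have h7 := pow_nonneg h4 (n - j - m - 1)
      positivity
    · apply sum_nonneg
      intro m _
      have h6 := pow_nonneg h4 (n - j - m)
      positivity
  have hlink : ∀ᶠ n : ℕ in l, linkSum (1 - q n) n A (t n) ≤ ∑ j ∈ Icc 1 (t n),
      (n.choose j : ℝ) * (a : ℝ) ^ j * ((1 - (1 - q n))⁻¹) ^ (j * t n) * B n j := by
    filter_upwards [hclass] with n hn
    have h2 : linkSum (1 - q n) n A (t n) ≤ ∑ j ∈ Icc 1 (t n),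
      (n.choose j : ℝ) * (Fintype.card A : ℝ) ^ j * ((1 - (1 - q n))⁻¹) ^ (j * t n) * B n j := by
      apply linkSum_le_of (hr1 n) (t n) (B n) (fun j _ => hBnn n j)
      intro γ h3 h4
      by_cases h5 : (supp γ).card ≤ j₀
      · have h6 := Ex_linked_le_small hp hAk (hr0 n).le (hr1 n).le γ rfl h3 (by
          intro j' e' h7
          rw [isObstruction_congr hn] at h7
          exact h5.trans (jmin_le h7))
        simp only [hB]
        rw [if_pos h5]
        simp only [isObstruction_congr (j := (supp γ).card) hn] at h6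
        exact h6
      · have h6 := Ex_linked_le (hr0 n).le (hr1 n).le γ rfl h3
        simp only [hB]
        rw [if_neg h5]
        exact h6
    refine h2.trans ?_
    apply sum_le_sum
    intro j _
    have h3 : (Fintype.card A : ℝ) ≤ a := by exact_mod_cast hA
    have h4 : 0 ≤ (1 - (1 - q n))⁻¹ := by
      rw [inv_nonneg]
      linarith [h0 n]
    have h5 := hBnn n j
    have h6 : (Fintype.card A : ℝ) ^ j ≤ (a : ℝ) ^ j := pow_le_pow_left₀ (by positivity) h3 j
    gcongr
  have hlink0 : Tendsto (fun n : ℕ => linkSum (1 - q n) n A (t n)) l (𝓝 0) := by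
    refine tendsto_of_tendsto_of_tendsto_of_le_of_le' tendsto_const_nhds HS1 ?_ hlink
    filter_upwards with n
    unfold linkSum
    apply sum_nonneg
    intro γ _
    split_ifs
    · apply mul_nonneg
      · apply Ex_nonneg (hr0 n).le (hr1 n).le
        intro ω
        split_ifs <;> norm_num
      · apply pow_nonneg
        rw [inv_nonneg]
        linarith [h0 n]
    · exact le_rfl
  have hval0 : Tendsto (fun n : ℕ => valSum (1 - q n) n A (t n)) l (𝓝 0) := by
    have h2 : Tendsto (fun n : ℕ => 2 * linkSum (1 - q n) n A (t n)) l (𝓝 0) := by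
      have := hlink0.const_mul 2
      rwa [mul_zero] at this
    have hnn : ∀ n, 0 ≤ valSum (1 - q n) n A (t n) := by
      intro n
      unfold valSum
      apply sum_nonneg
      intro γ _
      split_ifs
      · apply Ex_nonneg (hr0 n).le (hr1 n).le
        intro ω
        split_ifs <;> norm_num
      · exact le_rfl
    refine tendsto_of_tendsto_of_tendsto_of_le_of_le' tendsto_const_nhds h2
      (Eventually.of_forall hnn) ?_
    have h3 : ∀ᶠ n : ℕ in l, linkSum (1 - q n) n A (t n) < 1 / 2 :=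
      hlink0.eventually_lt_const (by norm_num)
    filter_upwards [h3] with n h4
    have h5 := valSum_le (A := A) (n := n) (hr0 n).le (hr1 n) (t n)
    have h6 := hnn n
    nlinarith
  -- conclusion
  have hsmall : ∀ᶠ n : ℕ in l, smallSum (q n) n A ⌊η * n⌋₊ ≤ valSum (1 - q n) n A (t n) +
      ∑ j ∈ Icc 1 (t n), (n.choose j : ℝ) * (a : ℝ) ^ j * (j * (1 - q n)) ^ (n - j) +
      ∑ j ∈ Icc (t n + 1) ⌊η₀ * n⌋₊, ((n.choose j : ℝ) * (a : ℝ) ^ j *
        (bfun j (1 - q n)) ^ (n - j) +
        (n.choose j : ℝ) * (a : ℝ) ^ j * (7 / 8 : ℝ) ^ (n - j)) := by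
    filter_upwards [hq2] with n h2
    have h3 := smallSum_le_dense (A := A) (n := n) h2 (h1 n) (t n) ⌊η * n⌋₊
    refine h3.trans ?_
    have h4 : (Fintype.card A : ℝ) ≤ a := by exact_mod_cast hA
    have h5 : ∀ j, (Fintype.card A : ℝ) ^ j ≤ (a : ℝ) ^ j := fun j =>
      pow_le_pow_left₀ (by positivity) h4 j
    have h6 := hr0 n
    have h7 : ∀ j, 0 ≤ bfun j (1 - q n) := fun j => bfun_nonneg (hr0 n).le (hr1 n).le j
    have h8 : ⌊η * n⌋₊ ≤ ⌊η₀ * n⌋₊ := Nat.floor_le_floor (by
      apply mul_le_mul_of_nonneg_right hηle (Nat.cast_nonneg n))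
    apply add_le_add (add_le_add le_rfl ?_)
    · refine le_trans (sum_le_sum_of_subset_of_nonneg (Icc_subset_Icc_right h8) ?_) ?_
      · intro j _ _
        have := h7 j
        positivity
      · apply sum_le_sum
        intro j _
        have h9 := h5 j
        have := h7 j
        gcongr
    · apply sum_le_sum
      intro j _
      have h9 := h5 j
      gcongr
  have hfin := (hval0.add HS2).add HS3
  rw [add_zero, add_zero] at hfin
  refine tendsto_of_tendsto_of_tendsto_of_le_of_le' tendsto_const_nhds hfin ?_ hsmall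
  filter_upwards with n
  unfold smallSum
  apply sum_nonneg
  intro γ _
  split_ifs
  · apply Ex_nonneg (h0 n).le (h1 n).le
    intro ω
    split_ifs <;> norm_num
  · exact le_rfl

theorem natCast_mod_eq (p n : ℕ) : ((n % p : ℕ) : ZMod p) = (n : ZMod p) := by
  rw [ZMod.natCast_mod]

/-- The threshold conditions imply the bound on small supports. -/
theorem smallSupport_threshold {p : ℕ} (hp : p.Prime) {q : ℕ → ℝ} (h0 : ∀ n, 0 < q n)
    (h1 : ∀ n, q n < 1) (hlim0 : Tendsto (fun n : ℕ => n * q n - Real.log n) atTop atTop)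
    (hlim : Tendsto (fun n : ℕ => jmin p n * (n * (1 - q n)) - Real.log n -
      emax p n * Real.log (Real.log n)) atTop atTop) : SmallSupport p q := by
  classical
  intro a ha
  -- the choice of `η₀`
  obtain ⟨η₁, hη₁, H1⟩ := exists_eta_smallSum a ha
  choose η₂ hη₂ H2 using fun c : ℕ => tendsto_smallSum_class hp c a ha
  obtain ⟨η₃, hη₃, hle3⟩ : ∃ η₃ : ℝ, 0 < η₃ ∧ ∀ c ∈ range p, η₃ ≤ η₂ c := by
    have hne : (range p).Nonempty := ⟨0, mem_range.mpr hp.pos⟩
    refine ⟨(range p).inf' hne η₂, ?_, fun c hc => inf'_le _ hc⟩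
    exact (lt_inf'_iff hne).mpr fun c _ => hη₂ c
  refine ⟨min η₁ η₃, lt_min hη₁ hη₃, fun A _ _ hA hAk η hη hηle => ?_⟩
  set f : ℕ → ℝ := fun n => smallSum (q n) n A ⌊η * n⌋₊ with hf
  -- the easy indices
  set P : ℕ → Prop := fun n => p ∣ n ∨ 2 * Real.log n ≤ n * (1 - q n) with hP
  have easy : Tendsto f (atTop ⊓ 𝓟 {n | P n}) (𝓝 0) := by
    set q' : ℕ → ℝ := fun n => if P n then q n else 1 / 2 with hq'
    have h0' : ∀ n, 0 < q' n := by
      intro n
      simp only [hq']
      split_ifs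
      · exact h0 n
      · norm_num
    have h1' : ∀ n, q' n < 1 := by
      intro n
      simp only [hq']
      split_ifs
      · exact h1 n
      · norm_num
    have hlim' : Tendsto (fun n : ℕ => n * min (q' n) (1 - q' n) - Real.log n) atTop atTop := by
      have hlogn : Tendsto (fun n : ℕ => Real.log n) atTop atTop :=
        Real.tendsto_log_atTop.comp tendsto_natCast_atTop_atTop
      have hhalf : Tendsto (fun n : ℕ => (n : ℝ) * (1 / 2) - Real.log n) atTop atTop := by
        have h3 : Tendsto (fun x : ℝ => Real.log x / x) atTop (𝓝 0) :=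
          Real.isLittleO_log_id_atTop.tendsto_div_nhds_zero
        have h4 := h3.comp tendsto_natCast_atTop_atTop
        have h5 : ∀ᶠ n : ℕ in atTop, (n : ℝ) * (1 / 4) ≤ (n : ℝ) * (1 / 2) - Real.log n := by
          filter_upwards [h4.eventually_lt_const (show (0 : ℝ) < 1 / 4 by norm_num),
            eventually_ge_atTop 1] with n h6 h7
          simp only [Function.comp_apply] at h6
          have h8 : (0 : ℝ) < n := by exact_mod_cast h7
          rw [div_lt_iff₀ h8] at h6
          linarith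
        refine tendsto_atTop_mono' _ h5 ?_
        exact tendsto_natCast_atTop_atTop.atTop_mul_const (by norm_num)
      rw [tendsto_atTop]
      intro M
      filter_upwards [tendsto_atTop.mp hlogn M, tendsto_atTop.mp hhalf M,
        tendsto_atTop.mp hlim M, tendsto_atTop.mp hlim0 M] with n h3 h4 h5 h6
      by_cases hPn : P n
      · have h7 : q' n = q n := by simp only [hq']; rw [if_pos hPn]
        rw [h7]
        rcases le_total (q n) (1 - q n) with h10 | h10
        · rw [min_eq_left h10]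
          exact h6
        · rw [min_eq_right h10]
          rcases hPn with h8 | h8
          · have h9 := jmin_emax_zero hp h8
            rw [h9.1, h9.2] at h5
            push_cast at h5
            linarith
          · linarith
      · have h7 : q' n = 1 / 2 := by simp only [hq']; rw [if_neg hPn]
        rw [h7, min_eq_right (by norm_num)]
        linarith
    have h3 := H1 q' h0' h1' hlim' A hA η hη (hηle.trans (min_le_left _ _))
    refine (h3.mono_left inf_le_left).congr' ?_
    have h4 : ∀ᶠ n in atTop ⊓ 𝓟 {n | P n}, P n :=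
      (eventually_principal.mpr fun n hn => hn).filter_mono inf_le_right
    filter_upwards [h4] with n hn
    simp only [hf, hq']
    rw [if_pos hn]
  -- the other indices
  have hard : ∀ c ∈ range p, Tendsto f (atTop ⊓ 𝓟 {n | ¬ P n ∧ n % p = c}) (𝓝 0) := by
    intro c hc
    set l : Filter ℕ := atTop ⊓ 𝓟 {n | ¬ P n ∧ n % p = c} with hl
    have h3 : ∀ᶠ n in l, ¬ P n ∧ n % p = c :=
      (eventually_principal.mpr fun n hn => hn).filter_mono inf_le_right
    have h4 : ∀ᶠ n : ℕ in l, (n : ZMod p) = (c : ZMod p) := by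
      filter_upwards [h3] with n hn
      rw [← hn.2, natCast_mod_eq]
    have h5 : ∀ᶠ n : ℕ in l, n * (1 - q n) ≤ 2 * Real.log n := by
      filter_upwards [h3] with n hn
      simp only [hP, not_or, not_le] at hn
      exact hn.1.2.le
    have h6 : Tendsto (fun n : ℕ => jmin p c * (n * (1 - q n)) - Real.log n -
        emax p c * Real.log (Real.log n)) l atTop := by
      refine (hlim.mono_left inf_le_left).congr' ?_
      filter_upwards [h4] with n hn
      rw [jmin_congr hn, emax_congr hn]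
    exact H2 c q l inf_le_left h4 h0 h1 h5 h6 A hA hAk η hη
      ((hηle.trans (min_le_right _ _)).trans (hle3 c hc))
  -- conclusion
  rw [Metric.tendsto_nhds]
  intro ε hε
  have h3 := Metric.tendsto_nhds.mp easy ε hε
  have h4 : ∀ c ∈ range p, ∀ᶠ n in atTop ⊓ 𝓟 {n | ¬ P n ∧ n % p = c}, dist (f n) 0 < ε :=
    fun c hc => Metric.tendsto_nhds.mp (hard c hc) ε hε
  rw [eventually_inf_principal] at h3
  simp only [eventually_inf_principal] at h4
  have h5 : ∀ᶠ n in atTop, ∀ c ∈ range p, n ∈ {n | ¬ P n ∧ n % p = c} → dist (f n) 0 < ε := by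
    rw [eventually_all_finset]
    exact h4
  filter_upwards [h3, h5] with n h6 h7
  by_cases hPn : P n
  · exact h6 hPn
  · exact h7 (n % p) (mem_range.mpr (Nat.mod_lt _ hp.pos)) ⟨hPn, rfl⟩

/-- The threshold conditions imply universality. -/
theorem isUniversal_of_threshold {p : ℕ} (hp : p.Prime) {q : ℕ → ℝ} (h0 : ∀ n, 0 < q n)
    (h1 : ∀ n, q n < 1) (hlim0 : Tendsto (fun n : ℕ => n * q n - Real.log n) atTop atTop)
    (hlim : Tendsto (fun n : ℕ => jmin p n * (n * (1 - q n)) - Real.log n -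
      emax p n * Real.log (Real.log n)) atTop atTop) : IsUniversal p q := by
  refine isUniversal_of_small hp (fun n => (h0 n).le) (fun n => (h1 n).le) ?_
    (smallSupport_threshold hp h0 h1 hlim0 hlim)
  -- `n q (1 - q) → ∞`
  obtain ⟨K, hK⟩ : ∃ K : ℕ, ∀ n, jmin p n ≤ K := by
    refine ⟨(range p).sup (jmin p), fun n => ?_⟩
    have : jmin p n = jmin p (n % p) := jmin_congr (natCast_mod_eq p n).symm
    rw [this]
    exact le_sup (f := jmin p) (mem_range.mpr (Nat.mod_lt _ hp.pos))
  have hK1 : 1 ≤ K := (one_le_jmin hp 0).trans (hK 0)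
  have hlogn : Tendsto (fun n : ℕ => Real.log n) atTop atTop :=
    Real.tendsto_log_atTop.comp tendsto_natCast_atTop_atTop
  have hK0 : (1 : ℝ) ≤ K := by exact_mod_cast hK1
  have h2 : Tendsto (fun n : ℕ => Real.log n * (1 / (2 * (K : ℝ)))) atTop atTop :=
    hlogn.atTop_mul_const (by positivity)
  refine tendsto_atTop_mono' _ ?_ h2
  filter_upwards [tendsto_atTop.mp hlim 0, tendsto_atTop.mp hlim0 0, eventually_ge_atTop 3]
    with n h3 h4 h5
  have h6 : (1 : ℝ) ≤ Real.log n := by
    rw [Real.le_log_iff_exp_le (by positivity)]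
    have : Real.exp 1 < 2.7182818286 := Real.exp_one_lt_d9
    have h7 : (3 : ℝ) ≤ n := by exact_mod_cast h5
    linarith
  have h7 : 0 ≤ Real.log (Real.log n) := Real.log_nonneg h6
  have h8 : 0 ≤ (emax p n : ℝ) * Real.log (Real.log n) := by positivity
  have h9 : (jmin p n : ℝ) ≤ K := by exact_mod_cast hK n
  have h10 : 0 < 1 - q n := by linarith [h1 n]
  have h10' : 0 < q n := h0 n
  have h11 : (0 : ℝ) ≤ n * (1 - q n) := by positivity
  have h11' : (0 : ℝ) ≤ n * q n := by positivity
  have h12 : Real.log n ≤ K * (n * (1 - q n)) := by nlinarith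
  have h12' : Real.log n ≤ K * (n * q n) := by nlinarith
  have h13 : Real.log n * (1 / (2 * (K : ℝ))) ≤ n * (1 - q n) / 2 := by
    rw [mul_one_div, div_le_div_iff₀ (by positivity) (by norm_num)]
    linarith
  have h13' : Real.log n * (1 / (2 * (K : ℝ))) ≤ n * q n / 2 := by
    rw [mul_one_div, div_le_div_iff₀ (by positivity) (by norm_num)]
    linarith
  rcases le_total (q n) (1 / 2) with h14 | h14
  · nlinarith
  · nlinarith

end Pool.Agent.Lib.MP_49901c_pr
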