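import Mathlib
import Pool.Agent.Lib.MP_49901c_pr.Connected

/-!
# The tail of the rank under universality
-/

namespace Pool.Agent.Lib.MP_49901c_pr

open Finset Filter Topology

namespace Job20

/-- Multiplication by `p ^ (K - 1)` from `ZMod m`, `m = p`, to `ZMod (p ^ K)`. -/
noncomputable def iota {p K m : ℕ} (hm : m = p) (hK : 1 ≤ K) : ZMod m →+ ZMod (p ^ K) :=
  ZMod.lift m ⟨zmultiplesHom (ZMod (p ^ K)) ((p : ZMod (p ^ K)) ^ (K - 1)), by
    rw [zmultiplesHom_apply, hm, natCast_zsmul, nsmul_eq_mul, ← pow_succ', Nat.sub_add_cancel hK]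
    have := ZMod.natCast_self (p ^ K)
    push_cast at this
    exact this⟩

theorem iota_injective {p K m : ℕ} (hp : p.Prime) (hm : m = p) (hK : 1 ≤ K) :
    Function.Injective (iota hm hK) := by
  unfold iota
  rw [ZMod.lift_injective]
  intro z hz
  change z • ((p : ZMod (p ^ K)) ^ (K - 1)) = 0 at hz
  rw [zsmul_eq_mul] at hz
  have h1 : ((z * (p : ℤ) ^ (K - 1) : ℤ) : ZMod (p ^ K)) = 0 := by
    push_cast
    exact hz
  rw [ZMod.intCast_zmod_eq_zero_iff_dvd] at h1
  rw [ZMod.intCast_zmod_eq_zero_iff_dvd, hm]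
  have h2 : ((p ^ K : ℕ) : ℤ) = p * (p : ℤ) ^ (K - 1) := by
    push_cast
    rw [← pow_succ', Nat.sub_add_cancel hK]
  rw [h2] at h1
  have h3 : (0 : ℤ) < (p : ℤ) ^ (K - 1) := by
    have := hp.pos
    positivity
  exact Int.dvd_of_mul_dvd_mul_right h3.ne' h1

theorem nsmul_zmod {m : ℕ} (x : ZMod m) : m • x = 0 := by
  rw [nsmul_eq_mul, ZMod.natCast_self, zero_mul]

/-- Alternating forms at level `K` of a group killed by `p`. -/
theorem card_altDual_le {p K : ℕ} (hp : p.Prime) (hK : 1 ≤ K) (G : Type) [AddCommGroup G]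
    [Finite G] (hG : ∀ g : G, p ^ 1 • g = 0) :
    Nat.card (AltDual p K G) ≤ Nat.card (AltDual p 1 G) := by
  have : NeZero (p ^ K) := ⟨pow_ne_zero K hp.ne_zero⟩
  have : NeZero (p ^ 1) := ⟨pow_ne_zero 1 hp.ne_zero⟩
  have hGK : ∀ g : G, p ^ K • g = 0 := by
    intro g
    obtain ⟨m, hm⟩ : ∃ m, K = m + 1 := ⟨K - 1, by omega⟩
    have h1 := hG g
    rw [pow_one] at h1
    rw [hm, pow_succ, mul_smul, h1, smul_zero]
  set ι : ZMod (p ^ 1) →+ ZMod (p ^ K) := iota (pow_one p) hK with hι
  have hιinj : Function.Injective ι := iota_injective hp (pow_one p) hK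
  have hfin1 : Finite (Dual p 1 G) :=
    Finite.of_injective _ (DFunLike.coe_injective (F := G →+ ZMod (p ^ 1)))
  have hfinK : Finite (Dual p K G) :=
    Finite.of_injective _ (DFunLike.coe_injective (F := G →+ ZMod (p ^ K)))
  let E : Dual p 1 G →+ Dual p K G :=
    { toFun := fun φ => ι.comp φ
      map_zero' := by ext; simp
      map_add' := fun φ ψ => by ext; simp }
  have hE : Function.Injective E := by
    intro φ ψ h
    apply DFunLike.ext
    intro g
    exact hιinj (DFunLike.congr_fun h g)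
  have hcard : Nat.card (Dual p 1 G) = Nat.card (Dual p K G) := by
    rw [card_dual hp hG, card_dual hp hGK]
  have hEs : Function.Surjective E := by
    have := Fintype.ofFinite (Dual p 1 G)
    have := Fintype.ofFinite (Dual p K G)
    have h2 := (Fintype.bijective_iff_injective_and_card E).mpr ⟨hE, by
      rwa [Nat.card_eq_fintype_card, Nat.card_eq_fintype_card] at hcard⟩
    exact h2.2
  have hfinA : Finite (Dual p 1 G →+ G) :=
    Finite.of_injective _ (DFunLike.coe_injective (F := Dual p 1 G →+ G))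
  apply Nat.card_le_card_of_injective (fun h : AltDual p K G =>
    (⟨h.1.comp E, fun φ => hιinj (by
      have h3 := h.2 (E φ)
      rw [map_zero]
      exact h3)⟩ : AltDual p 1 G))
  intro h h' hh
  apply Subtype.ext
  apply DFunLike.ext
  intro φ
  obtain ⟨ψ, rfl⟩ := hEs φ
  exact DFunLike.congr_fun (congrArg Subtype.val hh) ψ

/-- The elementary abelian group. -/
theorem exists_ext_equiv {p : ℕ} (L : ℕ) (ν : Fin L → PUnit.{1}) :
    Nonempty (Ext p 1 L PUnit ν ≃+ (Fin L → ZMod p)) := by
  have hbot : AddSubgroup.closure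
      (Set.range fun j : Fin L => ((-(ν j), Pi.single j (p : ZMod (p ^ 1))) :
        PUnit.{1} × (Fin L → ZMod (p ^ 1)))) = ⊥ := by
    rw [AddSubgroup.closure_eq_bot_iff]
    rintro _ ⟨j, rfl⟩
    have h0 : (p : ZMod (p ^ 1)) = 0 := by
      rw [ZMod.natCast_eq_zero_iff, pow_one]
    simp only [h0, Pi.single_zero]
    rfl
  let Φ : Ext p 1 L PUnit ν ≃+ (Fin L → ZMod (p ^ 1)) :=
    (QuotientAddGroup.quotientAddEquivOfEq hbot).trans
      (QuotientAddGroup.quotientBot.trans AddEquiv.uniqueProd)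
  have e : ZMod (p ^ 1) ≃+ ZMod p := (ZMod.ringEquivCongr (pow_one p)).toAddEquiv
  exact ⟨Φ.trans (AddEquiv.piCongrRight fun _ => e)⟩

/-- Many injections of `(ℤ / p) ^ L` into a group with large `p`-torsion. -/
theorem fall_le_card_inj {p : ℕ} (hp : p.Prime) (L : ℕ) (V : Type) [AddCommGroup V] [Finite V]
    (hV : p ^ L ≤ Nat.card {x : V // p • x = 0}) :
    fall p L L ≤ (Nat.card (Inj (Fin L → ZMod p) V) : ℝ) := by
  have hF : Fact p.Prime := ⟨hp⟩
  set T := AddSubgroup.torsionBy V (p : ℤ) with hT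
  have hmem : ∀ x : V, x ∈ T ↔ p • x = 0 := fun x => AddSubgroup.torsionBy.nsmul_iff
  let _ : Module (ZMod p) T := AddSubgroup.torsionBy.zmodModule
  set d := Module.finrank (ZMod p) T with hd
  have hcardT : Nat.card T = p ^ d := by
    rw [Module.natCard_eq_pow_finrank (K := ZMod p) (V := T), Nat.card_zmod]
  have hcard' : Nat.card {x : V // p • x = 0} = Nat.card T :=
    Nat.card_congr (Equiv.subtypeEquivRight fun x => (hmem x).symm)
  rw [hcard', hcardT] at hV
  have hLd : L ≤ d := (Nat.pow_le_pow_iff_right hp.one_lt).mp hV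
  have h1 := Job4.card_li (p := p) (V := T) L
  have hmono : fall p L L ≤ fall p d L := by
    unfold fall
    apply Finset.prod_le_prod
    · intro l hl
      rw [mem_range] at hl
      have : (p : ℝ) ^ l ≤ (p : ℝ) ^ L := by
        apply pow_le_pow_right₀ _ hl.le
        exact_mod_cast hp.one_le
      linarith
    · intro l hl
      have : (p : ℝ) ^ L ≤ (p : ℝ) ^ d := by
        apply pow_le_pow_right₀ _ hLd
        exact_mod_cast hp.one_le
      linarith
  refine hmono.trans ?_
  rw [← h1]
  have hfin : Finite ((Fin L → ZMod p) →+ V) :=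
    Finite.of_injective _ (DFunLike.coe_injective (F := (Fin L → ZMod p) →+ V))
  have h2 : Nat.card {s : Fin L → T // LinearIndependent (ZMod p) s} ≤
      Nat.card (Inj (Fin L → ZMod p) V) := by
    apply Nat.card_le_card_of_injective (fun s => (⟨T.subtype.comp
      (Fintype.linearCombination (ZMod p) s.1).toAddMonoidHom, by
        have h3 := linearIndependent_iff_injective_fintypeLinearCombination.mp s.2
        exact T.subtype_injective.comp h3⟩ : Inj (Fin L → ZMod p) V))
    intro s s' h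
    apply Subtype.ext
    funext j
    have h3 := DFunLike.congr_fun (congrArg Subtype.val h) (Pi.single j 1)
    have h4 : ∀ s : Fin L → T, (T.subtype.comp
        (Fintype.linearCombination (ZMod p) s).toAddMonoidHom) (Pi.single j 1) = (s j : V) := by
      intro s
      change ((Fintype.linearCombination (ZMod p) s) (Pi.single j 1) : V) = s j
      rw [Fintype.linearCombination_apply_single, one_smul]
    rw [h4, h4] at h3
    exact Subtype.ext h3
  exact_mod_cast h2

/-- The kernel mod `p` embeds in the `p`-torsion of the kernel mod `p ^ K`. -/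
theorem card_kerM_le {p K n : ℕ} (hp : p.Prime) (hK : 1 ≤ K) (M : Matrix (Fin n) (Fin n) ℤ)
    (V : Type) [AddCommGroup V] [Finite V]
    (e : kerM (M.map (Int.castRingHom (ZMod (p ^ K)))) ≃+ V) :
    Nat.card (kerM (M.map (Int.castRingHom (ZMod p)))) ≤ Nat.card {x : V // p • x = 0} := by
  have : NeZero (p ^ K) := ⟨pow_ne_zero K hp.ne_zero⟩
  set ι : ZMod p →+ ZMod (p ^ K) := iota rfl hK with hι
  have hιinj : Function.Injective ι := iota_injective hp rfl hK
  have hmem : ∀ x : Fin n → ZMod p, x ∈ kerM (M.map (Int.castRingHom (ZMod p))) →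
      (fun i => ι (x i)) ∈ kerM (M.map (Int.castRingHom (ZMod (p ^ K)))) := by
    intro x hx
    have hx' : (M.map (Int.castRingHom (ZMod p))).mulVec x = 0 := hx
    change (M.map (Int.castRingHom (ZMod (p ^ K)))).mulVec (fun i => ι (x i)) = 0
    funext i
    have h1 := congrFun hx' i
    simp only [Matrix.mulVec, dotProduct, Matrix.map_apply, Pi.zero_apply] at h1 ⊢
    have h2 : ∀ j, Int.castRingHom (ZMod (p ^ K)) (M i j) * ι (x j) =
        ι (Int.castRingHom (ZMod p) (M i j) * x j) := by
      intro j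
      simp only [eq_intCast]
      rw [← zsmul_eq_mul, ← zsmul_eq_mul, map_zsmul]
    rw [sum_congr rfl fun j _ => h2 j, ← map_sum, h1, map_zero]
  apply Nat.card_le_card_of_injective (fun x : kerM (M.map (Int.castRingHom (ZMod p))) =>
    (⟨e ⟨fun i => ι (x.1 i), hmem x.1 x.2⟩, by
      rw [← map_nsmul]
      have h1 : p • (⟨fun i => ι (x.1 i), hmem x.1 x.2⟩ :
          kerM (M.map (Int.castRingHom (ZMod (p ^ K))))) = 0 := by
        apply Subtype.ext
        funext i
        change p • ι (x.1 i) = 0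
        rw [← map_nsmul, nsmul_zmod, map_zero]
      rw [h1, map_zero]⟩ : {x : V // p • x = 0}))
  intro x x' h
  have h1 := e.injective (congrArg Subtype.val h)
  apply Subtype.ext
  funext i
  exact hιinj (congrFun (congrArg Subtype.val h1) i)

end Job20

open Job20

theorem gnpProb_compl (n : ℕ) (q : ℝ) (S : Set (SimpleGraph (Fin n))) :
    gnpProb n q S = 1 - gnpProb n q Sᶜ := by
  classical
  rw [gnpProb_eq_Ex, gnpProb_eq_Ex, eq_sub_iff_add_eq]
  refine Eq.trans ?_ (Ex_const (ι := Pr n) q 1)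
  unfold Ex
  rw [← sum_add_distrib]
  apply sum_congr rfl
  intro ω _
  simp only [smul_eq_mul]
  by_cases h : toGraph ω ∈ S
  · rw [if_pos h, if_neg (by simpa using h)]
    ring
  · rw [if_neg h, if_pos (by simpa using h)]
    ring

theorem rank_tail {p : ℕ} (hp : p.Prime) {q : ℕ → ℝ} (hq0 : ∀ n, 0 ≤ q n) (hq1 : ∀ n, q n ≤ 1)
    (h : IsUniversal p q) (L : ℕ) (ε : ℝ) (hε : 0 < ε) :
    ∀ᶠ n : ℕ in atTop, gnpProb (n + 1) (q (n + 1))
      {G | p ^ L ≤ Nat.card (kerM ((redLap G).map (Int.castRingHom (ZMod p))))} ≤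
      (p : ℝ) ^ (L.choose 2) / fall p L L + ε := by
  classical
  have hF : Fact p.Prime := ⟨hp⟩
  obtain ⟨k, c, S, hS, hmass⟩ := exists_disjoint_mass hp (ε / 3) (by linarith)
  set K : ℕ := k + 1 with hK
  have hK1 : 1 ≤ K := by omega
  have hNZk : NeZero (p ^ k) := ⟨pow_ne_zero k hp.ne_zero⟩
  have hNZK : NeZero (p ^ K) := ⟨pow_ne_zero K hp.ne_zero⟩
  have hFS : ∀ n, Fintype (SymMat n (ZMod (p ^ K))) := fun n => Fintype.ofFinite _
  have hkill : ∀ V : AddSubgroup (Fin c → ZMod (p ^ k)), ∀ x : V, p ^ (K - 1) • x = 0 :=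
    fun V x => amb_killed V x
  -- the subgroups of large rank
  set S' : Finset (AddSubgroup (Fin c → ZMod (p ^ k))) :=
    S.filter fun V : AddSubgroup (Fin c → ZMod (p ^ k)) =>
      p ^ L ≤ Nat.card {x : V // p • x = 0} with hS'
  -- (1) mass of the groups of large rank
  have hmassL : ∑ V ∈ S', mu p V ≤ (p : ℝ) ^ (L.choose 2) / fall p L L := by
    have hfall := fall_pos hp.two_le L
    rw [le_div_iff₀ hfall]
    set ν : Fin L → PUnit.{1} := fun _ => PUnit.unit with hν
    obtain ⟨e₀⟩ := exists_ext_equiv (p := p) L ν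
    have hG1 : ∀ g : Ext p 1 L PUnit ν, p ^ 1 • g = 0 :=
      ext_killed' (fun x => Subsingleton.elim _ _) ν
    have hGK : ∀ g : Ext p 1 L PUnit ν, p ^ K • g = 0 := by
      intro g
      have h1 : p ^ K = p ^ k * p ^ 1 := by rw [hK, pow_add]
      rw [h1, mul_smul, hG1, smul_zero]
    have hfinG : Finite (Ext p 1 L PUnit ν) := ext_finite hp ν
    have h1 := tendsto_unif_inj (k := K) hp (Ext p 1 L PUnit ν) hGK
    have h2 : (Nat.card (AltDual p K (Ext p 1 L PUnit ν)) : ℝ) ≤ (p : ℝ) ^ (L.choose 2) := by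
      have h3 := card_altDual_le hp hK1 (Ext p 1 L PUnit ν) hG1
      rw [card_altDual_elementary hp] at h3
      exact_mod_cast h3
    have h3 : Tendsto (fun n : ℕ => (∑ V ∈ S', (Nat.card {M : SymMat n (ZMod (p ^ K)) //
        Nonempty (kerM M.1 ≃+ V)} : ℝ) / (Nat.card (SymMat n (ZMod (p ^ K))) : ℝ)) * fall p L L)
        atTop (𝓝 ((∑ V ∈ S', mu p V) * fall p L L)) := by
      apply Tendsto.mul_const
      apply tendsto_finsetSum
      intro V _
      exact tendsto_unif_law hp hK1 V (hkill V)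
    refine (le_of_tendsto_of_tendsto' h3 h1 fun n => ?_).trans h2
    -- pointwise inequality
    have hpos : (0 : ℝ) < Nat.card (SymMat n (ZMod (p ^ K))) := by
      exact_mod_cast card_symMat_pos hp n
    rw [← mul_sum, ← sum_div, div_mul_eq_mul_div, inv_mul_eq_div]
    apply div_le_div_of_nonneg_right _ hpos.le
    rw [sum_mul]
    have h4 : ∀ V ∈ S', (Nat.card {M : SymMat n (ZMod (p ^ K)) //
        Nonempty (kerM M.1 ≃+ V)} : ℝ) * fall p L L = ∑ M : SymMat n (ZMod (p ^ K)),
        if Nonempty (kerM M.1 ≃+ V) then fall p L L else 0 := by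
      intro V _
      rw [← sum_filter, sum_const, nsmul_eq_mul, Nat.card_eq_fintype_card, Fintype.card_subtype]
    rw [sum_congr rfl h4, sum_comm]
    apply sum_le_sum
    intro M _
    by_cases hM : ∃ V ∈ S', Nonempty (kerM M.1 ≃+ V)
    · obtain ⟨V, hV, ⟨e⟩⟩ := hM
      have h5 : ∀ V' ∈ S', V' ≠ V → (if Nonempty (kerM M.1 ≃+ V') then fall p L L else 0) = 0 := by
        intro V' hV' hne
        rw [if_neg]
        rintro ⟨e'⟩
        rw [hS', mem_filter] at hV hV'
        exact (hS V' hV'.1 V hV.1 hne).false (e'.symm.trans e)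
      rw [sum_eq_single_of_mem V hV h5, if_pos ⟨e⟩]
      have hVr : p ^ L ≤ Nat.card {x : V // p • x = 0} := by
        rw [hS', mem_filter] at hV
        exact hV.2
      have h6 := fall_le_card_inj hp L V hVr
      have h7 : Nat.card (Inj (Ext p 1 L PUnit ν) (kerM M.1)) =
          Nat.card (Inj (Fin L → ZMod p) V) := by
        rw [card_inj_congr e₀]
        apply Nat.card_congr
        exact
          { toFun := fun f => ⟨e.toAddMonoidHom.comp f.1, e.injective.comp f.2⟩
            invFun := fun f => ⟨e.symm.toAddMonoidHom.comp f.1, e.symm.injective.comp f.2⟩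
            left_inv := fun f => by
              apply Subtype.ext
              apply DFunLike.ext
              intro x
              simp
            right_inv := fun f => by
              apply Subtype.ext
              apply DFunLike.ext
              intro x
              simp }
      rw [h7]
      exact h6
    · push Not at hM
      rw [sum_eq_zero]
      · positivity
      · intro V hV
        rw [if_neg (not_nonempty_iff.mpr (hM V hV))]
  -- (2) the graph side
  have hcard : ∀ V : AddSubgroup (Fin c → ZMod (p ^ k)), ∃ m, Nat.card V = p ^ m := by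
    intro V
    have h1 : IsPGroup p (Multiplicative V) := by
      intro g
      exact ⟨k, congrArg Multiplicative.ofAdd (amb_killed V g.toAdd)⟩
    obtain ⟨m, hm⟩ := IsPGroup.iff_card.mp h1
    exact ⟨m, hm⟩
  set Ev : ∀ n, AddSubgroup (Fin c → ZMod (p ^ k)) → Set (SimpleGraph (Fin (n + 1))) :=
    fun n V => {G | G.Connected ∧ Nonempty (primaryPart p (CriticalGroup G) ≃+ V)} with hEv
  have hl1 : Tendsto (fun n : ℕ => ∑ V ∈ S', gnpProb (n + 1) (q (n + 1)) (Ev n V)) atTop
      (𝓝 (∑ V ∈ S', mu p V)) := by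
    apply tendsto_finsetSum
    intro V _
    exact h V (hcard V)
  have hl2 : Tendsto (fun n : ℕ => ∑ V ∈ S, gnpProb (n + 1) (q (n + 1)) (Ev n V)) atTop
      (𝓝 (∑ V ∈ S, mu p V)) := by
    apply tendsto_finsetSum
    intro V _
    exact h V (hcard V)
  have e1 := hl1.eventually_lt_const (show ∑ V ∈ S', mu p V <
    (p : ℝ) ^ (L.choose 2) / fall p L L + ε / 3 by linarith)
  have e2 := hl2.eventually_const_lt (show 1 - 2 * (ε / 3) < ∑ V ∈ S, mu p V by linarith)
  filter_upwards [e1, e2] with n a1 a2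
  have h0' := hq0 (n + 1)
  have h1' := hq1 (n + 1)
  set R : Set (SimpleGraph (Fin (n + 1))) :=
    {G | p ^ L ≤ Nat.card (kerM ((redLap G).map (Int.castRingHom (ZMod p))))} with hR
  -- `P(R) + P(V in S \ S') ≤ P(V ∈ S') + 1 - ...`
  have key : gnpProb (n + 1) (q (n + 1)) R + ∑ V ∈ S, gnpProb (n + 1) (q (n + 1)) (Ev n V) ≤
      1 + ∑ V ∈ S', gnpProb (n + 1) (q (n + 1)) (Ev n V) := by
    have hsub : S' ⊆ S := filter_subset _ _
    rw [← sum_sdiff hsub]
    have h3 : ∑ V ∈ S \ S', gnpProb (n + 1) (q (n + 1)) (Ev n V) ≤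
        gnpProb (n + 1) (q (n + 1)) Rᶜ := by
      apply sum_gnpProb_le _ h0' h1'
      · intro V hV G hG hGR
        rw [Finset.mem_sdiff] at hV
        apply hV.2
        rw [hS', mem_filter]
        refine ⟨hV.1, ?_⟩
        obtain ⟨e⟩ := (link hp hK1 V (hkill V) G).mp hG
        exact le_trans hGR (card_kerM_le hp hK1 (redLap G) V e)
      · intro V hV V' hV' hne
        rw [Finset.mem_sdiff] at hV hV'
        rw [Set.disjoint_left]
        rintro G ⟨_, ⟨e⟩⟩ ⟨_, ⟨e'⟩⟩
        exact (hS V hV.1 V' hV'.1 hne).false (e.symm.trans e')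
    have h4 := gnpProb_compl (n + 1) (q (n + 1)) R
    linarith
  linarith

end Pool.Agent.Lib.MP_49901c_pr
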