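import Mathlib
import Pool.Agent.Lib.MP_49901c_pr.DenseDefs
import Pool.Agent.Lib.MP_49901c_pr.GraphLink

/-!
# Disjoint exact copies of a tree give a large kernel modulo `p`
-/

namespace Pool.Agent.Lib.MP_49901c_pr

open Finset

namespace Job21

/-- Laplacian of the complement. -/
theorem lap_add_lap_neg {n : ℕ} {A : Type*} [AddCommGroup A] (ω : Pr n → Bool) (g : Fin n → A)
    (i : Fin n) : lap ω g i + lap (neg ω) g i = n • g i - ∑ k, g k := by
  unfold lap
  rw [← sum_add_distrib]
  have h1 : ∀ k, ((if adjB ω i k then g i - g k else 0) + if adjB (neg ω) i k then g i - g k else 0)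
      = g i - g k := by
    intro k
    unfold adjB neg
    rcases lt_trichotomy i k with h | h | h
    · rw [dif_pos h, dif_pos h]
      cases ω ⟨(i, k), h⟩ <;> simp
    · subst h
      simp
    · rw [dif_neg (not_lt.mpr h.le), dif_neg (not_lt.mpr h.le), dif_pos h, dif_pos h]
      cases ω ⟨(k, i), h⟩ <;> simp
  rw [sum_congr rfl fun k _ => h1 k, sum_sub_distrib]
  simp

/-- The function `c l * γ₀` on the `l`-th copy. -/
def G {p n v L : ℕ} (γ₀ : Fin v → ZMod p) (φ : Fin L × Fin v → Fin n) (c : Fin L → ZMod p)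
    (i : Fin n) : ZMod p := ∑ y : Fin L × Fin v, if φ y = i then c y.1 * γ₀ y.2 else 0

theorem G_apply {p n v L : ℕ} (γ₀ : Fin v → ZMod p) (φ : Fin L × Fin v → Fin n)
    (hφ : Function.Injective φ) (c : Fin L → ZMod p) (y : Fin L × Fin v) :
    G γ₀ φ c (φ y) = c y.1 * γ₀ y.2 := by
  unfold G
  rw [sum_eq_single y]
  · rw [if_pos rfl]
  · intro b _ hb
    rw [if_neg fun h => hb (hφ h)]
  · intro h
    exact absurd (mem_univ y) h

theorem G_of_not {p n v L : ℕ} (γ₀ : Fin v → ZMod p) (φ : Fin L × Fin v → Fin n)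
    (c : Fin L → ZMod p) (i : Fin n) (hi : ∀ y, φ y ≠ i) : G γ₀ φ c i = 0 := by
  unfold G
  exact sum_eq_zero fun y _ => if_neg (hi y)

theorem sum_G {p n v L : ℕ} (γ₀ : Fin v → ZMod p) (φ : Fin L × Fin v → Fin n)
    (c : Fin L → ZMod p) : ∑ i, G γ₀ φ c i = (∑ l, c l) * ∑ x, γ₀ x := by
  unfold G
  rw [sum_comm]
  simp only [sum_ite_eq, mem_univ, if_true]
  rw [Fintype.sum_prod_type, sum_mul_sum]

theorem lap_G {p n v L : ℕ} (T : SimpleGraph (Fin v)) [DecidableRel T.Adj] (γ₀ : Fin v → ZMod p)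
    (a : ZMod p) (heig : (T.lapMatrix (ZMod p)).mulVec γ₀ = a • γ₀)
    (J₀ : Finset (Fin v)) (hJ₀ : ∀ x, x ∈ J₀ ↔ γ₀ x ≠ 0) (ω : Pr n → Bool)
    (φ : Fin L × Fin v → Fin n) (hφ : IsCopies T J₀ ω φ) (c : Fin L → ZMod p) (i : Fin n) :
    lap ω (G γ₀ φ c) i = a * G γ₀ φ c i := by
  obtain ⟨hinj, hex⟩ := hφ
  have hnot : ∀ x, x ∉ J₀ → γ₀ x = 0 := fun x hx => by
    by_contra h; exact hx ((hJ₀ x).2 h)
  have hex' : ∀ (l : Fin L) (x : Fin v), x ∈ J₀ → ∀ y : Fin n, adjB ω y (φ (l, x)) = true →
      ∃ x', T.Adj x x' ∧ φ (l, x') = y := fun l x hx y h => by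
    rw [adjB_comm] at h; exact (hex l x hx y).1 h
  by_cases hi : ∃ y, φ y = i
  · obtain ⟨⟨l, x⟩, rfl⟩ := hi
    have h1 : lap ω (G γ₀ φ c) (φ (l, x)) = ∑ x' : Fin v, if T.Adj x x' then
        c l * γ₀ x - c l * γ₀ x' else 0 := by
      unfold lap
      have h2 : ∀ k, k ∉ univ.image (fun x' : Fin v => φ (l, x')) →
          (if adjB ω (φ (l, x)) k = true then G γ₀ φ c (φ (l, x)) - G γ₀ φ c k else 0) = 0 := by
        intro k hk
        by_cases ha : adjB ω (φ (l, x)) k = true
        · rw [if_pos ha]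
          by_cases hx : x ∈ J₀
          · exfalso
            obtain ⟨x', -, h3⟩ := (hex l x hx k).1 ha
            exact hk (mem_image.2 ⟨x', mem_univ _, h3⟩)
          · rw [G_apply γ₀ φ hinj, hnot x hx, mul_zero, zero_sub, neg_eq_zero]
            by_cases hk2 : ∃ y, φ y = k
            · obtain ⟨⟨l', x'⟩, rfl⟩ := hk2
              rw [G_apply γ₀ φ hinj]
              by_cases hx' : x' ∈ J₀
              · exfalso
                obtain ⟨x'', -, h3⟩ := hex' l' x' hx' _ ha
                have h4 := hinj h3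
                simp only [Prod.mk.injEq] at h4
                apply hk
                rw [h4.1]
                exact mem_image.2 ⟨x', mem_univ _, rfl⟩
              · show c l' * γ₀ x' = 0
                rw [hnot x' hx', mul_zero]
            · push Not at hk2
              exact G_of_not γ₀ φ c k hk2
        · rw [if_neg ha]
      rw [← sum_subset (subset_univ (univ.image (fun x' : Fin v => φ (l, x'))))
        (fun k _ hk => h2 k hk), sum_image]
      · apply sum_congr rfl
        intro x' _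
        rw [G_apply γ₀ φ hinj, G_apply γ₀ φ hinj]
        have key : (x ∈ J₀ ∨ x' ∈ J₀) → (adjB ω (φ (l, x)) (φ (l, x')) = true ↔ T.Adj x x') := by
          rintro (hx | hx)
          · rw [hex l x hx]
            constructor
            · rintro ⟨x'', h3, h4⟩
              have h5 := hinj h4
              simp only [Prod.mk.injEq, true_and] at h5
              rwa [h5] at h3
            · intro h; exact ⟨x', h, rfl⟩
          · rw [adjB_comm, hex l x' hx]
            constructor
            · rintro ⟨x'', h3, h4⟩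
              have h5 := hinj h4
              simp only [Prod.mk.injEq, true_and] at h5
              rw [h5] at h3
              exact h3.symm
            · intro h; exact ⟨x, h.symm, rfl⟩
        by_cases hxx : x ∈ J₀ ∨ x' ∈ J₀
        · by_cases hT : T.Adj x x'
          · rw [if_pos hT, if_pos ((key hxx).2 hT)]
          · rw [if_neg hT, if_neg fun h => hT ((key hxx).1 h)]
        · push Not at hxx
          show (if adjB ω (φ (l, x)) (φ (l, x')) = true then c l * γ₀ x - c l * γ₀ x' else 0) = _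
          rw [hnot x hxx.1, hnot x' hxx.2]
          simp
      · intro x₁ _ x₂ _ h
        have h5 := hinj h
        simpa using h5
    rw [h1, G_apply γ₀ φ hinj]
    have h3 := congrFun heig x
    rw [SimpleGraph.lapMatrix_mulVec_apply] at h3
    have h4 : ∑ x' : Fin v, (if T.Adj x x' then c l * γ₀ x - c l * γ₀ x' else 0) =
        c l * ((T.degree x : ZMod p) * γ₀ x - ∑ u ∈ T.neighborFinset x, γ₀ u) := by
      rw [← sum_filter, sum_sub_distrib, sum_const, ← mul_sum]
      have h5 : (univ.filter fun x' => T.Adj x x') = T.neighborFinset x := by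
        ext u; simp
      rw [h5, SimpleGraph.card_neighborFinset_eq_degree, nsmul_eq_mul]
      ring
    rw [h4, h3]
    simp only [Pi.smul_apply, smul_eq_mul]
    ring
  · push Not at hi
    rw [G_of_not γ₀ φ c i hi, mul_zero]
    unfold lap
    apply sum_eq_zero
    intro k _
    by_cases ha : adjB ω i k = true
    · rw [if_pos ha, G_of_not γ₀ φ c i hi, zero_sub, neg_eq_zero]
      by_cases hk2 : ∃ y, φ y = k
      · obtain ⟨⟨l', x'⟩, rfl⟩ := hk2
        rw [G_apply γ₀ φ hinj]
        by_cases hx' : x' ∈ J₀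
        · exfalso
          obtain ⟨x'', -, h3⟩ := hex' l' x' hx' _ ha
          exact hi _ h3
        · show c l' * γ₀ x' = 0
          rw [hnot x' hx', mul_zero]
      · push Not at hk2
        exact G_of_not γ₀ φ c k hk2
    · rw [if_neg ha]

end Job21

open Job21

theorem card_kerM_ge_of_copies {p : ℕ} (hp : p.Prime) {n v L : ℕ} (T : SimpleGraph (Fin v))
    [DecidableRel T.Adj] (γ₀ : Fin v → ZMod p) (hγ₀ : γ₀ ≠ 0)
    (heig : (T.lapMatrix (ZMod p)).mulVec γ₀ = ((n + 1 : ℕ) : ZMod p) • γ₀)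
    (J₀ : Finset (Fin v)) (hJ₀ : ∀ x, x ∈ J₀ ↔ γ₀ x ≠ 0) (ω : Pr (n + 1) → Bool)
    (φ : Fin L × Fin v → Fin (n + 1)) (hφ : IsCopies T J₀ (neg ω) φ) (hn : L * v < n + 1) :
    p ^ (L - 1) ≤ Nat.card (kerM ((redLap (toGraph ω)).map (Int.castRingHom (ZMod p)))) := by
  have : Fact p.Prime := ⟨hp⟩
  rcases L with _ | L
  · simp only [zero_tsub, pow_zero]
    exact Nat.one_le_iff_ne_zero.2 Nat.card_pos.ne'
  simp only [add_tsub_cancel_right]
  have hlap : ∀ c : Fin (L + 1) → ZMod p, ∑ l, c l = 0 → ∀ i, lap ω (G γ₀ φ c) i = 0 := by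
    intro c hc i
    have h1 := lap_add_lap_neg ω (G γ₀ φ c) i
    rw [lap_G T γ₀ _ heig J₀ hJ₀ (neg ω) φ hφ c i, sum_G, hc, zero_mul, sub_zero,
      nsmul_eq_mul] at h1
    exact add_eq_right.1 h1
  -- extension of the coefficients
  let ext : (Fin L → ZMod p) → (Fin (L + 1) → ZMod p) := fun c => Fin.snoc c (-∑ l, c l)
  have hext : ∀ c, ∑ l, ext c l = 0 := by
    intro c
    rw [Fin.sum_univ_castSucc]
    simp [ext]
  let F : (Fin L → ZMod p) → kerM ((redLap (toGraph ω)).map (Int.castRingHom (ZMod p))) :=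
    fun c => ⟨fun i => G γ₀ φ (ext c) (Fin.castSucc i) - G γ₀ φ (ext c) (Fin.last n), by
      change ((redLap (toGraph ω)).map (Int.castRingHom (ZMod p))).mulVec _ = 0
      funext i
      rw [redLap_map_mulVec]
      have h2 := lap_const_add ω (G γ₀ φ (ext c)) (-G γ₀ φ (ext c) (Fin.last n)) (Fin.castSucc i)
      rw [hlap _ (hext c)] at h2
      rw [Pi.zero_apply]
      refine Eq.trans ?_ h2
      congr 1
      funext j
      refine Fin.lastCases ?_ (fun j => ?_) j
      · simp
      · simp [sub_eq_add_neg]⟩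
  have hF : Function.Injective F := by
    intro c c' h
    have h1 : ∀ i : Fin n, G γ₀ φ (ext c) (Fin.castSucc i) - G γ₀ φ (ext c) (Fin.last n) =
        G γ₀ φ (ext c') (Fin.castSucc i) - G γ₀ φ (ext c') (Fin.last n) := fun i =>
      congrFun (congrArg Subtype.val h) i
    have h2 : ∀ i : Fin (n + 1), G γ₀ φ (ext c) i - G γ₀ φ (ext c') i =
        G γ₀ φ (ext c) (Fin.last n) - G γ₀ φ (ext c') (Fin.last n) := by
      intro i
      refine Fin.lastCases rfl (fun i => ?_) i
      linear_combination h1 i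
    -- a vertex outside the copies
    obtain ⟨i₀, hi₀⟩ : ∃ i₀ : Fin (n + 1), ∀ y, φ y ≠ i₀ := by
      by_contra hcon
      push Not at hcon
      have hsurj : Function.Surjective φ := hcon
      have := Fintype.card_le_of_surjective φ hsurj
      rw [Fintype.card_prod, Fintype.card_fin, Fintype.card_fin, Fintype.card_fin] at this
      omega
    have h3 := h2 i₀
    rw [G_of_not γ₀ φ _ i₀ hi₀, G_of_not γ₀ φ _ i₀ hi₀, sub_zero] at h3
    obtain ⟨x₀, hx₀⟩ : ∃ x₀, γ₀ x₀ ≠ 0 := by
      by_contra hcon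
      push Not at hcon
      exact hγ₀ (funext hcon)
    have h4 : ∀ l, ext c l = ext c' l := by
      intro l
      have h5 := h2 (φ (l, x₀))
      rw [← h3, G_apply γ₀ φ hφ.1, G_apply γ₀ φ hφ.1] at h5
      have h6 : (ext c l - ext c' l) * γ₀ x₀ = 0 := by linear_combination h5
      rcases mul_eq_zero.1 h6 with h7 | h7
      · exact sub_eq_zero.1 h7
      · exact absurd h7 hx₀
    funext l
    have h5 := h4 (Fin.castSucc l)
    simpa [ext] using h5
  have h1 := Nat.card_le_card_of_injective F hF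
  have h2 : Nat.card (Fin L → ZMod p) = p ^ L := by
    rw [Nat.card_fun, Nat.card_zmod, Nat.card_eq_fintype_card, Fintype.card_fin]
  rwa [h2] at h1

end Pool.Agent.Lib.MP_49901c_pr
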