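import Mathlib
import Pool.Agent.Lib.MP_49901c_pr.DenseDefs

/-!
# Second moment for disjoint exact copies of a tree
-/

namespace Pool.Agent.Lib.MP_49901c_pr

open Finset

namespace Job22

/-! ### Adjacency on unordered pairs and cylinder events -/

/-- Adjacency as a function on unordered pairs. -/
def adjS {n : ℕ} (ω : Pr n → Bool) : Sym2 (Fin n) → Bool :=
  Sym2.lift ⟨adjB ω, adjB_comm ω⟩

theorem adjS_mk {n : ℕ} (ω : Pr n → Bool) (a b : Fin n) : adjS ω s(a, b) = adjB ω a b := rfl

/-- The unordered pair of an ordered one. -/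
def s2 {n : ℕ} (e : Pr n) : Sym2 (Fin n) := s(e.1.1, e.1.2)

theorem adjS_s2 {n : ℕ} (ω : Pr n → Bool) (e : Pr n) : adjS ω (s2 e) = ω e := adjB_pair ω e

theorem s2_injective {n : ℕ} : Function.Injective (s2 (n := n)) := by
  rintro ⟨⟨a, b⟩, hab⟩ ⟨⟨c, d⟩, hcd⟩ h
  unfold s2 at h
  simp only [Sym2.eq_iff] at h
  rcases h with ⟨h1, h2⟩ | ⟨h1, h2⟩
  · subst h1; subst h2; rfl
  · subst h1; subst h2
    exact absurd hab (not_lt.mpr (le_of_lt hcd))

theorem s2_not_isDiag {n : ℕ} (e : Pr n) : ¬ (s2 e).IsDiag := by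
  unfold s2
  rw [Sym2.mk_isDiag_iff]
  exact ne_of_lt e.2

theorem exists_s2 {n : ℕ} (z : Sym2 (Fin n)) (hz : ¬ z.IsDiag) : ∃ e, s2 e = z := by
  induction z using Sym2.ind with
  | _ a b =>
    rw [Sym2.mk_isDiag_iff] at hz
    rcases lt_or_gt_of_ne hz with h | h
    · exact ⟨⟨(a, b), h⟩, rfl⟩
    · exact ⟨⟨(b, a), h⟩, Sym2.eq_swap⟩

theorem card_filter_s2 {n : ℕ} (E : Finset (Sym2 (Fin n))) (hE : ∀ z ∈ E, ¬ z.IsDiag) :
    (univ.filter fun e : Pr n => s2 e ∈ E).card = E.card := by
  rw [← card_image_of_injective _ (s2_injective (n := n))]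
  congr 1
  ext z
  simp only [mem_image, mem_filter, mem_univ, true_and]
  constructor
  · rintro ⟨e, he, rfl⟩
    exact he
  · intro hz
    obtain ⟨e, he⟩ := exists_s2 z (hE z hz)
    exact ⟨e, by rwa [he], he⟩

open scoped Classical in
/-- Probability of a cylinder event. -/
theorem Ex_cyl {n : ℕ} {r : ℝ} (E N : Finset (Sym2 (Fin n))) (hE : ∀ z ∈ E, ¬ z.IsDiag)
    (hN : ∀ z ∈ N, ¬ z.IsDiag) (hd : Disjoint E N) :
    Ex r (fun ω : Pr n → Bool =>
      if (∀ z ∈ E, adjS ω z = true) ∧ (∀ z ∈ N, adjS ω z = false) then (1 : ℝ) else 0) =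
      r ^ E.card * (1 - r) ^ N.card := by
  have h1 : ∀ ω : Pr n → Bool,
      (if (∀ z ∈ E, adjS ω z = true) ∧ (∀ z ∈ N, adjS ω z = false) then (1 : ℝ) else 0) =
      ∏ e : Pr n, (fun (e : Pr n) (b : Bool) =>
        if (s2 e ∈ E ∧ b = false) ∨ (s2 e ∈ N ∧ b = true) then (0 : ℝ) else 1) e (ω e) := by
    intro ω
    split_ifs with h
    · symm
      apply prod_eq_one
      intro e _
      apply if_neg
      rintro (⟨h1, h2⟩ | ⟨h1, h2⟩)
      · have := h.1 _ h1
        rw [adjS_s2, h2] at this
        exact Bool.false_ne_true this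
      · have := h.2 _ h1
        rw [adjS_s2, h2] at this
        exact Bool.false_ne_true this.symm
    · rw [not_and_or] at h
      symm
      rcases h with h | h
      · push Not at h
        obtain ⟨z, hz, hz2⟩ := h
        obtain ⟨e, rfl⟩ := exists_s2 z (hE z hz)
        rw [adjS_s2] at hz2
        apply prod_eq_zero (mem_univ e)
        apply if_pos
        left
        exact ⟨hz, by simpa using hz2⟩
      · push Not at h
        obtain ⟨z, hz, hz2⟩ := h
        obtain ⟨e, rfl⟩ := exists_s2 z (hN z hz)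
        rw [adjS_s2] at hz2
        apply prod_eq_zero (mem_univ e)
        apply if_pos
        right
        exact ⟨hz, by simpa using hz2⟩
  rw [funext h1, Ex_prod (A := ℝ) r (fun (e : Pr n) (b : Bool) =>
    if (s2 e ∈ E ∧ b = false) ∨ (s2 e ∈ N ∧ b = true) then (0 : ℝ) else 1)]
  have h2 : ∀ e : Pr n, ((algebraMap ℝ ℝ) r *
      (if (s2 e ∈ E ∧ true = false) ∨ (s2 e ∈ N ∧ true = true) then (0 : ℝ) else 1) +
      (algebraMap ℝ ℝ) (1 - r) *
      (if (s2 e ∈ E ∧ false = false) ∨ (s2 e ∈ N ∧ false = true) then (0 : ℝ) else 1)) =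
      (if s2 e ∈ E then r else 1) * (if s2 e ∈ N then 1 - r else 1) := by
    intro e
    have hd' : ¬ (s2 e ∈ E ∧ s2 e ∈ N) := fun h => disjoint_left.mp hd h.1 h.2
    by_cases h3 : s2 e ∈ E <;> by_cases h4 : s2 e ∈ N
    · exact absurd ⟨h3, h4⟩ hd'
    · simp [h3, h4]
    · simp [h3, h4]
    · simp [h3, h4]
  rw [prod_congr rfl fun e _ => h2 e, prod_mul_distrib, prod_ite, prod_ite]
  simp only [prod_const, one_pow, mul_one]
  rw [card_filter_s2 E hE, card_filter_s2 N hN]

/-! ### Edges inside a set of vertices of a tree -/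

open scoped Classical in
/-- The number of edges of a tree with both ends in `S`. -/
noncomputable def eIn {v : ℕ} (T : SimpleGraph (Fin v)) (S : Finset (Fin v)) : ℕ :=
  (T.edgeFinset.filter fun z => ∀ x ∈ z, x ∈ S).card

open scoped Classical in
theorem eIn_lt {v : ℕ} (T : SimpleGraph (Fin v)) (hT : T.IsAcyclic) (S : Finset (Fin v))
    (hS : S.Nonempty) : eIn T S + 1 ≤ S.card := by
  obtain ⟨x₀, hx₀⟩ := hS
  have hne : Nonempty (S : Set (Fin v)) := ⟨⟨x₀, hx₀⟩⟩
  obtain ⟨F, hF1, _, hF2⟩ := (SimpleGraph.connected_top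
    (V := (S : Set (Fin v)))).exists_isTree_le_of_le_of_isAcyclic (H := T.induce S) le_top
    (hT.induce _)
  have h1 := hF2.card_edgeFinset
  have h2 : eIn T S ≤ F.edgeFinset.card := by
    unfold eIn
    rw [← card_image_of_injective F.edgeFinset
      (Sym2.map.injective (Subtype.val_injective (p := fun x => x ∈ (S : Set (Fin v)))))]
    apply card_le_card
    intro z hz
    rw [mem_filter] at hz
    induction z using Sym2.ind with
    | _ a b =>
      have ha := hz.2 a (Sym2.mem_mk_left a b)
      have hb := hz.2 b (Sym2.mem_mk_right a b)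
      rw [mem_image]
      refine ⟨s(⟨a, ha⟩, ⟨b, hb⟩), ?_, rfl⟩
      rw [SimpleGraph.mem_edgeFinset, SimpleGraph.mem_edgeSet]
      apply hF1
      have := hz.1
      rw [SimpleGraph.mem_edgeFinset, SimpleGraph.mem_edgeSet] at this
      exact this
  have h3 : Fintype.card (S : Set (Fin v)) = S.card := by simp
  omega

/-! ### Blocks -/

section blocks

variable {v L b n : ℕ}

/-- The positions of the vertices of the copies. -/
def pos (h : L * v * b ≤ n) (f : Fin L → Fin v → Fin b) (k : Fin L × Fin v) : Fin n :=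
  Fin.castLE h (finProdFinEquiv (finProdFinEquiv k, f k.1 k.2))

theorem pos_eq (h : L * v * b ≤ n) {f g : Fin L → Fin v → Fin b} {k k' : Fin L × Fin v}
    (hk : pos h f k = pos h g k') : k = k' ∧ f k.1 k.2 = g k.1 k.2 := by
  unfold pos at hk
  have h1 := finProdFinEquiv.injective (Fin.castLE_injective h hk)
  rw [Prod.mk.injEq] at h1
  have h2 := finProdFinEquiv.injective h1.1
  subst h2
  exact ⟨rfl, h1.2⟩

theorem pos_injective (h : L * v * b ≤ n) (f : Fin L → Fin v → Fin b) :
    Function.Injective (pos h f) := fun _ _ hk => (pos_eq h hk).1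

/-- The positions of the edges of the copies. -/
def emap (h : L * v * b ≤ n) (f : Fin L → Fin v → Fin b) (p : Fin L × Sym2 (Fin v)) :
    Sym2 (Fin n) := Sym2.map (fun x => pos h f (p.1, x)) p.2

theorem emap_eq (h : L * v * b ≤ n) {f g : Fin L → Fin v → Fin b} {p p' : Fin L × Sym2 (Fin v)}
    (hp : emap h f p = emap h g p') : p = p' ∧ ∀ x ∈ p.2, f p.1 x = g p.1 x := by
  have key : ∀ (f g : Fin L → Fin v → Fin b) (p p' : Fin L × Sym2 (Fin v)),
      emap h f p = emap h g p' → ∀ x ∈ p.2, p.1 = p'.1 ∧ x ∈ p'.2 ∧ f p.1 x = g p.1 x := by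
    intro f g p p' hp x hx
    have h1 : pos h f (p.1, x) ∈ emap h f p := Sym2.mem_map.mpr ⟨x, hx, rfl⟩
    rw [hp] at h1
    obtain ⟨x', hx', h2⟩ := Sym2.mem_map.mp h1
    have h3 := pos_eq h h2.symm
    have h4 := h3.1
    rw [Prod.mk.injEq] at h4
    refine ⟨h4.1, ?_, h3.2⟩
    rw [h4.2]
    exact hx'
  refine ⟨?_, fun x hx => (key f g p p' hp x hx).2.2⟩
  have h1 : p.1 = p'.1 := by
    obtain ⟨x, hx⟩ : ∃ x, x ∈ p.2 := by
      induction p.2 using Sym2.ind with
      | _ a c => exact ⟨a, Sym2.mem_mk_left a c⟩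
    exact (key f g p p' hp x hx).1
  have h2 : p.2 = p'.2 := by
    apply Sym2.ext
    intro x
    exact ⟨fun hx => (key f g p p' hp x hx).2.1, fun hx => (key g f p' p hp.symm x hx).2.1⟩
  exact Prod.ext h1 h2

theorem emap_injective (h : L * v * b ≤ n) (f : Fin L → Fin v → Fin b) :
    Function.Injective (emap h f) := fun _ _ hk => (emap_eq h hk).1

theorem card_union_image {K M : Type*} [DecidableEq K] [DecidableEq M] (A : Finset K)
    (α β : K → M) (hα : Function.Injective α) (hβ : Function.Injective β)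
    (h : ∀ k k', α k = β k' → k = k') :
    2 * A.card ≤ (A.image α ∪ A.image β).card + (A.filter fun k => α k = β k).card := by
  have h1 := card_union_add_card_inter (A.image α) (A.image β)
  rw [card_image_of_injective _ hα, card_image_of_injective _ hβ] at h1
  have h2 : (A.image α ∩ A.image β).card ≤ (A.filter fun k => α k = β k).card := by
    rw [← card_image_of_injective (A.filter fun k => α k = β k) hα]
    apply card_le_card
    intro z hz
    rw [mem_inter, mem_image, mem_image] at hz
    obtain ⟨⟨k, hk, rfl⟩, k', hk', hkk⟩ := hz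
    have := h k k' hkk.symm
    subst this
    exact mem_image_of_mem _ (mem_filter.mpr ⟨hk, hkk.symm⟩)
  omega

open scoped Classical in
/-- The edges of the copies. -/
noncomputable def Eset (h : L * v * b ≤ n) (T : SimpleGraph (Fin v))
    (f : Fin L → Fin v → Fin b) : Finset (Sym2 (Fin n)) :=
  (univ ×ˢ T.edgeFinset).image (emap h f)

/-- The exact vertices of the copies. -/
def Wset (h : L * v * b ≤ n) (J₀ : Finset (Fin v)) (f : Fin L → Fin v → Fin b) :
    Finset (Fin n) := (univ ×ˢ J₀).image (pos h f)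

/-- All the vertices of the copies. -/
def Rset (h : L * v * b ≤ n) (f : Fin L → Fin v → Fin b) : Finset (Fin n) :=
  univ.image (pos h f)

open scoped Classical in
/-- The pairs at the exact vertices which are not edges of the copies. -/
noncomputable def Nset (h : L * v * b ≤ n) (T : SimpleGraph (Fin v)) (J₀ : Finset (Fin v))
    (f : Fin L → Fin v → Fin b) : Finset (Sym2 (Fin n)) :=
  (((univ ×ˢ J₀) ×ˢ univ).image fun p : (Fin L × Fin v) × Fin n => s(pos h f p.1, p.2)).filter
    fun z => ¬ z.IsDiag ∧ z ∉ Eset h T f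

theorem mem_Eset_mk (h : L * v * b ≤ n) (T : SimpleGraph (Fin v)) (f : Fin L → Fin v → Fin b)
    {z : Sym2 (Fin n)} : z ∈ Eset h T f ↔ ∃ l x x', T.Adj x x' ∧ z = s(pos h f (l, x),
      pos h f (l, x')) := by
  classical
  unfold Eset
  simp only [mem_image, mem_product, mem_univ, true_and, Prod.exists]
  constructor
  · rintro ⟨l, z', hz', rfl⟩
    induction z' using Sym2.ind with
    | _ a c =>
      rw [SimpleGraph.mem_edgeFinset, SimpleGraph.mem_edgeSet] at hz'
      exact ⟨l, a, c, hz', rfl⟩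
  · rintro ⟨l, x, x', hx, rfl⟩
    refine ⟨l, s(x, x'), ?_, rfl⟩
    rw [SimpleGraph.mem_edgeFinset, SimpleGraph.mem_edgeSet]
    exact hx

theorem not_isDiag_of_mem_Eset (h : L * v * b ≤ n) (T : SimpleGraph (Fin v))
    (f : Fin L → Fin v → Fin b) {z : Sym2 (Fin n)} (hz : z ∈ Eset h T f) : ¬ z.IsDiag := by
  obtain ⟨l, x, x', hx, rfl⟩ := (mem_Eset_mk h T f).mp hz
  rw [Sym2.mk_isDiag_iff]
  intro h1
  have := (pos_eq h h1).1
  rw [Prod.mk.injEq] at this
  exact hx.ne this.2

/-- A cylinder event contained in the event that `f` gives exact copies. -/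
theorem isCopies_of_cyl (h : L * v * b ≤ n) (T : SimpleGraph (Fin v)) (J₀ : Finset (Fin v))
    (f : Fin L → Fin v → Fin b) (ω : Pr n → Bool) (h1 : ∀ z ∈ Eset h T f, adjS ω z = true)
    (h2 : ∀ z ∈ Nset h T J₀ f, adjS ω z = false) : IsCopies T J₀ ω (pos h f) := by
  classical
  refine ⟨pos_injective h f, ?_⟩
  intro l x hx y
  constructor
  · intro hadj
    have hne : ¬ (s(pos h f (l, x), y) : Sym2 (Fin n)).IsDiag := by
      rw [Sym2.mk_isDiag_iff]
      rintro rfl
      rw [adjB_self] at hadj
      exact Bool.false_ne_true hadj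
    by_cases hE : s(pos h f (l, x), y) ∈ Eset h T f
    · obtain ⟨l', a, c, hac, hz⟩ := (mem_Eset_mk h T f).mp hE
      rw [Sym2.eq_iff] at hz
      rcases hz with ⟨h3, h4⟩ | ⟨h3, h4⟩
      · have h5 := (pos_eq h h3).1
        rw [Prod.mk.injEq] at h5
        obtain ⟨rfl, rfl⟩ := h5
        exact ⟨c, hac, h4.symm⟩
      · have h5 := (pos_eq h h3).1
        rw [Prod.mk.injEq] at h5
        obtain ⟨rfl, rfl⟩ := h5
        exact ⟨a, hac.symm, h4.symm⟩
    · exfalso
      have h3 := h2 s(pos h f (l, x), y) (by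
        unfold Nset
        rw [mem_filter]
        refine ⟨?_, hne, hE⟩
        rw [mem_image]
        exact ⟨((l, x), y), by simp [hx], rfl⟩)
      rw [adjS_mk, hadj] at h3
      exact Bool.false_ne_true h3.symm
  · rintro ⟨x', hx', rfl⟩
    have h3 := h1 s(pos h f (l, x), pos h f (l, x')) ((mem_Eset_mk h T f).mpr
      ⟨l, x, x', hx', rfl⟩)
    rw [adjS_mk] at h3
    exact h3

theorem adjS_of_isCopies (h : L * v * b ≤ n) (T : SimpleGraph (Fin v)) (J₀ : Finset (Fin v))
    (hind : ∀ i k, T.Adj i k → i ∈ J₀ ∨ k ∈ J₀)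
    (f : Fin L → Fin v → Fin b) (ω : Pr n → Bool) (hf : IsCopies T J₀ ω (pos h f)) :
    ∀ z ∈ Eset h T f, adjS ω z = true := by
  intro z hz
  obtain ⟨l, x, x', hx, rfl⟩ := (mem_Eset_mk h T f).mp hz
  rcases hind x x' hx with h1 | h1
  · rw [adjS_mk]
    exact (hf.2 l x h1 _).mpr ⟨x', hx, rfl⟩
  · rw [adjS_mk, adjB_comm]
    exact (hf.2 l x' h1 _).mpr ⟨x, hx.symm, rfl⟩

theorem adjB_of_isCopies (h : L * v * b ≤ n) (T : SimpleGraph (Fin v)) (J₀ : Finset (Fin v))
    (f : Fin L → Fin v → Fin b) (ω : Pr n → Bool) (hf : IsCopies T J₀ ω (pos h f))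
    {w y : Fin n} (hw : w ∈ Wset h J₀ f) (hy : y ∉ Rset h f) : adjB ω w y = false := by
  unfold Wset at hw
  simp only [mem_image, mem_product, mem_univ, true_and, Prod.exists] at hw
  obtain ⟨l, x, hx, rfl⟩ := hw
  by_contra hne
  rw [Bool.not_eq_false] at hne
  obtain ⟨x', _, rfl⟩ := (hf.2 l x hx y).mp hne
  exact hy (mem_image_of_mem _ (mem_univ _))

/-- Closed sets of vertices. -/
def Clo (T : SimpleGraph (Fin v)) (J₀ S : Finset (Fin v)) : Prop :=
  ∀ x ∈ S, x ∈ J₀ → ∀ x', T.Adj x x' → x' ∈ S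

/-- The agreement set. -/
def agr (f g : Fin v → Fin b) : Finset (Fin v) := univ.filter fun x => f x = g x

theorem clo_of_isCopies (h : L * v * b ≤ n) (T : SimpleGraph (Fin v)) (J₀ : Finset (Fin v))
    (f g : Fin L → Fin v → Fin b) (ω : Pr n → Bool) (hf : IsCopies T J₀ ω (pos h f))
    (hg : IsCopies T J₀ ω (pos h g)) (l : Fin L) : Clo T J₀ (agr (f l) (g l)) := by
  intro x hx hxJ x' hxx'
  unfold agr at hx ⊢
  rw [mem_filter] at hx ⊢
  refine ⟨mem_univ _, ?_⟩
  have h1 := (hf.2 l x hxJ (pos h f (l, x'))).mpr ⟨x', hxx', rfl⟩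
  have h2 : pos h f (l, x) = pos h g (l, x) := by
    unfold pos
    simp only [hx.2]
  rw [h2] at h1
  obtain ⟨x'', _, h3⟩ := (hg.2 l x hxJ (pos h f (l, x'))).mp h1
  exact (pos_eq h h3.symm).2


theorem eIn_le (T : SimpleGraph (Fin v)) [Fintype T.edgeSet] (S : Finset (Fin v)) :
    eIn T S ≤ T.edgeFinset.card := by
  classical
  unfold eIn
  refine (card_filter_le _ _).trans (le_of_eq ?_)
  congr 1
  ext z
  simp only [SimpleGraph.mem_edgeFinset]

open scoped Classical in
/-- The bound for the contribution of one copy to the second moment. -/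
noncomputable def h0 (r : ℝ) (T : SimpleGraph (Fin v)) (J₀ : Finset (Fin v)) (e j N : ℕ)
    (S : Finset (Fin v)) : ℝ :=
  if Clo T J₀ S then r ^ (2 * e - eIn T S) * (1 - r) ^ ((2 * j - (S ∩ J₀).card) * N) else 0

theorem h0_nonneg {r : ℝ} (hr0 : 0 ≤ r) (hr1 : r ≤ 1) (T : SimpleGraph (Fin v))
    (J₀ : Finset (Fin v)) (e j N : ℕ) (S : Finset (Fin v)) : 0 ≤ h0 r T J₀ e j N S := by
  unfold h0
  split_ifs
  · have : 0 ≤ 1 - r := by linarith
    positivity
  · exact le_rfl

open scoped Classical in
theorem Ex_two_le {r : ℝ} (hr0 : 0 ≤ r) (hr1 : r ≤ 1) (h : L * v * b ≤ n)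
    (T : SimpleGraph (Fin v)) (J₀ : Finset (Fin v))
    (hind : ∀ i k, T.Adj i k → i ∈ J₀ ∨ k ∈ J₀) {e j : ℕ} (he : T.edgeFinset.card = e)
    (hj : J₀.card = j) (f g : Fin L → Fin v → Fin b) :
    Ex r (fun ω : Pr n → Bool => if IsCopies T J₀ ω (pos h f) ∧ IsCopies T J₀ ω (pos h g)
      then (1 : ℝ) else 0) ≤ ∏ l, h0 r T J₀ e j (n - 2 * (L * v)) (agr (f l) (g l)) := by
  have hr1' : 0 ≤ 1 - r := by linarith
  by_cases hclo : ∀ l, Clo T J₀ (agr (f l) (g l))
  · -- the sets
    let E : Finset (Sym2 (Fin n)) := Eset h T f ∪ Eset h T g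
    let W : Finset (Fin n) := Wset h J₀ f ∪ Wset h J₀ g
    let R : Finset (Fin n) := Rset h f ∪ Rset h g
    let N : Finset (Sym2 (Fin n)) := (W ×ˢ Rᶜ).image fun p => s(p.1, p.2)
    have hWR : W ⊆ R := by
      apply union_subset_union
      · exact image_subset_image (subset_univ _)
      · exact image_subset_image (subset_univ _)
    have hE : ∀ z ∈ E, ¬ z.IsDiag := by
      intro z hz
      rcases mem_union.mp hz with hz | hz
      · exact not_isDiag_of_mem_Eset h T f hz
      · exact not_isDiag_of_mem_Eset h T g hz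
    have hN : ∀ z ∈ N, ¬ z.IsDiag := by
      intro z hz
      obtain ⟨p, hp, rfl⟩ := mem_image.mp hz
      rw [mem_product, mem_compl] at hp
      rw [Sym2.mk_isDiag_iff]
      intro h1
      exact hp.2 (h1 ▸ hWR hp.1)
    have hER : ∀ z ∈ E, ∀ x ∈ z, x ∈ R := by
      intro z hz x hx
      rcases mem_union.mp hz with hz | hz
      · obtain ⟨l, a, c, _, rfl⟩ := (mem_Eset_mk h T f).mp hz
        apply mem_union_left
        rcases Sym2.mem_iff.mp hx with rfl | rfl
        · exact mem_image_of_mem _ (mem_univ _)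
        · exact mem_image_of_mem _ (mem_univ _)
      · obtain ⟨l, a, c, _, rfl⟩ := (mem_Eset_mk h T g).mp hz
        apply mem_union_right
        rcases Sym2.mem_iff.mp hx with rfl | rfl
        · exact mem_image_of_mem _ (mem_univ _)
        · exact mem_image_of_mem _ (mem_univ _)
    have hd : Disjoint E N := by
      rw [disjoint_left]
      intro z hz hz2
      obtain ⟨p, hp, rfl⟩ := mem_image.mp hz2
      rw [mem_product, mem_compl] at hp
      exact hp.2 (hER _ hz p.2 (Sym2.mem_mk_right _ _))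
    have h1 : Ex r (fun ω : Pr n → Bool => if IsCopies T J₀ ω (pos h f) ∧
        IsCopies T J₀ ω (pos h g) then (1 : ℝ) else 0) ≤
        Ex r (fun ω : Pr n → Bool =>
      if (∀ z ∈ E, adjS ω z = true) ∧ (∀ z ∈ N, adjS ω z = false) then (1 : ℝ) else 0) := by
      apply Ex_mono hr0 hr1
      intro ω
      by_cases hfg : IsCopies T J₀ ω (pos h f) ∧ IsCopies T J₀ ω (pos h g)
      · rw [if_pos hfg, if_pos]
        constructor
        · intro z hz
          rcases mem_union.mp hz with hz | hz
          · exact adjS_of_isCopies h T J₀ hind f ω hfg.1 z hz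
          · exact adjS_of_isCopies h T J₀ hind g ω hfg.2 z hz
        · intro z hz
          obtain ⟨p, hp, rfl⟩ := mem_image.mp hz
          rw [mem_product, mem_compl] at hp
          have hpR : p.2 ∉ Rset h f ∧ p.2 ∉ Rset h g := by
            have := hp.2
            rw [mem_union, not_or] at this
            exact this
          rw [adjS_mk]
          rcases mem_union.mp hp.1 with hp1 | hp1
          · exact adjB_of_isCopies h T J₀ f ω hfg.1 hp1 hpR.1
          · exact adjB_of_isCopies h T J₀ g ω hfg.2 hp1 hpR.2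
      · rw [if_neg hfg]
        split_ifs
        · exact zero_le_one
        · exact le_rfl
    refine h1.trans ?_
    rw [Ex_cyl E N hE hN hd]
    have h2 : ∏ l, h0 r T J₀ e j (n - 2 * (L * v)) (agr (f l) (g l)) =
        r ^ (∑ l, (2 * e - eIn T (agr (f l) (g l)))) *
        (1 - r) ^ (∑ l, (2 * j - (agr (f l) (g l) ∩ J₀).card) * (n - 2 * (L * v))) := by
      rw [← prod_pow_eq_pow_sum, ← prod_pow_eq_pow_sum, ← prod_mul_distrib]
      apply prod_congr rfl
      intro l _
      unfold h0
      rw [if_pos (hclo l)]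
    rw [h2]
    -- the number of edges
    have h3 : ∑ l, (2 * e - eIn T (agr (f l) (g l))) ≤ E.card := by
      have h4 := card_union_image (univ ×ˢ T.edgeFinset : Finset (Fin L × Sym2 (Fin v)))
        (emap h f) (emap h g) (emap_injective h f) (emap_injective h g)
        (fun k k' hk => (emap_eq h hk).1)
      have h5 : ((univ ×ˢ T.edgeFinset : Finset (Fin L × Sym2 (Fin v))).filter
          fun k => emap h f k = emap h g k).card ≤ ∑ l, eIn T (agr (f l) (g l)) := by
        calc _ ≤ (univ.sigma fun l : Fin L =>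
              T.edgeFinset.filter fun z => ∀ x ∈ z, x ∈ agr (f l) (g l)).card := by
              apply card_le_card_of_injOn (fun k => ⟨k.1, k.2⟩)
              · intro k hk
                rw [mem_coe, mem_filter, mem_product] at hk
                simp only [coe_sigma, Set.mem_sigma_iff, mem_coe, mem_univ, true_and, mem_filter]
                refine ⟨hk.1.2, ?_⟩
                intro x hx
                unfold agr
                rw [mem_filter]
                exact ⟨mem_univ _, (emap_eq h hk.2).2 x hx⟩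
              · rintro ⟨a, c⟩ _ ⟨a', c'⟩ _ hk
                simp only [Sigma.mk.injEq, heq_eq_eq] at hk
                exact Prod.ext hk.1 hk.2
          _ = _ := by
              rw [card_sigma]
              rfl
      have h6 : ∀ l : Fin L, eIn T (agr (f l) (g l)) ≤ 2 * e := by
        intro l
        have := eIn_le T (agr (f l) (g l))
        omega
      have h7 : ∑ l, (2 * e - eIn T (agr (f l) (g l))) + ∑ l, eIn T (agr (f l) (g l)) =
          2 * (L * e) := by
        rw [← sum_add_distrib]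
        rw [sum_congr rfl fun l _ => Nat.sub_add_cancel (h6 l)]
        simp
        ring
      have h8 : (univ ×ˢ T.edgeFinset : Finset (Fin L × Sym2 (Fin v))).card = L * e := by
        rw [card_product, card_univ, Fintype.card_fin, he]
      rw [h8] at h4
      have h9 : E.card = ((univ ×ˢ T.edgeFinset : Finset (Fin L × Sym2 (Fin v))).image (emap h f) ∪
        (univ ×ˢ T.edgeFinset : Finset (Fin L × Sym2 (Fin v))).image (emap h g)).card := rfl
      omega
    have h10 : ∑ l, (2 * j - (agr (f l) (g l) ∩ J₀).card) * (n - 2 * (L * v)) ≤ N.card := by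
      rw [← sum_mul]
      have hNc : N.card = W.card * Rᶜ.card := by
        rw [← card_product]
        apply card_image_of_injOn
        rintro ⟨a, c⟩ hac ⟨a', c'⟩ hac' hk
        rw [mem_coe, mem_product, mem_compl] at hac hac'
        simp only [Sym2.eq_iff] at hk
        rcases hk with ⟨h1, h2⟩ | ⟨h1, h2⟩
        · rw [h1, h2]
        · exact absurd (h1 ▸ hWR hac.1) hac'.2
      rw [hNc]
      apply Nat.mul_le_mul
      · have h4 := card_union_image (univ ×ˢ J₀ : Finset (Fin L × Fin v))
          (pos h f) (pos h g) (pos_injective h f) (pos_injective h g)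
          (fun k k' hk => (pos_eq h hk).1)
        have h5 : ((univ ×ˢ J₀ : Finset (Fin L × Fin v)).filter
            fun k => pos h f k = pos h g k).card ≤ ∑ l, (agr (f l) (g l) ∩ J₀).card := by
          calc _ ≤ (univ.sigma fun l : Fin L => agr (f l) (g l) ∩ J₀).card := by
                apply card_le_card_of_injOn (fun k => ⟨k.1, k.2⟩)
                · intro k hk
                  rw [mem_coe, mem_filter, mem_product] at hk
                  simp only [coe_sigma, Set.mem_sigma_iff, mem_coe, mem_univ, true_and, mem_inter]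
                  refine ⟨?_, hk.1.2⟩
                  unfold agr
                  rw [mem_filter]
                  exact ⟨mem_univ _, (pos_eq h hk.2).2⟩
                · rintro ⟨a, c⟩ _ ⟨a', c'⟩ _ hk
                  simp only [Sigma.mk.injEq, heq_eq_eq] at hk
                  exact Prod.ext hk.1 hk.2
            _ = _ := by
                rw [card_sigma]
        have h6 : ∀ l : Fin L, (agr (f l) (g l) ∩ J₀).card ≤ 2 * j := by
          intro l
          have := card_le_card (inter_subset_right : agr (f l) (g l) ∩ J₀ ⊆ J₀)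
          omega
        have h7 : ∑ l, (2 * j - (agr (f l) (g l) ∩ J₀).card) +
            ∑ l, (agr (f l) (g l) ∩ J₀).card = 2 * (L * j) := by
          rw [← sum_add_distrib]
          rw [sum_congr rfl fun l _ => Nat.sub_add_cancel (h6 l)]
          simp
          ring
        have h8 : (univ ×ˢ J₀ : Finset (Fin L × Fin v)).card = L * j := by
          rw [card_product, card_univ, Fintype.card_fin, hj]
        rw [h8] at h4
        have h9 : W.card = ((univ ×ˢ J₀ : Finset (Fin L × Fin v)).image (pos h f) ∪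
          (univ ×ˢ J₀ : Finset (Fin L × Fin v)).image (pos h g)).card := rfl
        omega
      · rw [card_compl, Fintype.card_fin]
        have hR : R.card ≤ 2 * (L * v) := by
          refine (card_union_le _ _).trans ?_
          have h11 : ∀ f : Fin L → Fin v → Fin b, (Rset h f).card ≤ L * v := by
            intro f
            refine card_image_le.trans ?_
            simp
          have := h11 f
          have := h11 g
          omega
        omega
    apply mul_le_mul (pow_le_pow_of_le_one hr0 hr1 h3)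
      (pow_le_pow_of_le_one hr1' (by linarith) h10) (by positivity) (by positivity)
  · push Not at hclo
    obtain ⟨l, hl⟩ := hclo
    have h1 : ∀ ω : Pr n → Bool, (if IsCopies T J₀ ω (pos h f) ∧
        IsCopies T J₀ ω (pos h g) then (1 : ℝ) else 0) = 0 := by
      intro ω
      apply if_neg
      rintro ⟨h1, h2⟩
      exact hl (clo_of_isCopies h T J₀ f g ω h1 h2 l)
    simp_rw [h1]
    rw [Ex_const]
    exact prod_nonneg fun l _ => h0_nonneg hr0 hr1 T J₀ e j _ _

open scoped Classical in
theorem le_Ex_one {r : ℝ} (hr0 : 0 ≤ r) (hr1 : r ≤ 1) (h : L * v * b ≤ n)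
    (T : SimpleGraph (Fin v)) (J₀ : Finset (Fin v)) {e j : ℕ} (he : T.edgeFinset.card = e)
    (hj : J₀.card = j) (f : Fin L → Fin v → Fin b) :
    r ^ (L * e) * (1 - r) ^ (L * j * n) ≤
    Ex r (fun ω : Pr n → Bool => if IsCopies T J₀ ω (pos h f) then (1 : ℝ) else 0) := by
  have hr1' : 0 ≤ 1 - r := by linarith
  have hd : Disjoint (Eset h T f) (Nset h T J₀ f) := by
    rw [disjoint_left]
    intro z hz hz2
    unfold Nset at hz2
    rw [mem_filter] at hz2
    exact hz2.2.2 hz
  have h1 := Ex_cyl (r := r) (Eset h T f) (Nset h T J₀ f)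
    (fun z hz => not_isDiag_of_mem_Eset h T f hz)
    (fun z hz => by
      unfold Nset at hz
      rw [mem_filter] at hz
      exact hz.2.1) hd
  have h2 : (Eset h T f).card ≤ L * e := by
    unfold Eset
    refine card_image_le.trans ?_
    rw [card_product, card_univ, Fintype.card_fin, he]
  have h3 : (Nset h T J₀ f).card ≤ L * j * n := by
    unfold Nset
    refine (card_filter_le _ _).trans (card_image_le.trans ?_)
    rw [card_product, card_product, card_univ, Fintype.card_fin, card_univ, Fintype.card_fin, hj]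
  calc r ^ (L * e) * (1 - r) ^ (L * j * n) ≤ r ^ (Eset h T f).card * (1 - r) ^ (Nset h T J₀ f).card :=
        mul_le_mul (pow_le_pow_of_le_one hr0 hr1 h2)
        (pow_le_pow_of_le_one hr1' (by linarith) h3) (by positivity) (by positivity)
    _ = _ := h1.symm
    _ ≤ _ := by
        apply Ex_mono hr0 hr1
        intro ω
        split_ifs with h4 h5 h5
        · exact le_rfl
        · exact absurd (isCopies_of_cyl h T J₀ f ω h4.1 h4.2) h5
        · exact zero_le_one
        · exact le_rfl


/-! ### Sums over pairs of positions -/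

theorem card_agree (S : Finset (Fin v)) :
    (univ.filter fun p : (Fin v → Fin b) × (Fin v → Fin b) => ∀ x ∈ S, p.1 x = p.2 x).card ≤
      b ^ (2 * v - S.card) := by
  classical
  have h1 : (univ.filter fun p : (Fin v → Fin b) × (Fin v → Fin b) =>
      ∀ x ∈ S, p.1 x = p.2 x).card ≤
      (univ : Finset ((Fin v → Fin b) × ({x // x ∈ Sᶜ} → Fin b))).card := by
    apply card_le_card_of_injOn (fun p => (p.1, fun x => p.2 x.1))
    · intro p _
      simp
    · rintro ⟨f, g⟩ hp ⟨f', g'⟩ hp' heq
      rw [mem_coe, mem_filter] at hp hp'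
      simp only [Prod.mk.injEq] at heq
      obtain ⟨rfl, h2⟩ := heq
      congr 1
      funext x
      by_cases hx : x ∈ S
      · exact (hp.2 x hx).symm.trans (hp'.2 x hx)
      · exact congrFun h2 ⟨x, mem_compl.mpr hx⟩
  refine h1.trans (le_of_eq ?_)
  have hS : S.card ≤ v := by
    have := card_le_univ S
    rwa [Fintype.card_fin] at this
  rw [card_univ, Fintype.card_prod, Fintype.card_fun, Fintype.card_fun, Fintype.card_fin,
    Fintype.card_fin, Fintype.card_coe, card_compl, Fintype.card_fin, ← pow_add]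
  congr 1
  omega

theorem sum_agr_le (F : Finset (Fin v) → ℝ) (hF : ∀ S, 0 ≤ F S) :
    ∑ p : (Fin v → Fin b) × (Fin v → Fin b), F (agr p.1 p.2) ≤
      ∑ S : Finset (Fin v), (b : ℝ) ^ (2 * v - S.card) * F S := by
  classical
  calc ∑ p : (Fin v → Fin b) × (Fin v → Fin b), F (agr p.1 p.2)
      ≤ ∑ p : (Fin v → Fin b) × (Fin v → Fin b), ∑ S : Finset (Fin v),
        (if ∀ x ∈ S, p.1 x = p.2 x then F S else 0) := by
        apply sum_le_sum
        intro p _
        have h1 : F (agr p.1 p.2) = (if ∀ x ∈ agr p.1 p.2, p.1 x = p.2 x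
            then F (agr p.1 p.2) else 0) := by
          rw [if_pos]
          intro x hx
          unfold agr at hx
          exact (mem_filter.mp hx).2
        rw [h1]
        exact single_le_sum (f := fun S : Finset (Fin v) =>
          (if ∀ x ∈ S, p.1 x = p.2 x then F S else 0))
          (fun S _ => by
            split_ifs
            · exact hF S
            · exact le_rfl) (mem_univ _)
    _ = ∑ S : Finset (Fin v), ∑ p : (Fin v → Fin b) × (Fin v → Fin b),
        (if ∀ x ∈ S, p.1 x = p.2 x then F S else 0) := sum_comm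
    _ ≤ _ := by
        apply sum_le_sum
        intro S _
        rw [← sum_filter, sum_const, nsmul_eq_mul]
        apply mul_le_mul_of_nonneg_right _ (hF S)
        exact_mod_cast card_agree S

theorem sum_prod_pairs {P : Type*} [Fintype P] (H : P → P → ℝ) :
    ∑ f : Fin L → P, ∑ g : Fin L → P, ∏ l, H (f l) (g l) = (∑ p : P × P, H p.1 p.2) ^ L := by
  classical
  have h1 : (∑ p : P × P, H p.1 p.2) ^ L = ∏ _l : Fin L, ∑ p : P × P, H p.1 p.2 := by
    rw [prod_const, card_univ, Fintype.card_fin]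
  rw [h1, prod_univ_sum, Fintype.piFinset_univ, ← Fintype.sum_prod_type',
    ← Equiv.sum_comp (Equiv.arrowProdEquivProdArrow (Fin L) (fun _ => P) (fun _ => P))]
  rfl

theorem eIn_empty (T : SimpleGraph (Fin v)) : eIn T ∅ = 0 := by
  classical
  unfold eIn
  rw [card_eq_zero, filter_eq_empty_iff]
  intro z _ hz
  induction z using Sym2.ind with
  | _ a c => simpa using hz a (Sym2.mem_mk_left a c)

theorem eq_univ_of_clo (T : SimpleGraph (Fin v)) (hT : T.IsTree) (J₀ S : Finset (Fin v))
    (hind : ∀ i k, T.Adj i k → i ∈ J₀ ∨ k ∈ J₀) (hJ : J₀.Nonempty) (hS : Clo T J₀ S)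
    (hJS : J₀ ⊆ S) : S = univ := by
  rw [eq_univ_iff_forall]
  intro y
  by_cases hy : y ∈ J₀
  · exact hJS hy
  obtain ⟨z, hz⟩ := hJ
  have hne : y ≠ z := by
    rintro rfl
    exact hy hz
  obtain ⟨w⟩ := hT.connected.preconnected y z
  cases w with
  | nil => exact absurd rfl hne
  | cons hadj _ =>
    rcases hind _ _ hadj with h1 | h1
    · exact absurd h1 hy
    · exact hS _ (hJS h1) h1 _ hadj.symm

/-- The contribution of one copy. -/
theorem copy_bound {r : ℝ} (hr0 : 0 ≤ r) (hr1 : r ≤ 1) (T : SimpleGraph (Fin v))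
    [Fintype T.edgeSet] (hT : T.IsTree)
    (J₀ : Finset (Fin v)) (hind : ∀ i k, T.Adj i k → i ∈ J₀ ∨ k ∈ J₀) {e j N : ℕ}
    (he : T.edgeFinset.card = e) (hj : J₀.card = j) (hj1 : 1 ≤ j) (hb1 : 1 ≤ b) (hbN : b ≤ N) :
    ∑ S : Finset (Fin v), (b : ℝ) ^ (2 * v - S.card) * h0 r T J₀ e j N S ≤
      ((b : ℝ) ^ v * r ^ e * (1 - r) ^ (j * N)) ^ 2 +
        2 ^ v * v.factorial * ((b : ℝ) ^ v * r ^ e * (1 - r) ^ (j * N)) := by
  classical
  have hr1' : 0 ≤ 1 - r := by linarith
  have hr2 : 1 - r ≤ 1 := by linarith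
  have hv : e + 1 = v := by
    have := hT.card_edgeFinset
    rw [he, Fintype.card_fin] at this
    exact this
  set Λ : ℝ := (b : ℝ) ^ v * r ^ e * (1 - r) ^ (j * N) with hΛ
  have hΛ0 : 0 ≤ Λ := by positivity
  have hb : (1 : ℝ) ≤ b := by exact_mod_cast hb1
  have hfac : (1 : ℝ) ≤ v.factorial := by exact_mod_cast Nat.factorial_pos v
  -- the nonempty sets
  have key : ∀ S : Finset (Fin v), S.Nonempty →
      (b : ℝ) ^ (2 * v - S.card) * h0 r T J₀ e j N S ≤ v.factorial * Λ := by
    intro S hS
    unfold h0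
    split_ifs with hclo
    · have hSv : S.card ≤ v := by
        have := card_le_univ S
        rwa [Fintype.card_fin] at this
      have h1 := eIn_lt T hT.isAcyclic S hS
      have h2 : eIn T S ≤ e := he ▸ eIn_le T S
      have h3 : (S ∩ J₀).card ≤ j := hj ▸ card_le_card inter_subset_right
      have h4 : (b : ℝ) ^ (2 * v - S.card) * (r ^ (2 * e - eIn T S) *
          (1 - r) ^ ((2 * j - (S ∩ J₀).card) * N)) =
          ((b : ℝ) ^ (v - S.card) * r ^ (e - eIn T S) * (1 - r) ^ ((j - (S ∩ J₀).card) * N)) *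
            Λ := by
        rw [hΛ]
        have e1 : 2 * v - S.card = (v - S.card) + v := by omega
        have e2 : 2 * e - eIn T S = (e - eIn T S) + e := by omega
        have e3 : (2 * j - (S ∩ J₀).card) * N = (j - (S ∩ J₀).card) * N + j * N := by
          rw [← add_mul]
          congr 1
          omega
        rw [e1, e2, e3, pow_add, pow_add, pow_add]
        ring
      rw [h4]
      apply mul_le_mul_of_nonneg_right _ hΛ0
      by_cases hJS : J₀ ⊆ S
      · have hSu := eq_univ_of_clo T hT J₀ S hind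
          (card_pos.mp (by omega)) hclo hJS
        have h5 : v - S.card = 0 := by
          rw [hSu, card_univ, Fintype.card_fin, Nat.sub_self]
        rw [h5, pow_zero, one_mul]
        calc r ^ (e - eIn T S) * (1 - r) ^ ((j - (S ∩ J₀).card) * N) ≤ 1 * 1 :=
              mul_le_mul (pow_le_one₀ hr0 hr1) (pow_le_one₀ hr1' hr2) (by positivity)
                zero_le_one
          _ ≤ _ := by linarith
      · have h5 : (S ∩ J₀).card < j := by
          rw [← hj]
          apply card_lt_card
          rw [ssubset_iff_subset_ne]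
          refine ⟨inter_subset_right, ?_⟩
          intro h6
          exact hJS (inter_eq_right.mp h6)
        set a := e - eIn T S with ha
        have h6 : (b : ℝ) ^ (v - S.card) ≤ (b : ℝ) ^ a :=
          pow_le_pow_right₀ hb (by omega)
        have h7 : (1 - r) ^ ((j - (S ∩ J₀).card) * N) ≤ (1 - r) ^ N := by
          apply pow_le_pow_of_le_one hr1' hr2
          exact Nat.le_mul_of_pos_left N (by omega)
        have h8 : (1 - r) ^ N ≤ Real.exp (-(N * r)) := by
          have h9 : 1 - r ≤ Real.exp (-r) := by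
            have := Real.add_one_le_exp (-r)
            linarith
          calc (1 - r) ^ N ≤ Real.exp (-r) ^ N := pow_le_pow_left₀ hr1' h9 N
            _ = Real.exp (-(N * r)) := by
                rw [← Real.exp_nat_mul]
                congr 1
                ring
        have h10 : ((N : ℝ) * r) ^ a ≤ a.factorial * Real.exp (N * r) := by
          have := Real.pow_div_factorial_le_exp (x := (N : ℝ) * r) (by positivity) a
          rw [div_le_iff₀ (by positivity)] at this
          linarith
        have hbN' : (b : ℝ) ≤ N := by exact_mod_cast hbN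
        calc (b : ℝ) ^ (v - S.card) * r ^ a * (1 - r) ^ ((j - (S ∩ J₀).card) * N)
            ≤ (b : ℝ) ^ a * r ^ a * Real.exp (-(N * r)) := by
              apply mul_le_mul (mul_le_mul_of_nonneg_right h6 (by positivity)) (h7.trans h8)
                (by positivity) (by positivity)
          _ = ((b : ℝ) * r) ^ a * Real.exp (-(N * r)) := by rw [mul_pow]
          _ ≤ ((N : ℝ) * r) ^ a * Real.exp (-(N * r)) := by
              apply mul_le_mul_of_nonneg_right _ (Real.exp_pos _).le
              apply pow_le_pow_left₀ (by positivity)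
              exact mul_le_mul_of_nonneg_right hbN' hr0
          _ ≤ (a.factorial * Real.exp (N * r)) * Real.exp (-(N * r)) :=
              mul_le_mul_of_nonneg_right h10 (Real.exp_pos _).le
          _ = a.factorial := by
              rw [mul_assoc, ← Real.exp_add, add_neg_cancel, Real.exp_zero, mul_one]
          _ ≤ v.factorial := by
              exact_mod_cast Nat.factorial_le (by omega)
    · rw [mul_zero]
      positivity
  rw [← add_sum_erase univ _ (mem_univ (∅ : Finset (Fin v)))]
  apply add_le_add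
  · have hclo : Clo T J₀ ∅ := by
      intro x hx
      simp at hx
    unfold h0
    rw [if_pos hclo, eIn_empty, card_empty, empty_inter, card_empty, hΛ]
    apply le_of_eq
    simp only [Nat.sub_zero]
    ring
  · calc ∑ S ∈ univ.erase (∅ : Finset (Fin v)), (b : ℝ) ^ (2 * v - S.card) * h0 r T J₀ e j N S
        ≤ ∑ S ∈ univ.erase (∅ : Finset (Fin v)), v.factorial * Λ := by
          apply sum_le_sum
          intro S hS
          exact key S (nonempty_iff_ne_empty.mpr (mem_erase.mp hS).1)
      _ ≤ ∑ _S : Finset (Fin v), v.factorial * Λ := by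
          apply sum_le_sum_of_subset_of_nonneg (erase_subset _ _)
          intro _ _ _
          positivity
      _ = 2 ^ v * v.factorial * Λ := by
          rw [sum_const, card_univ, Fintype.card_finset, Fintype.card_fin, nsmul_eq_mul]
          push_cast
          ring

/-! ### The second moment -/

/-- Cauchy-Schwarz. -/
theorem Ex_sq_le {ι : Type*} [Fintype ι] [DecidableEq ι] {r : ℝ} (hr0 : 0 ≤ r) (hr1 : r ≤ 1)
    (X : (ι → Bool) → ℝ) (Y : (ι → Bool) → ℝ) (hX : ∀ ω, Y ω ^ 2 = Y ω)
    (hY : ∀ ω, X ω * Y ω = X ω) :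
    (Ex r X) ^ 2 ≤ Ex r (fun ω => X ω ^ 2) * Ex r Y := by
  unfold Ex
  apply sum_sq_le_sum_mul_sum_of_sq_le_mul
  · intro ω _
    rw [smul_eq_mul]
    have := wt_nonneg hr0 hr1 ω
    positivity
  · intro ω _
    rw [smul_eq_mul]
    have := wt_nonneg hr0 hr1 ω
    rw [← hX ω]
    positivity
  · intro ω _
    simp only [smul_eq_mul]
    apply le_of_eq
    calc (wt r ω * X ω) ^ 2 = (wt r ω) ^ 2 * (X ω * X ω) := by ring
      _ = (wt r ω) ^ 2 * (X ω * (X ω * Y ω)) := by rw [hY ω]
      _ = _ := by ring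

open scoped Classical in
theorem main_bound {r : ℝ} (hr0 : 0 < r) (hr1 : r < 1) (T : SimpleGraph (Fin v))
    (hT : T.IsTree)
    (J₀ : Finset (Fin v)) (hind : ∀ i k, T.Adj i k → i ∈ J₀ ∨ k ∈ J₀) {e j : ℕ}
    (he : T.edgeFinset.card = e) (hj : J₀.card = j) (hj1 : 1 ≤ j) (hb1 : 1 ≤ b)
    (h : L * v * b ≤ n) (hbN : b ≤ n - 2 * (L * v)) (hn : 2 * (L * v) ≤ n) (Λ : ℝ)
    (hΛ : Λ = (b : ℝ) ^ v * r ^ e * (1 - r) ^ (j * (n - 2 * (L * v)))) :
    ((1 - r) ^ (4 * (L * v) * j) * Λ / (Λ + 2 ^ v * v.factorial)) ^ L ≤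
      Ex r (fun ω : Pr n → Bool =>
        if ∃ φ : Fin L × Fin v → Fin n, IsCopies T J₀ ω φ then (1 : ℝ) else 0) := by
  have hr1' : 0 < 1 - r := by linarith
  have hb : (0 : ℝ) < b := by exact_mod_cast hb1
  have hΛ0 : 0 < Λ := by
    rw [hΛ]
    positivity
  -- the counting function
  let X : (Pr n → Bool) → ℝ := fun ω => ∑ f : Fin L → Fin v → Fin b,
    if IsCopies T J₀ ω (pos h f) then (1 : ℝ) else 0
  let Y : (Pr n → Bool) → ℝ := fun ω =>
    if ∃ φ : Fin L × Fin v → Fin n, IsCopies T J₀ ω φ then (1 : ℝ) else 0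
  have hCS := Ex_sq_le hr0.le hr1.le X Y
    (fun ω => by
      dsimp only [Y]
      split_ifs <;> norm_num)
    (fun ω => by
      dsimp only [X, Y]
      split_ifs with hex
      · rw [mul_one]
      · rw [mul_zero]
        symm
        apply sum_eq_zero
        intro f _
        apply if_neg
        intro hf
        exact hex ⟨_, hf⟩)
  have hEX : (Λ * (1 - r) ^ (2 * (L * v) * j)) ^ L ≤ Ex r X := by
    have h1 : Ex r X = ∑ f : Fin L → Fin v → Fin b,
        Ex r (fun ω : Pr n → Bool => if IsCopies T J₀ ω (pos h f) then (1 : ℝ) else 0) :=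
      Ex_sum univ r _
    rw [h1]
    calc (Λ * (1 - r) ^ (2 * (L * v) * j)) ^ L =
          ∑ f : Fin L → Fin v → Fin b, r ^ (L * e) * (1 - r) ^ (L * j * n) := by
          rw [sum_const, card_univ, Fintype.card_fun, Fintype.card_fun, Fintype.card_fin,
            Fintype.card_fin, Fintype.card_fin, nsmul_eq_mul, hΛ, mul_assoc, ← pow_add]
          have e1 : j * (n - 2 * (L * v)) + 2 * (L * v) * j = j * n := by
            have : j * n = j * (n - 2 * (L * v) + 2 * (L * v)) := by
              rw [Nat.sub_add_cancel hn]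
            rw [this]
            ring
          rw [e1]
          push_cast
          rw [mul_pow, mul_pow, ← pow_mul, ← pow_mul, ← pow_mul]
          have e2 : e * L = L * e := mul_comm _ _
          have e3 : j * n * L = L * j * n := by ring
          rw [e2, e3, mul_assoc]
      _ ≤ _ := sum_le_sum fun f _ => le_Ex_one hr0.le hr1.le h T J₀ he hj f
  have hEX2 : Ex r (fun ω => X ω ^ 2) ≤ (Λ ^ 2 + 2 ^ v * v.factorial * Λ) ^ L := by
    have h1 : Ex r (fun ω => X ω ^ 2) = ∑ f : Fin L → Fin v → Fin b,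
        ∑ g : Fin L → Fin v → Fin b,
        Ex r (fun ω : Pr n → Bool => if IsCopies T J₀ ω (pos h f) ∧ IsCopies T J₀ ω (pos h g)
          then (1 : ℝ) else 0) := by
      have h2 : (fun ω => X ω ^ 2) = fun ω => ∑ f : Fin L → Fin v → Fin b,
        ∑ g : Fin L → Fin v → Fin b,
        if IsCopies T J₀ ω (pos h f) ∧ IsCopies T J₀ ω (pos h g) then (1 : ℝ) else 0 := by
        funext ω
        dsimp only [X]
        rw [sq, sum_mul_sum]
        apply sum_congr rfl
        intro f _
        apply sum_congr rfl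
        intro g _
        by_cases h3 : IsCopies T J₀ ω (pos h f) <;> by_cases h4 : IsCopies T J₀ ω (pos h g) <;>
          simp [h3, h4]
      rw [h2, Ex_sum univ r]
      apply sum_congr rfl
      intro f _
      exact Ex_sum univ r _
    rw [h1]
    calc _ ≤ ∑ f : Fin L → Fin v → Fin b, ∑ g : Fin L → Fin v → Fin b,
          ∏ l, h0 r T J₀ e j (n - 2 * (L * v)) (agr (f l) (g l)) :=
          sum_le_sum fun f _ => sum_le_sum fun g _ =>
            Ex_two_le hr0.le hr1.le h T J₀ hind he hj f g
      _ = (∑ p : (Fin v → Fin b) × (Fin v → Fin b),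
          h0 r T J₀ e j (n - 2 * (L * v)) (agr p.1 p.2)) ^ L :=
          sum_prod_pairs (P := Fin v → Fin b)
            (fun f g => h0 r T J₀ e j (n - 2 * (L * v)) (agr f g))
      _ ≤ _ := by
          apply pow_le_pow_left₀
          · exact sum_nonneg fun p _ => h0_nonneg hr0.le hr1.le T J₀ e j _ _
          · refine (sum_agr_le _ fun S => h0_nonneg hr0.le hr1.le T J₀ e j _ S).trans ?_
            rw [hΛ]
            exact copy_bound hr0.le hr1.le T hT J₀ hind he hj hj1 hb1 hbN
  have hY : Ex r Y = Ex r (fun ω : Pr n → Bool =>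
        if ∃ φ : Fin L × Fin v → Fin n, IsCopies T J₀ ω φ then (1 : ℝ) else 0) := rfl
  rw [← hY]
  have hY0 : 0 ≤ Ex r Y := Ex_nonneg hr0.le hr1.le fun ω => by
    dsimp only [Y]
    split_ifs
    · exact zero_le_one
    · exact le_rfl
  have hD : 0 < (Λ ^ 2 + 2 ^ v * v.factorial * Λ) ^ L := by positivity
  have h5 : ((Λ * (1 - r) ^ (2 * (L * v) * j)) ^ L) ^ 2 ≤
      (Λ ^ 2 + 2 ^ v * v.factorial * Λ) ^ L * Ex r Y := by
    calc _ ≤ (Ex r X) ^ 2 := pow_le_pow_left₀ (by positivity) hEX 2
      _ ≤ _ := hCS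
      _ ≤ _ := mul_le_mul_of_nonneg_right hEX2 hY0
  have h6 : ((1 - r) ^ (4 * (L * v) * j) * Λ / (Λ + 2 ^ v * v.factorial)) ^ L =
      ((Λ * (1 - r) ^ (2 * (L * v) * j)) ^ L) ^ 2 / (Λ ^ 2 + 2 ^ v * v.factorial * Λ) ^ L := by
    have e0 : ((Λ * (1 - r) ^ (2 * (L * v) * j)) ^ L) ^ 2 =
        ((Λ * (1 - r) ^ (2 * (L * v) * j)) ^ 2) ^ L := by
      rw [← pow_mul, ← pow_mul, mul_comm L 2]
    rw [e0, ← div_pow]
    congr 1
    have e1 : (Λ * (1 - r) ^ (2 * (L * v) * j)) ^ 2 = Λ * ((1 - r) ^ (4 * (L * v) * j) * Λ) := by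
      rw [mul_pow, ← pow_mul]
      have : 2 * (L * v) * j * 2 = 4 * (L * v) * j := by ring
      rw [this]
      ring
    have e2 : Λ ^ 2 + 2 ^ v * v.factorial * Λ = Λ * (Λ + 2 ^ v * v.factorial) := by ring
    rw [e1, e2, mul_div_mul_left _ _ hΛ0.ne']
  rw [h6, div_le_iff₀ hD, mul_comm (Ex r Y)]
  exact h5

end blocks

end Job22

open Job22

open scoped Classical in
theorem copies_prob {v j e : ℕ} (T : SimpleGraph (Fin v)) (J₀ : Finset (Fin v)) (hT : T.IsTree)
    (hind : ∀ i k, T.Adj i k → i ∈ J₀ ∨ k ∈ J₀) (hJ₀ : J₀.card = j) (hj : 1 ≤ j)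
    (he : T.edgeSet.ncard = e) (c : ℝ) (hc : 0 < c) :
    ∃ c₁ : ℝ, 0 < c₁ ∧ ∀ L : ℕ, 1 ≤ L → ∃ n₀ : ℕ, ∀ n : ℕ, n₀ ≤ n → ∀ r : ℝ, 0 < r → r < 1 →
      c ≤ (n : ℝ) ^ v * r ^ e * (1 - r) ^ (j * n) →
      (c₁ / (L : ℝ) ^ (2 * v)) ^ L ≤ Ex r (fun ω : Pr n → Bool =>
        if ∃ φ : Fin L × Fin v → Fin n, IsCopies T J₀ ω φ then (1 : ℝ) else 0) := by
  have he' : T.edgeFinset.card = e := by
    rw [← he, ← SimpleGraph.coe_edgeFinset, Set.ncard_coe_finset]
  have hv1 : 1 ≤ v := by
    obtain ⟨x⟩ := hT.connected.nonempty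
    exact lt_of_le_of_lt (Nat.zero_le _) x.2
  have hvR : (1 : ℝ) ≤ v := by exact_mod_cast hv1
  set C : ℝ := 2 ^ v * v.factorial with hC
  have hC0 : 0 < C := by positivity
  refine ⟨c / ((4 * v) ^ v * (2 * (c + C))), by positivity, ?_⟩
  intro L hL
  have hLR : (1 : ℝ) ≤ L := by exact_mod_cast hL
  have hjR : (1 : ℝ) ≤ j := by exact_mod_cast hj
  -- the threshold
  set δ : ℝ := 1 / (8 * (L * v * j)) with hδ
  have hδ0 : 0 < δ := by positivity
  have hev : ∀ᶠ n : ℕ in Filter.atTop, (n : ℝ) ^ v * Real.exp (-(δ * n)) < c := by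
    have h1 := (Real.tendsto_pow_mul_exp_neg_atTop_nhds_zero v).comp
      ((tendsto_natCast_atTop_atTop (R := ℝ)).const_mul_atTop hδ0)
    have h2 : Filter.Tendsto (fun n : ℕ => (n : ℝ) ^ v * Real.exp (-(δ * n))) Filter.atTop
        (nhds 0) := by
      have h3 := h1.const_mul ((δ ^ v)⁻¹)
      rw [mul_zero] at h3
      refine h3.congr ?_
      intro n
      simp only [Function.comp]
      rw [mul_pow]
      field_simp
    exact h2.eventually (gt_mem_nhds hc)
  obtain ⟨n₁, hn₁⟩ := Filter.eventually_atTop.mp hev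
  refine ⟨max n₁ (4 * (L * v)), ?_⟩
  intro n hn r hr0 hr1 hcn
  have hn1 : n₁ ≤ n := le_trans (le_max_left _ _) hn
  have hn2 : 4 * (L * v) ≤ n := le_trans (le_max_right _ _) hn
  have hLv : 1 ≤ L * v := Nat.mul_pos hL hv1
  have hr1' : 0 < 1 - r := by linarith
  -- r is small
  have hrδ : r ≤ δ := by
    by_contra hlt
    push Not at hlt
    have h1 := hn₁ n hn1
    have h2 : (n : ℝ) ^ v * r ^ e * (1 - r) ^ (j * n) ≤ (n : ℝ) ^ v * Real.exp (-(δ * n)) := by
      rw [mul_assoc]
      apply mul_le_mul_of_nonneg_left _ (by positivity)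
      calc r ^ e * (1 - r) ^ (j * n) ≤ 1 * (1 - r) ^ n := by
            apply mul_le_mul (pow_le_one₀ hr0.le hr1.le) _ (by positivity) zero_le_one
            apply pow_le_pow_of_le_one hr1'.le (by linarith)
            exact Nat.le_mul_of_pos_left n (by omega)
        _ = (1 - r) ^ n := one_mul _
        _ ≤ Real.exp (-r) ^ n := by
            apply pow_le_pow_left₀ hr1'.le
            have := Real.add_one_le_exp (-r)
            linarith
        _ = Real.exp (-(r * n)) := by
            rw [← Real.exp_nat_mul]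
            congr 1
            ring
        _ ≤ Real.exp (-(δ * n)) := by
            apply Real.exp_le_exp.mpr
            have : δ * n ≤ r * n := mul_le_mul_of_nonneg_right hlt.le (by positivity)
            linarith
    linarith
  have hhalf : 1 / 2 ≤ (1 - r) ^ (4 * (L * v) * j) := by
    have h1 := one_add_mul_le_pow (a := -r) (by linarith) (4 * (L * v) * j)
    have h2 : ((4 * (L * v) * j : ℕ) : ℝ) * r ≤ 1 / 2 := by
      calc ((4 * (L * v) * j : ℕ) : ℝ) * r ≤ ((4 * (L * v) * j : ℕ) : ℝ) * δ :=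
            mul_le_mul_of_nonneg_left hrδ (by positivity)
        _ = 1 / 2 := by
            rw [hδ]
            push_cast
            field_simp
            norm_num
    have h3 : (1 + -r) = 1 - r := by ring
    rw [h3] at h1
    linarith
  -- block size
  set b : ℕ := n / (2 * (L * v)) with hb
  have hb1 : 1 ≤ b := by
    rw [hb, Nat.one_le_div_iff (by omega)]
    omega
  have hbn : 2 * (L * v) * b ≤ n := Nat.mul_div_le n _
  have hLvb : L * v * b ≤ n := by
    refine le_trans ?_ hbn
    apply Nat.mul_le_mul_right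
    omega
  have hb2 : 2 * b ≤ n := by
    refine le_trans ?_ hbn
    apply Nat.mul_le_mul_right
    omega
  have hbN : b ≤ n - 2 * (L * v) := by omega
  have hbR : (n : ℝ) / (4 * (L * v)) ≤ b := by
    have h1 : n < 2 * (L * v) * b + 2 * (L * v) := by
      have := Nat.lt_mul_div_succ n (show 0 < 2 * (L * v) by omega)
      rw [Nat.mul_add, mul_one] at this
      exact this
    have h2 : (n : ℝ) < 2 * (L * v) * b + 2 * (L * v) := by exact_mod_cast h1
    have h3 : (4 * (L * v) : ℝ) ≤ n := by exact_mod_cast hn2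
    rw [div_le_iff₀ (by positivity)]
    nlinarith
  have hmain := main_bound (b := b) hr0 hr1 T hT J₀ hind he' hJ₀ hj hb1 hLvb hbN (by omega) _ rfl
  refine le_trans ?_ hmain
  set Λ : ℝ := (b : ℝ) ^ v * r ^ e * (1 - r) ^ (j * (n - 2 * (L * v))) with hΛ
  apply pow_le_pow_left₀ (by positivity)
  set lam : ℝ := c / (4 * (L * v)) ^ v with hlam
  have hlam0 : 0 < lam := by positivity
  have hlamΛ : lam ≤ Λ := by
    rw [hlam, div_le_iff₀ (by positivity)]
    refine hcn.trans ?_
    have h1 : ((n : ℝ)) ^ v ≤ (b : ℝ) ^ v * (4 * (L * v)) ^ v := by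
      rw [← mul_pow]
      apply pow_le_pow_left₀ (by positivity)
      rw [div_le_iff₀ (by positivity)] at hbR
      exact hbR
    have h2 : (1 - r) ^ (j * n) ≤ (1 - r) ^ (j * (n - 2 * (L * v))) := by
      apply pow_le_pow_of_le_one hr1'.le (by linarith)
      exact Nat.mul_le_mul_left _ (Nat.sub_le _ _)
    calc (n : ℝ) ^ v * r ^ e * (1 - r) ^ (j * n) ≤
          ((b : ℝ) ^ v * (4 * (L * v)) ^ v) * r ^ e * (1 - r) ^ (j * (n - 2 * (L * v))) := by
          apply mul_le_mul _ h2 (by positivity) (by positivity)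
          exact mul_le_mul_of_nonneg_right h1 (by positivity)
      _ = _ := by
          rw [hΛ]
          ring
  have hlamc : lam ≤ c := by
    rw [hlam]
    apply div_le_self hc.le
    apply one_le_pow₀
    have : (1 : ℝ) ≤ L * v := by exact_mod_cast hLv
    linarith
  have hΛ0 : 0 < Λ := lt_of_lt_of_le hlam0 hlamΛ
  calc c / ((4 * v) ^ v * (2 * (c + C))) / (L : ℝ) ^ (2 * v)
      ≤ c / ((4 * v) ^ v * (2 * (c + C))) / (L : ℝ) ^ v := by
        apply div_le_div_of_nonneg_left (by positivity) (by positivity)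
        exact pow_le_pow_right₀ hLR (by omega)
    _ = 1 / 2 * (lam / (c + C)) := by
        rw [hlam]
        have : (4 * ((L : ℝ) * v)) ^ v = (4 * v) ^ v * (L : ℝ) ^ v := by
          rw [← mul_pow]
          congr 1
          ring
        rw [this]
        field_simp
    _ ≤ 1 / 2 * (lam / (lam + C)) := by
        apply mul_le_mul_of_nonneg_left _ (by norm_num)
        apply div_le_div_of_nonneg_left hlam0.le (by positivity)
        linarith
    _ ≤ (1 - r) ^ (4 * (L * v) * j) * (Λ / (Λ + C)) := by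
        apply mul_le_mul hhalf _ (by positivity) (by positivity)
        rw [div_le_div_iff₀ (by positivity) (by positivity)]
        nlinarith
    _ = _ := (mul_div_assoc _ _ _).symm

end Pool.Agent.Lib.MP_49901c_pr
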