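import Mathlib
import Pool.Agent.Lib.MP_49901c_pr.DenseDefs
import Pool.Agent.Lib.MP_49901c_pr.SmallSum
import Pool.Agent.Lib.MP_49901c_pr.GraphLink
import Pool.Agent.Lib.MP_49901c_pr.Job26

/-!
# Very small probability of the complement
-/

namespace Pool.Agent.Lib.MP_49901c_pr

open Finset

namespace Job23

/-! ### The Laplacian of a general graph -/

theorem lapMatrix_mulVec_general {V : Type*} [Fintype V] [DecidableEq V] {S : Type*} [CommRing S]
    (G : SimpleGraph V) [DecidableRel G.Adj] (x : V → S) (v : V) :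
    (G.lapMatrix S).mulVec x v = ∑ j, if G.Adj v j then x v - x j else 0 := by
  rw [SimpleGraph.lapMatrix_mulVec_apply]
  have h1 : ∀ j, (if G.Adj v j then x v - x j else 0) =
      (if G.Adj v j then x v else 0) - (if G.Adj v j then x j else 0) := by
    intro j
    split_ifs <;> simp
  rw [sum_congr rfl fun j _ => h1 j, sum_sub_distrib]
  congr 1
  · rw [← sum_filter, sum_const, nsmul_eq_mul]
    congr 2
    rw [← SimpleGraph.card_neighborFinset_eq_degree]
    congr 1
    ext j
    simp
  · rw [← sum_filter]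
    apply sum_congr _ fun _ _ => rfl
    ext j
    simp

/-! ### Connected sets -/

/-- A maximal connected set of bounded size. -/
theorem exists_max_connected {V : Type*} [Fintype V] [DecidableEq V] (G : SimpleGraph V) (x₀ : V)
    {k : ℕ} : ∃ S : Finset V, x₀ ∈ S ∧ (G.induce (S : Set V)).Connected ∧
      S.card ≤ k + 1 ∧ (S.card = k + 1 ∨ ∀ x ∈ S, ∀ y, G.Adj x y → y ∈ S) := by
  classical
  have hne : (univ.filter fun S : Finset V => x₀ ∈ S ∧ (G.induce (S : Set V)).Connected ∧
      S.card ≤ k + 1).Nonempty := by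
    refine ⟨{x₀}, ?_⟩
    rw [mem_filter]
    refine ⟨mem_univ _, mem_singleton_self _, ?_, by simp⟩
    have h1 : ((({x₀} : Finset V) : Set V)) = {x₀} := by simp
    rw [h1]
    have h2 : Subsingleton ({x₀} : Set V) := by
      constructor
      rintro ⟨a, ha⟩ ⟨b, hb⟩
      apply Subtype.ext
      rw [Set.mem_singleton_iff] at ha hb
      change a = b
      rw [ha, hb]
    have h3 : Nonempty ({x₀} : Set V) := ⟨⟨x₀, rfl⟩⟩
    exact ⟨fun a b => by rw [Subsingleton.elim a b]⟩
  obtain ⟨S, hS, hmax⟩ := exists_max_image _ card hne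
  rw [mem_filter] at hS
  obtain ⟨-, hx, hc, hcard⟩ := hS
  refine ⟨S, hx, hc, hcard, ?_⟩
  by_cases h : S.card = k + 1
  · exact Or.inl h
  right
  intro x hxS y hxy
  by_contra hy
  have hlt : S.card < k + 1 := lt_of_le_of_ne hcard h
  have h1 := hmax (insert y S) (by
    rw [mem_filter]
    refine ⟨mem_univ _, mem_insert_of_mem hx, ?_, ?_⟩
    · have h2 : (((insert y S : Finset V) : Set V)) = (S : Set V) ∪ {y} := by
        rw [coe_insert, Set.union_singleton]
      rw [h2]
      have h3 : (G.induce ({y} : Set V)).Preconnected := by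
        rintro ⟨a, ha⟩ ⟨b, hb⟩
        rw [Set.mem_singleton_iff] at ha hb
        subst ha
        subst hb
        exact SimpleGraph.Reachable.refl _
      exact SimpleGraph.connected_induce_union hc.preconnected h3 (mem_coe.mpr hxS)
        (Set.mem_singleton y) hxy
    · rw [card_insert_of_notMem hy]
      omega)
  rw [card_insert_of_notMem hy] at h1
  omega

/-- An eigenvector whose eigenvalue has only large obstructions forces many edges. -/
theorem exists_dense_set {p : ℕ} {k N a : ℕ}
    (hk : ∀ j e, IsObstruction p a j e → k ≤ e)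
    (hcut : ∀ (V : Type) [Fintype V] [DecidableEq V] (T : SimpleGraph V) [DecidableRel T.Adj],
      T.IsAcyclic → ∀ g : V → ZMod p, g ≠ 0 →
      (T.lapMatrix (ZMod p)).mulVec g = (a : ZMod p) • g →
      ∃ j e, j ≤ {x | g x ≠ 0}.ncard ∧ e ≤ T.edgeSet.ncard ∧ IsObstruction p a j e)
    (G : SimpleGraph (Fin N)) (g : Fin N → ZMod p) (hg : g ≠ 0)
    (heig : ∀ i, (∑ j, open scoped Classical in if G.Adj i j then g i - g j else 0) =
      (a : ZMod p) * g i) :
    ∃ S : Finset (Fin N), (3 ≤ S.card ∧ S.card ≤ k ∧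
        S.card ≤ (G.induce (S : Set (Fin N))).edgeSet.ncard) ∨
      (S.card = k + 1 ∧ k ≤ (G.induce (S : Set (Fin N))).edgeSet.ncard) := by
  classical
  obtain ⟨x₀, hx₀⟩ : ∃ x₀, g x₀ ≠ 0 := by
    by_contra hcon
    push Not at hcon
    exact hg (funext hcon)
  obtain ⟨S, hx, hc, hcard, hor⟩ := exists_max_connected (k := k) G x₀
  refine ⟨S, ?_⟩
  have hcV : Nat.card (S : Set (Fin N)) = S.card := by
    rw [Nat.card_eq_fintype_card]
    simp
  have hce : ∀ H : SimpleGraph ((S : Set (Fin N)) : Type), Nat.card H.edgeSet = H.edgeSet.ncard :=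
    fun H => rfl
  have h1 := hc.card_vert_le_card_edgeSet_add_one
  rw [hcV, hce] at h1
  by_cases hS : S.card = k + 1
  · exact Or.inr ⟨hS, by omega⟩
  · left
    have hcl := hor.resolve_left hS
    have hle : S.card ≤ k := by omega
    -- the restricted eigenvector
    have hnac : ¬ (G.induce (S : Set (Fin N))).IsAcyclic := by
      intro hac
      have htree : (G.induce (S : Set (Fin N))).IsTree := ⟨hc, hac⟩
      have h2 := (SimpleGraph.isTree_iff_connected_and_card.mp htree).2
      rw [hcV, hce] at h2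
      obtain ⟨j, e, -, he, hob⟩ := hcut ((S : Set (Fin N)) : Type) (G.induce (S : Set (Fin N))) hac
        (fun x => g x) (by
          intro h0
          exact hx₀ (congrFun h0 ⟨x₀, mem_coe.mpr hx⟩)) (by
          funext x
          rw [lapMatrix_mulVec_general]
          simp only [Pi.smul_apply, smul_eq_mul]
          rw [← heig]
          have h3 : ∀ y : Fin N, y ∉ S → (if G.Adj x y then g x - g y else 0) = 0 := by
            intro y hy
            rw [if_neg]
            intro hxy
            exact hy (hcl x (mem_coe.mp x.2) y hxy)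
          have h4 : ∑ y : Fin N, (if G.Adj x y then g x - g y else 0) =
              ∑ y ∈ S, (if G.Adj x y then g x - g y else 0) := by
            symm
            apply sum_subset (subset_univ _)
            intro y _ hy
            exact h3 y hy
          rw [h4]
          rw [← sum_coe_sort S]
          rfl)
      have h5 := hk j e hob
      omega
    have h6 : ¬ ((G.induce (S : Set (Fin N))).edgeSet.ncard + 1 = S.card) := by
      intro h7
      apply hnac
      have h8 : (G.induce (S : Set (Fin N))).IsTree := by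
        rw [SimpleGraph.isTree_iff_connected_and_card]
        refine ⟨hc, ?_⟩
        rw [hcV, hce]
        exact h7
      exact h8.2
    have h9 : S.card ≤ (G.induce (S : Set (Fin N))).edgeSet.ncard := by omega
    refine ⟨?_, hle, h9⟩
    have h10 : (G.induce (S : Set (Fin N))).edgeSet.ncard ≤ S.card.choose 2 := by
      have h11 := SimpleGraph.card_edgeFinset_le_card_choose_two
        (G := G.induce (S : Set (Fin N)))
      have h12 : (G.induce (S : Set (Fin N))).edgeSet.ncard =
          (G.induce (S : Set (Fin N))).edgeFinset.card := by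
        rw [← SimpleGraph.coe_edgeFinset, Set.ncard_coe_finset]
      have h13 : Fintype.card ((S : Set (Fin N)) : Type) = S.card := by simp
      rw [h12]
      rw [h13] at h11
      exact h11
    have hpos : 1 ≤ S.card := card_pos.mpr ⟨x₀, hx⟩
    by_contra hlt
    have h14 : S.card = 1 ∨ S.card = 2 := by omega
    rcases h14 with h15 | h15
    · rw [h15] at h10 h9
      have : Nat.choose 1 2 = 0 := by decide
      omega
    · rw [h15] at h10 h9
      have : Nat.choose 2 2 = 1 := by decide
      omega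

/-! ### Edges inside a set -/

/-- The pairs inside `S`. -/
def prIn {N : ℕ} (S : Finset (Fin N)) : Finset (Pr N) :=
  univ.filter fun e => e.1.1 ∈ S ∧ e.1.2 ∈ S

theorem card_prIn_le {N : ℕ} (S : Finset (Fin N)) : (prIn S).card ≤ S.card ^ 2 := by
  have h1 : (prIn S).card ≤ (S ×ˢ S).card := by
    apply card_le_card_of_injOn (fun e => e.1)
    · intro e he
      rw [mem_coe, prIn, mem_filter] at he
      exact mem_coe.mpr (mem_product.mpr he.2)
    · intro e _ e' _ h
      exact Subtype.ext h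
  rw [card_product] at h1
  rw [sq]
  exact h1

theorem ncard_induce_le {N : ℕ} (ω : Pr N → Bool) (S : Finset (Fin N)) :
    ((toGraph ω).induce (S : Set (Fin N))).edgeSet.ncard ≤
      ((prIn S).filter fun e => ω e = true).card := by
  classical
  have hinj : Function.Injective (Sym2.map (Subtype.val : ((S : Set (Fin N)) : Type) → Fin N)) :=
    Sym2.map.injective Subtype.val_injective
  rw [← Set.ncard_image_of_injective _ hinj]
  have h1 : (Sym2.map (Subtype.val : ((S : Set (Fin N)) : Type) → Fin N)) ''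
      ((toGraph ω).induce (S : Set (Fin N))).edgeSet ⊆
      (((prIn S).filter fun e => ω e = true).image fun e => s(e.1.1, e.1.2) :
        Finset (Sym2 (Fin N))) := by
    rintro _ ⟨s, hs, rfl⟩
    induction s with | _ i j => ?_
    rw [SimpleGraph.mem_edgeSet, SimpleGraph.induce_adj, toGraph_adj] at hs
    rw [Sym2.map_mk, mem_coe, mem_image]
    obtain ⟨i, hi⟩ := i
    obtain ⟨j, hj⟩ := j
    simp only at hs ⊢
    rw [mem_coe] at hi hj
    rcases lt_trichotomy i j with h | h | h
    · refine ⟨⟨(i, j), h⟩, ?_, rfl⟩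
      rw [mem_filter, prIn, mem_filter]
      refine ⟨⟨mem_univ _, hi, hj⟩, ?_⟩
      rw [← adjB_pair ω ⟨(i, j), h⟩]
      exact hs
    · subst h
      rw [adjB_self] at hs
      exact absurd hs Bool.false_ne_true
    · refine ⟨⟨(j, i), h⟩, ?_, Sym2.eq_swap⟩
      rw [mem_filter, prIn, mem_filter]
      refine ⟨⟨mem_univ _, hj, hi⟩, ?_⟩
      rw [← adjB_pair ω ⟨(j, i), h⟩, adjB_comm]
      exact hs
  refine (Set.ncard_le_ncard h1 (Set.toFinite _)).trans ?_
  rw [Set.ncard_coe_finset]
  exact card_image_le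

/-! ### Probabilities -/

theorem ite_nonneg' (P : Prop) [Decidable P] : (0 : ℝ) ≤ if P then 1 else 0 := by
  split_ifs
  · exact zero_le_one
  · exact le_rfl

theorem one_le_sum {J : Type*} (s : Finset J) (f : J → ℝ) (hf : ∀ j ∈ s, 0 ≤ f j) (x : J)
    (hx : x ∈ s) (h : 1 ≤ f x) : 1 ≤ ∑ j ∈ s, f j :=
  h.trans (single_le_sum (f := f) hf hx)

theorem Ex_prod_true {J : Type*} [Fintype J] [DecidableEq J] (r : ℝ) (D : Finset J) :
    Ex r (fun ω : J → Bool => if ∀ e ∈ D, ω e = true then (1 : ℝ) else 0) = r ^ D.card := by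
  have h1 : (fun ω : J → Bool => if ∀ e ∈ D, ω e = true then (1 : ℝ) else 0) =
      fun ω => ∏ e, (fun (e : J) (b : Bool) => if e ∈ D then (if b then (1 : ℝ) else 0) else 1)
        e (ω e) := by
    funext ω
    by_cases h : ∀ e ∈ D, ω e = true
    · rw [if_pos h]
      symm
      apply prod_eq_one
      intro e _
      by_cases he : e ∈ D
      · simp [he, h e he]
      · simp [he]
    · rw [if_neg h]
      push Not at h
      obtain ⟨e, he, hne⟩ := h
      symm
      apply prod_eq_zero (mem_univ e)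
      simp only [if_pos he]
      rw [if_neg hne]
  rw [h1, Ex_prod (A := ℝ) r
    (fun (e : J) (b : Bool) => if e ∈ D then (if b then (1 : ℝ) else 0) else 1)]
  have h2 : ∀ e : J, (algebraMap ℝ ℝ r * (if e ∈ D then (if true = true then (1 : ℝ) else 0) else 1) +
      algebraMap ℝ ℝ (1 - r) * (if e ∈ D then (if false = true then (1 : ℝ) else 0) else 1)) =
      if e ∈ D then r else 1 := by
    intro e
    by_cases he : e ∈ D
    · simp [he]
    · simp [he]
  rw [prod_congr rfl fun e _ => h2 e, prod_ite, prod_const, prod_const_one, mul_one]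
  congr 2
  ext e
  simp

/-- The probability of at least `m` edges inside some set of size `s`. -/
theorem Ex_dense_le {N : ℕ} {r : ℝ} (h0 : 0 ≤ r) (h1 : r ≤ 1) (s m : ℕ) :
    Ex r (fun ω : Pr N → Bool => open scoped Classical in
      if ∃ S : Finset (Fin N), S.card = s ∧ m ≤ ((prIn S).filter fun e => ω e = true).card
      then (1 : ℝ) else 0) ≤ 2 ^ (s ^ 2) * ((N : ℝ) ^ s * r ^ m) := by
  classical
  have hb : ∀ ω : Pr N → Bool,
      (if ∃ S : Finset (Fin N), S.card = s ∧ m ≤ ((prIn S).filter fun e => ω e = true).card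
      then (1 : ℝ) else 0) ≤ ∑ S ∈ powersetCard s (univ : Finset (Fin N)),
        ∑ D ∈ powersetCard m (prIn S), if ∀ e ∈ D, ω e = true then (1 : ℝ) else 0 := by
    intro ω
    by_cases h : ∃ S : Finset (Fin N), S.card = s ∧
        m ≤ ((prIn S).filter fun e => ω e = true).card
    · rw [if_pos h]
      obtain ⟨S, hS, hm⟩ := h
      obtain ⟨D, hD1, hD2⟩ := exists_subset_card_eq hm
      have h2 : (1 : ℝ) ≤ ∑ D ∈ powersetCard m (prIn S),
          if ∀ e ∈ D, ω e = true then (1 : ℝ) else 0 := by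
        have h3 : (if ∀ e ∈ D, ω e = true then (1 : ℝ) else 0) = 1 := by
          rw [if_pos]
          intro e he
          exact (mem_filter.mp (hD1 he)).2
        exact one_le_sum _ _ (fun D _ => ite_nonneg' _) D
          (mem_powersetCard.mpr ⟨hD1.trans (filter_subset _ _), hD2⟩) h3.ge
      exact one_le_sum _ _ (fun S _ => sum_nonneg fun D _ => ite_nonneg' _) S
          (mem_powersetCard.mpr ⟨subset_univ _, hS⟩) h2
    · rw [if_neg h]
      exact sum_nonneg fun S _ => sum_nonneg fun D _ => ite_nonneg' _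
  refine (Ex_mono h0 h1 hb).trans ?_
  rw [Ex_sum]
  have h2 : ∀ S ∈ powersetCard s (univ : Finset (Fin N)),
      Ex r (fun ω : Pr N → Bool => ∑ D ∈ powersetCard m (prIn S),
        if ∀ e ∈ D, ω e = true then (1 : ℝ) else 0) ≤ 2 ^ (s ^ 2) * r ^ m := by
    intro S hS
    rw [Ex_sum]
    have h3 : ∀ D ∈ powersetCard m (prIn S), Ex r (fun ω : Pr N → Bool =>
        if ∀ e ∈ D, ω e = true then (1 : ℝ) else 0) = r ^ m := by
      intro D hD
      rw [Ex_prod_true, (mem_powersetCard.mp hD).2]
    rw [sum_congr rfl h3, sum_const, nsmul_eq_mul]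
    apply mul_le_mul_of_nonneg_right _ (pow_nonneg h0 m)
    have h4 : (powersetCard m (prIn S)).card ≤ 2 ^ (s ^ 2) := by
      have h5 : (powersetCard m (prIn S)).card ≤ (powerset (prIn S)).card :=
        card_le_card (fun D hD => mem_powerset.mpr (mem_powersetCard.mp hD).1)
      rw [card_powerset] at h5
      refine h5.trans (Nat.pow_le_pow_right (by norm_num) ?_)
      have h6 := card_prIn_le S
      rwa [(mem_powersetCard.mp hS).2] at h6
    exact_mod_cast h4
  refine (sum_le_sum h2).trans ?_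
  rw [sum_const, nsmul_eq_mul, card_powersetCard, card_univ, Fintype.card_fin]
  have h7 : ((N.choose s : ℕ) : ℝ) ≤ (N : ℝ) ^ s := by
    exact_mod_cast Nat.choose_le_pow N s
  calc ((N.choose s : ℕ) : ℝ) * (2 ^ (s ^ 2) * r ^ m) ≤ (N : ℝ) ^ s * (2 ^ (s ^ 2) * r ^ m) :=
        mul_le_mul_of_nonneg_right h7 (by positivity)
    _ = 2 ^ (s ^ 2) * ((N : ℝ) ^ s * r ^ m) := by ring

/-! ### Complement -/

theorem neg_neg' {N : ℕ} (ω : Pr N → Bool) : neg (neg ω) = ω := by
  funext e
  simp [neg]

theorem Ex_neg {N : ℕ} (r : ℝ) (f : (Pr N → Bool) → ℝ) :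
    Ex (1 - r) f = Ex r (fun ω => f (neg ω)) := by
  unfold Ex
  let E : (Pr N → Bool) ≃ (Pr N → Bool) := ⟨neg, neg, neg_neg', neg_neg'⟩
  rw [← Equiv.sum_comp E]
  apply sum_congr rfl
  intro ω _
  have h1 : wt (1 - r) (E ω) = wt r ω := wt_not r ω
  rw [h1]
  rfl

theorem lap_add_lap_neg {N : ℕ} {A : Type*} [AddCommGroup A] (ω : Pr N → Bool) (f : Fin N → A)
    (i : Fin N) : lap ω f i + lap (neg ω) f i = N • f i - ∑ j, f j := by
  unfold lap
  rw [← sum_add_distrib]
  have h1 : ∀ j, ((if adjB ω i j = true then f i - f j else 0) +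
      if adjB (neg ω) i j = true then f i - f j else 0) = f i - f j := by
    intro j
    rcases lt_trichotomy i j with h | h | h
    · unfold adjB neg
      rw [dif_pos h, dif_pos h]
      cases ω ⟨(i, j), h⟩ <;> simp
    · subst h
      rw [adjB_self, adjB_self]
      simp
    · unfold adjB neg
      rw [dif_neg (not_lt.mpr h.le), dif_pos h, dif_neg (not_lt.mpr h.le), dif_pos h]
      cases ω ⟨(j, i), h⟩ <;> simp
  rw [sum_congr rfl fun j _ => h1 j, sum_sub_distrib, sum_const, card_univ, Fintype.card_fin]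

/-- A nontrivial kernel gives an eigenvector of the complement. -/
theorem exists_eigenvector {p : ℕ} (hp : p.Prime) {n : ℕ} (hpn : ¬ p ∣ (n + 1))
    (ω : Pr (n + 1) → Bool)
    (hker : Nat.card (kerM ((redLap (toGraph (neg ω))).map (Int.castRingHom (ZMod p)))) ≠ 1) :
    ∃ g : Fin (n + 1) → ZMod p, g ≠ 0 ∧ ∀ i, lap ω g i = ((n + 1 : ℕ) : ZMod p) * g i := by
  have hF : Fact p.Prime := ⟨hp⟩
  obtain ⟨f, hf, hf0⟩ : ∃ f : Fin n → ZMod p,
      ((redLap (toGraph (neg ω))).map (Int.castRingHom (ZMod p))).mulVec f = 0 ∧ f ≠ 0 := by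
    by_contra hcon
    push Not at hcon
    apply hker
    rw [Nat.card_eq_one_iff_unique]
    refine ⟨⟨fun a b => ?_⟩, ⟨0⟩⟩
    have ha : (a : Fin n → ZMod p) = 0 := hcon a a.2
    have hb : (b : Fin n → ZMod p) = 0 := hcon b b.2
    exact Subtype.ext (ha.trans hb.symm)
  set Ψ : Fin (n + 1) → ZMod p := Fin.snoc f (0 : ZMod p) with hΨ
  have h1 : ∀ i : Fin n, lap (neg ω) Ψ (Fin.castSucc i) = 0 := by
    intro i
    rw [hΨ, ← redLap_map_mulVec, hf]
    rfl
  have h2 : ∀ i, lap (neg ω) Ψ i = 0 := by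
    intro i
    refine Fin.lastCases ?_ h1 i
    have h5 := sum_lap (neg ω) Ψ
    rw [Fin.sum_univ_castSucc, sum_eq_zero fun i _ => h1 i, zero_add] at h5
    exact h5
  have hne : ((n + 1 : ℕ) : ZMod p) ≠ 0 := by
    intro h0
    exact hpn ((ZMod.natCast_eq_zero_iff _ _).mp h0)
  set c : ZMod p := -((∑ j, Ψ j) / ((n + 1 : ℕ) : ZMod p)) with hc
  refine ⟨fun j => Ψ j + c, ?_, ?_⟩
  · intro h0
    have h3 : Ψ (Fin.last n) = 0 := by rw [hΨ]; simp
    have h4 := congrFun h0 (Fin.last n)
    simp only [Pi.zero_apply] at h4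
    rw [h3, zero_add] at h4
    apply hf0
    funext i
    have h5 := congrFun h0 (Fin.castSucc i)
    simp only [Pi.zero_apply] at h5
    rw [h4, add_zero, hΨ, Fin.snoc_castSucc] at h5
    exact h5
  · intro i
    have h3 := lap_add_lap_neg ω (fun j => Ψ j + c) i
    rw [lap_const_add (neg ω), h2, add_zero] at h3
    rw [h3, sum_add_distrib, sum_const, card_univ, Fintype.card_fin, nsmul_eq_mul, nsmul_eq_mul]
    have h4 : ∑ j, Ψ j + ((n + 1 : ℕ) : ZMod p) * c = 0 := by
      rw [hc, mul_neg, mul_div_cancel₀ _ hne, add_neg_cancel]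
    rw [h4, sub_zero]

/-- The bound, given the cutting lemma. -/
theorem tiny_bound_of_cut {p : ℕ} (hp : p.Prime) {k n : ℕ} (hpn : ¬ p ∣ (n + 1))
    (hk : ∀ j e, IsObstruction p (n + 1) j e → k ≤ e)
    (hcut : ∀ (V : Type) [Fintype V] [DecidableEq V] (T : SimpleGraph V) [DecidableRel T.Adj],
      T.IsAcyclic → ∀ g : V → ZMod p, g ≠ 0 →
      (T.lapMatrix (ZMod p)).mulVec g = ((n + 1 : ℕ) : ZMod p) • g →
      ∃ j e, j ≤ {x | g x ≠ 0}.ncard ∧ e ≤ T.edgeSet.ncard ∧ IsObstruction p (n + 1) j e)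
    {r : ℝ} (h0 : 0 ≤ r) (h1 : r ≤ 1) :
    gnpProb (n + 1) (1 - r)
      {G | Nat.card (kerM ((redLap G).map (Int.castRingHom (ZMod p)))) ≠ 1} ≤
      ∑ s ∈ Icc 3 k, 2 ^ (s ^ 2) * (((n + 1 : ℕ) : ℝ) * r) ^ s +
        2 ^ ((k + 1) ^ 2) * ((n + 1 : ℕ) : ℝ) * (((n + 1 : ℕ) : ℝ) * r) ^ k := by
  classical
  rw [gnpProb_eq_Ex, Ex_neg]
  have hb : ∀ ω : Pr (n + 1) → Bool,
      (if toGraph (neg ω) ∈ {G : SimpleGraph (Fin (n + 1)) |
        Nat.card (kerM ((redLap G).map (Int.castRingHom (ZMod p)))) ≠ 1} then (1 : ℝ) else 0) ≤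
      ∑ s ∈ Icc 3 k, (if ∃ S : Finset (Fin (n + 1)), S.card = s ∧
          s ≤ ((prIn S).filter fun e => ω e = true).card then (1 : ℝ) else 0) +
        (if ∃ S : Finset (Fin (n + 1)), S.card = k + 1 ∧
          k ≤ ((prIn S).filter fun e => ω e = true).card then (1 : ℝ) else 0) := by
    intro ω
    by_cases hω : toGraph (neg ω) ∈ {G : SimpleGraph (Fin (n + 1)) |
        Nat.card (kerM ((redLap G).map (Int.castRingHom (ZMod p)))) ≠ 1}
    · rw [if_pos hω]
      obtain ⟨g, hg, hgl⟩ := exists_eigenvector hp hpn ω hω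
      obtain ⟨S, hS⟩ := exists_dense_set (a := n + 1) hk hcut (toGraph ω) g hg (by
        intro i
        rw [← hgl i]
        unfold lap
        apply sum_congr rfl
        intro j _
        simp only [toGraph_adj])
      have hedge := ncard_induce_le ω S
      rcases hS with ⟨h3, hle, hd⟩ | ⟨hc, hd⟩
      · have h4 : (1 : ℝ) ≤ if ∃ S' : Finset (Fin (n + 1)), S'.card = S.card ∧
            S.card ≤ ((prIn S').filter fun e => ω e = true).card then (1 : ℝ) else 0 := by
          rw [if_pos]
          exact ⟨S, rfl, hd.trans hedge⟩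
        have h5 := one_le_sum (Icc 3 k) (fun s => if ∃ S : Finset (Fin (n + 1)), S.card = s ∧
            s ≤ ((prIn S).filter fun e => ω e = true).card then (1 : ℝ) else 0)
            (fun s _ => ite_nonneg' _) S.card (mem_Icc.mpr ⟨h3, hle⟩) h4
        have h6 := ite_nonneg' (∃ S : Finset (Fin (n + 1)), S.card = k + 1 ∧
          k ≤ ((prIn S).filter fun e => ω e = true).card)
        linarith
      · have h4 : (if ∃ S : Finset (Fin (n + 1)), S.card = k + 1 ∧
          k ≤ ((prIn S).filter fun e => ω e = true).card then (1 : ℝ) else 0) = 1 := by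
          rw [if_pos]
          exact ⟨S, hc, hd.trans hedge⟩
        rw [h4]
        have h5 : (0 : ℝ) ≤ ∑ s ∈ Icc 3 k, (if ∃ S : Finset (Fin (n + 1)), S.card = s ∧
          s ≤ ((prIn S).filter fun e => ω e = true).card then (1 : ℝ) else 0) :=
          sum_nonneg fun s _ => ite_nonneg' _
        linarith
    · rw [if_neg hω]
      apply add_nonneg
      · exact sum_nonneg fun s _ => ite_nonneg' _
      · exact ite_nonneg' _
  have hb' : ∀ ω : Pr (n + 1) → Bool, (@ite ℝ (toGraph (neg ω) ∈ {G : SimpleGraph (Fin (n + 1)) |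
        Nat.card (kerM ((redLap G).map (Int.castRingHom (ZMod p)))) ≠ 1})
        (Classical.propDecidable _) 1 0) ≤
      ∑ s ∈ Icc 3 k, (if ∃ S : Finset (Fin (n + 1)), S.card = s ∧
          s ≤ ((prIn S).filter fun e => ω e = true).card then (1 : ℝ) else 0) +
        (if ∃ S : Finset (Fin (n + 1)), S.card = k + 1 ∧
          k ≤ ((prIn S).filter fun e => ω e = true).card then (1 : ℝ) else 0) := by
    intro ω
    refine le_trans (le_of_eq ?_) (hb ω)
    by_cases hω : toGraph (neg ω) ∈ {G : SimpleGraph (Fin (n + 1)) |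
        Nat.card (kerM ((redLap G).map (Int.castRingHom (ZMod p)))) ≠ 1}
    · rw [if_pos hω, if_pos hω]
    · rw [if_neg hω, if_neg hω]
  refine (Ex_mono h0 h1 hb').trans ?_
  have hadd : ∀ f g : (Pr (n + 1) → Bool) → ℝ, Ex r (fun ω => f ω + g ω) = Ex r f + Ex r g := by
    intro f g
    unfold Ex
    rw [← sum_add_distrib]
    apply sum_congr rfl
    intro ω _
    rw [smul_add]
  rw [hadd, Ex_sum]
  apply add_le_add
  · apply sum_le_sum
    intro s _
    have h2 := Ex_dense_le (N := n + 1) h0 h1 s s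
    refine h2.trans (le_of_eq ?_)
    rw [mul_pow]
  · have h2 := Ex_dense_le (N := n + 1) h0 h1 (k + 1) k
    refine h2.trans (le_of_eq ?_)
    rw [mul_pow, pow_succ]
    ring

end Job23

/-- Very small probability of the complement: the kernel is trivial up to a union bound. -/
theorem tiny_bound {p : ℕ} (hp : p.Prime) {k n : ℕ} (hpn : ¬ p ∣ (n + 1)) (_hk1 : 1 ≤ k)
    (hk : ∀ j e, IsObstruction p (n + 1) j e → k ≤ e) {r : ℝ} (h0 : 0 ≤ r) (h1 : r ≤ 1) :
    gnpProb (n + 1) (1 - r)
      {G | Nat.card (kerM ((redLap G).map (Int.castRingHom (ZMod p)))) ≠ 1} ≤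
      ∑ s ∈ Icc 3 k, 2 ^ (s ^ 2) * (((n + 1 : ℕ) : ℝ) * r) ^ s +
        2 ^ ((k + 1) ^ 2) * ((n + 1 : ℕ) : ℝ) * (((n + 1 : ℕ) : ℝ) * r) ^ k :=
  Job23.tiny_bound_of_cut hp hpn hk
    (fun _ _ _ T _ hT g hg heig => exists_isObstruction_of_acyclic T hT g hg heig) h0 h1

end Pool.Agent.Lib.MP_49901c_pr
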