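import Mathlib

/-!
# Real analysis for the necessity of the threshold condition
-/

namespace Pool.Agent.Lib.MP_49901c_pr

open Finset Filter Topology

namespace Job24

theorem pow_ge_exp {r : ℝ} (h0 : 0 < r) (h1 : r ≤ 1 / 2) (k n : ℕ) :
    Real.exp (-(k * (n * r)) - 2 * k * (n * r * r)) ≤ (1 - r) ^ (k * n) := by
  have h2 : 0 < 1 - r := by linarith
  have h3 : 1 - (1 - r)⁻¹ ≤ Real.log (1 - r) := Real.one_sub_inv_le_log_of_pos h2
  have h4 : -r - 2 * r * r ≤ 1 - (1 - r)⁻¹ := by
    have h5 : 1 - (1 - r)⁻¹ = -(r / (1 - r)) := by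
      field_simp
      ring
    rw [h5]
    have h6 : r / (1 - r) ≤ r + 2 * r * r := by
      rw [div_le_iff₀ h2]
      nlinarith [mul_pos h0 h0]
    linarith
  have h7 : (1 - r) ^ (k * n) = Real.exp ((k * n : ℕ) * Real.log (1 - r)) := by
    rw [Real.exp_nat_mul, Real.exp_log h2]
  rw [h7]
  apply Real.exp_le_exp.mpr
  push_cast
  have h8 : (0 : ℝ) ≤ (k : ℝ) * n := by positivity
  have h9 := mul_le_mul_of_nonneg_left (h4.trans h3) h8
  nlinarith

end Job24

open Job24

theorem tendsto_of_lambda (j e j' e' : ℕ) (hj : 1 ≤ j) (l : Filter ℕ) (hl : l ≤ atTop)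
    (r : ℕ → ℝ) (h0 : ∀ n, 0 < r n) (h1 : ∀ n, r n < 1) (hr : Tendsto r l (𝓝 0))
    (H1 : Tendsto (fun n : ℕ => (n : ℝ) ^ (e + 1) * r n ^ e * (1 - r n) ^ (j * n)) l (𝓝 0))
    (H2 : Tendsto (fun n : ℕ => (n : ℝ) ^ (e' + 1) * r n ^ e' * (1 - r n) ^ (j' * n)) l (𝓝 0))
    (H3 : ∃ ε : ℝ, 0 < ε ∧ ∀ᶠ n : ℕ in l, ε ≤ n * (n * r n) ^ e') :
    Tendsto (fun n : ℕ => j * (n * r n) - Real.log n - e * Real.log (Real.log n)) l atTop := by
  rw [tendsto_atTop]
  intro M
  by_contra hcon
  rw [not_eventually] at hcon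
  set P : ℕ → Prop := fun n => ¬ (M ≤ j * (n * r n) - Real.log n - e * Real.log (Real.log n))
    with hP
  set F : Filter ℕ := l ⊓ 𝓟 {n | P n} with hF
  have hFne : F.NeBot := by
    exact frequently_iff_neBot.mp hcon
  have hFl : F ≤ l := inf_le_left
  have hFtop : F ≤ atTop := hFl.trans hl
  have hPF : ∀ᶠ n in F, P n := (eventually_principal.mpr fun n hn => hn).filter_mono inf_le_right
  have hrF := hr.mono_left hFl
  have hnF : Tendsto (fun n : ℕ => (n : ℝ)) F atTop :=
    tendsto_natCast_atTop_atTop.mono_left hFtop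
  have hlogF : Tendsto (fun n : ℕ => Real.log n) F atTop := Real.tendsto_log_atTop.comp hnF
  -- basic eventual facts
  have ev1 : ∀ᶠ n in F, r n ≤ 1 / 2 := (hrF.eventually_lt_const (by norm_num)).mono fun n h => h.le
  have ev2 : ∀ᶠ n : ℕ in F, 1 ≤ Real.log n := tendsto_atTop.mp hlogF 1
  have ev3 : ∀ᶠ n : ℕ in F, (1 : ℝ) ≤ n := tendsto_atTop.mp hnF 1
  set K : ℝ := |M| + 1 + e with hK
  have hK0 : 0 < K := by positivity
  have ev4 : ∀ᶠ n : ℕ in F, n * r n ≤ K * Real.log n := by
    filter_upwards [hPF, ev2, ev3] with n a1 a2 a3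
    simp only [hP, not_le] at a1
    have b1 : 0 < n * r n := mul_pos (by linarith) (h0 n)
    have b2 : (1 : ℝ) ≤ j := by exact_mod_cast hj
    have b3 : Real.log (Real.log n) ≤ Real.log n := by
      have := Real.log_le_sub_one_of_pos (show 0 < Real.log n by linarith)
      linarith
    have b4 : (e : ℝ) * Real.log (Real.log n) ≤ e * Real.log n :=
      mul_le_mul_of_nonneg_left b3 (Nat.cast_nonneg e)
    have b5 : M ≤ |M| * Real.log n := by
      have := le_abs_self M
      have := abs_nonneg M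
      nlinarith
    have b6 : (n : ℝ) * r n ≤ j * (n * r n) := by nlinarith
    rw [hK]
    nlinarith
  -- `y r → 0`
  have hlogn : Tendsto (fun n : ℕ => Real.log n ^ 2 / n) F (𝓝 0) := by
    have a1 : Tendsto (fun x : ℝ => Real.log x ^ 2 / x) atTop (𝓝 0) :=
      Real.isLittleO_pow_log_id_atTop.tendsto_div_nhds_zero
    exact a1.comp hnF
  have hyr : Tendsto (fun n : ℕ => n * r n * r n) F (𝓝 0) := by
    have a1 : Tendsto (fun n : ℕ => K ^ 2 * (Real.log n ^ 2 / n)) F (𝓝 0) := by
      have := hlogn.const_mul (K ^ 2)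
      rwa [mul_zero] at this
    refine tendsto_of_tendsto_of_tendsto_of_le_of_le' tendsto_const_nhds a1 ?_ ?_
    · filter_upwards [ev3] with n a3
      have := h0 n
      positivity
    · filter_upwards [ev3, ev4, ev2] with n a3 a4 a2
      have b0 : (0 : ℝ) < n := by linarith
      have b1 : 0 ≤ n * r n := mul_nonneg b0.le (h0 n).le
      have b2 : (n * r n) ^ 2 ≤ (K * Real.log n) ^ 2 := pow_le_pow_left₀ b1 a4 2
      have b3 : n * r n * r n = (n * r n) ^ 2 / n := by
        field_simp
      rw [b3, ← mul_div_assoc]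
      apply div_le_div_of_nonneg_right _ b0.le
      calc (n * r n) ^ 2 ≤ (K * Real.log n) ^ 2 := b2
        _ = K ^ 2 * Real.log n ^ 2 := by ring
  have lower : ∀ k : ℕ, ∀ᶠ n : ℕ in F,
      Real.exp (-(k * (n * r n)) - 1) ≤ (1 - r n) ^ (k * n) := by
    intro k
    have a1 : Tendsto (fun n : ℕ => 2 * k * (n * r n * r n)) F (𝓝 0) := by
      have := hyr.const_mul (2 * (k : ℝ))
      rwa [mul_zero] at this
    filter_upwards [a1.eventually_lt_const (show (0 : ℝ) < 1 by norm_num), ev1] with n a2 a3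
    refine le_trans ?_ (pow_ge_exp (h0 n) a3 k n)
    apply Real.exp_le_exp.mpr
    linarith
  have H1F := H1.mono_left hFl
  have H2F := H2.mono_left hFl
  have hrew : ∀ (k m n : ℕ), (n : ℝ) ^ (k + 1) * r n ^ k * (1 - r n) ^ (m * n) =
      n * (n * r n) ^ k * (1 - r n) ^ (m * n) := by
    intro k m n
    rw [pow_succ, mul_pow]
    ring
  simp_rw [hrew] at H1F H2F
  -- `(y / log n) ^ e → 0`
  have hratio : Tendsto (fun n : ℕ => (n * r n / Real.log n) ^ e) F (𝓝 0) := by
    have a1 : Tendsto (fun n : ℕ => Real.exp (M + 1) * (n * (n * r n) ^ e * (1 - r n) ^ (j * n))) F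
        (𝓝 0) := by
      have := H1F.const_mul (Real.exp (M + 1))
      rwa [mul_zero] at this
    refine tendsto_of_tendsto_of_tendsto_of_le_of_le' tendsto_const_nhds a1 ?_ ?_
    · filter_upwards [ev2, ev3] with n a2 a3
      have := h0 n
      positivity
    · filter_upwards [hPF, ev2, ev3, lower j] with n a1 a2 a3 a4
      simp only [hP, not_le] at a1
      have b0 : (0 : ℝ) < n := by linarith
      have b1 : 0 < Real.log n := by linarith
      have b2 : 0 < n * r n := mul_pos b0 (h0 n)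
      have b3 : Real.exp (-M - Real.log n - e * Real.log (Real.log n) - 1) ≤
          (1 - r n) ^ (j * n) := by
        refine le_trans (Real.exp_le_exp.mpr ?_) a4
        linarith
      have b4 : Real.exp (-M - Real.log n - e * Real.log (Real.log n) - 1) =
          Real.exp (-(M + 1)) / (n * Real.log n ^ e) := by
        have c1 : -M - Real.log n - e * Real.log (Real.log n) - 1 =
            -(M + 1) - Real.log n - e * Real.log (Real.log n) := by ring
        rw [c1, Real.exp_sub, Real.exp_sub, Real.exp_log b0, Real.exp_nat_mul, Real.exp_log b1]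
        rw [div_div]
      rw [b4] at b3
      have b5 : Real.exp (M + 1) * Real.exp (-(M + 1)) = 1 := by
        rw [← Real.exp_add, add_neg_cancel, Real.exp_zero]
      calc (n * r n / Real.log n) ^ e = Real.exp (M + 1) * (n * (n * r n) ^ e *
            (Real.exp (-(M + 1)) / (n * Real.log n ^ e))) := by
            rw [div_pow]
            field_simp
            rw [b5]
        _ ≤ Real.exp (M + 1) * (n * (n * r n) ^ e * (1 - r n) ^ (j * n)) := by gcongr
  rcases Nat.eq_zero_or_pos e with he | he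
  · subst he
    simp only [pow_zero] at hratio
    have := tendsto_nhds_unique hratio tendsto_const_nhds
    norm_num at this
  -- `y / log n → 0`
  have hratio' : ∀ δ : ℝ, 0 < δ → ∀ᶠ n : ℕ in F, n * r n ≤ δ * Real.log n := by
    intro δ hδ
    have a1 := hratio.eventually_lt_const (pow_pos hδ e)
    filter_upwards [a1, ev2, ev3] with n a2 a3 a4
    have b1 : 0 < Real.log n := by linarith
    have b2 := lt_of_pow_lt_pow_left₀ e hδ.le a2
    rw [div_lt_iff₀ b1] at b2
    exact b2.le
  -- `y → 0`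
  have hy0 : Tendsto (fun n : ℕ => (n * r n) ^ e) F (𝓝 0) := by
    have a1 : Tendsto (fun n : ℕ => Real.exp 1 * (n * (n * r n) ^ e * (1 - r n) ^ (j * n))) F
        (𝓝 0) := by
      have := H1F.const_mul (Real.exp 1)
      rwa [mul_zero] at this
    refine tendsto_of_tendsto_of_tendsto_of_le_of_le' tendsto_const_nhds a1 ?_ ?_
    · filter_upwards [ev2, ev3] with n a2 a3
      have := h0 n
      positivity
    · have hj0 : (0 : ℝ) < j := by exact_mod_cast hj
      filter_upwards [hratio' (1 / j) (by positivity), ev2, ev3, lower j] with n a1 a2 a3 a4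
      have b0 : (0 : ℝ) < n := by linarith
      have b2 : 0 < n * r n := mul_pos b0 (h0 n)
      have b3 : j * (n * r n) ≤ Real.log n := by
        have := mul_le_mul_of_nonneg_left a1 hj0.le
        calc j * (n * r n) ≤ j * (1 / j * Real.log n) := this
          _ = Real.log n := by field_simp
      have b4 : Real.exp (-Real.log n - 1) ≤ (1 - r n) ^ (j * n) := by
        refine le_trans (Real.exp_le_exp.mpr ?_) a4
        linarith
      have b5 : Real.exp (-Real.log n - 1) = (n : ℝ)⁻¹ * (Real.exp 1)⁻¹ := by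
        rw [sub_eq_add_neg, Real.exp_add, Real.exp_neg, Real.exp_log b0, Real.exp_neg]
      rw [b5] at b4
      calc (n * r n) ^ e = Real.exp 1 * (n * (n * r n) ^ e * ((n : ℝ)⁻¹ * (Real.exp 1)⁻¹)) := by
            field_simp
        _ ≤ Real.exp 1 * (n * (n * r n) ^ e * (1 - r n) ^ (j * n)) := by gcongr
  have hy1 : ∀ᶠ n : ℕ in F, n * r n ≤ 1 := by
    filter_upwards [hy0.eventually_lt_const (show (0 : ℝ) < 1 by norm_num), ev3] with n a1 a3
    by_contra hcon'
    push Not at hcon'
    have := one_le_pow₀ (n := e) hcon'.le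
    linarith
  -- conclusion
  obtain ⟨ε, hε, H3⟩ := H3
  have H3F := H3.filter_mono hFl
  have a1 := H2F.eventually_lt_const (show 0 < ε * Real.exp (-j' - 1) by positivity)
  obtain ⟨n, b1, b2, b3, b4⟩ := (a1.and (H3F.and (hy1.and (lower j')))).exists
  have c1 : Real.exp (-j' - 1) ≤ (1 - r n) ^ (j' * n) := by
    refine le_trans (Real.exp_le_exp.mpr ?_) b4
    have : (j' : ℝ) * (n * r n) ≤ j' * 1 := mul_le_mul_of_nonneg_left b3 (Nat.cast_nonneg j')
    linarith
  have c2 : ε * Real.exp (-j' - 1) ≤ n * (n * r n) ^ e' * (1 - r n) ^ (j' * n) :=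
    mul_le_mul b2 c1 (Real.exp_pos _).le (hε.le.trans b2)
  linarith

end Pool.Agent.Lib.MP_49901c_pr
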