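import Mathlib
import Pool.Agent.Lib.MP_49901c_pr.Uniform

/-!
# A numerical comparison
-/

namespace Pool.Agent.Lib.MP_49901c_pr

open Finset Filter Topology

namespace Job25

theorem pow_le_fall {p : ℕ} (hp : 2 ≤ p) (L : ℕ) :
    (p : ℝ) ^ (L.choose 2) * (p : ℝ) ^ (L.choose 2) ≤ fall p L L := by
  have hpR : (2 : ℝ) ≤ p := by exact_mod_cast hp
  have hp0 : (0 : ℝ) < p := by linarith
  have h1 : ∀ l ∈ range L, (p : ℝ) ^ (L - 1) ≤ (p : ℝ) ^ L - (p : ℝ) ^ l := by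
    intro l hl
    rw [mem_range] at hl
    have h2 : (p : ℝ) ^ L = (p : ℝ) ^ (L - 1) * p := by
      rw [← pow_succ]
      congr 1
      omega
    have h3 : (p : ℝ) ^ l ≤ (p : ℝ) ^ (L - 1) := pow_le_pow_right₀ (by linarith) (by omega)
    have h4 : 0 < (p : ℝ) ^ (L - 1) := pow_pos hp0 _
    rw [h2]
    nlinarith
  have h5 : ∏ _l ∈ range L, (p : ℝ) ^ (L - 1) ≤ fall p L L := by
    unfold fall
    exact prod_le_prod (fun l _ => (pow_pos hp0 _).le) h1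
  rw [prod_const, card_range, ← pow_mul] at h5
  refine le_trans (le_of_eq ?_) h5
  rw [← pow_add]
  congr 1
  rw [← two_mul, mul_comm, Nat.choose_two_right]
  have h6 : 2 ∣ L * (L - 1) := (Nat.even_mul_pred_self L).two_dvd
  rw [Nat.div_mul_cancel h6, mul_comm]

theorem exists_M (c : ℝ) (hc : 0 < c) (v : ℕ) :
    ∃ M : ℕ, ((2 * M + 3 : ℕ) : ℝ) ^ (2 * v) < c * 2 ^ M := by
  have h2 : (1 : ℝ) < Real.sqrt 2 := by
    rw [Real.lt_sqrt (by norm_num)]
    norm_num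
  have h1 := tendsto_pow_const_div_const_pow_of_one_lt (2 * v) h2
  have h3 : Tendsto (fun M : ℕ => 2 * M + 3) atTop atTop := by
    apply tendsto_atTop_mono (fun M => ?_) tendsto_id
    simp only [id]
    omega
  have h4 := (h1.comp h3).eventually (gt_mem_nhds (show (0 : ℝ) < c / 4 by positivity))
  obtain ⟨M, hM⟩ := h4.exists
  refine ⟨M, ?_⟩
  simp only [Function.comp] at hM
  have h5 : Real.sqrt 2 ^ (2 * M + 3) = 2 ^ M * (2 * Real.sqrt 2) := by
    rw [pow_add, pow_mul, Real.sq_sqrt (by norm_num)]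
    congr 1
    rw [pow_succ, Real.sq_sqrt (by norm_num)]
  have h6 : (0 : ℝ) < Real.sqrt 2 ^ (2 * M + 3) := by positivity
  rw [div_lt_iff₀ h6, h5] at hM
  have h7 : Real.sqrt 2 < 2 := by
    rw [Real.sqrt_lt' (by norm_num)]
    norm_num
  have h8 : (0 : ℝ) < 2 ^ M := by positivity
  have h9 : c / 4 * (2 ^ M * (2 * Real.sqrt 2)) ≤ c * 2 ^ M := by
    have h10 : 0 < c * 2 ^ M := by positivity
    nlinarith
  linarith

end Job25

theorem exists_rank_gt {p : ℕ} (hp : 2 ≤ p) (c₁ : ℝ) (hc : 0 < c₁) (v : ℕ) :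
    ∃ L : ℕ, (p : ℝ) ^ (L.choose 2) / fall p L L <
      (c₁ / (((L + 1 : ℕ) : ℝ)) ^ (2 * v)) ^ (L + 1) := by
  obtain ⟨M, hM⟩ := Job25.exists_M c₁ hc v
  have hpR : (2 : ℝ) ≤ p := by exact_mod_cast hp
  have hp0 : (0 : ℝ) < p := by linarith
  refine ⟨2 * M + 2, ?_⟩
  have h1 := Job25.pow_le_fall hp (2 * M + 2)
  have hchoose : (2 * M + 2 + 1) * M ≤ (2 * M + 2).choose 2 := by
    rw [Nat.choose_two_right]
    have h2 : (2 * M + 2) * (2 * M + 2 - 1) / 2 = (M + 1) * (2 * M + 1) := by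
      have h3 : (2 * M + 2) * (2 * M + 2 - 1) = 2 * ((M + 1) * (2 * M + 1)) := by
        have : 2 * M + 2 - 1 = 2 * M + 1 := by omega
        rw [this]
        ring
      rw [h3, Nat.mul_div_cancel_left _ (by norm_num)]
    rw [h2]
    nlinarith
  set C : ℝ := (p : ℝ) ^ ((2 * M + 2).choose 2) with hC
  have hCpos : 0 < C := pow_pos hp0 _
  have h4 : C / fall p (2 * M + 2) (2 * M + 2) ≤ C⁻¹ := by
    have h5 : 0 < fall p (2 * M + 2) (2 * M + 2) := lt_of_lt_of_le (by positivity) h1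
    rw [div_le_iff₀ h5]
    calc C = C⁻¹ * (C * C) := by field_simp
      _ ≤ C⁻¹ * fall p (2 * M + 2) (2 * M + 2) :=
        mul_le_mul_of_nonneg_left h1 (by positivity)
  refine lt_of_le_of_lt h4 ?_
  have h6 : C⁻¹ ≤ (((p : ℝ) ^ M)⁻¹) ^ (2 * M + 2 + 1) := by
    rw [inv_pow, ← pow_mul, mul_comm M]
    apply inv_anti₀ (pow_pos hp0 _)
    exact pow_le_pow_right₀ (by linarith) hchoose
  refine lt_of_le_of_lt h6 ?_
  apply pow_lt_pow_left₀ _ (by positivity) (by omega)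
  have h7 : (((2 * M + 2 + 1 : ℕ) : ℝ)) ^ (2 * v) < c₁ * (p : ℝ) ^ M := by
    refine lt_of_lt_of_le hM ?_
    apply mul_le_mul_of_nonneg_left _ hc.le
    exact pow_le_pow_left₀ (by norm_num) hpR M
  have h8 : (0 : ℝ) < (((2 * M + 2 + 1 : ℕ) : ℝ)) ^ (2 * v) := by positivity
  have h9 : 0 < (p : ℝ) ^ M := pow_pos hp0 _
  rw [lt_div_iff₀ h8, inv_mul_lt_iff₀ h9]
  linarith

end Pool.Agent.Lib.MP_49901c_pr
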