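import Mathlib
import Pool.Agent.Lib.MP_49901c_pr.DensePos
import Pool.Agent.Lib.MP_49901c_pr.Job20
import Pool.Agent.Lib.MP_49901c_pr.Job21
import Pool.Agent.Lib.MP_49901c_pr.Job22
import Pool.Agent.Lib.MP_49901c_pr.Job23
import Pool.Agent.Lib.MP_49901c_pr.Job24
import Pool.Agent.Lib.MP_49901c_pr.Job25

/-!
# Dense random graphs: necessity of the threshold condition
-/

namespace Pool.Agent.Lib.MP_49901c_pr

open Finset Filter Topology

theorem neg_neg' {n : ℕ} (ω : Pr n → Bool) : neg (neg ω) = ω := by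
  funext e
  simp [neg]

theorem wt_neg {n : ℕ} (q : ℝ) (ω : Pr n → Bool) : wt (1 - q) (neg ω) = wt q ω := wt_not q ω

/-- Complementation. -/
theorem Ex_neg {n : ℕ} (q : ℝ) (f : (Pr n → Bool) → ℝ) :
    Ex q (fun ω => f (neg ω)) = Ex (1 - q) f := by
  unfold Ex
  rw [← Equiv.sum_comp (Equiv.arrowCongr (Equiv.refl (Pr n)) Equiv.boolNot)
    (fun ω => wt (1 - q) ω • f ω)]
  apply sum_congr rfl
  intro ω _
  have h1 : (Equiv.arrowCongr (Equiv.refl (Pr n)) Equiv.boolNot) ω = neg ω := rfl
  rw [h1, wt_neg]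

theorem gnpProb_ge_of_neg {n : ℕ} {q : ℝ} (h0 : 0 ≤ q) (h1 : q ≤ 1)
    (S : Set (SimpleGraph (Fin n))) (E : (Pr n → Bool) → Prop) [hE : DecidablePred E]
    (h : ∀ ω, E (neg ω) → toGraph ω ∈ S) :
    Ex (1 - q) (fun ω : Pr n → Bool => if E ω then (1 : ℝ) else 0) ≤ gnpProb n q S := by
  classical
  rw [gnpProb_eq_Ex, ← Ex_neg]
  apply Ex_mono h0 h1
  intro ω
  by_cases hE : E (neg ω)
  · rw [if_pos hE, if_pos (h ω hE)]
  · rw [if_neg hE]
    split_ifs <;> norm_num

/-- Under universality the expected number of copies of an obstruction tends to zero. -/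
theorem tendsto_lambda {p : ℕ} (hp : p.Prime) {q : ℕ → ℝ} (h0 : ∀ n, 0 < q n)
    (h1 : ∀ n, q n < 1) (h : IsUniversal p q) (c j e : ℕ) (hob : IsObstruction p c j e) :
    Tendsto (fun n : ℕ => (n : ℝ) ^ (e + 1) * (1 - q n) ^ e * (1 - (1 - q n)) ^ (j * n))
      (atTop ⊓ 𝓟 {n : ℕ | n % p = c % p}) (𝓝 0) := by
  classical
  obtain ⟨v, T, γ, hT, he, hj, hj1, hind, heig⟩ := hob
  have hve : v = e + 1 := by
    have h2 := hT.card_edgeFinset
    rw [Fintype.card_fin] at h2
    rw [← h2, ← he, Set.ncard_eq_toFinset_card']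
    congr 2
  set J₀ : Finset (Fin v) := univ.filter fun x => γ x ≠ 0 with hJ₀
  have hJ₀c : J₀.card = j := by
    rw [← hj, Set.ncard_eq_toFinset_card']
    congr 1
    ext x
    simp [hJ₀]
  have hγ : γ ≠ 0 := by
    rintro rfl
    simp [hJ₀] at hJ₀c
    omega
  set l : Filter ℕ := atTop ⊓ 𝓟 {n : ℕ | n % p = c % p} with hl
  set Λ : ℕ → ℝ := fun n => (n : ℝ) ^ (e + 1) * (1 - q n) ^ e * (1 - (1 - q n)) ^ (j * n) with hΛ
  have hΛ0 : ∀ n, 0 ≤ Λ n := by
    intro n
    have h2 : 0 ≤ 1 - q n := by linarith [h1 n]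
    have h3 : 0 ≤ 1 - (1 - q n) := by linarith [h0 n]
    simp only [hΛ]
    positivity
  -- it is enough to bound `Λ` eventually
  rw [Metric.tendsto_nhds]
  intro ε hε
  by_contra hcon
  rw [not_eventually] at hcon
  have hfreq : ∃ᶠ n in l, ε ≤ Λ n := by
    refine hcon.mono fun n hn => ?_
    rw [Real.dist_eq, sub_zero, abs_of_nonneg (hΛ0 n), not_lt] at hn
    exact hn
  obtain ⟨c₁, hc₁, H⟩ := copies_prob T J₀ hT (by
    intro i k hik
    rcases hind i k hik with h2 | h2
    · exact Or.inl (by simp [hJ₀, h2])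
    · exact Or.inr (by simp [hJ₀, h2])) hJ₀c hj1 he ε hε
  obtain ⟨L, hL⟩ := exists_rank_gt hp.two_le c₁ hc₁ v
  set δ : ℝ := (c₁ / (((L + 1 : ℕ) : ℝ)) ^ (2 * v)) ^ (L + 1) -
    (p : ℝ) ^ (L.choose 2) / fall p L L with hδ
  have hδ0 : 0 < δ := by linarith
  obtain ⟨n₀, hn₀⟩ := H (L + 1) (by omega)
  have htail := rank_tail hp (fun n => (h0 n).le) (fun n => (h1 n).le) h L (δ / 2) (by linarith)
  have htail' : ∀ᶠ n : ℕ in atTop, ∀ m, n = m + 1 → gnpProb (m + 1) (q (m + 1))
      {G | p ^ L ≤ Nat.card (kerM ((redLap G).map (Int.castRingHom (ZMod p))))} ≤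
      (p : ℝ) ^ (L.choose 2) / fall p L L + δ / 2 := by
    rw [eventually_atTop] at htail ⊢
    obtain ⟨N, hN⟩ := htail
    refine ⟨N + 1, fun n hn m hm => hN m (by omega)⟩
  have hev : ∀ᶠ n : ℕ in l, (n % p = c % p ∧ n₀ ≤ n ∧ (L + 1) * v < n) ∧
      ∀ m, n = m + 1 → gnpProb (m + 1) (q (m + 1))
      {G | p ^ L ≤ Nat.card (kerM ((redLap G).map (Int.castRingHom (ZMod p))))} ≤
      (p : ℝ) ^ (L.choose 2) / fall p L L + δ / 2 := by
    have e1 : ∀ᶠ n : ℕ in l, n % p = c % p :=
      (eventually_principal.mpr fun n hn => hn).filter_mono inf_le_right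
    have e2 : ∀ᶠ n : ℕ in l, n₀ ≤ n := (eventually_ge_atTop n₀).filter_mono inf_le_left
    have e3 : ∀ᶠ n : ℕ in l, (L + 1) * v < n :=
      (eventually_gt_atTop _).filter_mono inf_le_left
    filter_upwards [e1, e2, e3, htail'.filter_mono inf_le_left] with n a1 a2 a3 a4
    exact ⟨⟨a1, a2, a3⟩, a4⟩
  obtain ⟨n, hn1, ⟨hn2, hn3, hn4⟩, hn5⟩ := (hfreq.and_eventually hev).exists
  obtain ⟨m, rfl⟩ : ∃ m, n = m + 1 := ⟨n - 1, by omega⟩
  have hcast : ((m + 1 : ℕ) : ZMod p) = (c : ZMod p) := by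
    rw [← natCast_mod_eq p (m + 1), hn2, natCast_mod_eq]
  have h2 := hn₀ (m + 1) hn3 (1 - q (m + 1)) (by linarith [h1 (m + 1)])
    (by linarith [h0 (m + 1)]) (by rw [hve]; exact hn1)
  have h3 := hn5 m rfl
  have h4 : Ex (1 - q (m + 1)) (fun ω : Pr (m + 1) → Bool =>
      if ∃ φ : Fin (L + 1) × Fin v → Fin (m + 1), IsCopies T J₀ ω φ then (1 : ℝ) else 0) ≤
      gnpProb (m + 1) (q (m + 1))
      {G | p ^ L ≤ Nat.card (kerM ((redLap G).map (Int.castRingHom (ZMod p))))} := by
    have h5 : ∀ ω : Pr (m + 1) → Bool,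
        (∃ φ : Fin (L + 1) × Fin v → Fin (m + 1), IsCopies T J₀ (neg ω) φ) →
        toGraph ω ∈ {G : SimpleGraph (Fin (m + 1)) |
          p ^ L ≤ Nat.card (kerM ((redLap G).map (Int.castRingHom (ZMod p))))} := by
      rintro ω ⟨φ, hφ⟩
      have h6 := card_kerM_ge_of_copies hp T γ hγ (by rw [hcast]; exact heig) J₀
        (fun x => by simp [hJ₀]) ω φ hφ hn4
      rw [Nat.add_sub_cancel] at h6
      exact h6
    exact gnpProb_ge_of_neg (h0 _).le (h1 _).le _
      (fun ω => ∃ φ : Fin (L + 1) × Fin v → Fin (m + 1), IsCopies T J₀ ω φ) (hE := _) h5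
  have h5 := h2.trans (h4.trans h3)
  linarith

theorem mu_punit_lt_one {p : ℕ} (hp : p.Prime) : mu p PUnit.{1} < 1 := by
  have hp2 : (2 : ℝ) ≤ p := by exact_mod_cast hp.two_le
  set f : ℕ → ℝ := fun j => 1 - ((p : ℝ) ^ (2 * j + 1))⁻¹ with hf
  have hsum : Summable (fun j : ℕ => ((p : ℝ) ^ (2 * j + 1))⁻¹) := by
    have h1 : Summable (fun j : ℕ => (((p : ℝ)⁻¹) ^ 2) ^ j * (p : ℝ)⁻¹) := by
      apply Summable.mul_right
      apply summable_geometric_of_lt_one (by positivity)
      have h2 : (p : ℝ)⁻¹ ≤ 1 / 2 := by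
        rw [inv_eq_one_div]
        exact one_div_le_one_div_of_le (by norm_num) hp2
      have h3 : 0 ≤ (p : ℝ)⁻¹ := by positivity
      nlinarith
    refine h1.congr fun j => ?_
    rw [← pow_mul, ← pow_succ, inv_pow]
  have hmul : Multipliable f := by
    have h1 : Multipliable (fun j : ℕ => (1 + (-(((p : ℝ) ^ (2 * j + 1))⁻¹)))) :=
      Real.multipliable_one_add_of_summable hsum.neg
    refine h1.congr fun j => ?_
    rw [hf]
    ring
  have hlim := hmul.hasProd.tendsto_prod_nat
  have hf01 : ∀ j, 0 ≤ f j ∧ f j ≤ 1 := by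
    intro j
    have h1 : (1 : ℝ) ≤ (p : ℝ) ^ (2 * j + 1) := one_le_pow₀ (by linarith)
    have h2 : ((p : ℝ) ^ (2 * j + 1))⁻¹ ≤ 1 := inv_le_one_of_one_le₀ h1
    have h3 : 0 ≤ ((p : ℝ) ^ (2 * j + 1))⁻¹ := by positivity
    simp only [hf]
    constructor <;> linarith
  have hf0 : f 0 < 1 := by
    simp only [hf]
    have : 0 < ((p : ℝ) ^ (2 * 0 + 1))⁻¹ := by positivity
    linarith
  have hbound : ∀ᶠ n in atTop, ∏ i ∈ range n, f i ≤ f 0 := by
    filter_upwards [eventually_ge_atTop 1] with n hn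
    obtain ⟨m, rfl⟩ : ∃ m, n = m + 1 := ⟨n - 1, by omega⟩
    rw [prod_range_succ']
    have h1 : ∏ k ∈ range m, f (k + 1) ≤ 1 :=
      prod_le_one (fun i _ => (hf01 _).1) (fun i _ => (hf01 _).2)
    have h2 := (hf01 0).1
    nlinarith
  have hle : ∏' j, f j ≤ f 0 := le_of_tendsto hlim hbound
  have hnum : numPairings PUnit.{1} = 1 := by
    have hsub : Subsingleton (PUnit.{1} →+ Additive ℂˣ) := by
      constructor
      intro a b
      apply DFunLike.ext
      intro y
      have hy : y = 0 := Subsingleton.elim _ _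
      rw [hy, map_zero, map_zero]
    unfold numPairings
    rw [Nat.card_eq_one_iff_unique]
    constructor
    · constructor
      intro a b
      apply Subtype.ext
      apply DFunLike.ext
      intro x
      exact Subsingleton.elim _ _
    · refine ⟨⟨0, ?_, ?_, ?_⟩⟩
      · intro x y; rfl
      · intro x y _
        exact Subsingleton.elim _ _
      · intro g
        exact ⟨0, Subsingleton.elim _ _⟩
  have h1 : Nat.card (PUnit.{1} ≃+ PUnit.{1}) = 1 := Nat.card_unique
  unfold mu
  rw [hnum, h1, Nat.card_unique]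
  simp only [Nat.cast_one, mul_one, div_one, one_mul]
  exact lt_of_le_of_lt hle hf0

theorem gnpProb_mono (n : ℕ) {q : ℝ} (h0 : 0 ≤ q) (h1 : q ≤ 1) {S T : Set (SimpleGraph (Fin n))}
    (h : S ⊆ T) : gnpProb n q S ≤ gnpProb n q T := by
  classical
  rw [gnpProb_eq_Ex, gnpProb_eq_Ex]
  apply Ex_mono h0 h1
  intro ω
  by_cases hω : toGraph ω ∈ S
  · rw [if_pos hω, if_pos (h hω)]
  · rw [if_neg hω]
    split_ifs <;> norm_num

/-- A graph with trivial kernel modulo `p` is connected and has trivial Sylow subgroup. -/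
theorem mem_of_card_kerM_eq_one {p : ℕ} (hp : p.Prime) {n : ℕ} (G : SimpleGraph (Fin (n + 1)))
    (h : Nat.card (kerM ((redLap G).map (Int.castRingHom (ZMod p)))) = 1) :
    G.Connected ∧ Nonempty (primaryPart p (CriticalGroup G) ≃+ PUnit.{1}) := by
  rw [link hp le_rfl PUnit.{1} (fun _ => Subsingleton.elim _ _) G]
  have h1 : Nat.card (kerM ((redLap G).map (Int.castRingHom (ZMod (p ^ 1))))) = 1 := by
    rw [pow_one]
    exact h
  have h2 : Subsingleton (kerM ((redLap G).map (Int.castRingHom (ZMod (p ^ 1))))) :=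
    (Nat.card_eq_one_iff_unique.mp h1).1
  exact ⟨{ toFun := fun _ => PUnit.unit
           invFun := fun _ => 0
           left_inv := fun x => Subsingleton.elim _ _
           right_inv := fun x => rfl
           map_add' := fun _ _ => rfl }⟩

/-- Under universality the graph is not too close to the complete graph. -/
theorem not_tiny {p : ℕ} (hp : p.Prime) {q : ℕ → ℝ} (h0 : ∀ n, 0 < q n)
    (h1 : ∀ n, q n < 1) (h : IsUniversal p q) (c k : ℕ) (hc : ¬ p ∣ c) (hk1 : 1 ≤ k)
    (hk : ∀ j e, IsObstruction p c j e → k ≤ e) :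
    ∃ ε : ℝ, 0 < ε ∧ ∀ᶠ n : ℕ in atTop ⊓ 𝓟 {n : ℕ | n % p = c % p},
      ε ≤ n * (n * (1 - q n)) ^ k := by
  have hmu := mu_punit_lt_one hp
  have hlim := h PUnit.{1} ⟨0, by simp⟩
  set m₀ := mu p PUnit.{1} with hm₀
  set δ : ℝ := (1 - m₀) / 2 with hδ
  have hδ0 : 0 < δ := by linarith
  set K₁ : ℝ := ∑ s ∈ Icc 3 k, (2 : ℝ) ^ (s ^ 2) with hK₁
  set K₂ : ℝ := 2 ^ ((k + 1) ^ 2) with hK₂
  have hK₁0 : 0 ≤ K₁ := sum_nonneg fun s _ => by positivity
  have hK₂0 : 0 < K₂ := by positivity
  -- the choice of `ε`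
  set x₀ : ℝ := min 1 (δ / (4 * (K₁ + 1))) with hx₀
  have hx₀0 : 0 < x₀ := lt_min one_pos (by positivity)
  set ε : ℝ := min (x₀ ^ k) (δ / (4 * K₂)) with hε
  have hε0 : 0 < ε := lt_min (pow_pos hx₀0 k) (by positivity)
  refine ⟨ε, hε0, ?_⟩
  have hlim' : ∀ᶠ n : ℕ in atTop, ∀ m, n = m + 1 → gnpProb (m + 1) (q (m + 1))
      {G | G.Connected ∧ Nonempty (primaryPart p (CriticalGroup G) ≃+ PUnit.{1})} < 1 - δ := by
    have h2 := hlim.eventually_lt_const (show m₀ < 1 - δ by linarith)
    rw [eventually_atTop] at h2 ⊢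
    obtain ⟨N, hN⟩ := h2
    exact ⟨N + 1, fun n hn m hm => hN m (by omega)⟩
  have e1 : ∀ᶠ n : ℕ in atTop ⊓ 𝓟 {n : ℕ | n % p = c % p}, n % p = c % p :=
    (eventually_principal.mpr fun n hn => hn).filter_mono inf_le_right
  filter_upwards [e1, hlim'.filter_mono inf_le_left,
    (eventually_ge_atTop 1).filter_mono inf_le_left] with n hn h2 h3
  by_contra hcon
  push Not at hcon
  obtain ⟨m, rfl⟩ : ∃ m, n = m + 1 := ⟨n - 1, by omega⟩
  have hcast : ((m + 1 : ℕ) : ZMod p) = (c : ZMod p) := by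
    rw [← natCast_mod_eq p (m + 1), hn, natCast_mod_eq]
  have hpm : ¬ p ∣ (m + 1) := by
    intro hdvd
    apply hc
    rw [Nat.dvd_iff_mod_eq_zero] at hdvd ⊢
    rw [← hn, hdvd]
  set r : ℝ := 1 - q (m + 1) with hr
  have hr0 : 0 < r := by linarith [h1 (m + 1)]
  have hr1 : r < 1 := by linarith [h0 (m + 1)]
  have htiny := tiny_bound hp hpm hk1 (fun j e hje => hk j e
    ((isObstruction_congr hcast).mp hje)) hr0.le hr1.le
  have hq1r : 1 - r = q (m + 1) := by rw [hr]; ring
  rw [hq1r] at htiny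
  set x : ℝ := ((m + 1 : ℕ) : ℝ) * r with hx
  have hm1 : (1 : ℝ) ≤ ((m + 1 : ℕ) : ℝ) := by exact_mod_cast h3
  have hx0 : 0 < x := by positivity
  have hxk : x ^ k < x₀ ^ k := by
    have h4 : x ^ k ≤ ((m + 1 : ℕ) : ℝ) * x ^ k := by
      have : 0 < x ^ k := pow_pos hx0 k
      nlinarith
    exact lt_of_le_of_lt h4 (lt_of_lt_of_le hcon (min_le_left _ _))
  have hxx : x < x₀ := lt_of_pow_lt_pow_left₀ k hx₀0.le hxk
  have hx1 : x ≤ 1 := (hxx.trans_le (min_le_left _ _)).le
  have hA : ∑ s ∈ Icc 3 k, (2 : ℝ) ^ (s ^ 2) * x ^ s ≤ δ / 4 := by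
    calc ∑ s ∈ Icc 3 k, (2 : ℝ) ^ (s ^ 2) * x ^ s ≤ ∑ s ∈ Icc 3 k, (2 : ℝ) ^ (s ^ 2) * x := by
          apply sum_le_sum
          intro s hs
          rw [mem_Icc] at hs
          apply mul_le_mul_of_nonneg_left _ (by positivity)
          calc x ^ s ≤ x ^ 1 := pow_le_pow_of_le_one hx0.le hx1 (by omega)
            _ = x := pow_one x
      _ = K₁ * x := by rw [hK₁, sum_mul]
      _ ≤ (K₁ + 1) * (δ / (4 * (K₁ + 1))) := by
          apply mul_le_mul (by linarith) (hxx.le.trans (min_le_right _ _)) hx0.le (by linarith)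
      _ = δ / 4 := by field_simp
  have hB : K₂ * ((m + 1 : ℕ) : ℝ) * x ^ k ≤ δ / 4 := by
    have h4 : ((m + 1 : ℕ) : ℝ) * x ^ k ≤ δ / (4 * K₂) :=
      (lt_of_lt_of_le hcon (min_le_right _ _)).le
    calc K₂ * ((m + 1 : ℕ) : ℝ) * x ^ k = K₂ * (((m + 1 : ℕ) : ℝ) * x ^ k) := by ring
      _ ≤ K₂ * (δ / (4 * K₂)) := mul_le_mul_of_nonneg_left h4 hK₂0.le
      _ = δ / 4 := by field_simp
  have h5 : gnpProb (m + 1) (q (m + 1))
      {G | Nat.card (kerM ((redLap G).map (Int.castRingHom (ZMod p)))) ≠ 1} ≤ δ / 2 := by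
    refine htiny.trans ?_
    linarith
  have h6 := h2 m rfl
  have h7 : gnpProb (m + 1) (q (m + 1))
      {G | Nat.card (kerM ((redLap G).map (Int.castRingHom (ZMod p)))) = 1} ≤
      gnpProb (m + 1) (q (m + 1))
      {G | G.Connected ∧ Nonempty (primaryPart p (CriticalGroup G) ≃+ PUnit.{1})} :=
    gnpProb_mono _ (h0 _).le (h1 _).le fun G hG => mem_of_card_kerM_eq_one hp G hG
  have h8 := gnpProb_compl (m + 1) (q (m + 1))
    {G | Nat.card (kerM ((redLap G).map (Int.castRingHom (ZMod p)))) = 1}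
  have h9 : ({G | Nat.card (kerM ((redLap G).map (Int.castRingHom (ZMod p)))) = 1} :
      Set (SimpleGraph (Fin (m + 1))))ᶜ =
      {G | Nat.card (kerM ((redLap G).map (Int.castRingHom (ZMod p)))) ≠ 1} := rfl
  rw [h9] at h8
  linarith

/-- Universality implies the threshold condition of the dense side. -/
theorem threshold_of_isUniversal {p : ℕ} (hp : p.Prime) {q : ℕ → ℝ} (h0 : ∀ n, 0 < q n)
    (h1 : ∀ n, q n < 1) (h : IsUniversal p q) :
    Tendsto (fun n : ℕ => jmin p n * (n * (1 - q n)) - Real.log n -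
      emax p n * Real.log (Real.log n)) atTop atTop := by
  classical
  -- one residue class
  have key : ∀ c ∈ range p, Tendsto (fun n : ℕ => jmin p c * (n * (1 - q n)) - Real.log n -
      emax p c * Real.log (Real.log n)) (atTop ⊓ 𝓟 {n : ℕ | n % p = c % p}) atTop := by
    intro c hc
    set l : Filter ℕ := atTop ⊓ 𝓟 {n : ℕ | n % p = c % p} with hl
    rw [tendsto_atTop]
    intro M
    by_contra hcon
    rw [not_eventually] at hcon
    set P : ℕ → Prop := fun n => ¬ (M ≤ jmin p c * (n * (1 - q n)) - Real.log n -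
      emax p c * Real.log (Real.log n)) with hP
    set F : Filter ℕ := l ⊓ 𝓟 {n | P n} with hF
    have hFne : F.NeBot := frequently_iff_neBot.mp hcon
    have hFl : F ≤ l := inf_le_left
    have hFtop : F ≤ atTop := hFl.trans inf_le_left
    have hPF : ∀ᶠ n in F, P n :=
      (eventually_principal.mpr fun n hn => hn).filter_mono inf_le_right
    -- the obstruction with the fewest edges
    set E : Set ℕ := {e | ∃ j, IsObstruction p c j e} with hE
    have hEne : E.Nonempty := by
      obtain ⟨j, e, hje⟩ := exists_isObstruction hp c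
      exact ⟨e, j, hje⟩
    set e' := sInf E with he'
    obtain ⟨j', hj'⟩ : ∃ j', IsObstruction p c j' e' := Nat.sInf_mem hEne
    have hmin : ∀ j e, IsObstruction p c j e → e' ≤ e := fun j e hje => Nat.sInf_le ⟨j, hje⟩
    have hr : Tendsto (fun n => 1 - q n) F (𝓝 0) := by
      set K : ℝ := |M| + 1 + emax p c with hK
      have a1 : Tendsto (fun n : ℕ => K * (Real.log n / n)) F (𝓝 0) := by
        have h3 : Tendsto (fun x : ℝ => Real.log x / x) atTop (𝓝 0) :=
          Real.isLittleO_log_id_atTop.tendsto_div_nhds_zero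
        have h4 := ((h3.comp tendsto_natCast_atTop_atTop).mono_left hFtop).const_mul K
        rw [mul_zero] at h4
        exact h4
      refine tendsto_of_tendsto_of_tendsto_of_le_of_le' tendsto_const_nhds a1 ?_ ?_
      · filter_upwards with n
        linarith [h1 n]
      · have e2 : ∀ᶠ n : ℕ in F, 3 ≤ n := (eventually_ge_atTop 3).filter_mono hFtop
        filter_upwards [hPF, e2] with n b1 b2
        simp only [hP, not_le] at b1
        have b3 : (1 : ℝ) ≤ Real.log n := by
          rw [Real.le_log_iff_exp_le (by positivity)]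
          have : Real.exp 1 < 2.7182818286 := Real.exp_one_lt_d9
          have h7 : (3 : ℝ) ≤ n := by exact_mod_cast b2
          linarith
        have b4 : Real.log (Real.log n) ≤ Real.log n := by
          have := Real.log_le_sub_one_of_pos (show 0 < Real.log n by linarith)
          linarith
        have b5 : (emax p c : ℝ) * Real.log (Real.log n) ≤ emax p c * Real.log n :=
          mul_le_mul_of_nonneg_left b4 (Nat.cast_nonneg _)
        have b6 : M ≤ |M| * Real.log n := by
          have := le_abs_self M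
          have := abs_nonneg M
          nlinarith
        have b7 : (1 : ℝ) ≤ jmin p c := by exact_mod_cast one_le_jmin hp c
        have b8 : (0 : ℝ) < n := by
          have : 0 < n := by omega
          exact_mod_cast this
        have b9 : 0 < 1 - q n := by linarith [h1 n]
        have b10 : (n : ℝ) * (1 - q n) ≤ jmin p c * (n * (1 - q n)) := by
          have : 0 < (n : ℝ) * (1 - q n) := mul_pos b8 b9
          nlinarith
        rw [← mul_div_assoc, le_div_iff₀ b8, hK]
        nlinarith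
    have H1 := (tendsto_lambda hp h0 h1 h c (jmin p c) (emax p c) (emax_spec hp c)).mono_left hFl
    have H2 := (tendsto_lambda hp h0 h1 h c j' e' hj').mono_left hFl
    have H3 : ∃ ε : ℝ, 0 < ε ∧ ∀ᶠ n : ℕ in F, ε ≤ n * (n * (1 - q n)) ^ e' := by
      by_cases he0 : e' = 0
      · refine ⟨1, one_pos, ?_⟩
        filter_upwards [(eventually_ge_atTop 1).filter_mono hFtop] with n hn
        rw [he0, pow_zero, mul_one]
        exact_mod_cast hn
      · have hdvd : ¬ p ∣ c := by
          intro hdvd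
          apply he0
          have h2 := emax_spec hp c
          rw [(jmin_emax_zero hp hdvd).1, (jmin_emax_zero hp hdvd).2] at h2
          have := hmin _ _ h2
          omega
        obtain ⟨ε, hε, h3⟩ := not_tiny hp h0 h1 h c e' hdvd (by omega) hmin
        exact ⟨ε, hε, h3.filter_mono hFl⟩
    have hlim := tendsto_of_lambda (jmin p c) (emax p c) j' e' (one_le_jmin hp c) F hFtop
      (fun n => 1 - q n) (fun n => by linarith [h1 n]) (fun n => by linarith [h0 n]) hr H1 H2 H3
    obtain ⟨n, b1, b2⟩ := ((tendsto_atTop.mp hlim M).and hPF).exists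
    exact b2 b1
  rw [tendsto_atTop]
  intro M
  have h2 : ∀ c ∈ range p, ∀ᶠ n : ℕ in atTop, n ∈ {n : ℕ | n % p = c % p} →
      M ≤ jmin p c * (n * (1 - q n)) - Real.log n - emax p c * Real.log (Real.log n) := by
    intro c hc
    have := tendsto_atTop.mp (key c hc) M
    rwa [eventually_inf_principal] at this
  have h3 : ∀ᶠ n : ℕ in atTop, ∀ c ∈ range p, n ∈ {n : ℕ | n % p = c % p} →
      M ≤ jmin p c * (n * (1 - q n)) - Real.log n - emax p c * Real.log (Real.log n) := by
    rw [eventually_all_finset]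
    exact h2
  filter_upwards [h3] with n h4
  have h5 := h4 (n % p) (mem_range.mpr (Nat.mod_lt _ hp.pos)) (Nat.mod_mod _ _).symm
  rw [jmin_congr (natCast_mod_eq p n), emax_congr (natCast_mod_eq p n)] at h5
  exact h5

/-- Universality implies the threshold condition of the sparse side. -/
theorem sparse_threshold_of_isUniversal {p : ℕ} (hp : p.Prime) {q : ℕ → ℝ} (h0 : ∀ n, 0 < q n)
    (h1 : ∀ n, q n < 1) (h : IsUniversal p q) :
    Tendsto (fun n : ℕ => n * q n - Real.log n) atTop atTop := by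
  classical
  rw [tendsto_atTop]
  intro M
  -- an auxiliary sequence
  set s : ℕ → ℝ := fun n => if 3 ≤ n ∧ 2 * Real.log n / n < 1 / 2 then 2 * Real.log n / n
    else 1 / 4 with hs
  have hlogdiv : Tendsto (fun n : ℕ => 2 * Real.log n / n) atTop (𝓝 0) := by
    have h3 : Tendsto (fun x : ℝ => Real.log x / x) atTop (𝓝 0) :=
      Real.isLittleO_log_id_atTop.tendsto_div_nhds_zero
    have h4 := (h3.comp tendsto_natCast_atTop_atTop).const_mul 2
    rw [mul_zero] at h4
    refine h4.congr fun n => ?_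
    simp only [Function.comp_apply]
    ring
  have hsev : ∀ᶠ n in atTop, s n = 2 * Real.log n / n := by
    filter_upwards [eventually_ge_atTop 3,
      hlogdiv.eventually_lt_const (show (0 : ℝ) < 1 / 2 by norm_num)] with n a1 a2
    simp only [hs]
    rw [if_pos ⟨a1, a2⟩]
  have hs01 : ∀ n, 0 < s n ∧ s n < 1 := by
    intro n
    simp only [hs]
    split_ifs with hn
    · have h3 : (3 : ℝ) ≤ n := by exact_mod_cast hn.1
      have h4 : 0 < Real.log n := Real.log_pos (by linarith)
      exact ⟨by positivity, by linarith [hn.2]⟩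
    · norm_num
  have hs0 : Tendsto s atTop (𝓝 0) := hlogdiv.congr' (hsev.mono fun n hn => hn.symm)
  have hslim : Tendsto (fun n : ℕ => n * s n - Real.log n) atTop atTop := by
    have hlogn : Tendsto (fun n : ℕ => Real.log n) atTop atTop :=
      Real.tendsto_log_atTop.comp tendsto_natCast_atTop_atTop
    refine hlogn.congr' ?_
    filter_upwards [hsev, eventually_ge_atTop 1] with n a1 a2
    have a3 : (n : ℝ) ≠ 0 := by
      have : n ≠ 0 := by omega
      exact_mod_cast this
    rw [a1]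
    field_simp
    ring
  have hsuniv : IsUniversal p s := by
    have hmin : Tendsto (fun n : ℕ => n * min (s n) (1 - s n) - Real.log n) atTop atTop := by
      refine hslim.congr' ?_
      have h2 : ∀ᶠ n in atTop, s n < 1 / 2 := hs0.eventually_lt_const (by norm_num)
      filter_upwards [h2] with n hn
      rw [min_eq_left (by linarith)]
    exact isUniversal_of_small hp (fun n => (hs01 n).1.le) (fun n => (hs01 n).2.le)
      (tendsto_mul_of_log (fun n => (hs01 n).1) (fun n => (hs01 n).2) hmin)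
      (smallSupport_of_log p (fun n => (hs01 n).1) (fun n => (hs01 n).2) hmin)
  have hsconn := tendsto_connected hp (fun n => (hs01 n).1.le) (fun n => (hs01 n).2.le) hsuniv
  have hqconn := tendsto_connected hp (fun n => (h0 n).le) (fun n => (h1 n).le) h
  -- the mixed sequence
  set P : ℕ → Prop := fun n => n * q n - Real.log n ≤ M with hP
  set q' : ℕ → ℝ := fun n => if P n then q n else s n with hq'
  have h0' : ∀ n, 0 < q' n := by
    intro n
    simp only [hq']
    split_ifs
    · exact h0 n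
    · exact (hs01 n).1
  have h1' : ∀ n, q' n < 1 := by
    intro n
    simp only [hq']
    split_ifs
    · exact h1 n
    · exact (hs01 n).2
  have hq'0 : Tendsto q' atTop (𝓝 0) := by
    have a1 : Tendsto (fun n : ℕ => M / n + Real.log n / n) atTop (𝓝 0) := by
      have h3 : Tendsto (fun x : ℝ => Real.log x / x) atTop (𝓝 0) :=
        Real.isLittleO_log_id_atTop.tendsto_div_nhds_zero
      have h4 := (h3.comp tendsto_natCast_atTop_atTop)
      have h5 : Tendsto (fun n : ℕ => M / (n : ℝ)) atTop (𝓝 0) :=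
        tendsto_const_nhds.div_atTop tendsto_natCast_atTop_atTop
      have := h5.add h4
      rw [add_zero] at this
      exact this
    have a2 : Tendsto (fun n : ℕ => max (M / n + Real.log n / n) (s n)) atTop (𝓝 0) := by
      have := a1.max hs0
      rwa [max_self] at this
    refine tendsto_of_tendsto_of_tendsto_of_le_of_le' tendsto_const_nhds a2
      (Eventually.of_forall fun n => (h0' n).le) ?_
    filter_upwards [eventually_ge_atTop 1] with n hn
    have b1 : (0 : ℝ) < n := by exact_mod_cast hn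
    simp only [hq']
    split_ifs with hPn
    · refine le_trans ?_ (le_max_left _ _)
      rw [← add_div, le_div_iff₀ b1]
      simp only [hP] at hPn
      linarith
    · exact le_max_right _ _
  have hconn' : Tendsto (fun n : ℕ => gnpProb (n + 1) (q' (n + 1)) {G | G.Connected}) atTop
      (𝓝 1) := by
    rw [Metric.tendsto_nhds]
    intro ε hε
    filter_upwards [Metric.tendsto_nhds.mp hsconn ε hε, Metric.tendsto_nhds.mp hqconn ε hε]
      with n a1 a2
    simp only [hq']
    split_ifs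
    · exact a2
    · exact a1
  have hlim' := tendsto_atTop_of_connected q' h0' h1' hq'0 hconn'
  filter_upwards [hlim'.eventually_gt_atTop M] with n hn
  by_contra hcon
  push Not at hcon
  have hPn : P n := hcon.le
  have h3 : q' n = q n := by simp only [hq']; rw [if_pos hPn]
  rw [h3] at hn
  linarith

/-- The characterisation of all universal sequences. -/
theorem isUniversal_iff {p : ℕ} (hp : p.Prime) {q : ℕ → ℝ} (h0 : ∀ n, 0 < q n)
    (h1 : ∀ n, q n < 1) :
    IsUniversal p q ↔ Tendsto (fun n : ℕ => n * q n - Real.log n) atTop atTop ∧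
      Tendsto (fun n : ℕ => jmin p n * (n * (1 - q n)) - Real.log n -
        emax p n * Real.log (Real.log n)) atTop atTop :=
  ⟨fun h => ⟨sparse_threshold_of_isUniversal hp h0 h1 h, threshold_of_isUniversal hp h0 h1 h⟩,
    fun h => isUniversal_of_threshold hp h0 h1 h.1 h.2⟩

end Pool.Agent.Lib.MP_49901c_pr
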